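import Pool.Agent.Lib.MP_b53bfe_ag.Defs

/-!
# Basic lemmas on `Res`, `Kil`, `AFun`, `pl`, `Lm`, `th`
-/

set_option autoImplicit false

noncomputable section

namespace Pool.Agent.FY

open Polynomial

/-! ## Res and Kil -/

section

variable {R T : Type} [CommRing R] [CommRing T] {φ : R →+* T} {M N L : Type} [AddCommGroup M] [Module T M]
  [AddCommGroup N] [Module T N] [AddCommGroup L] [Module T L]

theorem Res.map_apply (l : M →ₗ[T] N) (m : M) : Res.map φ l (Res.mk φ m) = Res.mk φ (l m) := rfl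

theorem Res.map_inj {l : M →ₗ[T] N} (h : Function.Injective l) : Function.Injective (Res.map φ l) := h

theorem Res.map_surj {l : M →ₗ[T] N} (h : Function.Surjective l) : Function.Surjective (Res.map φ l) := h

theorem Res.map_exact {l : M →ₗ[T] N} {k : N →ₗ[T] L} (h : Function.Exact l k) :
    Function.Exact (Res.map φ l) (Res.map φ k) := h

theorem Res.finite (hφ : Function.Surjective φ) (h : Module.Finite T M) : Module.Finite R (Res φ M) := by
  obtain ⟨s, hs⟩ := h.fg_top
  have key : ∀ x : M, x ∈ Submodule.span T (s : Set M) →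
      Res.mk φ x ∈ Submodule.span R ((fun y : M => Res.mk φ y) '' (s : Set M)) := by
    intro x hx
    induction hx using Submodule.span_induction with
    | mem y hy => exact Submodule.subset_span ⟨y, hy, rfl⟩
    | zero => exact Submodule.zero_mem _
    | add y z _ _ hy hz => exact Submodule.add_mem _ hy hz
    | smul t y _ hy =>
      obtain ⟨r, rfl⟩ := hφ t
      exact Submodule.smul_mem _ r hy
  have hfin : ((fun y : M => Res.mk φ y) '' (s : Set M)).Finite := s.finite_toSet.image _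
  refine ⟨(Submodule.fg_def).2 ⟨_, hfin, ?_⟩⟩
  rw [eq_top_iff]
  intro x _
  exact key x.val (hs ▸ Submodule.mem_top)

theorem Kil.res {I : Set R} {I' : Set T} (hI : ∀ r ∈ I, φ r ∈ Ideal.span I') (h : Kil I' M) : Kil I (Res φ M) := by
  intro r hr m
  have key : ∀ t ∈ Ideal.span I', ∀ x : M, t • x = 0 := by
    intro t ht
    induction ht using Submodule.span_induction with
    | mem y hy => exact fun x => h y hy x
    | zero => exact fun x => zero_smul _ _
    | add y z _ _ hy hz => exact fun x => by rw [add_smul, hy, hz, add_zero]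
    | smul a y _ hy => exact fun x => by rw [smul_eq_mul, mul_smul, hy, smul_zero]
  exact key (φ r) (hI r hr) m.val

end

section

variable {R : Type} [CommRing R] {I J : Set R} {M N : Type} [AddCommGroup M] [Module R M] [AddCommGroup N] [Module R N]

theorem Kil.mono (h : J ⊆ I) (hM : Kil I M) : Kil J M := fun r hr m => hM r (h hr) m

theorem Kil.inj {l : M →ₗ[R] N} (h : Function.Injective l) (hN : Kil I N) : Kil I M := fun r hr m =>
  h (by rw [map_smul, hN r hr, map_zero])

theorem Kil.surj {l : M →ₗ[R] N} (h : Function.Surjective l) (hM : Kil I M) : Kil I N := fun r hr n => by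
  obtain ⟨m, rfl⟩ := h n
  rw [← map_smul, hM r hr, map_zero]

theorem Kil.sub (hM : Kil I M) (L : Submodule R M) : Kil I L := Kil.inj L.injective_subtype hM

theorem Kil.quot (hM : Kil I M) (L : Submodule R M) : Kil I (M ⧸ L) := Kil.surj L.mkQ_surjective hM

theorem Kil.union : Kil (I ∪ J) M ↔ Kil I M ∧ Kil J M :=
  ⟨fun h => ⟨fun r hr => h r (Or.inl hr), fun r hr => h r (Or.inr hr)⟩, fun h r hr => hr.elim (h.1 r) (h.2 r)⟩

theorem Kil.insert {a : R} : Kil (insert a I) M ↔ (∀ m : M, a • m = 0) ∧ Kil I M :=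
  ⟨fun h => ⟨h a (Or.inl rfl), fun r hr => h r (Or.inr hr)⟩, fun h r hr => by
    rcases hr with rfl | hr
    · exact h.1
    · exact h.2 r hr⟩

theorem Kil.pair {a b : R} : Kil ({a, b} ∪ I) M ↔ (∀ m : M, a • m = 0) ∧ (∀ m : M, b • m = 0) ∧ Kil I M := by
  rw [Kil.union, Kil.insert, and_assoc]
  refine and_congr_right fun _ => and_congr_left fun _ => ?_
  exact ⟨fun h => h b rfl, fun h r hr => by rw [Set.mem_singleton_iff.1 hr]; exact h⟩

end

/-! ## additive functions -/

section

variable {R : Type} [CommRing R] {I : Set R} {V : Type 1} [AddCommGroup V]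

/-- the same values on a smaller class of modules -/
def AFun.mono (χ : AFun R I V) (J : Set R) (h : ∀ (M : Type) [AddCommGroup M] [Module R M], Kil J M → Kil I M) : AFun R J V where
  f := χ.f
  add A B C _ _ _ _ _ _ i p hB hk := χ.add A B C i p hB (h B hk)

@[simp] theorem AFun.mono_f (χ : AFun R I V) (J : Set R)
    (h : ∀ (M : Type) [AddCommGroup M] [Module R M], Kil J M → Kil I M) (M : Type) [AddCommGroup M] [Module R M] :
    (χ.mono J h).f M = χ.f M := rfl

/-- the additive function `M ↦ χ (Res φ M)` for a surjective `φ : R → T` -/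
def AFun.res {T : Type} [CommRing T] (χ : AFun R I V) (φ : R →+* T) (hφ : Function.Surjective φ) (I' : Set T)
    (hI : ∀ r ∈ I, φ r ∈ Ideal.span I') : AFun T I' V where
  f M _ _ := χ.f (Res φ M)
  add A B C _ _ _ _ _ _ i p hB hk hi hp he :=
    χ.add (Res φ A) (Res φ B) (Res φ C) (Res.map φ i) (Res.map φ p) (Res.finite hφ hB) (Kil.res hI hk)
      (Res.map_inj hi) (Res.map_surj hp) (Res.map_exact he)

theorem AFun.prod (χ : AFun R I V) (A B : Type) [AddCommGroup A] [Module R A] [AddCommGroup B] [Module R B]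
    (hA : Module.Finite R A) (hB : Module.Finite R B) (kA : Kil I A) (kB : Kil I B) : χ.f (A × B) = χ.f A + χ.f B :=
  χ.add A (A × B) B (LinearMap.inl R A B) (LinearMap.snd R A B) inferInstance
    (fun r hr m => Prod.ext (kA r hr m.1) (kB r hr m.2)) LinearMap.inl_injective LinearMap.snd_surjective
    (fun x => ⟨fun h => ⟨x.1, Prod.ext rfl (Eq.symm h)⟩, fun ⟨a, ha⟩ => by rw [← ha]; rfl⟩)

/-- cyclic modules: `0 → T/(b) → T/(ab) → T/(a) → 0` for a nonzerodivisor `a` -/
theorem AFun.mul {T : Type} [CommRing T] (χ : AFun R I V) (φ : R →+* T) (hφ : Function.Surjective φ) (a b : T)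
    (ha : ∀ x : T, a * x = 0 → x = 0) (hk : ∀ r ∈ I, φ r ∈ Ideal.span {a * b}) :
    χ.f (Res φ (T ⧸ Ideal.span {a * b})) = χ.f (Res φ (T ⧸ Ideal.span {b})) + χ.f (Res φ (T ⧸ Ideal.span {a})) := by
  let i : (T ⧸ Ideal.span {b}) →ₗ[T] (T ⧸ Ideal.span {a * b}) :=
    Submodule.mapQ _ _ (LinearMap.lsmul T T a) (by
      rw [Ideal.span, Submodule.span_le]
      rintro x rfl
      show a * x ∈ Ideal.span {a * x}
      exact Ideal.mem_span_singleton_self _)
  let p : (T ⧸ Ideal.span {a * b}) →ₗ[T] (T ⧸ Ideal.span {a}) :=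
    Submodule.mapQ _ _ LinearMap.id (by
      rw [Ideal.span, Submodule.span_le]
      rintro x rfl
      exact Ideal.mem_span_singleton.2 (Dvd.intro _ rfl))
  refine χ.add _ _ _ (Res.map φ i) (Res.map φ p) (Res.finite hφ inferInstance) ?_ (Res.map_inj ?_) (Res.map_surj ?_)
    (Res.map_exact ?_)
  · refine Kil.res hk ?_
    intro r hr m
    obtain ⟨x, rfl⟩ := Submodule.Quotient.mk_surjective _ m
    rw [← Submodule.Quotient.mk_smul, Submodule.Quotient.mk_eq_zero, smul_eq_mul]
    rw [Set.mem_singleton_iff.1 hr]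
    exact Ideal.mem_span_singleton.2 (Dvd.intro _ rfl)
  · rw [injective_iff_map_eq_zero]
    intro m hm
    obtain ⟨x, rfl⟩ := Submodule.Quotient.mk_surjective _ m
    have h1 : (Submodule.Quotient.mk (a * x) : T ⧸ Ideal.span {a * b}) = 0 := hm
    rw [Submodule.Quotient.mk_eq_zero, Ideal.mem_span_singleton] at h1
    obtain ⟨c, hc⟩ := h1
    have h2 : x = b * c := by
      have := ha (x - b * c) (by rw [mul_sub, hc]; ring)
      exact sub_eq_zero.1 this
    rw [Submodule.Quotient.mk_eq_zero, Ideal.mem_span_singleton]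
    exact ⟨c, h2⟩
  · intro m
    obtain ⟨x, rfl⟩ := Submodule.Quotient.mk_surjective _ m
    exact ⟨Submodule.Quotient.mk x, rfl⟩
  · intro m
    obtain ⟨x, rfl⟩ := Submodule.Quotient.mk_surjective _ m
    constructor
    · intro hx
      have h1 : (Submodule.Quotient.mk x : T ⧸ Ideal.span {a}) = 0 := hx
      rw [Submodule.Quotient.mk_eq_zero, Ideal.mem_span_singleton] at h1
      obtain ⟨c, rfl⟩ := h1
      exact ⟨Submodule.Quotient.mk c, rfl⟩
    · rintro ⟨y, hy⟩
      obtain ⟨c, rfl⟩ := Submodule.Quotient.mk_surjective _ y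
      rw [← hy]
      show (Submodule.Quotient.mk (a * c) : T ⧸ Ideal.span {a}) = 0
      rw [Submodule.Quotient.mk_eq_zero, Ideal.mem_span_singleton]
      exact ⟨c, rfl⟩

/-- `χ (M / h M) = 0` if `h` is injective on `M` -/
theorem AFun.nzd (χ : AFun R I V) {M : Type} [AddCommGroup M] [Module R M] (hM : Module.Finite R M) (hk : Kil I M)
    (l : M →ₗ[R] M) (hl : Function.Injective l) : χ.f (M ⧸ LinearMap.range l) = 0 := by
  have h := χ.add M M (M ⧸ LinearMap.range l) l (LinearMap.range l).mkQ hM hk hl (Submodule.mkQ_surjective _)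
    (LinearMap.exact_iff.2 (Submodule.ker_mkQ _))
  have h2 : χ.f M + 0 = χ.f M + χ.f (M ⧸ LinearMap.range l) := by rw [add_zero]; exact h
  exact (add_left_cancel h2).symm

end

/-! ## lattices -/

section

variable {W : Type} [CommRing W] {M : Type} [AddCommGroup M] [Module W M] {f g : W} {β : M ≃ₗ[W] M} {L L' : Submodule W M}

theorem le_pl (β : M ≃ₗ[W] M) (L : Submodule W M) : L ≤ pl β L := le_sup_left

theorem map_le_pl (β : M ≃ₗ[W] M) (L : Submodule W M) : L.map β.toLinearMap ≤ pl β L := le_sup_right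

theorem mem_pl {x : M} : x ∈ pl β L ↔ ∃ y ∈ L, ∃ z ∈ L, x = y + β z := by
  rw [pl, Submodule.mem_sup]
  constructor
  · rintro ⟨y, hy, z, ⟨w, hw, rfl⟩, rfl⟩
    exact ⟨y, hy, w, hw, rfl⟩
  · rintro ⟨y, hy, z, hz, rfl⟩
    exact ⟨y, hy, β z, ⟨z, hz, rfl⟩, rfl⟩

theorem pl_mono (h : L ≤ L') : pl β L ≤ pl β L' := sup_le_sup h (Submodule.map_mono h)

theorem Lm_zero (β : M ≃ₗ[W] M) (L : Submodule W M) : Lm β L 0 = L := rfl

theorem Lm_succ (β : M ≃ₗ[W] M) (L : Submodule W M) (n : ℕ) : Lm β L (n + 1) = pl β (Lm β L n) :=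
  Function.iterate_succ_apply' _ _ _

theorem Lm_succ' (β : M ≃ₗ[W] M) (L : Submodule W M) (n : ℕ) : Lm β L (n + 1) = Lm β (pl β L) n := rfl

theorem Lm_add (β : M ≃ₗ[W] M) (L : Submodule W M) (m n : ℕ) : Lm β L (m + n) = Lm β (Lm β L n) m :=
  Function.iterate_add_apply _ _ _ _

theorem Lm_le_succ (β : M ≃ₗ[W] M) (L : Submodule W M) (n : ℕ) : Lm β L n ≤ Lm β L (n + 1) := by
  rw [Lm_succ]; exact le_pl _ _

theorem Lm_le (β : M ≃ₗ[W] M) (L : Submodule W M) {m n : ℕ} (h : m ≤ n) : Lm β L m ≤ Lm β L n :=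
  monotone_nat_of_le_succ (fun k => Lm_le_succ β L k) h

theorem Lm_mono (h : L ≤ L') (n : ℕ) : Lm β L n ≤ Lm β L' n := by
  induction n with
  | zero => exact h
  | succ n ih => rw [Lm_succ, Lm_succ]; exact pl_mono ih

theorem map_Lm_le (β : M ≃ₗ[W] M) (L : Submodule W M) (n : ℕ) : (Lm β L n).map β.toLinearMap ≤ Lm β L (n + 1) := by
  rw [Lm_succ]; exact map_le_pl _ _

theorem pow_mem_Lm {x : M} {n : ℕ} (hx : x ∈ Lm β L n) (a : ℕ) : (β ^ a) x ∈ Lm β L (n + a) := by
  induction a with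
  | zero => exact hx
  | succ a ih =>
    have h : (β ^ (a + 1)) x = β ((β ^ a) x) := by rw [pow_succ']; rfl
    rw [h]
    exact map_Lm_le β L (n + a) ⟨_, ih, rfl⟩

theorem pl_fg (h : L.FG) : (pl β L).FG := h.sup (h.map _)

theorem Lm_fg (h : L.FG) (n : ℕ) : (Lm β L n).FG := by
  induction n with
  | zero => exact h
  | succ n ih => rw [Lm_succ]; exact pl_fg ih

theorem Gen.mono (hG : Gen β L) (h : L ≤ L') : Gen β L' := fun m => by
  obtain ⟨a, b, hab⟩ := hG m
  exact ⟨a, b, Lm_mono h b hab⟩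

theorem Rel.apply (h : Rel f g β) (m : M) : β (g • m) = -(f • m) := by
  rw [eq_neg_iff_add_eq_zero, add_comm]; exact h m

theorem Rel.apply' (h : Rel f g β) (m : M) : g • β m = -(f • m) := by
  rw [← map_smul]; exact h.apply m

theorem mg_pl_le (h : Rel f g β) (L : Submodule W M) : (pl β L).map (mg M g) ≤ L := by
  rintro _ ⟨x, hx, rfl⟩
  obtain ⟨y, hy, z, hz, rfl⟩ := mem_pl.1 hx
  rw [mg_apply, smul_add, h.apply']
  exact L.add_mem (L.smul_mem _ hy) (L.neg_mem (L.smul_mem _ hz))

end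

end Pool.Agent.FY
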