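import Pool.Agent.Lib.MP_b53bfe_ag.Spec2
import Pool.Agent.Lib.MP_b53bfe_ag.Bas

/-!
# Theorem T1 (MP_b53bfe_ag), module Aa: the twists of the modules killed by a minor
-/

set_option autoImplicit false

noncomputable section

namespace Pool.Agent.FY

open Polynomial

namespace Aa_aux

section poly

variable {σ : Type} [DecidableEq σ]

theorem NI_add {i : σ} {r s : Po σ} (hr : NI i r) (hs : NI i s) : NI i (r + s) := by
  unfold NI at *
  rw [map_add, hr, hs, Polynomial.C_add]

theorem NI_mul {i : σ} {r s : Po σ} (hr : NI i r) (hs : NI i s) : NI i (r * s) := by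
  unfold NI at *
  rw [map_mul, hr, hs, Polynomial.C_mul]

theorem NI_zero (i : σ) : NI i (0 : Po σ) := by
  unfold NI
  rw [map_zero, Polynomial.C_0]

theorem NI_C (i : σ) (a : ℂ) : NI i (MvPolynomial.C a) := by
  unfold NI nu
  simp only [AlgHom.toRingHom_eq_coe, RingHom.coe_coe, MvPolynomial.algHom_C]
  rfl

theorem NI_X {i j : σ} (h : j ≠ i) : NI i (MvPolynomial.X j) := by
  unfold NI nu
  simp [h]

theorem NI_pow {i : σ} {r : Po σ} (hr : NI i r) (d : ℕ) : NI i (r ^ d) := by
  unfold NI at *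
  rw [map_pow, hr, Polynomial.C_pow]

theorem NI_sum {i : σ} {ι : Type} (s : Finset ι) (r : ι → Po σ) (h : ∀ a ∈ s, NI i (r a)) :
    NI i (∑ a ∈ s, r a) := by
  unfold NI at *
  rw [map_sum, map_sum]
  exact Finset.sum_congr rfl h

theorem nu_X_self (i : σ) : nu i (MvPolynomial.X i) = X := by
  unfold nu
  simp

theorem gz_C (i : σ) (z a : ℂ) : gz i z (MvPolynomial.C a) = MvPolynomial.C a := by
  simp [gz]

theorem gz_X_self (i : σ) (z : ℂ) : gz i z (MvPolynomial.X i) = MvPolynomial.C z * MvPolynomial.X i := by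
  simp [gz]

theorem gz_X_ne {i j : σ} (h : j ≠ i) (z : ℂ) : gz i z (MvPolynomial.X j) = MvPolynomial.X j := by
  simp [gz, h]

theorem gz_of_NI {i : σ} {r : Po σ} (h : NI i r) (z : ℂ) : gz i z r = r := by
  have key : (Polynomial.evalRingHom (MvPolynomial.C z * MvPolynomial.X i : Po σ)).comp (nu i) = gz i z := by
    refine MvPolynomial.ringHom_ext ?_ ?_
    · intro c
      rw [RingHom.comp_apply, show nu i (MvPolynomial.C c) = C (MvPolynomial.C c) from NI_C i c, gz_C,
        Polynomial.coe_evalRingHom, Polynomial.eval_C]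
    · intro j
      rw [RingHom.comp_apply]
      by_cases hj : j = i
      · subst hj
        rw [nu_X_self, gz_X_self, Polynomial.coe_evalRingHom, Polynomial.eval_X]
      · rw [show nu i (MvPolynomial.X j) = C (MvPolynomial.X j) from NI_X hj, gz_X_ne hj,
          Polynomial.coe_evalRingHom, Polynomial.eval_C]
  have h1 := RingHom.congr_fun key r
  have h2 : nu i r = C r := h
  rw [RingHom.comp_apply, h2, Polynomial.coe_evalRingHom, Polynomial.eval_C] at h1
  exact h1.symm

theorem dec (i : σ) (r : Po σ) : ∃ r' t : Po σ, NI i r' ∧ r = r' + t * MvPolynomial.X i := by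
  induction r using MvPolynomial.induction_on with
  | C a => exact ⟨MvPolynomial.C a, 0, NI_C i a, by ring⟩
  | add p q hp hq =>
    obtain ⟨p', s, hp', hp⟩ := hp
    obtain ⟨q', t, hq', hq⟩ := hq
    exact ⟨p' + q', s + t, NI_add hp' hq', by rw [hp, hq]; ring⟩
  | mul_X p j hp =>
    obtain ⟨p', s, hp', hp⟩ := hp
    by_cases h : j = i
    · subst h
      exact ⟨0, p, NI_zero j, by ring⟩
    · exact ⟨p' * MvPolynomial.X j, s * MvPolynomial.X j, NI_mul hp' (NI_X h), by rw [hp]; ring⟩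

/-- the module on which `X_i` acts by `0` is finite -/
theorem fin0 (i : σ) {d : ℕ} (hd : 1 ≤ d) {g : Po σ} (hg : NI i g) (M : Type) [AddCommGroup M]
    [Module (Po σ) M] (hM : Module.Finite (Po σ) M)
    (hk : ∀ m : M, (MvPolynomial.X i ^ d + g : Po σ) • m = 0) : Module.Finite (Po σ) (Res (gz i 0) M) := by
  classical
  obtain ⟨s, hs⟩ := hM.fg_top
  let T : Set M := ⋃ k ∈ Finset.range d, (fun y : M => (MvPolynomial.X i ^ k : Po σ) • y) '' (s : Set M)
  have hT : T.Finite := Set.Finite.biUnion (Finset.finite_toSet _) fun k _ => s.finite_toSet.image _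
  let S : Submodule (Po σ) (Res (gz i 0) M) := Submodule.span (Po σ) ((fun y : M => Res.mk (gz i 0) y) '' T)
  have hbase : ∀ k < d, ∀ y ∈ (s : Set M), Res.mk (gz i 0) ((MvPolynomial.X i ^ k : Po σ) • y) ∈ S := by
    intro k hk' y hy
    refine Submodule.subset_span ⟨_, ?_, rfl⟩
    exact Set.mem_biUnion (Finset.mem_coe.2 (Finset.mem_range.2 hk')) ⟨y, hy, rfl⟩
  have hNI : ∀ r : Po σ, NI i r → ∀ y : M, Res.mk (gz i 0) y ∈ S → Res.mk (gz i 0) (r • y) ∈ S := by
    intro r hr y hy
    have h1 := S.smul_mem r hy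
    rw [Res.smul_mk, gz_of_NI hr] at h1
    exact h1
  have hX : ∀ y : M, Res.mk (gz i 0) y ∈ S → Res.mk (gz i 0) ((MvPolynomial.X i : Po σ) • y) ∈ S := by
    intro y hy
    have key : ∀ w : Res (gz i 0) M, w ∈ S → Res.mk (gz i 0) ((MvPolynomial.X i : Po σ) • w.val) ∈ S := by
      intro w hw
      induction hw using Submodule.span_induction with
      | mem w hw =>
        obtain ⟨t, ht, rfl⟩ := hw
        obtain ⟨k, hk', y, hy, rfl⟩ := Set.mem_iUnion₂.1 ht
        have hk'' : k < d := Finset.mem_range.1 (Finset.mem_coe.1 hk')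
        show Res.mk (gz i 0) ((MvPolynomial.X i : Po σ) • ((MvPolynomial.X i ^ k : Po σ) • y)) ∈ S
        rw [← mul_smul, ← pow_succ']
        by_cases hkd : k + 1 < d
        · exact hbase _ hkd y hy
        · have e : k + 1 = d := by omega
          rw [e]
          have h1 := hk y
          rw [add_smul] at h1
          rw [eq_neg_of_add_eq_zero_left h1]
          have h2 := hNI g hg y (by
            have h3 := hbase 0 (by omega) y hy
            rw [pow_zero, one_smul] at h3
            exact h3)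
          exact S.neg_mem h2
      | zero =>
        show Res.mk (gz i 0) ((MvPolynomial.X i : Po σ) • (0 : M)) ∈ S
        rw [smul_zero]
        exact S.zero_mem
      | add a b _ _ ha hb =>
        show Res.mk (gz i 0) ((MvPolynomial.X i : Po σ) • (a.val + b.val)) ∈ S
        rw [smul_add]
        exact S.add_mem ha hb
      | smul r a _ ha =>
        show Res.mk (gz i 0) ((MvPolynomial.X i : Po σ) • (gz i 0 r • a.val)) ∈ S
        rw [smul_comm]
        exact S.smul_mem r ha
    exact key _ hy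
  have hall : ∀ r : Po σ, ∀ y : M, Res.mk (gz i 0) y ∈ S → Res.mk (gz i 0) (r • y) ∈ S := by
    intro r
    induction r using MvPolynomial.induction_on with
    | C a => exact hNI _ (NI_C i a)
    | add p q hp hq =>
      intro y hy
      rw [add_smul]
      exact S.add_mem (hp y hy) (hq y hy)
    | mul_X p j hp =>
      intro y hy
      rw [mul_smul]
      refine hp _ ?_
      by_cases hj : j = i
      · subst hj
        exact hX y hy
      · exact hNI _ (NI_X hj) y hy
  have htop : ∀ y : M, Res.mk (gz i 0) y ∈ S := by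
    intro y
    have h1 : y ∈ Submodule.span (Po σ) (s : Set M) := hs ▸ Submodule.mem_top
    induction h1 using Submodule.span_induction with
    | mem y hy =>
      have h3 := hbase 0 (by omega) y hy
      rw [pow_zero, one_smul] at h3
      exact h3
    | zero => exact S.zero_mem
    | add a b _ _ ha hb => exact S.add_mem ha hb
    | smul r a _ ha => exact hall r a ha
  refine ⟨(Submodule.fg_def).2 ⟨(fun y : M => Res.mk (gz i 0) y) '' T, hT.image _, ?_⟩⟩
  rw [eq_top_iff]
  intro x _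
  exact htop x.val

end poly

section gen

variable {R : Type} [CommRing R] {A B C : Type} [AddCommGroup A] [Module R A] [AddCommGroup B]
  [Module R B] [AddCommGroup C] [Module R C]

/-- the map on polynomial modules -/
def pm (l : A →ₗ[R] B) : PolynomialModule R A →ₗ[R[X]] PolynomialModule R B where
  toFun q := PolynomialModule.map R l q
  map_add' := map_add _
  map_smul' p q := by
    rw [PolynomialModule.map_smul, Algebra.algebraMap_self, Polynomial.map_id, RingHom.id_apply]

theorem pm_coeff (l : A →ₗ[R] B) (q : PolynomialModule R A) (k : ℕ) :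
    (pm l q).coeff k = l (q.coeff k) := rfl

theorem pm_ext {x y : PolynomialModule R A} (h : ∀ k, x.coeff k = y.coeff k) : x = y :=
  PolynomialModule.coeff_injective (Finsupp.ext h)

theorem pm_inj {l : A →ₗ[R] B} (h : Function.Injective l) : Function.Injective (pm l) := by
  intro x y hxy
  refine pm_ext fun k => h ?_
  rw [← pm_coeff, ← pm_coeff, hxy]

theorem pm_lift {l : A →ₗ[R] B} (y : PolynomialModule R B) (h : ∀ k, ∃ a, l a = y.coeff k) :
    ∃ x, pm l x = y := by
  choose s hs using h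
  classical
  refine ⟨PolynomialModule.ofCoeff R (Finsupp.onFinset y.coeff.support
    (fun k => if y.coeff k = 0 then 0 else s k) ?_), pm_ext fun k => ?_⟩
  · intro k hk
    rw [Finsupp.mem_support_iff]
    intro h0
    exact hk (if_pos h0)
  · rw [pm_coeff, PolynomialModule.coeff_ofCoeff, Finsupp.onFinset_apply]
    by_cases h0 : y.coeff k = 0
    · rw [if_pos h0, map_zero, h0]
    · rw [if_neg h0, hs]

theorem pm_surj {l : A →ₗ[R] B} (h : Function.Surjective l) : Function.Surjective (pm l) :=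
  fun y => pm_lift y fun _ => h _

theorem pm_exact {u : A →ₗ[R] B} {v : B →ₗ[R] C} (h : Function.Exact u v) :
    Function.Exact (pm u) (pm v) := by
  intro y
  constructor
  · intro hy
    refine pm_lift y fun k => ?_
    refine (h _).1 ?_
    rw [← pm_coeff, hy]
    rfl
  · rintro ⟨x, rfl⟩
    refine pm_ext fun k => ?_
    rw [pm_coeff, pm_coeff]
    exact (h _).2 ⟨_, rfl⟩

end gen

section ex

variable {σ : Type} [DecidableEq σ]

theorem ex_kil {i : σ} {I : Set (Po σ)} (hI : ∀ r ∈ I, NI i r) (P : Type) [AddCommGroup P]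
    [Module (Po σ) P] (hk : Kil I P) : Kil I (Ex i P) := by
  intro r hr m
  have h2 : nu i r = C r := hI r hr
  have h3 : r • m = Res.mk (nu i) ((C r : (Po σ)[X]) • m.val) := by rw [← h2]; rfl
  rw [h3]
  refine pm_ext fun k => ?_
  have := PolynomialModule.monomial_smul_apply 0 r m.val k
  rw [if_pos (Nat.zero_le k), hk r hr] at this
  exact this

theorem ex_finite (i : σ) (P : Type) [AddCommGroup P] [Module (Po σ) P]
    (hP : ∀ p : P, (MvPolynomial.X i : Po σ) • p = 0) (hfin : Module.Finite (Po σ) P) :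
    Module.Finite (Po σ) (Ex i P) := by
  obtain ⟨s, hs⟩ := hfin.fg_top
  let S : Submodule (Po σ) (Ex i P) :=
    Submodule.span (Po σ) ((fun y : P => Res.mk (nu i) (PolynomialModule.single (Po σ) 0 y)) '' (s : Set P))
  have key0 : ∀ x : P, x ∈ Submodule.span (Po σ) (s : Set P) →
      Res.mk (nu i) (PolynomialModule.single (Po σ) 0 x) ∈ S := by
    intro x hx
    induction hx using Submodule.span_induction with
    | mem y hy => exact Submodule.subset_span ⟨y, hy, rfl⟩
    | zero => rw [PolynomialModule.single_zero]; exact Submodule.zero_mem _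
    | add y z _ _ hy hz => rw [PolynomialModule.single_add]; exact Submodule.add_mem _ hy hz
    | smul r y _ hy =>
      obtain ⟨r', t, hr', hr⟩ := dec i r
      have e1 : r • y = r' • y := by
        rw [hr, add_smul, mul_smul, hP, smul_zero, add_zero]
      have h1 := S.smul_mem r' hy
      rw [Res.smul_mk, show nu i r' = C r' from hr', ← Polynomial.monomial_zero_left,
        PolynomialModule.monomial_smul_single, zero_add, ← e1] at h1
      exact h1
  have key1 : ∀ (n : ℕ) (x : P), Res.mk (nu i) (PolynomialModule.single (Po σ) n x) ∈ S := by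
    intro n x
    have h0 := key0 x (hs ▸ Submodule.mem_top)
    have h1 := Submodule.smul_mem S ((MvPolynomial.X i : Po σ) ^ n) h0
    have h2 : (MvPolynomial.X i : Po σ) ^ n • Res.mk (nu i) (PolynomialModule.single (Po σ) 0 x)
        = Res.mk (nu i) (PolynomialModule.single (Po σ) n x) := by
      rw [Res.smul_mk, map_pow, nu_X_self, ← Polynomial.monomial_one_right_eq_X_pow,
        PolynomialModule.monomial_smul_single, one_smul, add_zero]
    rw [h2] at h1
    exact h1
  have key2 : ∀ x : PolynomialModule (Po σ) P, Res.mk (nu i) x ∈ S := by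
    intro x
    induction x using PolynomialModule.induction_linear with
    | zero => exact Submodule.zero_mem _
    | add f g hf hg => exact Submodule.add_mem _ hf hg
    | single n m => exact key1 n m
  refine ⟨(Submodule.fg_def).2
    ⟨(fun y : P => Res.mk (nu i) (PolynomialModule.single (Po σ) 0 y)) '' (s : Set P),
      s.finite_toSet.image _, ?_⟩⟩
  rw [eq_top_iff]
  intro x _
  exact key2 x.val

theorem th_mk_zero (i : σ) (d : ℕ) (g : Po σ) (B : Type) [AddCommGroup B] [Module (Po σ) B]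
    (r : Po σ) (h : ∀ q : PolynomialModule (Po σ) B,
      ∃ q', nu i r • q = (X ^ d + C g : (Po σ)[X]) • q') (m : Th i d g B) : r • m = 0 := by
  obtain ⟨q, hq⟩ := Submodule.Quotient.mk_surjective _ m.val
  have h1 : r • m = Res.mk (nu i) (Submodule.Quotient.mk ((nu i r) • q)) := by
    rw [Submodule.Quotient.mk_smul, hq]
    rfl
  rw [h1]
  obtain ⟨q', hq'⟩ := h q
  refine (Submodule.Quotient.mk_eq_zero _).2 ?_
  exact ⟨q', hq'.symm⟩

theorem th_kil {i : σ} {I₀ : Set (Po σ)} (hI : ∀ r ∈ I₀, NI i r) (d : ℕ) {g : Po σ}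
    (hg : NI i g) (B : Type) [AddCommGroup B] [Module (Po σ) B] (hk : Kil I₀ B) :
    Kil (insert (MvPolynomial.X i ^ d + g) I₀) (Th i d g B) := by
  rw [Kil.insert]
  constructor
  · intro m
    refine th_mk_zero i d g B _ (fun q => ⟨q, ?_⟩) m
    rw [map_add, map_pow, nu_X_self, show nu i g = C g from hg]
  · intro r hr m
    refine th_mk_zero i d g B _ (fun q => ⟨0, ?_⟩) m
    rw [smul_zero, show nu i r = C r from hI r hr]
    refine pm_ext fun k => ?_
    have := PolynomialModule.monomial_smul_apply 0 r q k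
    rw [if_pos (Nat.zero_le k), hk r hr] at this
    exact this

theorem th_finite (i : σ) (d : ℕ) (g : Po σ) (B : Type) [AddCommGroup B] [Module (Po σ) B]
    (hB : Module.Finite (Po σ) B) (hk : ∀ b : B, (MvPolynomial.X i : Po σ) • b = 0) :
    Module.Finite (Po σ) (Th i d g B) := by
  have h1 : Module.Finite (Po σ) (Ex i B) := ex_finite i B hk hB
  exact Module.Finite.of_surjective (Res.map (nu i) (Submodule.mkQ
    (LinearMap.range (mg (PolynomialModule (Po σ) B) (X ^ d + C g : (Po σ)[X])))))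
    (Res.map_surj (Submodule.mkQ_surjective _))

end ex

section rows

variable {n : ℕ}

/-- the forms of the other rows -/
def I0 (n d : ℕ) (k : Fin 3) : Set (Po (Ix n)) := {r | ∃ l, l ≠ k ∧ r = sF n d l}

/-- the other variables of a row -/
def ga (n d : ℕ) (k : Fin 3) (a : Fin (n + 3)) : Po (Ix n) := ∑ j ∈ Finset.univ.erase a, xv n k j ^ d

/-- the other variables of a row -/
def gab (n d : ℕ) (k : Fin 3) (a b : Fin (n + 3)) : Po (Ix n) :=
  ∑ j ∈ (Finset.univ.erase a).erase b, xv n k j ^ d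

theorem sF_ga (d : ℕ) (k : Fin 3) (a : Fin (n + 3)) :
    (MvPolynomial.X ((k, a) : Ix n) ^ d + ga n d k a : Po (Ix n)) = sF n d k :=
  Finset.add_sum_erase _ (fun j => xv n k j ^ d) (Finset.mem_univ a)

theorem ga_gab (d : ℕ) (k : Fin 3) {a b : Fin (n + 3)} (h : b ≠ a) :
    (MvPolynomial.X ((k, b) : Ix n) ^ d + gab n d k a b : Po (Ix n)) = ga n d k a :=
  Finset.add_sum_erase _ (fun j => xv n k j ^ d) (Finset.mem_erase.2 ⟨h, Finset.mem_univ b⟩)

theorem NI_ga (d : ℕ) (k : Fin 3) (a : Fin (n + 3)) : NI ((k, a) : Ix n) (ga n d k a) := by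
  refine NI_sum _ _ fun j hj => NI_pow (NI_X ?_) d
  intro h
  exact (Finset.mem_erase.1 hj).1 (congrArg Prod.snd h)

theorem NI_gab (d : ℕ) (k : Fin 3) (a b : Fin (n + 3)) :
    NI ((k, a) : Ix n) (gab n d k a b) ∧ NI ((k, b) : Ix n) (gab n d k a b) := by
  constructor
  · refine NI_sum _ _ fun j hj => NI_pow (NI_X ?_) d
    intro h
    exact (Finset.mem_erase.1 (Finset.mem_erase.1 hj).2).1 (congrArg Prod.snd h)
  · refine NI_sum _ _ fun j hj => NI_pow (NI_X ?_) d
    intro h
    exact (Finset.mem_erase.1 hj).1 (congrArg Prod.snd h)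

theorem NI_sF (d : ℕ) {k l : Fin 3} (h : l ≠ k) (a : Fin (n + 3)) : NI ((k, a) : Ix n) (sF n d l) := by
  refine NI_sum _ _ fun j _ => NI_pow (NI_X ?_) d
  intro h'
  exact h (congrArg Prod.fst h')

theorem NI_I0 (d : ℕ) (k : Fin 3) (a : Fin (n + 3)) : ∀ r ∈ I0 n d k, NI ((k, a) : Ix n) r := by
  rintro r ⟨l, hl, rfl⟩
  exact NI_sF d hl a

theorem range_eq (d : ℕ) (k : Fin 3) : Set.range (sF n d) = insert (sF n d k) (I0 n d k) := by
  ext r
  constructor
  · rintro ⟨l, rfl⟩
    by_cases h : l = k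
    · left
      rw [h]
    · right
      exact ⟨l, h, rfl⟩
  · rintro (rfl | ⟨l, -, rfl⟩)
    · exact ⟨k, rfl⟩
    · exact ⟨l, rfl⟩

/-- modules killed by a variable -/
theorem van (hKv : S_Kv) {d : ℕ} {V : Type 1} [AddCommGroup V] [Module ℚ V]
    (χ : AFun (Po (Ix n)) (Set.range (sF n d)) V) (hd : 1 ≤ d) (k : Fin 3) {a b : Fin (n + 3)}
    (hab : b ≠ a) (N : Type) [AddCommGroup N] [Module (Po (Ix n)) N] (hN : Module.Finite (Po (Ix n)) N)
    (hk : Kil (Set.range (sF n d)) N) (hX : ∀ x : N, (MvPolynomial.X ((k, a) : Ix n) : Po (Ix n)) • x = 0) :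
    χ.f N = 0 := by
  have e : (MvPolynomial.X ((k, a) : Ix n) ^ d + (MvPolynomial.X ((k, b) : Ix n) ^ d + gab n d k a b) :
      Po (Ix n)) = sF n d k := by
    rw [ga_gab d k hab, sF_ga]
  have hset : (insert (MvPolynomial.X ((k, a) : Ix n) ^ d +
      (MvPolynomial.X ((k, b) : Ix n) ^ d + gab n d k a b)) (I0 n d k) : Set (Po (Ix n))) =
      Set.range (sF n d) := by
    rw [e, ← range_eq]
  have h := hKv (Ix n) (k, a) (k, b) (I0 n d k) V d (gab n d k a b)
    (χ.mono _ fun M _ _ h => by rw [hset] at h; exact h) hd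
    (fun h => hab (congrArg Prod.snd h).symm) (NI_gab d k a b).1 (NI_gab d k a b).2
    (fun r hr => ⟨NI_I0 d k a r hr, NI_I0 d k b r hr⟩) N hN (by rw [hset]; exact hk) hX
  exact h

end rows

end Aa_aux

open Aa_aux

theorem tAa : S_Hb → S_Tha → S_Ths → S_Kv → S_Aa := by
  intro hHb hTha hThs hKv n d V _ _ χ ζ hd hζ i i' hii M _ _ hM hk hmn
  have h01 : (0 : Fin (n + 3)) ≠ 1 := by
    rw [Ne, Fin.ext_iff, Fin.val_zero, Fin.val_one]
    omega
  have h12 : (1 : Fin (n + 3)) ≠ 2 := by
    rw [Ne, Fin.ext_iff, Fin.val_one, Fin.val_two]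
    omega
  have h02 : (0 : Fin (n + 3)) ≠ 2 := by
    rw [Ne, Fin.ext_iff, Fin.val_zero, Fin.val_two]
    omega
  have hset : (insert (MvPolynomial.X ((i, 1) : Ix n) ^ d + ga n d i 1) (I0 n d i) : Set (Po (Ix n))) =
      Set.range (sF n d) := by
    rw [sF_ga, ← range_eq]
  have hNg : NI ((i, 1) : Ix n) (ga n d i 1) := NI_ga d i 1
  have hNI : ∀ r ∈ I0 n d i, NI ((i, 1) : Ix n) r := NI_I0 d i 1
  have hm := fun (M : Type) [AddCommGroup M] [Module (Po (Ix n)) M]
    (h : Kil (insert (MvPolynomial.X ((i, 1) : Ix n) ^ d + ga n d i 1) (I0 n d i)) M) =>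
    show Kil (Set.range (sF n d)) M by rw [hset] at h; exact h
  have h1 := hThs (Ix n) (i, 1) (I0 n d i) V d (ga n d i 1) (χ.mono _ hm) ζ hd hNg hNI hζ M hM
    (by rw [hset]; exact hk)
  obtain ⟨ψ, hψ⟩ := hTha (Ix n) (i, 1) (I0 n d i) V d (ga n d i 1) (χ.mono _ hm) hd hNg hNI
  have h2 : (∑ m ∈ Finset.range d, χ.f (Res (gz ((i, 1) : Ix n) (ζ ^ m)) M)) =
      ψ.f (Res (gz ((i, 1) : Ix n) 0) M) := h1.trans (hψ _).symm
  rw [h2]
  have hNIy : ∀ r ∈ (insert (MvPolynomial.X ((i, 1) : Ix n)) (I0 n d i) : Set (Po (Ix n))),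
      NI ((i, 2) : Ix n) r := by
    rintro r (rfl | hr)
    · exact NI_X fun h => h12 (congrArg Prod.snd h)
    · exact NI_I0 d i 2 r hr
  -- the key
  have key : ∀ (N : Type) [AddCommGroup N] [Module (Po (Ix n)) N], Module.Finite (Po (Ix n)) N →
      Kil (insert (MvPolynomial.X ((i, 1) : Ix n)) (I0 n d i)) N →
      (∀ q : N, (MvPolynomial.X ((i, 2) : Ix n) : Po (Ix n)) • q = 0) →
      (∀ q : N, (MvPolynomial.X ((i, 0) : Ix n) : Po (Ix n)) •
        ((MvPolynomial.X ((i', 2) : Ix n) : Po (Ix n)) • q) = 0) → ψ.f (Ex ((i, 2) : Ix n) N) = 0 := by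
    intro N _ _ hN hkN hyN hzv
    have key1 : ∀ (P : Type) [AddCommGroup P] [Module (Po (Ix n)) P], Module.Finite (Po (Ix n)) P →
        Kil (insert (MvPolynomial.X ((i, 1) : Ix n)) (I0 n d i)) P →
        (∀ q : P, (MvPolynomial.X ((i, 2) : Ix n) : Po (Ix n)) • q = 0) →
        ∀ (k : Fin 3) (a b : Fin (n + 3)), b ≠ a → (k, a) ≠ (i, (1 : Fin (n + 3))) →
        (k, a) ≠ (i, (2 : Fin (n + 3))) →
        (∀ q : P, (MvPolynomial.X ((k, a) : Ix n) : Po (Ix n)) • q = 0) →
        ψ.f (Ex ((i, 2) : Ix n) P) = 0 := by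
      intro P _ _ hP hkP hyP k a b hab ha1 ha2 haP
      rw [hψ]
      have f1 : Module.Finite (Po (Ix n)) (Ex ((i, 2) : Ix n) P) := ex_finite _ P hyP hP
      have k1 : Kil (insert (MvPolynomial.X ((i, 1) : Ix n)) (I0 n d i)) (Ex ((i, 2) : Ix n) P) :=
        ex_kil hNIy P hkP
      have k2 : Kil {(MvPolynomial.X ((k, a) : Ix n) : Po (Ix n))} (Ex ((i, 2) : Ix n) P) := by
        refine ex_kil (fun r hr => ?_) P fun r hr => ?_
        · rw [Set.mem_singleton_iff.1 hr]
          exact NI_X ha2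
        · rw [Set.mem_singleton_iff.1 hr]
          exact haP
      have k3 : Kil (insert (MvPolynomial.X ((i, 1) : Ix n) ^ d + ga n d i 1)
          {(MvPolynomial.X ((k, a) : Ix n) : Po (Ix n))})
          (Th ((i, 1) : Ix n) d (ga n d i 1) (Ex ((i, 2) : Ix n) P)) := by
        refine th_kil (fun r hr => ?_) d hNg _ k2
        rw [Set.mem_singleton_iff.1 hr]
        exact NI_X ha1
      refine van hKv χ hd k hab _ (th_finite _ d _ _ f1 (Kil.insert.1 k1).1) ?_
        fun q => (Kil.insert.1 k3).2 _ (Set.mem_singleton _) q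
      rw [← hset]
      exact th_kil hNI d hNg _ (Kil.insert.1 k1).2
    obtain ⟨Nv, hNv⟩ : ∃ Nv : Submodule (Po (Ix n)) N,
        Nv = LinearMap.range (mg N (MvPolynomial.X ((i', 2) : Ix n) : Po (Ix n))) := ⟨_, rfl⟩
    have hNoe : IsNoetherian (Po (Ix n)) N := isNoetherian_of_isNoetherianRing_of_finite (Po (Ix n)) N
    have hadd : ψ.f (Ex ((i, 2) : Ix n) N) = ψ.f (Ex ((i, 2) : Ix n) Nv) +
        ψ.f (Ex ((i, 2) : Ix n) (N ⧸ Nv)) :=
      ψ.add _ _ _ (Res.map (nu ((i, 2) : Ix n)) (pm Nv.subtype)) (Res.map (nu ((i, 2) : Ix n)) (pm Nv.mkQ))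
        (ex_finite _ N hyN hN) (ex_kil hNIy N hkN) (Res.map_inj (pm_inj Nv.injective_subtype))
        (Res.map_surj (pm_surj Nv.mkQ_surjective))
        (Res.map_exact (pm_exact (LinearMap.exact_subtype_mkQ Nv)))
    rw [hadd, key1 Nv inferInstance (hkN.sub Nv) (fun q => Subtype.ext (hyN q)) i 0 1 h01.symm
      (fun h => h01 (congrArg Prod.snd h)) (fun h => h02 (congrArg Prod.snd h)) ?_,
      key1 (N ⧸ Nv) inferInstance (hkN.quot Nv) ?_ i' 2 0 h02
        (fun h => h12 (congrArg Prod.snd h).symm) (fun h => hii (congrArg Prod.fst h).symm) ?_, add_zero]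
    · intro q
      obtain ⟨w, rfl⟩ := Nv.mkQ_surjective q
      rw [← map_smul, hyN, map_zero]
    · intro q
      obtain ⟨w, rfl⟩ := Nv.mkQ_surjective q
      rw [← map_smul, Submodule.mkQ_apply, Submodule.Quotient.mk_eq_zero, hNv]
      exact ⟨w, rfl⟩
    · intro q
      have hq : (q : N) ∈ LinearMap.range (mg N (MvPolynomial.X ((i', 2) : Ix n) : Po (Ix n))) :=
        hNv ▸ q.2
      obtain ⟨w, hw⟩ := hq
      apply Subtype.ext
      show (MvPolynomial.X ((i, 0) : Ix n) : Po (Ix n)) • (q : N) = 0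
      rw [← hw]
      exact hzv w
  -- the module `M'`
  obtain ⟨-, hk2⟩ := Kil.insert.1 (show Kil (insert (MvPolynomial.X ((i, 1) : Ix n) ^ d + ga n d i 1)
    (I0 n d i)) M by rw [hset]; exact hk)
  have fM' : Module.Finite (Po (Ix n)) (Res (gz ((i, 1) : Ix n) 0) M) := by
    refine fin0 _ hd hNg M hM fun m => ?_
    rw [sF_ga]
    exact hk _ ⟨i, rfl⟩ m
  have hNoe' : IsNoetherian (Po (Ix n)) (Res (gz ((i, 1) : Ix n) 0) M) :=
    isNoetherian_of_isNoetherianRing_of_finite (Po (Ix n)) _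
  have kM' : Kil (insert (MvPolynomial.X ((i, 1) : Ix n)) (I0 n d i)) (Res (gz ((i, 1) : Ix n) 0) M) := by
    refine Kil.insert.2 ⟨fun m => ?_, fun r hr m => ?_⟩
    · show gz ((i, 1) : Ix n) 0 (MvPolynomial.X ((i, 1) : Ix n)) • m.val = 0
      rw [gz_X_self, MvPolynomial.C_0, zero_mul, zero_smul]
    · show gz ((i, 1) : Ix n) 0 r • m.val = 0
      rw [gz_of_NI (hNI r hr)]
      exact hk2 r hr m.val
  have minor : ∀ m : Res (gz ((i, 1) : Ix n) 0) M, (MvPolynomial.X ((i, 0) : Ix n) : Po (Ix n)) •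
      ((MvPolynomial.X ((i', 2) : Ix n) : Po (Ix n)) • m) =
      (MvPolynomial.X ((i, 2) : Ix n) : Po (Ix n)) • ((MvPolynomial.X ((i', 0) : Ix n) : Po (Ix n)) • m) := by
    intro m
    have e1 := hmn m.val
    rw [mn, sub_smul, sub_eq_zero, mul_smul, mul_smul] at e1
    show gz ((i, 1) : Ix n) 0 (MvPolynomial.X ((i, 0) : Ix n)) •
      (gz ((i, 1) : Ix n) 0 (MvPolynomial.X ((i', 2) : Ix n)) • m.val) =
      gz ((i, 1) : Ix n) 0 (MvPolynomial.X ((i, 2) : Ix n)) •
      (gz ((i, 1) : Ix n) 0 (MvPolynomial.X ((i', 0) : Ix n)) • m.val)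
    rw [gz_X_ne (fun h => h01 (congrArg Prod.snd h)), gz_X_ne (fun h => h12 (congrArg Prod.snd h).symm),
      gz_X_ne (fun h => h12 (congrArg Prod.snd h).symm), gz_X_ne (fun h => h01 (congrArg Prod.snd h))]
    exact e1
  rw [hHb (Ix n) (i, 2) _ V ψ (Res (gz ((i, 1) : Ix n) 0) M) hNIy fM' kM',
    key _ inferInstance (kM'.quot _) ?_ ?_, key _ inferInstance (kM'.sub _) ?_ ?_, sub_self]
  · intro q
    exact Subtype.ext q.2
  · intro q
    apply Subtype.ext
    show (MvPolynomial.X ((i, 0) : Ix n) : Po (Ix n)) •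
      ((MvPolynomial.X ((i', 2) : Ix n) : Po (Ix n)) • (q : Res (gz ((i, 1) : Ix n) 0) M)) = 0
    rw [minor, smul_comm]
    have h3 : (MvPolynomial.X ((i, 2) : Ix n) : Po (Ix n)) • (q : Res (gz ((i, 1) : Ix n) 0) M) = 0 := q.2
    rw [h3, smul_zero]
  · intro q
    obtain ⟨w, rfl⟩ := Submodule.mkQ_surjective _ q
    rw [← map_smul, Submodule.mkQ_apply, Submodule.Quotient.mk_eq_zero]
    exact ⟨w, rfl⟩
  · intro q
    obtain ⟨w, rfl⟩ := Submodule.mkQ_surjective _ q
    rw [← map_smul, ← map_smul, minor, Submodule.mkQ_apply, Submodule.Quotient.mk_eq_zero]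
    exact ⟨_, rfl⟩

end Pool.Agent.FY
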