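import Pool.Agent.Lib.MP_b53bfe_ag.Spec2
import Pool.Agent.Lib.MP_b53bfe_ag.Bas

set_option autoImplicit false

noncomputable section

namespace Pool.Agent.FY

open Polynomial

namespace Ab_aux

section

variable {σ : Type} [DecidableEq σ]

theorem gz_C (i : σ) (z a : ℂ) : gz i z (MvPolynomial.C a) = MvPolynomial.C a := by
  simp [gz, MvPolynomial.algebraMap_eq]

theorem gz_X (i : σ) (z : ℂ) (j : σ) : gz i z (MvPolynomial.X j) =
    if j = i then MvPolynomial.C z * MvPolynomial.X j else MvPolynomial.X j := by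
  simp [gz]

theorem gz_comp (i : σ) (z w : ℂ) : (gz i z).comp (gz i w) = gz i (w * z) := by
  refine MvPolynomial.ringHom_ext (fun a => ?_) (fun j => ?_)
  · simp [gz_C]
  · by_cases h : j = i
    · simp [gz_X, gz_C, h, mul_assoc]
    · simp [gz_X, h]

theorem gz_one (i : σ) : gz i 1 = RingHom.id (Po σ) := by
  refine MvPolynomial.ringHom_ext (fun a => ?_) (fun j => ?_)
  · simp [gz_C]
  · by_cases h : j = i
    · simp [gz_X, h]
    · simp [gz_X, h]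

theorem gz_comm (i k : σ) (z w : ℂ) (hik : i ≠ k) : (gz i z).comp (gz k w) = (gz k w).comp (gz i z) := by
  refine MvPolynomial.ringHom_ext (fun a => ?_) (fun j => ?_)
  · simp [gz_C]
  · by_cases h : j = i
    · subst h
      simp [gz_X, gz_C, hik]
    · by_cases h' : j = k
      · subst h'
        simp [gz_X, gz_C, h]
      · simp [gz_X, h, h']

theorem gz_surj (i : σ) (z : ℂ) (hz : z ≠ 0) : Function.Surjective (gz i z) := by
  intro r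
  refine ⟨gz i z⁻¹ r, ?_⟩
  have h := congrArg (fun φ : Po σ →+* Po σ => φ r) (gz_comp i z z⁻¹)
  simp only [RingHom.comp_apply, inv_mul_cancel₀ hz, gz_one, RingHom.id_apply] at h
  exact h

end

/-- restriction of scalars twice -/
def rr {R S T : Type} [CommRing R] [CommRing S] [CommRing T] (φ : R →+* S) (ψ : S →+* T) (θ : R →+* T)
    (h : ψ.comp φ = θ) (M : Type) [AddCommGroup M] [Module T M] : Res φ (Res ψ M) ≃ₗ[R] Res θ M where
  toFun m := Res.mk θ (Res.val (Res.val m))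
  map_add' _ _ := rfl
  map_smul' r m := by
    subst h
    rfl
  invFun m := Res.mk φ (Res.mk ψ (Res.val m))
  left_inv _ := rfl
  right_inv _ := rfl

theorem sum_shift {V : Type 1} [AddCommGroup V] (d : ℕ) (F : ℕ → V) (hF : ∀ k, F (k + d) = F k) (l : ℕ) :
    ∑ m ∈ Finset.range d, F (m + l) = ∑ m ∈ Finset.range d, F m := by
  induction l with
  | zero => rfl
  | succ l ih =>
    rw [← ih]
    have h1 := Finset.sum_range_succ (fun m => F (m + l)) d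
    have h2 := Finset.sum_range_succ' (fun m => F (m + l)) d
    rw [h1] at h2
    have h3 : F (d + l) = F l := by rw [add_comm]; exact hF l
    have h4 : ∑ m ∈ Finset.range d, F (m + (l + 1)) = ∑ m ∈ Finset.range d, F (m + 1 + l) :=
      Finset.sum_congr rfl (fun m _ => by congr 1; ring)
    rw [h3] at h2
    simp only [zero_add] at h2
    rw [h4]
    exact (add_right_cancel h2).symm

section

variable {n d : ℕ} {V : Type 1} [AddCommGroup V] [Module ℚ V]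

theorem gz_sF (i : Fin 3) (z : ℂ) (hz : z ^ d = 1) (i' : Fin 3) :
    gz ((i, 1) : Ix n) z (sF n d i') = sF n d i' := by
  unfold sF xv
  rw [map_sum]
  refine Finset.sum_congr rfl (fun j _ => ?_)
  rw [map_pow, gz_X]
  split_ifs with h
  · rw [mul_pow, ← map_pow, hz, map_one, one_mul]
  · rfl

theorem hI (i : Fin 3) (z : ℂ) (hz : z ^ d = 1) :
    ∀ r ∈ Set.range (sF n d), gz ((i, 1) : Ix n) z r ∈ Ideal.span (Set.range (sF n d)) := by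
  rintro r ⟨i', rfl⟩
  rw [gz_sF i z hz]
  exact Ideal.subset_span ⟨i', rfl⟩

/-- the difference of an additive function and its average -/
def Dv (χ : AFun (Po (Ix n)) (Set.range (sF n d)) V) (ζ : ℂ) (hζ : ζ ^ d = 1) (hζ0 : ζ ≠ 0) (i : Fin 3) :
    AFun (Po (Ix n)) (Set.range (sF n d)) V where
  f M _ _ := χ.f M - ((d : ℚ)⁻¹) • ∑ m ∈ Finset.range d, χ.f (Res (gz ((i, 1) : Ix n) (ζ ^ m)) M)
  add A B C _ _ _ _ _ _ a p hB hk ha hp he := by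
    have h1 : ∀ m : ℕ, (ζ ^ m) ^ d = 1 := fun m => by rw [← pow_mul, mul_comm, pow_mul, hζ, one_pow]
    have h2 : ∀ m : ℕ, χ.f (Res (gz ((i, 1) : Ix n) (ζ ^ m)) B) =
        χ.f (Res (gz ((i, 1) : Ix n) (ζ ^ m)) A) + χ.f (Res (gz ((i, 1) : Ix n) (ζ ^ m)) C) := fun m =>
      (χ.res (gz ((i, 1) : Ix n) (ζ ^ m)) (gz_surj _ _ (pow_ne_zero m hζ0)) (Set.range (sF n d))
        (hI i _ (h1 m))).add A B C a p hB hk ha hp he
    rw [χ.add A B C a p hB hk ha hp he, Finset.sum_congr rfl (fun m _ => h2 m), Finset.sum_add_distrib,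
      smul_add]
    abel

theorem finR (i : Fin 3) (z : ℂ) (hz0 : z ≠ 0) {M : Type} [AddCommGroup M] [Module (Po (Ix n)) M]
    (hM : Module.Finite (Po (Ix n)) M) : Module.Finite (Po (Ix n)) (Res (gz ((i, 1) : Ix n) z) M) :=
  Res.finite (gz_surj _ _ hz0) hM

theorem kilR (i : Fin 3) (z : ℂ) (hz : z ^ d = 1) {M : Type} [AddCommGroup M] [Module (Po (Ix n)) M]
    (hM : Kil (Set.range (sF n d)) M) : Kil (Set.range (sF n d)) (Res (gz ((i, 1) : Ix n) z) M) :=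
  Kil.res (hI i z hz) hM

theorem PP_self (χ : AFun (Po (Ix n)) (Set.range (sF n d)) V) (ζ : ℂ) (hζ : ζ ^ d = 1) (hζ0 : ζ ≠ 0)
    (hd : 1 ≤ d) (i : Fin 3) : PP (Dv χ ζ hζ hζ0 i) ((i, 1) : Ix n) d ζ := by
  intro M _ _ hM hk
  have h1 : ∀ m : ℕ, (ζ ^ m) ^ d = 1 := fun m => by rw [← pow_mul, mul_comm, pow_mul, hζ, one_pow]
  have h0 : ∀ m : ℕ, ζ ^ m ≠ 0 := fun m => pow_ne_zero m hζ0
  have h2 : ∀ l m : ℕ, χ.f (Res (gz ((i, 1) : Ix n) (ζ ^ m)) (Res (gz ((i, 1) : Ix n) (ζ ^ l)) M)) =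
      χ.f (Res (gz ((i, 1) : Ix n) (ζ ^ (m + l))) M) := by
    intro l m
    refine χ.iso (rr _ _ _ ?_ M) (finR i _ (h0 m) (finR i _ (h0 l) hM)) (kilR i _ (h1 m) (kilR i _ (h1 l) hk))
    rw [gz_comp, ← pow_add]
  have h3 : ∀ l : ℕ, ∑ m ∈ Finset.range d, χ.f (Res (gz ((i, 1) : Ix n) (ζ ^ (m + l))) M) =
      ∑ m ∈ Finset.range d, χ.f (Res (gz ((i, 1) : Ix n) (ζ ^ m)) M) := by
    intro l
    refine sum_shift d (fun k => χ.f (Res (gz ((i, 1) : Ix n) (ζ ^ k)) M)) (fun k => ?_) l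
    rw [pow_add, hζ, mul_one]
  change ∑ l ∈ Finset.range d, (χ.f (Res (gz ((i, 1) : Ix n) (ζ ^ l)) M) - ((d : ℚ)⁻¹) •
    ∑ m ∈ Finset.range d, χ.f (Res (gz ((i, 1) : Ix n) (ζ ^ m)) (Res (gz ((i, 1) : Ix n) (ζ ^ l)) M))) = 0
  rw [Finset.sum_sub_distrib, ← Finset.smul_sum,
    Finset.sum_congr rfl (fun l _ => (Finset.sum_congr rfl (fun m _ => h2 l m)).trans (h3 l)),
    Finset.sum_const, Finset.card_range, ← Nat.cast_smul_eq_nsmul ℚ, smul_smul,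
    inv_mul_cancel₀ (by exact_mod_cast (by omega : d ≠ 0)), one_smul, sub_self]

theorem PP_other (χ : AFun (Po (Ix n)) (Set.range (sF n d)) V) (ζ : ℂ) (hζ : ζ ^ d = 1) (hζ0 : ζ ≠ 0)
    (i k : Fin 3) (hik : i ≠ k) (h : PP χ ((k, 1) : Ix n) d ζ) : PP (Dv χ ζ hζ hζ0 i) ((k, 1) : Ix n) d ζ := by
  intro M _ _ hM hk
  have h1 : ∀ m : ℕ, (ζ ^ m) ^ d = 1 := fun m => by rw [← pow_mul, mul_comm, pow_mul, hζ, one_pow]
  have h0 : ∀ m : ℕ, ζ ^ m ≠ 0 := fun m => pow_ne_zero m hζ0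
  have hne : ((i, 1) : Ix n) ≠ (k, 1) := fun e => hik (congrArg Prod.fst e)
  have h2 : ∀ l m : ℕ, χ.f (Res (gz ((i, 1) : Ix n) (ζ ^ m)) (Res (gz ((k, 1) : Ix n) (ζ ^ l)) M)) =
      χ.f (Res (gz ((k, 1) : Ix n) (ζ ^ l)) (Res (gz ((i, 1) : Ix n) (ζ ^ m)) M)) := by
    intro l m
    rw [χ.iso (rr _ _ _ rfl M) (finR i _ (h0 m) (finR k _ (h0 l) hM)) (kilR i _ (h1 m) (kilR k _ (h1 l) hk)),
      χ.iso (rr _ _ _ rfl M) (finR k _ (h0 l) (finR i _ (h0 m) hM)) (kilR k _ (h1 l) (kilR i _ (h1 m) hk)),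
      gz_comm (i, 1) (k, 1) _ _ hne]
  have h3 : ∀ m : ℕ, ∑ l ∈ Finset.range d, χ.f (Res (gz ((k, 1) : Ix n) (ζ ^ l))
      (Res (gz ((i, 1) : Ix n) (ζ ^ m)) M)) = 0 := fun m =>
    h _ (finR i _ (h0 m) hM) (kilR i _ (h1 m) hk)
  change ∑ l ∈ Finset.range d, (χ.f (Res (gz ((k, 1) : Ix n) (ζ ^ l)) M) - ((d : ℚ)⁻¹) •
    ∑ m ∈ Finset.range d, χ.f (Res (gz ((i, 1) : Ix n) (ζ ^ m)) (Res (gz ((k, 1) : Ix n) (ζ ^ l)) M))) = 0
  rw [Finset.sum_sub_distrib, ← Finset.smul_sum, h M hM hk, Finset.sum_comm,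
    Finset.sum_congr rfl (fun m _ => (Finset.sum_congr rfl (fun l _ => h2 l m)).trans (h3 m)),
    Finset.sum_const_zero, smul_zero, sub_zero]

theorem Dv_val (hAa : S_Aa) (χ : AFun (Po (Ix n)) (Set.range (sF n d)) V) (ζ : ℂ) (hζ : IsPrimitiveRoot ζ d)
    (hζ0 : ζ ≠ 0) (hd : 1 ≤ d) (i : Fin 3) :
    (Dv χ ζ hζ.pow_eq_one hζ0 i).f (Po (Ix n) ⧸ Ideal.span (gA n d)) =
      χ.f (Po (Ix n) ⧸ Ideal.span (gA n d)) := by
  obtain ⟨i', hi⟩ : ∃ i' : Fin 3, i ≠ i' := ⟨i + 1, by fin_cases i <;> decide⟩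
  have hkil : ∀ r ∈ gA n d, ∀ m : Po (Ix n) ⧸ Ideal.span (gA n d), r • m = 0 := by
    intro r hr m
    obtain ⟨x, rfl⟩ := Submodule.Quotient.mk_surjective _ m
    rw [← Submodule.Quotient.mk_smul, Submodule.Quotient.mk_eq_zero, smul_eq_mul]
    exact Ideal.mul_mem_right _ _ (Ideal.subset_span hr)
  have h := hAa n d V χ ζ hd hζ i i' hi (Po (Ix n) ⧸ Ideal.span (gA n d)) inferInstance
    (fun r hr m => hkil r (Or.inr hr) m) (fun m => hkil _ (Or.inl ⟨i, i', 0, 2, rfl⟩) m)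
  change χ.f _ - ((d : ℚ)⁻¹) • ∑ m ∈ Finset.range d, χ.f (Res (gz ((i, 1) : Ix n) (ζ ^ m)) _) = _
  rw [h, smul_zero, sub_zero]

end

end Ab_aux

theorem tAb : S_Aa → S_Ab := by
  intro hAa n d V _ _ χ ζ hd hζ
  have hζ0 : ζ ≠ 0 := hζ.ne_zero (by omega)
  have h1 := hζ.pow_eq_one
  refine ⟨Ab_aux.Dv (Ab_aux.Dv (Ab_aux.Dv χ ζ h1 hζ0 2) ζ h1 hζ0 1) ζ h1 hζ0 0, ?_, ?_⟩
  · have p2 := Ab_aux.PP_self χ ζ h1 hζ0 hd 2
    have p21 := Ab_aux.PP_other _ ζ h1 hζ0 1 2 (by decide) p2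
    have p1 := Ab_aux.PP_self (Ab_aux.Dv χ ζ h1 hζ0 2) ζ h1 hζ0 hd 1
    intro i
    fin_cases i
    · exact Ab_aux.PP_self _ ζ h1 hζ0 hd 0
    · exact Ab_aux.PP_other _ ζ h1 hζ0 0 1 (by decide) p1
    · exact Ab_aux.PP_other _ ζ h1 hζ0 0 2 (by decide) p21
  · rw [Ab_aux.Dv_val hAa _ ζ hζ hζ0 hd, Ab_aux.Dv_val hAa _ ζ hζ hζ0 hd, Ab_aux.Dv_val hAa _ ζ hζ hζ0 hd]

end Pool.Agent.FY
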