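import Pool.Agent.Lib.MP_b53bfe_ag.Spec2
import Pool.Agent.Lib.MP_b53bfe_ag.Bas

/-!
# The chain for the three rows
-/

set_option autoImplicit false

noncomputable section

namespace Pool.Agent.FY

open Polynomial

namespace Ac_aux

section gen

variable {σ : Type}

/-! ## Homogeneous elements -/

theorem tau_X (δ : σ → ℤ) (j : σ) :
    tau δ (MvPolynomial.X j) = LaurentPolynomial.C (MvPolynomial.X j : Po σ) * LaurentPolynomial.T (-δ j) :=
  MvPolynomial.aeval_X _ _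

theorem hX (δ : σ → ℤ) (j : σ) : Hmg δ (δ j) (MvPolynomial.X j) := tau_X δ j

theorem hmul {δ : σ → ℤ} {e e' : ℤ} {r s : Po σ} (hr : Hmg δ e r) (hs : Hmg δ e' s) : Hmg δ (e + e') (r * s) := by
  unfold Hmg at *
  rw [map_mul, hr, hs, map_mul, mul_mul_mul_comm, ← LaurentPolynomial.T_add, neg_add]

theorem hadd {δ : σ → ℤ} {e : ℤ} {r s : Po σ} (hr : Hmg δ e r) (hs : Hmg δ e s) : Hmg δ e (r + s) := by
  unfold Hmg at *
  rw [map_add, hr, hs, map_add, add_mul]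

theorem hsub {δ : σ → ℤ} {e : ℤ} {r s : Po σ} (hr : Hmg δ e r) (hs : Hmg δ e s) : Hmg δ e (r - s) := by
  unfold Hmg at *
  rw [map_sub, hr, hs, map_sub, sub_mul]

theorem hpow {δ : σ → ℤ} {e : ℤ} {r : Po σ} (hr : Hmg δ e r) (m : ℕ) : Hmg δ (m * e) (r ^ m) := by
  unfold Hmg at *
  rw [map_pow, hr, map_pow, mul_pow, LaurentPolynomial.T_pow, mul_neg]

theorem hsum {δ : σ → ℤ} {e : ℤ} {ι : Type} (s : Finset ι) {r : ι → Po σ} (hr : ∀ i ∈ s, Hmg δ e (r i)) :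
    Hmg δ e (∑ i ∈ s, r i) := by
  unfold Hmg at *
  rw [map_sum, map_sum, Finset.sum_mul]
  exact Finset.sum_congr rfl hr

variable [DecidableEq σ]

/-! ## Independence of a variable -/

theorem nX {i j : σ} (h : j ≠ i) : NI i (MvPolynomial.X j) := by
  have h1 : nu i (MvPolynomial.X j : Po σ) = if j = i then (X : (Po σ)[X]) else C (MvPolynomial.X j) :=
    MvPolynomial.aeval_X _ _
  unfold NI
  rw [h1, if_neg h]

theorem nadd {i : σ} {r s : Po σ} (hr : NI i r) (hs : NI i s) : NI i (r + s) := by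
  unfold NI at *
  rw [map_add, hr, hs, map_add]

theorem npow {i : σ} {r : Po σ} (hr : NI i r) (m : ℕ) : NI i (r ^ m) := by
  unfold NI at *
  rw [map_pow, hr, map_pow]

theorem nsum {i : σ} {ι : Type} (s : Finset ι) {r : ι → Po σ} (hr : ∀ a ∈ s, NI i (r a)) : NI i (∑ a ∈ s, r a) := by
  unfold NI at *
  rw [map_sum, map_sum]
  exact Finset.sum_congr rfl hr

theorem gz_X (i : σ) (z : ℂ) (j : σ) : gz i z (MvPolynomial.X j) =
    if j = i then MvPolynomial.C z * MvPolynomial.X j else MvPolynomial.X j := MvPolynomial.aeval_X _ _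

theorem PP_mono {I J : Set (Po σ)} {V : Type 1} [AddCommGroup V] {χ : AFun (Po σ) I V}
    (h : ∀ (M : Type) [AddCommGroup M] [Module (Po σ) M], Kil J M → Kil I M) {i : σ} {d : ℕ} {ζ : ℂ}
    (hP : PP χ i d ζ) : PP (χ.mono J h) i d ζ := fun M _ _ hf hk => hP M hf (h M hk)

end gen

/-! ## The three rows -/

/-- the grading by the row `c` -/
def dl (n : ℕ) (c : Fin 3) : Ix n → ℤ := fun p => if p.1 = c then 1 else 0

theorem h_sF (n d : ℕ) (c i : Fin 3) : Hmg (dl n c) (if i = c then (d : ℤ) else 0) (sF n d i) := by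
  refine hsum _ fun j _ => ?_
  have h := hpow (hX (dl n c) ((i, j) : Ix n)) d
  have e : (d : ℤ) * dl n c (i, j) = if i = c then (d : ℤ) else 0 := by
    show (d : ℤ) * (if i = c then 1 else 0) = _
    split_ifs
    · exact mul_one _
    · exact mul_zero _
  rw [e] at h
  exact h

theorem h_mn (n : ℕ) (c i i' : Fin 3) (j j' : Fin (n + 3)) :
    Hmg (dl n c) (dl n c (i, j) + dl n c (i', j')) (mn n i i' j j') :=
  hsub (hmul (hX _ _) (hX _ _)) (hmul (hX (dl n c) ((i, j') : Ix n)) (hX (dl n c) ((i', j) : Ix n)))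

theorem h_gA (n d : ℕ) (c : Fin 3) : ∀ r ∈ gA n d, ∃ e : ℤ, Hmg (dl n c) e r := by
  rintro r (⟨i, i', j, j', rfl⟩ | ⟨i, rfl⟩)
  · exact ⟨_, h_mn n c i i' j j'⟩
  · exact ⟨_, h_sF n d c i⟩

theorem n_sF (n d : ℕ) {i i' : Fin 3} (h : i' ≠ i) (j : Fin (n + 3)) : NI ((i, j) : Ix n) (sF n d i') :=
  nsum _ fun _ _ => npow (nX fun e => h (congrArg Prod.fst e)) d

theorem g_sF (n d : ℕ) (i i' : Fin 3) (j : Fin (n + 3)) {z : ℂ} (hz : z ^ d = 1) :
    gz ((i, j) : Ix n) z (sF n d i') = sF n d i' := by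
  unfold sF
  rw [map_sum]
  refine Finset.sum_congr rfl fun j' _ => ?_
  unfold xv
  rw [map_pow, gz_X]
  split_ifs
  · rw [mul_pow, ← map_pow, hz, map_one, one_mul]
  · rfl

end Ac_aux

open Ac_aux

theorem tAc : S_Stq → S_Ac := by
  intro hStq n d V _ _ χ₀ ζ hd hζ hP
  have hζ0 : ζ ≠ 0 := hζ.ne_zero (by omega)
  have hζd : ∀ m : ℕ, (ζ ^ m) ^ d = 1 := fun m => by rw [← pow_mul, mul_comm, pow_mul, hζ.pow_eq_one, one_pow]
  have k0 : ∀ (M : Type) [AddCommGroup M] [Module (Po (Ix n)) M],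
      Kil ({sF n d 0, sF n d 1} ∪ {sF n d 2}) M → Kil (Set.range (sF n d)) M := by
    rintro M _ _ hk _ ⟨i, rfl⟩
    refine hk _ ?_
    fin_cases i
    · exact Or.inl (Or.inl rfl)
    · exact Or.inl (Or.inr rfl)
    · exact Or.inr rfl
  have hmem : ∀ i, sF n d i ∈ Ideal.span (gA n d) := fun i => Ideal.subset_span (Or.inr ⟨i, rfl⟩)
  obtain ⟨χ₁, p1, v1⟩ := hStq (Ix n) (0, 1) (1, 1) (sF n d 0) (sF n d 1) {sF n d 2} V (dl n 1) d ζ
    (χ₀.mono _ k0) hd hζ0 (n_sF n d (by decide) 1)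
    (by rintro _ rfl; exact n_sF n d (by decide) 1) (fun m => g_sF n d 0 0 1 (hζd m)) (PP_mono k0 (hP 0))
    (n_sF n d (by decide) 1) (by rintro _ rfl; exact n_sF n d (by decide) 1)
    (fun m => g_sF n d 1 1 1 (hζd m)) (PP_mono k0 (hP 1)) (h_sF n d 1 0) (h_sF n d 1 1)
    (by rintro _ rfl; exact ⟨_, h_sF n d 1 2⟩)
  have v1' := v1 (gA n d) (h_gA n d 1) (hmem 0) (hmem 1) (by rintro _ rfl; exact hmem 2)
  have q1 : ∀ i : Fin 3, PP χ₁ (i, 1) d ζ := fun i =>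
    p1 (i, 1) (PP_mono k0 (hP i)) (fun m => g_sF n d i 0 1 (hζd m)) (fun m => g_sF n d i 1 1 (hζd m))
      (by rintro _ rfl m; exact g_sF n d i 2 1 (hζd m))
  have k1 : ∀ (M : Type) [AddCommGroup M] [Module (Po (Ix n)) M],
      Kil ({sF n d 0 + sF n d 1, sF n d 2} ∪ ∅) M → Kil ({sF n d 0 + sF n d 1} ∪ {sF n d 2}) M := by
    rintro M _ _ hk r (rfl | rfl)
    · exact hk _ (Or.inl (Or.inl rfl))
    · exact hk _ (Or.inl (Or.inr rfl))
  have h01 : Hmg (dl n 2) 0 (sF n d 0 + sF n d 1) := hadd (h_sF n d 2 0) (h_sF n d 2 1)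
  obtain ⟨χ₂, -, v2⟩ := hStq (Ix n) (0, 1) (2, 1) (sF n d 0 + sF n d 1) (sF n d 2) ∅ V (dl n 2) d ζ
    (χ₁.mono _ k1) hd hζ0 (n_sF n d (by decide) 1) (fun r hr => absurd hr (Set.notMem_empty r))
    (fun m => by rw [map_add, g_sF n d 0 0 1 (hζd m), g_sF n d 0 1 1 (hζd m)]) (PP_mono k1 (q1 0))
    (nadd (n_sF n d (by decide) 1) (n_sF n d (by decide) 1)) (fun r hr => absurd hr (Set.notMem_empty r))
    (fun m => g_sF n d 2 2 1 (hζd m)) (PP_mono k1 (q1 2)) h01 (h_sF n d 2 2)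
    (fun r hr => absurd hr (Set.notMem_empty r))
  have v2' := v2 (gA n d) (h_gA n d 2) (Ideal.add_mem _ (hmem 0) (hmem 1)) (hmem 2)
    (fun r hr => absurd hr (Set.notMem_empty r))
  have k2 : ∀ (M : Type) [AddCommGroup M] [Module (Po (Ix n)) M],
      Kil {FF n d} M → Kil ({sF n d 0 + sF n d 1 + sF n d 2} ∪ ∅) M := by
    rintro M _ _ hk r (rfl | hr)
    · exact hk _ rfl
    · exact absurd hr (Set.notMem_empty r)
  refine ⟨χ₂.mono {FF n d} k2, ?_⟩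
  rw [AFun.mono_f, v2', AFun.mono_f, v1', AFun.mono_f, smul_neg, neg_neg, smul_smul, sq]

end Pool.Agent.FY
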