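import Pool.Agent.Lib.MP_b53bfe_ag.Spec2
import Pool.Agent.Lib.MP_b53bfe_ag.Bas

/-!
# Ba: the class of `PA / (c s)`
-/

set_option autoImplicit false

noncomputable section

namespace Pool.Agent.FY

open Polynomial

namespace Ba_aux

theorem gen {R A : Type} [CommRing R] [CommRing A] [IsDomain A] {I : Set R} {V : Type 1} [AddCommGroup V]
    (χ : AFun R I V) (ρ₁ : R →+* A[X]) (hρ : Function.Surjective ρ₁) (r : A) (F : A[X]) (c : A) (hc : F.eval r = c)
    (hF : c ≠ 0) (hI : ∀ s ∈ I, ρ₁ s ∈ Ideal.span {F}) (ρ : R →+* A) (h : ∀ s, (ρ₁ s).eval r = ρ s) :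
    χ.f (Res ρ (A ⧸ Ideal.span {c})) = 0 := by
  let i : (A[X] ⧸ Ideal.span {F}) →ₗ[A[X]] (A[X] ⧸ Ideal.span {F}) := LinearMap.lsmul _ _ (X - C r)
  let q : A[X] →+* (A ⧸ Ideal.span {c}) := (Ideal.Quotient.mk _).comp (evalRingHom r)
  have hq : ∀ a ∈ Ideal.span {F}, q a = 0 := by
    intro a ha
    obtain ⟨b, rfl⟩ := Ideal.mem_span_singleton.1 ha
    show Ideal.Quotient.mk _ (eval r (F * b)) = 0
    rw [eval_mul, hc, Ideal.Quotient.eq_zero_iff_mem]
    exact Ideal.mem_span_singleton.2 (Dvd.intro _ rfl)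
  let p0 : (A[X] ⧸ Ideal.span {F}) →+* (A ⧸ Ideal.span {c}) := Ideal.Quotient.lift _ q hq
  have hp0 : ∀ u : A[X], p0 (Ideal.Quotient.mk _ u) = Ideal.Quotient.mk _ (eval r u) := fun u => rfl
  let p : Res ρ₁ (A[X] ⧸ Ideal.span {F}) →ₗ[R] Res ρ (A ⧸ Ideal.span {c}) :=
    { toFun := fun m => Res.mk ρ (p0 m.val)
      map_add' := fun a b => p0.map_add a.val b.val
      map_smul' := by
        intro s m
        obtain ⟨u, hu⟩ := Ideal.Quotient.mk_surjective m.val
        show Res.mk ρ (p0 (ρ₁ s • m.val)) = Res.mk ρ (ρ s • p0 m.val)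
        rw [← hu]
        have e1 : ρ₁ s • (Ideal.Quotient.mk (Ideal.span {F}) u) = Ideal.Quotient.mk _ (ρ₁ s * u) := rfl
        have e2 : ρ s • (Ideal.Quotient.mk (Ideal.span {c}) (eval r u)) = Ideal.Quotient.mk _ (ρ s * eval r u) := rfl
        rw [e1, hp0, hp0, e2, eval_mul, h] }
  have hfin : Module.Finite R (Res ρ₁ (A[X] ⧸ Ideal.span {F})) := Res.finite hρ inferInstance
  have hkil : Kil I (Res ρ₁ (A[X] ⧸ Ideal.span {F})) := by
    refine Kil.res hI ?_
    intro s hs m
    obtain ⟨x, rfl⟩ := Submodule.Quotient.mk_surjective _ m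
    rw [← Submodule.Quotient.mk_smul, Submodule.Quotient.mk_eq_zero, smul_eq_mul, Set.mem_singleton_iff.1 hs]
    exact Ideal.mem_span_singleton.2 (Dvd.intro _ rfl)
  have hinj : Function.Injective i := by
    rw [injective_iff_map_eq_zero]
    intro m hm
    obtain ⟨u, rfl⟩ := Ideal.Quotient.mk_surjective m
    have h1 : Ideal.Quotient.mk (Ideal.span {F}) ((X - C r) * u) = 0 := hm
    rw [Ideal.Quotient.eq_zero_iff_mem, Ideal.mem_span_singleton] at h1 ⊢
    obtain ⟨v, hv⟩ := h1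
    have h2 : c * eval r v = 0 := by
      have := congrArg (eval r) hv
      rw [eval_mul, eval_mul, hc] at this
      simpa using this.symm
    have h3 : eval r v = 0 := (mul_eq_zero.1 h2).resolve_left hF
    obtain ⟨v', rfl⟩ := dvd_iff_isRoot.2 h3
    refine ⟨v', ?_⟩
    have h4 : (X - C r) * (u - F * v') = 0 := by rw [mul_sub, hv]; ring
    have h5 := (mul_eq_zero.1 h4).resolve_left (X_sub_C_ne_zero r)
    exact sub_eq_zero.1 h5
  have hsur : Function.Surjective p := by
    intro m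
    obtain ⟨a, ha⟩ := Ideal.Quotient.mk_surjective m.val
    refine ⟨Res.mk ρ₁ (Ideal.Quotient.mk _ (C a)), ?_⟩
    show p0 (Ideal.Quotient.mk _ (C a)) = m.val
    rw [hp0, eval_C, ha]
  have hex : Function.Exact (Res.map ρ₁ i) p := by
    intro m
    obtain ⟨u, hu⟩ := Ideal.Quotient.mk_surjective m.val
    have hm : m = Res.mk ρ₁ (Ideal.Quotient.mk _ u) := hu.symm
    subst hm
    constructor
    · intro h1
      have h2 : Ideal.Quotient.mk (Ideal.span {c}) (eval r u) = 0 := h1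
      rw [Ideal.Quotient.eq_zero_iff_mem, Ideal.mem_span_singleton] at h2
      obtain ⟨a, ha⟩ := h2
      have h3 : eval r (u - F * C a) = 0 := by
        rw [eval_sub, eval_mul, hc, eval_C, ha, sub_self]
      obtain ⟨v, hv⟩ := dvd_iff_isRoot.2 h3
      refine ⟨Res.mk ρ₁ (Ideal.Quotient.mk _ v), ?_⟩
      show Ideal.Quotient.mk (Ideal.span {F}) ((X - C r) * v) = Ideal.Quotient.mk _ u
      rw [← hv, Ideal.Quotient.mk_eq_mk_iff_sub_mem, Ideal.mem_span_singleton]
      exact ⟨-C a, by ring⟩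
    · rintro ⟨v, hv⟩
      rw [← hv]
      obtain ⟨w, hw⟩ := Ideal.Quotient.mk_surjective v.val
      have hv' : v = Res.mk ρ₁ (Ideal.Quotient.mk _ w) := hw.symm
      subst hv'
      show p0 (Ideal.Quotient.mk (Ideal.span {F}) ((X - C r) * w)) = 0
      rw [hp0, eval_mul]
      simp
  have key := χ.add _ _ _ (Res.map ρ₁ i) p hfin hkil (Res.map_inj hinj) hsur hex
  have h2 : χ.f (Res ρ₁ (A[X] ⧸ Ideal.span {F})) + 0 =
      χ.f (Res ρ₁ (A[X] ⧸ Ideal.span {F})) + χ.f (Res ρ (A ⧸ Ideal.span {c})) := by rw [add_zero]; exact key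
  exact (add_left_cancel h2).symm

/-- the map `ρ₁` -/
def r1 (n : ℕ) : Po (Ix n) →ₐ[ℂ] (PA n)[X] :=
  MvPolynomial.aeval (fun p : Ix n => if p.1 = 0 then (C (MvPolynomial.X (Sum.inl p.2)) : (PA n)[X]) else
    if p.1 = 1 then C (MvPolynomial.X (Sum.inr 0)) else
      if p.2 = Fin.last (n + 2) then X else C (MvPolynomial.X (Sum.inr 1)))

theorem r1_X (n : ℕ) (p : Ix n) : r1 n (MvPolynomial.X p) =
    if p.1 = 0 then (C (MvPolynomial.X (Sum.inl p.2)) : (PA n)[X]) else
    if p.1 = 1 then C (MvPolynomial.X (Sum.inr 0)) else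
      if p.2 = Fin.last (n + 2) then X else C (MvPolynomial.X (Sum.inr 1)) := by
  unfold r1
  rw [MvPolynomial.aeval_X]

theorem rho_X (n : ℕ) (p : Ix n) : rho n (MvPolynomial.X p) =
    if p.1 = 0 then (MvPolynomial.X (Sum.inl p.2) : PA n) else
    if p.1 = 1 then MvPolynomial.X (Sum.inr 0) else MvPolynomial.X (Sum.inr 1) := by
  unfold rho
  exact MvPolynomial.aeval_X _ _

theorem r1_eval (n : ℕ) (s : Po (Ix n)) :
    ((r1 n).toRingHom s).eval (MvPolynomial.X (Sum.inr 1)) = rho n s := by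
  have : ((evalRingHom (MvPolynomial.X (Sum.inr 1) : PA n)).comp (r1 n).toRingHom) = rho n := by
    refine MvPolynomial.ringHom_ext ?_ ?_
    · intro a
      simp [r1, rho]
    · intro p
      rw [rho_X]
      show eval _ (r1 n (MvPolynomial.X p)) = _
      rw [r1_X]
      split_ifs <;> simp
  exact congrArg (fun f => f s) this

theorem r1_surj (n : ℕ) : Function.Surjective (r1 n).toRingHom := by
  have h0 : ∀ a : PA n, ∃ s, r1 n s = C a := by
    intro a
    induction a using MvPolynomial.induction_on with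
    | C z => exact ⟨MvPolynomial.C z, by simp [r1]⟩
    | add p q hp hq =>
      obtain ⟨s, hs⟩ := hp
      obtain ⟨t, ht⟩ := hq
      exact ⟨s + t, by rw [map_add, hs, ht, C_add]⟩
    | mul_X p k hp =>
      obtain ⟨s, hs⟩ := hp
      obtain ⟨t, ht⟩ : ∃ t, r1 n t = C (MvPolynomial.X k) := by
        rcases k with j | j
        · exact ⟨MvPolynomial.X (0, j), by rw [r1_X]; simp⟩
        · fin_cases j
          · exact ⟨MvPolynomial.X (1, 0), by rw [r1_X]; simp⟩
          · refine ⟨MvPolynomial.X (2, 0), ?_⟩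
            rw [r1_X, if_neg (by simp), if_neg (by simp), if_neg]
            · rfl
            · intro h
              have := congrArg Fin.val h
              simp at this
      exact ⟨s * t, by rw [map_mul, hs, ht, C_mul]⟩
  intro f
  induction f using Polynomial.induction_on' with
  | add p q hp hq =>
    obtain ⟨s, hs⟩ := hp
    obtain ⟨t, ht⟩ := hq
    exact ⟨s + t, by rw [map_add, hs, ht]⟩
  | monomial k a =>
    obtain ⟨s, hs⟩ := h0 a
    refine ⟨s * MvPolynomial.X (2, Fin.last (n + 2)) ^ k, ?_⟩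
    show r1 n _ = _
    rw [map_mul, map_pow, hs, r1_X, if_neg (by simp), if_neg (by simp), if_pos rfl, C_mul_X_pow_eq_monomial]

theorem rho_Fk (n d : ℕ) : rho n (Fk n d) = cc n d * ss n d := by
  unfold Fk cc ss xv
  rw [map_sum, Finset.mul_sum]
  refine Finset.sum_congr rfl fun j _ => ?_
  rw [map_mul, map_add, map_add, map_pow, map_pow, map_pow, map_one, rho_X, rho_X, rho_X]
  simp only [if_true, if_neg (show ¬ ((1 : Fin 3) = 0) by decide), if_neg (show ¬ ((2 : Fin 3) = 0) by decide),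
    if_neg (show ¬ ((2 : Fin 3) = 1) by decide)]
  ring

theorem cc_ne (n d : ℕ) (hd : 1 ≤ d) : cc n d ≠ 0 := by
  intro h
  have := congrArg (MvPolynomial.aeval (fun _ => (0 : ℂ))) h
  simp [cc, show d ≠ 0 by omega] at this

theorem ss_ne (n d : ℕ) (hd : 1 ≤ d) : ss n d ≠ 0 := by
  intro h
  have := congrArg (MvPolynomial.aeval (fun p : Fin (n + 3) ⊕ Fin 2 => if p = Sum.inl 0 then (1 : ℂ) else 0)) h
  simp [ss, show d ≠ 0 by omega, ite_pow] at this

end Ba_aux

open Ba_aux in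
theorem tBa : S_Ba := by
  intro n d V _ χ' hd
  refine gen χ' (r1 n).toRingHom (r1_surj n) (MvPolynomial.X (Sum.inr 1)) ((r1 n).toRingHom (Fk n d)) _ ?_
    (mul_ne_zero (cc_ne n d hd) (ss_ne n d hd)) ?_ (rho n) (r1_eval n)
  · rw [r1_eval, rho_Fk]
  · intro s hs
    rw [Set.mem_singleton_iff.1 hs]
    exact Ideal.mem_span_singleton_self _

end Pool.Agent.FY
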