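import Pool.Agent.Lib.MP_b53bfe_ag.Spec2
import Pool.Agent.Lib.MP_b53bfe_ag.Bas

/-!
# Bb: the class of `PA n / (cc n d)`
-/

set_option autoImplicit false

noncomputable section

namespace Pool.Agent.FY

open Polynomial

namespace Bb_aux

open TensorProduct

variable (n : ℕ)

/-- the polynomials in the `x_j` over `PK` -/
abbrev BB : Type := MvPolynomial (Fin (n + 3)) (PK (n + 3))

/-- `X (0, j) ↦ X j`, `X (1, j) ↦ C (X (0, j))`, `X (2, j) ↦ C (X (1, j))` -/
def ps : Po (Ix n) →+* BB n :=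
  (MvPolynomial.aeval (fun p : Ix n => if p.1 = 0 then (MvPolynomial.X p.2 : BB n) else
    if p.1 = 1 then MvPolynomial.C (MvPolynomial.X (0, p.2)) else MvPolynomial.C (MvPolynomial.X (1, p.2))) :
      Po (Ix n) →ₐ[ℂ] BB n).toRingHom

theorem ps_X0 (j : Fin (n + 3)) : ps n (MvPolynomial.X (0, j)) = MvPolynomial.X j := by
  show MvPolynomial.aeval _ (MvPolynomial.X (0, j)) = _
  rw [MvPolynomial.aeval_X, if_pos rfl]

theorem ps_X1 (j : Fin (n + 3)) : ps n (MvPolynomial.X (1, j)) = MvPolynomial.C (MvPolynomial.X (0, j)) := by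
  show MvPolynomial.aeval _ (MvPolynomial.X (1, j)) = _
  rw [MvPolynomial.aeval_X, if_neg (by simp), if_pos rfl]

theorem ps_X2 (j : Fin (n + 3)) : ps n (MvPolynomial.X (2, j)) = MvPolynomial.C (MvPolynomial.X (1, j)) := by
  show MvPolynomial.aeval _ (MvPolynomial.X (2, j)) = _
  rw [MvPolynomial.aeval_X, if_neg (by simp), if_neg (by simp)]

theorem ps_C (c : ℂ) : ps n (MvPolynomial.C c) = MvPolynomial.C (MvPolynomial.C c) := by
  show MvPolynomial.aeval _ (MvPolynomial.C c) = _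
  rw [MvPolynomial.aeval_C]
  rfl

theorem ps_surj : Function.Surjective (ps n) := by
  intro b
  induction b using MvPolynomial.induction_on with
  | C q =>
    induction q using MvPolynomial.induction_on with
    | C c => exact ⟨_, ps_C n c⟩
    | add p q hp hq =>
      obtain ⟨a, ha⟩ := hp
      obtain ⟨b, hb⟩ := hq
      exact ⟨a + b, by rw [map_add, ha, hb, map_add]⟩
    | mul_X p j hp =>
      obtain ⟨a, ha⟩ := hp
      obtain ⟨k, j⟩ := j
      fin_cases k
      · exact ⟨a * MvPolynomial.X (1, j), by rw [map_mul, ha, ps_X1, map_mul]; rfl⟩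
      · exact ⟨a * MvPolynomial.X (2, j), by rw [map_mul, ha, ps_X2, map_mul]; rfl⟩
  | add p q hp hq =>
    obtain ⟨a, ha⟩ := hp
    obtain ⟨b, hb⟩ := hq
    exact ⟨a + b, by rw [map_add, ha, hb]⟩
  | mul_X p j hp =>
    obtain ⟨a, ha⟩ := hp
    exact ⟨a * MvPolynomial.X (0, j), by rw [map_mul, ha, ps_X0]⟩

variable (d : ℕ)

theorem ps_Fk : ps n (Fk n d) = ∑ j : Fin (n + 3), MvPolynomial.X j ^ d * MvPolynomial.C (cj d j) := by
  rw [Fk, map_sum]
  refine Finset.sum_congr rfl fun j _ => ?_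
  rw [map_mul, map_pow, xv, ps_X0, map_add, map_add, map_one, map_pow, map_pow, xv, xv, ps_X1, ps_X2, cj, map_add,
    map_add, map_one, map_pow, map_pow]

variable {n d}

theorem kilT {M : Type} [AddCommGroup M] [Module (PK (n + 3)) M] (h : Kil (Set.range (cj d : Fin (n + 3) → PK (n + 3))) M) :
    Kil {ps n (Fk n d)} (BB n ⊗[PK (n + 3)] M) := by
  intro r hr x
  rw [Set.mem_singleton_iff.1 hr, ps_Fk, Finset.sum_smul]
  refine Finset.sum_eq_zero fun j _ => ?_
  rw [mul_smul]
  refine (congrArg _ ?_).trans (smul_zero _)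
  induction x using TensorProduct.induction_on with
  | zero => rw [smul_zero]
  | tmul b m =>
    rw [TensorProduct.smul_tmul', smul_eq_mul, ← MvPolynomial.algebraMap_eq, ← Algebra.smul_def, TensorProduct.smul_tmul,
      h _ ⟨j, rfl⟩, TensorProduct.tmul_zero]
  | add x y hx hy => rw [smul_add, hx, hy, add_zero]

/-- `M ↦ χ' (Po (Ix n) ⊗ M)` -/
def ch {V : Type 1} [AddCommGroup V] (χ : AFun (BB n) {ps n (Fk n d)} V) : AFun (PK (n + 3)) (Set.range (cj d)) V where
  f M _ _ := χ.f (BB n ⊗[PK (n + 3)] M)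
  add _ _ _ _ _ _ _ _ _ i p _ hk hi hp he :=
    χ.add _ _ _ (i.baseChange (BB n)) (p.baseChange (BB n)) (Module.Finite.base_change _ _ _) (kilT hk)
      (Module.Flat.lTensor_preserves_injective_linearMap (M := BB n) i hi)
      (LinearMap.lTensor_surjective (BB n) hp) (lTensor_exact (BB n) he hp)


/-! ## the ring isomorphism -/

variable (n d)

/-- `t`, `r` -/
def io : E1 d →+* PA n ⧸ Ideal.span {cc n d} :=
  Ideal.Quotient.lift _ ((Ideal.Quotient.mk _).comp
    (MvPolynomial.aeval (fun k : Fin 2 => (MvPolynomial.X (Sum.inr k) : PA n)) : Po (Fin 2) →ₐ[ℂ] PA n).toRingHom) (by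
    intro a ha
    rw [← RingHom.mem_ker]
    revert a
    show Ideal.span _ ≤ _
    rw [Ideal.span_singleton_le_iff_mem, RingHom.mem_ker, RingHom.comp_apply, Ideal.Quotient.eq_zero_iff_mem]
    refine Ideal.subset_span ?_
    show MvPolynomial.aeval _ (1 + MvPolynomial.X 0 ^ d + MvPolynomial.X 1 ^ d : Po (Fin 2)) = cc n d
    rw [map_add, map_add, map_one, map_pow, map_pow, MvPolynomial.aeval_X, MvPolynomial.aeval_X]
    rfl)

theorem io_mk (p : Po (Fin 2)) : io n d (Ideal.Quotient.mk _ p) =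
    Ideal.Quotient.mk _ (MvPolynomial.aeval (fun k : Fin 2 => (MvPolynomial.X (Sum.inr k) : PA n)) p) := rfl

/-- the polynomials in the `x_j` over `E1 d` -/
abbrev TT : Type := MvPolynomial (Fin (n + 3)) (E1 d)

/-- `TT → PA / (c)` -/
def fw : TT n d →+* PA n ⧸ Ideal.span {cc n d} :=
  MvPolynomial.eval₂Hom (io n d) (fun j => Ideal.Quotient.mk _ (MvPolynomial.X (Sum.inl j)))

theorem fw_C (e : E1 d) : fw n d (MvPolynomial.C e) = io n d e := MvPolynomial.eval₂Hom_C _ _ _

theorem fw_X (j : Fin (n + 3)) : fw n d (MvPolynomial.X j) = Ideal.Quotient.mk _ (MvPolynomial.X (Sum.inl j)) :=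
  MvPolynomial.eval₂Hom_X' _ _ _

/-- `PA → TT` -/
def bw0 : PA n →ₐ[ℂ] TT n d :=
  MvPolynomial.aeval (Sum.elim (fun j => MvPolynomial.X j) (fun k => MvPolynomial.C (Ideal.Quotient.mk _ (MvPolynomial.X k))))

theorem bw0_ae (p : Po (Fin 2)) :
    bw0 n d (MvPolynomial.aeval (fun k : Fin 2 => (MvPolynomial.X (Sum.inr k) : PA n)) p) =
      MvPolynomial.C (Ideal.Quotient.mk _ p) := by
  induction p using MvPolynomial.induction_on with
  | C c =>
    rw [MvPolynomial.aeval_C, AlgHom.commutes]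
    rfl
  | add p q hp hq => rw [map_add, map_add, hp, hq, map_add, map_add]
  | mul_X p k hp => rw [map_mul, map_mul, hp, MvPolynomial.aeval_X, map_mul, map_mul, bw0, MvPolynomial.aeval_X, Sum.elim_inr]

theorem cc_eq : cc n d = MvPolynomial.aeval (fun k : Fin 2 => (MvPolynomial.X (Sum.inr k) : PA n))
    (1 + MvPolynomial.X 0 ^ d + MvPolynomial.X 1 ^ d : Po (Fin 2)) := by
  rw [map_add, map_add, map_one, map_pow, map_pow, MvPolynomial.aeval_X, MvPolynomial.aeval_X]
  rfl

/-- `PA / (c) → TT` -/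
def bw : PA n ⧸ Ideal.span {cc n d} →+* TT n d :=
  Ideal.Quotient.lift _ (bw0 n d).toRingHom (by
    intro a ha
    rw [← RingHom.mem_ker]
    revert a
    show Ideal.span _ ≤ _
    rw [Ideal.span_singleton_le_iff_mem, RingHom.mem_ker]
    show bw0 n d (cc n d) = 0
    rw [cc_eq, bw0_ae, Ideal.Quotient.eq_zero_iff_mem.2 (Ideal.mem_span_singleton_self _), map_zero])

theorem bw_mk (p : PA n) : bw n d (Ideal.Quotient.mk _ p) = bw0 n d p := rfl

theorem bw_fw : (bw n d).comp (fw n d) = RingHom.id _ := by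
  refine MvPolynomial.ringHom_ext' ?_ ?_
  · refine Ideal.Quotient.ringHom_ext (RingHom.ext fun p => ?_)
    show bw n d (fw n d (MvPolynomial.C (Ideal.Quotient.mk _ p))) = MvPolynomial.C (Ideal.Quotient.mk _ p)
    rw [fw_C, io_mk, bw_mk, bw0_ae]
  · intro j
    rw [RingHom.comp_apply, fw_X, bw_mk, bw0, MvPolynomial.aeval_X, Sum.elim_inl]
    rfl

theorem fw_bw : (fw n d).comp (bw n d) = RingHom.id _ := by
  refine Ideal.Quotient.ringHom_ext (MvPolynomial.ringHom_ext ?_ ?_)
  · intro c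
    show fw n d (bw n d (Ideal.Quotient.mk _ (MvPolynomial.C c))) = Ideal.Quotient.mk _ (MvPolynomial.C c)
    rw [bw_mk, bw0, MvPolynomial.aeval_C]
    show fw n d (MvPolynomial.C (Ideal.Quotient.mk _ (MvPolynomial.C c))) = _
    rw [fw_C, io_mk, MvPolynomial.aeval_C]
    rfl
  · intro k
    show fw n d (bw n d (Ideal.Quotient.mk _ (MvPolynomial.X k))) = Ideal.Quotient.mk _ (MvPolynomial.X k)
    rw [bw_mk, bw0, MvPolynomial.aeval_X]
    rcases k with j | k
    · rw [Sum.elim_inl, fw_X]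
    · rw [Sum.elim_inr, fw_C, io_mk, MvPolynomial.aeval_X]

/-- the isomorphism `TT ≃ PA / (c)` -/
def re : TT n d ≃+* PA n ⧸ Ideal.span {cc n d} :=
  RingEquiv.ofRingHom (fw n d) (bw n d) (fw_bw n d) (bw_fw n d)

/-! ## the isomorphism of modules -/

/-- `E1 d` as an algebra -/
@[reducible] def al : Algebra (PK (n + 3)) (E1 d) := (del d (n + 3)).toAlgebra

/-- `BB ⊗ E1 → TT` -/
def e1 : BB n ⊗[PK (n + 3)] (Res (del d (n + 3)) (E1 d)) ≃+ TT n d :=
  letI := al n d
  (TensorProduct.comm (PK (n + 3)) (BB n) (E1 d)).toAddEquiv.trans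
    (MvPolynomial.algebraTensorAlgEquiv (PK (n + 3)) (E1 d)).toRingEquiv.toAddEquiv

theorem e1_tmul (b : BB n) (e : E1 d) :
    e1 n d (b ⊗ₜ[PK (n + 3)] Res.mk (del d (n + 3)) e) = MvPolynomial.C e * MvPolynomial.map (del d (n + 3)) b := by
  let _ := al n d
  rw [← MvPolynomial.smul_eq_C_mul]
  exact MvPolynomial.algebraTensorAlgEquiv_tmul (PK (n + 3)) (E1 d) e b

theorem e1_smul (b : BB n) (x : BB n ⊗[PK (n + 3)] (Res (del d (n + 3)) (E1 d))) :
    e1 n d (b • x) = MvPolynomial.map (del d (n + 3)) b * e1 n d x := by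
  induction x using TensorProduct.induction_on with
  | zero => rw [smul_zero, map_zero, mul_zero]
  | tmul b' e =>
    rw [TensorProduct.smul_tmul', smul_eq_mul]
    show e1 n d ((b * b') ⊗ₜ[PK (n + 3)] Res.mk (del d (n + 3)) e.val) = 
      MvPolynomial.map (del d (n + 3)) b * e1 n d (b' ⊗ₜ[PK (n + 3)] Res.mk (del d (n + 3)) e.val)
    rw [e1_tmul, e1_tmul, map_mul]
    ring
  | add x y hx hy => rw [smul_add, map_add, hx, hy, map_add, mul_add]

theorem del_C (c : ℂ) : del d (n + 3) (MvPolynomial.C c) = Ideal.Quotient.mk _ (MvPolynomial.C c) := by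
  show Ideal.Quotient.mk _ (MvPolynomial.aeval _ (MvPolynomial.C c)) = _
  rw [MvPolynomial.aeval_C]
  rfl

theorem del_X (p : Fin 2 × Fin (n + 3)) : del d (n + 3) (MvPolynomial.X p) = Ideal.Quotient.mk _ (MvPolynomial.X p.1) := by
  show Ideal.Quotient.mk _ (MvPolynomial.aeval _ (MvPolynomial.X p)) = _
  rw [MvPolynomial.aeval_X]

theorem del_surj : Function.Surjective (del d (n + 3)) := by
  intro x
  obtain ⟨p, rfl⟩ := Ideal.Quotient.mk_surjective x
  induction p using MvPolynomial.induction_on with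
  | C c => exact ⟨_, del_C n d c⟩
  | add p q hp hq =>
    obtain ⟨a, ha⟩ := hp
    obtain ⟨b, hb⟩ := hq
    exact ⟨a + b, by rw [map_add, ha, hb, map_add]⟩
  | mul_X p k hp =>
    obtain ⟨a, ha⟩ := hp
    exact ⟨a * MvPolynomial.X (k, 0), by rw [map_mul, ha, del_X, map_mul]⟩

theorem del_kil : Kil (Set.range (cj d : Fin (n + 3) → PK (n + 3))) (Res (del d (n + 3)) (E1 d)) := by
  rintro _ ⟨j, rfl⟩ m
  show del d (n + 3) (cj d j) * m.val = 0
  rw [cj, map_add, map_add, map_one, map_pow, map_pow, del_X, del_X, ← map_pow, ← map_pow,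
    ← map_one (Ideal.Quotient.mk (Ideal.span {(1 + MvPolynomial.X 0 ^ d + MvPolynomial.X 1 ^ d : Po (Fin 2))})),
    ← map_add, ← map_add, Ideal.Quotient.eq_zero_iff_mem.2 (Ideal.mem_span_singleton_self _), zero_mul]

theorem rho_C (c : ℂ) : rho n (MvPolynomial.C c) = MvPolynomial.C c := by
  show MvPolynomial.aeval _ (MvPolynomial.C c) = _
  rw [MvPolynomial.aeval_C]
  rfl

theorem rho_X0 (j : Fin (n + 3)) : rho n (MvPolynomial.X (0, j)) = MvPolynomial.X (Sum.inl j) := by
  show MvPolynomial.aeval _ (MvPolynomial.X (0, j)) = _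
  rw [MvPolynomial.aeval_X, if_pos rfl]

theorem rho_X1 (j : Fin (n + 3)) : rho n (MvPolynomial.X (1, j)) = MvPolynomial.X (Sum.inr 0) := by
  show MvPolynomial.aeval _ (MvPolynomial.X (1, j)) = _
  rw [MvPolynomial.aeval_X, if_neg (by simp), if_pos rfl]

theorem rho_X2 (j : Fin (n + 3)) : rho n (MvPolynomial.X (2, j)) = MvPolynomial.X (Sum.inr 1) := by
  show MvPolynomial.aeval _ (MvPolynomial.X (2, j)) = _
  rw [MvPolynomial.aeval_X, if_neg (by simp), if_neg (by simp)]

theorem key : ((fw n d).comp (MvPolynomial.map (del d (n + 3)))).comp (ps n) =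
    (Ideal.Quotient.mk (Ideal.span {cc n d})).comp (rho n) := by
  refine MvPolynomial.ringHom_ext ?_ ?_
  · intro c
    rw [RingHom.comp_apply, RingHom.comp_apply, RingHom.comp_apply, ps_C, rho_C, MvPolynomial.map_C, del_C, fw_C, io_mk,
      MvPolynomial.aeval_C]
    rfl
  · rintro ⟨k, j⟩
    rw [RingHom.comp_apply, RingHom.comp_apply, RingHom.comp_apply]
    fin_cases k
    · show fw n d (MvPolynomial.map _ (ps n (MvPolynomial.X (0, j)))) = Ideal.Quotient.mk _ (rho n (MvPolynomial.X (0, j)))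
      rw [ps_X0, rho_X0, MvPolynomial.map_X, fw_X]
    · show fw n d (MvPolynomial.map _ (ps n (MvPolynomial.X (1, j)))) = Ideal.Quotient.mk _ (rho n (MvPolynomial.X (1, j)))
      rw [ps_X1, rho_X1, MvPolynomial.map_C, del_X, fw_C, io_mk, MvPolynomial.aeval_X]
    · show fw n d (MvPolynomial.map _ (ps n (MvPolynomial.X (2, j)))) = Ideal.Quotient.mk _ (rho n (MvPolynomial.X (2, j)))
      rw [ps_X2, rho_X2, MvPolynomial.map_C, del_X, fw_C, io_mk, MvPolynomial.aeval_X]

/-- the isomorphism of `Po (Ix n)`-modules -/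
def eq : Res (ps n) (BB n ⊗[PK (n + 3)] (Res (del d (n + 3)) (E1 d))) ≃ₗ[Po (Ix n)]
    Res (rho n) (PA n ⧸ Ideal.span {cc n d}) where
  toFun x := Res.mk (rho n) (re n d (e1 n d x.val))
  map_add' x y := by
    show re n d (e1 n d (x.val + y.val)) = re n d (e1 n d x.val) + re n d (e1 n d y.val)
    rw [map_add, map_add]
  map_smul' r x := by
    show fw n d (e1 n d (ps n r • x.val)) = Ideal.Quotient.mk _ (rho n r) * fw n d (e1 n d x.val)
    rw [e1_smul, map_mul]
    congr 1
    exact RingHom.congr_fun (key n d) r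
  invFun y := Res.mk (ps n) ((e1 n d).symm ((re n d).symm y.val))
  left_inv x := by
    show (e1 n d).symm ((re n d).symm (re n d (e1 n d x.val))) = x.val
    rw [RingEquiv.symm_apply_apply, AddEquiv.symm_apply_apply]
  right_inv y := by
    show re n d (e1 n d ((e1 n d).symm ((re n d).symm y.val))) = y.val
    rw [AddEquiv.apply_symm_apply, RingEquiv.apply_symm_apply]

end Bb_aux

open Bb_aux in
theorem tBb : S_De → S_Bb := by
  intro hDe n d V _ _ χ' hd hn
  have hI : ∀ r ∈ ({Fk n d} : Set (Po (Ix n))), ps n r ∈ Ideal.span {ps n (Fk n d)} := by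
    intro r hr
    rw [Set.mem_singleton_iff.1 hr]
    exact Ideal.mem_span_singleton_self _
  have h := hDe d (n + 3) V (ch (χ'.res (ps n) (ps_surj n) {ps n (Fk n d)} hI)) hd hn
  have hfin : Module.Finite (PK (n + 3)) (Res (del d (n + 3)) (E1 d)) :=
    Res.finite (del_surj n d) inferInstance
  have h2 := χ'.iso (eq n d) (Res.finite (ps_surj n) (Module.Finite.base_change _ _ _))
    (Kil.res hI (kilT (del_kil n d)))
  rw [← h2]
  exact h

end Pool.Agent.FY
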