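import Pool.Agent.Lib.MP_b53bfe_ag.Spec2
import Pool.Agent.Lib.MP_b53bfe_ag.Bas

/-!
# The curve: the class of `E[X] / P_w` is zero
-/

set_option autoImplicit false

noncomputable section

namespace Pool.Agent.FY

open Polynomial

namespace Da_aux

variable {E : Type} [CommRing E] [Algebra ℂ E]

/-- `P_w` is a nonzerodivisor -/
theorem Pw_nzd (d : ℕ) (ε : ℂ) (w : E) (hd : 2 ≤ d) (hε : ε ≠ 0) (hw : IsUnit w) (v : E[X])
    (h : Pw d ε w * v = 0) : v = 0 := by
  have hc : (Pw d ε w).coeff 1 = d * w ^ (d - 1) * algebraMap ℂ E ε := by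
    have h1 := Polynomial.coeff_derivative (Pw d ε w) 0
    rw [zero_add, Nat.cast_zero, zero_add, mul_one] at h1
    rw [← h1, Polynomial.coeff_zero_eq_eval_zero]
    unfold Pw
    rw [Polynomial.derivative_add, Polynomial.derivative_add, Polynomial.derivative_one,
      Polynomial.derivative_X_pow, Polynomial.derivative_pow]
    simp only [derivative_add, derivative_C, derivative_mul, derivative_X, zero_mul, zero_add, mul_one,
      eval_add, eval_mul, eval_C, eval_pow, eval_X, mul_zero, add_zero]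
    rw [zero_pow (by omega), mul_zero, zero_add]
  have hu : IsUnit ((Pw d ε w).coeff 1) := by
    rw [hc]
    have h2 : IsUnit ((d : ℕ) : E) := by
      have h3 : IsUnit ((d : ℕ) : ℂ) := by
        rw [isUnit_iff_ne_zero]
        exact Nat.cast_ne_zero.2 (by omega)
      have h4 := h3.map (algebraMap ℂ E)
      rwa [map_natCast] at h4
    have h5 : IsUnit (algebraMap ℂ E ε) := (isUnit_iff_ne_zero.2 hε).map (algebraMap ℂ E)
    exact (h2.mul (hw.pow _)).mul h5
  have hn := Polynomial.mem_nonzeroDivisors_of_coeff_mem 1 hu.mem_nonZeroDivisors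
  rw [mem_nonZeroDivisors_iff] at hn
  exact hn.1 v h

/-- `P` in `E[X][Y]` -/
def PY (E : Type) [CommRing E] [Algebra ℂ E] (d : ℕ) (ε : ℂ) : E[X][X] :=
  C (1 + X ^ d) + (X + C (C (algebraMap ℂ E ε) * X)) ^ d

theorem PY_eval (d : ℕ) (ε : ℂ) (w : E) : (PY E d ε).eval (C w) = Pw d ε w := by
  unfold PY Pw
  rw [eval_add, eval_C, eval_pow, eval_add, eval_X, eval_C]

/-- the map to `E[X][Y]` -/
def PHI {k : ℕ} (ε : ℂ) (φ : PK k →ₐ[ℂ] E) : PK (k + 1) →ₐ[ℂ] E[X][X] :=
  MvPolynomial.aeval (fun p : Fin 2 × Fin (k + 1) =>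
    Fin.lastCases (motive := fun _ => E[X][X]) (if p.1 = 0 then C X else X + C (C (algebraMap ℂ E ε) * X))
      (fun j' => C (C (φ (MvPolynomial.X (p.1, j'))))) p.2)

theorem PHI_cast {k : ℕ} (ε : ℂ) (φ : PK k →ₐ[ℂ] E) (a : Fin 2) (j : Fin k) :
    PHI ε φ (MvPolynomial.X (a, j.castSucc)) = C (C (φ (MvPolynomial.X (a, j)))) := by
  unfold PHI
  rw [MvPolynomial.aeval_X]
  exact Fin.lastCases_castSucc j

theorem PHI_last {k : ℕ} (ε : ℂ) (φ : PK k →ₐ[ℂ] E) (a : Fin 2) :
    PHI ε φ (MvPolynomial.X (a, Fin.last k)) = if a = 0 then C X else X + C (C (algebraMap ℂ E ε) * X) := by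
  unfold PHI
  rw [MvPolynomial.aeval_X]
  exact Fin.lastCases_last

theorem exk_cast {k : ℕ} (ε : ℂ) (w : E) (φ : PK k →ₐ[ℂ] E) (a : Fin 2) (j : Fin k) :
    exk ε w φ (MvPolynomial.X (a, j.castSucc)) = C (φ (MvPolynomial.X (a, j))) := by
  unfold exk
  rw [MvPolynomial.aeval_X]
  exact Fin.lastCases_castSucc j

theorem exk_last {k : ℕ} (ε : ℂ) (w : E) (φ : PK k →ₐ[ℂ] E) (a : Fin 2) :
    exk ε w φ (MvPolynomial.X (a, Fin.last k)) = if a = 0 then X else C w + C (algebraMap ℂ E ε) * X := by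
  unfold exk
  rw [MvPolynomial.aeval_X]
  exact Fin.lastCases_last

theorem eval_PHI {k : ℕ} (ε : ℂ) (w : E) (φ : PK k →ₐ[ℂ] E) (s : PK (k + 1)) :
    (PHI ε φ s).eval (C w) = exk ε w φ s := by
  have h : ((Polynomial.evalRingHom (C w : E[X])).comp (PHI ε φ).toRingHom) = (exk ε w φ).toRingHom := by
    apply MvPolynomial.ringHom_ext
    · intro c
      rw [RingHom.comp_apply]
      have h1 : (PHI ε φ).toRingHom (MvPolynomial.C c) = algebraMap ℂ E[X][X] c := (PHI ε φ).commutes c
      have h2 : (exk ε w φ).toRingHom (MvPolynomial.C c) = algebraMap ℂ E[X] c := (exk ε w φ).commutes c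
      rw [h1, h2, Polynomial.coe_evalRingHom]
      have h3 : algebraMap ℂ E[X][X] c = C (algebraMap ℂ E[X] c) := rfl
      rw [h3, eval_C]
    · rintro ⟨a, j⟩
      rw [RingHom.comp_apply, Polynomial.coe_evalRingHom]
      refine Fin.lastCases ?_ (fun j => ?_) j
      · change (PHI ε φ (MvPolynomial.X (a, Fin.last k))).eval (C w) = exk ε w φ (MvPolynomial.X (a, Fin.last k))
        rw [PHI_last, exk_last]
        split_ifs
        · rw [eval_C]
        · rw [eval_add, eval_X, eval_C]
      · change (PHI ε φ (MvPolynomial.X (a, j.castSucc))).eval (C w) = exk ε w φ (MvPolynomial.X (a, j.castSucc))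
        rw [PHI_cast, exk_cast, eval_C]
  exact congrArg (fun f : PK (k + 1) →+* E[X] => f s) h

theorem PHI_lift {k : ℕ} (ε : ℂ) (φ : PK k →ₐ[ℂ] E) (p : PK k) :
    PHI ε φ (MvPolynomial.rename (fun x : Fin 2 × Fin k => (x.1, x.2.castSucc)) p) = C (C (φ p)) := by
  have h : ((PHI ε φ).comp (MvPolynomial.rename (fun x : Fin 2 × Fin k => (x.1, x.2.castSucc)))).toRingHom =
      ((C : E[X] →+* E[X][X]).comp (C : E →+* E[X])).comp φ.toRingHom := by
    apply MvPolynomial.ringHom_ext
    · intro c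
      have h1 : (PHI ε φ).comp (MvPolynomial.rename (fun x : Fin 2 × Fin k => (x.1, x.2.castSucc))) (MvPolynomial.C c)
        = algebraMap ℂ E[X][X] c := AlgHom.commutes _ c
      have h2 : φ (MvPolynomial.C c) = algebraMap ℂ E c := φ.commutes c
      change (PHI ε φ).comp (MvPolynomial.rename (fun x : Fin 2 × Fin k => (x.1, x.2.castSucc))) (MvPolynomial.C c) =
        C (C (φ (MvPolynomial.C c)))
      rw [h1, h2]
      rfl
    · rintro ⟨a, j⟩
      change PHI ε φ (MvPolynomial.rename (fun x : Fin 2 × Fin k => (x.1, x.2.castSucc)) (MvPolynomial.X (a, j))) =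
        C (C (φ (MvPolynomial.X (a, j))))
      rw [MvPolynomial.rename_X, PHI_cast]
  exact congrArg (fun f : PK k →+* E[X][X] => f p) h

theorem PHI_surj {k : ℕ} (ε : ℂ) (φ : PK k →ₐ[ℂ] E) (hφ : Function.Surjective φ) :
    Function.Surjective (PHI ε φ) := by
  rw [← AlgHom.range_eq_top]
  set S := (PHI ε φ).range with hS
  have hCC : ∀ e : E, (C (C e) : E[X][X]) ∈ S := by
    intro e
    obtain ⟨p, rfl⟩ := hφ e
    exact ⟨_, PHI_lift ε φ p⟩
  have hCX : (C X : E[X][X]) ∈ S := ⟨MvPolynomial.X (0, Fin.last k), by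
    change PHI ε φ (MvPolynomial.X (0, Fin.last k)) = _
    rw [PHI_last, if_pos rfl]⟩
  have hCp : ∀ p : E[X], (C p : E[X][X]) ∈ S := by
    intro p
    induction p using Polynomial.induction_on' with
    | add p q hp hq => rw [map_add]; exact S.add_mem hp hq
    | monomial n a =>
      rw [← Polynomial.C_mul_X_pow_eq_monomial, map_mul, map_pow]
      exact S.mul_mem (hCC a) (S.pow_mem hCX n)
  have hY : (X : E[X][X]) ∈ S := by
    have h1 : (X + C (C (algebraMap ℂ E ε) * X) : E[X][X]) ∈ S := ⟨MvPolynomial.X (1, Fin.last k), by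
      change PHI ε φ (MvPolynomial.X (1, Fin.last k)) = _
      rw [PHI_last, if_neg (by decide)]⟩
    have h2 := S.sub_mem h1 (hCp (C (algebraMap ℂ E ε) * X))
    rwa [add_sub_cancel_right] at h2
  rw [eq_top_iff]
  rintro p -
  induction p using Polynomial.induction_on' with
  | add p q hp hq => exact S.add_mem hp hq
  | monomial n a =>
    rw [← Polynomial.C_mul_X_pow_eq_monomial]
    exact S.mul_mem (hCp a) (S.pow_mem hY n)

end Da_aux

open Da_aux in
/-- **Da** -/
theorem tDa : S_Da := by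
  intro d k ε E _ _ w φ hd hε hφ hw h1 hP V _ χ hk
  have hε0 : ε ≠ 0 := by
    rintro rfl
    rw [zero_pow (by omega)] at hε
    norm_num at hε
  let Φ : PK (k + 1) →+* E[X][X] := (PHI ε φ).toRingHom
  have hΦs : Function.Surjective Φ := PHI_surj ε φ hφ
  let a : E[X][X] := X - C (C w)
  have ha0 : a.eval (C w) = 0 := by
    change (X - C (C w) : E[X][X]).eval (C w) = 0
    rw [eval_sub, eval_X, eval_C, sub_self]
  have hreg : ∀ x y : E[X][X], a * x = a * y → x = y := fun x y h =>
    (Polynomial.monic_X_sub_C (C w : E[X])).isRegular.left h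
  have hdvd : ∀ v : E[X][X], v.eval (C w) = 0 → ∃ v', v = a * v' := fun v hv =>
    Polynomial.dvd_iff_isRoot.2 hv
  have key : ∀ u v : E[X][X], a * u = PY E d ε * v → ∃ v', u = PY E d ε * v' := by
    intro u v huv
    have e1 := congrArg (fun p : E[X][X] => p.eval (C w)) huv
    beta_reduce at e1
    rw [eval_mul, eval_mul, ha0, zero_mul, PY_eval] at e1
    obtain ⟨v', hv'⟩ := hdvd v (Pw_nzd d ε w hd hε0 hw _ e1.symm)
    refine ⟨v', hreg _ _ ?_⟩
    rw [huv, hv']
    ring
  let l₀ : (E[X][X] ⧸ Ideal.span {PY E d ε}) →ₗ[E[X][X]] (E[X][X] ⧸ Ideal.span {PY E d ε}) :=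
    LinearMap.lsmul _ _ a
  have hl₀ : ∀ u : E[X][X], l₀ (Submodule.Quotient.mk u) = Submodule.Quotient.mk (a * u) := fun u => rfl
  let ev : E[X][X] →+* E[X] := Polynomial.evalRingHom (C w)
  let π₀ : (E[X][X] ⧸ Ideal.span {PY E d ε}) →ₗ[E[X][X]] Res ((Ideal.Quotient.mk (Ideal.span {Pw d ε w})).comp ev)
      (E[X] ⧸ Ideal.span {Pw d ε w}) :=
    Submodule.liftQ (Ideal.span {PY E d ε})
      { toFun := fun u => Res.mk _ (Ideal.Quotient.mk (Ideal.span {Pw d ε w}) (ev u))
        map_add' := fun u v => by rw [map_add, map_add]; rfl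
        map_smul' := fun u v => by
          rw [RingHom.id_apply, smul_eq_mul, map_mul, map_mul]
          rfl } (by
      rw [Ideal.span, Submodule.span_le]
      rintro x rfl
      change Ideal.Quotient.mk (Ideal.span {Pw d ε w}) (ev (PY E d ε)) = 0
      rw [Ideal.Quotient.eq_zero_iff_mem]
      change (PY E d ε).eval (C w) ∈ _
      rw [PY_eval]
      exact Ideal.mem_span_singleton_self _)
  have hπ₀ : ∀ u : E[X][X], (π₀ (Submodule.Quotient.mk u)).val =
      Ideal.Quotient.mk (Ideal.span {Pw d ε w}) (u.eval (C w)) := fun u => rfl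
  let l : Res Φ (E[X][X] ⧸ Ideal.span {PY E d ε}) →ₗ[PK (k + 1)] Res Φ (E[X][X] ⧸ Ideal.span {PY E d ε}) :=
    Res.map Φ l₀
  let π : Res Φ (E[X][X] ⧸ Ideal.span {PY E d ε}) →ₗ[PK (k + 1)]
      Res ((Ideal.Quotient.mk (Ideal.span {Pw d ε w})).comp (exk ε w φ).toRingHom) (E[X] ⧸ Ideal.span {Pw d ε w}) :=
    { toFun := fun m => Res.mk _ (π₀ m.val).val
      map_add' := fun m m' => map_add π₀ m.val m'.val
      map_smul' := fun r m => by
        rw [RingHom.id_apply]
        have e1 : (π₀ (Φ r • m.val)).val = (Φ r • π₀ m.val).val := by rw [map_smul]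
        have e2 : (Φ r • π₀ m.val).val = Ideal.Quotient.mk (Ideal.span {Pw d ε w}) (ev (Φ r)) • (π₀ m.val).val := rfl
        have e3 : ev (Φ r) = exk ε w φ r := eval_PHI ε w φ r
        rw [e3] at e2
        exact e1.trans e2 }
  have hfin : Module.Finite (PK (k + 1)) (Res Φ (E[X][X] ⧸ Ideal.span {PY E d ε})) :=
    Res.finite hΦs inferInstance
  have hkil : Kil (Set.range (cj d : Fin (k + 1) → PK (k + 1))) (Res Φ (E[X][X] ⧸ Ideal.span {PY E d ε})) := by
    refine Kil.res (I' := {PY E d ε}) ?_ ?_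
    · rintro _ ⟨j, rfl⟩
      change PHI ε φ (cj d j) ∈ _
      unfold cj
      rw [map_add, map_add, map_one, map_pow, map_pow]
      refine Fin.lastCases ?_ (fun j => ?_) j
      · rw [PHI_last, PHI_last, if_pos rfl, if_neg (by decide)]
        have e1 : (1 + C X ^ d + (X + C (C (algebraMap ℂ E ε) * X)) ^ d : E[X][X]) = PY E d ε := by
          unfold PY
          rw [map_add, map_one, map_pow]
        rw [e1]
        exact Ideal.mem_span_singleton_self _
      · rw [PHI_cast, PHI_cast, h1]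
        have e1 : (1 + C (C (φ (MvPolynomial.X (0, j)))) ^ d +
            C (C (w + algebraMap ℂ E ε * φ (MvPolynomial.X (0, j)))) ^ d : E[X][X]) =
            C (C ((Pw d ε w).eval (φ (MvPolynomial.X (0, j))))) := by
          unfold Pw
          simp only [eval_add, eval_one, eval_pow, eval_X, eval_C, eval_mul, map_add, map_one, map_pow, map_mul]
        rw [e1, hP j, map_zero, map_zero]
        exact zero_mem _
    · rintro r hr m
      obtain ⟨u, rfl⟩ := Submodule.Quotient.mk_surjective _ m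
      rw [← Submodule.Quotient.mk_smul, Submodule.Quotient.mk_eq_zero, smul_eq_mul, Set.mem_singleton_iff.1 hr]
      exact Ideal.mem_span_singleton.2 (Dvd.intro _ rfl)
  have hlinj : Function.Injective l := by
    refine Res.map_inj ?_
    rw [injective_iff_map_eq_zero]
    intro m hm
    obtain ⟨u, rfl⟩ := Submodule.Quotient.mk_surjective _ m
    rw [hl₀, Submodule.Quotient.mk_eq_zero, Ideal.mem_span_singleton] at hm
    obtain ⟨v, hv⟩ := hm
    obtain ⟨v', hv'⟩ := key u v hv
    rw [Submodule.Quotient.mk_eq_zero, Ideal.mem_span_singleton]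
    exact ⟨v', hv'⟩
  have hπsurj : Function.Surjective π := by
    intro n
    obtain ⟨u, hu⟩ := Ideal.Quotient.mk_surjective (I := Ideal.span {Pw d ε w}) n.val
    refine ⟨Res.mk Φ (Submodule.Quotient.mk (C u)), ?_⟩
    have e1 : (π (Res.mk Φ (Submodule.Quotient.mk (C u)))).val =
      Ideal.Quotient.mk (Ideal.span {Pw d ε w}) ((C u : E[X][X]).eval (C w)) := hπ₀ (C u)
    rw [eval_C, hu] at e1
    exact e1
  have hexact : Function.Exact l π := by
    intro m
    obtain ⟨u, hu⟩ := Submodule.Quotient.mk_surjective _ m.val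
    have hm : m = Res.mk Φ (Submodule.Quotient.mk u) := hu.symm
    rw [hm]
    constructor
    · intro h
      have e1 : Ideal.Quotient.mk (Ideal.span {Pw d ε w}) (u.eval (C w)) = 0 := by
        rw [← hπ₀]
        exact h
      rw [Ideal.Quotient.eq_zero_iff_mem, Ideal.mem_span_singleton] at e1
      obtain ⟨c, hc⟩ := e1
      obtain ⟨v, hv⟩ := hdvd (u - PY E d ε * C c) (by
        rw [eval_sub, eval_mul, eval_C, PY_eval, hc, sub_self])
      refine ⟨Res.mk Φ (Submodule.Quotient.mk v), ?_⟩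
      change l₀ (Submodule.Quotient.mk v) = Submodule.Quotient.mk u
      rw [hl₀, Submodule.Quotient.eq, ← hv, Ideal.mem_span_singleton]
      exact ⟨-C c, by ring⟩
    · rintro ⟨n, hn⟩
      obtain ⟨v, hv⟩ := Submodule.Quotient.mk_surjective _ n.val
      have hn' : n = Res.mk Φ (Submodule.Quotient.mk v) := hv.symm
      rw [← hn, hn']
      have e1 : (π (l (Res.mk Φ (Submodule.Quotient.mk v)))).val =
        Ideal.Quotient.mk (Ideal.span {Pw d ε w}) ((a * v).eval (C w)) := hπ₀ (a * v)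
      rw [eval_mul, ha0, zero_mul, map_zero] at e1
      exact e1
  have hadd := χ.add _ _ _ l π hfin hkil hlinj hπsurj hexact
  exact left_eq_add.1 hadd

end Pool.Agent.FY
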