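import Pool.Agent.Lib.MP_b53bfe_ag.Spec2
import Pool.Agent.Lib.MP_b53bfe_ag.Bas

/-!
# Theorem T1 (MP_b53bfe_ag), module Db: peeling off the linear factors
-/

set_option autoImplicit false

noncomputable section

namespace Pool.Agent.FY

open Polynomial

namespace Db_aux

section

variable {R T : Type} [CommRing R] [CommRing T] {I : Set R} {V : Type 1} [AddCommGroup V]

theorem kil (φ : R →+* T) (J : Ideal T) (hk : ∀ r ∈ I, φ r ∈ J) : Kil I (Res φ (T ⧸ J)) := by
  intro r hr m
  obtain ⟨x, hx⟩ := Submodule.Quotient.mk_surjective J (m : T ⧸ J)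
  have h1 : (φ r • (Submodule.Quotient.mk x : T ⧸ J)) = 0 := by
    rw [← Submodule.Quotient.mk_smul, Submodule.Quotient.mk_eq_zero, smul_eq_mul]
    exact J.mul_mem_right x (hk r hr)
  rw [hx] at h1
  exact h1

/-- the two ways to make `T / J` an `R`-module -/
def resEquiv (φ : R →+* T) (J : Ideal T) :
    Res φ (T ⧸ J) ≃ₗ[R] Res ((Ideal.Quotient.mk J).comp φ) (T ⧸ J) where
  toFun m := Res.mk ((Ideal.Quotient.mk J).comp φ) m.val
  map_add' _ _ := rfl
  map_smul' r m := by
    obtain ⟨x, hx⟩ := Ideal.Quotient.mk_surjective (I := J) m.val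
    have e : φ r • m.val = (Ideal.Quotient.mk J) (φ r) * m.val := by
      rw [← hx, ← map_mul]
      rfl
    exact e
  invFun m := Res.mk φ m.val
  left_inv _ := rfl
  right_inv _ := rfl

theorem iso (χ : AFun R I V) (φ : R →+* T) (hφ : Function.Surjective φ) (J : Ideal T) (hk : ∀ r ∈ I, φ r ∈ J) :
    χ.f (Res ((Ideal.Quotient.mk J).comp φ) (T ⧸ J)) = χ.f (Res φ (T ⧸ J)) :=
  (χ.iso (resEquiv φ J) (Res.finite hφ inferInstance) (kil φ J hk)).symm

end

section

variable {k : ℕ} {E : Type} [CommRing E] [Algebra ℂ E] (ε : ℂ) (w : E) (φ : PK k →ₐ[ℂ] E)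

theorem exk_last0 : exk ε w φ (MvPolynomial.X (0, Fin.last k)) = X := by
  unfold exk
  rw [MvPolynomial.aeval_X]
  simp

theorem exk_last1 : exk ε w φ (MvPolynomial.X (1, Fin.last k)) = C w + C (algebraMap ℂ E ε) * X := by
  unfold exk
  rw [MvPolynomial.aeval_X]
  simp

theorem exk_cast (a : Fin 2) (j : Fin k) :
    exk ε w φ (MvPolynomial.X (a, j.castSucc)) = C (φ (MvPolynomial.X (a, j))) := by
  unfold exk
  rw [MvPolynomial.aeval_X]
  simp

theorem gam_last (j : Fin k) (a : Fin 2) : gam j (MvPolynomial.X (a, Fin.last k)) = MvPolynomial.X (a, j) := by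
  unfold gam
  rw [MvPolynomial.aeval_X]
  simp

theorem gam_cast (j : Fin k) (a : Fin 2) (j' : Fin k) :
    gam j (MvPolynomial.X (a, j'.castSucc)) = MvPolynomial.X (a, j') := by
  unfold gam
  rw [MvPolynomial.aeval_X]
  simp

/-- the hom `exk` is surjective -/
theorem exk_surj (hφ : Function.Surjective φ) : Function.Surjective (exk ε w φ) := by
  have hC : ∀ p : PK k, ∃ q : PK (k + 1), exk ε w φ q = C (φ p) := by
    intro p
    induction p using MvPolynomial.induction_on with
    | C a =>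
      refine ⟨MvPolynomial.C a, ?_⟩
      rw [← MvPolynomial.algebraMap_eq, ← MvPolynomial.algebraMap_eq, AlgHom.commutes, AlgHom.commutes]
      rfl
    | add p q hp hq =>
      obtain ⟨p', hp'⟩ := hp
      obtain ⟨q', hq'⟩ := hq
      exact ⟨p' + q', by rw [map_add, map_add, map_add, hp', hq']⟩
    | mul_X p i hp =>
      obtain ⟨p', hp'⟩ := hp
      obtain ⟨a, j⟩ := i
      exact ⟨p' * MvPolynomial.X (a, j.castSucc), by rw [map_mul, map_mul, map_mul, hp', exk_cast]⟩
  intro q
  induction q using Polynomial.induction_on with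
  | C a =>
    obtain ⟨p, rfl⟩ := hφ a
    exact hC p
  | add p q hp hq =>
    obtain ⟨p', hp'⟩ := hp
    obtain ⟨q', hq'⟩ := hq
    exact ⟨p' + q', by rw [map_add, hp', hq']⟩
  | monomial m a h =>
    obtain ⟨p, hp⟩ := h
    exact ⟨p * MvPolynomial.X (0, Fin.last k), by rw [map_mul, hp, exk_last0, pow_succ, mul_assoc]⟩

/-- `X ↦ θ_j` after `exk` is `φ` after `gam j` -/
theorem eval_exk (hr : ∀ j : Fin k, φ (MvPolynomial.X (1, j)) =
    w + algebraMap ℂ E ε * φ (MvPolynomial.X (0, j))) (j : Fin k) (p : PK (k + 1)) :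
    (exk ε w φ p).eval (φ (MvPolynomial.X (0, j))) = φ (gam j p) := by
  induction p using MvPolynomial.induction_on with
  | C a =>
    rw [← MvPolynomial.algebraMap_eq, AlgHom.commutes, AlgHom.commutes, AlgHom.commutes]
    exact eval_C
  | add p q hp hq => rw [map_add, map_add, map_add, eval_add, hp, hq]
  | mul_X p i hp =>
    rw [map_mul, map_mul, map_mul, eval_mul, hp]
    congr 1
    obtain ⟨a, i⟩ := i
    induction i using Fin.lastCases with
    | last =>
      rw [gam_last]
      have ha : a = 0 ∨ a = 1 := by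
        fin_cases a
        · exact Or.inl rfl
        · exact Or.inr rfl
      rcases ha with rfl | rfl
      · rw [exk_last0, eval_X]
      · rw [exk_last1, eval_add, eval_mul, eval_C, eval_C, eval_X, hr j]
    | cast j' => rw [gam_cast, exk_cast, eval_C]

/-- `E[X] / (X - θ)` is `E` -/
def linEquiv (hr : ∀ j : Fin k, φ (MvPolynomial.X (1, j)) =
    w + algebraMap ℂ E ε * φ (MvPolynomial.X (0, j))) (j : Fin k) :
    Res (exk ε w φ).toRingHom (E[X] ⧸ Ideal.span {(X - C (φ (MvPolynomial.X (0, j))) : E[X])}) ≃ₗ[PK (k + 1)]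
      Res (φ.comp (gam j)).toRingHom E where
  toFun m := Res.mk _ (quotientSpanXSubCAlgEquiv (φ (MvPolynomial.X (0, j))) m.val)
  map_add' a b := map_add (quotientSpanXSubCAlgEquiv (φ (MvPolynomial.X (0, j)))) a.val b.val
  map_smul' r m := by
    obtain ⟨x, hx⟩ := Ideal.Quotient.mk_surjective (I := Ideal.span {(X - C (φ (MvPolynomial.X (0, j))) : E[X])}) m.val
    have e : quotientSpanXSubCAlgEquiv (φ (MvPolynomial.X (0, j))) ((exk ε w φ r) • m.val) =
        φ (gam j r) * quotientSpanXSubCAlgEquiv (φ (MvPolynomial.X (0, j))) m.val := by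
      rw [← hx]
      have e2 : (exk ε w φ r) • (Ideal.Quotient.mk (Ideal.span {(X - C (φ (MvPolynomial.X (0, j))) : E[X])}) x) =
          Ideal.Quotient.mk (Ideal.span {(X - C (φ (MvPolynomial.X (0, j))) : E[X])}) (exk ε w φ r * x) := rfl
      rw [e2, quotientSpanXSubCAlgEquiv_mk, quotientSpanXSubCAlgEquiv_mk, eval_mul, eval_exk ε w φ hr j]
    exact e
  invFun m := Res.mk _ ((quotientSpanXSubCAlgEquiv (φ (MvPolynomial.X (0, j)))).symm m.val)
  left_inv m := (quotientSpanXSubCAlgEquiv (φ (MvPolynomial.X (0, j)))).symm_apply_apply m.val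
  right_inv m := (quotientSpanXSubCAlgEquiv (φ (MvPolynomial.X (0, j)))).apply_symm_apply m.val

/-- the images of the `cj` are in the ideal of `P_w` -/
theorem cj_mem (d : ℕ) {Q : E[X]} (hr : ∀ j : Fin k, φ (MvPolynomial.X (1, j)) =
    w + algebraMap ℂ E ε * φ (MvPolynomial.X (0, j)))
    (hP : Pw d ε w = (∏ j : Fin k, (X - C (φ (MvPolynomial.X (0, j))))) * Q) (i : Fin (k + 1)) :
    exk ε w φ (cj d i) ∈ Ideal.span {Pw d ε w} := by
  unfold cj
  rw [map_add, map_add, map_one, map_pow, map_pow]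
  induction i using Fin.lastCases with
  | last =>
    rw [exk_last0, exk_last1]
    exact Ideal.mem_span_singleton_self _
  | cast j =>
    rw [exk_cast, exk_cast]
    have h1 : (Pw d ε w).eval (φ (MvPolynomial.X (0, j))) = 0 := by
      rw [hP, eval_mul, eval_prod, Finset.prod_eq_zero (Finset.mem_univ j), zero_mul]
      rw [eval_sub, eval_X, eval_C, sub_self]
    have h2 : (1 + C (φ (MvPolynomial.X (0, j))) ^ d + C (φ (MvPolynomial.X (1, j))) ^ d : E[X]) =
        C ((Pw d ε w).eval (φ (MvPolynomial.X (0, j)))) := by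
      unfold Pw
      rw [hr j]
      simp only [eval_add, eval_one, eval_pow, eval_X, eval_C, eval_mul, map_add, map_one, map_pow, map_mul]
    rw [h2, h1, C_0]
    exact Ideal.zero_mem _

end

end Db_aux

open Db_aux

theorem tDb : S_Db := by
  classical
  intro d k ε E _ _ w φ Q hφ hr hP V _ χ
  have hs : Function.Surjective (exk ε w φ).toRingHom := exk_surj ε w φ hφ
  have hk : ∀ r ∈ Set.range (cj d), (exk ε w φ).toRingHom r ∈ Ideal.span {Pw d ε w} := by
    rintro _ ⟨i, rfl⟩
    exact cj_mem ε w φ d hr hP i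
  have hdiv : ∀ s : Finset (Fin k), (∏ j ∈ s, (X - C (φ (MvPolynomial.X (0, j))))) * Q ∣ Pw d ε w := by
    intro s
    rw [hP]
    exact mul_dvd_mul_right (Finset.prod_dvd_prod_of_subset _ _ _ (Finset.subset_univ s)) Q
  have hks : ∀ s : Finset (Fin k), ∀ r ∈ Set.range (cj d), (exk ε w φ).toRingHom r ∈
      Ideal.span {(∏ j ∈ s, (X - C (φ (MvPolynomial.X (0, j))))) * Q} := by
    intro s r hr'
    exact Ideal.span_singleton_le_span_singleton.2 (hdiv s) (hk r hr')
  have key : ∀ s : Finset (Fin k),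
      χ.f (Res (exk ε w φ).toRingHom (E[X] ⧸ Ideal.span {(∏ j ∈ s, (X - C (φ (MvPolynomial.X (0, j))))) * Q})) =
        ∑ j ∈ s, χ.f (Res (φ.comp (gam j)).toRingHom E) +
          χ.f (Res (exk ε w φ).toRingHom (E[X] ⧸ Ideal.span {Q})) := by
    intro s
    induction s using Finset.induction_on with
    | empty => rw [Finset.prod_empty, one_mul, Finset.sum_empty, zero_add]
    | insert j s hj ih =>
      have hk1 := hks (insert j s)
      rw [Finset.prod_insert hj, mul_assoc] at hk1 ⊢
      rw [AFun.mul χ (exk ε w φ).toRingHom hs _ _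
        (fun x hx => (monic_X_sub_C (φ (MvPolynomial.X (0, j)))).mul_right_eq_zero_iff.1 hx) hk1, ih,
        Finset.sum_insert hj]
      have h1 : χ.f (Res (exk ε w φ).toRingHom (E[X] ⧸ Ideal.span {(X - C (φ (MvPolynomial.X (0, j))) : E[X])})) =
          χ.f (Res (φ.comp (gam j)).toRingHom E) := by
        refine χ.iso (linEquiv ε w φ hr j) (Res.finite hs inferInstance) (kil _ _ fun r hr' => ?_)
        exact Ideal.span_singleton_le_span_singleton.2 (Dvd.intro _ rfl) (hk1 r hr')
      rw [h1]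
      abel
  rw [iso χ _ hs _ hk, iso χ _ hs (Ideal.span {Q}) (fun r hr' => ?_)]
  · have h1 := key Finset.univ
    rw [← hP] at h1
    exact h1
  · have h1 := hks ∅ r hr'
    rwa [Finset.prod_empty, one_mul] at h1

end Pool.Agent.FY
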