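import Pool.Agent.Lib.MP_b53bfe_ag.Spec2

/-!
# Theorem T1 (MP_b53bfe_ag), module Dc: the curve, the first stage
-/

set_option autoImplicit false

noncomputable section

namespace Pool.Agent.FY

open Polynomial

namespace Dc_aux

section

variable {E : Type} [CommRing E] [Algebra ℂ E]

omit [Algebra ℂ E] in
theorem coeff_lin (w e : E) (d n : ℕ) :
    ((C w + C e * X : E[X]) ^ d).coeff n = w ^ (d - n) * (d.choose n : E) * e ^ n := by
  have e1 : (C w + C e * X : E[X]) ^ d = ((X + C w) ^ d).comp (C e * X) := by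
    rw [Polynomial.pow_comp, Polynomial.add_comp, Polynomial.X_comp, Polynomial.C_comp, add_comm]
  rw [e1, Polynomial.comp_C_mul_X_coeff, Polynomial.coeff_X_add_C_pow]

theorem coeff_Pw {d : ℕ} {ε : ℂ} (w : E) {n : ℕ} (hn : 1 ≤ n) :
    (Pw d ε w).coeff n = (if n = d then 1 else 0) + w ^ (d - n) * (d.choose n : E) * (algebraMap ℂ E ε) ^ n := by
  unfold Pw
  rw [Polynomial.coeff_add, Polynomial.coeff_add, coeff_lin, Polynomial.coeff_one, Polynomial.coeff_X_pow,
    if_neg (by omega), zero_add]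

theorem coeff_Pw_top {d : ℕ} {ε : ℂ} (hd : 2 ≤ d) (hε : ε ^ d = -1) (w : E) {n : ℕ} (hn : d ≤ n) :
    (Pw d ε w).coeff n = 0 := by
  rw [coeff_Pw w (by omega)]
  rcases Nat.eq_or_lt_of_le hn with h | h
  · subst h
    rw [if_pos rfl, Nat.sub_self, pow_zero, Nat.choose_self, Nat.cast_one, one_mul, one_mul, ← map_pow, hε,
      map_neg, map_one, add_neg_cancel]
  · rw [if_neg (by omega), Nat.choose_eq_zero_of_lt h, Nat.cast_zero, mul_zero, zero_mul, zero_add]

theorem coeff_Pw_sub {d : ℕ} {ε : ℂ} (hd : 2 ≤ d) (w : E) :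
    (Pw d ε w).coeff (d - 1) = w * (d : E) * (algebraMap ℂ E ε) ^ (d - 1) := by
  rw [coeff_Pw w (by omega), if_neg (by omega), zero_add]
  have h1 : d - (d - 1) = 1 := by omega
  have h2 : d.choose (d - 1) = d := by
    rw [Nat.choose_symm (by omega : 1 ≤ d), Nat.choose_one_right]
  rw [h1, pow_one, h2]

theorem quo {d : ℕ} {ε : ℂ} (hd : 2 ≤ d) (hε : ε ^ d = -1) {w t : E} (hw : IsUnit w) (Q : E[X])
    (hQ : Pw d ε w = (X - C t) * Q) : Q.natDegree ≤ d - 1 - 1 ∧ IsUnit (Q.coeff (d - 1 - 1)) := by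
  have hP : (Pw d ε w).natDegree ≤ d - 1 :=
    Polynomial.natDegree_le_iff_coeff_eq_zero.2 fun N hN => coeff_Pw_top hd hε w (by omega)
  have hdeg : Q.natDegree ≤ d - 1 - 1 := by
    by_cases h0 : Q = 0
    · rw [h0, Polynomial.natDegree_zero]
      exact Nat.zero_le _
    · have hnt : Nontrivial E := Polynomial.Nontrivial.of_polynomial_ne h0
      rw [hQ, (Polynomial.monic_X_sub_C t).natDegree_mul' h0, Polynomial.natDegree_X_sub_C] at hP
      omega
  refine ⟨hdeg, ?_⟩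
  have h1 : (Pw d ε w).coeff (d - 1) = Q.coeff (d - 1 - 1) := by
    have h2 : d - 1 = d - 1 - 1 + 1 := by omega
    have h3 : Q.coeff (d - 1 - 1 + 1) = 0 := Polynomial.coeff_eq_zero_of_natDegree_lt (by omega)
    rw [hQ, h2, mul_comm, Polynomial.coeff_mul_X_sub_C, h3, zero_mul, sub_zero]
    rw [← h2]
  rw [← h1, coeff_Pw_sub hd]
  have hd0 : IsUnit (d : E) := by
    have h4 : IsUnit (algebraMap ℂ E (d : ℂ)) := (IsUnit.mk0 _ (Nat.cast_ne_zero.2 (by omega))).map _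
    rwa [map_natCast] at h4
  have he : IsUnit (algebraMap ℂ E ε) := by
    refine (IsUnit.mk0 _ ?_).map _
    intro h0
    rw [h0, zero_pow (by omega)] at hε
    norm_num at hε
  exact (hw.mul hd0).mul (he.pow _)

theorem unit_w {d : ℕ} {ε : ℂ} (hε : ε ^ d = -1) {t r : E} (hrel : 1 + t ^ d + r ^ d = 0) :
    IsUnit (r - algebraMap ℂ E ε * t) := by
  have h1 : r - algebraMap ℂ E ε * t ∣ r ^ d - (algebraMap ℂ E ε * t) ^ d := sub_dvd_pow_sub_pow _ _ _
  have h2 : r ^ d - (algebraMap ℂ E ε * t) ^ d = -1 := by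
    rw [mul_pow, ← map_pow, hε, map_neg, map_one]
    linear_combination hrel
  rw [h2, dvd_neg] at h1
  exact isUnit_of_dvd_one h1

end

end Dc_aux

open Dc_aux

theorem tDc : S_Dc := by
  intro d ε hd hε
  have key : ∀ t r : E1 d, t = Ideal.Quotient.mk _ (MvPolynomial.X 0) → r = Ideal.Quotient.mk _ (MvPolynomial.X 1) →
      1 + t ^ d + r ^ d = 0 := by
    rintro t r rfl rfl
    rw [← map_pow, ← map_pow, ← map_one (Ideal.Quotient.mk _), ← map_add, ← map_add,
      Ideal.Quotient.eq_zero_iff_mem]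
    exact Ideal.mem_span_singleton_self _
  obtain ⟨t, ht⟩ : ∃ t : E1 d, t = Ideal.Quotient.mk _ (MvPolynomial.X 0) := ⟨_, rfl⟩
  obtain ⟨r, hr⟩ : ∃ r : E1 d, r = Ideal.Quotient.mk _ (MvPolynomial.X 1) := ⟨_, rfl⟩
  have hrel := key t r ht hr
  have hw : IsUnit (r - algebraMap ℂ (E1 d) ε * t) := unit_w hε hrel
  have hroot : (Pw d ε (r - algebraMap ℂ (E1 d) ε * t)).IsRoot t := by
    unfold Pw
    rw [Polynomial.IsRoot.def]
    simp only [Polynomial.eval_add, Polynomial.eval_pow, Polynomial.eval_mul, Polynomial.eval_C, Polynomial.eval_X,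
      Polynomial.eval_one, sub_add_cancel]
    exact hrel
  obtain ⟨Q, hQ⟩ := Polynomial.dvd_iff_isRoot.2 hroot
  obtain ⟨q1, q2⟩ := quo hd hε hw Q hQ
  refine ⟨E1 d, inferInstance, inferInstance, r - algebraMap ℂ (E1 d) ε * t,
    (Ideal.Quotient.mkₐ ℂ _).comp (MvPolynomial.aeval (fun p : Fin 2 × Fin 1 => (MvPolynomial.X p.1 : Po (Fin 2)))),
    Q, ?_, hw, ?_, ?_, q1, q2, ?_⟩
  · rw [AlgHom.coe_comp]
    refine (Ideal.Quotient.mkₐ_surjective ℂ _).comp fun q => ?_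
    refine ⟨MvPolynomial.rename (fun a : Fin 2 => ((a, 0) : Fin 2 × Fin 1)) q, ?_⟩
    rw [MvPolynomial.aeval_rename]
    exact MvPolynomial.aeval_X_left_apply q
  · intro j
    rw [AlgHom.comp_apply, AlgHom.comp_apply, MvPolynomial.aeval_X, MvPolynomial.aeval_X,
      Ideal.Quotient.mkₐ_eq_mk, ← hr, ← ht, sub_add_cancel]
  · rw [Fin.prod_univ_one, AlgHom.comp_apply, MvPolynomial.aeval_X, Ideal.Quotient.mkₐ_eq_mk, ← ht]
    exact hQ
  · intro V _ χ
    rw [Nat.sub_self, pow_zero, Nat.factorial_zero, Nat.cast_one, one_mul, one_smul]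
    rfl

end Pool.Agent.FY
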