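import Pool.Agent.Lib.MP_b53bfe_ag.Spec2
import Pool.Agent.Lib.MP_b53bfe_ag.Bas

/-!
# `S_Dd`: the curve, the next stage
-/

set_option autoImplicit false

noncomputable section

namespace Pool.Agent.FY

open Polynomial

namespace Dd_aux

section

variable {k : ℕ} {E : Type} [CommRing E] [Algebra ℂ E] (ε : ℂ) (w : E) (φ : PK k →ₐ[ℂ] E)

private theorem exk_cast (i : Fin 2) (j : Fin k) :
    exk ε w φ (MvPolynomial.X (i, j.castSucc)) = C (φ (MvPolynomial.X (i, j))) := by
  unfold exk
  rw [MvPolynomial.aeval_X]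
  simp only [Fin.lastCases_castSucc]

private theorem exk_last0 : exk ε w φ (MvPolynomial.X (0, Fin.last k)) = X := by
  unfold exk
  rw [MvPolynomial.aeval_X]
  simp only [Fin.lastCases_last, if_true]

private theorem exk_last1 :
    exk ε w φ (MvPolynomial.X (1, Fin.last k)) = C w + C (algebraMap ℂ E ε) * X := by
  unfold exk
  rw [MvPolynomial.aeval_X]
  simp only [Fin.lastCases_last]
  rw [if_neg (by decide)]

private theorem exk_surj (hφ : Function.Surjective φ) : Function.Surjective (exk ε w φ) := by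
  have h1 : ∀ p : PK k, ∃ q, exk ε w φ q = C (φ p) := by
    intro p
    induction p using MvPolynomial.induction_on with
    | C a =>
      refine ⟨MvPolynomial.C a, ?_⟩
      rw [← MvPolynomial.algebraMap_eq, ← MvPolynomial.algebraMap_eq, AlgHom.commutes, AlgHom.commutes]
      rfl
    | add p q hp hq =>
      obtain ⟨a, ha⟩ := hp
      obtain ⟨b, hb⟩ := hq
      exact ⟨a + b, by rw [map_add, map_add, ha, hb, C_add]⟩
    | mul_X p v hp =>
      obtain ⟨a, ha⟩ := hp
      exact ⟨a * MvPolynomial.X (v.1, v.2.castSucc), by rw [map_mul, map_mul, ha, exk_cast, C_mul]⟩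
  intro x
  induction x using Polynomial.induction_on' with
  | add p q hp hq =>
    obtain ⟨a, ha⟩ := hp
    obtain ⟨b, hb⟩ := hq
    exact ⟨a + b, by rw [map_add, ha, hb]⟩
  | monomial n a =>
    obtain ⟨p, rfl⟩ := hφ a
    obtain ⟨q, hq⟩ := h1 p
    exact ⟨q * MvPolynomial.X (0, Fin.last k) ^ n, by rw [map_mul, map_pow, hq, exk_last0, C_mul_X_pow_eq_monomial]⟩

private theorem gam_cast (j : Fin k) (i : Fin 2) (j' : Fin k) :
    gam j (MvPolynomial.X (i, j'.castSucc)) = (MvPolynomial.X (i, j') : PK k) := by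
  unfold gam
  rw [MvPolynomial.aeval_X]
  simp only [Fin.lastCases_castSucc]

private theorem gam_last (j : Fin k) (i : Fin 2) :
    gam j (MvPolynomial.X (i, Fin.last k)) = (MvPolynomial.X (i, j) : PK k) := by
  unfold gam
  rw [MvPolynomial.aeval_X]
  simp only [Fin.lastCases_last]

private theorem gam_surj (j : Fin k) : Function.Surjective (gam j) := by
  intro p
  induction p using MvPolynomial.induction_on with
  | C a =>
    refine ⟨MvPolynomial.C a, ?_⟩
    rw [← MvPolynomial.algebraMap_eq, AlgHom.commutes]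
    rfl
  | add p q hp hq =>
    obtain ⟨a, ha⟩ := hp
    obtain ⟨b, hb⟩ := hq
    exact ⟨a + b, by rw [map_add, ha, hb]⟩
  | mul_X p v hp =>
    obtain ⟨a, ha⟩ := hp
    exact ⟨a * MvPolynomial.X (v.1, v.2.castSucc), by rw [map_mul, ha, gam_cast]⟩

private theorem del_gam (d : ℕ) (j : Fin k) : (del d k).comp (gam j).toRingHom = del d (k + 1) := by
  have hX : ∀ (m : ℕ) (p : Fin 2 × Fin m), del d m (MvPolynomial.X p) = Ideal.Quotient.mk _ (MvPolynomial.X p.1) := by
    intro m p
    unfold del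
    show Ideal.Quotient.mk _ (MvPolynomial.aeval (fun p : Fin 2 × Fin m => (MvPolynomial.X p.1 : Po (Fin 2)))
      (MvPolynomial.X p)) = _
    rw [MvPolynomial.aeval_X]
  apply MvPolynomial.ringHom_ext
  · intro r
    show del d k (gam j (MvPolynomial.C r)) = del d (k + 1) (MvPolynomial.C r)
    have h1 : gam j (MvPolynomial.C r) = (MvPolynomial.C r : PK k) := by
      rw [← MvPolynomial.algebraMap_eq, AlgHom.commutes]
      rfl
    rw [h1]
    unfold del
    show Ideal.Quotient.mk _ (MvPolynomial.aeval _ (MvPolynomial.C r)) =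
      Ideal.Quotient.mk _ (MvPolynomial.aeval _ (MvPolynomial.C r))
    rw [MvPolynomial.aeval_C, MvPolynomial.aeval_C]
  · rintro ⟨i, j'⟩
    show del d k (gam j (MvPolynomial.X (i, j'))) = del d (k + 1) (MvPolynomial.X (i, j'))
    rw [hX]
    refine Fin.lastCases ?_ (fun j'' => ?_) j'
    · rw [gam_last, hX]
    · rw [gam_cast, hX]

private theorem gam_cj (d : ℕ) (j : Fin k) (r : PK (k + 1)) (hr : r ∈ Set.range (cj (k := k + 1) d)) :
    (gam j).toRingHom r ∈ Ideal.span (Set.range (cj (k := k) d)) := by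
  obtain ⟨j', rfl⟩ := hr
  have h1 : ∀ (j'' : Fin (k + 1)) (l : Fin k), (∀ i, gam j (MvPolynomial.X (i, j'')) = (MvPolynomial.X (i, l) : PK k)) →
      (gam j).toRingHom (cj d j'') = cj d l := by
    intro j'' l h
    show gam j (1 + MvPolynomial.X (0, j'') ^ d + MvPolynomial.X (1, j'') ^ d) = _
    rw [map_add, map_add, map_one, map_pow, map_pow, h, h]
    rfl
  refine Ideal.subset_span ?_
  refine Fin.lastCases ?_ (fun l => ?_) j'
  · exact ⟨j, (h1 _ _ fun i => gam_last j i).symm⟩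
  · exact ⟨l, (h1 _ _ fun i => gam_cast j i l).symm⟩

end

end Dd_aux

open Dd_aux in
theorem tDd : S_Da → S_Db → S_Dd := by
  intro hDa hDb d k ε hd hε hk hkd hSt
  obtain ⟨E, _, _, w, φ, Q, hφ, hw, hr, hP, hQd, hQu, hval⟩ := hSt
  have hroot : ∀ j : Fin k, (Pw d ε w).eval (φ (MvPolynomial.X (0, j))) = 0 := by
    intro j
    rw [hP, eval_mul, eval_prod, Finset.prod_eq_zero (Finset.mem_univ j), zero_mul]
    rw [eval_sub, eval_X, eval_C, sub_self]
  set I : Ideal E[X] := Ideal.span {Q} with hI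
  let q : E[X] →ₐ[ℂ] E[X] ⧸ I := Ideal.Quotient.mkₐ ℂ I
  have hq : Function.Surjective q := Ideal.Quotient.mkₐ_surjective ℂ I
  let c : E →+* E[X] ⧸ I := (Ideal.Quotient.mk I).comp C
  have hcε : c (algebraMap ℂ E ε) = algebraMap ℂ (E[X] ⧸ I) ε := rfl
  let φ' : PK (k + 1) →ₐ[ℂ] E[X] ⧸ I := q.comp (exk ε w φ)
  have hφ'c : ∀ (i : Fin 2) (j : Fin k), φ' (MvPolynomial.X (i, j.castSucc)) = c (φ (MvPolynomial.X (i, j))) := by
    intro i j
    show q (exk ε w φ _) = _
    rw [exk_cast]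
    rfl
  have hφ'0 : φ' (MvPolynomial.X (0, Fin.last k)) = Ideal.Quotient.mk I X := by
    show q (exk ε w φ _) = _
    rw [exk_last0]
    rfl
  have hφ'1 : φ' (MvPolynomial.X (1, Fin.last k)) =
      c w + algebraMap ℂ (E[X] ⧸ I) ε * Ideal.Quotient.mk I X := by
    show q (exk ε w φ _) = _
    rw [exk_last1, map_add, map_mul]
    rfl
  -- the root
  have hQroot : (Q.map c).IsRoot (Ideal.Quotient.mk I X) := by
    show (Q.map c).eval (Ideal.Quotient.mk I X) = 0
    rw [eval_map, ← hom_eval₂, eval₂_C_X, Ideal.Quotient.eq_zero_iff_mem]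
    exact Ideal.subset_span rfl
  obtain ⟨Q', hQ'⟩ := dvd_iff_isRoot.2 hQroot
  have hm : d - 1 - k = d - 1 - (k + 1) + 1 := by omega
  have hQ'd : Q'.natDegree ≤ d - 1 - (k + 1) := by
    rw [natDegree_le_iff_coeff_eq_zero]
    by_contra hcon
    push Not at hcon
    obtain ⟨N, hN, hN0⟩ := hcon
    have hQ'0 : Q' ≠ 0 := fun h => hN0 (by rw [h, coeff_zero])
    have h1 : (Q.map c).natDegree = 1 + Q'.natDegree := by
      rw [hQ', (monic_X_sub_C _).natDegree_mul' hQ'0]
      have hnt : Nontrivial (E[X] ⧸ I) := ⟨_, _, hN0⟩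
      rw [natDegree_X_sub_C]
    have h2 : (Q.map c).natDegree ≤ d - 1 - k := natDegree_map_le.trans hQd
    have h3 : N ≤ Q'.natDegree := le_natDegree_of_ne_zero hN0
    omega
  refine ⟨E[X] ⧸ I, inferInstance, inferInstance, c w, φ', Q', hq.comp (exk_surj ε w φ hφ), hw.map c, ?_, ?_, hQ'd,
    ?_, ?_⟩
  · intro j
    refine Fin.lastCases ?_ (fun j' => ?_) j
    · rw [hφ'1, hφ'0]
    · rw [hφ'c, hφ'c, hr, map_add, map_mul, hcε]
  · have h1 : Pw d ε (c w) = (Pw d ε w).map c := by
      unfold Pw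
      simp only [Polynomial.map_add, Polynomial.map_one, Polynomial.map_pow, Polynomial.map_mul, map_X, map_C]
      rw [hcε]
    rw [h1, hP, Polynomial.map_mul, hQ', Polynomial.map_prod, Fin.prod_univ_castSucc, hφ'0, mul_assoc]
    congr 1
    refine Finset.prod_congr rfl fun j _ => ?_
    rw [Polynomial.map_sub, map_X, map_C, hφ'c]
  · have h1 : (Q.map c).coeff (d - 1 - (k + 1) + 1) = Q'.coeff (d - 1 - (k + 1)) := by
      rw [hQ', sub_mul, coeff_sub, coeff_X_mul, coeff_C_mul,
        coeff_eq_zero_of_natDegree_lt (Nat.lt_succ_of_le hQ'd), mul_zero, sub_zero]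
    rw [← h1, coeff_map, ← hm]
    exact hQu.map c
  · intro V _ χ
    have e1 := hDa d k ε E w φ hd hε hφ hw hr hroot V χ hk
    rw [hDb d k ε E w φ Q hφ hr hP V χ] at e1
    have e2 : ∀ j : Fin k, χ.f (Res (φ.comp (gam j)).toRingHom E) =
        ((-1) ^ (k - 1) * ((k - 1).factorial : ℤ)) • χ.f (Res (del d (k + 1)) (E1 d)) := by
      intro j
      have h1 := hval V (χ.res (gam j).toRingHom (gam_surj j) (Set.range (cj d)) (gam_cj d j))
      have h2 : (χ.res (gam j).toRingHom (gam_surj j) (Set.range (cj d)) (gam_cj d j)).f (Res φ.toRingHom E) =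
          χ.f (Res (φ.comp (gam j)).toRingHom E) := rfl
      have h3 : (χ.res (gam j).toRingHom (gam_surj j) (Set.range (cj d)) (gam_cj d j)).f (Res (del d k) (E1 d)) =
          χ.f (Res ((del d k).comp (gam j).toRingHom) (E1 d)) := rfl
      rw [h2, h3, del_gam] at h1
      exact h1
    rw [Finset.sum_congr rfl fun j _ => e2 j, Finset.sum_const, Finset.card_univ, Fintype.card_fin] at e1
    have e3 : χ.f (Res φ'.toRingHom (E[X] ⧸ I)) =
        -(k • ((-1) ^ (k - 1) * ((k - 1).factorial : ℤ)) • χ.f (Res (del d (k + 1)) (E1 d))) := by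
      rw [eq_neg_iff_add_eq_zero, add_comm]
      exact e1
    rw [e3, ← natCast_zsmul, smul_smul, ← neg_smul]
    congr 1
    obtain ⟨m, rfl⟩ : ∃ m, k = m + 1 := ⟨k - 1, by omega⟩
    rw [Nat.add_sub_cancel, Nat.add_sub_cancel, Nat.factorial_succ]
    push_cast
    ring

end Pool.Agent.FY
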