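import Pool.Agent.Lib.MP_b53bfe_ag.Spec2
import Pool.Agent.Lib.MP_b53bfe_ag.Bas

/-!
# Theorem T1 (MP_b53bfe_ag), module De: the small diagonal of the curve
-/

set_option autoImplicit false

noncomputable section

namespace Pool.Agent.FY

open Polynomial

/-- `gam j` restricted to the first `k` pairs is the identity. -/
private theorem De_gam_rename {k : ℕ} (j : Fin k) (p : PK k) :
    gam j (MvPolynomial.rename (fun q : Fin 2 × Fin k => (q.1, Fin.castSucc q.2)) p) = p := by
  unfold gam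
  rw [MvPolynomial.aeval_rename]
  have h : ((fun p : Fin 2 × Fin (k + 1) =>
      Fin.lastCases (motive := fun _ => PK k) (MvPolynomial.X (p.1, j))
        (fun j' => MvPolynomial.X (p.1, j')) p.2) ∘
      fun q : Fin 2 × Fin k => (q.1, Fin.castSucc q.2)) = MvPolynomial.X := by
    funext q
    simp
  rw [h]
  exact MvPolynomial.aeval_X_left_apply p

private theorem De_gam_surj {k : ℕ} (j : Fin k) :
    Function.Surjective (gam j).toRingHom := fun p => ⟨_, De_gam_rename j p⟩

private theorem De_gam_cj (d : ℕ) {k : ℕ} (j : Fin k) :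
    ∀ r ∈ Set.range (cj d : Fin (k + 1) → PK (k + 1)),
      (gam j).toRingHom r ∈ Ideal.span (Set.range (cj d : Fin k → PK k)) := by
  rintro _ ⟨l, rfl⟩
  apply Ideal.subset_span
  induction l using Fin.lastCases with
  | last =>
    refine ⟨j, ?_⟩
    simp [cj, gam]
  | cast l =>
    refine ⟨l, ?_⟩
    simp [cj, gam]

private theorem De_del_gam (d : ℕ) {k : ℕ} (j : Fin k) :
    (del d k).comp (gam j).toRingHom = del d (k + 1) := by
  apply MvPolynomial.ringHom_ext
  · intro r
    simp [del, gam]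
  · rintro ⟨a, l⟩
    induction l using Fin.lastCases with
    | last => simp [del, gam]
    | cast l => simp [del, gam]

private theorem De_zsmul {V : Type 1} [AddCommGroup V] [Module ℚ V] {n : ℤ} (hn : n ≠ 0) {v : V}
    (h : n • v = 0) : v = 0 := by
  rw [← Int.cast_smul_eq_zsmul ℚ n v] at h
  rcases smul_eq_zero.1 h with h1 | h1
  · exact absurd (Int.cast_eq_zero.1 h1) hn
  · exact h1

/-- The case `N = d`. -/
private theorem De_top (hda : S_Da) (hdb : S_Db) (hdc : S_Dc) (hdd : S_Dd) (m : ℕ) (hm : 1 ≤ m)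
    (V : Type 1) [AddCommGroup V] [Module ℚ V]
    (χ : AFun (PK (m + 1)) (Set.range (cj (m + 1))) V) :
    χ.f (Res (del (m + 1) (m + 1)) (E1 (m + 1))) = 0 := by
  obtain ⟨ε, hε⟩ := IsAlgClosed.exists_pow_nat_eq (-1 : ℂ) (Nat.succ_pos m)
  have hst : ∀ k : ℕ, 1 ≤ k → k ≤ m → Stage (m + 1) k ε := by
    intro k hk
    induction k, hk using Nat.le_induction with
    | base => intro _; exact hdc (m + 1) ε (by omega) hε
    | succ k hk ih =>
      intro hkm
      exact hdd (m + 1) k ε (by omega) hε hk (by omega) (ih (by omega))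
  obtain ⟨E, _, _, w, φ, Q, hφ, hw, hrel, hP, hdeg, hu, hval⟩ := hst m hm le_rfl
  have e0 : m + 1 - 1 - m = 0 := by omega
  rw [e0] at hdeg hu
  have hQ : IsUnit Q := by
    rw [Polynomial.eq_C_of_natDegree_le_zero hdeg]
    exact hu.map C
  have heval : ∀ j : Fin m, (Pw (m + 1) ε w).eval (φ (MvPolynomial.X (0, j))) = 0 := by
    intro j
    rw [hP, Polynomial.eval_mul, Polynomial.eval_prod, Finset.prod_eq_zero (Finset.mem_univ j),
      zero_mul]
    simp
  have h1 := hda (m + 1) m ε E w φ (by omega) hε hφ hw hrel heval V χ hm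
  have h2 := hdb (m + 1) m ε E w φ Q hφ hrel hP V χ
  rw [h1] at h2
  have hsub : Subsingleton (E[X] ⧸ Ideal.span {Q}) := by
    rw [Ideal.span_singleton_eq_top.2 hQ]
    exact Ideal.Quotient.subsingleton_iff.2 rfl
  have h3 : χ.f (Res ((Ideal.Quotient.mk (Ideal.span {Q})).comp (exk ε w φ).toRingHom)
      (E[X] ⧸ Ideal.span {Q})) = 0 := χ.subsing hsub
  rw [h3, add_zero] at h2
  have h4 : ∀ j : Fin m, χ.f (Res (φ.comp (gam j)).toRingHom E)
      = ((-1) ^ (m - 1) * ((m - 1).factorial : ℤ)) •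
        χ.f (Res (del (m + 1) (m + 1)) (E1 (m + 1))) := by
    intro j
    have h5 := hval V (χ.res (gam j).toRingHom (De_gam_surj j) (Set.range (cj (m + 1)))
      (De_gam_cj (m + 1) j))
    have h6 : (χ.res (gam j).toRingHom (De_gam_surj j) (Set.range (cj (m + 1)))
      (De_gam_cj (m + 1) j)).f (Res φ.toRingHom E) = χ.f (Res (φ.comp (gam j)).toRingHom E) := rfl
    have h7 : (χ.res (gam j).toRingHom (De_gam_surj j) (Set.range (cj (m + 1)))
      (De_gam_cj (m + 1) j)).f (Res (del (m + 1) m) (E1 (m + 1)))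
        = χ.f (Res ((del (m + 1) m).comp (gam j).toRingHom) (E1 (m + 1))) := rfl
    rw [h6, h7, De_del_gam] at h5
    exact h5
  rw [Finset.sum_congr rfl fun j _ => h4 j, Finset.sum_const, Finset.card_univ, Fintype.card_fin,
    ← natCast_zsmul, ← mul_smul] at h2
  refine De_zsmul ?_ h2.symm
  have : ((m - 1).factorial : ℤ) ≠ 0 := by exact_mod_cast (Nat.factorial_ne_zero _)
  have hm0 : (m : ℤ) ≠ 0 := by exact_mod_cast (by omega : m ≠ 0)
  exact mul_ne_zero hm0 (mul_ne_zero (pow_ne_zero _ (by norm_num)) this)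

theorem tDe : S_Da → S_Db → S_Dc → S_Dd → S_De := by
  intro hda hdb hdc hdd d N V _ _ χ hd hdN
  obtain ⟨m, rfl⟩ : ∃ m, d = m + 1 := ⟨d - 1, by omega⟩
  let g : Fin N → Fin (m + 1) := fun j => ⟨min j.1 m, by omega⟩
  have hg : Function.Surjective g := by
    intro l
    refine ⟨⟨l.1, by omega⟩, ?_⟩
    apply Fin.ext
    change min l.1 m = l.1
    omega
  let s : PK N →+* PK (m + 1) :=
    (MvPolynomial.rename (fun q : Fin 2 × Fin N => (q.1, g q.2)) : PK N →ₐ[ℂ] PK (m + 1)).toRingHom
  have hs : Function.Surjective s := by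
    apply MvPolynomial.rename_surjective
    rintro ⟨a, l⟩
    obtain ⟨j, hj⟩ := hg l
    exact ⟨(a, j), by rw [← hj]⟩
  have hI : ∀ r ∈ Set.range (cj (m + 1) : Fin N → PK N),
      s r ∈ Ideal.span (Set.range (cj (m + 1) : Fin (m + 1) → PK (m + 1))) := by
    rintro _ ⟨j, rfl⟩
    apply Ideal.subset_span
    refine ⟨g j, ?_⟩
    simp [cj, s]
  have h1 := De_top hda hdb hdc hdd m (by omega) V (χ.res s hs (Set.range (cj (m + 1))) hI)
  have h2 : (χ.res s hs (Set.range (cj (m + 1))) hI).f (Res (del (m + 1) (m + 1)) (E1 (m + 1)))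
      = χ.f (Res ((del (m + 1) (m + 1)).comp s) (E1 (m + 1))) := rfl
  have h3 : (del (m + 1) (m + 1)).comp s = del (m + 1) N := by
    apply MvPolynomial.ringHom_ext
    · intro r
      simp [del, s]
    · rintro ⟨a, l⟩
      simp [del, s]
  rw [h2, h3] at h1
  exact h1

end Pool.Agent.FY
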