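import Pool.Agent.Lib.MP_b53bfe_ag.Spec2

/-!
# The twisted module of a homogeneous ideal
-/

set_option autoImplicit false

noncomputable section

namespace Pool.Agent.FY

open Polynomial

namespace Ee_aux

open LaurentPolynomial TensorProduct

variable {σ : Type} (δ : σ → ℤ)

theorem tau_C (c : ℂ) : tau δ (MvPolynomial.C c) = LaurentPolynomial.C (MvPolynomial.C c : Po σ) := by
  unfold tau
  rw [AlgHom.toRingHom_eq_coe, RingHom.coe_coe, MvPolynomial.aeval_C, LaurentPolynomial.algebraMap_apply,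
    MvPolynomial.algebraMap_eq]

theorem tau_X (j : σ) : tau δ (MvPolynomial.X j) =
    LaurentPolynomial.C (MvPolynomial.X j : Po σ) * LaurentPolynomial.T (-δ j) := by
  unfold tau
  rw [AlgHom.toRingHom_eq_coe, RingHom.coe_coe, MvPolynomial.aeval_X]

variable {S : Type} [CommRing S] (q : Po σ →+* S)

/-- coefficients by `q`, `T ↦ T⁻¹` -/
def Nn : LaurentPolynomial (Po σ) →+* LaurentPolynomial S :=
  LaurentPolynomial.eval₂ (LaurentPolynomial.C.comp q) (uT S (-1))

theorem uT_zpow (R : Type) [CommRing R] (d n : ℤ) : ((uT R d) ^ n).val = LaurentPolynomial.T (d * n) := by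
  have h1 : ∀ k : ℕ, ((uT R d) ^ k).val = LaurentPolynomial.T (d * k) := by
    intro k
    rw [Units.val_pow_eq_pow_val]
    change (LaurentPolynomial.T d) ^ k = _
    rw [LaurentPolynomial.T_pow, mul_comm]
  have h2 : ∀ k : ℕ, (((uT R d)⁻¹) ^ k).val = LaurentPolynomial.T (-(d * k)) := by
    intro k
    rw [Units.val_pow_eq_pow_val]
    change (LaurentPolynomial.T (-d)) ^ k = _
    rw [LaurentPolynomial.T_pow]
    congr 1
    ring
  rcases Int.eq_nat_or_neg n with ⟨k, rfl | rfl⟩
  · rw [zpow_natCast, h1]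
  · rw [zpow_neg, zpow_natCast, ← inv_pow, h2]
    congr 1
    ring

theorem Nn_C_T (r : Po σ) (n : ℤ) : Nn q (LaurentPolynomial.C r * LaurentPolynomial.T n) =
    LaurentPolynomial.C (q r) * LaurentPolynomial.T (-n) := by
  unfold Nn
  rw [LaurentPolynomial.eval₂_C_mul_T, uT_zpow]
  simp

/-- `X_j ↦ T ^ (δ j) X_j` followed by `q` -/
def Ps : Po σ →+* LaurentPolynomial S := (Nn q).comp (tau δ)

/-- `X_j ↦ T ^ (δ j) X_j`, `T ↦ T`, followed by `q` -/
def Ph : LaurentPolynomial (Po σ) →+* LaurentPolynomial S := LaurentPolynomial.eval₂ (Ps δ q) (uT S 1)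

theorem Ph_C (r : Po σ) : Ph δ q (LaurentPolynomial.C r) = Ps δ q r := by
  unfold Ph
  rw [LaurentPolynomial.eval₂_C]

theorem Ph_T (n : ℤ) : Ph δ q (LaurentPolynomial.T n) = LaurentPolynomial.T n := by
  unfold Ph
  rw [LaurentPolynomial.eval₂_T, uT_zpow, one_mul]

theorem Ps_hmg {e : ℤ} {r : Po σ} (h : Hmg δ e r) : Ps δ q r = LaurentPolynomial.C (q r) * LaurentPolynomial.T e := by
  unfold Ps
  rw [RingHom.comp_apply]
  have h1 : tau δ r = LaurentPolynomial.C r * LaurentPolynomial.T (-e) := h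
  rw [h1, Nn_C_T, neg_neg]

theorem Ph_tau (s : Po σ) : Ph δ q (tau δ s) = LaurentPolynomial.C (q s) := by
  have h : (Ph δ q).comp (tau δ) = LaurentPolynomial.C.comp q := by
    apply MvPolynomial.ringHom_ext
    · intro c
      rw [RingHom.comp_apply, RingHom.comp_apply, tau_C, Ph_C]
      unfold Ps
      rw [RingHom.comp_apply, tau_C]
      have h1 := Nn_C_T q (MvPolynomial.C c) 0
      rw [neg_zero, LaurentPolynomial.T_zero, mul_one, LaurentPolynomial.T_zero, mul_one] at h1
      exact h1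
    · intro j
      rw [RingHom.comp_apply, RingHom.comp_apply, tau_X, map_mul, Ph_C, Ph_T]
      unfold Ps
      rw [RingHom.comp_apply, tau_X, Nn_C_T, neg_neg, mul_assoc, ← LaurentPolynomial.T_add,
        add_neg_cancel, LaurentPolynomial.T_zero, mul_one]
  exact congrArg (fun f : Po σ →+* LaurentPolynomial S => f s) h

/-- `p ⊗ 1` -/
def mT (a : Ideal (Po σ)) (p : LaurentPolynomial (Po σ)) : TM δ (Po σ ⧸ a) :=
  Res.mk (tau δ) (p ⊗ₜ[Po σ] (1 : Po σ ⧸ a))

theorem mT_add (a : Ideal (Po σ)) (p p' : LaurentPolynomial (Po σ)) :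
    mT δ a (p + p') = mT δ a p + mT δ a p' := TensorProduct.add_tmul p p' (1 : Po σ ⧸ a)

theorem smul_mT (a : Ideal (Po σ)) (s : Po σ) (p : LaurentPolynomial (Po σ)) :
    s • mT δ a p = mT δ a (tau δ s * p) := rfl

theorem tb_mT (a : Ideal (Po σ)) (d : ℤ) (p : LaurentPolynomial (Po σ)) :
    tb δ d _ (mT δ a p) = mT δ a (LaurentPolynomial.T d * p) := rfl

theorem smul_one_quot (a : Ideal (Po σ)) (s : Po σ) :
    s • (1 : Po σ ⧸ a) = Ideal.Quotient.mk a s := by
  have h3 : s • (1 : Po σ ⧸ a) = Ideal.Quotient.mk a s * 1 := Algebra.smul_def s (1 : Po σ ⧸ a)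
  rw [h3, mul_one]

theorem mk_tmul (a : Ideal (Po σ)) (s : Po σ) (p : LaurentPolynomial (Po σ)) :
    p ⊗ₜ[Po σ] (Ideal.Quotient.mk a s) = (LaurentPolynomial.C s * p) ⊗ₜ[Po σ] (1 : Po σ ⧸ a) := by
  rw [← LaurentPolynomial.smul_eq_C_mul, TensorProduct.smul_tmul, smul_one_quot]

theorem mT_C_mul (a : Ideal (Po σ)) {r : Po σ} (hr : r ∈ a) (p : LaurentPolynomial (Po σ)) :
    mT δ a (LaurentPolynomial.C r * p) = 0 := by
  unfold mT
  rw [← mk_tmul, Ideal.Quotient.eq_zero_iff_mem.2 hr, TensorProduct.tmul_zero]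
  rfl

theorem mT_sur (a : Ideal (Po σ)) (N : Submodule (Po σ) (TM δ (Po σ ⧸ a)))
    (h : ∀ p : LaurentPolynomial (Po σ), mT δ a p ∈ N) : N = ⊤ := by
  rw [eq_top_iff]
  intro z _
  have h1 : ∀ z : TensorProduct (Po σ) (LaurentPolynomial (Po σ)) (Po σ ⧸ a), Res.mk (tau δ) z ∈ N := by
    intro z
    induction z using TensorProduct.induction_on with
    | zero => exact N.zero_mem
    | add z w hz hw => exact N.add_mem hz hw
    | tmul p s =>
      obtain ⟨s, rfl⟩ := Ideal.Quotient.mk_surjective s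
      rw [mk_tmul]
      exact h _
  exact h1 z

theorem mT_range (a : Ideal (Po σ)) (N : Submodule (Po σ) (TM δ (Po σ ⧸ a)))
    (h : ∀ n : ℤ, mT δ a (LaurentPolynomial.T n) ∈ N) : N = ⊤ := by
  have h1 : ∀ (s : Po σ) (n : ℤ), mT δ a (LaurentPolynomial.C s * LaurentPolynomial.T n) ∈ N := by
    intro s
    induction s using MvPolynomial.induction_on with
    | C c =>
      intro n
      rw [← tau_C, ← smul_mT]
      exact N.smul_mem _ (h n)
    | add s t hs ht =>
      intro n
      rw [map_add, add_mul, mT_add]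
      exact N.add_mem (hs n) (ht n)
    | mul_X s j hs =>
      intro n
      have h2 : (LaurentPolynomial.T (-δ j) * LaurentPolynomial.T (δ j) : LaurentPolynomial (Po σ)) = 1 := by
        rw [← LaurentPolynomial.T_add, neg_add_cancel, LaurentPolynomial.T_zero]
      have h3 : (LaurentPolynomial.C (s * MvPolynomial.X j) * LaurentPolynomial.T n : LaurentPolynomial (Po σ)) =
          tau δ (MvPolynomial.X j) * (LaurentPolynomial.C s * LaurentPolynomial.T (n + δ j)) := by
        rw [tau_X, LaurentPolynomial.T_add, map_mul]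
        calc LaurentPolynomial.C s * LaurentPolynomial.C (MvPolynomial.X j : Po σ) * LaurentPolynomial.T n
            = LaurentPolynomial.C s * LaurentPolynomial.C (MvPolynomial.X j : Po σ) * LaurentPolynomial.T n * 1 := by
              rw [mul_one]
          _ = _ := by rw [← h2]; ring
      rw [h3, ← smul_mT]
      exact N.smul_mem _ (hs _)
  refine mT_sur δ a N fun p => ?_
  induction p using LaurentPolynomial.induction_on' with
  | add p p' hp hp' =>
    rw [mT_add]
    exact N.add_mem hp hp'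
  | C_mul_T n r => exact h1 r n

end Ee_aux

open Ee_aux in
/-- **Ee** -/
theorem tEe : S_Ee := by
  intro σ _ δ d A hA
  let a : Ideal (Po σ) := Ideal.span A
  let q : Po σ →+* Po σ ⧸ a := Ideal.Quotient.mk a
  have hq0 : ∀ r ∈ a, q r = 0 := fun r hr => Ideal.Quotient.eq_zero_iff_mem.2 hr
  have hPs0 : ∀ r ∈ a, Ps δ q r = 0 := by
    intro r hr
    have h1 : a ≤ RingHom.ker (Ps δ q) := by
      refine Ideal.span_le.2 fun x hx => ?_
      obtain ⟨e, he⟩ := hA x hx
      change x ∈ RingHom.ker (Ps δ q)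
      rw [RingHom.mem_ker, Ps_hmg δ q he, hq0 x (Ideal.subset_span hx), map_zero, zero_mul]
    exact (RingHom.mem_ker).1 (h1 hr)
  let ψ : (Po σ ⧸ a) →+* LaurentPolynomial (Po σ ⧸ a) := Ideal.Quotient.lift a (Ps δ q) hPs0
  have hψ : ∀ s, ψ (q s) = Ps δ q s := fun s => Ideal.Quotient.lift_mk a (Ps δ q) hPs0
  -- the map `g`
  let b : LaurentPolynomial (Po σ) →ₗ[Po σ] (Po σ ⧸ a) →ₗ[Po σ] Res (Ps δ q) (LaurentPolynomial (Po σ ⧸ a)) :=
    LinearMap.mk₂ (Po σ) (fun p s => Res.mk (Ps δ q) (Ph δ q p * ψ s))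
      (fun p p' s => by
        change Ph δ q (p + p') * ψ s = Ph δ q p * ψ s + Ph δ q p' * ψ s
        rw [map_add, add_mul])
      (fun r p s => by
        change Ph δ q (r • p) * ψ s = Ps δ q r * (Ph δ q p * ψ s)
        rw [LaurentPolynomial.smul_eq_C_mul, map_mul, Ph_C, mul_assoc])
      (fun p s s' => by
        change Ph δ q p * ψ (s + s') = Ph δ q p * ψ s + Ph δ q p * ψ s'
        rw [map_add, mul_add])
      (fun r p s => by
        change Ph δ q p * ψ (r • s) = Ps δ q r * (Ph δ q p * ψ s)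
        have h1 : r • s = q r * s := Algebra.smul_def r s
        rw [h1, map_mul, hψ]
        ring)
  let g : TensorProduct (Po σ) (LaurentPolynomial (Po σ)) (Po σ ⧸ a) →ₗ[Po σ]
      Res (Ps δ q) (LaurentPolynomial (Po σ ⧸ a)) := TensorProduct.lift b
  have hg : ∀ p, g ((mT δ a p).val) = Ph δ q p := by
    intro p
    have h1 : g ((mT δ a p).val) = Ph δ q p * ψ 1 := rfl
    rw [h1, map_one, mul_one]
  -- the map `f`
  have hw0 : ∀ n, (a : Submodule (Po σ) (Po σ)) ≤ LinearMap.ker (LinearMap.toSpanSingleton (Po σ)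
      (TM δ (Po σ ⧸ a)) (mT δ a (LaurentPolynomial.T n))) := by
    intro n
    refine Submodule.span_le.2 fun r hr => ?_
    obtain ⟨e, he⟩ := hA r hr
    have he' : tau δ r = LaurentPolynomial.C r * LaurentPolynomial.T (-e) := he
    change r ∈ LinearMap.ker _
    rw [LinearMap.mem_ker, LinearMap.toSpanSingleton_apply, smul_mT, he', mul_assoc]
    exact mT_C_mul δ a (Ideal.subset_span hr) _
  let f₀ : ℤ → (Po σ ⧸ a) →ₗ[Po σ] TM δ (Po σ ⧸ a) := fun n =>
    Submodule.liftQ a (LinearMap.toSpanSingleton (Po σ) (TM δ (Po σ ⧸ a)) (mT δ a (LaurentPolynomial.T n))) (hw0 n)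
  have hf₀ : ∀ n s, f₀ n (q s) = mT δ a (tau δ s * LaurentPolynomial.T n) := fun n s => rfl
  let f : (ℤ →₀ (Po σ ⧸ a)) →ₗ[Po σ] TM δ (Po σ ⧸ a) := Finsupp.lsum ℕ f₀
  have hf : ∀ n s, f (Finsupp.single n (q s)) = mT δ a (tau δ s * LaurentPolynomial.T n) := by
    intro n s
    rw [← hf₀]
    exact Finsupp.lsum_single ℕ f₀ n (q s)
  have hqs : Function.Surjective q := Ideal.Quotient.mk_surjective
  have hgf : ∀ x : ℤ →₀ (Po σ ⧸ a), g (f x).val = AddMonoidAlgebra.ofCoeff x := by
    intro x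
    induction x using Finsupp.induction_linear with
    | zero =>
      rw [map_zero f]
      exact map_zero g
    | add x y hx hy =>
      rw [map_add f]
      have h1 : g ((f x + f y).val) = g (f x).val + g (f y).val := map_add g _ _
      rw [h1, hx, hy]
      rfl
    | single n s =>
      obtain ⟨s, rfl⟩ := hqs s
      rw [hf, hg, map_mul, Ph_tau, Ph_T]
      exact (LaurentPolynomial.single_eq_C_mul_T (q s) n).symm
  have hinj : Function.Injective f := by
    intro x y hxy
    have h1 := hgf x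
    rw [hxy, hgf y] at h1
    exact (AddMonoidAlgebra.ofCoeff_injective h1).symm
  have hsurj : Function.Surjective f := by
    rw [← LinearMap.range_eq_top]
    refine mT_range δ a _ fun n => ?_
    refine ⟨Finsupp.single n (q 1), ?_⟩
    rw [hf, map_one, one_mul]
  let F : (ℤ →₀ (Po σ ⧸ a)) ≃ₗ[Po σ] TM δ (Po σ ⧸ a) := LinearEquiv.ofBijective f ⟨hinj, hsurj⟩
  have hshift : ∀ x, tb δ (d : ℤ) _ (f x) = f ((Finsupp.domLCongr (Equiv.addRight (d : ℤ)) :
      (ℤ →₀ (Po σ ⧸ a)) ≃ₗ[Po σ] (ℤ →₀ (Po σ ⧸ a))) x) := by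
    intro x
    induction x using Finsupp.induction_linear with
    | zero => rw [map_zero f, map_zero, map_zero, map_zero]
    | add x y hx hy => rw [map_add f, map_add, hx, hy, map_add, map_add f]
    | single n s =>
      obtain ⟨s, rfl⟩ := hqs s
      rw [Finsupp.domLCongr_single, hf, hf, Equiv.coe_addRight, tb_mT]
      have h1 : (LaurentPolynomial.T (d : ℤ) * (tau δ s * LaurentPolynomial.T n) : LaurentPolynomial (Po σ)) =
          tau δ s * LaurentPolynomial.T (n + d) := by
        rw [LaurentPolynomial.T_add]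
        ring
      rw [h1]
  refine ⟨F.symm, fun z => ?_⟩
  rw [LinearEquiv.symm_apply_eq]
  have h1 := hshift (F.symm z)
  have h2 : f (F.symm z) = z := F.apply_symm_apply z
  rw [h2] at h1
  exact h1

end Pool.Agent.FY
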