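import Pool.Agent.Lib.MP_b53bfe_ag.Spec2
import Pool.Agent.Lib.MP_b53bfe_ag.Bas

/-!
# From `S_T1` to modules over the quotient ring
-/

set_option autoImplicit false

noncomputable section

namespace Pool.Agent.FY

open Polynomial

/-- a module killed by `I`, as a module over the quotient -/
abbrev qmod {S : Type} [CommRing S] {I : Set S} {M : Type} [AddCommGroup M] [Module S M] (h : Kil I M) :
    Module (S ⧸ Ideal.span I) M :=
  Module.IsTorsionBySet.module (I := Ideal.span I) (fun m r => by
    have key : ∀ t ∈ Ideal.span I, ∀ x : M, t • x = 0 := by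
      intro t ht
      induction ht using Submodule.span_induction with
      | mem y hy => exact fun x => h y hy x
      | zero => exact fun x => zero_smul _ _
      | add y z _ _ hy hz => exact fun x => by rw [add_smul, hy, hz, add_zero]
      | smul a y _ hy => exact fun x => by rw [smul_eq_mul, mul_smul, hy, smul_zero]
    exact key r.1 r.2 m)

theorem qmod_smul {S : Type} [CommRing S] {I : Set S} {M : Type} [AddCommGroup M] [Module S M] (h : Kil I M) (s : S) (m : M) :
    (letI := qmod h; (Ideal.Quotient.mk (Ideal.span I) s) • m) = s • m := rfl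

/-- a linear map of modules killed by `I` is linear over the quotient -/
def qmap {S : Type} [CommRing S] {I : Set S} {M N : Type} [AddCommGroup M] [Module S M] [AddCommGroup N] [Module S N]
    (hM : Kil I M) (hN : Kil I N) (l : M →ₗ[S] N) : letI := qmod hM; letI := qmod hN; M →ₗ[S ⧸ Ideal.span I] N :=
  letI := qmod hM
  letI := qmod hN
  { toFun := l
    map_add' := l.map_add
    map_smul' := fun r m => by
      obtain ⟨s, rfl⟩ := Ideal.Quotient.mk_surjective r
      exact l.map_smul s m }

/-- an additive function on the modules over the quotient gives one on the modules killed by `I` -/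
theorem descend {S : Type} [CommRing S] (I : Set S) (V : Type 1) [AddCommGroup V] (χ : AFun (S ⧸ Ideal.span I) ∅ V) :
    ∃ χ' : AFun S I V, ∀ (M : Type) [AddCommGroup M] [Module (S ⧸ Ideal.span I) M], Module.Finite (S ⧸ Ideal.span I) M →
      χ'.f (Res (Ideal.Quotient.mk (Ideal.span I)) M) = χ.f M := by
  classical
  refine ⟨⟨fun M _ _ => if h : Kil I M then @AFun.f _ _ _ _ _ χ M _ (qmod h) else 0, ?_⟩, ?_⟩
  · intro A B C _ _ _ _ _ _ i p hB hk hi hp he
    have hA : Kil I A := Kil.inj hi hk
    have hC : Kil I C := Kil.surj hp hk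
    rw [dif_pos hk, dif_pos hA, dif_pos hC]
    letI := qmod hA
    letI := qmod hk
    letI := qmod hC
    refine χ.add A B C (qmap hA hk i) (qmap hk hC p) ?_ (fun r hr => absurd hr (Set.notMem_empty r)) hi hp he
    obtain ⟨s, hs⟩ := hB.fg_top
    refine ⟨⟨s, ?_⟩⟩
    rw [eq_top_iff]
    intro x _
    have hx : x ∈ Submodule.span S (s : Set B) := hs ▸ Submodule.mem_top
    induction hx using Submodule.span_induction with
    | mem y hy => exact Submodule.subset_span hy
    | zero => exact Submodule.zero_mem _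
    | add y z _ _ hy hz => exact Submodule.add_mem _ (hy trivial) (hz trivial)
    | smul t y _ hy => exact Submodule.smul_mem _ (Ideal.Quotient.mk (Ideal.span I) t) (hy trivial)
  · intro M _ _ hM
    have hk : Kil I (Res (Ideal.Quotient.mk (Ideal.span I)) M) := by
      intro r hr m
      have h0 : Ideal.Quotient.mk (Ideal.span I) r = 0 := Ideal.Quotient.eq_zero_iff_mem.2 (Ideal.subset_span hr)
      show Ideal.Quotient.mk (Ideal.span I) r • m.val = 0
      rw [h0, zero_smul]
    show (if h : Kil I (Res (Ideal.Quotient.mk (Ideal.span I)) M) then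
      @AFun.f _ _ _ _ _ χ (Res (Ideal.Quotient.mk (Ideal.span I)) M) _ (qmod h) else 0) = χ.f M
    rw [dif_pos hk]
    letI := qmod hk
    refine (χ.iso (M := M) (N := Res (Ideal.Quotient.mk (Ideal.span I)) M) ?_ hM
      (fun r hr => absurd hr (Set.notMem_empty r))).symm
    exact
      { toFun := fun m => m
        map_add' := fun _ _ => rfl
        map_smul' := fun r m => by
          obtain ⟨s, rfl⟩ := Ideal.Quotient.mk_surjective r
          rfl
        invFun := fun m => m
        left_inv := fun _ => rfl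
        right_inv := fun _ => rfl }

/-- the theorem for modules over the quotient ring -/
theorem tFin (hT1 : S_T1) (n d : ℕ) (V : Type 1) [AddCommGroup V] [Module ℚ V]
    (χ : AFun (Po (Ix n) ⧸ Ideal.span (Set.range (sF n d))) ∅ V) (hd : 2 ≤ d) (hdn : d ≤ n + 3)
    (J : Ideal (Po (Ix n) ⧸ Ideal.span (Set.range (sF n d))))
    (hJ : J = (Ideal.span (Mn n)).map (Ideal.Quotient.mk (Ideal.span (Set.range (sF n d))))) :
    χ.f ((Po (Ix n) ⧸ Ideal.span (Set.range (sF n d))) ⧸ J) = 0 := by
  obtain ⟨χ', h'⟩ := descend (Set.range (sF n d)) V χ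
  rw [← h' _ inferInstance, ← hT1 n d V χ' hd hdn]
  subst hJ
  obtain ⟨e2, h1⟩ : ∃ e2 : (Po (Ix n) ⧸ (Ideal.span (Set.range (sF n d)) ⊔ Ideal.span (Mn n))) ≃+*
      ((Po (Ix n) ⧸ Ideal.span (Set.range (sF n d))) ⧸
        (Ideal.span (Mn n)).map (Ideal.Quotient.mk (Ideal.span (Set.range (sF n d))))),
      ∀ z : Po (Ix n), e2 (Ideal.Quotient.mk _ z) = Ideal.Quotient.mk _ (Ideal.Quotient.mk _ z) :=
    ⟨(DoubleQuot.quotQuotEquivQuotSup (Ideal.span (Set.range (sF n d))) (Ideal.span (Mn n))).symm,
      fun z => DoubleQuot.quotQuotEquivQuotSup_symm_quotQuotMk _ _ z⟩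
  refine (χ'.iso ?_ inferInstance ?_).symm
  · have hsup : Ideal.span (gA n d) = Ideal.span (Set.range (sF n d)) ⊔ Ideal.span (Mn n) := by
      rw [gA, Ideal.span_union, sup_comm]
    have e1 : (Po (Ix n) ⧸ Ideal.span (gA n d)) ≃ₗ[Po (Ix n)]
        Po (Ix n) ⧸ (Ideal.span (Set.range (sF n d)) ⊔ Ideal.span (Mn n)) :=
      Submodule.quotEquivOfEq _ _ hsup
    refine e1.trans
      { toFun := fun x => Res.mk _ (e2 x)
        map_add' := fun x y => by simp only [map_add]; rfl
        map_smul' := fun r x => ?_
        invFun := fun x => e2.symm x.val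
        left_inv := fun x => e2.symm_apply_apply x
        right_inv := fun x => e2.apply_symm_apply x.val }
    show e2 (r • x) = (Ideal.Quotient.mk (Ideal.span (Set.range (sF n d))) r) • e2 x
    obtain ⟨y, rfl⟩ := Ideal.Quotient.mk_surjective x
    have h2 : r • (Ideal.Quotient.mk (Ideal.span (Set.range (sF n d)) ⊔ Ideal.span (Mn n))) y =
      Ideal.Quotient.mk _ (r * y) := rfl
    rw [h2, h1, h1, map_mul]
    rfl
  · intro r hr m
    obtain ⟨y, rfl⟩ := Ideal.Quotient.mk_surjective m
    rw [← Ideal.Quotient.mk_eq_mk, ← Submodule.Quotient.mk_smul, Submodule.Quotient.mk_eq_zero, smul_eq_mul]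
    exact Ideal.mul_mem_right _ _ (Ideal.subset_span (Or.inr hr))

end Pool.Agent.FY
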