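import Pool.Agent.Lib.MP_b53bfe_ag.Spec
import Pool.Agent.Lib.MP_b53bfe_ag.Bas

/-!
# Fibre formula for `A[X]`
-/

set_option autoImplicit false

noncomputable section

namespace Pool.Agent.FY

open Polynomial

namespace Ha_aux

/-! ## Polynomial modules -/

section pm

variable {R : Type} [CommRing R] {N N' N'' : Type} [AddCommGroup N] [Module R N] [AddCommGroup N'] [Module R N']
  [AddCommGroup N''] [Module R N'']

/-- the map of the polynomial modules -/
def pm (l : N →ₗ[R] N') : PolynomialModule R N →ₗ[R[X]] PolynomialModule R N' where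
  toFun := PolynomialModule.map R l
  map_add' := map_add _
  map_smul' r x := by
    have h := PolynomialModule.map_smul R l r x
    rw [Algebra.algebraMap_self, Polynomial.map_id] at h
    exact h

theorem pm_coeff (l : N →ₗ[R] N') (x : PolynomialModule R N) (j : ℕ) : (pm l x).coeff j = l (x.coeff j) := rfl

theorem pm_inj {l : N →ₗ[R] N'} (h : Function.Injective l) : Function.Injective (pm l) := by
  intro x y hxy
  ext j
  have h1 := congrArg (fun z => z.coeff j) hxy
  exact h h1

open Classical in
theorem pm_lift (l : N →ₗ[R] N') (y : PolynomialModule R N') (h : ∀ j, ∃ u, l u = y.coeff j) :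
    ∃ x, pm l x = y := by
  let s : N' → N := fun z => if hz : z ≠ 0 ∧ ∃ u, l u = z then hz.2.choose else 0
  have s0 : s 0 = 0 := dif_neg (fun hz => hz.1 rfl)
  refine ⟨PolynomialModule.ofCoeff R (y.coeff.mapRange s s0), ?_⟩
  ext j
  rw [pm_coeff]
  show l (s (y.coeff j)) = y.coeff j
  by_cases h0 : y.coeff j = 0
  · rw [h0, s0, map_zero]
  · have h1 : y.coeff j ≠ 0 ∧ ∃ u, l u = y.coeff j := ⟨h0, h j⟩
    have h2 : s (y.coeff j) = h1.2.choose := dif_pos h1
    rw [h2]
    exact h1.2.choose_spec

theorem pm_surj {l : N →ₗ[R] N'} (h : Function.Surjective l) : Function.Surjective (pm l) := fun y =>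
  pm_lift l y fun _ => h _

theorem pm_exact {l : N →ₗ[R] N'} {q : N' →ₗ[R] N''} (h : Function.Exact l q) : Function.Exact (pm l) (pm q) := by
  intro y
  constructor
  · intro hy
    refine pm_lift l y fun j => (h _).1 ?_
    have h1 := congrArg (fun z => z.coeff j) hy
    exact h1
  · rintro ⟨x, rfl⟩
    ext j
    rw [pm_coeff, pm_coeff]
    exact h.apply_apply_eq_zero _

theorem C_smul_single (a : R) (j : ℕ) (m : N) :
    (C a : R[X]) • PolynomialModule.single R j m = PolynomialModule.single R j (a • m) := by
  rw [← monomial_zero_left, PolynomialModule.monomial_smul_single, zero_add]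

theorem C_smul_coeff (a : R) (x : PolynomialModule R N) (j : ℕ) : ((C a : R[X]) • x).coeff j = a • x.coeff j := by
  rw [← monomial_zero_left, PolynomialModule.monomial_smul_apply, if_pos (Nat.zero_le j), Nat.sub_zero]

theorem X_pow_smul_single (j : ℕ) (m : N) :
    (X ^ j : R[X]) • PolynomialModule.single R 0 m = PolynomialModule.single R j m := by
  rw [X_pow_eq_monomial, PolynomialModule.monomial_smul_single, add_zero, one_smul]

theorem X_smul_coeff_succ (x : PolynomialModule R N) (j : ℕ) : ((X : R[X]) • x).coeff (j + 1) = x.coeff j := by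
  rw [← monomial_one_one_eq_X, PolynomialModule.monomial_smul_apply, if_pos (Nat.le_add_left 1 j), one_smul,
    Nat.add_sub_cancel]

theorem X_smul_coeff_zero (x : PolynomialModule R N) : ((X : R[X]) • x).coeff 0 = 0 := by
  rw [← monomial_one_one_eq_X, PolynomialModule.monomial_smul_apply, if_neg (by omega)]

theorem pm_kil {J : Set R} (h : Kil J N) : Kil ((C : R → R[X]) '' J) (PolynomialModule R N) := by
  rintro _ ⟨a, ha, rfl⟩ x
  ext j
  rw [C_smul_coeff, h a ha]
  rfl

theorem pm_fin (h : Module.Finite R N) : Module.Finite R[X] (PolynomialModule R N) := by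
  obtain ⟨s, hs⟩ := h.fg_top
  refine ⟨Submodule.fg_def.2 ⟨(fun n => PolynomialModule.single R 0 n) '' (s : Set N), s.finite_toSet.image _, ?_⟩⟩
  rw [eq_top_iff]
  rintro x -
  have key : ∀ n : N, n ∈ Submodule.span R (s : Set N) → PolynomialModule.single R 0 n ∈
      Submodule.span R[X] ((fun n => PolynomialModule.single R 0 n) '' (s : Set N)) := by
    intro n hn
    induction hn using Submodule.span_induction with
    | mem y hy => exact Submodule.subset_span ⟨y, hy, rfl⟩
    | zero =>
      rw [PolynomialModule.single_zero]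
      exact Submodule.zero_mem _
    | add y z _ _ hy hz =>
      rw [PolynomialModule.single_add]
      exact Submodule.add_mem _ hy hz
    | smul a y _ hy =>
      rw [← C_smul_single]
      exact Submodule.smul_mem _ _ hy
  induction x using PolynomialModule.induction_linear with
  | zero => exact Submodule.zero_mem _
  | add x y hx hy => exact Submodule.add_mem _ hx hy
  | single j m =>
    rw [← X_pow_smul_single]
    exact Submodule.smul_mem _ _ (key m (hs ▸ Submodule.mem_top))

end pm

/-! ## The functor `N ↦ N[X]` -/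

section TT

variable {A : Type} [CommRing A]

variable (A) in
/-- `N[X]` for a module `N` over `A[X]`: `A` acts on the coefficients, `X` is the shift -/
abbrev TT (N : Type) [AddCommGroup N] [Module A[X] N] : Type :=
  Res (mapRingHom (C : A →+* A[X])) (PolynomialModule A[X] N)

variable {J : Set A} {N : Type} [AddCommGroup N] [Module A[X] N]

theorem TT_kil (h : Kil ((C : A → A[X]) '' J) N) : Kil ((C : A → A[X]) '' J) (TT A N) := by
  rintro _ ⟨a, ha, rfl⟩ x
  have h1 : mapRingHom (C : A →+* A[X]) (C a) = C (C a) := by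
    rw [coe_mapRingHom, map_C]
  show Res.mk (mapRingHom (C : A →+* A[X])) (mapRingHom (C : A →+* A[X]) (C a) • x.val) = 0
  rw [h1]
  exact pm_kil (R := A[X]) h (C (C a)) ⟨C a, ⟨a, ha, rfl⟩, rfl⟩ x.val

theorem act (h : ∀ n : N, (X : A[X]) • n = 0) (r : A[X]) (n : N) : r • n = (C (r.coeff 0) : A[X]) • n := by
  have h1 : r = X * r.divX + C (r.coeff 0) := (X_mul_divX_add r).symm
  conv_lhs => rw [h1, add_smul, mul_smul, h, zero_add]

theorem TT_fin (hf : Module.Finite A[X] N) (h : ∀ n : N, (X : A[X]) • n = 0) : Module.Finite A[X] (TT A N) := by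
  obtain ⟨s, hs⟩ := hf.fg_top
  refine ⟨Submodule.fg_def.2 ⟨(fun n => Res.mk (mapRingHom (C : A →+* A[X])) (PolynomialModule.single A[X] 0 n)) ''
    (s : Set N), s.finite_toSet.image _, ?_⟩⟩
  rw [eq_top_iff]
  rintro x -
  have key : ∀ n : N, n ∈ Submodule.span A[X] (s : Set N) →
      Res.mk (mapRingHom (C : A →+* A[X])) (PolynomialModule.single A[X] 0 n) ∈
      Submodule.span A[X] ((fun n => Res.mk (mapRingHom (C : A →+* A[X])) (PolynomialModule.single A[X] 0 n)) ''
        (s : Set N)) := by
    intro n hn
    induction hn using Submodule.span_induction with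
    | mem y hy => exact Submodule.subset_span ⟨y, hy, rfl⟩
    | zero =>
      rw [PolynomialModule.single_zero]
      exact Submodule.zero_mem _
    | add y z _ _ hy hz =>
      rw [PolynomialModule.single_add]
      exact Submodule.add_mem _ hy hz
    | smul r y _ hy =>
      have h1 : mapRingHom (C : A →+* A[X]) (C (r.coeff 0)) = C (C (r.coeff 0)) := by
        rw [coe_mapRingHom, map_C]
      have h2 : Res.mk (mapRingHom (C : A →+* A[X])) (PolynomialModule.single A[X] 0 (r • y)) =
          (C (r.coeff 0) : A[X]) • Res.mk (mapRingHom (C : A →+* A[X])) (PolynomialModule.single A[X] 0 y) := by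
        rw [Res.smul_mk, h1, C_smul_single, act h r y]
      rw [h2]
      exact Submodule.smul_mem _ _ hy
  have key2 : ∀ y : PolynomialModule A[X] N, Res.mk (mapRingHom (C : A →+* A[X])) y ∈
      Submodule.span A[X] ((fun n => Res.mk (mapRingHom (C : A →+* A[X])) (PolynomialModule.single A[X] 0 n)) ''
        (s : Set N)) := by
    intro y
    induction y using PolynomialModule.induction_linear with
    | zero => exact Submodule.zero_mem _
    | add x y hx hy => exact Submodule.add_mem _ hx hy
    | single j m =>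
      have h1 : mapRingHom (C : A →+* A[X]) (X ^ j) = X ^ j := by
        rw [coe_mapRingHom, Polynomial.map_pow, map_X]
      have h2 : Res.mk (mapRingHom (C : A →+* A[X])) (PolynomialModule.single A[X] j m) =
          (X ^ j : A[X]) • Res.mk (mapRingHom (C : A →+* A[X])) (PolynomialModule.single A[X] 0 m) := by
        rw [Res.smul_mk, h1, X_pow_smul_single]
      rw [h2]
      exact Submodule.smul_mem _ _ (key m (hs ▸ Submodule.mem_top))
  exact key2 x.val

/-- the additive function `N ↦ ψ (N[X])` -/
def chi {V : Type 1} [AddCommGroup V] (ψ : AFun A[X] ((C : A → A[X]) '' J) V) :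
    AFun A[X] (insert X ((C : A → A[X]) '' J)) V where
  f N _ _ := ψ.f (TT A N)
  add L M N _ _ _ _ _ _ i p hB hk hi hp he := by
    obtain ⟨h1, h2⟩ := Kil.insert.1 hk
    exact ψ.add (TT A L) (TT A M) (TT A N) (Res.map _ (pm i)) (Res.map _ (pm p)) (TT_fin hB h1) (TT_kil h2)
      (Res.map_inj (pm_inj hi)) (Res.map_surj (pm_surj hp)) (Res.map_exact (pm_exact he))

theorem kil_ker (h : Kil ((C : A → A[X]) '' J) N) :
    Kil (insert X ((C : A → A[X]) '' J)) (LinearMap.ker (mg N (X : A[X]))) := by
  refine Kil.insert.2 ⟨fun m => ?_, Kil.sub h _⟩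
  apply Subtype.ext
  exact m.2

theorem kil_cok (h : Kil ((C : A → A[X]) '' J) N) :
    Kil (insert X ((C : A → A[X]) '' J)) (N ⧸ LinearMap.range (mg N (X : A[X]))) := by
  refine Kil.insert.2 ⟨fun m => ?_, Kil.quot h _⟩
  obtain ⟨y, rfl⟩ := Submodule.Quotient.mk_surjective _ m
  rw [← Submodule.Quotient.mk_smul, Submodule.Quotient.mk_eq_zero]
  exact ⟨y, rfl⟩

/-! ## The case of a polynomial module -/

variable {P : Type} [AddCommGroup P] [Module A P]

variable (A P) in
/-- the fibre -/
abbrev Fb : Type := PolynomialModule A P ⧸ LinearMap.range (mg (PolynomialModule A P) (X : A[X]))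

variable (A P) in
/-- the constants -/
def cst : P →+ Fb A P where
  toFun p := Submodule.Quotient.mk (PolynomialModule.single A 0 p)
  map_zero' := by rw [PolynomialModule.single_zero]; rfl
  map_add' p q := by rw [PolynomialModule.single_add]; rfl

theorem cst_smul (a : A) (p : P) : cst A P (a • p) = (C a : A[X]) • cst A P p := by
  show Submodule.Quotient.mk (PolynomialModule.single A 0 (a • p)) =
    (C a : A[X]) • (Submodule.Quotient.mk (PolynomialModule.single A 0 p) : Fb A P)
  rw [← C_smul_single]
  rfl

theorem cst_inj : Function.Injective (cst A P) := by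
  rw [injective_iff_map_eq_zero]
  intro p hp
  have h1 : (Submodule.Quotient.mk (PolynomialModule.single A 0 p) : Fb A P) = 0 := hp
  rw [Submodule.Quotient.mk_eq_zero] at h1
  obtain ⟨y, hy⟩ := h1
  have h2 := congrArg (fun z => z.coeff 0) hy
  have h3 : (mg (PolynomialModule A P) (X : A[X]) y).coeff 0 = 0 := X_smul_coeff_zero y
  have h4 : (PolynomialModule.single A 0 p).coeff 0 = p := by
    rw [PolynomialModule.coeff_single, Finsupp.single_eq_same]
  exact (h4.symm.trans h2.symm).trans h3

theorem cst_surj : Function.Surjective (cst A P) := by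
  intro y
  obtain ⟨x, rfl⟩ := Submodule.Quotient.mk_surjective _ y
  induction x using PolynomialModule.induction_linear with
  | zero => exact ⟨0, map_zero _⟩
  | add x y hx hy =>
    obtain ⟨p, hp⟩ := hx
    obtain ⟨q, hq⟩ := hy
    exact ⟨p + q, by rw [map_add, hp, hq]; rfl⟩
  | single j m =>
    cases j with
    | zero => exact ⟨m, rfl⟩
    | succ j =>
      refine ⟨0, ?_⟩
      rw [map_zero]
      symm
      rw [Submodule.Quotient.mk_eq_zero]
      refine ⟨PolynomialModule.single A j m, ?_⟩
      show (X : A[X]) • PolynomialModule.single A j m = _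
      rw [← monomial_one_one_eq_X, PolynomialModule.monomial_smul_single, one_smul, add_comm]

variable (A P) in
/-- the comparison map -/
def cmpF : PolynomialModule A P →ₗ[A[X]] TT A (Fb A P) where
  toFun x := Res.mk _ (PolynomialModule.ofCoeff A[X] (x.coeff.mapRange (cst A P) (map_zero _)))
  map_add' x y := by
    rw [PolynomialModule.coeff_add, Finsupp.mapRange_add (fun a b => map_add _ a b)]
    rfl
  map_smul' r x := by
    rw [RingHom.id_apply, Res.smul_mk]
    congr 1
    induction r using Polynomial.induction_on' with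
    | add p q hp hq =>
      rw [add_smul, PolynomialModule.coeff_add, Finsupp.mapRange_add (fun a b => map_add _ a b), map_add, add_smul,
        ← hp, ← hq]
      rfl
    | monomial i a =>
      ext j
      rw [coe_mapRingHom, map_monomial, PolynomialModule.monomial_smul_apply]
      show cst A P ((monomial i a • x).coeff j) = if i ≤ j then (C a : A[X]) • cst A P (x.coeff (j - i)) else 0
      rw [PolynomialModule.monomial_smul_apply]
      split_ifs
      · exact cst_smul _ _
      · exact map_zero _

theorem cmpF_bij : Function.Bijective (cmpF A P) := by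
  constructor
  · intro x y hxy
    ext j
    have h1 : PolynomialModule.ofCoeff A[X] (x.coeff.mapRange (cst A P) (map_zero _)) =
      PolynomialModule.ofCoeff A[X] (y.coeff.mapRange (cst A P) (map_zero _)) := hxy
    have h2 := congrArg (fun z => z.coeff j) h1
    exact cst_inj h2
  · intro y
    classical
    obtain ⟨s, hs⟩ := cst_surj (A := A) (P := P).hasRightInverse
    let s' : Fb A P → P := fun z => s z - s 0
    have s0 : s' 0 = 0 := sub_self _
    have s1 : ∀ z, cst A P (s' z) = z := fun z => by
      show cst A P (s z - s 0) = z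
      rw [map_sub, hs, hs, sub_zero]
    refine ⟨PolynomialModule.ofCoeff A (y.val.coeff.mapRange s' s0), ?_⟩
    have h1 : PolynomialModule.ofCoeff A[X] ((y.val.coeff.mapRange s' s0).mapRange (cst A P) (map_zero _)) =
        y.val := by
      ext j
      exact s1 _
    exact h1

end TT

end Ha_aux

open Ha_aux

theorem tHa : S_Sn → S_Hr → S_Ha := by
  intro hSn hHr A _ _ J V _ ψ M _ _ hM hk
  have hadd : ∀ (M₁ M₂ M₃ : Type) [AddCommGroup M₁] [Module A[X] M₁] [AddCommGroup M₂] [Module A[X] M₂]
      [AddCommGroup M₃] [Module A[X] M₃] (i : M₁ →ₗ[A[X]] M₂) (p : M₂ →ₗ[A[X]] M₃), Module.Finite A[X] M₂ →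
      Kil ((C : A → A[X]) '' J) M₂ → Function.Injective i → Function.Surjective p → Function.Exact i p →
      ind (chi ψ) (mg M₂ (X : A[X])) = ind (chi ψ) (mg M₁ (X : A[X])) + ind (chi ψ) (mg M₃ (X : A[X])) := by
    intro M₁ M₂ M₃ _ _ _ _ _ _ i p hf h2 hi hp he
    have h1 : Kil ((C : A → A[X]) '' J) M₁ := Kil.inj hi h2
    have h3 : Kil ((C : A → A[X]) '' J) M₃ := Kil.surj hp h2
    exact hSn A[X] _ V (chi ψ) M₁ M₂ M₃ M₁ M₂ M₃ i p i p (mg M₁ X) (mg M₂ X) (mg M₃ X) hf hf hi hp he hi hp he
      (fun x => map_smul i _ _) (fun x => map_smul p _ _) (kil_ker h1) (kil_cok h1) (kil_ker h2) (kil_cok h2)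
      (kil_ker h3) (kil_cok h3)
  have hpol : ∀ (P : Type) [AddCommGroup P] [Module A P], Module.Finite A P → Kil J P →
      ψ.f (PolynomialModule A P) = ind (chi ψ) (mg (PolynomialModule A P) (X : A[X])) := by
    intro P _ _ hf hJ
    have hker : (chi ψ).f (LinearMap.ker (mg (PolynomialModule A P) (X : A[X]))) = 0 := by
      refine AFun.subsing _ ⟨fun x y => ?_⟩
      have h0 : ∀ z : LinearMap.ker (mg (PolynomialModule A P) (X : A[X])), z.1 = 0 := by
        intro z
        have hz : (X : A[X]) • z.1 = 0 := z.2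
        ext j
        have h1 := X_smul_coeff_succ z.1 j
        rw [hz] at h1
        exact h1.symm
      exact Subtype.ext ((h0 x).trans (h0 y).symm)
    unfold ind
    rw [hker, sub_zero]
    exact ψ.iso (LinearEquiv.ofBijective (cmpF A P) cmpF_bij) (pm_fin hf) (pm_kil hJ)
  obtain ⟨P₁, P₂, _, _, _, _, i, p, f1, f2, hJ, hi, hp, he⟩ := hHr A M hM
  have k1 : Kil J P₁ := fun a ha x => (hJ a (hk (C a) ⟨a, ha, rfl⟩)).1 x
  have k2 : Kil J P₂ := fun a ha x => (hJ a (hk (C a) ⟨a, ha, rfl⟩)).2 x
  have e1 := ψ.add _ _ _ i p (pm_fin f2) (pm_kil k2) hi hp he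
  have e2 := hadd _ _ _ i p (pm_fin f2) (pm_kil k2) hi hp he
  rw [← hpol P₁ f1 k1, ← hpol P₂ f2 k2, e1] at e2
  exact add_left_cancel e2

end Pool.Agent.FY
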