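import Pool.Agent.Lib.MP_b53bfe_ag.Spec
import Pool.Agent.Lib.MP_b53bfe_ag.Bas

/-!
# Fibre formula for the variable `X_i`
-/

set_option autoImplicit false

noncomputable section

namespace Pool.Agent.FY

open Polynomial

namespace Hb_aux

/-! ## The ring isomorphism -/

section Ring

variable {σ : Type} [DecidableEq σ] (i : σ)

/-- the other variables -/
abbrev Ot : Type := {j : σ // j ≠ i}

/-- `X_i ↦ X`, `X_j ↦ C X_j` -/
def ee : Po σ ≃+* (Po (Ot i))[X] :=
  ((MvPolynomial.renameEquiv ℂ (Equiv.optionSubtypeNe i).symm).trans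
    (MvPolynomial.optionEquivLeft ℂ (Ot i))).toRingEquiv

theorem ee_apply (r : Po σ) : ee i r = MvPolynomial.optionEquivLeft ℂ (Ot i)
    (MvPolynomial.rename (Equiv.optionSubtypeNe i).symm r) := rfl

theorem ee_C (c : ℂ) : ee i (MvPolynomial.C c) = C (MvPolynomial.C c) := by
  rw [ee_apply, MvPolynomial.rename_C, MvPolynomial.optionEquivLeft_C]

theorem ee_self : ee i (MvPolynomial.X i) = X := by
  rw [ee_apply, MvPolynomial.rename_X, Equiv.optionSubtypeNe_symm_self,
    MvPolynomial.optionEquivLeft_X_none]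

theorem ee_ne {j : σ} (h : j ≠ i) : ee i (MvPolynomial.X j) = C (MvPolynomial.X ⟨j, h⟩) := by
  rw [ee_apply, MvPolynomial.rename_X, Equiv.optionSubtypeNe_symm_of_ne h,
    MvPolynomial.optionEquivLeft_X_some]

theorem nu_eq (r : Po σ) : nu i r =
    mapRingHom ((ee i).symm : (Po (Ot i))[X] →+* Po σ)
      (mapRingHom (C : Po (Ot i) →+* (Po (Ot i))[X]) (ee i r)) := by
  have h : nu i = ((mapRingHom ((ee i).symm : (Po (Ot i))[X] →+* Po σ)).comp
      (mapRingHom (C : Po (Ot i) →+* (Po (Ot i))[X]))).comp (ee i : Po σ →+* (Po (Ot i))[X]) := by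
    refine MvPolynomial.ringHom_ext (fun c => ?_) (fun j => ?_)
    · have h1 : (ee i).symm (C (MvPolynomial.C c)) = MvPolynomial.C c := by
        rw [← ee_C, RingEquiv.symm_apply_apply]
      simp [nu, ee_C, h1]
    · by_cases hj : j = i
      · subst hj
        simp [nu, ee_self]
      · have h1 : (ee i).symm (C (MvPolynomial.X ⟨j, hj⟩)) = MvPolynomial.X j := by
          rw [← ee_ne, RingEquiv.symm_apply_apply]
        simp [nu, ee_ne i hj, hj, h1]
  exact congrArg (fun f : Po σ →+* (Po σ)[X] => f r) h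

theorem const_of_NI {r : Po σ} (h : NI i r) : ∃ a : Po (Ot i), ee i r = C a := by
  unfold NI at h
  rw [nu_eq] at h
  have h1 : mapRingHom (C : Po (Ot i) →+* (Po (Ot i))[X]) (ee i r) = C (ee i r) := by
    have hinj : Function.Injective (mapRingHom ((ee i).symm : (Po (Ot i))[X] →+* Po σ)) :=
      Polynomial.map_injective _ (ee i).symm.injective
    refine hinj ?_
    rw [h]
    simp
  have h2 := congrArg (fun q : (Po (Ot i))[X][X] => q.coeff 0) h1
  simp only [coe_mapRingHom, coeff_map, coeff_C_zero] at h2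
  exact ⟨_, h2.symm⟩

end Ring

/-! ## Polynomial modules -/

section PM

variable {A B : Type} [CommRing A] [CommRing B] {N' N : Type} [AddCommGroup N'] [Module A N']
  [AddCommGroup N] [Module B N]

/-- coefficientwise -/
def cw (θ : N' ≃+ N) : PolynomialModule A N' ≃+ PolynomialModule B N :=
  (PolynomialModule.coeffAddEquiv (R := A) (M := N')).trans
    ((Finsupp.mapRange.addEquiv θ).trans (PolynomialModule.coeffAddEquiv (R := B) (M := N)).symm)

theorem cw_coeff (θ : N' ≃+ N) (u : PolynomialModule A N') (n : ℕ) :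
    (cw (B := B) θ u).coeff n = θ (u.coeff n) := rfl

theorem cw_smul (θ : N' ≃+ N) (φ : A →+* B) (hθ : ∀ (a : A) (x : N'), θ (a • x) = φ a • θ x)
    (P : A[X]) (u : PolynomialModule A N') : cw (B := B) θ (P • u) = (P.map φ) • cw θ u := by
  apply PolynomialModule.ext
  ext n
  rw [cw_coeff, PolynomialModule.smul_apply, PolynomialModule.smul_apply, map_sum]
  refine Finset.sum_congr rfl fun x _ => ?_
  rw [hθ, coeff_map, cw_coeff]

end PM

/-! ## Finiteness -/

section Fin

variable {A : Type} [CommRing A] {N : Type} [AddCommGroup N] [Module A[X] N]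

/-- `N[X]` -/
abbrev NX (A N : Type) [CommRing A] [AddCommGroup N] [Module A[X] N] : Type :=
  Res (mapRingHom (C : A →+* A[X])) (PolynomialModule A[X] N)

theorem NX_fin (hN : Module.Finite A[X] N) (hX : ∀ n : N, (X : A[X]) • n = 0) :
    Module.Finite A[X] (NX A N) := by
  obtain ⟨s, hs⟩ := hN.fg_top
  let S : Submodule A[X] (NX A N) := Submodule.span A[X]
    ((fun y : N => Res.mk (mapRingHom (C : A →+* A[X])) (PolynomialModule.single A[X] 0 y)) ''
      (s : Set N))
  have h0 : ∀ x : N, x ∈ Submodule.span A[X] (s : Set N) →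
      Res.mk (mapRingHom (C : A →+* A[X])) (PolynomialModule.single A[X] 0 x) ∈ S := by
    intro x hx
    induction hx using Submodule.span_induction with
    | mem y hy => exact Submodule.subset_span ⟨y, hy, rfl⟩
    | zero =>
      rw [PolynomialModule.single_zero]
      exact S.zero_mem
    | add y z _ _ hy hz =>
      rw [PolynomialModule.single_add]
      exact S.add_mem hy hz
    | smul t y _ hy =>
      have h1 : t • y = (C (t.coeff 0) : A[X]) • y := by
        conv_lhs => rw [← Polynomial.X_mul_divX_add t]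
        rw [add_smul, mul_comm, mul_smul, hX, smul_zero, zero_add]
      have h2 : Res.mk (mapRingHom (C : A →+* A[X])) (PolynomialModule.single A[X] 0 (t • y)) =
          (C (t.coeff 0) : A[X]) •
            Res.mk (mapRingHom (C : A →+* A[X])) (PolynomialModule.single A[X] 0 y) := by
        rw [Res.smul_mk, h1]
        congr 1
        rw [coe_mapRingHom, map_C, ← monomial_zero_left (a := (C (t.coeff 0) : A[X])),
          PolynomialModule.monomial_smul_single]
      rw [h2]
      exact S.smul_mem _ hy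
  have h3 : ∀ (k : ℕ) (x : N),
      Res.mk (mapRingHom (C : A →+* A[X])) (PolynomialModule.single A[X] k x) ∈ S := by
    intro k x
    have h4 : Res.mk (mapRingHom (C : A →+* A[X])) (PolynomialModule.single A[X] k x) =
        (X ^ k : A[X]) •
          Res.mk (mapRingHom (C : A →+* A[X])) (PolynomialModule.single A[X] 0 x) := by
      rw [Res.smul_mk]
      congr 1
      rw [map_pow, coe_mapRingHom, map_X, X_pow_eq_monomial, PolynomialModule.monomial_smul_single,
        one_smul, add_zero]
    rw [h4]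
    exact S.smul_mem _ (h0 x (hs ▸ Submodule.mem_top))
  have h5 : ∀ u : PolynomialModule A[X] N, Res.mk (mapRingHom (C : A →+* A[X])) u ∈ S := by
    intro u
    induction u using PolynomialModule.induction_linear with
    | zero => exact S.zero_mem
    | add x y hx hy => exact S.add_mem hx hy
    | single k x => exact h3 k x
  have h6 : S = ⊤ := eq_top_iff.2 fun x _ => h5 x.val
  have h7 : (⊤ : Submodule A[X] (NX A N)).FG := by
    rw [← h6]
    exact Submodule.fg_def.2 ⟨_, s.finite_toSet.image _, rfl⟩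
  exact ⟨h7⟩

theorem NX_kil {J : Set A} (hN : Kil ((C : A → A[X]) '' J) N) :
    Kil ((C : A → A[X]) '' J) (NX A N) := by
  rintro _ ⟨a, ha, rfl⟩ u
  have h1 : mapRingHom (C : A →+* A[X]) (C a) = monomial 0 (C a) := by
    rw [coe_mapRingHom, map_C, monomial_zero_left]
  have h2 : (mapRingHom (C : A →+* A[X]) (C a)) • u.val = 0 := by
    apply PolynomialModule.ext
    ext n
    rw [h1, PolynomialModule.monomial_smul_apply, if_pos (Nat.zero_le _),
      hN _ ⟨a, ha, rfl⟩]
    rfl
  exact h2

end Fin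

/-! ## The comparison -/

section Cmp

variable {σ : Type} [DecidableEq σ] (i : σ) {N' N : Type} [AddCommGroup N'] [Module (Po (Ot i))[X] N']
  [AddCommGroup N] [Module (Po σ) N]

/-- `Ex i N` and `N[X]` -/
def exEquiv (θ : N' ≃+ N) (hθ : ∀ (a : (Po (Ot i))[X]) (x : N'), θ (a • x) = (ee i).symm a • θ x) :
    Res (ee i : Po σ →+* (Po (Ot i))[X]) (NX (Po (Ot i)) N') ≃ₗ[Po σ] Ex i N where
  toFun u := Res.mk (nu i) (cw θ (Res.val (Res.val u)))
  invFun u := Res.mk _ (Res.mk _ ((cw θ).symm (Res.val u)))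
  left_inv u := (cw (A := (Po (Ot i))[X]) (B := Po σ) θ).symm_apply_apply u
  right_inv u := (cw (A := (Po (Ot i))[X]) (B := Po σ) θ).apply_symm_apply u
  map_add' u v := (cw (A := (Po (Ot i))[X]) (B := Po σ) θ).map_add u v
  map_smul' r u := by
    have h := cw_smul (B := Po σ) θ ((ee i).symm : (Po (Ot i))[X] →+* Po σ) hθ
      (mapRingHom (C : Po (Ot i) →+* (Po (Ot i))[X]) (ee i r)) (Res.val (Res.val u))
    have h2 := nu_eq i r
    rw [coe_mapRingHom] at h2
    rw [← h2] at h
    exact h

end Cmp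

end Hb_aux

open Hb_aux in
theorem tHb : S_Ha → S_Hb := by
  intro hHa σ _ _ i I V _ ψ M _ _ hI hM hk
  -- the data over `A[X]`
  let A : Type := Po (Ot i)
  let e : Po σ ≃+* A[X] := ee i
  let e₁ : Po σ →+* A[X] := (ee i : Po σ →+* (Po (Ot i))[X])
  let e₂ : A[X] →+* Po σ := ((ee i).symm : (Po (Ot i))[X] →+* Po σ)
  let J : Set A := {a | ∃ r ∈ I, e r = C a}
  have hI1 : ∀ r ∈ I, e₁ r ∈ Ideal.span ((C : A → A[X]) '' J) := by
    intro r hr
    obtain ⟨a, ha⟩ := const_of_NI i (hI r hr)
    refine Ideal.subset_span ⟨a, ⟨r, hr, ha⟩, ?_⟩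
    exact ha.symm
  let ψ' : AFun A[X] ((C : A → A[X]) '' J) V := ψ.res e₁ (ee i).surjective _ hI1
  let M' : Type := Res e₂ M
  have hM' : Module.Finite A[X] (Res e₂ M) := Res.finite (ee i).symm.surjective hM
  have hk' : Kil ((C : A → A[X]) '' J) (Res e₂ M) := by
    rintro _ ⟨a, ⟨r, hr, ha⟩, rfl⟩ m
    have h1 : e₂ (C a) = r := by
      rw [← ha]
      exact (ee i).symm_apply_apply r
    have h2 : e₂ (C a) • m.val = 0 := by
      rw [h1]
      exact hk r hr m.val
    exact h2
  have hXi : e₂ X = MvPolynomial.X i := by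
    have : (ee i).symm X = MvPolynomial.X i := by
      rw [← ee_self, RingEquiv.symm_apply_apply]
    exact this
  have main := hHa A J V ψ' (Res e₂ M) hM' hk'
  -- the module itself
  have hA : ψ'.f (Res e₂ M) = ψ.f M := by
    let l : M ≃ₗ[Po σ] Res e₁ (Res e₂ M) :=
      { toFun := fun m => Res.mk e₁ (Res.mk e₂ m)
        invFun := fun m => Res.val (Res.val m)
        left_inv := fun _ => rfl
        right_inv := fun _ => rfl
        map_add' := fun _ _ => rfl
        map_smul' := fun r m => by
          have h : e₂ (e₁ r) = r := (ee i).symm_apply_apply r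
          have h2 : r • m = e₂ (e₁ r) • m := by rw [h]
          exact h2 }
    exact (ψ.iso l hM hk).symm
  -- the quotient
  have hB : ψ'.f (NX A (Res e₂ M ⧸ LinearMap.range (mg (Res e₂ M) (X : A[X])))) =
      ψ.f (Ex i (M ⧸ LinearMap.range (mg M (MvPolynomial.X i : Po σ)))) := by
    let Q : Type := M ⧸ LinearMap.range (mg M (MvPolynomial.X i : Po σ))
    let π : Res e₂ M →ₗ[A[X]] Res e₂ (M ⧸ LinearMap.range (mg M (MvPolynomial.X i : Po σ))) :=
      Res.map e₂ (LinearMap.range (mg M (MvPolynomial.X i : Po σ))).mkQ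
    have hπ : Function.Surjective π := Res.map_surj (Submodule.mkQ_surjective _)
    have hker : LinearMap.range (mg (Res e₂ M) (X : A[X])) = LinearMap.ker π := by
      ext m
      have h1 : m ∈ LinearMap.ker π ↔
          m.val ∈ LinearMap.range (mg M (MvPolynomial.X i : Po σ)) := by
        have h2 : m ∈ LinearMap.ker π ↔
            (LinearMap.range (mg M (MvPolynomial.X i : Po σ))).mkQ m.val = 0 := Iff.rfl
        rw [h2, Submodule.mkQ_apply, Submodule.Quotient.mk_eq_zero]
      rw [h1]
      constructor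
      · rintro ⟨y, hy⟩
        refine ⟨y.val, ?_⟩
        have h3 : e₂ X • y.val = m.val := hy
        rw [hXi] at h3
        exact h3
      · rintro ⟨y, hy⟩
        refine ⟨Res.mk e₂ y, ?_⟩
        have h3 : (MvPolynomial.X i : Po σ) • y = m.val := hy
        rw [← hXi] at h3
        exact h3
    let l : (Res e₂ M ⧸ LinearMap.range (mg (Res e₂ M) (X : A[X]))) ≃ₗ[A[X]]
        Res e₂ (M ⧸ LinearMap.range (mg M (MvPolynomial.X i : Po σ))) :=
      (Submodule.quotEquivOfEq _ _ hker).trans (LinearMap.quotKerEquivOfSurjective π hπ)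
    let θ : (Res e₂ M ⧸ LinearMap.range (mg (Res e₂ M) (X : A[X]))) ≃+
        (M ⧸ LinearMap.range (mg M (MvPolynomial.X i : Po σ))) := l.toAddEquiv
    have hθ : ∀ (a : A[X]) (x : Res e₂ M ⧸ LinearMap.range (mg (Res e₂ M) (X : A[X]))),
        θ (a • x) = (ee i).symm a • θ x := fun a x => l.map_smul a x
    have hX : ∀ n : Res e₂ M ⧸ LinearMap.range (mg (Res e₂ M) (X : A[X])),
        (X : A[X]) • n = 0 := by
      intro n
      obtain ⟨m, rfl⟩ := Submodule.Quotient.mk_surjective _ n
      rw [← Submodule.Quotient.mk_smul, Submodule.Quotient.mk_eq_zero]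
      exact ⟨m, rfl⟩
    exact ψ.iso (exEquiv i θ hθ) (Res.finite (ee i).surjective (NX_fin inferInstance hX))
      (Kil.res hI1 (NX_kil (Kil.quot hk' _)))
  -- the kernel
  have hC : ψ'.f (NX A (LinearMap.ker (mg (Res e₂ M) (X : A[X])))) =
      ψ.f (Ex i (LinearMap.ker (mg M (MvPolynomial.X i : Po σ)))) := by
    have hto : ∀ m : Res e₂ M, m ∈ LinearMap.ker (mg (Res e₂ M) (X : A[X])) →
        m.val ∈ LinearMap.ker (mg M (MvPolynomial.X i : Po σ)) := by
      intro m hm
      have h3 : e₂ X • m.val = 0 := hm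
      rw [hXi] at h3
      exact h3
    have hfrom : ∀ m : M, m ∈ LinearMap.ker (mg M (MvPolynomial.X i : Po σ)) →
        Res.mk e₂ m ∈ LinearMap.ker (mg (Res e₂ M) (X : A[X])) := by
      intro m hm
      have h3 : (MvPolynomial.X i : Po σ) • m = 0 := hm
      rw [← hXi] at h3
      exact h3
    let θ : LinearMap.ker (mg (Res e₂ M) (X : A[X])) ≃+
        LinearMap.ker (mg M (MvPolynomial.X i : Po σ)) :=
      { toFun := fun x => ⟨x.1.val, hto _ x.2⟩
        invFun := fun x => ⟨Res.mk e₂ x.1, hfrom _ x.2⟩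
        left_inv := fun _ => rfl
        right_inv := fun _ => rfl
        map_add' := fun _ _ => rfl }
    have hθ : ∀ (a : A[X]) (x : LinearMap.ker (mg (Res e₂ M) (X : A[X]))),
        θ (a • x) = (ee i).symm a • θ x := fun _ _ => rfl
    have hX : ∀ n : LinearMap.ker (mg (Res e₂ M) (X : A[X])), (X : A[X]) • n = 0 := by
      intro n
      exact Subtype.ext n.2
    have : IsNoetherianRing A[X] := inferInstance
    have : IsNoetherian A[X] (Res e₂ M) := isNoetherian_of_isNoetherianRing_of_finite _ _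
    exact ψ.iso (exEquiv i θ hθ) (Res.finite (ee i).surjective (NX_fin inferInstance hX))
      (Kil.res hI1 (NX_kil (Kil.sub hk' _)))
  rw [hA] at main
  rw [main]
  exact congrArg₂ (fun a b : V => a - b) hB hC

end Pool.Agent.FY
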