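import Pool.Agent.Lib.MP_b53bfe_ag.Spec
import Pool.Agent.Lib.MP_b53bfe_ag.Bas

/-!
# Hg: invariance under `X_i ↦ z X_i`
-/

set_option autoImplicit false

noncomputable section

namespace Pool.Agent.FY

open Polynomial

namespace Hg_aux

section

variable {σ : Type} [DecidableEq σ] (i : σ)

theorem nu_X (j : σ) : nu i (MvPolynomial.X j) = if j = i then (X : (Po σ)[X]) else C (MvPolynomial.X j) := by
  show MvPolynomial.aeval _ (MvPolynomial.X j) = _
  rw [MvPolynomial.aeval_X]

theorem nu_C (c : ℂ) : nu i (MvPolynomial.C c) = C (MvPolynomial.C c) := by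
  show MvPolynomial.aeval _ (MvPolynomial.C c) = _
  rw [MvPolynomial.aeval_C]
  rfl

theorem gz_X (z : ℂ) (j : σ) :
    gz i z (MvPolynomial.X j) = if j = i then MvPolynomial.C z * MvPolynomial.X j else MvPolynomial.X j := by
  show MvPolynomial.aeval _ (MvPolynomial.X j) = _
  rw [MvPolynomial.aeval_X]

theorem gz_C (z c : ℂ) : gz i z (MvPolynomial.C c) = MvPolynomial.C c := by
  show MvPolynomial.aeval _ (MvPolynomial.C c) = _
  rw [MvPolynomial.aeval_C]
  rfl

theorem gz_of_NI {r : Po σ} (h : NI i r) (z : ℂ) : gz i z r = r := by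
  have key : (Polynomial.evalRingHom (MvPolynomial.C z * MvPolynomial.X i : Po σ)).comp (nu i) = gz i z := by
    refine MvPolynomial.ringHom_ext ?_ ?_
    · intro c
      rw [RingHom.comp_apply, nu_C, gz_C, Polynomial.coe_evalRingHom, Polynomial.eval_C]
    · intro j
      rw [RingHom.comp_apply, nu_X, gz_X, Polynomial.coe_evalRingHom]
      split_ifs with hj
      · rw [Polynomial.eval_X, hj]
      · rw [Polynomial.eval_C]
  have h1 := RingHom.congr_fun key r
  have h2 : nu i r = C r := h
  rw [RingHom.comp_apply, h2, Polynomial.coe_evalRingHom, Polynomial.eval_C] at h1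
  exact h1.symm

theorem nu_gz_zero (r : Po σ) : nu i (gz i 0 r) = C (gz i 0 r) := by
  have key : (nu i).comp (gz i 0) = (C : Po σ →+* (Po σ)[X]).comp (gz i 0) := by
    refine MvPolynomial.ringHom_ext ?_ ?_
    · intro c
      rw [RingHom.comp_apply, RingHom.comp_apply, gz_C, nu_C]
    · intro j
      rw [RingHom.comp_apply, RingHom.comp_apply, gz_X]
      split_ifs with hj
      · rw [map_zero, zero_mul, map_zero, map_zero]
      · rw [nu_X, if_neg hj]
  exact RingHom.congr_fun key r

theorem gz_gz {z w : ℂ} (h : z * w = 1) (r : Po σ) : gz i z (gz i w r) = r := by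
  have key : (gz i z).comp (gz i w) = RingHom.id (Po σ) := by
    refine MvPolynomial.ringHom_ext ?_ ?_
    · intro c
      rw [RingHom.comp_apply, gz_C, gz_C, RingHom.id_apply]
    · intro j
      rw [RingHom.comp_apply, gz_X, RingHom.id_apply]
      split_ifs with hj
      · rw [map_mul, gz_C, gz_X, if_pos hj, ← mul_assoc, ← MvPolynomial.C_mul, mul_comm w z, h,
          MvPolynomial.C_1, one_mul]
      · rw [gz_X, if_neg hj]
  exact RingHom.congr_fun key r

theorem gz_surj {z : ℂ} (hz : z ≠ 0) : Function.Surjective (gz i z) := fun r =>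
  ⟨gz i z⁻¹ r, gz_gz i (mul_inv_cancel₀ hz) r⟩

theorem gz_sub (z : ℂ) (r : Po σ) : ∃ c : Po σ, gz i z r = r + MvPolynomial.X i * c := by
  have key : (Ideal.Quotient.mk (Ideal.span {(MvPolynomial.X i : Po σ)})).comp (gz i z)
      = Ideal.Quotient.mk (Ideal.span {(MvPolynomial.X i : Po σ)}) := by
    refine MvPolynomial.ringHom_ext ?_ ?_
    · intro c
      rw [RingHom.comp_apply, gz_C]
    · intro j
      rw [RingHom.comp_apply, gz_X]
      split_ifs with hj
      · subst hj
        have h0 : (Ideal.Quotient.mk (Ideal.span {(MvPolynomial.X j : Po σ)})) (MvPolynomial.X j) = 0 := by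
          rw [Ideal.Quotient.eq_zero_iff_mem]
          exact Ideal.mem_span_singleton_self _
        rw [map_mul, h0, mul_zero]
      · rfl
  have h1 := RingHom.congr_fun key r
  rw [RingHom.comp_apply, Ideal.Quotient.eq, Ideal.mem_span_singleton] at h1
  obtain ⟨c, hc⟩ := h1
  exact ⟨c, by rw [← hc]; ring⟩

variable {P Q : Type} [AddCommGroup P] [Module (Po σ) P] [AddCommGroup Q] [Module (Po σ) Q]

theorem gz_smul (hP : ∀ p : P, (MvPolynomial.X i : Po σ) • p = 0) (z : ℂ) (r : Po σ) (p : P) :
    gz i z r • p = r • p := by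
  obtain ⟨c, hc⟩ := gz_sub i z r
  rw [hc, add_smul, mul_smul, hP, add_zero]

/-- functoriality of `P[X]` -/
def pmEquiv {R P Q : Type} [CommRing R] [AddCommGroup P] [Module R P] [AddCommGroup Q] [Module R Q] (e : P ≃ₗ[R] Q) :
    PolynomialModule R P ≃ₗ[R[X]] PolynomialModule R Q where
  toFun := PolynomialModule.map R e.toLinearMap
  map_add' := (PolynomialModule.map R e.toLinearMap).map_add
  map_smul' r x := by
    rw [PolynomialModule.map_smul, Algebra.algebraMap_self, Polynomial.map_id]
    rfl
  invFun := PolynomialModule.map R e.symm.toLinearMap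
  left_inv x := by
    induction x using PolynomialModule.induction_linear with
    | zero => rw [map_zero, map_zero]
    | add f g hf hg => rw [map_add, map_add, hf, hg]
    | single n m =>
      rw [PolynomialModule.map_single, PolynomialModule.map_single]
      exact congrArg _ (e.symm_apply_apply m)
  right_inv x := by
    induction x using PolynomialModule.induction_linear with
    | zero => rw [map_zero, map_zero]
    | add f g hf hg => rw [map_add, map_add, hf, hg]
    | single n m =>
      rw [PolynomialModule.map_single, PolynomialModule.map_single]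
      exact congrArg _ (e.apply_symm_apply m)

theorem ex_kil {I : Set (Po σ)} (hI : ∀ r ∈ I, NI i r) (hk : Kil I P) : Kil I (Ex i P) := by
  intro r hr m
  have h2 : nu i r = C r := hI r hr
  have h3 : r • m = Res.mk (nu i) ((C r : (Po σ)[X]) • m.val) := by rw [← h2]; rfl
  rw [h3]
  have key : ∀ x : PolynomialModule (Po σ) P, (C r : (Po σ)[X]) • x = 0 := by
    intro x
    induction x using PolynomialModule.induction_linear with
    | zero => rw [smul_zero]
    | add f g hf hg => rw [smul_add, hf, hg, add_zero]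
    | single n m =>
      rw [← Polynomial.monomial_zero_left, PolynomialModule.monomial_smul_single, hk r hr,
        PolynomialModule.single_zero]
  exact key m.val

theorem ex_finite (hP : ∀ p : P, (MvPolynomial.X i : Po σ) • p = 0) (hfin : Module.Finite (Po σ) P) :
    Module.Finite (Po σ) (Ex i P) := by
  obtain ⟨s, hs⟩ := hfin.fg_top
  set S : Submodule (Po σ) (Ex i P) :=
    Submodule.span (Po σ) ((fun y : P => Res.mk (nu i) (PolynomialModule.single (Po σ) 0 y)) '' (s : Set P)) with hS
  have key0 : ∀ x : P, x ∈ Submodule.span (Po σ) (s : Set P) →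
      Res.mk (nu i) (PolynomialModule.single (Po σ) 0 x) ∈ S := by
    intro x hx
    induction hx using Submodule.span_induction with
    | mem y hy => exact Submodule.subset_span ⟨y, hy, rfl⟩
    | zero => rw [PolynomialModule.single_zero]; exact Submodule.zero_mem _
    | add y z _ _ hy hz => rw [PolynomialModule.single_add]; exact Submodule.add_mem _ hy hz
    | smul t y _ hy =>
      have h1 := Submodule.smul_mem S (gz i 0 t) hy
      have h2 : gz i 0 t • Res.mk (nu i) (PolynomialModule.single (Po σ) 0 y)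
          = Res.mk (nu i) (PolynomialModule.single (Po σ) 0 (t • y)) := by
        rw [Res.smul_mk, nu_gz_zero, ← Polynomial.monomial_zero_left, PolynomialModule.monomial_smul_single,
          gz_smul i hP, zero_add]
      rw [h2] at h1
      exact h1
  have key1 : ∀ (n : ℕ) (x : P), Res.mk (nu i) (PolynomialModule.single (Po σ) n x) ∈ S := by
    intro n x
    have h0 := key0 x (hs ▸ Submodule.mem_top)
    have h1 := Submodule.smul_mem S ((MvPolynomial.X i : Po σ) ^ n) h0
    have h2 : (MvPolynomial.X i : Po σ) ^ n • Res.mk (nu i) (PolynomialModule.single (Po σ) 0 x)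
        = Res.mk (nu i) (PolynomialModule.single (Po σ) n x) := by
      rw [Res.smul_mk, map_pow, nu_X, if_pos rfl, ← Polynomial.monomial_one_right_eq_X_pow,
        PolynomialModule.monomial_smul_single, one_smul, add_zero]
    rw [h2] at h1
    exact h1
  have key2 : ∀ x : PolynomialModule (Po σ) P, Res.mk (nu i) x ∈ S := by
    intro x
    induction x using PolynomialModule.induction_linear with
    | zero => exact Submodule.zero_mem _
    | add f g hf hg => exact Submodule.add_mem _ hf hg
    | single n m => exact key1 n m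
  have hfinS : ((fun y : P => Res.mk (nu i) (PolynomialModule.single (Po σ) 0 y)) '' (s : Set P)).Finite :=
    s.finite_toSet.image _
  refine ⟨(Submodule.fg_def).2 ⟨_, hfinS, ?_⟩⟩
  rw [eq_top_iff]
  intro x _
  exact key2 x.val

theorem ex_iso {I : Set (Po σ)} {V : Type 1} [AddCommGroup V] (ψ : AFun (Po σ) I V) (hI : ∀ r ∈ I, NI i r)
    (hk : Kil I P) (hP : ∀ p : P, (MvPolynomial.X i : Po σ) • p = 0) (hfin : Module.Finite (Po σ) P)
    (e : P ≃ₗ[Po σ] Q) : ψ.f (Ex i P) = ψ.f (Ex i Q) :=
  ψ.iso (Res.equiv (nu i) (pmEquiv e)) (ex_finite i hP hfin) (ex_kil i hI hk)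

end

section

variable {σ : Type} [DecidableEq σ] (i : σ) (z : ℂ) (M : Type) [AddCommGroup M] [Module (Po σ) M]

/-- `M / X_i M` for `M` and for the twist of `M` -/
def quE (hz : z ≠ 0) : (M ⧸ LinearMap.range (mg M (MvPolynomial.X i : Po σ))) ≃ₗ[Po σ]
    (Res (gz i z) M ⧸ LinearMap.range (mg (Res (gz i z) M) (MvPolynomial.X i : Po σ))) := by
  have hmem : ∀ m : M, Res.mk (gz i z) ((MvPolynomial.X i : Po σ) • m) ∈
      LinearMap.range (mg (Res (gz i z) M) (MvPolynomial.X i : Po σ)) := by
    intro m
    refine ⟨Res.mk (gz i z) ((MvPolynomial.C z⁻¹ : Po σ) • m), ?_⟩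
    rw [mg_apply, Res.smul_mk, gz_X, if_pos rfl, ← mul_smul]
    congr 2
    rw [mul_right_comm, ← MvPolynomial.C_mul, mul_inv_cancel₀ hz, MvPolynomial.C_1, one_mul]
  let l : M →ₗ[Po σ] (Res (gz i z) M ⧸ LinearMap.range (mg (Res (gz i z) M) (MvPolynomial.X i : Po σ))) :=
    { toFun := fun m => Submodule.Quotient.mk (Res.mk (gz i z) m)
      map_add' := fun a b => rfl
      map_smul' := fun r a => by
        rw [RingHom.id_apply, ← Submodule.Quotient.mk_smul, Res.smul_mk, Submodule.Quotient.eq]
        obtain ⟨c, hc⟩ := gz_sub i z r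
        have h1 : Res.mk (gz i z) (r • a) - Res.mk (gz i z) (gz i z r • a)
            = Res.mk (gz i z) ((MvPolynomial.X i : Po σ) • (-(c • a))) := by
          show r • a - gz i z r • a = (MvPolynomial.X i : Po σ) • (-(c • a))
          rw [hc, add_smul, mul_smul, smul_neg]
          abel
        rw [h1]
        exact hmem _ }
  have hl : LinearMap.range (mg M (MvPolynomial.X i : Po σ)) ≤ LinearMap.ker l := by
    rintro _ ⟨m, rfl⟩
    rw [LinearMap.mem_ker]
    show Submodule.Quotient.mk (Res.mk (gz i z) ((MvPolynomial.X i : Po σ) • m)) = _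
    rw [Submodule.Quotient.mk_eq_zero]
    exact hmem m
  refine LinearEquiv.ofBijective (Submodule.liftQ _ l hl) ⟨?_, ?_⟩
  · rw [injective_iff_map_eq_zero]
    intro q hq
    obtain ⟨m, rfl⟩ := Submodule.Quotient.mk_surjective _ q
    have h1 : (Submodule.Quotient.mk (Res.mk (gz i z) m) :
        Res (gz i z) M ⧸ LinearMap.range (mg (Res (gz i z) M) (MvPolynomial.X i : Po σ))) = 0 := hq
    rw [Submodule.Quotient.mk_eq_zero] at h1 ⊢
    obtain ⟨m', hm'⟩ := h1
    refine ⟨(MvPolynomial.C z : Po σ) • m'.val, ?_⟩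
    have h2 : gz i z (MvPolynomial.X i) • m'.val = m := hm'
    rw [gz_X, if_pos rfl] at h2
    rw [mg_apply, ← mul_smul, mul_comm]
    exact h2
  · intro q
    obtain ⟨m, rfl⟩ := Submodule.Quotient.mk_surjective _ q
    exact ⟨Submodule.Quotient.mk m.val, rfl⟩

/-- `ker X_i` for `M` and for the twist of `M` -/
def keE (hz : z ≠ 0) : LinearMap.ker (mg M (MvPolynomial.X i : Po σ)) ≃ₗ[Po σ]
    LinearMap.ker (mg (Res (gz i z) M) (MvPolynomial.X i : Po σ)) where
  toFun m := ⟨Res.mk (gz i z) m.1, by
    have h1 : (MvPolynomial.X i : Po σ) • m.1 = 0 := m.2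
    rw [LinearMap.mem_ker, mg_apply, Res.smul_mk, gz_X, if_pos rfl, mul_smul, h1, smul_zero]
    rfl⟩
  map_add' a b := rfl
  map_smul' r a := by
    have h1 : (MvPolynomial.X i : Po σ) • a.1 = 0 := a.2
    apply Subtype.ext
    show r • a.1 = gz i z r • a.1
    obtain ⟨c, hc⟩ := gz_sub i z r
    rw [hc, add_smul, mul_comm, mul_smul, h1, smul_zero, add_zero]
  invFun m := ⟨m.1.val, by
    have h1 : gz i z (MvPolynomial.X i) • m.1.val = 0 := m.2
    rw [gz_X, if_pos rfl, mul_smul] at h1
    have h2 := congrArg (fun x => (MvPolynomial.C z⁻¹ : Po σ) • x) h1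
    simp only [smul_zero] at h2
    rw [← mul_smul, ← MvPolynomial.C_mul, inv_mul_cancel₀ hz, MvPolynomial.C_1, one_smul] at h2
    exact h2⟩
  left_inv m := rfl
  right_inv m := rfl

end

end Hg_aux

open Hg_aux in
theorem tHg : S_Hb → S_Hg := by
  intro hb σ _ _ i I V _ ψ z M _ _ hz hI hfin hk
  have hfin' : Module.Finite (Po σ) (Res (gz i z) M) := Res.finite (gz_surj i hz) hfin
  have hk' : Kil I (Res (gz i z) M) := Kil.res (fun r hr => by
    rw [gz_of_NI i (hI r hr)]; exact Ideal.subset_span hr) hk
  rw [hb σ i I V ψ M hI hfin hk, hb σ i I V ψ (Res (gz i z) M) hI hfin' hk']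
  have : IsNoetherianRing (Po σ) := inferInstance
  have : IsNoetherian (Po σ) M := isNoetherian_of_isNoetherianRing_of_finite (Po σ) M
  congr 1
  · refine (ex_iso i ψ hI (hk.quot _) ?_ inferInstance (quE i z M hz)).symm
    intro p
    obtain ⟨m, rfl⟩ := Submodule.Quotient.mk_surjective _ p
    rw [← Submodule.Quotient.mk_smul, Submodule.Quotient.mk_eq_zero]
    exact ⟨m, rfl⟩
  · refine (ex_iso i ψ hI (hk.sub _) ?_ inferInstance (keE i z M hz)).symm
    intro p
    exact Subtype.ext p.2

end Pool.Agent.FY
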