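import Pool.Agent.Lib.MP_b53bfe_ag.Spec

/-!
# Hk: modules which are finite over the polynomials in the other variables
-/

set_option autoImplicit false

noncomputable section

namespace Pool.Agent.FY

open Polynomial

namespace Hk_aux

variable {σ : Type} [DecidableEq σ] (i : σ)

theorem nu_C (c : ℂ) : nu i (MvPolynomial.C c) = C (MvPolynomial.C c) := by
  show MvPolynomial.aeval _ (MvPolynomial.C c) = _
  rw [MvPolynomial.aeval_C]
  rfl

theorem nu_X_self : nu i (MvPolynomial.X i) = X := by
  show MvPolynomial.aeval _ (MvPolynomial.X i) = _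
  rw [MvPolynomial.aeval_X, if_pos rfl]

theorem nu_X_ne {j : σ} (h : j ≠ i) : nu i (MvPolynomial.X j) = C (MvPolynomial.X j) := by
  show MvPolynomial.aeval _ (MvPolynomial.X j) = _
  rw [MvPolynomial.aeval_X, if_neg h]

theorem gz_C (c : ℂ) : gz i 0 (MvPolynomial.C c) = MvPolynomial.C c := by
  show MvPolynomial.aeval _ (MvPolynomial.C c) = _
  rw [MvPolynomial.aeval_C]
  rfl

theorem gz_X_ne {j : σ} (h : j ≠ i) : gz i 0 (MvPolynomial.X j) = MvPolynomial.X j := by
  show MvPolynomial.aeval _ (MvPolynomial.X j) = _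
  rw [MvPolynomial.aeval_X, if_neg h]

theorem gz_X_self : gz i 0 (MvPolynomial.X i) = 0 := by
  show MvPolynomial.aeval _ (MvPolynomial.X i) = _
  rw [MvPolynomial.aeval_X, if_pos rfl, map_zero, zero_mul]

theorem gz_eq : gz i 0 = (evalRingHom (0 : Po σ)).comp (nu i) := by
  refine MvPolynomial.ringHom_ext (fun c => ?_) (fun j => ?_)
  · rw [gz_C, RingHom.comp_apply, nu_C, coe_evalRingHom, eval_C]
  · by_cases h : j = i
    · subst h
      rw [gz_X_self, RingHom.comp_apply, nu_X_self, coe_evalRingHom, eval_X]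
    · rw [gz_X_ne i h, RingHom.comp_apply, nu_X_ne i h, coe_evalRingHom, eval_C]

theorem gz_NI {r : Po σ} (h : NI i r) : gz i 0 r = r := by
  rw [gz_eq, RingHom.comp_apply, show nu i r = C r from h, coe_evalRingHom, eval_C]

variable (M : Type) [AddCommGroup M] [Module (Po σ) M]

/-- the module of coefficients -/
abbrev K : Type := Res (gz i 0) M

variable {M}

/-- the monomial `m X ^ k` -/
def mo (k : ℕ) (m : M) : Ex i (K i M) := Res.mk (nu i) (PolynomialModule.single (Po σ) k (Res.mk (gz i 0) m))

theorem mo_add (k : ℕ) (m n : M) : mo i k (m + n) = mo i k m + mo i k n :=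
  PolynomialModule.single_add k (Res.mk (gz i 0) m) (Res.mk (gz i 0) n)

theorem mo_zero (k : ℕ) : mo i k (0 : M) = 0 := PolynomialModule.single_zero k

theorem C_smul {r : Po σ} (h : nu i r = C r) (k : ℕ) (m : M) : r • mo i k m = mo i k (gz i 0 r • m) := by
  show Res.mk (nu i) (nu i r • PolynomialModule.single (Po σ) k (Res.mk (gz i 0) m)) = _
  rw [h, ← monomial_zero_left, PolynomialModule.monomial_smul_single, zero_add]
  rfl

theorem X_smul (k : ℕ) (m : M) : (MvPolynomial.X i : Po σ) • mo i k m = mo i (k + 1) m := by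
  show Res.mk (nu i) (nu i (MvPolynomial.X i) • PolynomialModule.single (Po σ) k (Res.mk (gz i 0) m)) = _
  rw [nu_X_self, ← monomial_one_one_eq_X, PolynomialModule.monomial_smul_single, one_smul, Nat.add_comm]
  rfl

theorem ex_ind {P : Ex i (K i M) → Prop} (u : Ex i (K i M)) (h0 : P 0) (ha : ∀ u v, P u → P v → P (u + v))
    (hm : ∀ k m, P (mo i k m)) : P u :=
  PolynomialModule.induction_linear (p := fun u => P (Res.mk (nu i) u)) u.val h0 ha hm

/-- the coefficient of `X ^ k` -/
def co (k : ℕ) : Ex i (K i M) →+ M where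
  toFun u := Res.val (u.val.coeff k)
  map_zero' := rfl
  map_add' _ _ := rfl

theorem co_mo (k l : ℕ) (m : M) : co i k (mo i l m) = if l = k then m else 0 := by
  show Res.val ((Finsupp.single l (Res.mk (gz i 0) m)) k) = _
  rw [Finsupp.single_apply]
  split_ifs <;> rfl

theorem co_ext {u v : Ex i (K i M)} (h : ∀ k, co i k u = co i k v) : u = v :=
  PolynomialModule.ext (Finsupp.ext h)

/-! ## finiteness -/

theorem fin (hM : Module.Finite (Po σ) M) {d : ℕ} {g : Po σ} (hd : 1 ≤ d) (hg : NI i g)
    (hk : ∀ m : M, (MvPolynomial.X i ^ d + g : Po σ) • m = 0) : Module.Finite (Po σ) (Ex i (K i M)) := by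
  obtain ⟨s, hs⟩ := hM.fg_top
  set G : Set (Ex i (K i M)) := (fun y : ℕ × M => mo i 0 ((MvPolynomial.X i : Po σ) ^ y.1 • y.2)) ''
    ((Finset.range d ×ˢ s : Finset (ℕ × M)) : Set (ℕ × M)) with hG
  have hGf : G.Finite := (Finset.finite_toSet _).image _
  have hT : ∀ {m : M} (r : Po σ), NI i r → mo i 0 m ∈ Submodule.span (Po σ) G →
      mo i 0 (r • m) ∈ Submodule.span (Po σ) G := by
    intro m r hr hm
    have := Submodule.smul_mem _ r hm
    rwa [C_smul i hr, gz_NI i hr] at this
  have hTa : ∀ {m n : M}, mo i 0 m ∈ Submodule.span (Po σ) G → mo i 0 n ∈ Submodule.span (Po σ) G →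
      mo i 0 (m + n) ∈ Submodule.span (Po σ) G := by
    intro m n hm hn
    rw [mo_add]
    exact Submodule.add_mem _ hm hn
  have hTn : ∀ {m : M}, mo i 0 m ∈ Submodule.span (Po σ) G → mo i 0 (-m) ∈ Submodule.span (Po σ) G := by
    intro m hm
    have h1 : (-1 : Po σ) • m = -m := by rw [neg_smul, one_smul]
    rw [← h1]
    refine hT _ ?_ hm
    show nu i (-1) = C (-1)
    rw [map_neg, map_one, map_neg, map_one]
  have h1 : ∀ k : ℕ, ∀ m ∈ s, mo i 0 ((MvPolynomial.X i : Po σ) ^ k • m) ∈ Submodule.span (Po σ) G := by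
    intro k
    induction k using Nat.strong_induction_on with
    | _ k ih =>
      intro m hm
      by_cases hkd : k < d
      · refine Submodule.subset_span ⟨(k, m), ?_, rfl⟩
        rw [Finset.mem_coe, Finset.mem_product]
        exact ⟨Finset.mem_range.2 hkd, hm⟩
      · push Not at hkd
        have h2 := hk ((MvPolynomial.X i : Po σ) ^ (k - d) • m)
        rw [add_smul] at h2
        have h3 : (MvPolynomial.X i : Po σ) ^ k • m = - (g • ((MvPolynomial.X i : Po σ) ^ (k - d) • m)) := by
          rw [← eq_neg_of_add_eq_zero_left h2, smul_smul, ← pow_add, Nat.add_sub_cancel' hkd]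
        rw [h3]
        exact hTn (hT g hg (ih (k - d) (by omega) m hm))
  have h2 : ∀ r : Po σ, ∀ k : ℕ, ∀ m ∈ s, mo i 0 (r • ((MvPolynomial.X i : Po σ) ^ k • m)) ∈
      Submodule.span (Po σ) G := by
    intro r
    induction r using MvPolynomial.induction_on with
    | C c =>
      intro k m hm
      exact hT _ (nu_C i c) (h1 k m hm)
    | add p q hp hq =>
      intro k m hm
      rw [add_smul]
      exact hTa (hp k m hm) (hq k m hm)
    | mul_X p j hp =>
      intro k m hm
      by_cases hj : j = i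
      · subst hj
        have h3 := hp (k + 1) m hm
        rwa [pow_succ', mul_smul, ← mul_smul] at h3
      · rw [mul_comm, mul_smul]
        exact hT _ (nu_X_ne i hj) (hp k m hm)
  have h3' : ∀ m ∈ Submodule.span (Po σ) (s : Set M), ∀ r : Po σ, mo i 0 (r • m) ∈ Submodule.span (Po σ) G := by
    intro m hm
    induction hm using Submodule.span_induction with
    | mem y hy =>
      intro r
      have := h2 r 0 y hy
      rwa [pow_zero, one_smul] at this
    | zero => intro r; rw [smul_zero, mo_zero]; exact Submodule.zero_mem _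
    | add y z _ _ hy hz => intro r; rw [smul_add]; exact hTa (hy r) (hz r)
    | smul t y _ hy => intro r; rw [← mul_smul]; exact hy (r * t)
  have h3 : ∀ m : M, mo i 0 m ∈ Submodule.span (Po σ) G := by
    intro m
    have := h3' m (hs ▸ Submodule.mem_top) 1
    rwa [one_smul] at this
  have h4 : ∀ k : ℕ, ∀ m : M, mo i k m ∈ Submodule.span (Po σ) G := by
    intro k
    induction k with
    | zero => exact h3
    | succ k ih =>
      intro m
      rw [← X_smul]
      exact Submodule.smul_mem _ _ (ih m)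
  refine ⟨(Submodule.fg_def).2 ⟨G, hGf, ?_⟩⟩
  rw [eq_top_iff]
  intro u _
  exact ex_ind i (P := fun u => u ∈ Submodule.span (Po σ) G) u (Submodule.zero_mem _)
    (fun u v hu hv => Submodule.add_mem _ hu hv) h4

/-! ## the two maps -/

/-- multiplication by `X_i` on the coefficients -/
def mx : PolynomialModule (Po σ) (K i M) →ₗ[Po σ] PolynomialModule (Po σ) (K i M) :=
  PolynomialModule.map (Po σ) (Res.map (gz i 0) (mg M (MvPolynomial.X i : Po σ)))

theorem mx_smul (p : (Po σ)[X]) (u : PolynomialModule (Po σ) (K i M)) : mx i (p • u) = p • mx i u := by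
  have h := PolynomialModule.map_smul (Po σ) (Res.map (gz i 0) (mg M (MvPolynomial.X i : Po σ))) p u
  rwa [Algebra.algebraMap_self, Polynomial.map_id] at h

/-- `u ↦ x u - X u` -/
def io : Ex i (K i M) →ₗ[Po σ] Ex i (K i M) where
  toFun u := Res.mk (nu i) (mx i u.val - (X : (Po σ)[X]) • u.val)
  map_add' u v := by
    show mx i (u.val + v.val) - (X : (Po σ)[X]) • (u.val + v.val) = (mx i u.val - (X : (Po σ)[X]) • u.val) + (mx i v.val - (X : (Po σ)[X]) • v.val)
    rw [map_add, smul_add]
    abel
  map_smul' r u := by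
    show mx i (nu i r • u.val) - (X : (Po σ)[X]) • (nu i r • u.val) = nu i r • (mx i u.val - (X : (Po σ)[X]) • u.val)
    rw [mx_smul, smul_sub, smul_comm]

theorem io_mo (k : ℕ) (m : M) : io i (mo i k m) = mo i k ((MvPolynomial.X i : Po σ) • m) - mo i (k + 1) m := by
  rw [← X_smul]
  show mx i (PolynomialModule.single (Po σ) k (Res.mk (gz i 0) m)) -
    (X : (Po σ)[X]) • (PolynomialModule.single (Po σ) k (Res.mk (gz i 0) m)) =
    PolynomialModule.single (Po σ) k (Res.mk (gz i 0) ((MvPolynomial.X i : Po σ) • m)) -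
    nu i (MvPolynomial.X i) • (PolynomialModule.single (Po σ) k (Res.mk (gz i 0) m))
  rw [nu_X_self, mx, PolynomialModule.map_single]
  rfl

/-- `∑ u_k X ^ k ↦ ∑ x ^ k u_k`, additive -/
def pa : Ex i (K i M) →+ M :=
  (Finsupp.liftAddHom (fun k => (DistribSMul.toAddMonoidHom M ((MvPolynomial.X i : Po σ) ^ k) : M →+ M)) : (ℕ →₀ M) →+ M).comp
    (PolynomialModule.coeffAddEquiv (R := Po σ) (M := K i M)).toAddMonoidHom

theorem pa_mo (k : ℕ) (m : M) : pa i (mo i k m) = (MvPolynomial.X i : Po σ) ^ k • m := by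
  show Finsupp.liftAddHom (fun k => (DistribSMul.toAddMonoidHom M ((MvPolynomial.X i : Po σ) ^ k) : M →+ M))
    (Finsupp.single k m) = _
  rw [Finsupp.liftAddHom_apply_single]
  rfl

theorem pa_smul (r : Po σ) : ∀ u : Ex i (K i M), pa i (r • u) = r • pa i u := by
  induction r using MvPolynomial.induction_on with
  | C c =>
    intro u
    refine ex_ind i (P := fun u => pa i ((MvPolynomial.C c : Po σ) • u) = (MvPolynomial.C c : Po σ) • pa i u) u ?_ ?_ ?_
    · rw [smul_zero, map_zero, smul_zero]
    · intro u v hu hv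
      rw [smul_add, map_add, hu, hv, map_add, smul_add]
    · intro k m
      rw [C_smul i (nu_C i c), gz_C, pa_mo, pa_mo, smul_comm]
  | add p q hp hq =>
    intro u
    rw [add_smul, map_add, hp, hq, add_smul]
  | mul_X p j hp =>
    intro u
    rw [mul_smul, hp, mul_smul]
    congr 1
    refine ex_ind i (P := fun u => pa i ((MvPolynomial.X j : Po σ) • u) = (MvPolynomial.X j : Po σ) • pa i u) u ?_ ?_ ?_
    · rw [smul_zero, map_zero, smul_zero]
    · intro u v hu hv
      rw [smul_add, map_add, hu, hv, map_add, smul_add]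
    · intro k m
      by_cases hj : j = i
      · subst hj
        rw [X_smul, pa_mo, pa_mo, pow_succ', mul_smul]
      · rw [C_smul i (nu_X_ne i hj), gz_X_ne i hj, pa_mo, pa_mo, smul_comm]

/-- `∑ u_k X ^ k ↦ ∑ x ^ k u_k` -/
def pr : Ex i (K i M) →ₗ[Po σ] M where
  toFun := pa i
  map_add' := map_add _
  map_smul' r u := pa_smul i r u

theorem io_inj : Function.Injective (io i : Ex i (K i M) →ₗ[Po σ] Ex i (K i M)) := by
  rw [injective_iff_map_eq_zero]
  intro u hu
  have hc : ∀ (v : Ex i (K i M)) (k : ℕ), co i (k + 1) (io i v) = (MvPolynomial.X i : Po σ) • co i (k + 1) v - co i k v := by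
    intro v k
    refine ex_ind i (P := fun v => co i (k + 1) (io i v) = (MvPolynomial.X i : Po σ) • co i (k + 1) v - co i k v) v ?_ ?_ ?_
    · rw [map_zero, map_zero, map_zero, smul_zero, sub_zero]
    · intro v w hv hw
      rw [map_add, map_add, hv, hw, map_add, map_add, smul_add]
      abel
    · intro l m
      rw [io_mo, map_sub, co_mo, co_mo, co_mo, co_mo]
      by_cases h1 : l = k + 1
      · rw [if_pos h1, if_pos h1, if_neg (by omega), if_neg (by omega)]
      · by_cases h2 : l = k
        · rw [if_neg h1, if_pos (by omega), if_neg h1, if_pos h2, smul_zero]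
        · rw [if_neg h1, if_neg (by omega), if_neg h1, if_neg h2, smul_zero]
  have h1 : ∀ k, co i k u = (MvPolynomial.X i : Po σ) • co i (k + 1) u := by
    intro k
    have h2 := hc u k
    rw [hu, map_zero] at h2
    exact (sub_eq_zero.1 h2.symm).symm
  have h2 : ∀ n k : ℕ, co i k u = (MvPolynomial.X i : Po σ) ^ n • co i (k + n) u := by
    intro n
    induction n with
    | zero => intro k; rw [pow_zero, one_smul, add_zero]
    | succ n ih => intro k; rw [ih k, h1 (k + n), ← mul_smul, ← pow_succ, add_assoc]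
  obtain ⟨n, hn⟩ : ∃ n : ℕ, ∀ k, n ≤ k → co i k u = 0 := by
    refine ⟨u.val.coeff.support.sup id + 1, fun k hk => ?_⟩
    by_contra hne
    have h3 : k ∈ u.val.coeff.support := Finsupp.mem_support_iff.2 hne
    have h4 : id k ≤ u.val.coeff.support.sup id := Finset.le_sup h3
    rw [id] at h4
    omega
  refine co_ext i (fun k => ?_)
  rw [h2 n k, hn (k + n) (by omega), smul_zero, map_zero]

theorem pr_surj : Function.Surjective (pr i : Ex i (K i M) →ₗ[Po σ] M) := fun m =>
  ⟨mo i 0 m, by
    show pa i (mo i 0 m) = m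
    rw [pa_mo, pow_zero, one_smul]⟩

theorem pr_io (u : Ex i (K i M)) : pr i (io i u) = 0 := by
  refine ex_ind i (P := fun u => pr i (io i u) = 0) u ?_ ?_ ?_
  · rw [map_zero, map_zero]
  · intro u v hu hv
    rw [map_add, map_add, hu, hv, add_zero]
  · intro k m
    show pa i (io i (mo i k m)) = 0
    rw [io_mo, map_sub, pa_mo, pa_mo, pow_succ, mul_smul, sub_self]

theorem mem_range (u : Ex i (K i M)) : u - mo i 0 (pa i u) ∈ LinearMap.range (io i : Ex i (K i M) →ₗ[Po σ] Ex i (K i M)) := by
  refine ex_ind i (P := fun u => u - mo i 0 (pa i u) ∈ LinearMap.range (io i : Ex i (K i M) →ₗ[Po σ] Ex i (K i M))) u ?_ ?_ ?_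
  · rw [map_zero, mo_zero, sub_zero]
    exact Submodule.zero_mem _
  · intro u v hu hv
    have h := Submodule.add_mem _ hu hv
    rwa [show u - mo i 0 (pa i u) + (v - mo i 0 (pa i v)) = u + v - mo i 0 (pa i (u + v)) by
      rw [map_add, mo_add]; abel] at h
  · intro k
    induction k with
    | zero =>
      intro m
      rw [pa_mo, pow_zero, one_smul, sub_self]
      exact Submodule.zero_mem _
    | succ k ih =>
      intro m
      have h := Submodule.sub_mem _ (ih ((MvPolynomial.X i : Po σ) • m)) (LinearMap.mem_range_self (io i) (mo i k m))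
      rwa [io_mo, pa_mo, show mo i k ((MvPolynomial.X i : Po σ) • m) -
        mo i 0 ((MvPolynomial.X i : Po σ) ^ k • (MvPolynomial.X i : Po σ) • m) -
        (mo i k ((MvPolynomial.X i : Po σ) • m) - mo i (k + 1) m) =
        mo i (k + 1) m - mo i 0 (pa i (mo i (k + 1) m)) by
          rw [pa_mo, pow_succ, mul_smul]; abel] at h

theorem exact : Function.Exact (io i : Ex i (K i M) →ₗ[Po σ] Ex i (K i M)) (pr i : Ex i (K i M) →ₗ[Po σ] M) := by
  intro u
  constructor
  · intro h
    have h1 := mem_range i u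
    rw [show pa i u = 0 from h, mo_zero, sub_zero] at h1
    exact h1
  · rintro ⟨v, rfl⟩
    exact pr_io i v

theorem kil {I : Set (Po σ)} (hI : ∀ r ∈ I, NI i r) (hK : Kil I M) : Kil I (Ex i (K i M)) := by
  intro r hr u
  refine ex_ind i (P := fun u => r • u = 0) u ?_ ?_ ?_
  · rw [smul_zero]
  · intro u v hu hv
    rw [smul_add, hu, hv, add_zero]
  · intro k m
    rw [C_smul i (hI r hr), gz_NI i (hI r hr), hK r hr m, mo_zero]

end Hk_aux

open Hk_aux in
theorem tHk : S_Hk := by
  intro σ _ _ i I V _ ψ d g M _ _ hd hg hI hM hK hk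
  have h := ψ.add (Ex i (K i M)) (Ex i (K i M)) M (io i) (pr i) (fin i hM hd hg hk) (kil i hI hK) (io_inj i)
    (pr_surj i) (exact i)
  exact (left_eq_add.1 h)

end Pool.Agent.FY
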