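import Pool.Agent.Lib.MP_b53bfe_ag.Spec

/-!
# Resolution of a finitely generated module over `A[X]`
-/

set_option autoImplicit false

noncomputable section

namespace Pool.Agent.FY

open Polynomial

namespace Hr_aux

section lift

variable {A : Type} [CommRing A] {P : Type} [AddCommGroup P] [Module A P] {M : Type} [AddCommGroup M]
  [Module A M] [Module A[X] M] [IsScalarTower A A[X] M]

/-- the values of the extension of an `A`-linear map -/
def lf (f : P →ₗ[A] M) (u : PolynomialModule A P) : M := u.coeff.sum fun k v => (X : A[X]) ^ k • f v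

theorem lf_zero (f : P →ₗ[A] M) : lf f 0 = 0 := by
  unfold lf
  rw [PolynomialModule.coeff_zero, Finsupp.sum_zero_index]

theorem lf_add (f : P →ₗ[A] M) (u v : PolynomialModule A P) : lf f (u + v) = lf f u + lf f v := by
  unfold lf
  rw [PolynomialModule.coeff_add]
  exact Finsupp.sum_add_index' (fun k => by rw [map_zero, smul_zero])
    (fun k a b => by rw [map_add, smul_add])

theorem lf_single (f : P →ₗ[A] M) (k : ℕ) (v : P) :
    lf f (PolynomialModule.single A k v) = (X : A[X]) ^ k • f v := by
  unfold lf
  rw [PolynomialModule.coeff_single]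
  exact Finsupp.sum_single_index (by rw [map_zero, smul_zero])

/-- extension of an `A`-linear map to `P[X]` -/
def lift (f : P →ₗ[A] M) : PolynomialModule A P →ₗ[A[X]] M where
  toFun := lf f
  map_add' := lf_add f
  map_smul' p u := by
    rw [RingHom.id_apply]
    induction u using PolynomialModule.induction_linear with
    | zero => rw [smul_zero, lf_zero, smul_zero]
    | add x y hx hy => rw [smul_add, lf_add, lf_add, hx, hy, smul_add]
    | single k v =>
      induction p using Polynomial.induction_on' with
      | add p q hp hq => rw [add_smul, lf_add, hp, hq, add_smul]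
      | monomial n a =>
        rw [PolynomialModule.monomial_smul_single, lf_single, lf_single, map_smul,
          ← algebraMap_smul A[X] a (f v), smul_smul, smul_smul, Polynomial.algebraMap_eq,
          ← Polynomial.C_mul_X_pow_eq_monomial]
        congr 1
        ring

theorem lift_single (f : P →ₗ[A] M) (k : ℕ) (v : P) :
    lift f (PolynomialModule.single A k v) = (X : A[X]) ^ k • f v := lf_single f k v

theorem lift_apply (f : P →ₗ[A] M) (u : PolynomialModule A P) :
    lift f u = u.coeff.sum fun k v => (X : A[X]) ^ k • f v := rfl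

end lift

section Q

variable {A : Type} [CommRing A] {M : Type} [AddCommGroup M] [Module A M] [Module A[X] M]
  [IsScalarTower A A[X] M]

/-- multiplication by `X` -/
def T : M →ₗ[A] M where
  toFun m := (X : A[X]) • m
  map_add' a b := smul_add _ a b
  map_smul' a m := by
    rw [RingHom.id_apply]
    exact smul_comm _ _ _

theorem T_apply (m : M) : (T : M →ₗ[A] M) m = (X : A[X]) • m := rfl

/-- `P + X P + ... + X ^ n P` -/
def Q (P : Submodule A M) : ℕ → Submodule A M
  | 0 => P
  | n + 1 => Q P n ⊔ (Q P n).map T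

variable (P : Submodule A M)

theorem Q_le (n : ℕ) : Q P n ≤ Q P (n + 1) := le_sup_left

theorem Q_mono {m n : ℕ} (h : m ≤ n) : Q P m ≤ Q P n := monotone_nat_of_le_succ (Q_le P) h

theorem X_mem {n : ℕ} {x : M} (h : x ∈ Q P n) : (X : A[X]) • x ∈ Q P (n + 1) :=
  Submodule.mem_sup_right (Submodule.mem_map_of_mem (f := T) h)

theorem X_pow_mem {n : ℕ} {x : M} (h : x ∈ Q P n) (k : ℕ) : (X : A[X]) ^ k • x ∈ Q P (n + k) := by
  induction k with
  | zero => rwa [pow_zero, one_smul, add_zero]
  | succ k ih =>
    rw [pow_succ', mul_smul]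
    exact X_mem P ih

theorem Q_dec (m : ℕ) : ∀ x ∈ Q P (m + 1), ∃ y ∈ Q P m, ∃ z ∈ Q P 1, x = y + (X : A[X]) ^ m • z := by
  induction m with
  | zero =>
    intro x hx
    exact ⟨0, zero_mem _, x, hx, by rw [pow_zero, one_smul, zero_add]⟩
  | succ m ih =>
    intro x hx
    obtain ⟨y, hy, w, hw, rfl⟩ := Submodule.mem_sup.1 hx
    obtain ⟨w', hw', rfl⟩ := Submodule.mem_map.1 hw
    obtain ⟨y', hy', z, hz, rfl⟩ := ih w' hw'
    refine ⟨y + (X : A[X]) • y', add_mem hy (X_mem P hy'), z, hz, ?_⟩
    rw [T_apply, smul_add, smul_smul, ← pow_succ', add_assoc]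

theorem Q_fg (h : P.FG) (n : ℕ) : (Q P n).FG := by
  induction n with
  | zero => exact h
  | succ n ih => exact ih.sup (ih.map _)

variable [IsNoetherianRing A]

theorem stab (h : P.FG) : ∃ m₀ : ℕ, ∀ m, m₀ ≤ m → ∀ z ∈ Q P 1,
    (X : A[X]) ^ (m + 1) • z ∈ Q P (m + 1) → (X : A[X]) ^ m • z ∈ Q P m := by
  have hfin : Module.Finite A (Q P 1) := Module.Finite.iff_fg.2 (Q_fg P h 1)
  have hno : IsNoetherian A (Q P 1) := isNoetherian_of_isNoetherianRing_of_finite A _
  let K : ℕ → Submodule A (Q P 1) := fun m =>
    { carrier := {x | (X : A[X]) ^ m • (x : M) ∈ Q P m}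
      add_mem' := by
        intro a b ha hb
        simp only [Set.mem_ofPred_eq, Submodule.coe_add, smul_add] at *
        exact add_mem ha hb
      zero_mem' := by simp
      smul_mem' := by
        intro c a ha
        simp only [Set.mem_ofPred_eq, Submodule.coe_smul] at *
        rw [smul_comm]
        exact Submodule.smul_mem _ c ha }
  have hK : ∀ m (x : Q P 1), x ∈ K m ↔ (X : A[X]) ^ m • (x : M) ∈ Q P m := fun m x => Iff.rfl
  have hmono : Monotone K := by
    refine monotone_nat_of_le_succ fun n x hx => ?_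
    rw [hK] at hx ⊢
    rw [pow_succ', mul_smul]
    exact X_mem P hx
  obtain ⟨m₀, hm₀⟩ := monotone_stabilizes_iff_noetherian.2 hno ⟨K, hmono⟩
  refine ⟨m₀, fun m hm z hz hX => ?_⟩
  have h1 : K m₀ = K m := hm₀ m hm
  have h2 : K m₀ = K (m + 1) := hm₀ (m + 1) (by omega)
  have h3 : (⟨z, hz⟩ : Q P 1) ∈ K (m + 1) := hX
  rw [← h2, h1] at h3
  exact h3

omit [IsNoetherianRing A] in
theorem key {m₀ : ℕ} (h : ∀ m, m₀ ≤ m → ∀ z ∈ Q P 1,
    (X : A[X]) ^ (m + 1) • z ∈ Q P (m + 1) → (X : A[X]) ^ m • z ∈ Q P m) (m : ℕ) (hm : m₀ ≤ m)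
    (x : M) (hx : x ∈ Q P (m + 1)) (hX : (X : A[X]) • x ∈ Q P (m + 1)) : x ∈ Q P m := by
  obtain ⟨y, hy, z, hz, rfl⟩ := Q_dec P m x hx
  refine add_mem hy (h m hm z hz ?_)
  rw [smul_add, smul_smul, ← pow_succ'] at hX
  exact (Submodule.add_mem_iff_right _ (X_mem P hy)).1 hX

omit [IsNoetherianRing A] in
theorem key' {m₀ : ℕ} (h : ∀ m, m₀ ≤ m → ∀ z ∈ Q P 1,
    (X : A[X]) ^ (m + 1) • z ∈ Q P (m + 1) → (X : A[X]) ^ m • z ∈ Q P m) (k : ℕ) :
    ∀ (m : ℕ), m₀ ≤ m → ∀ x ∈ Q P (m + 1),
      (X : A[X]) ^ (k + 1) • x ∈ Q P (m + (k + 1)) → x ∈ Q P m := by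
  induction k with
  | zero =>
    intro m hm x hx hX
    rw [zero_add, pow_one] at hX
    exact key P h m hm x hx hX
  | succ k ih =>
    intro m hm x hx hX
    refine ih m hm x hx ?_
    have h1 : (X : A[X]) ^ (k + 1) • x ∈ Q P (m + 1 + (k + 1)) := X_pow_mem P hx (k + 1)
    have e1 : m + 1 + (k + 1) = (m + (k + 1)) + 1 := by ring
    rw [e1] at h1
    refine key P h (m + (k + 1)) (by omega) _ h1 ?_
    rw [smul_smul, ← pow_succ']
    have e2 : m + (k + 1 + 1) = (m + (k + 1)) + 1 := by ring
    rw [e2] at hX
    exact hX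

end Q

end Hr_aux

open Hr_aux in
/-- **Hr** -/
theorem tHr : S_Hr := by
  intro A _ _ M _ _ hfin
  let _ : Module A M := Module.compHom M (C : A →+* A[X])
  have hsm : ∀ (a : A) (m : M), a • m = (C a : A[X]) • m := fun a m => rfl
  have _ : IsScalarTower A A[X] M := ⟨fun a f m => by
    rw [hsm, smul_smul, Polynomial.smul_eq_C_mul]⟩
  obtain ⟨S, hS⟩ := hfin.fg_top
  let P : Submodule A M := Submodule.span A (S : Set M)
  have hPfg : P.FG := ⟨S, rfl⟩
  obtain ⟨m₀, hm₀⟩ := stab P hPfg
  have hTmem : ∀ x : Q P m₀, (T : M →ₗ[A] M) x ∈ Q P (m₀ + 1) := fun x => X_mem P x.2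
  let T' : Q P m₀ →ₗ[A] Q P (m₀ + 1) := (T.domRestrict (Q P m₀)).codRestrict (Q P (m₀ + 1)) hTmem
  let ι : Q P m₀ →ₗ[A] Q P (m₀ + 1) := Submodule.inclusion (Q_le P m₀)
  let f : Q P m₀ →ₗ[A] PolynomialModule A (Q P (m₀ + 1)) :=
    (PolynomialModule.lsingle A 0).comp T' - (PolynomialModule.lsingle A 1).comp ι
  let i : PolynomialModule A (Q P m₀) →ₗ[A[X]] PolynomialModule A (Q P (m₀ + 1)) := lift f
  let p : PolynomialModule A (Q P (m₀ + 1)) →ₗ[A[X]] M := lift (Q P (m₀ + 1)).subtype
  have hi : ∀ (k : ℕ) (v : Q P m₀), i (PolynomialModule.single A k v) =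
      PolynomialModule.single A k (T' v) - PolynomialModule.single A (k + 1) (ι v) := by
    intro k v
    have h1 : f v = PolynomialModule.single A 0 (T' v) - PolynomialModule.single A 1 (ι v) := rfl
    change lift f _ = _
    rw [lift_single, h1, smul_sub, ← Polynomial.monomial_one_right_eq_X_pow,
      PolynomialModule.monomial_smul_single, PolynomialModule.monomial_smul_single, one_smul,
      one_smul, add_zero]
  have hp : ∀ (k : ℕ) (v : Q P (m₀ + 1)), p (PolynomialModule.single A k v) =
      (X : A[X]) ^ k • (v : M) := by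
    intro k v
    exact lift_single _ k v
  have hic : ∀ (u : PolynomialModule A (Q P m₀)) (n : ℕ),
      (i u).coeff (n + 1) = T' (u.coeff (n + 1)) - ι (u.coeff n) := by
    intro u n
    induction u using PolynomialModule.induction_linear with
    | zero => simp
    | add x y hx hy =>
      have e1 : i (x + y) = i x + i y := map_add i x y
      rw [e1, PolynomialModule.coeff_add, PolynomialModule.coeff_add, Finsupp.add_apply,
        Finsupp.add_apply, Finsupp.add_apply, hx, hy, map_add T', map_add ι]
      abel
    | single k v =>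
      rw [hi]
      have e1 : (PolynomialModule.single A k (T' v) - PolynomialModule.single A (k + 1) (ι v)).coeff (n + 1)
          = (Finsupp.single k (T' v)) (n + 1) - (Finsupp.single (k + 1) (ι v)) (n + 1) := rfl
      rw [e1, PolynomialModule.coeff_single, Finsupp.single_apply, Finsupp.single_apply,
        Finsupp.single_apply, Finsupp.single_apply]
      by_cases h1 : k = n + 1
      · have h2 : ¬ k = n := by omega
        have h3 : ¬ k + 1 = n + 1 := by omega
        rw [if_pos h1, if_pos h1, if_neg h2, if_neg h3, map_zero ι]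
      · by_cases h2 : k = n
        · have h3 : k + 1 = n + 1 := by omega
          rw [if_neg h1, if_neg h1, if_pos h2, if_pos h3, map_zero T']
        · have h3 : ¬ k + 1 = n + 1 := by omega
          rw [if_neg h1, if_neg h1, if_neg h2, if_neg h3, map_zero T', map_zero ι]
  refine ⟨Q P m₀, Q P (m₀ + 1), inferInstance, inferInstance, inferInstance, inferInstance, i, p,
    Module.Finite.iff_fg.2 (Q_fg P hPfg _), Module.Finite.iff_fg.2 (Q_fg P hPfg _), ?_, ?_, ?_, ?_⟩
  · intro a ha
    exact ⟨fun x => Subtype.ext (ha x), fun x => Subtype.ext (ha x)⟩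
  · -- injectivity
    rw [injective_iff_map_eq_zero]
    intro u hu
    have hstep : ∀ n, u.coeff (n + 1) = 0 → u.coeff n = 0 := by
      intro n hn
      have h1 := hic u n
      rw [hu, hn, map_zero, zero_sub, PolynomialModule.coeff_zero, Finsupp.zero_apply] at h1
      have h2 : ι (u.coeff n) = 0 := neg_eq_zero.1 h1.symm
      exact (Submodule.inclusion_injective (Q_le P m₀)) (by rw [map_zero]; exact h2)
    have hall : ∀ n, u.coeff n = 0 := by
      intro n
      have hb : ∀ k, u.coeff.support.sup id < k → u.coeff k = 0 := by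
        intro k hk
        by_contra hne
        have h1 : k ≤ u.coeff.support.sup id :=
          Finset.le_sup (f := id) (Finsupp.mem_support_iff.2 hne)
        omega
      have h1 : u.coeff (max n (u.coeff.support.sup id + 1)) = 0 :=
        hb _ (lt_of_lt_of_le (Nat.lt_succ_self _) (le_max_right _ _))
      have h2 : ∀ j, u.coeff (n + j) = 0 → u.coeff n = 0 := by
        intro j
        induction j with
        | zero => exact fun h => h
        | succ j ih => exact fun h => ih (hstep _ h)
      obtain ⟨j, hj⟩ := Nat.exists_eq_add_of_le (le_max_left n (u.coeff.support.sup id + 1))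
      rw [hj] at h1
      exact h2 j h1
    apply PolynomialModule.ext
    ext n
    rw [hall n]
    rfl
  · -- surjectivity
    rw [← LinearMap.range_eq_top, eq_top_iff, ← hS, Submodule.span_le]
    intro x hx
    have h1 : x ∈ Q P (m₀ + 1) := Q_mono P (Nat.zero_le _) (Submodule.subset_span hx)
    refine ⟨PolynomialModule.single A 0 ⟨x, h1⟩, ?_⟩
    rw [hp, pow_zero, one_smul]
  · -- exactness
    have hpi : ∀ u, p (i u) = 0 := by
      intro u
      induction u using PolynomialModule.induction_linear with
      | zero => rw [map_zero, map_zero]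
      | add x y hx hy => rw [map_add, map_add, hx, hy, add_zero]
      | single k v =>
        rw [hi, map_sub, hp, hp]
        have e1 : ((T' v : Q P (m₀ + 1)) : M) = (X : A[X]) • (v : M) := rfl
        have e2 : ((ι v : Q P (m₀ + 1)) : M) = (v : M) := rfl
        rw [e1, e2, smul_smul, ← pow_succ, sub_self]
    have main : ∀ n (y : PolynomialModule A (Q P (m₀ + 1))), (∀ k, n < k → y.coeff k = 0) →
        p y = 0 → ∃ u, i u = y := by
      intro n
      induction n with
      | zero =>
        intro y hy hpy
        have e1 : y = PolynomialModule.single A 0 (y.coeff 0) := by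
          apply PolynomialModule.ext
          ext k
          rw [PolynomialModule.coeff_single, Finsupp.single_apply]
          by_cases hk : 0 = k
          · rw [if_pos hk, hk]
          · rw [if_neg hk, hy k (by omega)]
        rw [e1, hp, pow_zero, one_smul] at hpy
        have e2 : y.coeff 0 = 0 := Subtype.ext hpy
        refine ⟨0, ?_⟩
        rw [e1, e2, PolynomialModule.single_zero, map_zero]
      | succ n ih =>
        intro y hy hpy
        have hsum : p y = ∑ k ∈ Finset.range (n + 2), (X : A[X]) ^ k • ((y.coeff k : Q P (m₀ + 1)) : M) := by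
          change (y.coeff.sum fun k v => (X : A[X]) ^ k • (Q P (m₀ + 1)).subtype v) = _
          rw [Finsupp.sum_of_support_subset (s := Finset.range (n + 2))]
          · rfl
          · intro k hk
            rw [Finset.mem_range]
            by_contra h1
            exact (Finsupp.mem_support_iff.1 hk) (hy k (by omega))
          · intro k _
            rw [map_zero, smul_zero]
        rw [hpy, Finset.sum_range_succ] at hsum
        have hlow : ∑ k ∈ Finset.range (n + 1), (X : A[X]) ^ k • ((y.coeff k : Q P (m₀ + 1)) : M)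
            ∈ Q P (m₀ + (n + 1)) := by
          refine Submodule.sum_mem _ fun k hk => ?_
          rw [Finset.mem_range] at hk
          exact Q_mono P (by omega) (X_pow_mem P (y.coeff k).2 k)
        have htop : (X : A[X]) ^ (n + 1) • ((y.coeff (n + 1) : Q P (m₀ + 1)) : M) ∈ Q P (m₀ + (n + 1)) := by
          have h1 : (X : A[X]) ^ (n + 1) • ((y.coeff (n + 1) : Q P (m₀ + 1)) : M) =
              -∑ k ∈ Finset.range (n + 1), (X : A[X]) ^ k • ((y.coeff k : Q P (m₀ + 1)) : M) :=
            eq_neg_of_add_eq_zero_right hsum.symm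
          rw [h1]
          exact neg_mem hlow
        have hmem : ((y.coeff (n + 1) : Q P (m₀ + 1)) : M) ∈ Q P m₀ :=
          key' P hm₀ n m₀ le_rfl _ (y.coeff (n + 1)).2 htop
        let v : PolynomialModule A (Q P m₀) := PolynomialModule.single A n ⟨_, hmem⟩
        have hv : ∀ k, v.coeff k = if n = k then ⟨_, hmem⟩ else 0 := fun k => Finsupp.single_apply
        obtain ⟨w, hw⟩ := ih (y + i v) (by
          intro k hk
          obtain ⟨j, rfl⟩ : ∃ j, k = j + 1 := ⟨k - 1, by omega⟩
          rw [PolynomialModule.coeff_add, Finsupp.add_apply, hic, hv, hv, if_neg (by omega), map_zero]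
          by_cases hj : n = j
          · subst hj
            rw [if_pos rfl, zero_sub]
            exact Subtype.ext (by
              change ((y.coeff (n + 1) : Q P (m₀ + 1)) : M) + -((y.coeff (n + 1) : Q P (m₀ + 1)) : M) = 0
              rw [add_neg_cancel])
          · rw [if_neg hj, map_zero, sub_zero, add_zero]
            exact hy _ (by omega)) (by rw [map_add, hpy, hpi, add_zero])
        refine ⟨w - v, ?_⟩
        rw [map_sub, hw, add_sub_cancel_right]
    intro y
    constructor
    · intro hy
      obtain ⟨u, hu⟩ := main (y.coeff.support.sup id) y (by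
        intro k hk
        by_contra hne
        have h1 : k ≤ y.coeff.support.sup id :=
          Finset.le_sup (f := id) (Finsupp.mem_support_iff.2 hne)
        omega) hy
      exact ⟨u, hu⟩
    · rintro ⟨u, rfl⟩
      exact hpi u

end Pool.Agent.FY
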