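import Pool.Agent.Lib.MP_b53bfe_ag.Spec
import Pool.Agent.Lib.MP_b53bfe_ag.Bas

/-!
# Theorem T1 (MP_b53bfe_ag), module J1: `th (L + β L) = th L`
-/

set_option autoImplicit false

noncomputable section

namespace Pool.Agent.FY

open Polynomial

namespace J1_aux

variable {W : Type} [CommRing W] {f g : W} {I : Set W} {V : Type 1} [AddCommGroup V] {M : Type} [AddCommGroup M]
  [Module W M] {β : M ≃ₗ[W] M}

theorem of_surj (χ : AFun W I V) {A B : Type} [AddCommGroup A] [Module W A] [AddCommGroup B] [Module W B]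
    (φ : A →ₗ[W] B) (hφ : Function.Surjective φ) (N : Submodule W A) (hN : ∀ a, φ a = 0 ↔ a ∈ N)
    (hf : Module.Finite W B) (hk : Kil I B) : χ.f (A ⧸ N) = χ.f B := by
  have h : LinearMap.ker φ = N := by
    ext a
    rw [LinearMap.mem_ker]
    exact hN a
  subst h
  exact (χ.iso (LinearMap.quotKerEquivOfSurjective φ hφ).symm hf hk).symm

/-- the quotient `L⁺ / L` -/
abbrev Qt (β : M ≃ₗ[W] M) (L : Submodule W M) : Type := ↥(pl β L) ⧸ L.submoduleOf (pl β L)

theorem Qt_g (hR : Rel f g β) (L : Submodule W M) (q : Qt β L) : g • q = 0 := by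
  obtain ⟨z, rfl⟩ := Submodule.mkQ_surjective _ q
  rw [← map_smul, Submodule.mkQ_apply, Submodule.Quotient.mk_eq_zero]
  exact mg_pl_le hR L ⟨(z : M), z.2, rfl⟩

/-- first module of `ix` -/
theorem first (hR : Rel f g β) (L : Submodule W M) {I₀ : Set W} (χ : AFun W ({f, g} ∪ I₀) V) (h0 : Kil I₀ M)
    (hL : L.FG) :
    χ.f (↥(pl β L) ⧸ (L ⊔ (pl β (pl β L)).map (mg M g)).submoduleOf (pl β L)) =
      χ.f (Qt β L ⧸ LinearMap.range (mg (Qt β L) f)) := by
  have f1 : Module.Finite W ↥(pl β L) := Module.Finite.of_fg (pl_fg hL)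
  refine of_surj χ (Submodule.mkQ _ ∘ₗ Submodule.mkQ _)
    ((Submodule.mkQ_surjective _).comp (Submodule.mkQ_surjective _)) _ (fun a => ?_) inferInstance ?_
  · rw [LinearMap.comp_apply, Submodule.mkQ_apply, Submodule.mkQ_apply, Submodule.Quotient.mk_eq_zero]
    constructor
    · rintro ⟨z, hz⟩
      obtain ⟨z, rfl⟩ := Submodule.mkQ_surjective _ z
      rw [mg_apply, ← map_smul, Submodule.mkQ_apply, Submodule.Quotient.eq] at hz
      have h1 : f • (z : M) - (a : M) ∈ L := hz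
      change (a : M) ∈ L ⊔ (pl β (pl β L)).map (mg M g)
      have e : (a : M) = -(f • (z : M) - (a : M)) + mg M g (-(β (z : M))) := by
        rw [mg_apply, smul_neg, hR.apply']
        abel
      rw [e]
      refine Submodule.add_mem_sup (neg_mem h1) (Submodule.mem_map.2 ⟨_, ?_, rfl⟩)
      exact neg_mem (map_le_pl β _ ⟨(z : M), z.2, rfl⟩)
    · intro h
      obtain ⟨x, hx, y, hy, hxy⟩ := Submodule.mem_sup.1
        (show (a : M) ∈ L ⊔ (pl β (pl β L)).map (mg M g) from h)
      obtain ⟨w, hw, rfl⟩ := Submodule.mem_map.1 hy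
      obtain ⟨u, hu, z, hz, rfl⟩ := mem_pl.1 hw
      have hgu : g • u ∈ L := mg_pl_le hR L ⟨u, hu, rfl⟩
      refine ⟨Submodule.Quotient.mk (-⟨z, hz⟩), ?_⟩
      rw [mg_apply, ← Submodule.Quotient.mk_smul, Submodule.Quotient.eq]
      change f • (-z) - (a : M) ∈ L
      rw [← hxy, mg_apply, smul_add, hR.apply']
      have e : f • (-z) - (x + (g • u + -(f • z))) = -(x + g • u) := by
        rw [smul_neg]
        abel
      rw [e]
      exact neg_mem (add_mem hx hgu)
  · refine Kil.pair.2 ⟨fun a => ?_, fun a => ?_, ?_⟩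
    · obtain ⟨b, rfl⟩ := Submodule.mkQ_surjective _ a
      rw [← map_smul, Submodule.mkQ_apply, Submodule.Quotient.mk_eq_zero]
      exact ⟨b, rfl⟩
    · obtain ⟨b, rfl⟩ := Submodule.mkQ_surjective _ a
      rw [← map_smul, Qt_g hR L b, map_zero]
    · exact ((h0.sub _).quot _).quot _

/-- second module of `ix` -/
theorem second [IsNoetherianRing W] (hR : Rel f g β) (L : Submodule W M) {I₀ : Set W}
    (χ : AFun W ({f, g} ∪ I₀) V) (h0 : Kil I₀ M) (hL : L.FG) (hG : ∀ x ∈ pl β L, β x ∈ pl β L → x ∈ L) :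
    χ.f (↥(pl β (pl β L) ⊓ L.comap (mg M g)) ⧸
        (pl β L).submoduleOf (pl β (pl β L) ⊓ L.comap (mg M g))) =
      χ.f (LinearMap.ker (mg (Qt β L) f)) := by
  have f1 : Module.Finite W ↥(pl β L) := Module.Finite.of_fg (pl_fg hL)
  have f2 : Module.Finite W ↥(pl β (pl β L)) := Module.Finite.of_fg (pl_fg (pl_fg hL))
  have f3 : Module.Finite W ↥(pl β (pl β L) ⊓ L.comap (mg M g)) :=
    Module.Finite.of_fg (isNoetherian_submodule.1 inferInstance _ inf_le_left)
  obtain ⟨K, hK⟩ : ∃ K : Submodule W M, K = pl β L ⊓ L.comap (mg M f) := ⟨_, rfl⟩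
  have hK1 : ∀ x : ↥K, (x : M) ∈ pl β L := fun x => (show (x : M) ∈ pl β L ⊓ L.comap (mg M f) from hK ▸ x.2).1
  have hK2 : ∀ x : ↥K, f • (x : M) ∈ L := fun x => (show (x : M) ∈ pl β L ⊓ L.comap (mg M f) from hK ▸ x.2).2
  have hK3 : ∀ x : M, x ∈ pl β L → f • x ∈ L → x ∈ K := by
    intro x h1 h2
    rw [hK]
    exact ⟨h1, h2⟩
  have e1 : χ.f (↥K ⧸ L.submoduleOf K) = χ.f (↥(pl β (pl β L) ⊓ L.comap (mg M g)) ⧸
        (pl β L).submoduleOf (pl β (pl β L) ⊓ L.comap (mg M g))) := by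
    refine of_surj χ (Submodule.mkQ _ ∘ₗ LinearMap.codRestrict (pl β (pl β L) ⊓ L.comap (mg M g))
      (β.toLinearMap ∘ₗ K.subtype) fun x => ?_) ?_ _ (fun x => ?_) inferInstance ?_
    · refine ⟨map_le_pl β _ ⟨(x : M), hK1 x, rfl⟩, ?_⟩
      change g • β (x : M) ∈ L
      rw [hR.apply']
      exact neg_mem (hK2 x)
    · intro q
      obtain ⟨w, rfl⟩ := Submodule.mkQ_surjective _ q
      obtain ⟨w, hw1, hw2⟩ := w
      obtain ⟨u, hu, z, hz, rfl⟩ := mem_pl.1 hw1
      have hw3 : g • (u + β z) ∈ L := hw2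
      rw [smul_add, hR.apply'] at hw3
      have hgu : g • u ∈ L := mg_pl_le hR L ⟨u, hu, rfl⟩
      have hfz : f • z ∈ L := by
        have e : f • z = g • u - (g • u + -(f • z)) := by abel
        rw [e]
        exact sub_mem hgu hw3
      refine ⟨⟨z, hK3 z hz hfz⟩, ?_⟩
      rw [LinearMap.comp_apply, Submodule.mkQ_apply, Submodule.mkQ_apply, Submodule.Quotient.eq]
      change β z - (u + β z) ∈ pl β L
      have e : β z - (u + β z) = -u := by abel
      rw [e]
      exact neg_mem hu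
    · rw [LinearMap.comp_apply, Submodule.mkQ_apply, Submodule.Quotient.mk_eq_zero]
      constructor
      · intro h
        exact hG (x : M) (hK1 x) h
      · intro h
        exact map_le_pl β L ⟨(x : M), h, rfl⟩
    · refine Kil.pair.2 ⟨fun a => ?_, fun a => ?_, ?_⟩
      · obtain ⟨b, rfl⟩ := Submodule.mkQ_surjective _ a
        rw [← map_smul, Submodule.mkQ_apply, Submodule.Quotient.mk_eq_zero]
        change f • (b : M) ∈ pl β L
        have h1 : g • (b : M) ∈ L := b.2.2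
        have h2 : f • (b : M) = -(β (g • (b : M))) := by rw [hR.apply, neg_neg]
        rw [h2]
        exact neg_mem (map_le_pl β L ⟨_, h1, rfl⟩)
      · obtain ⟨b, rfl⟩ := Submodule.mkQ_surjective _ a
        rw [← map_smul, Submodule.mkQ_apply, Submodule.Quotient.mk_eq_zero]
        exact le_pl β L b.2.2
      · exact (h0.sub _).quot _
  have e2 : χ.f (↥K ⧸ L.submoduleOf K) = χ.f (LinearMap.ker (mg (Qt β L) f)) := by
    refine of_surj χ (LinearMap.codRestrict (LinearMap.ker (mg (Qt β L) f))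
      (Submodule.mkQ _ ∘ₗ LinearMap.codRestrict (pl β L) K.subtype hK1) fun x => ?_) ?_ _ (fun x => ?_)
      inferInstance ?_
    · rw [LinearMap.mem_ker, mg_apply, LinearMap.comp_apply, ← map_smul, Submodule.mkQ_apply,
        Submodule.Quotient.mk_eq_zero]
      exact hK2 x
    · rintro ⟨q, hq⟩
      obtain ⟨z, rfl⟩ := Submodule.mkQ_surjective _ q
      rw [LinearMap.mem_ker, mg_apply, ← map_smul, Submodule.mkQ_apply,
        Submodule.Quotient.mk_eq_zero] at hq
      have h1 : f • (z : M) ∈ L := hq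
      exact ⟨⟨(z : M), hK3 _ z.2 h1⟩, rfl⟩
    · constructor
      · intro h
        have h1 := congrArg (fun w : LinearMap.ker (mg (Qt β L) f) => (w : Qt β L)) h
        exact (Submodule.Quotient.mk_eq_zero (L.submoduleOf (pl β L))).1 h1
      · intro h
        apply Subtype.ext
        exact (Submodule.Quotient.mk_eq_zero (L.submoduleOf (pl β L))).2 h
    · refine Kil.pair.2 ⟨fun a => ?_, fun a => ?_, ?_⟩
      · exact Subtype.ext (LinearMap.mem_ker.1 a.2)
      · exact Subtype.ext (Qt_g hR L a)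
      · exact ((h0.sub _).quot _).sub _
  rw [← e1, e2]

end J1_aux

open J1_aux

theorem tJ1 : S_JI → S_J1 := by
  intro hJI W _ _ f g I₀ V _ χ M _ _ β L h0 hR hL hSt hG
  have f1 : Module.Finite W ↥(pl β L) := Module.Finite.of_fg (pl_fg hL)
  rw [hJI W f g I₀ V χ M β L (pl β L) h0 hR (le_pl β L) hL (pl_fg hL)]
  have h1 : χ.f (Qt β L ⧸ LinearMap.range (mg (Qt β L) f)) = χ.f (LinearMap.ker (mg (Qt β L) f)) :=
    hSt (Qt β L) inferInstance ((h0.sub _).quot _) (Qt_g hR L)
  have h2 : ix χ g β L (pl β L) = 0 := by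
    unfold ix
    rw [first hR L χ h0 hL, second hR L χ h0 hL hG, h1, sub_self]
  rw [h2, add_zero]

end Pool.Agent.FY
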