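import Pool.Agent.Lib.MP_b53bfe_ag.Spec
import Pool.Agent.Lib.MP_b53bfe_ag.Bas

/-!
# Theorem T1 (MP_b53bfe_ag), module J2: lattices `L ≤ L' ≤ L + β L` (helper58)
-/

set_option autoImplicit false

noncomputable section

namespace Pool.Agent.FY

open Polynomial

namespace J2_aux

variable {W : Type} [CommRing W] {M : Type} [AddCommGroup M] [Module W M]

theorem isoA {L₁ L₂ N : Submodule W M} (h : W) (hN : ∀ x ∈ L₂, x ∈ N ↔ ∃ y ∈ L₂, x - h • y ∈ L₁) :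
    Nonempty ((L₂ ⧸ N.submoduleOf L₂) ≃ₗ[W]
      ((L₂ ⧸ L₁.submoduleOf L₂) ⧸ LinearMap.range (mg (L₂ ⧸ L₁.submoduleOf L₂) h))) := by
  let φ : L₂ →ₗ[W] ((L₂ ⧸ L₁.submoduleOf L₂) ⧸ LinearMap.range (mg (L₂ ⧸ L₁.submoduleOf L₂) h)) :=
    (LinearMap.range (mg (L₂ ⧸ L₁.submoduleOf L₂) h)).mkQ ∘ₗ (L₁.submoduleOf L₂).mkQ
  have hφ : Function.Surjective φ := (Submodule.mkQ_surjective _).comp (Submodule.mkQ_surjective _)
  have hk : N.submoduleOf L₂ = LinearMap.ker φ := by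
    ext ⟨x, hx⟩
    have e1 : (⟨x, hx⟩ : L₂) ∈ N.submoduleOf L₂ ↔ x ∈ N := Iff.rfl
    have e2 : (⟨x, hx⟩ : L₂) ∈ LinearMap.ker φ ↔
        (L₁.submoduleOf L₂).mkQ ⟨x, hx⟩ ∈ LinearMap.range (mg (L₂ ⧸ L₁.submoduleOf L₂) h) := by
      rw [LinearMap.mem_ker]
      exact Submodule.Quotient.mk_eq_zero _
    rw [e1, e2, hN x hx]
    constructor
    · rintro ⟨y, hy, hxy⟩
      refine ⟨(L₁.submoduleOf L₂).mkQ ⟨y, hy⟩, ?_⟩
      rw [mg_apply, ← map_smul, ← sub_eq_zero, ← map_sub]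
      refine (Submodule.Quotient.mk_eq_zero _).2 ?_
      change h • y - x ∈ L₁
      rw [← neg_sub]
      exact L₁.neg_mem hxy
    · rintro ⟨p, hp⟩
      obtain ⟨⟨y, hy⟩, rfl⟩ := Submodule.mkQ_surjective _ p
      refine ⟨y, hy, ?_⟩
      rw [mg_apply, ← map_smul, ← sub_eq_zero, ← map_sub] at hp
      have h3 := (Submodule.Quotient.mk_eq_zero _).1 hp
      have h4 : h • y - x ∈ L₁ := h3
      rw [← neg_sub]
      exact L₁.neg_mem h4
  exact ⟨(Submodule.quotEquivOfEq _ _ hk).trans (φ.quotKerEquivOfSurjective hφ)⟩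

theorem isoB {L₁ L₂ T E : Submodule W M} (h : W) (γ : M →ₗ[W] M)
    (h1 : ∀ x ∈ L₂, h • x ∈ L₁ → γ x ∈ T) (h2 : ∀ x ∈ L₂, h • x ∈ L₁ → (γ x ∈ E ↔ x ∈ L₁))
    (h3 : ∀ z ∈ T, ∃ x ∈ L₂, h • x ∈ L₁ ∧ z - γ x ∈ E) :
    Nonempty ((T ⧸ E.submoduleOf T) ≃ₗ[W] LinearMap.ker (mg (L₂ ⧸ L₁.submoduleOf L₂) h)) := by
  let S : Submodule W M := L₂ ⊓ L₁.comap (mg M h)
  let a : S →ₗ[W] (T ⧸ E.submoduleOf T) := (E.submoduleOf T).mkQ ∘ₗ
    LinearMap.codRestrict T (γ ∘ₗ S.subtype) (fun x => h1 x.1 x.2.1 x.2.2)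
  let b : S →ₗ[W] LinearMap.ker (mg (L₂ ⧸ L₁.submoduleOf L₂) h) :=
    LinearMap.codRestrict _ ((L₁.submoduleOf L₂).mkQ ∘ₗ (Submodule.inclusion (inf_le_left : S ≤ L₂)))
      (fun x => by
        rw [LinearMap.mem_ker, mg_apply, LinearMap.comp_apply, ← map_smul]
        exact (Submodule.Quotient.mk_eq_zero _).2 x.2.2)
  have ha0 : ∀ x : S, a x = 0 ↔ γ x.1 ∈ E := fun x => Submodule.Quotient.mk_eq_zero _
  have hb0 : ∀ x : S, b x = 0 ↔ x.1 ∈ L₁ := fun x => by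
    rw [← Submodule.coe_eq_zero]
    exact Submodule.Quotient.mk_eq_zero _
  have ha : Function.Surjective a := by
    intro p
    obtain ⟨⟨z, hz⟩, rfl⟩ := Submodule.mkQ_surjective _ p
    obtain ⟨x, hx, hx1, hxz⟩ := h3 z hz
    refine ⟨⟨x, hx, hx1⟩, ?_⟩
    rw [← sub_eq_zero]
    have e : a ⟨x, hx, hx1⟩ - (E.submoduleOf T).mkQ ⟨z, hz⟩ =
        (E.submoduleOf T).mkQ (⟨γ x, h1 x hx hx1⟩ - ⟨z, hz⟩) := by
      rw [map_sub]
      rfl
    rw [e]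
    refine (Submodule.Quotient.mk_eq_zero _).2 ?_
    change γ x - z ∈ E
    rw [← neg_sub]
    exact E.neg_mem hxz
  have hb : Function.Surjective b := by
    rintro ⟨p, hp⟩
    obtain ⟨⟨x, hx⟩, rfl⟩ := Submodule.mkQ_surjective _ p
    rw [LinearMap.mem_ker, mg_apply, ← map_smul] at hp
    have h4 := (Submodule.Quotient.mk_eq_zero _).1 hp
    exact ⟨⟨x, hx, h4⟩, rfl⟩
  have hab : LinearMap.ker a = LinearMap.ker b := by
    ext x
    rw [LinearMap.mem_ker, LinearMap.mem_ker, ha0, hb0]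
    exact h2 x.1 x.2.1 x.2.2
  exact ⟨((a.quotKerEquivOfSurjective ha).symm.trans (Submodule.quotEquivOfEq _ _ hab)).trans
    (b.quotKerEquivOfSurjective hb)⟩

/-- the two modules of `ix` are finite and killed by `f`, `g`, `I₀` -/
theorem fin_kil [IsNoetherianRing W] {f g : W} {I₀ : Set W} {β : M ≃ₗ[W] M} {L₁ L₂ : Submodule W M} (hk : Kil I₀ M)
    (hr : Rel f g β) (h2 : L₂.FG) :
    (Module.Finite W (L₂ ⧸ (L₁ ⊔ (pl β L₂).map (mg M g)).submoduleOf L₂) ∧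
      Kil ({f, g} ∪ I₀) (L₂ ⧸ (L₁ ⊔ (pl β L₂).map (mg M g)).submoduleOf L₂)) ∧
    Module.Finite W (↥(pl β L₂ ⊓ L₁.comap (mg M g)) ⧸ (pl β L₁).submoduleOf (pl β L₂ ⊓ L₁.comap (mg M g))) ∧
      Kil ({f, g} ∪ I₀)
        (↥(pl β L₂ ⊓ L₁.comap (mg M g)) ⧸ (pl β L₁).submoduleOf (pl β L₂ ⊓ L₁.comap (mg M g))) := by
  have f2 : Module.Finite W L₂ := Module.Finite.iff_fg.2 h2
  have hT : (pl β L₂ ⊓ L₁.comap (mg M g)).FG := by
    have f3 : Module.Finite W (pl β L₂) := Module.Finite.iff_fg.2 (pl_fg h2)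
    have f4 : IsNoetherian W (pl β L₂) := isNoetherian_of_isNoetherianRing_of_finite W _
    exact (isNoetherian_submodule.1 f4) _ inf_le_left
  have f5 : Module.Finite W ↥(pl β L₂ ⊓ L₁.comap (mg M g)) := Module.Finite.iff_fg.2 hT
  refine ⟨⟨inferInstance, Kil.pair.2 ⟨?_, ?_, (hk.sub _).quot _⟩⟩, inferInstance,
    Kil.pair.2 ⟨?_, ?_, (hk.sub _).quot _⟩⟩
  · intro p
    obtain ⟨⟨x, hx⟩, rfl⟩ := Submodule.mkQ_surjective _ p
    rw [← map_smul]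
    refine (Submodule.Quotient.mk_eq_zero _).2 ?_
    change f • x ∈ L₁ ⊔ (pl β L₂).map (mg M g)
    refine Submodule.mem_sup_right ⟨-β x, (pl β L₂).neg_mem (map_le_pl β L₂ ⟨x, hx, rfl⟩), ?_⟩
    rw [mg_apply, smul_neg, hr.apply', neg_neg]
  · intro p
    obtain ⟨⟨x, hx⟩, rfl⟩ := Submodule.mkQ_surjective _ p
    rw [← map_smul]
    refine (Submodule.Quotient.mk_eq_zero _).2 ?_
    change g • x ∈ L₁ ⊔ (pl β L₂).map (mg M g)
    exact Submodule.mem_sup_right ⟨x, le_pl β L₂ hx, rfl⟩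
  · intro p
    obtain ⟨⟨z, hz⟩, rfl⟩ := Submodule.mkQ_surjective _ p
    rw [← map_smul]
    refine (Submodule.Quotient.mk_eq_zero _).2 ?_
    change f • z ∈ pl β L₁
    have h3 : f • z = -(β (g • z)) := by rw [hr.apply, neg_neg]
    rw [h3]
    exact (pl β L₁).neg_mem (map_le_pl β L₁ ⟨g • z, hz.2, rfl⟩)
  · intro p
    obtain ⟨⟨z, hz⟩, rfl⟩ := Submodule.mkQ_surjective _ p
    rw [← map_smul]
    refine (Submodule.Quotient.mk_eq_zero _).2 ?_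
    change g • z ∈ pl β L₁
    exact le_pl β L₁ hz.2

end J2_aux

open J2_aux in
theorem tJ2 : S_JI → S_JN → S_J2 := by
  intro hJI hJN W _ _ f g I₀ V _ χ M _ _ β L L' hk hr hL hL' hSt h1 h2
  obtain ⟨m₀, hm₀⟩ := hJN W M β L hL
  refine ⟨m₀, fun m hm => ?_⟩
  have a12 : Lm β L m ≤ Lm β L' m := Lm_mono h1 m
  have a2 : Lm β L' m ≤ pl β (Lm β L m) := by
    rw [← Lm_succ, Lm_succ']
    exact Lm_mono h2 m
  rw [hJI W f g I₀ V χ M β _ _ hk hr a12 (Lm_fg hL m) (Lm_fg hL' m)]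
  have hN := hm₀ m hm
  rw [Lm_succ] at hN
  have hFG : (Lm β L' m).FG := Lm_fg hL' m
  generalize Lm β L m = L₁ at *
  generalize Lm β L' m = L₂ at *
  obtain ⟨⟨fA, kA⟩, fB, kB⟩ := fin_kil (L₁ := L₁) hk hr hFG
  have hg : ∀ x ∈ L₂, g • x ∈ L₁ := fun x hx => mg_pl_le hr L₁ ⟨x, a2 hx, rfl⟩
  obtain ⟨eA⟩ := isoA (L₁ := L₁) (L₂ := L₂) (N := L₁ ⊔ (pl β L₂).map (mg M g)) f (by
    intro x hx
    constructor
    · intro h3
      obtain ⟨y, hy, z, ⟨w, hw, rfl⟩, rfl⟩ := Submodule.mem_sup.1 h3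
      obtain ⟨c, hc, d, hd, rfl⟩ := mem_pl.1 hw
      refine ⟨-d, L₂.neg_mem hd, ?_⟩
      rw [mg_apply, smul_add, hr.apply', smul_neg, sub_neg_eq_add]
      have e : y + (g • c + -(f • d)) + f • d = y + g • c := by abel
      rw [e]
      exact L₁.add_mem hy (hg c hc)
    · rintro ⟨y, hy, hxy⟩
      have e : x = (x - f • y) + f • y := by abel
      rw [e]
      refine Submodule.add_mem _ (Submodule.mem_sup_left hxy) (Submodule.mem_sup_right ⟨-β y, ?_, ?_⟩)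
      · exact (pl β L₂).neg_mem (map_le_pl β L₂ ⟨y, hy, rfl⟩)
      · rw [mg_apply, smul_neg, hr.apply', neg_neg])
  obtain ⟨eB⟩ := isoB (L₁ := L₁) (L₂ := L₂) (T := pl β L₂ ⊓ L₁.comap (mg M g)) (E := pl β L₁) f β.toLinearMap
    (by
      intro x hx hfx
      refine ⟨map_le_pl β L₂ ⟨x, hx, rfl⟩, ?_⟩
      change g • β x ∈ L₁
      rw [hr.apply']
      exact L₁.neg_mem hfx)
    (by
      intro x hx hfx
      exact ⟨fun h3 => hN x (a2 hx) h3, fun h3 => map_le_pl β L₁ ⟨x, h3, rfl⟩⟩)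
    (by
      rintro z ⟨hz1, hz2⟩
      obtain ⟨c, hc, d, hd, rfl⟩ := mem_pl.1 hz1
      refine ⟨d, hd, ?_, ?_⟩
      · have h4 : g • (c + β d) ∈ L₁ := hz2
        rw [smul_add, hr.apply'] at h4
        have e : f • d = g • c - (g • c + -(f • d)) := by abel
        rw [e]
        exact L₁.sub_mem (hg c hc) h4
      · have e : c + β d - β.toLinearMap d = c := by
          change c + β d - β d = c
          abel
        rw [e]
        exact a2 hc)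
  have f2 : Module.Finite W L₂ := Module.Finite.iff_fg.2 hFG
  have hS := hSt (L₂ ⧸ L₁.submoduleOf L₂) inferInstance ((hk.sub _).quot _) (by
    intro q
    obtain ⟨⟨x, hx⟩, rfl⟩ := Submodule.mkQ_surjective _ q
    rw [← map_smul]
    exact (Submodule.Quotient.mk_eq_zero _).2 (hg x hx))
  unfold ix
  rw [χ.iso eA fA kA, χ.iso eB fB kB, hS, sub_self, add_zero]

end Pool.Agent.FY
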