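import Pool.Agent.Lib.MP_b53bfe_ag.Spec
import Pool.Agent.Lib.MP_b53bfe_ag.Bas

/-!
# J4: the value of `th` on the lattices `Lm β L m`, `m` large, does not depend on the generating lattice (helper8)

`mi β L = L + β⁻¹ L`. One has `L ~ mi β L` by `S_J3`, and every finitely generated lattice is contained in `Lm β (Mi β L a) c`.
-/

set_option autoImplicit false

noncomputable section

namespace Pool.Agent.FY

open Polynomial

namespace J4_aux

section

variable {W : Type} [CommRing W] {M : Type} [AddCommGroup M] [Module W M] {β : M ≃ₗ[W] M} {L K : Submodule W M}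

/-- `L + β⁻¹ L` -/
def mi (β : M ≃ₗ[W] M) (L : Submodule W M) : Submodule W M := L ⊔ L.map β.symm.toLinearMap

/-- `L + β⁻¹ L + ... + β ^ (-n) L` -/
def Mi (β : M ≃ₗ[W] M) (L : Submodule W M) (n : ℕ) : Submodule W M := (mi β)^[n] L

theorem Mi_succ (β : M ≃ₗ[W] M) (L : Submodule W M) (n : ℕ) : Mi β L (n + 1) = mi β (Mi β L n) :=
  Function.iterate_succ_apply' _ _ _

theorem le_mi (β : M ≃ₗ[W] M) (L : Submodule W M) : L ≤ mi β L := le_sup_left

theorem Mi_le_succ (β : M ≃ₗ[W] M) (L : Submodule W M) (n : ℕ) : Mi β L n ≤ Mi β L (n + 1) := by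
  rw [Mi_succ]
  exact le_mi _ _

theorem Mi_le (β : M ≃ₗ[W] M) (L : Submodule W M) {m n : ℕ} (h : m ≤ n) : Mi β L m ≤ Mi β L n :=
  monotone_nat_of_le_succ (fun k => Mi_le_succ β L k) h

theorem mi_fg (h : L.FG) : (mi β L).FG := h.sup (h.map _)

theorem Mi_fg (h : L.FG) (n : ℕ) : (Mi β L n).FG := by
  induction n with
  | zero => exact h
  | succ n ih => rw [Mi_succ]; exact mi_fg ih

theorem map_mi_le (β : M ≃ₗ[W] M) (L : Submodule W M) : (mi β L).map β.toLinearMap ≤ pl β L := by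
  rintro _ ⟨x, hx, rfl⟩
  obtain ⟨y, hy, z, ⟨w, hw, rfl⟩, rfl⟩ := Submodule.mem_sup.1 hx
  rw [map_add]
  refine Submodule.add_mem _ (map_le_pl β L ⟨y, hy, rfl⟩) (le_pl β L ?_)
  have : β.toLinearMap (β.symm.toLinearMap w) = w := β.apply_symm_apply w
  rw [this]
  exact hw

theorem symm_mem {b : ℕ} (x : M) (hx : β x ∈ Lm β L b) : x ∈ Lm β (mi β L) b := by
  induction b generalizing x with
  | zero => exact Submodule.mem_sup_right ⟨β x, hx, β.symm_apply_apply x⟩
  | succ b ih =>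
    rw [Lm_succ] at hx ⊢
    obtain ⟨y, hy, z, hz, h⟩ := mem_pl.1 hx
    have h1 : x = β.symm y + z := by
      have := congrArg β.symm h
      rw [β.symm_apply_apply, map_add, β.symm_apply_apply] at this
      exact this
    rw [h1]
    refine Submodule.add_mem _ (le_pl β _ (ih _ ?_)) (le_pl β _ (Lm_mono (le_mi β L) b hz))
    rw [β.apply_symm_apply]
    exact hy

theorem pow_mem {a b : ℕ} (x : M) (hx : (β ^ a) x ∈ Lm β L b) : x ∈ Lm β (Mi β L a) b := by
  induction a generalizing x with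
  | zero => exact hx
  | succ a ih =>
    rw [Mi_succ]
    refine symm_mem x (ih (β x) ?_)
    have h : (β ^ a) (β x) = (β ^ (a + 1)) x := by rw [pow_succ]; rfl
    rw [h]
    exact hx

theorem exists_le (hG : Gen β L) (hK : K.FG) : ∃ k : ℕ, K ≤ Lm β (Mi β L k) k := by
  classical
  have hmono : Monotone fun k => Lm β (Mi β L k) k := fun i j hij =>
    (Lm_mono (Mi_le β L hij) i).trans (Lm_le β _ hij)
  have hk : ∀ x : M, ∃ k : ℕ, x ∈ Lm β (Mi β L k) k := by
    intro x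
    obtain ⟨a, b, hab⟩ := hG x
    refine ⟨max a b, ?_⟩
    have h1 := pow_mem x hab
    exact Lm_le β _ (le_max_right a b) (Lm_mono (Mi_le β L (le_max_left a b)) b h1)
  choose k hk using hk
  obtain ⟨s, hs⟩ := hK
  refine ⟨s.sup k, ?_⟩
  rw [← hs, Submodule.span_le]
  intro x hx
  exact hmono (Finset.le_sup hx) (hk x)

end

section

variable {W : Type} [CommRing W] {I : Set W} {V : Type 1} [AddCommGroup V] {M : Type} [AddCommGroup M] [Module W M]

/-- `th (Lm β L m) = v` for large `m` -/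
def Ev (χ : AFun W I V) (g : W) (β : M ≃ₗ[W] M) (L : Submodule W M) (v : V) : Prop :=
  ∃ m₀ : ℕ, ∀ m ≥ m₀, th χ g β (Lm β L m) = v

variable {χ : AFun W I V} {g : W} {β : M ≃ₗ[W] M} {L L' : Submodule W M} {v : V}

theorem Ev.congr (h : ∃ m₀ : ℕ, ∀ m ≥ m₀, th χ g β (Lm β L' m) = th χ g β (Lm β L m)) :
    Ev χ g β L' v ↔ Ev χ g β L v := by
  obtain ⟨m₀, h⟩ := h
  constructor
  · rintro ⟨m₁, h₁⟩
    refine ⟨max m₀ m₁, fun m hm => ?_⟩
    rw [← h m ((le_max_left _ _).trans hm)]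
    exact h₁ m ((le_max_right _ _).trans hm)
  · rintro ⟨m₁, h₁⟩
    refine ⟨max m₀ m₁, fun m hm => ?_⟩
    rw [h m ((le_max_left _ _).trans hm)]
    exact h₁ m ((le_max_right _ _).trans hm)

theorem Ev.shift (j : ℕ) (h : Ev χ g β L v) : Ev χ g β (Lm β L j) v := by
  obtain ⟨m₀, h⟩ := h
  refine ⟨m₀, fun m hm => ?_⟩
  rw [← Lm_add]
  exact h _ (hm.trans (Nat.le_add_right _ _))

end

end J4_aux

open J4_aux

theorem tJ4 : S_JN → S_J1 → S_J2 → S_J3 → S_J4 := by
  intro hJN hJ1 hJ2 hJ3 W _ _ f g I₀ V _ χ M _ _ β hK hR hgf hfg hL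
  -- the value is eventually constant
  have hconst : ∀ L : Submodule W M, L.FG → ∃ v : V, Ev χ g β L v := by
    intro L hLf
    obtain ⟨m₀, hm₀⟩ := hJN W M β L hLf
    refine ⟨th χ g β (Lm β L m₀), m₀, fun m hm => ?_⟩
    induction m, hm using Nat.le_induction with
    | base => rfl
    | succ m hm ih =>
      rw [← ih, Lm_succ]
      refine hJ1 W f g I₀ V χ M β (Lm β L m) hK hR (Lm_fg hLf m) hgf ?_
      intro x hx hx'
      rw [← Lm_succ] at hx hx'
      exact hm₀ m hm x hx hx'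
  -- one step
  have step2 : ∀ (L L' : Submodule W M), L.FG → L'.FG → L ≤ L' → L' ≤ pl β L → ∀ v : V,
      Ev χ g β L' v ↔ Ev χ g β L v := fun L L' h1 h2 h3 h4 v =>
    Ev.congr (hJ2 W f g I₀ V χ M β L L' hK hR h1 h2 hgf h3 h4)
  have step3 : ∀ (L L' : Submodule W M), L.FG → L'.FG → L ≤ L' → L'.map β.toLinearMap ≤ pl β L → ∀ v : V,
      Ev χ g β L' v ↔ Ev χ g β L v := fun L L' h1 h2 h3 h4 v =>
    Ev.congr (hJ3 W f g I₀ V χ M β L L' hK hR h1 h2 hfg h3 h4)
  -- comparison of `L ≤ L'`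
  have comp : ∀ (L L' : Submodule W M), L.FG → Gen β L → L'.FG → L ≤ L' → ∀ v : V,
      Ev χ g β L v → Ev χ g β L' v := by
    intro L L' hLf hLg hLf' hle v hv
    obtain ⟨k, hk⟩ := exists_le hLg hLf'
    -- `L ~ Mi β L j`
    have h1 : ∀ j : ℕ, Ev χ g β (Mi β L j) v := by
      intro j
      induction j with
      | zero => exact hv
      | succ j ih =>
        rw [Mi_succ]
        exact (step3 _ _ (Mi_fg hLf j) (mi_fg (Mi_fg hLf j)) (le_mi β _) (map_mi_le β _) v).2 ih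
    have h2 : Ev χ g β (Lm β (Mi β L k) k) v := (h1 k).shift k
    -- `L' + Mi β L k` and `L' + Lm β (Mi β L k) j`
    have h3 : ∀ j : ℕ, Ev χ g β (L' ⊔ Lm β (Mi β L k) j) v → Ev χ g β (L' ⊔ Mi β L k) v := by
      intro j
      induction j with
      | zero => exact id
      | succ j ih =>
        intro h
        apply ih
        refine (step2 _ _ (hLf'.sup (Lm_fg (Mi_fg hLf k) j)) (hLf'.sup (Lm_fg (Mi_fg hLf k) (j + 1)))
          (sup_le_sup le_rfl (Lm_le_succ β _ j)) ?_ v).1 h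
        refine sup_le (le_sup_left.trans (le_pl β _)) ?_
        rw [Lm_succ]
        exact pl_mono le_sup_right
    have h4 : Ev χ g β (L' ⊔ Mi β L k) v := by
      apply h3 k
      rwa [sup_eq_right.2 hk]
    have h5 : ∀ j : ℕ, Ev χ g β (L' ⊔ Mi β L j) v → Ev χ g β (L' ⊔ L) v := by
      intro j
      induction j with
      | zero => exact id
      | succ j ih =>
        intro h
        apply ih
        refine (step3 _ _ (hLf'.sup (Mi_fg hLf j)) (hLf'.sup (Mi_fg hLf (j + 1)))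
          (sup_le_sup le_rfl (Mi_le_succ β _ j)) ?_ v).1 h
        rw [Submodule.map_sup]
        refine sup_le ((Submodule.map_mono le_sup_left).trans (map_le_pl β _)) ?_
        rw [Mi_succ]
        exact (map_mi_le β _).trans (pl_mono le_sup_right)
    have h6 := h5 k h4
    rwa [sup_eq_left.2 hle] at h6
  obtain ⟨L₀, hL₀, hG₀⟩ := hL
  obtain ⟨v, hv⟩ := hconst L₀ hL₀
  refine ⟨v, fun L hLf hLg => ?_⟩
  obtain ⟨w, hw⟩ := hconst L hLf
  have h1 := comp L₀ (L₀ ⊔ L) hL₀ hG₀ (hL₀.sup hLf) le_sup_left v hv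
  have h2 := comp L (L₀ ⊔ L) hLf hLg (hL₀.sup hLf) le_sup_right w hw
  have h3 : v = w := by
    obtain ⟨a, ha⟩ := h1
    obtain ⟨b, hb⟩ := h2
    rw [← ha (max a b) (le_max_left _ _), ← hb (max a b) (le_max_right _ _)]
  rw [h3]
  exact hw

end Pool.Agent.FY
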