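import Pool.Agent.Lib.MP_b53bfe_ag.Spec
import Pool.Agent.Lib.MP_b53bfe_ag.Bas

/-!
# `S_J5`: lattices and exact sequences
-/

set_option autoImplicit false

noncomputable section

namespace Pool.Agent.FY

open Polynomial

namespace J5_aux

section

variable {W : Type} [CommRing W] {M : Type} [AddCommGroup M] [Module W M] {f g : W} {β : M ≃ₗ[W] M}

/-- multiplication by `g` from `pl β L` to `L` -/
private def gr (hR : Rel f g β) (L : Submodule W M) : ↥(pl β L) →ₗ[W] ↥L :=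
  ((mg M g).domRestrict (pl β L)).codRestrict L fun x => mg_pl_le hR L ⟨x.1, x.2, rfl⟩

private theorem gr_coe (hR : Rel f g β) (L : Submodule W M) (x : ↥(pl β L)) : (gr hR L x : M) = g • (x : M) := rfl

private theorem kil_ker {I₀ : Set W} (hK : Kil I₀ M) (hR : Rel f g β) (L : Submodule W M) :
    Kil ({f, g} ∪ I₀) (LinearMap.ker (gr hR L)) := by
  have h0 : ∀ x : LinearMap.ker (gr hR L), g • ((x : ↥(pl β L)) : M) = 0 := by
    intro x
    have h := congrArg (fun y : ↥L => (y : M)) (LinearMap.mem_ker.1 x.2)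
    exact h
  rw [Kil.pair]
  refine ⟨fun x => ?_, fun x => ?_, fun r hr x => ?_⟩
  · apply Subtype.ext
    apply Subtype.ext
    show f • ((x : ↥(pl β L)) : M) = 0
    have h1 := hR ((x : ↥(pl β L)) : M)
    rw [h0, map_zero, add_zero] at h1
    exact h1
  · apply Subtype.ext
    apply Subtype.ext
    exact h0 x
  · apply Subtype.ext
    apply Subtype.ext
    exact hK r hr _

private theorem kil_coker {I₀ : Set W} (hK : Kil I₀ M) (hR : Rel f g β) (L : Submodule W M) :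
    Kil ({f, g} ∪ I₀) (↥L ⧸ LinearMap.range (gr hR L)) := by
  rw [Kil.pair]
  refine ⟨fun x => ?_, fun x => ?_, fun r hr x => ?_⟩
  · obtain ⟨y, rfl⟩ := Submodule.Quotient.mk_surjective _ x
    rw [← Submodule.Quotient.mk_smul, Submodule.Quotient.mk_eq_zero]
    refine ⟨-⟨β y, map_le_pl β L ⟨y, y.2, rfl⟩⟩, ?_⟩
    apply Subtype.ext
    rw [gr_coe]
    show g • -(β (y : M)) = f • (y : M)
    rw [smul_neg, hR.apply', neg_neg]
  · obtain ⟨y, rfl⟩ := Submodule.Quotient.mk_surjective _ x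
    rw [← Submodule.Quotient.mk_smul, Submodule.Quotient.mk_eq_zero]
    exact ⟨⟨y, le_pl β L y.2⟩, Subtype.ext rfl⟩
  · obtain ⟨y, rfl⟩ := Submodule.Quotient.mk_surjective _ x
    rw [← Submodule.Quotient.mk_smul]
    have h : r • y = 0 := Subtype.ext (hK r hr _)
    rw [h, Submodule.Quotient.mk_zero]

private theorem th_eq [IsNoetherianRing W] {I₀ : Set W} {V : Type 1} [AddCommGroup V]
    (χ : AFun W ({f, g} ∪ I₀) V) (hK : Kil I₀ M) (hR : Rel f g β) (L : Submodule W M) (hL : L.FG) :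
    th χ g β L = ind χ (gr hR L) := by
  have hfL : Module.Finite W ↥L := Module.Finite.iff_fg.2 hL
  have hfP : Module.Finite W ↥(pl β L) := Module.Finite.iff_fg.2 (pl_fg hL)
  have h1 : ((pl β L).map (mg M g)).submoduleOf L = LinearMap.range (gr hR L) := by
    ext x
    show (x : M) ∈ (pl β L).map (mg M g) ↔ x ∈ LinearMap.range (gr hR L)
    rw [LinearMap.mem_range, Submodule.mem_map]
    constructor
    · rintro ⟨y, hy, hyx⟩
      exact ⟨⟨y, hy⟩, Subtype.ext hyx⟩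
    · rintro ⟨y, hy⟩
      exact ⟨y, y.2, congrArg (fun z : ↥L => (z : M)) hy⟩
  have e1 : χ.f (↥L ⧸ ((pl β L).map (mg M g)).submoduleOf L) = χ.f (↥L ⧸ LinearMap.range (gr hR L)) :=
    (χ.iso (Submodule.quotEquivOfEq _ _ h1.symm) inferInstance (kil_coker hK hR L)).symm
  have e2 : χ.f ↥(pl β L ⊓ LinearMap.ker (mg M g)) = χ.f (LinearMap.ker (gr hR L)) := by
    let e : LinearMap.ker (gr hR L) ≃ₗ[W] ↥(pl β L ⊓ LinearMap.ker (mg M g)) :=
      { toFun := fun x => ⟨((x : ↥(pl β L)) : M), ⟨(x : ↥(pl β L)).2,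
          congrArg (fun y : ↥L => (y : M)) (LinearMap.mem_ker.1 x.2)⟩⟩
        map_add' := fun x y => rfl
        map_smul' := fun r x => rfl
        invFun := fun x => ⟨⟨(x : M), x.2.1⟩, Subtype.ext x.2.2⟩
        left_inv := fun x => rfl
        right_inv := fun x => rfl }
    exact (χ.iso e inferInstance (kil_ker hK hR L)).symm
  unfold th ind
  rw [e1, e2]

private theorem top {L : Submodule W M} (m : ℕ) (x : M) (hx : x ∈ Lm β L (m + 1)) :
    ∃ y ∈ Lm β L m, ∃ z ∈ Lm β L 1, x = y + (β ^ m) z := by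
  induction m generalizing x with
  | zero => exact ⟨0, Submodule.zero_mem _, x, hx, by rw [zero_add]; rfl⟩
  | succ m ih =>
    rw [Lm_succ] at hx
    obtain ⟨u, hu, v, hv, rfl⟩ := mem_pl.1 hx
    obtain ⟨y, hy, z, hz, rfl⟩ := ih v hv
    refine ⟨u + β y, Submodule.add_mem _ hu ?_, z, hz, ?_⟩
    · exact map_Lm_le β L m ⟨y, hy, rfl⟩
    · have h : (β ^ (m + 1)) z = β ((β ^ m) z) := by
        rw [pow_succ']
        rfl
      rw [h, map_add, add_assoc]

end

section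

variable {W : Type} [CommRing W] {A B C : Type} [AddCommGroup A] [Module W A] [AddCommGroup B] [Module W B]
  [AddCommGroup C] [Module W C] {α : A ≃ₗ[W] A} {β : B ≃ₗ[W] B} {γ : C ≃ₗ[W] C} {i : A →ₗ[W] B} {p : B →ₗ[W] C}

private theorem seq (hi : Function.Injective i) (he : Function.Exact i p)
    (NA : Submodule W A) (N : Submodule W B) (NC : Submodule W C) (hA : NA = N.comap i) (hC : NC = N.map p) :
    ∃ (j : ↥NA →ₗ[W] ↥N) (q : ↥N →ₗ[W] ↥NC), (∀ x, (j x : B) = i x) ∧ (∀ x, (q x : C) = p x) ∧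
      Function.Injective j ∧ Function.Surjective q ∧ Function.Exact j q := by
  subst hA hC
  refine ⟨i.restrict (p := N.comap i) (q := N) fun x hx => hx, p.restrict fun x hx => ⟨x, hx, rfl⟩,
    fun x => rfl, fun x => rfl, ?_, ?_, ?_⟩
  · intro x y h
    exact Subtype.ext (hi (congrArg (fun z : ↥N => (z : B)) h))
  · rintro ⟨_, x, hx, rfl⟩
    exact ⟨⟨x, hx⟩, rfl⟩
  · intro x
    constructor
    · intro h
      obtain ⟨a, ha⟩ := (he (x : B)).1 (congrArg (fun z : ↥(N.map p) => (z : C)) h)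
      exact ⟨⟨a, show i a ∈ N by rw [ha]; exact x.2⟩, Subtype.ext ha⟩
    · rintro ⟨a, rfl⟩
      exact Subtype.ext ((he _).2 ⟨(a : A), rfl⟩)

private theorem pow_comm (hc : ∀ a, i (α a) = β (i a)) (n : ℕ) (a : A) : i ((α ^ n) a) = (β ^ n) (i a) := by
  induction n with
  | zero => rfl
  | succ n ih =>
    have h1 : (α ^ (n + 1)) a = α ((α ^ n) a) := by
      rw [pow_succ']
      rfl
    have h2 : (β ^ (n + 1)) (i a) = β ((β ^ n) (i a)) := by
      rw [pow_succ']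
      rfl
    rw [h1, hc, ih, h2]

private theorem map_pl (hc : ∀ b, p (β b) = γ (p b)) (N : Submodule W B) : (pl β N).map p = pl γ (N.map p) := by
  ext c
  rw [Submodule.mem_map, mem_pl]
  constructor
  · rintro ⟨x, hx, rfl⟩
    obtain ⟨y, hy, z, hz, rfl⟩ := mem_pl.1 hx
    exact ⟨p y, ⟨y, hy, rfl⟩, p z, ⟨z, hz, rfl⟩, by rw [map_add, hc]⟩
  · rintro ⟨_, ⟨y, hy, rfl⟩, _, ⟨z, hz, rfl⟩, rfl⟩
    exact ⟨y + β z, mem_pl.2 ⟨y, hy, z, hz, rfl⟩, by rw [map_add, hc]⟩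

private theorem map_Lm (hc : ∀ b, p (β b) = γ (p b)) (L : Submodule W B) (m : ℕ) :
    Lm γ (L.map p) m = (Lm β L m).map p := by
  induction m with
  | zero => rfl
  | succ m ih => rw [Lm_succ, Lm_succ, ih, map_pl hc]

private theorem pl_comap_le (hc : ∀ a, i (α a) = β (i a)) (N : Submodule W B) :
    pl α (N.comap i) ≤ (pl β N).comap i := by
  intro a ha
  obtain ⟨y, hy, z, hz, rfl⟩ := mem_pl.1 ha
  show i (y + α z) ∈ pl β N
  rw [map_add, hc]
  exact mem_pl.2 ⟨i y, hy, i z, hz, rfl⟩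

/-- the claim -/
private theorem claim [IsNoetherianRing W] (hc : ∀ a, i (α a) = β (i a)) (L : Submodule W B) (hL : L.FG) :
    ∃ m₁ : ℕ, ∀ m ≥ m₁, (Lm β L (m + 1)).comap i = pl α ((Lm β L m).comap i) := by
  have hN : IsNoetherian W ↥(Lm β L 1) := isNoetherian_of_fg_of_noetherian _ (Lm_fg hL 1)
  -- the increasing sequence
  have hmono : ∀ k, ((LinearMap.range i ⊓ Lm β L (k + 1)) ⊔ Lm β L k).comap (β ^ k).toLinearMap ≤
      ((LinearMap.range i ⊓ Lm β L (k + 2)) ⊔ Lm β L (k + 1)).comap (β ^ (k + 1)).toLinearMap := by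
    intro k x hx
    obtain ⟨q, ⟨⟨a, rfl⟩, hq⟩, l, hl, hql⟩ := Submodule.mem_sup.1 (Submodule.mem_comap.1 hx)
    have h1 : (β ^ (k + 1)) x = β ((β ^ k) x) := by
      rw [pow_succ']
      rfl
    have h2 : (β ^ k) x = i a + l := hql.symm
    rw [Submodule.mem_comap]
    show (β ^ (k + 1)) x ∈ _
    rw [h1, h2, map_add]
    refine Submodule.add_mem_sup ⟨⟨α a, hc a⟩, ?_⟩ ?_
    · exact map_Lm_le β L (k + 1) ⟨_, hq, rfl⟩
    · exact map_Lm_le β L k ⟨_, hl, rfl⟩
  let D : ℕ →o Submodule W ↥(Lm β L 1) :=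
    ⟨fun k => (((LinearMap.range i ⊓ Lm β L (k + 1)) ⊔ Lm β L k).comap (β ^ k).toLinearMap).submoduleOf
      (Lm β L 1), monotone_nat_of_le_succ fun k x hx => hmono k hx⟩
  obtain ⟨k₁, hk₁⟩ := monotone_stabilizes_iff_noetherian.2 hN D
  refine ⟨k₁ + 1, fun m hm => le_antisymm ?_ ?_⟩
  · obtain ⟨k, rfl⟩ : ∃ k, m = k + 1 := ⟨m - 1, by omega⟩
    have hk : k₁ ≤ k := by omega
    intro z hz
    obtain ⟨l, hl, x, hx, hzx⟩ := top (k + 1) (i z) hz
    have hxD : (⟨x, hx⟩ : ↥(Lm β L 1)) ∈ D (k + 1) := by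
      show (β ^ (k + 1)) x ∈ (LinearMap.range i ⊓ Lm β L (k + 2)) ⊔ Lm β L (k + 1)
      have h1 : (β ^ (k + 1)) x = i z + -l := by
        rw [hzx]
        abel
      rw [h1]
      exact Submodule.add_mem_sup ⟨⟨z, rfl⟩, hz⟩ (Submodule.neg_mem _ hl)
    have hD : D (k + 1) = D k := by rw [← hk₁ (k + 1) (by omega), ← hk₁ k hk]
    rw [hD] at hxD
    obtain ⟨q, ⟨⟨a, rfl⟩, hq⟩, l', hl', hql⟩ := Submodule.mem_sup.1
      (show (β ^ k) x ∈ (LinearMap.range i ⊓ Lm β L (k + 1)) ⊔ Lm β L k from hxD)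
    have h1 : (β ^ (k + 1)) x = β ((β ^ k) x) := by
      rw [pow_succ']
      rfl
    rw [mem_pl]
    refine ⟨z - α a, ?_, a, hq, by abel⟩
    show i (z - α a) ∈ Lm β L (k + 1)
    have h2 : i (z - α a) = l + β l' := by
      rw [map_sub, hc, hzx, h1, ← hql, map_add]
      abel
    rw [h2]
    exact Submodule.add_mem _ hl (map_Lm_le β L k ⟨_, hl', rfl⟩)
  · rw [Lm_succ]
    exact pl_comap_le hc _

end

end J5_aux

open J5_aux in
theorem tJ5 : S_Sn → S_JN → S_J5 := by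
  intro hSn _ W _ _ f g I₀ V _ χ A B C _ _ _ _ _ _ α β γ i p hK hR hci hcp hi hp he L hL hG
  obtain ⟨m₁, hm₁⟩ := claim (α := α) (β := β) (i := i) hci L hL
  have hRA : Rel f g α := fun a => hi (by rw [map_add, hci, map_smul, map_smul, map_zero]; exact hR (i a))
  have hRC : Rel f g γ := by
    intro c
    obtain ⟨b, rfl⟩ := hp c
    rw [← map_smul, ← map_smul, ← hcp, ← map_add, hR b, map_zero]
  have hKA : Kil I₀ A := Kil.inj hi hK
  have hKC : Kil I₀ C := Kil.surj hp hK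
  have hLA : ∀ m, Lm α ((Lm β L m₁).comap i) m = (Lm β L (m₁ + m)).comap i := by
    intro m
    induction m with
    | zero => rfl
    | succ m ih => rw [Lm_succ, ih, ← hm₁ (m₁ + m) (Nat.le_add_right _ _), add_assoc]
  have hFA : ((Lm β L m₁).comap i).FG := by
    have hN : IsNoetherian W ↥(Lm β L m₁) := isNoetherian_of_fg_of_noetherian _ (Lm_fg hL m₁)
    refine Submodule.fg_of_fg_map_injective i hi ?_
    exact isNoetherian_submodule.1 hN _ (Submodule.map_comap_le _ _)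
  refine ⟨m₁, (Lm β L m₁).comap i, L.map p, hFA, ?_, hL.map p, ?_, ?_⟩
  · intro a
    obtain ⟨s, t, hst⟩ := hG (i a)
    refine ⟨s, t, ?_⟩
    rw [hLA t]
    show i ((α ^ s) a) ∈ Lm β L (m₁ + t)
    rw [pow_comm hci]
    exact Lm_le β L (Nat.le_add_left _ _) hst
  · intro c
    obtain ⟨b, rfl⟩ := hp c
    obtain ⟨s, t, hst⟩ := hG b
    refine ⟨s, t, ?_⟩
    rw [map_Lm hcp, ← pow_comm hcp]
    exact ⟨_, hst, rfl⟩
  · intro m
    have hA : Lm α ((Lm β L m₁).comap i) m = (Lm β L (m₁ + m)).comap i := hLA m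
    have hA' : pl α (Lm α ((Lm β L m₁).comap i) m) = (pl β (Lm β L (m₁ + m))).comap i := by
      rw [hA, ← hm₁ (m₁ + m) (Nat.le_add_right _ _), Lm_succ]
    have hC : Lm γ (L.map p) (m₁ + m) = (Lm β L (m₁ + m)).map p := map_Lm hcp L _
    have hC' : pl γ (Lm γ (L.map p) (m₁ + m)) = (pl β (Lm β L (m₁ + m))).map p := by
      rw [hC, map_pl hcp]
    obtain ⟨j, q, hj, hq, hji, hqs, hjq⟩ := seq (p := p) hi he _ _ _ hA' hC'
    obtain ⟨j', q', hj', hq', hji', hqs', hjq'⟩ := seq (p := p) hi he _ _ _ hA hC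
    have hFB := Lm_fg (β := β) hL (m₁ + m)
    rw [th_eq χ hK hR _ hFB, th_eq χ hKA hRA _ (Lm_fg hFA m), th_eq χ hKC hRC _ (Lm_fg (hL.map p) _)]
    refine hSn W ({f, g} ∪ I₀) V χ _ _ _ _ _ _ j q j' q' (gr hRA _) (gr hR _) (gr hRC _)
      (Module.Finite.iff_fg.2 (pl_fg hFB)) (Module.Finite.iff_fg.2 hFB) hji hqs hjq hji' hqs' hjq' ?_ ?_
      (kil_ker hKA hRA _) (kil_coker hKA hRA _) (kil_ker hK hR _) (kil_coker hK hR _)
      (kil_ker hKC hRC _) (kil_coker hKC hRC _)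
    · intro x
      apply Subtype.ext
      rw [hj', gr_coe, gr_coe, hj, map_smul]
    · intro x
      apply Subtype.ext
      rw [hq', gr_coe, gr_coe, hq, map_smul]

end Pool.Agent.FY
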