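import Pool.Agent.Lib.MP_b53bfe_ag.Spec
import Pool.Agent.Lib.MP_b53bfe_ag.Bas

/-!
# `S_JN`: noetherian stabilisation of lattices
-/

set_option autoImplicit false

noncomputable section

namespace Pool.Agent.FY

open Polynomial

namespace JN_aux

variable {W : Type} [CommRing W] {M : Type} [AddCommGroup M] [Module W M] {β : M ≃ₗ[W] M}

private theorem pow_succ_apply (n : ℕ) (x : M) : (β ^ (n + 1)) x = β ((β ^ n) x) := by
  rw [pow_succ']
  rfl

private theorem top {L : Submodule W M} (m : ℕ) (x : M) (hx : x ∈ Lm β L (m + 1)) :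
    ∃ y ∈ Lm β L m, ∃ z ∈ Lm β L 1, x = y + (β ^ m) z := by
  induction m generalizing x with
  | zero => exact ⟨0, Submodule.zero_mem _, x, hx, by rw [zero_add]; rfl⟩
  | succ m ih =>
    rw [Lm_succ] at hx
    obtain ⟨u, hu, v, hv, rfl⟩ := mem_pl.1 hx
    obtain ⟨y, hy, z, hz, rfl⟩ := ih v hv
    refine ⟨u + β y, Submodule.add_mem _ hu ?_, z, hz, ?_⟩
    · exact map_Lm_le β L m ⟨y, hy, rfl⟩
    · rw [pow_succ_apply, map_add, add_assoc]

end JN_aux

open JN_aux in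
theorem tJN : S_JN := by
  intro W _ _ M _ _ β L hL
  have hN : IsNoetherian W ↥(Lm β L 1) := isNoetherian_of_fg_of_noetherian _ (Lm_fg hL 1)
  have hmono : ∀ k, (Lm β L k).comap (β ^ k).toLinearMap ≤ (Lm β L (k + 1)).comap (β ^ (k + 1)).toLinearMap := by
    intro k x hx
    rw [Submodule.mem_comap]
    show (β ^ (k + 1)) x ∈ _
    rw [pow_succ_apply]
    exact map_Lm_le β L k ⟨_, hx, rfl⟩
  let D : ℕ →o Submodule W ↥(Lm β L 1) :=
    ⟨fun k => ((Lm β L k).comap (β ^ k).toLinearMap).submoduleOf (Lm β L 1),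
      monotone_nat_of_le_succ fun k x hx => hmono k hx⟩
  obtain ⟨m₀, hm₀⟩ := monotone_stabilizes_iff_noetherian.2 hN D
  refine ⟨m₀, fun m hm x hx hβx => ?_⟩
  obtain ⟨y, hy, z, hz, rfl⟩ := top m x hx
  have h1 : (⟨z, hz⟩ : ↥(Lm β L 1)) ∈ D (m + 1) := by
    show (β ^ (m + 1)) z ∈ Lm β L (m + 1)
    rw [pow_succ_apply]
    have h2 : β ((β ^ m) z) = β (y + (β ^ m) z) - β y := by
      rw [map_add]
      abel
    rw [h2]
    exact Submodule.sub_mem _ hβx (map_Lm_le β L m ⟨_, hy, rfl⟩)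
  have hD : D (m + 1) = D m := by rw [← hm₀ (m + 1) (by omega), ← hm₀ m hm]
  rw [hD] at h1
  exact Submodule.add_mem _ hy h1

end Pool.Agent.FY
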