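import Pool.Agent.Lib.MP_b53bfe_ag.Spec

/-!
# Lemma J: construction of `Ψ` (theorem T1 for MP_b53bfe_ag)
-/

set_option autoImplicit false

noncomputable section

namespace Pool.Agent.FY

open Polynomial

namespace Jx_aux

variable {W : Type} [CommRing W] {f g : W} {I₀ : Set W}

theorem kilA {A B : Type} [AddCommGroup A] [Module W A] [AddCommGroup B] [Module W B] {i : A →ₗ[W] B}
    (hi : Function.Injective i) (hB : Kil I₀ B) : Kil I₀ A := by
  intro r hr a
  apply hi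
  rw [map_smul, hB r hr, map_zero]

theorem kilC {B C : Type} [AddCommGroup B] [Module W B] [AddCommGroup C] [Module W C] {p : B →ₗ[W] C}
    (hp : Function.Surjective p) (hB : Kil I₀ B) : Kil I₀ C := by
  intro r hr c
  obtain ⟨b, rfl⟩ := hp c
  rw [← map_smul, hB r hr, map_zero]

theorem relA {A B : Type} [AddCommGroup A] [Module W A] [AddCommGroup B] [Module W B] {α : A ≃ₗ[W] A}
    {β : B ≃ₗ[W] B} {i : A →ₗ[W] B} (hi : Function.Injective i) (h : ∀ a, i (α a) = β (i a))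
    (hB : Rel f g β) : Rel f g α := by
  intro a
  apply hi
  rw [map_add, map_zero, map_smul, h, map_smul]
  exact hB (i a)

theorem relC {B C : Type} [AddCommGroup B] [Module W B] [AddCommGroup C] [Module W C] {β : B ≃ₗ[W] B}
    {γ : C ≃ₗ[W] C} {p : B →ₗ[W] C} (hp : Function.Surjective p) (h : ∀ b, p (β b) = γ (p b))
    (hB : Rel f g β) : Rel f g γ := by
  intro c
  obtain ⟨b, rfl⟩ := hp c
  have h1 := congrArg p (hB b)
  rw [map_add, map_zero, map_smul, h, map_smul] at h1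
  exact h1

end Jx_aux

open Jx_aux

theorem tJx : S_J4 → S_J5 → S_Jx := by
  classical
  intro h4 h5 W _ _ f g I₀ V _ χ hgf hfg
  -- the values
  have key : ∀ (M : Type) [AddCommGroup M] [Module W M] (β : M ≃ₗ[W] M),
      Kil I₀ M ∧ Rel f g β ∧ LFin β → ∃ v : V, ∀ L : Submodule W M, L.FG → Gen β L →
        ∃ m₀ : ℕ, ∀ m ≥ m₀, th χ g β (Lm β L m) = v := by
    intro M _ _ β h
    exact h4 W f g I₀ V χ M β h.1 h.2.1 hgf hfg h.2.2
  let F : (M : Type) → [AddCommGroup M] → [Module W M] → (M ≃ₗ[W] M) → V :=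
    fun M _ _ β => if h : Kil I₀ M ∧ Rel f g β ∧ LFin β then Classical.choose (key M β h) else 0
  have hF : ∀ (M : Type) [AddCommGroup M] [Module W M] (β : M ≃ₗ[W] M),
      Kil I₀ M → Rel f g β → ∀ L : Submodule W M, L.FG → Gen β L →
        ∃ m₀ : ℕ, ∀ m ≥ m₀, F M β = th χ g β (Lm β L m) := by
    intro M _ _ β hk hr L hL hG
    have hc : Kil I₀ M ∧ Rel f g β ∧ LFin β := ⟨hk, hr, ⟨L, hL, hG⟩⟩
    have e : F M β = Classical.choose (key M β hc) := dif_pos hc
    obtain ⟨m₀, hm⟩ := Classical.choose_spec (key M β hc) L hL hG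
    refine ⟨m₀, fun m hmm => ?_⟩
    rw [e, hm m hmm]
  refine ⟨⟨F, ?_⟩, ?_⟩
  · intro A B C _ _ _ _ _ _ α β γ i p hLF hk hr hi hp hinj hsur hex
    obtain ⟨L, hL, hG⟩ := hLF
    obtain ⟨m₁, LA, LC, hLA, hGA, hLC, hGC, hth⟩ := h5 W f g I₀ V χ A B C α β γ i p hk hr hi hp hinj
      hsur hex L hL hG
    obtain ⟨mB, hB⟩ := hF B β hk hr L hL hG
    obtain ⟨mA, hA⟩ := hF A α (kilA hinj hk) (relA hinj hi hr) LA hLA hGA
    obtain ⟨mC, hC⟩ := hF C γ (kilC hsur hk) (relC hsur hp hr) LC hLC hGC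
    have e := hth (mA + mB + mC)
    rw [← hB (m₁ + (mA + mB + mC)) (by omega), ← hA (mA + mB + mC) (by omega),
      ← hC (m₁ + (mA + mB + mC)) (by omega)] at e
    exact e
  · intro M _ _ β hk hr L hL hG
    exact hF M β hk hr L hL hG

end Pool.Agent.FY
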