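import Pool.Agent.Lib.MP_b53bfe_ag.Spec
import Pool.Agent.Lib.MP_b53bfe_ag.Bas

/-!
# Kv: modules killed by a variable
-/

set_option autoImplicit false

noncomputable section

namespace Pool.Agent.FY

open Polynomial

namespace Kv_aux

variable {σ : Type} [DecidableEq σ]

theorem nu_X_ne {i j : σ} (h : j ≠ i) : nu i (MvPolynomial.X j) = C (MvPolynomial.X j) := by
  simp [nu, h]

theorem NI_X_ne {i j : σ} (h : j ≠ i) : NI i (MvPolynomial.X j : Po σ) := nu_X_ne h

theorem gz_C (i : σ) (z a : ℂ) : gz i z (MvPolynomial.C a) = MvPolynomial.C a := by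
  simp [gz]

theorem gz_X_self (i : σ) (z : ℂ) : gz i z (MvPolynomial.X i) = MvPolynomial.C z * MvPolynomial.X i := by
  simp [gz]

theorem gz_X_ne {i j : σ} (h : j ≠ i) (z : ℂ) : gz i z (MvPolynomial.X j) = MvPolynomial.X j := by
  simp [gz, h]

theorem gz_smul {N : Type} [AddCommGroup N] [Module (Po σ) N] (i : σ) (z : ℂ)
    (hN : ∀ n : N, (MvPolynomial.X i : Po σ) • n = 0) (r : Po σ) : ∀ n : N, gz i z r • n = r • n := by
  induction r using MvPolynomial.induction_on with
  | C a => intro n; rw [gz_C]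
  | add p q hp hq => intro n; rw [map_add, add_smul, add_smul, hp, hq]
  | mul_X p k hp =>
    intro n
    rw [map_mul, mul_smul, mul_smul]
    by_cases hk : k = i
    · subst hk
      rw [gz_X_self, mul_smul, hN, smul_zero, smul_zero, smul_zero]
    · rw [gz_X_ne hk, hp]

/-- the twist of a module killed by `X_i` -/
def eqv {N : Type} [AddCommGroup N] [Module (Po σ) N] (i : σ) (z : ℂ)
    (hN : ∀ n : N, (MvPolynomial.X i : Po σ) • n = 0) : N ≃ₗ[Po σ] Res (gz i z) N where
  toFun n := Res.mk (gz i z) n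
  map_add' _ _ := rfl
  map_smul' r n := by
    show Res.mk (gz i z) (r • n) = r • Res.mk (gz i z) n
    rw [Res.smul_mk, gz_smul i z hN]
  invFun n := n.val
  left_inv _ := rfl
  right_inv _ := rfl

end Kv_aux

open Kv_aux in
theorem tKv : S_Tha → S_Ths → S_Hk → S_Kv := by
  intro hTha hThs hHk σ _ _ i j I₀ V _ _ d g' χ hd hij hi hj hI N _ _ hN hk hX
  have hg : NI i (MvPolynomial.X j ^ d + g' : Po σ) := by
    have h1 : nu i (MvPolynomial.X j) = C (MvPolynomial.X j) := nu_X_ne (Ne.symm hij)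
    have h2 : nu i g' = C g' := hi
    show nu i _ = C _
    rw [map_add, map_pow, h1, h2, C_add, C_pow]
  obtain ⟨ψ, hψ⟩ := hTha σ i I₀ V d _ χ hd hg (fun r hr => (hI r hr).1)
  obtain ⟨hk1, hk2⟩ := Kil.insert.1 hk
  have hζ := Complex.isPrimitiveRoot_exp d (by omega)
  have h1 := hThs σ i I₀ V d _ χ _ hd hg (fun r hr => (hI r hr).1) hζ N hN hk
  have h2 : ∀ m ∈ Finset.range d,
      χ.f (Res (gz i (Complex.exp (2 * Real.pi * Complex.I / d) ^ m)) N) = χ.f N := fun m _ =>
    (χ.iso (eqv i _ hX) hN hk).symm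
  rw [Finset.sum_congr rfl h2, Finset.sum_const, Finset.card_range, ← hψ] at h1
  have hk' : Kil (insert (MvPolynomial.X i : Po σ) I₀) N := Kil.insert.2 ⟨hX, hk2⟩
  have h3 : ψ.f N = ψ.f (Res (gz i 0) N) := ψ.iso (eqv i 0 hX) hN hk'
  have h4 : ψ.f N = 0 := by
    refine hHk σ j (insert (MvPolynomial.X i : Po σ) I₀) V ψ d g' N hd hj ?_ hN hk' ?_
    · intro r hr
      rcases hr with rfl | hr
      · exact NI_X_ne hij
      · exact (hI r hr).2
    · intro m
      have h5 := hk1 m
      obtain ⟨e, rfl⟩ : ∃ e, d = e + 1 := ⟨d - 1, by omega⟩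
      rw [add_smul, pow_succ, mul_smul, hX, smul_zero, zero_add] at h5
      exact h5
  rw [← h3, h4] at h1
  have h6 : (d : ℚ) • χ.f N = 0 := by rw [Nat.cast_smul_eq_nsmul]; exact h1
  rcases smul_eq_zero.1 h6 with h | h
  · exfalso
    have : d = 0 := by exact_mod_cast h
    omega
  · exact h

end Pool.Agent.FY
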