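import Pool.Agent.Lib.MP_b53bfe_ag.Spec2

/-!
MP_b53bfe_ag, theorem T1, module La: the function `G` of the localisation.
-/

set_option autoImplicit false

noncomputable section

namespace Pool.Agent.FY

open Polynomial

namespace La_aux

/-- modules killed by `I` and by a power of `u` have the value `0` -/
theorem pow_zero {R : Type} [CommRing R] [IsNoetherianRing R] {I : Set R} {V : Type 1}
    [AddCommGroup V] (χ : AFun R I V) (u : R)
    (hu : ∀ (N : Type) [AddCommGroup N] [Module R N], Module.Finite R N → Kil I N →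
      (∀ x : N, u • x = 0) → χ.f N = 0) (k : ℕ) :
    ∀ (M : Type) [AddCommGroup M] [Module R M], Module.Finite R M → Kil I M →
      (∀ x : M, u ^ k • x = 0) → χ.f M = 0 := by
  induction k with
  | zero =>
    intro M _ _ _ _ h
    apply χ.subsing
    refine ⟨fun a b => ?_⟩
    have ha := h a
    have hb := h b
    rw [_root_.pow_zero, one_smul] at ha hb
    rw [ha, hb]
  | succ k ih =>
    intro M _ _ hM hk h
    have := hM
    rw [χ.sub hM hk (LinearMap.range (mg M u))]
    have h1 : χ.f (LinearMap.range (mg M u)) = 0 := by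
      refine ih _ inferInstance (fun r hr x => Subtype.ext (hk r hr x.1)) ?_
      rintro ⟨_, y, rfl⟩
      apply Subtype.ext
      change u ^ k • (u • y) = 0
      rw [smul_smul, ← pow_succ]
      exact h y
    have h2 : χ.f (M ⧸ LinearMap.range (mg M u)) = 0 := by
      refine hu _ inferInstance (fun r hr x => ?_) (fun x => ?_)
      · obtain ⟨y, rfl⟩ := Submodule.Quotient.mk_surjective _ x
        rw [← Submodule.Quotient.mk_smul, hk r hr y, Submodule.Quotient.mk_zero]
      · obtain ⟨y, rfl⟩ := Submodule.Quotient.mk_surjective _ x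
        rw [← Submodule.Quotient.mk_smul, Submodule.Quotient.mk_eq_zero]
        exact ⟨y, rfl⟩
    rw [h1, h2, add_zero]

/-- comparison of two submodules -/
theorem le_eq {R : Type} [CommRing R] [IsNoetherianRing R] {I : Set R} {V : Type 1}
    [AddCommGroup V] (χ : AFun R I V) (u : R)
    (hu : ∀ (N : Type) [AddCommGroup N] [Module R N], Module.Finite R N → Kil I N →
      (∀ x : N, u • x = 0) → χ.f N = 0)
    (N : Type) [AddCommGroup N] [Module R N] (hN : Kil I N) (N₀ N₁ : Submodule R N) (hle : N₀ ≤ N₁)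
    (hfg : N₁.FG) (hx : ∀ x : N, ∃ k : ℕ, u ^ k • x ∈ N₀) : χ.f N₁ = χ.f N₀ := by
  classical
  have hfin : Module.Finite R N₁ := Module.Finite.iff_fg.2 hfg
  have hk1 : Kil I N₁ := fun r hr x => Subtype.ext (hN r hr x.1)
  rw [χ.sub hfin hk1 (N₀.submoduleOf N₁)]
  have e := Submodule.submoduleOfEquivOfLe hle
  have h1 : χ.f (N₀.submoduleOf N₁) = χ.f N₀ :=
    χ.iso e inferInstance (fun r hr x => Subtype.ext (hk1 r hr x.1))
  obtain ⟨S, hS⟩ := hfg
  choose κ hκ using hx
  have hK : ∀ x ∈ N₁, u ^ (S.sup κ) • x ∈ N₀ := by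
    have h2 : N₁ ≤ N₀.comap (LinearMap.lsmul R N (u ^ (S.sup κ))) := by
      rw [← hS, Submodule.span_le]
      intro s hs
      change u ^ (S.sup κ) • s ∈ N₀
      have h3 : κ s ≤ S.sup κ := Finset.le_sup hs
      obtain ⟨m, hm⟩ := Nat.exists_eq_add_of_le h3
      rw [hm, add_comm, pow_add, mul_smul]
      exact N₀.smul_mem _ (hκ s)
    exact fun x hx => h2 hx
  have h4 : χ.f (N₁ ⧸ N₀.submoduleOf N₁) = 0 := by
    refine pow_zero χ u hu (S.sup κ) _ inferInstance (fun r hr x => ?_) (fun x => ?_)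
    · obtain ⟨y, rfl⟩ := Submodule.Quotient.mk_surjective _ x
      rw [← Submodule.Quotient.mk_smul, hk1 r hr y, Submodule.Quotient.mk_zero]
    · obtain ⟨y, rfl⟩ := Submodule.Quotient.mk_surjective _ x
      rw [← Submodule.Quotient.mk_smul, Submodule.Quotient.mk_eq_zero]
      exact hK y.1 y.2
  rw [h1, h4, add_zero]

end La_aux

theorem tLa : S_La := by
  classical
  intro R _ _ I V _ χ u hu
  refine ⟨fun N _ _ => if h : ∃ N₀ : Submodule R N, N₀.FG ∧ ∀ x : N, ∃ k : ℕ, u ^ k • x ∈ N₀ then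
    χ.f h.choose else 0, ?_⟩
  intro N _ _ hN N₀ hfg hx
  have h : ∃ N₀ : Submodule R N, N₀.FG ∧ ∀ x : N, ∃ k : ℕ, u ^ k • x ∈ N₀ := ⟨N₀, hfg, hx⟩
  refine (dif_pos h).trans ?_
  obtain ⟨h1, h2⟩ := h.choose_spec
  have h3 := La_aux.le_eq χ u hu N hN h.choose (h.choose ⊔ N₀) le_sup_left (h1.sup hfg) h2
  have h4 := La_aux.le_eq χ u hu N hN N₀ (h.choose ⊔ N₀) le_sup_right (h1.sup hfg) hx
  rw [← h3, h4]

end Pool.Agent.FY
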