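import Pool.Agent.Lib.MP_b53bfe_ag.Spec2
import Pool.Agent.Lib.MP_b53bfe_ag.Bas

/-!
# Localisation: the function `χ'`
-/

set_option autoImplicit false

noncomputable section

namespace Pool.Agent.FY

open Polynomial

namespace Lb_aux

variable {R R' : Type} [CommRing R] [CommRing R'] (κ : R →+* R') (u : R)

/-- the localisation of `M` at `κ u`, as an `R`-module -/
abbrev Lo (M : Type) [AddCommGroup M] [Module R' M] : Type :=
  Res κ (LocalizedModule (Submonoid.powers (κ u)) M)

section basic

variable {M : Type} [AddCommGroup M] [Module R' M]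

/-- the element `m / 1` -/
def jj (m : M) : Lo κ u M := Res.mk κ (LocalizedModule.mk m 1)

theorem jj_add (m m' : M) : jj κ u (m + m') = jj κ u m + jj κ u m' :=
  map_add (LocalizedModule.mkLinearMap (Submonoid.powers (κ u)) M) m m'

theorem jj_zero : jj κ u (0 : M) = 0 :=
  map_zero (LocalizedModule.mkLinearMap (Submonoid.powers (κ u)) M)

theorem smul_jj (r : R) (m : M) : r • jj κ u m = jj κ u (κ r • m) :=
  (map_smul (LocalizedModule.mkLinearMap (Submonoid.powers (κ u)) M) (κ r) m).symm

theorem jj_eq_zero {m : M} (h : jj κ u m = 0) : ∃ k : ℕ, κ u ^ k • m = 0 := by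
  have h1 : (LocalizedModule.mk m 1 : LocalizedModule (Submonoid.powers (κ u)) M) = 0 := h
  rw [← LocalizedModule.zero_mk 1, LocalizedModule.mk_eq] at h1
  obtain ⟨⟨s, k, rfl⟩, hs⟩ := h1
  refine ⟨k, ?_⟩
  rw [one_smul, smul_zero, smul_zero] at hs
  exact hs

theorem exists_jj (x : Lo κ u M) : ∃ (k : ℕ) (m : M), u ^ k • x = jj κ u m := by
  have h : ∀ y : LocalizedModule (Submonoid.powers (κ u)) M, ∃ (k : ℕ) (m : M),
      κ (u ^ k) • y = LocalizedModule.mk m 1 := by
    intro y
    induction y using LocalizedModule.induction_on with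
    | h m s =>
      obtain ⟨k, hk⟩ := s.2
      refine ⟨k, m, ?_⟩
      have hk' : κ u ^ k = s.1 := hk
      have e : κ u ^ k • m = s • m := by
        rw [hk']
        rfl
      rw [LocalizedModule.smul'_mk, map_pow, e, LocalizedModule.mk_cancel]
  obtain ⟨k, m, h⟩ := h x.val
  exact ⟨k, m, h⟩

theorem kil_lo {I : Set R} {I' : Set R'} (h2 : ∀ r ∈ I, κ r ∈ Ideal.span I') (hM : Kil I' M) :
    Kil I (Lo κ u M) := by
  refine Kil.res h2 ?_
  intro r hr x
  induction x using LocalizedModule.induction_on with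
  | h m s => rw [LocalizedModule.smul'_mk, hM r hr m, LocalizedModule.zero_mk]

/-- a submodule which contains the images of generators is generating -/
theorem gen (h1 : ∀ r' : R', ∃ (k : ℕ) (r : R), κ r = κ u ^ k * r') (Y : Set M) (hY : Submodule.span R' Y = ⊤)
    (N₀ : Submodule R (Lo κ u M)) (hN : ∀ y ∈ Y, jj κ u y ∈ N₀) (x : Lo κ u M) : ∃ k : ℕ, u ^ k • x ∈ N₀ := by
  have hup : ∀ (y : Lo κ u M) (k m : ℕ), u ^ k • y ∈ N₀ → u ^ (m + k) • y ∈ N₀ := by
    intro y k m hy
    rw [pow_add, mul_smul]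
    exact N₀.smul_mem _ hy
  let Z : Submodule R' M :=
    { carrier := {m | ∃ k : ℕ, u ^ k • jj κ u m ∈ N₀}
      add_mem' := by
        rintro a b ⟨k, hk⟩ ⟨l, hl⟩
        refine ⟨k + l, ?_⟩
        rw [jj_add, smul_add]
        refine add_mem ?_ (hup _ _ _ hl)
        rw [add_comm]
        exact hup _ _ _ hk
      zero_mem' := ⟨0, by rw [jj_zero, smul_zero]; exact zero_mem _⟩
      smul_mem' := by
        rintro r' a ⟨k, hk⟩
        obtain ⟨m, r, hr⟩ := h1 r'
        refine ⟨k + m, ?_⟩
        have e1 : u ^ (k + m) • jj κ u (r' • a) = r • (u ^ k • jj κ u a) := by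
          rw [smul_jj, smul_jj, smul_jj, hr, smul_smul, smul_smul, map_pow, map_pow]
          congr 2
          ring
        rw [e1]
        exact N₀.smul_mem _ hk }
  have hZ : Z = ⊤ := by
    rw [eq_top_iff, ← hY, Submodule.span_le]
    intro y hy
    exact ⟨0, by rw [pow_zero, one_smul]; exact hN y hy⟩
  obtain ⟨k, m, hx⟩ := exists_jj κ u x
  have hm : m ∈ Z := by rw [hZ]; exact Submodule.mem_top
  obtain ⟨l, hl⟩ := hm
  refine ⟨l + k, ?_⟩
  rw [pow_add, mul_smul, hx]
  exact hl

/-- a finitely generated generating submodule exists -/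
theorem exists_gen (h1 : ∀ r' : R', ∃ (k : ℕ) (r : R), κ r = κ u ^ k * r') (hM : Module.Finite R' M) :
    ∃ N₀ : Submodule R (Lo κ u M), N₀.FG ∧ ∀ x, ∃ k : ℕ, u ^ k • x ∈ N₀ := by
  classical
  obtain ⟨Y, hY⟩ := hM.fg_top
  refine ⟨Submodule.span R (((Y.image (jj κ u) : Finset (Lo κ u M)) : Set (Lo κ u M))), ⟨_, rfl⟩, ?_⟩
  refine gen κ u h1 (Y : Set M) hY _ fun y hy => Submodule.subset_span ?_
  rw [Finset.coe_image]
  exact ⟨y, hy, rfl⟩

end basic

section maps

variable {A B C : Type} [AddCommGroup A] [Module R' A] [AddCommGroup B] [Module R' B] [AddCommGroup C] [Module R' C]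

/-- the map of the localisations -/
def lm (i : A →ₗ[R'] B) : Lo κ u A →ₗ[R] Lo κ u B :=
  Res.map κ (IsLocalizedModule.map (Submonoid.powers (κ u)) (LocalizedModule.mkLinearMap (Submonoid.powers (κ u)) A)
    (LocalizedModule.mkLinearMap (Submonoid.powers (κ u)) B) i)

theorem lm_inj {i : A →ₗ[R'] B} (h : Function.Injective i) : Function.Injective (lm κ u i) :=
  Res.map_inj (IsLocalizedModule.map_injective _ _ _ _ h)

theorem lm_surj {i : A →ₗ[R'] B} (h : Function.Surjective i) : Function.Surjective (lm κ u i) :=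
  Res.map_surj (IsLocalizedModule.map_surjective _ _ _ _ h)

theorem lm_exact {i : A →ₗ[R'] B} {p : B →ₗ[R'] C} (h : Function.Exact i p) : Function.Exact (lm κ u i) (lm κ u p) :=
  Res.map_exact (IsLocalizedModule.map_exact _ _ _ _ i p h)

end maps

/-- modules killed by a power of `u` -/
theorem pow_kil [IsNoetherianRing R] {I : Set R} {V : Type 1} [AddCommGroup V] (χ : AFun R I V)
    (h3 : ∀ (N : Type) [AddCommGroup N] [Module R N], Module.Finite R N → Kil I N → (∀ x : N, u • x = 0) → χ.f N = 0)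
    (n : ℕ) : ∀ (N : Type) [AddCommGroup N] [Module R N], Module.Finite R N → Kil I N → (∀ x : N, u ^ n • x = 0) →
      χ.f N = 0 := by
  induction n with
  | zero =>
    intro N _ _ _ _ hx
    exact χ.subsing ⟨fun a b => by
      have ha := hx a
      have hb := hx b
      rw [pow_zero, one_smul] at ha hb
      rw [ha, hb]⟩
  | succ n ih =>
    intro N _ _ hfin hk hx
    rw [χ.sub hfin hk (LinearMap.range (mg N u)), ih _ ?_ (hk.sub _) ?_, h3 _ ?_ (hk.quot _) ?_, add_zero]
    · infer_instance
    · intro x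
      obtain ⟨x, rfl⟩ := Submodule.Quotient.mk_surjective _ x
      rw [← Submodule.Quotient.mk_smul, Submodule.Quotient.mk_eq_zero]
      exact ⟨x, rfl⟩
    · have : IsNoetherian R N := isNoetherian_of_isNoetherianRing_of_finite R N
      infer_instance
    · rintro ⟨_, y, rfl⟩
      apply Subtype.ext
      change u ^ n • (u • y) = 0
      rw [smul_smul, ← pow_succ]
      exact hx y

/-- modules whose elements are killed by powers of `u` -/
theorem tors [IsNoetherianRing R] {I : Set R} {V : Type 1} [AddCommGroup V] (χ : AFun R I V)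
    (h3 : ∀ (N : Type) [AddCommGroup N] [Module R N], Module.Finite R N → Kil I N → (∀ x : N, u • x = 0) → χ.f N = 0)
    (N : Type) [AddCommGroup N] [Module R N] (hN : Module.Finite R N) (hk : Kil I N) (h : ∀ x : N, ∃ k : ℕ, u ^ k • x = 0) :
    χ.f N = 0 := by
  have hn : ∃ n : ℕ, ∀ x : N, u ^ n • x = 0 := by
    obtain ⟨Y, hY⟩ := hN.fg_top
    choose k hk using h
    refine ⟨Y.sup k, fun x => ?_⟩
    have hx : x ∈ Submodule.span R (Y : Set N) := by rw [hY]; exact Submodule.mem_top
    induction hx using Submodule.span_induction with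
    | mem y hy =>
      obtain ⟨c, hc⟩ := Nat.exists_eq_add_of_le (Finset.le_sup (f := k) hy)
      rw [hc, add_comm, pow_add, mul_smul, hk, smul_zero]
    | zero => rw [smul_zero]
    | add a b _ _ ha hb => rw [smul_add, ha, hb, add_zero]
    | smul r a _ ha => rw [smul_comm, ha, smul_zero]
  obtain ⟨n, hn⟩ := hn
  exact pow_kil u χ h3 n N hN hk hn

end Lb_aux

open Lb_aux in
/-- **Lb** -/
theorem tLb : S_La → S_Lb := by
  intro hLa R R' _ _ _ _ κ u I I' V _ χ h1 h2 h3
  obtain ⟨G, hG⟩ := hLa R I V χ u h3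
  refine ⟨{ f := fun M _ _ => G (Lo κ u M), add := ?_ }, ?_⟩
  · intro A B C _ _ _ _ _ _ i p hB hk hi hp he
    have hkB : Kil I (Lo κ u B) := kil_lo κ u h2 hk
    have hkA : Kil I (Lo κ u A) := Kil.inj (lm_inj κ u hi) hkB
    have hkC : Kil I (Lo κ u C) := Kil.surj (lm_surj κ u hp) hkB
    obtain ⟨N₀, hfg, hN₀⟩ := exists_gen κ u (M := B) h1 hB
    have hfin : Module.Finite R N₀ := Module.Finite.iff_fg.2 hfg
    have hno : IsNoetherian R N₀ := isNoetherian_of_isNoetherianRing_of_finite R N₀
    let NA : Submodule R (Lo κ u A) := N₀.comap (lm κ u i)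
    let NC : Submodule R (Lo κ u C) := N₀.map (lm κ u p)
    let i₀ : NA →ₗ[R] N₀ := ((lm κ u i).domRestrict NA).codRestrict N₀ (fun x => x.2)
    let p₀ : N₀ →ₗ[R] NC := ((lm κ u p).domRestrict N₀).codRestrict NC (fun x => Submodule.mem_map_of_mem x.2)
    have hi₀ : Function.Injective i₀ := by
      intro x y hxy
      apply Subtype.ext
      exact lm_inj κ u hi (congrArg Subtype.val hxy)
    have hp₀ : Function.Surjective p₀ := by
      rintro ⟨_, y, hy, rfl⟩
      exact ⟨⟨y, hy⟩, rfl⟩
    have he₀ : Function.Exact i₀ p₀ := by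
      intro y
      have e1 := lm_exact κ u he (y : Lo κ u B)
      constructor
      · intro hy
        obtain ⟨x, hx⟩ := e1.1 (congrArg Subtype.val hy)
        have hxN : x ∈ NA := by
          change lm κ u i x ∈ N₀
          rw [hx]
          exact y.2
        exact ⟨⟨x, hxN⟩, Subtype.ext hx⟩
      · rintro ⟨x, rfl⟩
        apply Subtype.ext
        exact (lm_exact κ u he _).2 ⟨x, rfl⟩
    have hA : G (Lo κ u A) = χ.f NA := by
      refine hG _ hkA NA ?_ ?_
      · have : Module.Finite R NA := Module.Finite.of_injective i₀ hi₀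
        exact Module.Finite.iff_fg.1 this
      · intro x
        obtain ⟨k, hk⟩ := hN₀ (lm κ u i x)
        refine ⟨k, ?_⟩
        change lm κ u i (u ^ k • x) ∈ N₀
        rw [map_smul]
        exact hk
    have hC : G (Lo κ u C) = χ.f NC := by
      refine hG _ hkC NC (hfg.map _) ?_
      intro y
      obtain ⟨x, rfl⟩ := lm_surj κ u hp y
      obtain ⟨k, hk⟩ := hN₀ x
      refine ⟨k, ?_⟩
      rw [← map_smul]
      exact Submodule.mem_map_of_mem hk
    rw [hG _ hkB N₀ hfg hN₀, hA, hC]
    exact χ.add _ _ _ i₀ p₀ hfin (hkB.sub N₀) hi₀ hp₀ he₀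
  · intro a b ha hb hab hba
    change G (Lo κ u (R' ⧸ b)) = χ.f (R ⧸ a)
    have hkb : Kil I (Lo κ u (R' ⧸ b)) := by
      refine kil_lo κ u h2 ?_
      intro r hr x
      obtain ⟨x, rfl⟩ := Submodule.Quotient.mk_surjective _ x
      rw [← Submodule.Quotient.mk_smul, Submodule.Quotient.mk_eq_zero, smul_eq_mul]
      exact b.mul_mem_right x (hb r hr)
    have hone : ∀ p : R, p • jj κ u (Submodule.Quotient.mk 1 : R' ⧸ b) = jj κ u (Submodule.Quotient.mk (κ p) : R' ⧸ b) := by
      intro p
      rw [smul_jj, ← Submodule.Quotient.mk_smul, smul_eq_mul, mul_one]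
    let f : (R ⧸ a) →ₗ[R] Lo κ u (R' ⧸ b) :=
      Submodule.liftQ a (LinearMap.toSpanSingleton R (Lo κ u (R' ⧸ b)) (jj κ u (Submodule.Quotient.mk 1 : R' ⧸ b))) (by
        intro p hp
        rw [LinearMap.mem_ker, LinearMap.toSpanSingleton_apply, hone,
          (Submodule.Quotient.mk_eq_zero b).2 (hab p hp), jj_zero])
    have hf : ∀ p : R, f (Submodule.Quotient.mk p) = jj κ u (Submodule.Quotient.mk (κ p) : R' ⧸ b) := by
      intro p
      rw [← hone]
      rfl
    have hfinR : Module.Finite R (R ⧸ a) := inferInstance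
    have hka : Kil I (R ⧸ a) := by
      intro r hr x
      obtain ⟨x, rfl⟩ := Submodule.Quotient.mk_surjective _ x
      rw [← Submodule.Quotient.mk_smul, Submodule.Quotient.mk_eq_zero, smul_eq_mul]
      exact a.mul_mem_right x (ha r hr)
    have hno : IsNoetherian R (R ⧸ a) := inferInstance
    have hG1 : G (Lo κ u (R' ⧸ b)) = χ.f (LinearMap.range f) := by
      refine hG _ hkb (LinearMap.range f) ?_ ?_
      · have : Module.Finite R (LinearMap.range f) := inferInstance
        exact Module.Finite.iff_fg.1 this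
      · refine gen κ u h1 {(Submodule.Quotient.mk 1 : R' ⧸ b)} ?_ _ ?_
        · rw [eq_top_iff]
          intro x _
          obtain ⟨x, rfl⟩ := Submodule.Quotient.mk_surjective _ x
          rw [Submodule.mem_span_singleton]
          exact ⟨x, by rw [← Submodule.Quotient.mk_smul, smul_eq_mul, mul_one]⟩
        · intro y hy
          rw [Set.mem_singleton_iff.1 hy]
          exact ⟨Submodule.Quotient.mk 1, by rw [hf, map_one]⟩
    have hadd := χ.add (LinearMap.ker f) (R ⧸ a) (LinearMap.range f) (LinearMap.ker f).subtype f.rangeRestrict hfinR hka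
      (Submodule.injective_subtype _) f.surjective_rangeRestrict (by
        intro x
        constructor
        · intro hx
          have hx' : f x = 0 := congrArg Subtype.val hx
          exact ⟨⟨x, hx'⟩, rfl⟩
        · rintro ⟨x, rfl⟩
          exact Subtype.ext x.2)
    have hker : χ.f (LinearMap.ker f) = 0 := by
      refine tors u χ h3 _ inferInstance (hka.sub _) ?_
      rintro ⟨x, hx⟩
      obtain ⟨p, rfl⟩ := Submodule.Quotient.mk_surjective _ x
      rw [LinearMap.mem_ker, hf] at hx
      obtain ⟨k, hk⟩ := jj_eq_zero κ u hx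
      rw [← Submodule.Quotient.mk_smul, Submodule.Quotient.mk_eq_zero, smul_eq_mul, ← map_pow, ← map_mul] at hk
      obtain ⟨m, hm⟩ := hba _ hk
      refine ⟨m + k, ?_⟩
      apply Subtype.ext
      change u ^ (m + k) • (Submodule.Quotient.mk p : R ⧸ a) = 0
      rw [← Submodule.Quotient.mk_smul, Submodule.Quotient.mk_eq_zero, smul_eq_mul, pow_add, mul_assoc]
      exact hm
    rw [hG1, hadd, hker, zero_add]

end Pool.Agent.FY
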