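import Pool.Agent.Lib.MP_b53bfe_ag.Spec2
import Pool.Agent.Lib.MP_b53bfe_ag.Bas

/-!
# Lc: localisation at the first row
-/

set_option autoImplicit false

noncomputable section

namespace Pool.Agent.FY

open Polynomial

namespace Lc_aux

/-- the vanishing on the modules killed by a product -/
theorem prod_van {R : Type} [CommRing R] {I : Set R} {V : Type 1} [AddCommGroup V] (χ : AFun R I V) {ι : Type}
    (x : ι → R) (s : Finset ι)
    (hx : ∀ (N : Type) [AddCommGroup N] [Module R N], Module.Finite R N → Kil I N →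
      ∀ j : ι, (∀ y : N, x j • y = 0) → χ.f N = 0) :
    ∀ (N : Type) [AddCommGroup N] [Module R N], Module.Finite R N → Kil I N →
      (∀ y : N, (∏ j ∈ s, x j) • y = 0) → χ.f N = 0 := by
  classical
  induction s using Finset.induction_on with
  | empty =>
    intro N _ _ hN hk h
    refine χ.subsing ⟨fun a b => ?_⟩
    have ha := h a
    have hb := h b
    rw [Finset.prod_empty, one_smul] at ha hb
    rw [ha, hb]
  | insert a s has ih =>
    intro N _ _ hN hk h
    rw [χ.sub hN hk (LinearMap.range (mg N (∏ j ∈ s, x j)))]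
    have h1 : χ.f (LinearMap.range (mg N (∏ j ∈ s, x j))) = 0 := by
      refine hx _ (Module.Finite.range _) (hk.sub _) a ?_
      rintro ⟨y, z, rfl⟩
      apply Subtype.ext
      show x a • (mg N (∏ j ∈ s, x j)) z = 0
      rw [mg_apply, smul_smul]
      have := h z
      rwa [Finset.prod_insert has] at this
    have h2 : χ.f (N ⧸ LinearMap.range (mg N (∏ j ∈ s, x j))) = 0 := by
      refine ih _ inferInstance (hk.quot _) ?_
      intro y
      obtain ⟨z, rfl⟩ := Submodule.Quotient.mk_surjective _ y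
      rw [← Submodule.Quotient.mk_smul, Submodule.Quotient.mk_eq_zero]
      exact ⟨z, rfl⟩
    rw [h1, h2, add_zero]

theorem kap_X0 (n : ℕ) (j : Fin (n + 3)) : kap n (MvPolynomial.X (0, j)) = MvPolynomial.X (0, j) := by
  show (MvPolynomial.aeval _ : Po (Ix n) →ₐ[ℂ] Po (Ix n)) (MvPolynomial.X (0, j)) = _
  rw [MvPolynomial.aeval_X, if_pos rfl]

theorem kap_Xi (n : ℕ) (i : Fin 3) (hi : i ≠ 0) (j : Fin (n + 3)) :
    kap n (MvPolynomial.X (i, j)) = MvPolynomial.X (i, j) * MvPolynomial.X (0, j) := by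
  show (MvPolynomial.aeval _ : Po (Ix n) →ₐ[ℂ] Po (Ix n)) (MvPolynomial.X (i, j)) = _
  rw [MvPolynomial.aeval_X, if_neg hi]

theorem kap_C (n : ℕ) (c : ℂ) : kap n (MvPolynomial.C c) = MvPolynomial.C c := by
  show (MvPolynomial.aeval _ : Po (Ix n) →ₐ[ℂ] Po (Ix n)) (MvPolynomial.C c) = _
  rw [MvPolynomial.aeval_C]
  rfl

theorem rho_X0 (n : ℕ) (j : Fin (n + 3)) : rho n (MvPolynomial.X (0, j)) = MvPolynomial.X (Sum.inl j) := by
  show (MvPolynomial.aeval _ : Po (Ix n) →ₐ[ℂ] PA n) (MvPolynomial.X (0, j)) = _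
  rw [MvPolynomial.aeval_X, if_pos rfl]

theorem rho_X1 (n : ℕ) (j : Fin (n + 3)) : rho n (MvPolynomial.X (1, j)) = MvPolynomial.X (Sum.inr 0) := by
  show (MvPolynomial.aeval _ : Po (Ix n) →ₐ[ℂ] PA n) (MvPolynomial.X (1, j)) = _
  rw [MvPolynomial.aeval_X, if_neg (show ¬ ((1 : Fin 3) = 0) by decide), if_pos rfl]

theorem rho_X2 (n : ℕ) (j : Fin (n + 3)) : rho n (MvPolynomial.X (2, j)) = MvPolynomial.X (Sum.inr 1) := by
  show (MvPolynomial.aeval _ : Po (Ix n) →ₐ[ℂ] PA n) (MvPolynomial.X (2, j)) = _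
  rw [MvPolynomial.aeval_X, if_neg (show ¬ ((2 : Fin 3) = 0) by decide),
    if_neg (show ¬ ((2 : Fin 3) = 1) by decide)]

theorem rho_C (n : ℕ) (c : ℂ) : rho n (MvPolynomial.C c) = MvPolynomial.C c := by
  show (MvPolynomial.aeval _ : Po (Ix n) →ₐ[ℂ] PA n) (MvPolynomial.C c) = _
  rw [MvPolynomial.aeval_C]
  rfl

/-- the product of the variables of the first row -/
def uu (n : ℕ) : Po (Ix n) := ∏ j : Fin (n + 3), MvPolynomial.X (0, j)

theorem kap_uu (n : ℕ) : kap n (uu n) = uu n := by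
  rw [uu, map_prod]
  exact Finset.prod_congr rfl fun j _ => kap_X0 n j

theorem rho_surj (n : ℕ) : Function.Surjective (rho n) := by
  intro q
  induction q using MvPolynomial.induction_on with
  | C a => exact ⟨MvPolynomial.C a, rho_C n a⟩
  | add p q hp hq =>
    obtain ⟨p', rfl⟩ := hp
    obtain ⟨q', rfl⟩ := hq
    exact ⟨p' + q', map_add _ _ _⟩
  | mul_X p i hp =>
    obtain ⟨p', rfl⟩ := hp
    rcases i with j | j
    · exact ⟨p' * MvPolynomial.X (0, j), by rw [map_mul, rho_X0]⟩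
    · fin_cases j
      · exact ⟨p' * MvPolynomial.X (1, 0), by rw [map_mul, rho_X1]; rfl⟩
      · exact ⟨p' * MvPolynomial.X (2, 0), by rw [map_mul, rho_X2]; rfl⟩

/-- every polynomial is `u ^ (-k) κ r` -/
theorem kap_den (n : ℕ) (r' : Po (Ix n)) : ∃ (k : ℕ) (r : Po (Ix n)), kap n r = kap n (uu n) ^ k * r' := by
  induction r' using MvPolynomial.induction_on with
  | C a => exact ⟨0, MvPolynomial.C a, by rw [kap_C, pow_zero, one_mul]⟩
  | add p q hp hq =>
    obtain ⟨k, r, h⟩ := hp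
    obtain ⟨l, s, h'⟩ := hq
    refine ⟨k + l, uu n ^ l * r + uu n ^ k * s, ?_⟩
    rw [map_add, map_mul, map_mul, map_pow, map_pow, h, h', pow_add]
    ring
  | mul_X p i hp =>
    obtain ⟨k, r, h⟩ := hp
    obtain ⟨i, j⟩ := i
    by_cases hi : i = 0
    · subst hi
      exact ⟨k, r * MvPolynomial.X (0, j), by rw [map_mul, h, kap_X0, mul_assoc]⟩
    · refine ⟨k + 1, r * (MvPolynomial.X (i, j) * ∏ l ∈ Finset.univ.erase j, MvPolynomial.X (0, l)), ?_⟩
      have h1 : kap n (∏ l ∈ Finset.univ.erase j, MvPolynomial.X (0, l)) =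
          ∏ l ∈ Finset.univ.erase j, MvPolynomial.X (0, l) := by
        rw [map_prod]
        exact Finset.prod_congr rfl fun l _ => kap_X0 n l
      have h2 : uu n = MvPolynomial.X (0, j) * ∏ l ∈ Finset.univ.erase j, MvPolynomial.X (0, l) := by
        rw [uu, Finset.mul_prod_erase Finset.univ (fun l => (MvPolynomial.X (0, l) : Po (Ix n)))
          (Finset.mem_univ j)]
      rw [map_mul, map_mul, h, h1, kap_Xi n i hi, kap_uu, pow_succ]
      conv_rhs => rw [mul_assoc (uu n ^ k), h2]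
      conv_lhs => rw [h2]
      ring

theorem kap_FF (n d : ℕ) : kap n (FF n d) = Fk n d := by
  rw [FF, sF, sF, sF, map_add, map_add, map_sum, map_sum, map_sum, Fk, ← Finset.sum_add_distrib,
    ← Finset.sum_add_distrib]
  refine Finset.sum_congr rfl fun j _ => ?_
  rw [xv, xv, xv, map_pow, map_pow, map_pow, kap_X0, kap_Xi n 1 (by decide), kap_Xi n 2 (by decide)]
  ring

theorem rk_X (n : ℕ) (i : Fin 3) (j : Fin (n + 3)) :
    rho n (kap n (MvPolynomial.X (i, j))) =
      rho n (MvPolynomial.X (i, 0)) * MvPolynomial.X (Sum.inl j) ∨ i = 0 := by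
  by_cases hi : i = 0
  · exact Or.inr hi
  · left
    rw [kap_Xi n i hi, map_mul, rho_X0]
    congr 1
    fin_cases i
    · exact absurd rfl hi
    · exact (rho_X1 n j).trans (rho_X1 n 0).symm
    · exact (rho_X2 n j).trans (rho_X2 n 0).symm

/-- the coefficient of the row `i` -/
def cf (n : ℕ) (i : Fin 3) : PA n := if i = 0 then 1 else rho n (MvPolynomial.X (i, 0))

theorem rk (n : ℕ) (i : Fin 3) (j : Fin (n + 3)) :
    rho n (kap n (xv n i j)) = cf n i * MvPolynomial.X (Sum.inl j) := by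
  rw [xv, cf]
  split_ifs with h
  · subst h
    rw [kap_X0, rho_X0, one_mul]
  · exact (rk_X n i j).resolve_right h

theorem rk_mn (n : ℕ) (i i' : Fin 3) (j j' : Fin (n + 3)) : rho n (kap n (mn n i i' j j')) = 0 := by
  rw [mn, map_sub, map_mul, map_mul, map_sub, map_mul, map_mul, rk, rk, rk, rk]
  ring

theorem rk_sF (n d : ℕ) (i : Fin 3) : rho n (kap n (sF n d i)) = cf n i ^ d * ss n d := by
  rw [sF, map_sum, map_sum, ss, Finset.mul_sum]
  refine Finset.sum_congr rfl fun j _ => ?_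
  rw [map_pow, map_pow, rk, mul_pow]

theorem rk_sF0 (n d : ℕ) : rho n (kap n (sF n d 0)) = ss n d := by
  rw [rk_sF, cf, if_pos rfl, one_pow, one_mul]

/-- the ideal of the polynomials which vanish on the diagonal -/
def bb (n d : ℕ) : Ideal (Po (Ix n)) := (Ideal.span {ss n d}).comap (rho n)

theorem mem_bb (n d : ℕ) (p : Po (Ix n)) : p ∈ bb n d ↔ rho n p ∈ Ideal.span {ss n d} := Iff.rfl

theorem kap_mem (n d : ℕ) (p : Po (Ix n)) (hp : p ∈ Ideal.span (gA n d)) : kap n p ∈ bb n d := by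
  have h : Ideal.span (gA n d) ≤ (bb n d).comap (kap n) := by
    rw [Ideal.span_le]
    rintro x (⟨i, i', j, j', rfl⟩ | ⟨i, rfl⟩)
    · show rho n (kap n (mn n i i' j j')) ∈ Ideal.span {ss n d}
      rw [rk_mn]
      exact Ideal.zero_mem _
    · show rho n (kap n (sF n d i)) ∈ Ideal.span {ss n d}
      rw [rk_sF]
      exact Ideal.mul_mem_left _ _ (Ideal.mem_span_singleton_self _)
  exact h hp

theorem sF_mem (n d : ℕ) (i : Fin 3) : sF n d i ∈ Ideal.span (gA n d) :=
  Ideal.subset_span (Or.inr ⟨i, rfl⟩)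

theorem FF_mem (n d : ℕ) : FF n d ∈ Ideal.span (gA n d) :=
  Ideal.add_mem _ (Ideal.add_mem _ (sF_mem n d 0) (sF_mem n d 1)) (sF_mem n d 2)

theorem Fk_mem (n d : ℕ) : Fk n d ∈ bb n d := by
  rw [← kap_FF]
  exact kap_mem n d _ (FF_mem n d)

theorem kap_mem' (hk : S_Lk) (n d : ℕ) (p : Po (Ix n)) (hp : kap n p ∈ bb n d) :
    ∃ k : ℕ, uu n ^ k * p ∈ Ideal.span (gA n d) := by
  obtain ⟨q, hq⟩ := Ideal.mem_span_singleton.1 ((mem_bb n d _).1 hp)
  obtain ⟨q₂, rfl⟩ := rho_surj n q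
  obtain ⟨l, q', hq'⟩ := kap_den n q₂
  have h0 : rho n (kap n (uu n ^ l * p - sF n d 0 * q')) = 0 := by
    rw [map_sub, map_mul, map_mul, map_sub, map_mul, map_mul, hq, hq', rk_sF0, map_mul, map_pow, map_pow]
    ring
  obtain ⟨k, hk'⟩ := hk n _ h0
  have h1 : uu n ^ k =
      xv n 0 0 ^ k * (∏ l ∈ Finset.univ.erase (0 : Fin (n + 3)), MvPolynomial.X (0, l)) ^ k := by
    rw [← mul_pow, uu, xv, Finset.mul_prod_erase Finset.univ (fun l => (MvPolynomial.X (0, l) : Po (Ix n)))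
      (Finset.mem_univ 0)]
  refine ⟨k + l, ?_⟩
  have h2 : Ideal.span (Mn n) ≤ Ideal.span (gA n d) := Ideal.span_mono Set.subset_union_left
  have h3 : uu n ^ k * (uu n ^ l * p - sF n d 0 * q') ∈ Ideal.span (gA n d) := by
    rw [h1, mul_comm (xv n 0 0 ^ k), mul_assoc]
    exact Ideal.mul_mem_left _ _ (h2 hk')
  have h4 : uu n ^ (k + l) * p = uu n ^ k * (uu n ^ l * p - sF n d 0 * q') + uu n ^ k * q' * sF n d 0 := by
    rw [pow_add]
    ring
  rw [h4]
  exact Ideal.add_mem _ h3 (Ideal.mul_mem_left _ _ (sF_mem n d 0))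

/-- the quotient map, as a linear map -/
def ll (n d : ℕ) : Po (Ix n) →ₗ[Po (Ix n)] Res (rho n) (PA n ⧸ Ideal.span {ss n d}) where
  toFun p := Res.mk (rho n) (Ideal.Quotient.mk (Ideal.span {ss n d}) (rho n p))
  map_add' p q := by
    rw [map_add, map_add]
    rfl
  map_smul' r p := by
    rw [RingHom.id_apply, Res.smul_mk, smul_eq_mul, map_mul, map_mul]
    rfl

theorem ll_surj (n d : ℕ) : Function.Surjective (ll n d) := by
  intro z
  obtain ⟨q, hq⟩ := Ideal.Quotient.mk_surjective (z : PA n ⧸ Ideal.span {ss n d})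
  obtain ⟨p, rfl⟩ := rho_surj n q
  exact ⟨p, hq⟩

theorem ker_ll (n d : ℕ) : LinearMap.ker (ll n d) = bb n d := by
  ext p
  rw [LinearMap.mem_ker, mem_bb]
  exact Ideal.Quotient.eq_zero_iff_mem

/-- the isomorphism -/
def ee (n d : ℕ) : (Po (Ix n) ⧸ bb n d) ≃ₗ[Po (Ix n)] Res (rho n) (PA n ⧸ Ideal.span {ss n d}) :=
  (Submodule.quotEquivOfEq _ _ (ker_ll n d).symm).trans ((ll n d).quotKerEquivOfSurjective (ll_surj n d))

end Lc_aux

open Lc_aux

theorem tLc : S_Lb → S_Lk → S_Lc := by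
  intro hb hk n d V _ χ₂ hd hX
  obtain ⟨χ', hχ⟩ := hb (Po (Ix n)) (Po (Ix n)) (kap n) (uu n) {FF n d} {Fk n d} V χ₂ (kap_den n)
    (by
      intro r hr
      rw [Set.mem_singleton_iff.1 hr, kap_FF]
      exact Ideal.mem_span_singleton_self _)
    (by
      intro N _ _ hN hk' hu
      exact prod_van χ₂ (fun j : Fin (n + 3) => (MvPolynomial.X (0, j) : Po (Ix n))) Finset.univ
        (fun N _ _ hN hk' j hj => hX N hN hk' (0, j) hj) N hN hk' hu)
  refine ⟨χ', ?_⟩
  rw [← hχ (Ideal.span (gA n d)) (bb n d) (fun r hr => by rw [Set.mem_singleton_iff.1 hr]; exact FF_mem n d)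
    (fun r hr => by rw [Set.mem_singleton_iff.1 hr]; exact Fk_mem n d) (kap_mem n d) (kap_mem' hk n d)]
  refine (χ'.iso (ee n d) inferInstance ?_).symm
  intro r hr m
  obtain ⟨x, rfl⟩ := Submodule.Quotient.mk_surjective _ m
  rw [← Submodule.Quotient.mk_smul, Submodule.Quotient.mk_eq_zero, Set.mem_singleton_iff.1 hr]
  exact Ideal.mul_mem_right _ _ (Fk_mem n d)

end Pool.Agent.FY
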