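import Pool.Agent.Lib.MP_b53bfe_ag.Spec2

/-!
# Theorem T1 (MP_b53bfe_ag), module Lk: the kernel of `rho ∘ kap` and the minors (author helper21)
-/

set_option autoImplicit false

noncomputable section

namespace Pool.Agent.FY

open Polynomial

theorem tLk : S_Lk := by
  intro n p hp
  let I : Ideal (Po (Ix n)) := Ideal.span (Mn n)
  let q : Po (Ix n) ⧸ I := Ideal.Quotient.mk I (xv n 0 0)
  let L := Localization.Away q
  let ι : Po (Ix n) →+* L := (algebraMap (Po (Ix n) ⧸ I) L).comp (Ideal.Quotient.mk I)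
  obtain ⟨qi, hqi⟩ : ∃ qi : L, ι (xv n 0 0) * qi = 1 :=
    ⟨IsLocalization.Away.invSelf q, IsLocalization.Away.mul_invSelf q⟩
  have hmn : ∀ (i i' : Fin 3) (j j' : Fin (n + 3)), ι (xv n i j) * ι (xv n i' j') = ι (xv n i j') * ι (xv n i' j) := by
    intro i i' j j'
    have h1 : Ideal.Quotient.mk I (mn n i i' j j') = 0 :=
      Ideal.Quotient.eq_zero_iff_mem.2 (Ideal.subset_span ⟨i, i', j, j', rfl⟩)
    have h2 : ι (mn n i i' j j') = 0 := by
      change algebraMap (Po (Ix n) ⧸ I) L (Ideal.Quotient.mk I (mn n i i' j j')) = 0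
      rw [h1, map_zero]
    unfold mn at h2
    rw [map_sub, map_mul, map_mul] at h2
    exact sub_eq_zero.1 h2
  let ψ : PA n →+* L := MvPolynomial.eval₂Hom (ι.comp MvPolynomial.C)
    (Sum.elim (fun j => ι (xv n 0 j)) (fun i => if i = 0 then ι (xv n 1 0) * qi else ι (xv n 2 0) * qi))
  have hψ : (ψ.comp (rho n)).comp (kap n) = ι := by
    refine MvPolynomial.ringHom_ext (fun c => ?_) (fun x => ?_)
    · simp [ψ, rho, kap]
    · obtain ⟨i, j⟩ := x
      have k0 : ∀ j : Fin (n + 3), kap n (MvPolynomial.X (0, j)) = xv n 0 j := by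
        intro j
        simp [kap, xv]
      have k1 : ∀ (i : Fin 3) (j : Fin (n + 3)), i ≠ 0 → kap n (MvPolynomial.X (i, j)) = xv n i j * xv n 0 j := by
        intro i j hi
        simp [kap, xv, hi]
      have r0 : ∀ j : Fin (n + 3), rho n (xv n 0 j) = MvPolynomial.X (Sum.inl j) := by
        intro j
        simp [rho, xv]
      have r1 : ∀ j : Fin (n + 3), rho n (xv n 1 j) = MvPolynomial.X (Sum.inr 0) := by
        intro j
        simp [rho, xv]
      have r2 : ∀ j : Fin (n + 3), rho n (xv n 2 j) = MvPolynomial.X (Sum.inr 1) := by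
        intro j
        simp [rho, xv]
      have p0 : ∀ j : Fin (n + 3), ψ (MvPolynomial.X (Sum.inl j)) = ι (xv n 0 j) := by
        intro j
        exact MvPolynomial.eval₂Hom_X' _ _ _
      have p1 : ψ (MvPolynomial.X (Sum.inr 0)) = ι (xv n 1 0) * qi := by
        exact (MvPolynomial.eval₂Hom_X' _ _ _).trans rfl
      have p2 : ψ (MvPolynomial.X (Sum.inr 1)) = ι (xv n 2 0) * qi := by
        exact (MvPolynomial.eval₂Hom_X' _ _ _).trans rfl
      change ψ (rho n (kap n (MvPolynomial.X (i, j)))) = ι (xv n i j)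
      fin_cases i
      · change ψ (rho n (kap n (MvPolynomial.X (0, j)))) = ι (xv n 0 j)
        rw [k0, r0, p0]
      · change ψ (rho n (kap n (MvPolynomial.X (1, j)))) = ι (xv n 1 j)
        rw [k1 _ _ (by decide), map_mul, map_mul, r1, r0, p1, p0]
        linear_combination qi * hmn 1 0 0 j + ι (xv n 1 j) * hqi
      · change ψ (rho n (kap n (MvPolynomial.X (2, j)))) = ι (xv n 2 j)
        rw [k1 _ _ (by decide), map_mul, map_mul, r2, r0, p2, p0]
        linear_combination qi * hmn 2 0 0 j + ι (xv n 2 j) * hqi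
  have h1 : ι p = 0 := by
    rw [← hψ]
    change ψ (rho n (kap n p)) = 0
    rw [hp, map_zero]
  have h2 : algebraMap (Po (Ix n) ⧸ I) L (Ideal.Quotient.mk I p) = algebraMap (Po (Ix n) ⧸ I) L 0 := by
    rw [map_zero]
    exact h1
  obtain ⟨⟨c, k, hc⟩, h3⟩ := (IsLocalization.eq_iff_exists (Submonoid.powers q) L).1 h2
  refine ⟨k, Ideal.Quotient.eq_zero_iff_mem.1 ?_⟩
  have h4 : c * Ideal.Quotient.mk I p = c * 0 := h3
  rw [mul_zero, ← hc] at h4
  rw [map_mul, map_pow]
  exact h4

end Pool.Agent.FY
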