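import Pool.Agent.Lib.MP_b53bfe_ag.Spec2
import Pool.Agent.Lib.MP_b53bfe_ag.Bas

/-!
# Modules over the sum of the forms killed by a variable: proof of `S_Lv`
-/

set_option autoImplicit false

noncomputable section

namespace Pool.Agent.FY

open Polynomial

private theorem Lv_nu {σ : Type} [DecidableEq σ] {i j : σ} (h : j ≠ i) :
    nu i (MvPolynomial.X j : Po σ) = C (MvPolynomial.X j : Po σ) := by
  change MvPolynomial.aeval _ (MvPolynomial.X j) = _
  rw [MvPolynomial.aeval_X, if_neg h]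

private theorem Lv_NI {σ : Type} [DecidableEq σ] (i : σ) (d : ℕ) (s : Finset σ) (h : i ∉ s) :
    NI i (∑ r ∈ s, (MvPolynomial.X r : Po σ) ^ d) := by
  unfold NI
  rw [map_sum, map_sum]
  refine Finset.sum_congr rfl fun r hr => ?_
  have hri : r ≠ i := fun h' => h (h' ▸ hr)
  rw [map_pow, map_pow, Lv_nu hri]

private theorem Lv_FF (n d : ℕ) : FF n d = ∑ r : Ix n, (MvPolynomial.X r : Po (Ix n)) ^ d := by
  rw [Fintype.sum_prod_type, Fin.sum_univ_three]
  rfl

theorem tLv : S_Kv → S_Lv := by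
  intro hK n d V _ _ χ₂ hd N _ _ hN hkil p hp
  obtain ⟨q, hq⟩ : ∃ q : Ix n, q ≠ p := by
    refine ⟨(p.1, if p.2 = 0 then 1 else 0), fun h => ?_⟩
    have h2 := congrArg Prod.snd h
    have h01 : (0 : Fin (n + 3)) ≠ 1 := by
      intro h
      have := congrArg Fin.val h
      simp at this
    by_cases h0 : p.2 = 0
    · have h3 : (if p.2 = 0 then (1 : Fin (n + 3)) else 0) = p.2 := h2
      rw [if_pos h0, h0] at h3
      exact h01 h3.symm
    · have h3 : (if p.2 = 0 then (1 : Fin (n + 3)) else 0) = p.2 := h2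
      rw [if_neg h0] at h3
      exact h0 h3.symm
  let s : Finset (Ix n) := (Finset.univ.erase p).erase q
  let g' : Po (Ix n) := ∑ r ∈ s, (MvPolynomial.X r : Po (Ix n)) ^ d
  have hF : FF n d = MvPolynomial.X p ^ d + (MvPolynomial.X q ^ d + g') := by
    rw [Lv_FF, ← Finset.add_sum_erase _ _ (Finset.mem_univ p),
      ← Finset.add_sum_erase (Finset.univ.erase p) _ (Finset.mem_erase.2 ⟨hq, Finset.mem_univ q⟩)]
  have hk : ∀ (M : Type) [AddCommGroup M] [Module (Po (Ix n)) M],
      Kil (insert (MvPolynomial.X p ^ d + (MvPolynomial.X q ^ d + g')) ∅) M → Kil {FF n d} M := by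
    intro M _ _ h r hr m
    rw [Set.mem_singleton_iff.1 hr, hF]
    exact h _ (Or.inl rfl) m
  have h := hK (Ix n) p q ∅ V d g' (χ₂.mono _ hk) hd hq.symm
    (Lv_NI p d s (fun h => Finset.notMem_erase p _ (Finset.mem_of_mem_erase h)))
    (Lv_NI q d s (Finset.notMem_erase q _)) (fun r hr => absurd hr (Set.notMem_empty r)) N hN
    (fun r hr m => by
      rcases hr with rfl | hr
      · rw [← hF]
        exact hkil _ rfl m
      · exact absurd hr (Set.notMem_empty r)) hp
  exact h

end Pool.Agent.FY
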