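import Pool.Agent.Lib.MP_b53bfe_ag.Spec2
import Pool.Agent.Lib.MP_b53bfe_ag.Bas

/-!
# The values of `Ψ` on the twists have the sum zero (theorem T1 for MP_b53bfe_ag)
-/

set_option autoImplicit false

noncomputable section

namespace Pool.Agent.FY

open Polynomial

namespace PB_aux

section General

variable {R : Type} [CommRing R] {M : Type} [AddCommGroup M] [Module R M]

/-- the submodule of `Res φ M` with the same elements -/
def rs (φ : R →+* R) (K : Submodule R M) : Submodule R (Res φ M) where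
  carrier := {x | x.val ∈ K}
  add_mem' := fun ha hb => K.add_mem ha hb
  zero_mem' := K.zero_mem
  smul_mem' := fun r _ hx => K.smul_mem (φ r) hx

theorem mem_rs {φ : R →+* R} {K : Submodule R M} {x : Res φ M} : x ∈ rs φ K ↔ x.val ∈ K := Iff.rfl

theorem rs_fg {φ : R →+* R} (hφ : Function.Surjective φ) {K : Submodule R M} (hK : K.FG) :
    (rs φ K).FG := by
  obtain ⟨s, hs⟩ := hK
  have key : ∀ x : M, x ∈ Submodule.span R (s : Set M) →
      Res.mk φ x ∈ Submodule.span R ((fun y : M => Res.mk φ y) '' (s : Set M)) := by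
    intro x hx
    induction hx using Submodule.span_induction with
    | mem y hy => exact Submodule.subset_span ⟨y, hy, rfl⟩
    | zero => exact Submodule.zero_mem _
    | add y z _ _ hy hz => exact Submodule.add_mem _ hy hz
    | smul t y _ hy =>
      obtain ⟨r, rfl⟩ := hφ t
      exact Submodule.smul_mem _ r hy
  refine (Submodule.fg_def).2 ⟨(fun y : M => Res.mk φ y) '' (s : Set M), s.finite_toSet.image _,
    le_antisymm ?_ ?_⟩
  · rw [Submodule.span_le]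
    rintro _ ⟨y, hy, rfl⟩
    change y ∈ K
    rw [← hs]
    exact Submodule.subset_span hy
  · intro x hx
    have hx' : x.val ∈ K := hx
    rw [← hs] at hx'
    exact key x.val hx'

theorem pl_rs (φ : R →+* R) (β : M ≃ₗ[R] M) (K : Submodule R M) :
    pl (Res.equiv φ β) (rs φ K) = rs φ (pl β K) := by
  ext x
  rw [mem_pl, mem_rs, mem_pl]
  rfl

theorem Lm_rs (φ : R →+* R) (β : M ≃ₗ[R] M) (K : Submodule R M) (n : ℕ) :
    Lm (Res.equiv φ β) (rs φ K) n = rs φ (Lm β K n) := by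
  induction n with
  | zero => rfl
  | succ n ih => rw [Lm_succ, Lm_succ, ih, pl_rs]

theorem pow_rs (φ : R →+* R) (β : M ≃ₗ[R] M) (a : ℕ) (x : Res φ M) :
    ((Res.equiv φ β) ^ a) x = Res.mk φ ((β ^ a) x.val) := by
  induction a with
  | zero => rfl
  | succ a ih =>
    rw [pow_succ', pow_succ']
    change (Res.equiv φ β) (((Res.equiv φ β) ^ a) x) = Res.mk φ (β ((β ^ a) x.val))
    rw [ih]
    rfl

theorem gen_rs (φ : R →+* R) {β : M ≃ₗ[R] M} {K : Submodule R M} (h : Gen β K) :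
    Gen (Res.equiv φ β) (rs φ K) := by
  intro x
  obtain ⟨a, b, hab⟩ := h x.val
  refine ⟨a, b, ?_⟩
  rw [pow_rs, Lm_rs]
  exact hab

theorem mem_sO {A B : Submodule R M} {x : B} : x ∈ A.submoduleOf B ↔ (x : M) ∈ A := Iff.rfl

/-- the cokernel -/
def N1 (β : M ≃ₗ[R] M) (g : R) (K : Submodule R M) : Submodule R K :=
  ((pl β K).map (mg M g)).submoduleOf K

/-- the kernel -/
def N2 (β : M ≃ₗ[R] M) (g : R) (K : Submodule R M) : Submodule R M :=
  pl β K ⊓ LinearMap.ker (mg M g)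

/-- the projection to the cokernel, restricted -/
def l1 (φ : R →+* R) (β : M ≃ₗ[R] M) (g : R) (K : Submodule R M) :
    ↥(rs φ K) →ₗ[R] Res φ (K ⧸ N1 β g K) where
  toFun x := Res.mk φ (Submodule.Quotient.mk ⟨x.1.val, x.2⟩)
  map_add' _ _ := rfl
  map_smul' _ _ := rfl

theorem l1_surj (φ : R →+* R) (β : M ≃ₗ[R] M) (g : R) (K : Submodule R M) :
    Function.Surjective (l1 φ β g K) := by
  intro y
  obtain ⟨x, hx⟩ := Submodule.Quotient.mk_surjective _ y.val
  exact ⟨⟨Res.mk φ x.1, x.2⟩, hx⟩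

theorem l1_ker {φ : R →+* R} (β : M ≃ₗ[R] M) {g : R} (hg : φ g = g) (K : Submodule R M) :
    LinearMap.ker (l1 φ β g K) = N1 (Res.equiv φ β) g (rs φ K) := by
  ext x
  rw [LinearMap.mem_ker]
  have e1 : l1 φ β g K x = 0 ↔ (⟨x.1.val, x.2⟩ : K) ∈ N1 β g K := by
    rw [← Submodule.Quotient.mk_eq_zero]
    rfl
  rw [e1]
  unfold N1
  rw [mem_sO, mem_sO, pl_rs]
  constructor
  · rintro ⟨y, hy, hyx⟩
    refine ⟨Res.mk φ y, hy, ?_⟩
    change φ g • y = x.1.val
    rw [hg]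
    exact hyx
  · rintro ⟨y, hy, hyx⟩
    refine ⟨y.val, hy, ?_⟩
    have h : φ g • y.val = x.1.val := hyx
    rw [hg] at h
    exact h

/-- the cokernels -/
def eqv1 {φ : R →+* R} (β : M ≃ₗ[R] M) {g : R} (hg : φ g = g) (K : Submodule R M) :
    (↥(rs φ K) ⧸ N1 (Res.equiv φ β) g (rs φ K)) ≃ₗ[R] Res φ (K ⧸ N1 β g K) :=
  (Submodule.quotEquivOfEq _ _ (l1_ker β hg K).symm).trans
    ((l1 φ β g K).quotKerEquivOfSurjective (l1_surj φ β g K))

theorem mem_N2 {φ : R →+* R} {β : M ≃ₗ[R] M} {g : R} (hg : φ g = g) {K : Submodule R M} {x : Res φ M} :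
    x ∈ N2 (Res.equiv φ β) g (rs φ K) ↔ x.val ∈ N2 β g K := by
  unfold N2
  rw [Submodule.mem_inf, Submodule.mem_inf, pl_rs, mem_rs, LinearMap.mem_ker, LinearMap.mem_ker]
  refine and_congr_right fun _ => ?_
  have h : (mg (Res φ M) g x = 0) ↔ φ g • x.val = 0 := Iff.rfl
  rw [h, hg]
  rfl

/-- the kernels -/
def eqv2 {φ : R →+* R} (β : M ≃ₗ[R] M) {g : R} (hg : φ g = g) (K : Submodule R M) :
    ↥(N2 (Res.equiv φ β) g (rs φ K)) ≃ₗ[R] Res φ ↥(N2 β g K) where
  toFun x := Res.mk φ ⟨x.1.val, (mem_N2 hg).1 x.2⟩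
  map_add' _ _ := rfl
  map_smul' _ _ := rfl
  invFun y := ⟨Res.mk φ y.val.1, (mem_N2 hg).2 y.val.2⟩
  left_inv _ := rfl
  right_inv _ := rfl

theorem th_eq {I : Set R} {V : Type 1} [AddCommGroup V] (χ : AFun R I V) (g : R) (β : M ≃ₗ[R] M)
    (K : Submodule R M) : th χ g β K = χ.f (K ⧸ N1 β g K) - χ.f ↥(N2 β g K) := rfl

theorem N1_fin (β : M ≃ₗ[R] M) (g : R) {K : Submodule R M} (hK : K.FG) :
    Module.Finite R (K ⧸ N1 β g K) := by
  have : Module.Finite R K := Module.Finite.iff_fg.2 hK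
  infer_instance

theorem N2_fin [IsNoetherianRing R] (β : M ≃ₗ[R] M) (g : R) {K : Submodule R M} (hK : K.FG) :
    Module.Finite R ↥(N2 β g K) := by
  have h1 : IsNoetherian R ↥(pl β K) := isNoetherian_of_fg_of_noetherian _ (pl_fg hK)
  have h2 : IsNoetherian R ↥(N2 β g K) := isNoetherian_of_le (inf_le_left : N2 β g K ≤ pl β K)
  infer_instance

theorem N1_kil {f g : R} {I₀ : Set R} {β : M ≃ₗ[R] M} (hk : Kil I₀ M) (hr : Rel f g β)
    (K : Submodule R M) : Kil ({f, g} ∪ I₀) (K ⧸ N1 β g K) := by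
  rw [Kil.pair]
  refine ⟨?_, ?_, (hk.sub K).quot _⟩
  · intro m
    obtain ⟨x, rfl⟩ := Submodule.Quotient.mk_surjective _ m
    rw [← Submodule.Quotient.mk_smul, Submodule.Quotient.mk_eq_zero]
    unfold N1
    rw [mem_sO]
    refine ⟨-β x.1, (pl β K).neg_mem (map_le_pl β K ⟨x.1, x.2, rfl⟩), ?_⟩
    rw [mg_apply, smul_neg, hr.apply', neg_neg]
    rfl
  · intro m
    obtain ⟨x, rfl⟩ := Submodule.Quotient.mk_surjective _ m
    rw [← Submodule.Quotient.mk_smul, Submodule.Quotient.mk_eq_zero]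
    unfold N1
    rw [mem_sO]
    exact ⟨x.1, le_pl β K x.2, rfl⟩

theorem N2_kil {f g : R} {I₀ : Set R} {β : M ≃ₗ[R] M} (hk : Kil I₀ M) (hr : Rel f g β)
    (K : Submodule R M) : Kil ({f, g} ∪ I₀) ↥(N2 β g K) := by
  rw [Kil.pair]
  have h : ∀ x : ↥(N2 β g K), g • x.1 = 0 := fun x => (Submodule.mem_inf.1 x.2).2
  refine ⟨?_, ?_, hk.sub _⟩
  · intro x
    apply Subtype.ext
    change f • x.1 = 0
    have h1 := hr.apply x.1
    rw [h x, map_zero] at h1
    exact (neg_eq_zero.1 h1.symm)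
  · intro x
    apply Subtype.ext
    exact h x

end General

/-! ## The substitution `X_i ↦ z X_i` -/

theorem gz_gz {σ : Type} [DecidableEq σ] (i : σ) {z w : ℂ} (h : z * w = 1) (r : Po σ) :
    gz i z (gz i w r) = r := by
  have e : ((MvPolynomial.aeval (fun j => if j = i then MvPolynomial.C z * MvPolynomial.X j else
      MvPolynomial.X j) : Po σ →ₐ[ℂ] Po σ).comp (MvPolynomial.aeval (fun j => if j = i then
      MvPolynomial.C w * MvPolynomial.X j else MvPolynomial.X j) : Po σ →ₐ[ℂ] Po σ)) =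
      AlgHom.id ℂ (Po σ) := by
    apply MvPolynomial.algHom_ext
    intro j
    rw [AlgHom.comp_apply, MvPolynomial.aeval_X, AlgHom.id_apply]
    by_cases hj : j = i
    · rw [if_pos hj, map_mul, MvPolynomial.aeval_X, if_pos hj, MvPolynomial.aeval_C,
        MvPolynomial.algebraMap_eq, ← mul_assoc, ← MvPolynomial.C_mul, mul_comm w z, h,
        MvPolynomial.C_1, one_mul]
    · rw [if_neg hj, MvPolynomial.aeval_X, if_neg hj]
  exact DFunLike.congr_fun e r

theorem gz_surj {σ : Type} [DecidableEq σ] (i : σ) {z : ℂ} (h : z ≠ 0) :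
    Function.Surjective (gz i z) := fun r => ⟨gz i z⁻¹ r, gz_gz i (mul_inv_cancel₀ h) r⟩

end PB_aux

open PB_aux

theorem tPB : S_PB := by
  intro σ _ _ i f g I₀ V _ χ Ψ d ζ hC hP hζ hf hg hI M _ _ β hL hk hr
  obtain ⟨L, hLf, hLg⟩ := hL
  have hsur : ∀ m : ℕ, Function.Surjective (gz i (ζ ^ m)) := fun m => gz_surj i (pow_ne_zero m hζ)
  have hspan : ∀ m : ℕ, ∀ r ∈ (({f, g} : Set (Po σ)) ∪ I₀), gz i (ζ ^ m) r ∈
      Ideal.span (({f, g} : Set (Po σ)) ∪ I₀) := by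
    intro m r hr
    have e : gz i (ζ ^ m) r = r := by
      rcases hr with (rfl | hr) | hr
      · exact hf m
      · rw [Set.mem_singleton_iff.1 hr]
        exact hg m
      · exact hI r hr m
    rw [e]
    exact Ideal.subset_span hr
  have hk' : ∀ m : ℕ, Kil I₀ (Res (gz i (ζ ^ m)) M) := by
    intro m r hr x
    change gz i (ζ ^ m) r • x.val = 0
    rw [hI r hr m]
    exact hk r hr _
  have hr' : ∀ m : ℕ, Rel f g (Res.equiv (gz i (ζ ^ m)) β) := by
    intro m x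
    change gz i (ζ ^ m) f • x.val + β (gz i (ζ ^ m) g • x.val) = 0
    rw [hf m, hg m]
    exact hr x.val
  have h1 : ∀ m : ℕ, ∃ n₀ : ℕ, ∀ n ≥ n₀,
      Ψ.F (Res (gz i (ζ ^ m)) M) (Res.equiv (gz i (ζ ^ m)) β) =
        th χ g (Res.equiv (gz i (ζ ^ m)) β) (rs (gz i (ζ ^ m)) (Lm β L n)) := by
    intro m
    obtain ⟨n₀, hn⟩ := hC _ (Res.equiv (gz i (ζ ^ m)) β) (hk' m) (hr' m) (rs (gz i (ζ ^ m)) L)
      (rs_fg (hsur m) hLf) (gen_rs _ hLg)
    refine ⟨n₀, fun n hnn => ?_⟩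
    rw [hn n hnn, Lm_rs]
  choose n₀ hn₀ using h1
  obtain ⟨n, hn⟩ : ∃ n : ℕ, ∀ m ∈ Finset.range d, n₀ m ≤ n :=
    ⟨∑ m ∈ Finset.range d, n₀ m, fun m hm => Finset.single_le_sum (fun _ _ => Nat.zero_le _) hm⟩
  have hK : (Lm β L n).FG := Lm_fg hLf n
  have h2 : ∀ m ∈ Finset.range d, Ψ.F (Res (gz i (ζ ^ m)) M) (Res.equiv (gz i (ζ ^ m)) β) =
      χ.f (Res (gz i (ζ ^ m)) (↥(Lm β L n) ⧸ N1 β g (Lm β L n))) -
        χ.f (Res (gz i (ζ ^ m)) ↥(N2 β g (Lm β L n))) := by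
    intro m hm
    rw [hn₀ m n (hn m hm), th_eq]
    rw [χ.iso (eqv1 β (hg m) (Lm β L n)).symm (Res.finite (hsur m) (N1_fin β g hK))
        (Kil.res (hspan m) (N1_kil hk hr _)),
      χ.iso (eqv2 β (hg m) (Lm β L n)).symm (Res.finite (hsur m) (N2_fin β g hK))
        (Kil.res (hspan m) (N2_kil hk hr _))]
  rw [Finset.sum_congr rfl h2, Finset.sum_sub_distrib,
    hP _ (N1_fin β g hK) (N1_kil hk hr _), hP _ (N2_fin β g hK) (N2_kil hk hr _), sub_zero]

end Pool.Agent.FY
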