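import Pool.Agent.Lib.MP_b53bfe_ag.Spec

/-!
# Theorem T1 (MP_b53bfe_ag): the index is additive (snake lemma)
-/

set_option autoImplicit false

noncomputable section

namespace Pool.Agent.FY

open Polynomial

/-- The value of an additive function in the middle of an exact sequence. -/
private theorem tri {R : Type} [CommRing R] {I : Set R} {V : Type 1} [AddCommGroup V]
    (χ : AFun R I V) {A B C : Type} [AddCommGroup A] [Module R A] [AddCommGroup B] [Module R B]
    [AddCommGroup C] [Module R C] (u : A →ₗ[R] B) (v : B →ₗ[R] C) (hB : Module.Finite R B)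
    (hk : Kil I B) (h : Function.Exact u v) :
    χ.f B = χ.f (LinearMap.range u) + χ.f (LinearMap.range v) := by
  refine χ.add _ B _ (LinearMap.range u).subtype v.rangeRestrict hB hk
    (Submodule.injective_subtype _) v.surjective_rangeRestrict ?_
  intro b
  constructor
  · intro hb
    have h1 : v b = 0 := congrArg Subtype.val hb
    obtain ⟨a, ha⟩ := (h b).1 h1
    exact ⟨⟨b, a, ha⟩, rfl⟩
  · rintro ⟨⟨b', a, ha⟩, rfl⟩
    apply Subtype.ext
    show v b' = 0
    rw [← ha]
    exact (h (u a)).2 ⟨a, rfl⟩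

/-- The six term exact sequence. -/
private theorem six {R : Type} [CommRing R] {I : Set R} {V : Type 1} [AddCommGroup V]
    (χ : AFun R I V) {K1 K2 K3 C1 C2 C3 : Type} [AddCommGroup K1] [Module R K1]
    [AddCommGroup K2] [Module R K2] [AddCommGroup K3] [Module R K3] [AddCommGroup C1]
    [Module R C1] [AddCommGroup C2] [Module R C2] [AddCommGroup C3] [Module R C3]
    (u : K1 →ₗ[R] K2) (v : K2 →ₗ[R] K3) (w : K3 →ₗ[R] C1) (x : C1 →ₗ[R] C2) (y : C2 →ₗ[R] C3)
    (f2 : Module.Finite R K2) (f3 : Module.Finite R K3) (g1 : Module.Finite R C1)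
    (g2 : Module.Finite R C2) (k2 : Kil I K2) (k3 : Kil I K3) (l1 : Kil I C1) (l2 : Kil I C2)
    (hu : Function.Injective u) (huv : Function.Exact u v) (hvw : Function.Exact v w)
    (hwx : Function.Exact w x) (hxy : Function.Exact x y) (hy : Function.Surjective y) :
    χ.f C2 - χ.f K2 = (χ.f C1 - χ.f K1) + (χ.f C3 - χ.f K3) := by
  have e1 : χ.f K2 = χ.f K1 + χ.f (LinearMap.range v) := by
    refine χ.add K1 K2 _ u v.rangeRestrict f2 k2 hu v.surjective_rangeRestrict ?_
    intro b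
    constructor
    · intro hb
      exact (huv b).1 (congrArg Subtype.val hb)
    · intro hb
      exact Subtype.ext ((huv b).2 hb)
  have e2 := tri χ v w f3 k3 hvw
  have e3 := tri χ w x g1 l1 hwx
  have e4 : χ.f C2 = χ.f (LinearMap.range x) + χ.f C3 := by
    refine χ.add _ C2 C3 (LinearMap.range x).subtype y g2 l2 (Submodule.injective_subtype _) hy ?_
    intro b
    constructor
    · intro hb
      obtain ⟨a, ha⟩ := (hxy b).1 hb
      exact ⟨⟨b, a, ha⟩, rfl⟩
    · rintro ⟨⟨b', a, ha⟩, rfl⟩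
      show y b' = 0
      rw [← ha]
      exact (hxy (x a)).2 ⟨a, rfl⟩
  rw [e1, e2, e3, e4]
  abel

/-- **The index is additive.** -/
theorem tSn : S_Sn := by
  intro R _ _ I V _ χ P₁ P₂ P₃ Q₁ Q₂ Q₃ _ _ _ _ _ _ _ _ _ _ _ _ i p j q a₁ a₂ a₃ hP hQ hi hp hip hj hq
    hjq h1 h2 k1 l1 k2 l2 k3 l3
  have hP3 : Module.Finite R P₃ := Module.Finite.of_surjective p hp
  have hQ1 : Module.Finite R Q₁ := Module.Finite.of_injective j hj
  have H1 : j.comp a₁ = a₂.comp i := LinearMap.ext h1
  have H2 : q.comp a₂ = a₃.comp p := LinearMap.ext h2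
  have hu : ∀ x ∈ LinearMap.ker a₁, i x ∈ LinearMap.ker a₂ := by
    intro x hx
    rw [LinearMap.mem_ker] at hx ⊢
    rw [← h1, hx, map_zero]
  have hv : ∀ x ∈ LinearMap.ker a₂, p x ∈ LinearMap.ker a₃ := by
    intro x hx
    rw [LinearMap.mem_ker] at hx ⊢
    rw [← h2, hx, map_zero]
  have hx : LinearMap.range a₁ ≤ (LinearMap.range a₂).comap j := by
    rintro _ ⟨z, rfl⟩
    exact ⟨i z, (h1 z).symm⟩
  have hy : LinearMap.range a₂ ≤ (LinearMap.range a₃).comap q := by
    rintro _ ⟨z, rfl⟩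
    exact ⟨p z, (h2 z).symm⟩
  have hι3 : Function.Exact (LinearMap.ker a₃).subtype a₃ := LinearMap.exact_subtype_ker_map a₃
  have hι2 : Function.Exact (LinearMap.ker a₂).subtype a₂ := LinearMap.exact_subtype_ker_map a₂
  have hπ1 : Function.Exact a₁ (LinearMap.range a₁).mkQ := LinearMap.exact_map_mkQ_range a₁
  have hπ2 : Function.Exact a₂ (LinearMap.range a₂).mkQ := LinearMap.exact_map_mkQ_range a₂
  refine six χ (i.restrict hu) (p.restrict hv)
    (SnakeLemma.δ' a₁ a₂ a₃ i p hip j q hjq H1 H2 (LinearMap.ker a₃).subtype hι3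
      (LinearMap.range a₁).mkQ hπ1 hp hj)
    (Submodule.mapQ _ _ j hx) (Submodule.mapQ _ _ q hy) inferInstance inferInstance inferInstance
    inferInstance k2 k3 l1 l2 ?_ ?_ ?_ ?_ ?_ ?_
  · intro x x' h
    apply Subtype.ext
    exact hi (congrArg Subtype.val h)
  · intro b
    constructor
    · intro hb
      have hb' : p b.1 = 0 := congrArg Subtype.val hb
      obtain ⟨z, hz⟩ := (hip b.1).1 hb'
      have hz1 : z ∈ LinearMap.ker a₁ := by
        rw [LinearMap.mem_ker]
        apply hj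
        rw [h1, hz, map_zero]
        exact b.2
      exact ⟨⟨z, hz1⟩, Subtype.ext hz⟩
    · rintro ⟨z, rfl⟩
      apply Subtype.ext
      exact (hip (i z.1)).2 ⟨z.1, rfl⟩
  · exact SnakeLemma.exact_δ'_right a₁ a₂ a₃ i p hip j q hjq H1 H2 (LinearMap.ker a₂).subtype hι2
      (LinearMap.ker a₃).subtype hι3 (LinearMap.range a₁).mkQ hπ1 hp hj (p.restrict hv)
      (LinearMap.ext fun x => rfl) (Submodule.injective_subtype _)
  · exact SnakeLemma.exact_δ'_left a₁ a₂ a₃ i p hip j q hjq H1 H2 (LinearMap.ker a₃).subtype hι3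
      (LinearMap.range a₁).mkQ hπ1 (LinearMap.range a₂).mkQ hπ2 hp hj (Submodule.mapQ _ _ j hx)
      (LinearMap.ext fun x => rfl) (Submodule.mkQ_surjective _)
  · intro c
    obtain ⟨z, rfl⟩ := Submodule.mkQ_surjective _ c
    constructor
    · intro hc
      have h3 : (LinearMap.range a₃).mkQ (q z) = 0 := hc
      rw [Submodule.mkQ_apply, Submodule.Quotient.mk_eq_zero] at h3
      obtain ⟨t, ht⟩ := h3
      obtain ⟨s, rfl⟩ := hp t
      rw [← h2] at ht
      have h4 : q (z - a₂ s) = 0 := by rw [map_sub, ht, sub_self]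
      obtain ⟨r, hr⟩ := (hjq _).1 h4
      refine ⟨(LinearMap.range a₁).mkQ r, ?_⟩
      show (LinearMap.range a₂).mkQ (j r) = (LinearMap.range a₂).mkQ z
      rw [hr, map_sub, sub_eq_self]
      rw [Submodule.mkQ_apply, Submodule.Quotient.mk_eq_zero]
      exact ⟨s, rfl⟩
    · rintro ⟨c', hc'⟩
      obtain ⟨r, rfl⟩ := Submodule.mkQ_surjective _ c'
      rw [← hc']
      show (LinearMap.range a₃).mkQ (q (j r)) = 0
      rw [(hjq (j r)).2 ⟨r, rfl⟩, map_zero]
  · intro c
    obtain ⟨z, rfl⟩ := Submodule.mkQ_surjective _ c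
    obtain ⟨s, rfl⟩ := hq z
    exact ⟨(LinearMap.range a₂).mkQ s, rfl⟩

end Pool.Agent.FY
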