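import Pool.Agent.Lib.MP_b53bfe_ag.Spec
import Pool.Agent.Lib.MP_b53bfe_ag.Bas

/-!
# Module Stp: the condition `St` from the twists (author helper62)
-/

set_option autoImplicit false

noncomputable section

namespace Pool.Agent.FY

open Polynomial

namespace Stp_aux

variable {σ : Type} [DecidableEq σ]

/-- `gz i z` is the composition of `nu i` and the evaluation at `z X_i`. -/
theorem ev_nu (i : σ) (z : ℂ) : (Polynomial.eval₂RingHom (RingHom.id (Po σ))
    (MvPolynomial.C z * MvPolynomial.X i)).comp (nu i) = gz i z := by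
  refine MvPolynomial.ringHom_ext (fun c => ?_) (fun j => ?_)
  · have e1 : nu i (MvPolynomial.C c) = C (MvPolynomial.C c : Po σ) := by
      change (MvPolynomial.aeval _ : Po σ →ₐ[ℂ] (Po σ)[X]) (MvPolynomial.C c) = _
      rw [← MvPolynomial.algebraMap_eq, AlgHom.commutes]
      rfl
    have e2 : gz i z (MvPolynomial.C c) = (MvPolynomial.C c : Po σ) := by
      change (MvPolynomial.aeval _ : Po σ →ₐ[ℂ] Po σ) (MvPolynomial.C c) = _
      rw [← MvPolynomial.algebraMap_eq, AlgHom.commutes]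
    rw [RingHom.comp_apply, e1, e2, Polynomial.coe_eval₂RingHom, Polynomial.eval₂_C]
    rfl
  · have e1 : nu i (MvPolynomial.X j) = if j = i then (X : (Po σ)[X]) else C (MvPolynomial.X j) := by
      change (MvPolynomial.aeval _ : Po σ →ₐ[ℂ] (Po σ)[X]) (MvPolynomial.X j) = _
      rw [MvPolynomial.aeval_X]
    have e2 : gz i z (MvPolynomial.X j) =
        if j = i then MvPolynomial.C z * MvPolynomial.X j else (MvPolynomial.X j : Po σ) := by
      change (MvPolynomial.aeval _ : Po σ →ₐ[ℂ] Po σ) (MvPolynomial.X j) = _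
      rw [MvPolynomial.aeval_X]
    rw [RingHom.comp_apply, e1, e2, Polynomial.coe_eval₂RingHom]
    by_cases hj : j = i
    · rw [if_pos hj, if_pos hj, Polynomial.eval₂_X, hj]
    · rw [if_neg hj, if_neg hj, Polynomial.eval₂_C]
      rfl

theorem gz_ni {i : σ} {r : Po σ} (z : ℂ) (h : NI i r) : gz i z r = r := by
  have h1 := congrArg (fun φ : Po σ →+* Po σ => φ r) (ev_nu i z)
  change (Polynomial.eval₂RingHom (RingHom.id (Po σ)) (MvPolynomial.C z * MvPolynomial.X i)) (nu i r) = gz i z r at h1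
  rw [← h1, h, Polynomial.coe_eval₂RingHom, Polynomial.eval₂_C]
  rfl

theorem gz_surj (i : σ) {z : ℂ} (hz : z ≠ 0) : Function.Surjective (gz (σ := σ) i z) := by
  have key : (gz i z).comp (gz i z⁻¹) = RingHom.id (Po σ) := by
    refine MvPolynomial.ringHom_ext (fun c => ?_) (fun j => ?_)
    · have e2 : ∀ z : ℂ, gz i z (MvPolynomial.C c) = (MvPolynomial.C c : Po σ) := by
        intro z
        change (MvPolynomial.aeval _ : Po σ →ₐ[ℂ] Po σ) (MvPolynomial.C c) = _
        rw [← MvPolynomial.algebraMap_eq, AlgHom.commutes]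
      rw [RingHom.comp_apply, e2, e2, RingHom.id_apply]
    · have e0 : ∀ z c : ℂ, gz i z (MvPolynomial.C c) = (MvPolynomial.C c : Po σ) := by
        intro z c
        change (MvPolynomial.aeval _ : Po σ →ₐ[ℂ] Po σ) (MvPolynomial.C c) = _
        rw [← MvPolynomial.algebraMap_eq, AlgHom.commutes]
      have e2 : ∀ z : ℂ, gz i z (MvPolynomial.X j) =
          if j = i then MvPolynomial.C z * MvPolynomial.X j else (MvPolynomial.X j : Po σ) := by
        intro z
        change (MvPolynomial.aeval _ : Po σ →ₐ[ℂ] Po σ) (MvPolynomial.X j) = _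
        rw [MvPolynomial.aeval_X]
      rw [RingHom.comp_apply, e2, RingHom.id_apply]
      by_cases hj : j = i
      · rw [if_pos hj, map_mul, e0, e2, if_pos hj, ← mul_assoc, ← MvPolynomial.C_mul,
          inv_mul_cancel₀ hz, MvPolynomial.C_1, one_mul]
      · rw [if_neg hj, e2, if_neg hj]
  intro x
  refine ⟨gz i z⁻¹ x, ?_⟩
  have h1 := congrArg (fun φ : Po σ →+* Po σ => φ x) key
  exact h1

section

variable {R : Type} [CommRing R] (φ : R →+* R) (f : R) (Q : Type) [AddCommGroup Q] [Module R Q]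

/-- The cokernels. -/
def eq1 (hf : φ f = f) : (Res φ Q ⧸ LinearMap.range (mg (Res φ Q) f)) ≃ₗ[R] Res φ (Q ⧸ LinearMap.range (mg Q f)) :=
  (Submodule.quotEquivOfEq _ _ (by
    ext x
    constructor
    · rintro ⟨y, rfl⟩
      rw [LinearMap.mem_ker]
      change Res.mk φ ((LinearMap.range (mg Q f)).mkQ (φ f • y.val)) = 0
      rw [hf]
      have h : (LinearMap.range (mg Q f)).mkQ (f • y.val) = 0 := by
        rw [Submodule.mkQ_apply, Submodule.Quotient.mk_eq_zero]
        exact ⟨y.val, rfl⟩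
      exact h
    · intro h
      have h1 : (LinearMap.range (mg Q f)).mkQ x.val = 0 := h
      rw [Submodule.mkQ_apply, Submodule.Quotient.mk_eq_zero] at h1
      obtain ⟨y, hy⟩ := h1
      refine ⟨Res.mk φ y, ?_⟩
      change Res.mk φ (φ f • y) = x
      rw [hf]
      exact hy)).trans
    (LinearMap.quotKerEquivOfSurjective (Res.map φ (LinearMap.range (mg Q f)).mkQ)
      (Res.map_surj (Submodule.mkQ_surjective _)))

/-- The kernels. -/
def eq2 (hf : φ f = f) : LinearMap.ker (mg (Res φ Q) f) ≃ₗ[R] Res φ (LinearMap.ker (mg Q f)) :=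
  ((LinearEquiv.ofInjective (Res.map φ (LinearMap.ker (mg Q f)).subtype)
    (Res.map_inj (Submodule.injective_subtype _))).trans (LinearEquiv.ofEq _ _ (by
    ext x
    constructor
    · rintro ⟨y, rfl⟩
      rw [LinearMap.mem_ker]
      have h1 : f • (y.val : Q) = 0 := y.val.2
      change Res.mk φ (φ f • (y.val : Q)) = 0
      rw [hf]
      exact h1
    · intro h
      have h1 : φ f • x.val = 0 := h
      rw [hf] at h1
      exact ⟨Res.mk φ ⟨x.val, h1⟩, rfl⟩))).symm

end

/-- The index of `f` as an additive function. -/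
def theta (hSn : S_Sn) {R : Type} [CommRing R] [IsNoetherianRing R] (f g : R) (I₀ : Set R) {V : Type 1}
    [AddCommGroup V] (χ : AFun R ({f, g} ∪ I₀) V) : AFun R (insert g I₀) V where
  f Q _ _ := ind χ (mg Q f)
  add A B C _ _ _ _ _ _ i p hB hk hi hp he := by
    have kA : Kil (insert g I₀) A := Kil.inj hi hk
    have kC : Kil (insert g I₀) C := Kil.surj hp hk
    have k1 : ∀ (D : Type) [AddCommGroup D] [Module R D], Kil (insert g I₀) D →
        Kil ({f, g} ∪ I₀) (LinearMap.ker (mg D f)) := by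
      intro D _ _ hD
      rw [Kil.pair]
      obtain ⟨h1, h2⟩ := Kil.insert.1 hD
      exact ⟨fun m => Subtype.ext m.2, fun m => Subtype.ext (h1 m), Kil.sub h2 _⟩
    have k2 : ∀ (D : Type) [AddCommGroup D] [Module R D], Kil (insert g I₀) D →
        Kil ({f, g} ∪ I₀) (D ⧸ LinearMap.range (mg D f)) := by
      intro D _ _ hD
      rw [Kil.pair]
      obtain ⟨h1, h2⟩ := Kil.insert.1 hD
      refine ⟨fun m => ?_, fun m => ?_, Kil.quot h2 _⟩
      · obtain ⟨x, rfl⟩ := Submodule.Quotient.mk_surjective _ m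
        rw [← Submodule.Quotient.mk_smul, Submodule.Quotient.mk_eq_zero]
        exact ⟨x, rfl⟩
      · obtain ⟨x, rfl⟩ := Submodule.Quotient.mk_surjective _ m
        rw [← Submodule.Quotient.mk_smul, h1, Submodule.Quotient.mk_zero]
    exact hSn R ({f, g} ∪ I₀) V χ A B C A B C i p i p (mg A f) (mg B f) (mg C f) hB hB hi hp he hi hp he
      (fun x => by rw [mg_apply, mg_apply, map_smul]) (fun x => by rw [mg_apply, mg_apply, map_smul])
      (k1 A kA) (k2 A kA) (k1 B hk) (k2 B hk) (k1 C kC) (k2 C kC)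

end Stp_aux

open Stp_aux

theorem tStp : S_Sn → S_Hg → S_Stp := by
  intro hSn hHg σ _ _ i f g I₀ V _ _ d ζ χ hd hζ hg hI hf hPP Q _ _ hQ hkQ hgQ
  have hIg : ∀ r ∈ insert g I₀, NI i r := by
    intro r hr
    rcases hr with rfl | hr
    · exact hg
    · exact hI r hr
  have hkg : Kil (insert g I₀) Q := Kil.insert.2 ⟨hgQ, hkQ⟩
  -- killed modules
  have kq : Kil ({f, g} ∪ I₀) (Q ⧸ LinearMap.range (mg Q f)) := by
    rw [Kil.pair]
    refine ⟨fun m => ?_, fun m => ?_, Kil.quot hkQ _⟩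
    · obtain ⟨x, rfl⟩ := Submodule.Quotient.mk_surjective _ m
      rw [← Submodule.Quotient.mk_smul, Submodule.Quotient.mk_eq_zero]
      exact ⟨x, rfl⟩
    · obtain ⟨x, rfl⟩ := Submodule.Quotient.mk_surjective _ m
      rw [← Submodule.Quotient.mk_smul, hgQ, Submodule.Quotient.mk_zero]
  have kk : Kil ({f, g} ∪ I₀) (LinearMap.ker (mg Q f)) := by
    rw [Kil.pair]
    exact ⟨fun m => Subtype.ext m.2, fun m => Subtype.ext (hgQ m), Kil.sub hkQ _⟩
  have fq : Module.Finite (Po σ) (Q ⧸ LinearMap.range (mg Q f)) := inferInstance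
  have fk : Module.Finite (Po σ) (LinearMap.ker (mg Q f)) := inferInstance
  have hspan : ∀ m : ℕ, ∀ r ∈ ({f, g} ∪ I₀ : Set (Po σ)), gz i (ζ ^ m) r ∈ Ideal.span ({f, g} ∪ I₀ : Set (Po σ)) := by
    intro m r hr
    have h1 : gz i (ζ ^ m) r = r := by
      rcases hr with (rfl | hr) | hr
      · exact hf m
      · rw [Set.mem_singleton_iff.1 hr]
        exact gz_ni _ hg
      · exact gz_ni _ (hI r hr)
    rw [h1]
    exact Ideal.subset_span hr
  have hterm : ∀ m : ℕ, ind χ (mg Q f) = χ.f (Res (gz i (ζ ^ m)) (Q ⧸ LinearMap.range (mg Q f))) -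
      χ.f (Res (gz i (ζ ^ m)) (LinearMap.ker (mg Q f))) := by
    intro m
    have h1 := hHg σ i (insert g I₀) V (theta hSn f g I₀ χ) (ζ ^ m) Q (pow_ne_zero m hζ) hIg hQ hkg
    have h2 : ind χ (mg (Res (gz i (ζ ^ m)) Q) f) = ind χ (mg Q f) := h1
    rw [← h2]
    have hs := gz_surj i (pow_ne_zero m hζ)
    have e1 := χ.iso (eq1 (gz i (ζ ^ m)) f Q (hf m)).symm (Res.finite hs fq) (Kil.res (hspan m) kq)
    have e2 := χ.iso (eq2 (gz i (ζ ^ m)) f Q (hf m)).symm (Res.finite hs fk) (Kil.res (hspan m) kk)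
    rw [e1, e2]
    rfl
  have hsum : ∑ m ∈ Finset.range d, ind χ (mg Q f) = 0 := by
    rw [Finset.sum_congr rfl fun m _ => hterm m, Finset.sum_sub_distrib, hPP _ fq kq, hPP _ fk kk, sub_zero]
  rw [Finset.sum_const, Finset.card_range] at hsum
  have h3 : ind χ (mg Q f) = 0 := by
    have h4 : (d : ℚ) • ind χ (mg Q f) = 0 := by
      rw [Nat.cast_smul_eq_nsmul]
      exact hsum
    exact (smul_eq_zero.1 h4).resolve_left (by exact_mod_cast (by omega : d ≠ 0))
  exact sub_eq_zero.1 h3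

end Pool.Agent.FY
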