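import Pool.Agent.Lib.MP_b53bfe_ag.Spec2
import Pool.Agent.Lib.MP_b53bfe_ag.Bas

/-!
# Assembly of theorem T1 for additive functions
-/

set_option autoImplicit false

noncomputable section

namespace Pool.Agent.FY

open Polynomial

theorem T1_aux.rho_surj (n : ℕ) : Function.Surjective (rho n) := by
  intro q
  have key : ∀ q : PA n, ∃ p : Po (Ix n), rho n p = q := by
    intro q
    induction q using MvPolynomial.induction_on with
    | C a => exact ⟨MvPolynomial.C a, by simp [rho]⟩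
    | add p q hp hq =>
      obtain ⟨a, ha⟩ := hp
      obtain ⟨b, hb⟩ := hq
      exact ⟨a + b, by rw [map_add, ha, hb]⟩
    | mul_X p i hp =>
      obtain ⟨a, ha⟩ := hp
      rcases i with j | k
      · refine ⟨a * MvPolynomial.X (0, j), ?_⟩
        rw [map_mul, ha]
        simp [rho]
      · fin_cases k
        · refine ⟨a * MvPolynomial.X (1, 0), ?_⟩
          rw [map_mul, ha]
          simp [rho]
        · refine ⟨a * MvPolynomial.X (2, 0), ?_⟩
          rw [map_mul, ha]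
          simp [rho]
  exact key q

theorem T1_aux.rho_Fk (n d : ℕ) : rho n (Fk n d) = cc n d * ss n d := by
  simp only [Fk, map_sum, map_mul, map_add, map_one, map_pow, xv, rho, cc, ss, AlgHom.toRingHom_eq_coe, RingHom.coe_coe,
    MvPolynomial.aeval_X]
  rw [Finset.mul_sum]
  refine Finset.sum_congr rfl fun j _ => ?_
  simp
  ring

theorem T1_aux.eval_cc (n d : ℕ) : (MvPolynomial.aeval (fun _ => (1 : ℂ)) : PA n →ₐ[ℂ] ℂ) (cc n d) = 3 := by
  simp [cc]
  norm_num

theorem tT1 : S_Ab → S_Ac → S_Lc → S_Lv → S_Ba → S_Bb → S_T1 := by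
  intro hAb hAc hLc hLv hBa hBb n d V _ _ χ hd hdn
  have hd1 : 1 ≤ d := le_trans one_le_two hd
  have hζ : IsPrimitiveRoot (Complex.exp (2 * Real.pi * Complex.I / d)) d :=
    Complex.isPrimitiveRoot_exp d (by omega)
  obtain ⟨χ₀, hP, h0⟩ := hAb n d V χ _ hd1 hζ
  obtain ⟨χ₂, h2⟩ := hAc n d V χ₀ _ hd1 hζ hP
  obtain ⟨χ', h'⟩ := hLc n d V χ₂ hd1 (hLv n d V χ₂ hd1)
  have hcc : cc n d ≠ 0 := by
    intro h
    have := T1_aux.eval_cc n d
    rw [h, map_zero] at this
    norm_num at this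
  have hm := χ'.mul (rho n) (T1_aux.rho_surj n) (cc n d) (ss n d)
    (fun x hx => (mul_eq_zero.1 hx).resolve_left hcc) (by
      intro r hr
      rw [Set.mem_singleton_iff.1 hr, T1_aux.rho_Fk]
      exact Ideal.mem_span_singleton_self _)
  rw [hBa n d V χ' hd1, hBb n d V χ' hd hdn, add_zero, h', h2, h0] at hm
  have h3 : ((d : ℤ) ^ 2) • χ.f (Po (Ix n) ⧸ Ideal.span (gA n d)) = 0 := hm.symm
  have h4 : (((d : ℤ) ^ 2 : ℤ) : ℚ) • χ.f (Po (Ix n) ⧸ Ideal.span (gA n d)) = 0 := by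
    rw [Int.cast_smul_eq_zsmul]; exact h3
  have h5 : (((d : ℤ) ^ 2 : ℤ) : ℚ) ≠ 0 := by
    have : (d : ℤ) ≠ 0 := by omega
    exact_mod_cast pow_ne_zero 2 this
  exact (smul_eq_zero.1 h4).resolve_left h5

end Pool.Agent.FY
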