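import Pool.Agent.Lib.MP_b53bfe_ag.Spec
import Pool.Agent.Lib.MP_b53bfe_ag.Bas

/-!
# Theorem T1 (MP_b53bfe_ag): the functor `P ↦ P[X_i] / (X_i ^ d + g)`
-/

set_option autoImplicit false

noncomputable section

namespace Pool.Agent.FY

open Polynomial

namespace Tha_aux

section gen

variable {R : Type} [CommRing R] {A B C : Type} [AddCommGroup A] [Module R A] [AddCommGroup B]
  [Module R B] [AddCommGroup C] [Module R C]

/-- the map on polynomial modules -/
private def pm (l : A →ₗ[R] B) : PolynomialModule R A →ₗ[R[X]] PolynomialModule R B where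
  toFun q := PolynomialModule.map R l q
  map_add' := map_add _
  map_smul' p q := by
    rw [PolynomialModule.map_smul, Algebra.algebraMap_self, Polynomial.map_id, RingHom.id_apply]

private lemma pm_coeff (l : A →ₗ[R] B) (q : PolynomialModule R A) (k : ℕ) :
    (pm l q).coeff k = l (q.coeff k) := rfl

private lemma pm_ext {x y : PolynomialModule R A} (h : ∀ k, x.coeff k = y.coeff k) : x = y :=
  PolynomialModule.coeff_injective (Finsupp.ext h)

private lemma pm_inj {l : A →ₗ[R] B} (h : Function.Injective l) : Function.Injective (pm l) := by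
  intro x y hxy
  refine pm_ext fun k => h ?_
  rw [← pm_coeff, ← pm_coeff, hxy]

private lemma pm_lift {l : A →ₗ[R] B} (y : PolynomialModule R B) (h : ∀ k, ∃ a, l a = y.coeff k) :
    ∃ x, pm l x = y := by
  choose s hs using h
  classical
  refine ⟨PolynomialModule.ofCoeff R (Finsupp.onFinset y.coeff.support
    (fun k => if y.coeff k = 0 then 0 else s k) ?_), pm_ext fun k => ?_⟩
  · intro k hk
    rw [Finsupp.mem_support_iff]
    intro h0
    exact hk (if_pos h0)
  · rw [pm_coeff, PolynomialModule.coeff_ofCoeff, Finsupp.onFinset_apply]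
    by_cases h0 : y.coeff k = 0
    · rw [if_pos h0, map_zero, h0]
    · rw [if_neg h0, hs]

private lemma pm_surj {l : A →ₗ[R] B} (h : Function.Surjective l) : Function.Surjective (pm l) :=
  fun y => pm_lift y fun _ => h _

private lemma pm_exact {u : A →ₗ[R] B} {v : B →ₗ[R] C} (h : Function.Exact u v) :
    Function.Exact (pm u) (pm v) := by
  intro y
  constructor
  · intro hy
    refine pm_lift y fun k => ?_
    refine (h _).1 ?_
    rw [← pm_coeff, hy]
    rfl
  · rintro ⟨x, rfl⟩
    refine pm_ext fun k => ?_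
    rw [pm_coeff, pm_coeff]
    exact (h _).2 ⟨_, rfl⟩

private lemma mul_coeff (d : ℕ) (g : R) (q : PolynomialModule R A) (k : ℕ) :
    ((X ^ d + Polynomial.C g : R[X]) • q).coeff k =
      (if d ≤ k then q.coeff (k - d) else 0) + g • q.coeff k := by
  have e1 : (X ^ d : R[X]) = monomial d 1 := by rw [← Polynomial.monomial_one_right_eq_X_pow]
  have e2 : (Polynomial.C g : R[X]) = monomial 0 g := rfl
  rw [add_smul, PolynomialModule.coeff_add, Finsupp.add_apply, e1, e2,
    PolynomialModule.monomial_smul_apply, PolynomialModule.monomial_smul_apply, one_smul,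
    if_pos (Nat.zero_le k), Nat.sub_zero]

private lemma mul_inj {d : ℕ} (hd : 1 ≤ d) (g : R) (q : PolynomialModule R A)
    (h : (X ^ d + Polynomial.C g : R[X]) • q = 0) : q = 0 := by
  have h1 : ∀ k, q.coeff k = -(g • q.coeff (k + d)) := by
    intro k
    have h2 := mul_coeff d g q (k + d)
    rw [h, if_pos (by omega), Nat.add_sub_cancel] at h2
    exact eq_neg_of_add_eq_zero_left h2.symm
  obtain ⟨N, hN⟩ : ∃ N, ∀ k, N ≤ k → q.coeff k = 0 := by
    refine ⟨q.coeff.support.sup id + 1, fun k hk => ?_⟩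
    by_contra hne
    have := Finset.le_sup (f := id) (Finsupp.mem_support_iff.2 hne)
    simp only [id] at this
    omega
  have h3 : ∀ j k, N ≤ k + j → q.coeff k = 0 := by
    intro j
    induction j with
    | zero => intro k hk; exact hN k hk
    | succ j ih =>
      intro k hk
      rw [h1, ih (k + d) (by omega), smul_zero, neg_zero]
  exact pm_ext fun k => h3 N k (by omega)

/-- the quotient -/
private abbrev Qm (A : Type) [AddCommGroup A] [Module R A] (d : ℕ) (g : R) : Type :=
  PolynomialModule R A ⧸ LinearMap.range (mg (PolynomialModule R A) (X ^ d + Polynomial.C g : R[X]))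

private def tq (l : A →ₗ[R] B) (d : ℕ) (g : R) : Qm A d g →ₗ[R[X]] Qm B d g :=
  Submodule.mapQ _ _ (pm l) (by
    rintro _ ⟨x, rfl⟩
    exact ⟨pm l x, ((pm l).map_smul _ x).symm⟩)

private lemma tq_mk (l : A →ₗ[R] B) (d : ℕ) (g : R) (x : PolynomialModule R A) :
    tq l d g (Submodule.Quotient.mk x) = Submodule.Quotient.mk (pm l x) := rfl

private lemma mk_zero {d : ℕ} {g : R} {x : PolynomialModule R A} :
    (Submodule.Quotient.mk x : Qm A d g) = 0 ↔
      ∃ y, (X ^ d + Polynomial.C g : R[X]) • y = x := by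
  rw [Submodule.Quotient.mk_eq_zero]
  rfl

private lemma tq_surj {l : A →ₗ[R] B} (h : Function.Surjective l) (d : ℕ) (g : R) :
    Function.Surjective (tq l d g) := by
  intro y
  obtain ⟨y, rfl⟩ := Submodule.Quotient.mk_surjective _ y
  obtain ⟨x, rfl⟩ := pm_surj h y
  exact ⟨Submodule.Quotient.mk x, rfl⟩

private lemma tq_exact {u : A →ₗ[R] B} {v : B →ₗ[R] C} (h : Function.Exact u v)
    (hv : Function.Surjective v) (d : ℕ) (g : R) : Function.Exact (tq u d g) (tq v d g) := by
  intro y
  obtain ⟨y, rfl⟩ := Submodule.Quotient.mk_surjective _ y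
  constructor
  · intro hy
    rw [tq_mk, mk_zero] at hy
    obtain ⟨z, hz⟩ := hy
    obtain ⟨y', rfl⟩ := pm_surj hv z
    have h1 : pm v (y - (X ^ d + Polynomial.C g : R[X]) • y') = 0 := by
      rw [map_sub, LinearMap.map_smul, hz, sub_self]
    obtain ⟨x, hx⟩ := (pm_exact h _).1 h1
    refine ⟨Submodule.Quotient.mk x, ?_⟩
    rw [tq_mk, hx, Submodule.Quotient.mk_sub, sub_eq_self, mk_zero]
    exact ⟨y', rfl⟩
  · rintro ⟨x, hx⟩
    obtain ⟨x, rfl⟩ := Submodule.Quotient.mk_surjective _ x
    rw [← hx, tq_mk, tq_mk, (pm_exact h _).2 ⟨x, rfl⟩]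
    rfl

private lemma tq_inj {u : A →ₗ[R] B} {v : B →ₗ[R] C} (hu : Function.Injective u)
    (h : Function.Exact u v) {d : ℕ} (hd : 1 ≤ d) (g : R) : Function.Injective (tq u d g) := by
  rw [injective_iff_map_eq_zero]
  intro x hx
  obtain ⟨x, rfl⟩ := Submodule.Quotient.mk_surjective _ x
  rw [tq_mk, mk_zero] at hx
  obtain ⟨y, hy⟩ := hx
  have h1 : pm v y = 0 := by
    refine mul_inj hd g _ ?_
    rw [← LinearMap.map_smul, hy]
    exact (pm_exact h _).2 ⟨x, rfl⟩
  obtain ⟨x', rfl⟩ := (pm_exact h _).1 h1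
  rw [← LinearMap.map_smul] at hy
  rw [mk_zero]
  exact ⟨x', pm_inj hu hy⟩

end gen

section poly

variable {σ : Type} [DecidableEq σ]

private lemma nu_X (i : σ) : nu i (MvPolynomial.X i) = X := by
  unfold nu
  simp

private lemma NI_add {i : σ} {r s : Po σ} (hr : NI i r) (hs : NI i s) : NI i (r + s) := by
  unfold NI at *
  rw [map_add, hr, hs, Polynomial.C_add]

private lemma NI_mul {i : σ} {r s : Po σ} (hr : NI i r) (hs : NI i s) : NI i (r * s) := by
  unfold NI at *
  rw [map_mul, hr, hs, Polynomial.C_mul]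

private lemma NI_C (i : σ) (a : ℂ) : NI i (MvPolynomial.C a) := by
  unfold NI nu
  simp only [AlgHom.toRingHom_eq_coe, RingHom.coe_coe, MvPolynomial.algHom_C]
  rfl

private lemma NI_X {i j : σ} (h : j ≠ i) : NI i (MvPolynomial.X j) := by
  unfold NI nu
  simp [h]

private lemma dec (i : σ) (r : Po σ) : ∃ r' t : Po σ, NI i r' ∧ r = r' + t * MvPolynomial.X i := by
  induction r using MvPolynomial.induction_on with
  | C a => exact ⟨MvPolynomial.C a, 0, NI_C i a, by ring⟩
  | add p q hp hq =>
    obtain ⟨p', s, hp', hp⟩ := hp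
    obtain ⟨q', t, hq', hq⟩ := hq
    exact ⟨p' + q', s + t, NI_add hp' hq', by rw [hp, hq]; ring⟩
  | mul_X p j hp =>
    obtain ⟨p', s, hp', hp⟩ := hp
    by_cases h : j = i
    · subst h
      refine ⟨0, p, ?_, by ring⟩
      unfold NI
      rw [map_zero, Polynomial.C_0]
    · exact ⟨p' * MvPolynomial.X j, s * MvPolynomial.X j, NI_mul hp' (NI_X h), by rw [hp]; ring⟩

private lemma fin (i : σ) (d : ℕ) (g : Po σ) (B : Type) [AddCommGroup B] [Module (Po σ) B]
    (hB : Module.Finite (Po σ) B) (hk : ∀ b : B, (MvPolynomial.X i : Po σ) • b = 0) :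
    Module.Finite (Po σ) (Th i d g B) := by
  obtain ⟨s, hs⟩ := hB.fg_top
  let w : PolynomialModule (Po σ) B → Th i d g B := fun q => Res.mk (nu i) (Submodule.Quotient.mk q)
  have wadd : ∀ p q, w (p + q) = w p + w q := fun p q => rfl
  have wzero : w 0 = 0 := rfl
  have wsmul : ∀ (r : Po σ) q, r • w q = w (nu i r • q) := fun r q => rfl
  let S : Submodule (Po σ) (Th i d g B) :=
    Submodule.span (Po σ) ((fun b : B => w (PolynomialModule.single (Po σ) 0 b)) '' (s : Set B))
  have h0 : ∀ b : B, b ∈ Submodule.span (Po σ) (s : Set B) →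
      w (PolynomialModule.single (Po σ) 0 b) ∈ S := by
    intro b hb
    induction hb using Submodule.span_induction with
    | mem y hy => exact Submodule.subset_span ⟨y, hy, rfl⟩
    | zero => rw [PolynomialModule.single_zero, wzero]; exact S.zero_mem
    | add y z _ _ hy hz => rw [PolynomialModule.single_add, wadd]; exact S.add_mem hy hz
    | smul r y _ hy =>
      obtain ⟨r', t, hr', hr⟩ := dec i r
      have e1 : r • y = r' • y := by
        rw [hr, add_smul, mul_smul, hk, smul_zero, add_zero]
      have e2 : r' • w (PolynomialModule.single (Po σ) 0 y) =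
          w (PolynomialModule.single (Po σ) 0 (r' • y)) := by
        rw [wsmul, hr']
        congr 1
        have := PolynomialModule.monomial_smul_single (R := Po σ) 0 r' 0 y
        exact this
      rw [e1, ← e2]
      exact S.smul_mem r' hy
  have h1 : ∀ (k : ℕ) (b : B), w (PolynomialModule.single (Po σ) k b) ∈ S := by
    intro k b
    have e : w (PolynomialModule.single (Po σ) k b) =
        (MvPolynomial.X i ^ k : Po σ) • w (PolynomialModule.single (Po σ) 0 b) := by
      rw [wsmul, map_pow, nu_X, ← Polynomial.monomial_one_right_eq_X_pow,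
        PolynomialModule.monomial_smul_single, add_zero, one_smul]
    rw [e]
    exact S.smul_mem _ (h0 b (hs ▸ Submodule.mem_top))
  have h2 : ∀ q : PolynomialModule (Po σ) B, w q ∈ S := by
    intro q
    induction q using PolynomialModule.induction_linear with
    | zero => rw [wzero]; exact S.zero_mem
    | add x y hx hy => rw [wadd]; exact S.add_mem hx hy
    | single n m => exact h1 n m
  have hS : S.FG := (Submodule.fg_def).2 ⟨(fun b : B => w (PolynomialModule.single (Po σ) 0 b)) ''
    (s : Set B), s.finite_toSet.image _, rfl⟩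
  have hT : S = ⊤ := by
    rw [eq_top_iff]
    intro x _
    obtain ⟨q, hq⟩ := Submodule.Quotient.mk_surjective _ x.val
    have h3 : x = w q := hq.symm
    rw [h3]
    exact h2 q
  exact ⟨hT ▸ hS⟩

private lemma kil {i : σ} {I₀ : Set (Po σ)} (hI : ∀ r ∈ I₀, NI i r) (d : ℕ) {g : Po σ}
    (hg : NI i g) (B : Type) [AddCommGroup B] [Module (Po σ) B] (hk : Kil I₀ B) :
    Kil (insert (MvPolynomial.X i ^ d + g) I₀) (Th i d g B) := by
  rw [Kil.insert]
  constructor
  · intro m
    obtain ⟨q, hq⟩ := Submodule.Quotient.mk_surjective _ m.val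
    have h1 : (MvPolynomial.X i ^ d + g : Po σ) • m =
        Res.mk (nu i) (Submodule.Quotient.mk ((nu i (MvPolynomial.X i ^ d + g)) • q)) := by
      rw [Submodule.Quotient.mk_smul, hq]
      rfl
    rw [h1, map_add, map_pow, nu_X, hg]
    exact mk_zero.2 ⟨q, rfl⟩
  · intro r hr m
    obtain ⟨q, hq⟩ := Submodule.Quotient.mk_surjective _ m.val
    have h1 : r • m = Res.mk (nu i) (Submodule.Quotient.mk ((nu i r) • q)) := by
      rw [Submodule.Quotient.mk_smul, hq]
      rfl
    have h2 : nu i r • q = 0 := by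
      rw [hI r hr]
      refine pm_ext fun k => ?_
      have := PolynomialModule.monomial_smul_apply 0 r q k
      rw [if_pos (Nat.zero_le k), hk r hr] at this
      exact this
    rw [h1, h2]
    rfl

end poly

end Tha_aux

open Tha_aux in
theorem tTha : S_Tha := by
  intro σ _ _ i I₀ V _ d g χ hd hg hI
  refine ⟨⟨fun P _ _ => χ.f (Th i d g P), ?_⟩, fun P _ _ => rfl⟩
  intro A B C _ _ _ _ _ _ u v hB hk hu hv huv
  rw [Kil.insert] at hk
  exact χ.add (Th i d g A) (Th i d g B) (Th i d g C) (Res.map (nu i) (tq u d g))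
    (Res.map (nu i) (tq v d g)) (fin i d g B hB hk.1) (kil hI d hg B hk.2)
    (Res.map_inj (tq_inj hu huv hd g)) (Res.map_surj (tq_surj hv d g))
    (Res.map_exact (tq_exact huv hv d g))

end Pool.Agent.FY
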