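import Pool.Agent.Lib.MP_b53bfe_ag.Spec
import Pool.Agent.Lib.MP_b53bfe_ag.Bas

/-!
# Module Ths: the sum over the twists
-/

set_option autoImplicit false

noncomputable section

namespace Pool.Agent.FY

open Polynomial

namespace Ths_aux

variable {σ : Type} [DecidableEq σ]

/-! ## The ring homomorphisms `nu` and `gz` -/

theorem nu_C (i : σ) (c : ℂ) : nu i (MvPolynomial.C c) = C (MvPolynomial.C c) := by
  unfold nu
  simp only [AlgHom.toRingHom_eq_coe, RingHom.coe_coe, MvPolynomial.aeval_C]
  rfl

theorem nu_X (i j : σ) : nu i (MvPolynomial.X j) =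
    if j = i then (X : (Po σ)[X]) else C (MvPolynomial.X j) := by
  unfold nu
  simp only [AlgHom.toRingHom_eq_coe, RingHom.coe_coe, MvPolynomial.aeval_X]

theorem gz_C (i : σ) (z c : ℂ) : gz i z (MvPolynomial.C c) = MvPolynomial.C c := by
  unfold gz
  simp only [AlgHom.toRingHom_eq_coe, RingHom.coe_coe, MvPolynomial.aeval_C]
  rfl

theorem gz_X (i : σ) (z : ℂ) (j : σ) : gz i z (MvPolynomial.X j) =
    if j = i then MvPolynomial.C z * MvPolynomial.X j else MvPolynomial.X j := by
  unfold gz
  simp only [AlgHom.toRingHom_eq_coe, RingHom.coe_coe, MvPolynomial.aeval_X]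

theorem eval_nu (i : σ) (z : ℂ) (r : Po σ) :
    (nu i r).eval (MvPolynomial.C z * MvPolynomial.X i) = gz i z r := by
  have h : (evalRingHom (MvPolynomial.C z * MvPolynomial.X i : Po σ)).comp (nu i) = gz i z := by
    apply MvPolynomial.ringHom_ext
    · intro c
      rw [RingHom.comp_apply, nu_C, gz_C, coe_evalRingHom, eval_C]
    · intro j
      rw [RingHom.comp_apply, nu_X, gz_X, coe_evalRingHom]
      by_cases hj : j = i
      · rw [if_pos hj, if_pos hj, eval_X, hj]
      · rw [if_neg hj, if_neg hj, eval_C]
  exact congrArg (fun f : Po σ →+* Po σ => f r) h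

theorem map_nu (i : σ) (r : Po σ) : (nu i r).map (gz i 0) = nu i r := by
  have h : (mapRingHom (gz i 0)).comp (nu i) = nu i := by
    apply MvPolynomial.ringHom_ext
    · intro c
      rw [RingHom.comp_apply, nu_C, coe_mapRingHom, map_C, gz_C]
    · intro j
      rw [RingHom.comp_apply, nu_X, coe_mapRingHom]
      by_cases hj : j = i
      · rw [if_pos hj, map_X]
      · rw [if_neg hj, map_C, gz_X, if_neg hj]
  exact congrArg (fun f : Po σ →+* (Po σ)[X] => f r) h

theorem gz_NI {i : σ} {g : Po σ} (hg : NI i g) : gz i 0 g = g := by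
  have h := map_nu i g
  unfold NI at hg
  rw [hg, map_C] at h
  exact C_injective h

/-! ## Multiplication by polynomials -/

variable {A M : Type} [CommRing A] [AddCommGroup M] [Module A M]

theorem inj_lin (a : A) (u : PolynomialModule A M) (h : (X - C a : A[X]) • u = 0) : u = 0 := by
  have h1 : ∀ n, u.coeff n = a • u.coeff (n + 1) := by
    intro n
    have h2 : ((X - C a : A[X]) • u).coeff (n + 1) = u.coeff n - a • u.coeff (n + 1) := by
      rw [sub_smul]
      have h3 : ((X : A[X]) • u).coeff (n + 1) = u.coeff n := by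
        rw [← monomial_one_one_eq_X, PolynomialModule.monomial_smul_apply, if_pos (by omega),
          one_smul]
        rfl
      have h4 : ((C a : A[X]) • u).coeff (n + 1) = a • u.coeff (n + 1) := by
        rw [← monomial_zero_left, PolynomialModule.monomial_smul_apply, if_pos (by omega)]
        rfl
      have h5 : ((X : A[X]) • u - (C a : A[X]) • u).coeff (n + 1) =
          ((X : A[X]) • u).coeff (n + 1) - ((C a : A[X]) • u).coeff (n + 1) := rfl
      rw [h5, h3, h4]
    rw [h] at h2
    have h3 : (0 : PolynomialModule A M).coeff (n + 1) = 0 := rfl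
    rw [h3] at h2
    exact (sub_eq_zero.1 h2.symm)
  have h2 : ∀ k n, u.coeff n = a ^ k • u.coeff (n + k) := by
    intro k
    induction k with
    | zero => intro n; rw [pow_zero, one_smul]; rfl
    | succ k ih =>
      intro n
      rw [ih n, h1 (n + k), smul_smul, ← pow_succ]
      rfl
  obtain ⟨N, hN⟩ := u.coeff.support.exists_nat_subset_range
  apply PolynomialModule.coeff_injective
  ext n
  rw [h2 N n]
  have h3 : u.coeff (n + N) = 0 := by
    by_contra h4
    have h5 := hN (Finsupp.mem_support_iff.2 h4)
    rw [Finset.mem_range] at h5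
    omega
  rw [h3, smul_zero]
  rfl

theorem inj_prod (z : ℕ → A) (k : ℕ) (u : PolynomialModule A M)
    (h : (∏ m ∈ Finset.range k, (X - C (z m) : A[X])) • u = 0) : u = 0 := by
  induction k with
  | zero => simpa using h
  | succ k ih =>
    rw [Finset.prod_range_succ, mul_comm, mul_smul] at h
    exact ih (inj_lin _ _ h)

theorem sub_eval (a : A) (u : PolynomialModule A M) :
    ∃ v : PolynomialModule A M, u - PolynomialModule.single A 0 (PolynomialModule.eval a u) =
      (X - C a : A[X]) • v := by
  induction u using PolynomialModule.induction_linear with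
  | zero => exact ⟨0, by simp⟩
  | add x y hx hy =>
    obtain ⟨v, hv⟩ := hx
    obtain ⟨w, hw⟩ := hy
    refine ⟨v + w, ?_⟩
    rw [smul_add, ← hv, ← hw, map_add, PolynomialModule.single_add]
    abel
  | single k m =>
    obtain ⟨s, hs⟩ := sub_dvd_pow_sub_pow (X : A[X]) (C a) k
    refine ⟨s • PolynomialModule.single A 0 m, ?_⟩
    rw [← mul_smul, ← hs, sub_smul, ← C_pow, PolynomialModule.eval_single, X_pow_eq_monomial,
      PolynomialModule.monomial_smul_single, ← monomial_zero_left,
      PolynomialModule.monomial_smul_single, one_smul, add_zero, add_zero]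

/-! ## The quotients -/

/-- `PolynomialModule M / p`, with the action of `Po σ` by `nu i` -/
abbrev Qm (i : σ) (M : Type) [AddCommGroup M] [Module (Po σ) M] (p : (Po σ)[X]) : Type :=
  Res (nu i) (PolynomialModule (Po σ) M ⧸ LinearMap.range (mg (PolynomialModule (Po σ) M) p))

section Quot

variable {N : Type} [AddCommGroup N] [Module (Po σ) N]

omit [DecidableEq σ] in
theorem mem_range {p : (Po σ)[X]} {u : PolynomialModule (Po σ) N} :
    u ∈ LinearMap.range (mg (PolynomialModule (Po σ) N) p) ↔ ∃ v, p • v = u := by
  rw [LinearMap.mem_range]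
  rfl

theorem single_mem {i : σ} (K : Submodule (Po σ) (Res (nu i) (PolynomialModule (Po σ) N)))
    (h : ∀ m : N, Res.mk (nu i) (PolynomialModule.single (Po σ) 0 m) ∈ K) : K = ⊤ := by
  rw [eq_top_iff]
  intro x _
  have key : ∀ u : PolynomialModule (Po σ) N, Res.mk (nu i) u ∈ K := by
    intro u
    induction u using PolynomialModule.induction_linear with
    | zero => exact K.zero_mem
    | add x y hx hy => exact K.add_mem hx hy
    | single k m =>
      have h1 := K.smul_mem (MvPolynomial.X i ^ k) (h m)
      rw [Res.smul_mk, map_pow, nu_X, if_pos rfl, X_pow_eq_monomial,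
        PolynomialModule.monomial_smul_single, one_smul, add_zero] at h1
      exact h1
  exact key x.val

/-- finiteness of the polynomial module over the ring `Po σ` acting by `nu i` -/
theorem finite_PM {i : σ} {d : ℕ} {g : Po σ} (hd : 1 ≤ d) (hg : NI i g)
    (hM : Module.Finite (Po σ) N)
    (hk : ∀ m : N, (MvPolynomial.X i ^ d + g : Po σ) • m = 0) :
    Module.Finite (Po σ) (Res (nu i) (PolynomialModule (Po σ) N)) := by
  classical
  obtain ⟨s, hs⟩ := hM.fg_top
  let S : Set (Res (nu i) (PolynomialModule (Po σ) N)) :=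
    (fun q : ℕ × N => Res.mk (nu i) (PolynomialModule.single (Po σ) 0
      ((MvPolynomial.X i : Po σ) ^ q.1 • q.2))) '' ((Finset.range d ×ˢ s : Finset (ℕ × N)) : Set (ℕ × N))
  have hS : S.Finite := (Finset.finite_toSet _).image _
  refine ⟨(Submodule.fg_def).2 ⟨S, hS, ?_⟩⟩
  apply single_mem
  -- the elements `m` whose constant polynomial is in the span
  have hNI : ∀ (r : Po σ) (m : N), NI i r →
      Res.mk (nu i) (PolynomialModule.single (Po σ) 0 m) ∈ Submodule.span (Po σ) S →
      Res.mk (nu i) (PolynomialModule.single (Po σ) 0 (r • m)) ∈ Submodule.span (Po σ) S := by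
    intro r m hr hm
    have h1 := Submodule.smul_mem _ r hm
    rw [Res.smul_mk, hr, ← monomial_zero_left, PolynomialModule.monomial_smul_single,
      add_zero] at h1
    exact h1
  let T : Submodule (Po σ) N :=
    { carrier := {m | ∀ e : ℕ, Res.mk (nu i) (PolynomialModule.single (Po σ) 0
        ((MvPolynomial.X i : Po σ) ^ e • m)) ∈ Submodule.span (Po σ) S}
      add_mem' := by
        intro a b ha hb e
        rw [smul_add, PolynomialModule.single_add]
        exact Submodule.add_mem _ (ha e) (hb e)
      zero_mem' := by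
        intro e
        rw [smul_zero, PolynomialModule.single_zero]
        exact Submodule.zero_mem _
      smul_mem' := by
        intro r m hm
        induction r using MvPolynomial.induction_on with
        | C c =>
          intro e
          rw [smul_smul, mul_comm, ← smul_smul]
          exact hNI _ _ (nu_C i c) (hm e)
        | add p q hp hq =>
          intro e
          rw [add_smul, smul_add, PolynomialModule.single_add]
          exact Submodule.add_mem _ (hp e) (hq e)
        | mul_X p j hp =>
          intro e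
          by_cases hj : j = i
          · have h0 := hp (e + 1)
            have h1 : (MvPolynomial.X i : Po σ) ^ e * (p * MvPolynomial.X i) =
              MvPolynomial.X i ^ (e + 1) * p := by rw [pow_succ, mul_comm p, mul_assoc]
            rw [smul_smul] at h0
            rw [smul_smul, hj, h1]
            exact h0
          · have h0 := hNI (MvPolynomial.X j) _ (by unfold NI; rw [nu_X, if_neg hj]) (hp e)
            have h1 : (MvPolynomial.X i : Po σ) ^ e * (p * MvPolynomial.X j) =
              MvPolynomial.X j * (MvPolynomial.X i ^ e * p) := by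
                rw [mul_comm p, mul_left_comm]
            rw [smul_smul, smul_smul] at h0
            rw [smul_smul, h1, ← mul_assoc]
            exact h0 }
  have hT : T = ⊤ := by
    rw [eq_top_iff, ← hs, Submodule.span_le]
    intro m hm e
    induction e using Nat.strong_induction_on with
    | _ e ih =>
      by_cases he : e < d
      · apply Submodule.subset_span
        refine ⟨(e, m), ?_, rfl⟩
        rw [Finset.mem_coe, Finset.mem_product]
        exact ⟨Finset.mem_range.2 he, hm⟩
      · have h1 := hNI (-g) _ (by unfold NI at *; rw [map_neg, hg, C_neg]) (ih (e - d) (by omega))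
        have h2 : (-g) • (MvPolynomial.X i : Po σ) ^ (e - d) • m = (MvPolynomial.X i : Po σ) ^ e • m := by
          have h3 := hk ((MvPolynomial.X i : Po σ) ^ (e - d) • m)
          rw [add_smul, smul_smul, ← pow_add, show d + (e - d) = e by omega] at h3
          rw [neg_smul]
          exact (eq_neg_of_add_eq_zero_left h3).symm
        rw [h2] at h1
        exact h1
  intro m
  have hm : m ∈ T := hT ▸ Submodule.mem_top
  have := hm 0
  rw [pow_zero, one_smul] at this
  exact this

theorem finite_Qm {i : σ} (h : Module.Finite (Po σ) (Res (nu i) (PolynomialModule (Po σ) N)))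
    (p : (Po σ)[X]) : Module.Finite (Po σ) (Qm i N p) := by
  have hs : Function.Surjective (Res.map (nu i)
    (LinearMap.range (mg (PolynomialModule (Po σ) N) p)).mkQ) :=
    Res.map_surj (Submodule.mkQ_surjective _)
  exact Module.Finite.of_surjective _ hs

/-- the quotients by divisors of `X ^ d - C (X_i ^ d)` are killed -/
theorem kil_Qm {i : σ} {d : ℕ} {g : Po σ} {I₀ : Set (Po σ)} (hg : NI i g)
    (hI : ∀ r ∈ I₀, NI i r) (hk : Kil (insert (MvPolynomial.X i ^ d + g) I₀) N)
    (p q : (Po σ)[X]) (hpq : p * q = X ^ d - C (MvPolynomial.X i ^ d)) :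
    Kil (insert (MvPolynomial.X i ^ d + g) I₀) (Qm i N p) := by
  rw [Kil.insert] at hk ⊢
  have hC : ∀ (r : Po σ), (∀ m : N, r • m = 0) →
      ∀ u : PolynomialModule (Po σ) N, (C r : (Po σ)[X]) • u = 0 := by
    intro r hr u
    induction u using PolynomialModule.induction_linear with
    | zero => rw [smul_zero]
    | add x y hx hy => rw [smul_add, hx, hy, add_zero]
    | single k m =>
      rw [← monomial_zero_left, PolynomialModule.monomial_smul_single, hr,
        PolynomialModule.single_zero]
  refine ⟨?_, ?_⟩
  · intro x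
    obtain ⟨u, hu⟩ := Submodule.Quotient.mk_surjective _ x.val
    have h1 : ((nu i (MvPolynomial.X i ^ d + g)) • u) ∈
        LinearMap.range (mg (PolynomialModule (Po σ) N) p) := by
      rw [mem_range]
      refine ⟨q • u, ?_⟩
      rw [smul_smul, hpq]
      have h2 : nu i (MvPolynomial.X i ^ d + g) =
          X ^ d - C (MvPolynomial.X i ^ d) + C (MvPolynomial.X i ^ d + g) := by
        unfold NI at hg
        rw [map_add, map_pow, nu_X, if_pos rfl, hg, C_add]
        ring
      rw [h2, add_smul, hC _ hk.1, add_zero]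
    have h2 := (Submodule.Quotient.mk_eq_zero _).2 h1
    rw [Submodule.Quotient.mk_smul, hu] at h2
    exact h2
  · intro r hr x
    obtain ⟨u, hu⟩ := Submodule.Quotient.mk_surjective _ x.val
    have h1 : (nu i r) • u = 0 := by
      rw [hI r hr]
      exact hC r (hk.2 r hr) u
    have h2 : (Submodule.Quotient.mk ((nu i r) • u) : PolynomialModule (Po σ) N ⧸
      LinearMap.range (mg (PolynomialModule (Po σ) N) p)) = 0 := by
      rw [h1]
      rfl
    rw [Submodule.Quotient.mk_smul, hu] at h2
    exact h2

/-- `PM / (X - C (z X_i))` is the twist of `M` -/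
theorem exists_twist (i : σ) (z : ℂ) :
    Nonempty (Res (gz i z) N ≃ₗ[Po σ] Qm i N (X - C (MvPolynomial.C z * MvPolynomial.X i))) := by
  let a : Po σ := MvPolynomial.C z * MvPolynomial.X i
  let K := LinearMap.range (mg (PolynomialModule (Po σ) N) (X - C a))
  let l : Res (gz i z) N →ₗ[Po σ] Qm i N (X - C a) :=
    { toFun := fun m => Res.mk (nu i) (K.mkQ (PolynomialModule.single (Po σ) 0 m.val))
      map_add' := by
        intro m m'
        have h1 : PolynomialModule.single (Po σ) 0 (m + m').val =
          PolynomialModule.single (Po σ) 0 m.val + PolynomialModule.single (Po σ) 0 m'.val :=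
          PolynomialModule.single_add _ _ _
        rw [h1, map_add]
        rfl
      map_smul' := by
        intro r m
        rw [Res.val_smul, RingHom.id_apply, Res.smul_mk]
        congr 1
        rw [← map_smul, ← sub_eq_zero, ← map_sub, Submodule.mkQ_apply,
          Submodule.Quotient.mk_eq_zero, mem_range]
        obtain ⟨v, hv⟩ := sub_eval a ((nu i r) • PolynomialModule.single (Po σ) 0 m.val)
        refine ⟨-v, ?_⟩
        rw [smul_neg, ← hv, PolynomialModule.eval_smul, PolynomialModule.eval_single, pow_zero,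
          one_smul, eval_nu, neg_sub] }
  refine ⟨LinearEquiv.ofBijective l ⟨?_, ?_⟩⟩
  · rw [injective_iff_map_eq_zero]
    intro m hm
    have h1 : K.mkQ (PolynomialModule.single (Po σ) 0 m.val) = 0 := hm
    rw [Submodule.mkQ_apply, Submodule.Quotient.mk_eq_zero, mem_range] at h1
    obtain ⟨v, hv⟩ := h1
    have h2 := congrArg (PolynomialModule.eval a) hv
    rw [PolynomialModule.eval_smul, PolynomialModule.eval_single, pow_zero, one_smul, eval_sub,
      eval_X, eval_C, sub_self, zero_smul] at h2
    exact h2.symm
  · intro x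
    obtain ⟨u, hu⟩ := Submodule.mkQ_surjective K x.val
    refine ⟨Res.mk (gz i z) (PolynomialModule.eval a u), ?_⟩
    have h1 : K.mkQ (PolynomialModule.single (Po σ) 0 (PolynomialModule.eval a u)) = x.val := by
      rw [← hu, eq_comm, ← sub_eq_zero, ← map_sub, Submodule.mkQ_apply,
        Submodule.Quotient.mk_eq_zero, mem_range]
      obtain ⟨v, hv⟩ := sub_eval a u
      exact ⟨v, hv.symm⟩
    exact h1

/-- the exact sequence `0 → PM / a → PM / q a → PM / q → 0` -/
theorem step {i : σ} {I : Set (Po σ)} {V : Type 1} [AddCommGroup V] (χ : AFun (Po σ) I V)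
    (q a : (Po σ)[X]) (hq : ∀ u : PolynomialModule (Po σ) N, q • u = 0 → u = 0)
    (hf : Module.Finite (Po σ) (Qm i N (q * a))) (hk : Kil I (Qm i N (q * a))) :
    χ.f (Qm i N (q * a)) = χ.f (Qm i N a) + χ.f (Qm i N q) := by
  let j : (PolynomialModule (Po σ) N ⧸ LinearMap.range (mg (PolynomialModule (Po σ) N) a)) →ₗ[(Po σ)[X]]
      (PolynomialModule (Po σ) N ⧸ LinearMap.range (mg (PolynomialModule (Po σ) N) (q * a))) :=
    Submodule.mapQ _ _ (mg (PolynomialModule (Po σ) N) q) (by
      intro u hu
      rw [mem_range] at hu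
      obtain ⟨v, rfl⟩ := hu
      rw [Submodule.mem_comap, mem_range]
      exact ⟨v, mul_smul _ _ _⟩)
  let p : (PolynomialModule (Po σ) N ⧸ LinearMap.range (mg (PolynomialModule (Po σ) N) (q * a))) →ₗ[(Po σ)[X]]
      (PolynomialModule (Po σ) N ⧸ LinearMap.range (mg (PolynomialModule (Po σ) N) q)) :=
    Submodule.mapQ _ _ LinearMap.id (by
      intro u hu
      rw [mem_range] at hu
      obtain ⟨v, rfl⟩ := hu
      rw [Submodule.mem_comap, mem_range]
      exact ⟨a • v, (mul_smul _ _ _).symm⟩)
  have hj : Function.Injective j := by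
    rw [injective_iff_map_eq_zero]
    intro x hx
    obtain ⟨u, rfl⟩ := Submodule.Quotient.mk_surjective _ x
    have h1 : (Submodule.Quotient.mk (q • u) : PolynomialModule (Po σ) N ⧸
      LinearMap.range (mg (PolynomialModule (Po σ) N) (q * a))) = 0 := hx
    rw [Submodule.Quotient.mk_eq_zero, mem_range] at h1
    obtain ⟨v, hv⟩ := h1
    rw [Submodule.Quotient.mk_eq_zero, mem_range]
    refine ⟨v, ?_⟩
    have h2 := hq (a • v - u) (by rw [smul_sub, ← mul_smul, hv, sub_self])
    exact sub_eq_zero.1 h2
  have hp : Function.Surjective p := by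
    intro x
    obtain ⟨u, rfl⟩ := Submodule.Quotient.mk_surjective _ x
    exact ⟨Submodule.Quotient.mk u, rfl⟩
  have he : Function.Exact j p := by
    intro x
    obtain ⟨u, rfl⟩ := Submodule.Quotient.mk_surjective _ x
    constructor
    · intro hx
      have h1 : (Submodule.Quotient.mk u : PolynomialModule (Po σ) N ⧸
        LinearMap.range (mg (PolynomialModule (Po σ) N) q)) = 0 := hx
      rw [Submodule.Quotient.mk_eq_zero, mem_range] at h1
      obtain ⟨v, rfl⟩ := h1
      exact ⟨Submodule.Quotient.mk v, rfl⟩
    · rintro ⟨y, hy⟩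
      obtain ⟨v, rfl⟩ := Submodule.Quotient.mk_surjective _ y
      rw [← hy]
      have h1 : (Submodule.Quotient.mk (q • v) : PolynomialModule (Po σ) N ⧸
        LinearMap.range (mg (PolynomialModule (Po σ) N) q)) = 0 := by
        rw [Submodule.Quotient.mk_eq_zero, mem_range]
        exact ⟨v, rfl⟩
      exact h1
  exact χ.add _ _ _ (Res.map (nu i) j) (Res.map (nu i) p) hf hk (Res.map_inj hj) (Res.map_surj hp)
    (Res.map_exact he)

/-- `Th` of the module with `X_i` acting by `0` -/
theorem exists_Th {i : σ} {d : ℕ} {g : Po σ} (hg : NI i g) :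
    Nonempty (Th i d g (Res (gz i 0) N) ≃ₗ[Po σ] Qm i N (X ^ d + C g)) := by
  let F : (Po σ)[X] := X ^ d + C g
  have hF : F.map (gz i 0) = F := by
    change (X ^ d + C g : (Po σ)[X]).map (gz i 0) = X ^ d + C g
    rw [Polynomial.map_add, Polynomial.map_pow, map_X, map_C, gz_NI hg]
  let t : PolynomialModule (Po σ) (Res (gz i 0) N) → PolynomialModule (Po σ) N :=
    fun u => PolynomialModule.ofCoeff (Po σ) (show ℕ →₀ N from u.coeff)
  let t' : PolynomialModule (Po σ) N → PolynomialModule (Po σ) (Res (gz i 0) N) :=
    fun u => PolynomialModule.ofCoeff (Po σ) (show ℕ →₀ Res (gz i 0) N from u.coeff)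
  have ht' : ∀ u, t (t' u) = u := fun _ => rfl
  have ht'' : ∀ u, t' (t u) = u := fun _ => rfl
  have htadd : ∀ u v, t (u + v) = t u + t v := fun _ _ => rfl
  have htsmul : ∀ (G : (Po σ)[X]) u, t (G • u) = (G.map (gz i 0)) • t u := by
    intro G u
    induction G using Polynomial.induction_on' with
    | add G H hG hH =>
      rw [add_smul, htadd, hG, hH, Polynomial.map_add, add_smul]
    | monomial k r =>
      rw [Polynomial.map_monomial]
      apply PolynomialModule.coeff_injective
      ext m
      have h1 : (t (monomial k r • u)).coeff m = ((monomial k r • u).coeff m : Res (gz i 0) N) := rfl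
      have h2 : (t u).coeff (m - k) = (u.coeff (m - k) : Res (gz i 0) N) := rfl
      rw [h1, PolynomialModule.monomial_smul_apply, PolynomialModule.monomial_smul_apply, h2]
      by_cases hm : k ≤ m
      · rw [if_pos hm, if_pos hm]
        rfl
      · rw [if_neg hm, if_neg hm]
        rfl
  let K := LinearMap.range (mg (PolynomialModule (Po σ) N) F)
  let K' := LinearMap.range (mg (PolynomialModule (Po σ) (Res (gz i 0) N)) F)
  let f : PolynomialModule (Po σ) (Res (gz i 0) N) →ₛₗ[mapRingHom (gz i 0)]
      (PolynomialModule (Po σ) N ⧸ K) :=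
    { toFun := fun u => Submodule.Quotient.mk (t u)
      map_add' := fun u v => rfl
      map_smul' := fun G u => by
        rw [htsmul, Submodule.Quotient.mk_smul]
        rfl }
  have hK : K' ≤ LinearMap.ker f := by
    intro u hu
    obtain ⟨v, rfl⟩ := LinearMap.mem_range.1 hu
    rw [LinearMap.mem_ker]
    have h1 : (Submodule.Quotient.mk (t (F • v)) : PolynomialModule (Po σ) N ⧸ K) = 0 := by
      rw [Submodule.Quotient.mk_eq_zero, htsmul, hF]
      exact LinearMap.mem_range.2 ⟨t v, rfl⟩
    exact h1
  let L := K'.liftQ f hK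
  have hL : ∀ u, L (Submodule.Quotient.mk u) = Submodule.Quotient.mk (t u) := fun _ => rfl
  let l : Th i d g (Res (gz i 0) N) →ₗ[Po σ] Qm i N (X ^ d + C g) :=
    { toFun := fun x => Res.mk (nu i) (L x.val)
      map_add' := fun x y => L.map_add x.val y.val
      map_smul' := fun r x => by
        have h1 : L ((nu i r) • x.val) = (mapRingHom (gz i 0) (nu i r)) • L x.val :=
          L.map_smulₛₗ _ _
        rw [coe_mapRingHom, map_nu] at h1
        exact h1 }
  refine ⟨LinearEquiv.ofBijective l ⟨?_, ?_⟩⟩
  · rw [injective_iff_map_eq_zero]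
    intro x hx
    obtain ⟨u, hu⟩ := Submodule.Quotient.mk_surjective _ x.val
    have h1 : L x.val = 0 := hx
    rw [← hu, hL, Submodule.Quotient.mk_eq_zero] at h1
    obtain ⟨v, hv⟩ := LinearMap.mem_range.1 h1
    have h2 : u = F • t' v := by
      have h3 : t u = t (F • t' v) := by
        rw [htsmul, hF, ht']
        exact hv.symm
      have h4 := congrArg t' h3
      rwa [ht'', ht''] at h4
    have h3 : (Submodule.Quotient.mk u : PolynomialModule (Po σ) (Res (gz i 0) N) ⧸ K') = 0 := by
      rw [Submodule.Quotient.mk_eq_zero, h2]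
      exact LinearMap.mem_range.2 ⟨t' v, rfl⟩
    have h4 : x.val = 0 := by rw [← hu]; exact h3
    exact h4
  · intro x
    obtain ⟨u, hu⟩ := Submodule.Quotient.mk_surjective _ x.val
    refine ⟨Res.mk (nu i) (Submodule.Quotient.mk (t' u)), ?_⟩
    have h1 : L (Submodule.Quotient.mk (t' u)) = x.val := by
      rw [hL, ht', hu]
    exact h1

end Quot

end Ths_aux

open Ths_aux in
theorem tThs : S_Ths := by
  intro σ _ _ i I₀ V _ d g χ ζ hd hg hI hζ M _ _ hM hk
  have hfin := finite_PM hd hg hM (Kil.insert.1 hk).1
  let z : ℕ → Po σ := fun m => MvPolynomial.C (ζ ^ m) * MvPolynomial.X i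
  let q : ℕ → (Po σ)[X] := fun k => ∏ m ∈ Finset.range k, (X - C (z m))
  have hprod : q d = X ^ d - C (MvPolynomial.X i ^ d) := by
    have hζ' : IsPrimitiveRoot (MvPolynomial.C ζ : Po σ) d :=
      hζ.map_of_injective (MvPolynomial.C_injective σ ℂ)
    rw [X_pow_sub_C_eq_prod hζ' (by omega) rfl]
    refine Finset.prod_congr rfl fun m _ => ?_
    rw [← map_pow]
  have hdiv : ∀ k ≤ d, ∃ r, q k * r = X ^ d - C (MvPolynomial.X i ^ d) := by
    intro k hkd
    rw [← hprod]
    obtain ⟨r, hr⟩ := Finset.prod_dvd_prod_of_subset (Finset.range k) (Finset.range d)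
      (fun m => (X - C (z m) : (Po σ)[X])) (Finset.range_subset_range.2 hkd)
    exact ⟨r, hr.symm⟩
  have key : ∀ k ≤ d, χ.f (Qm i M (q k)) =
      ∑ m ∈ Finset.range k, χ.f (Res (gz i (ζ ^ m)) M) := by
    intro k
    induction k with
    | zero =>
      intro _
      rw [Finset.sum_range_zero]
      apply χ.subsing
      have h1 : Subsingleton (PolynomialModule (Po σ) M ⧸
          LinearMap.range (mg (PolynomialModule (Po σ) M) (q 0))) := by
        rw [Submodule.Quotient.subsingleton_iff, eq_top_iff]
        intro u _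
        rw [mem_range]
        refine ⟨u, ?_⟩
        change (∏ m ∈ Finset.range 0, (X - C (z m) : (Po σ)[X])) • u = u
        rw [Finset.prod_range_zero, one_smul]
      exact h1
    | succ k ih =>
      intro hkd
      have h1 : q (k + 1) = q k * (X - C (z k)) := Finset.prod_range_succ _ _
      obtain ⟨r, hr⟩ := hdiv (k + 1) hkd
      have hk1 : Kil (insert (MvPolynomial.X i ^ d + g) I₀) (Qm i M (q k * (X - C (z k)))) :=
        kil_Qm hg hI hk _ r (by rw [← h1]; exact hr)
      have hk2 : Kil (insert (MvPolynomial.X i ^ d + g) I₀) (Qm i M (X - C (z k))) :=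
        kil_Qm hg hI hk _ (q k * r) (by rw [← hr, h1]; ring)
      have hst := step (i := i) χ (q k) (X - C (z k)) (inj_prod z k) (finite_Qm hfin _) hk1
      obtain ⟨e⟩ := exists_twist (N := M) i (ζ ^ k)
      rw [h1, hst, ih (by omega), Finset.sum_range_succ, add_comm]
      congr 1
      exact χ.iso e.symm (finite_Qm hfin _) hk2
  have hmg : mg (PolynomialModule (Po σ) M) (q d) =
      mg (PolynomialModule (Po σ) M) (X ^ d + C g : (Po σ)[X]) := by
    apply LinearMap.ext
    intro u
    rw [mg_apply, mg_apply, hprod]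
    have h2 : (X ^ d + C g : (Po σ)[X]) =
        X ^ d - C (MvPolynomial.X i ^ d) + C (MvPolynomial.X i ^ d + g) := by
      rw [C_add]
      ring
    have h3 : ∀ u : PolynomialModule (Po σ) M, (C (MvPolynomial.X i ^ d + g) : (Po σ)[X]) • u = 0 := by
      intro u
      induction u using PolynomialModule.induction_linear with
      | zero => rw [smul_zero]
      | add x y hx hy => rw [smul_add, hx, hy, add_zero]
      | single k m =>
        rw [← monomial_zero_left, PolynomialModule.monomial_smul_single, (Kil.insert.1 hk).1,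
          PolynomialModule.single_zero]
    rw [h2, add_smul, h3, add_zero]
  have hQ : χ.f (Qm i M (q d)) = χ.f (Qm i M (X ^ d + C g)) := by
    unfold Qm
    rw [hmg]
  obtain ⟨e⟩ := exists_Th (N := M) (d := d) hg
  rw [← key d le_rfl, hQ]
  refine χ.iso e.symm (finite_Qm hfin _) ?_
  have h1 : Kil (insert (MvPolynomial.X i ^ d + g) I₀) (Qm i M (q d)) :=
    kil_Qm hg hI hk _ 1 (by rw [mul_one]; exact hprod)
  unfold Qm at h1 ⊢
  rw [hmg] at h1
  exact h1

end Pool.Agent.FY
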