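import Pool.Agent.Lib.MP_b53bfe_ag.Spec2
import Pool.Agent.Lib.MP_b53bfe_ag.Bas

/-!
# Tl: the lattice of the twisted module
-/

set_option autoImplicit false

noncomputable section

namespace Pool.Agent.FY

open Polynomial

namespace Tl_aux

section

variable {W : Type} [CommRing W] {E : Type} [AddCommGroup E] [Module W E]

/-- the elements which come into some lattice `Lm β L b` -/
def NN (β : E ≃ₗ[W] E) (L : Submodule W E) : Submodule W E where
  carrier := {z | ∃ a b : ℕ, (β ^ a) z ∈ Lm β L b}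
  add_mem' := by
    rintro z z' ⟨a, b, h⟩ ⟨a', b', h'⟩
    refine ⟨a + a', b + b' + (a + a'), ?_⟩
    rw [map_add]
    refine Submodule.add_mem _ ?_ ?_
    · have h1 : (β ^ (a + a')) z = (β ^ a') ((β ^ a) z) := by rw [add_comm a a', pow_add]; rfl
      rw [h1]
      exact Lm_le β L (by omega) (pow_mem_Lm h a')
    · have h1 : (β ^ (a + a')) z' = (β ^ a) ((β ^ a') z') := by rw [pow_add]; rfl
      rw [h1]
      exact Lm_le β L (by omega) (pow_mem_Lm h' a)
  zero_mem' := ⟨0, 0, by rw [map_zero]; exact Submodule.zero_mem _⟩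
  smul_mem' := by
    rintro r z ⟨a, b, h⟩
    exact ⟨a, b, by rw [map_smul]; exact Submodule.smul_mem _ _ h⟩

theorem le_NN (β : E ≃ₗ[W] E) (L : Submodule W E) {z : E} (hz : z ∈ L) : z ∈ NN β L :=
  ⟨0, 0, hz⟩

theorem NN_map (β : E ≃ₗ[W] E) (L : Submodule W E) {z : E} (hz : z ∈ NN β L) : β z ∈ NN β L := by
  obtain ⟨a, b, h⟩ := hz
  refine ⟨a, b + 1, ?_⟩
  have h1 : (β ^ a) (β z) = (β ^ 1) ((β ^ a) z) := by
    have : (β ^ a * β) z = (β ^ 1 * β ^ a) z := by rw [← pow_succ, ← pow_add, add_comm 1 a]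
    exact this
  rw [h1]
  exact pow_mem_Lm h 1

theorem NN_symm (β : E ≃ₗ[W] E) (L : Submodule W E) {z : E} (hz : β z ∈ NN β L) : z ∈ NN β L := by
  obtain ⟨a, b, h⟩ := hz
  refine ⟨a + 1, b, ?_⟩
  have h1 : (β ^ (a + 1)) z = (β ^ a) (β z) := by rw [pow_succ]; rfl
  rw [h1]
  exact h

end

section

variable {σ : Type} (δ : σ → ℤ) (M : Type) [AddCommGroup M] [Module (Po σ) M]

/-- `T ^ a ⊗ y` -/
def te (a : ℤ) (y : M) : TM δ M :=
  Res.mk (tau δ) ((LaurentPolynomial.T a : LaurentPolynomial (Po σ)) ⊗ₜ[Po σ] y)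

theorem tb_te (d a : ℤ) (y : M) : tb δ d M (te δ M a y) = te δ M (d + a) y := by
  show Res.mk (tau δ) ((LaurentPolynomial.T d : LaurentPolynomial (Po σ)) •
    ((LaurentPolynomial.T a : LaurentPolynomial (Po σ)) ⊗ₜ[Po σ] y)) = _
  rw [TensorProduct.smul_tmul', smul_eq_mul, ← LaurentPolynomial.T_add]
  rfl

theorem te_add (a : ℤ) (y y' : M) : te δ M a (y + y') = te δ M a y + te δ M a y' :=
  TensorProduct.tmul_add _ _ _

theorem te_zero (a : ℤ) : te δ M a (0 : M) = 0 := TensorProduct.tmul_zero _ _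

theorem C_te (c : ℂ) (a : ℤ) (y : M) :
    (MvPolynomial.C c : Po σ) • te δ M a y = te δ M a ((MvPolynomial.C c : Po σ) • y) := by
  have h : tau δ (MvPolynomial.C c) = LaurentPolynomial.C (MvPolynomial.C c : Po σ) := by
    show MvPolynomial.aeval _ (MvPolynomial.C c) = _
    rw [MvPolynomial.aeval_C]
    rfl
  show Res.mk (tau δ) (tau δ (MvPolynomial.C c) •
    ((LaurentPolynomial.T a : LaurentPolynomial (Po σ)) ⊗ₜ[Po σ] y)) = _
  rw [h, TensorProduct.smul_tmul', smul_eq_mul, te, ← TensorProduct.smul_tmul, LaurentPolynomial.smul_eq_C_mul]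

theorem X_te (j : σ) (a : ℤ) (y : M) :
    (MvPolynomial.X j : Po σ) • te δ M (a + δ j) y = te δ M a ((MvPolynomial.X j : Po σ) • y) := by
  have h : tau δ (MvPolynomial.X j) =
      LaurentPolynomial.C (MvPolynomial.X j : Po σ) * LaurentPolynomial.T (-δ j) := by
    show MvPolynomial.aeval _ (MvPolynomial.X j) = _
    rw [MvPolynomial.aeval_X]
  show Res.mk (tau δ) (tau δ (MvPolynomial.X j) •
    ((LaurentPolynomial.T (a + δ j) : LaurentPolynomial (Po σ)) ⊗ₜ[Po σ] y)) = _
  rw [h, TensorProduct.smul_tmul', smul_eq_mul, te, ← TensorProduct.smul_tmul, LaurentPolynomial.smul_eq_C_mul,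
    mul_assoc, ← LaurentPolynomial.T_add]
  congr 4
  omega

variable {δ M}

theorem te_smul {N : Submodule (Po σ) (TM δ M)} (r : Po σ) :
    ∀ y : M, (∀ a, te δ M a y ∈ N) → ∀ a, te δ M a (r • y) ∈ N := by
  induction r using MvPolynomial.induction_on with
  | C c =>
    intro y hy a
    rw [← C_te]
    exact N.smul_mem _ (hy a)
  | add p q hp hq =>
    intro y hy a
    rw [add_smul, te_add]
    exact N.add_mem (hp y hy a) (hq y hy a)
  | mul_X p j hp =>
    intro y hy a
    rw [mul_smul]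
    refine hp _ (fun b => ?_) a
    rw [← X_te]
    exact N.smul_mem _ (hy _)

theorem all_mem {N : Submodule (Po σ) (TM δ M)} (h : ∀ (y : M) (a : ℤ), te δ M a y ∈ N) (z : TM δ M) : z ∈ N := by
  have key : ∀ e : TensorProduct (Po σ) (LaurentPolynomial (Po σ)) M, Res.mk (tau δ) e ∈ N := by
    intro e
    induction e using TensorProduct.induction_on with
    | zero => exact N.zero_mem
    | add x y hx hy => exact N.add_mem hx hy
    | tmul p y =>
      induction p using LaurentPolynomial.induction_on' with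
      | add p q hp hq =>
        rw [TensorProduct.add_tmul]
        exact N.add_mem hp hq
      | C_mul_T n a =>
        have h1 : (LaurentPolynomial.C a * LaurentPolynomial.T n : LaurentPolynomial (Po σ)) ⊗ₜ[Po σ] y
            = (LaurentPolynomial.T n : LaurentPolynomial (Po σ)) ⊗ₜ[Po σ] (a • y) := by
          rw [← TensorProduct.smul_tmul, LaurentPolynomial.smul_eq_C_mul]
        rw [h1]
        exact h (a • y) n
  exact key z.val

end

end Tl_aux

open Tl_aux in
theorem tTl : S_Tl := by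
  intro σ _ δ d M _ _ hd hM
  obtain ⟨s, hs⟩ := hM.fg_top
  let gen : ℕ × M → TM δ M := fun p => te δ M (p.1 : ℤ) p.2
  let S : Set (TM δ M) := gen '' ((Finset.range d : Set ℕ) ×ˢ (s : Set M))
  have hSfin : S.Finite := ((Finset.range d).finite_toSet.prod s.finite_toSet).image _
  let L : Submodule (Po σ) (TM δ M) := Submodule.span (Po σ) S
  refine ⟨L, Submodule.fg_def.2 ⟨S, hSfin, rfl⟩, ?_⟩
  have hd' : (0 : ℤ) < d := by exact_mod_cast hd
  have h1 : ∀ y ∈ (s : Set M), ∀ a : ℤ, te δ M a y ∈ NN (tb δ (d : ℤ) M) L := by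
    intro y hy a
    have h2 : ∀ k : ℕ, k < d → ∀ q : ℤ, te δ M (d * q + k) y ∈ NN (tb δ (d : ℤ) M) L := by
      intro k hk q
      have h0 : te δ M (k : ℤ) y ∈ NN (tb δ (d : ℤ) M) L := by
        refine le_NN _ _ (Submodule.subset_span ⟨(k, y), ⟨?_, hy⟩, rfl⟩)
        exact Finset.mem_coe.2 (Finset.mem_range.2 hk)
      induction q using Int.induction_on with
      | zero => rw [mul_zero, zero_add]; exact h0
      | succ q ih =>
        have h3 := NN_map _ _ ih
        rw [tb_te] at h3
        have h4 : (d : ℤ) * ((q : ℤ) + 1) + k = d + (d * q + k) := by ring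
        rw [h4]
        exact h3
      | pred q ih =>
        refine NN_symm _ _ ?_
        rw [tb_te]
        have h4 : (d : ℤ) + (d * (-(q : ℤ) - 1) + k) = d * (-q) + k := by ring
        rw [h4]
        exact ih
    have h5 := h2 (a % d).toNat (by
      have := Int.emod_lt_of_pos a hd'
      have := Int.emod_nonneg a hd'.ne'
      omega) (a / d)
    have h6 : (d : ℤ) * (a / d) + ((a % d).toNat : ℤ) = a := by
      rw [Int.toNat_of_nonneg (Int.emod_nonneg a hd'.ne')]
      exact Int.mul_ediv_add_emod a d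
    rw [h6] at h5
    exact h5
  have h2 : ∀ (y : M) (a : ℤ), te δ M a y ∈ NN (tb δ (d : ℤ) M) L := by
    intro y
    have hy : y ∈ Submodule.span (Po σ) (s : Set M) := hs ▸ Submodule.mem_top
    induction hy using Submodule.span_induction with
    | mem y hy => exact h1 y hy
    | zero => intro a; rw [te_zero]; exact Submodule.zero_mem _
    | add y z _ _ hy hz => intro a; rw [te_add]; exact Submodule.add_mem _ (hy a) (hz a)
    | smul t y _ hy => exact te_smul t y hy
  intro z
  exact all_mem h2 z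

end Pool.Agent.FY
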