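import Pool.Agent.Lib.MP_b53bfe_ag.Spec2
import Pool.Agent.Lib.MP_b53bfe_ag.Bas

set_option autoImplicit false

noncomputable section

namespace Pool.Agent.FY

open Polynomial

namespace Tp_aux

/-! ## invariance of `Ψ.F` under isomorphisms of pairs -/

section

variable {W : Type} [CommRing W] {f g : W} {I₀ : Set W} {V : Type 1} [AddCommGroup V]

theorem lfin_punit (β : PUnit ≃ₗ[W] PUnit) : LFin β :=
  ⟨⊥, Submodule.fg_bot, fun m => ⟨0, 0, by
    rw [Subsingleton.elim ((β ^ 0) m) 0]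
    exact Submodule.zero_mem _⟩⟩

theorem punit_F (Ψ : BFun W f g I₀ V) (β : PUnit ≃ₗ[W] PUnit) : Ψ.F PUnit β = 0 := by
  have h := Ψ.add PUnit PUnit PUnit β β β LinearMap.id LinearMap.id (lfin_punit β) (fun r _ m => rfl) (fun m => rfl)
    (fun a => rfl) (fun a => rfl) (fun a b _ => rfl) (fun a => ⟨a, rfl⟩) (fun a => ⟨fun _ => ⟨a, rfl⟩, fun _ => rfl⟩)
  simpa using h

theorem iso_F (Ψ : BFun W f g I₀ V) {A B : Type} [AddCommGroup A] [Module W A] [AddCommGroup B] [Module W B]
    (α : A ≃ₗ[W] A) (β : B ≃ₗ[W] B) (e : A ≃ₗ[W] B) (he : ∀ a, e (α a) = β (e a)) (h1 : LFin β) (h2 : Kil I₀ B)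
    (h3 : Rel f g β) : Ψ.F A α = Ψ.F B β := by
  have h := Ψ.add A B PUnit α β (LinearEquiv.refl W PUnit) e.toLinearMap 0 h1 h2 h3 he (fun b => rfl) e.injective
    (fun a => ⟨0, rfl⟩) (fun a => ⟨fun _ => ⟨e.symm a, by simp⟩, fun _ => rfl⟩)
  rw [h, punit_F, add_zero]

end

/-! ## the ring endomorphism of `𝓛` -/

section

variable {R : Type} [CommRing R]

/-- `φ` on the coefficients -/
def GG (φ : R →+* R) : LaurentPolynomial R →+* LaurentPolynomial R :=
  LaurentPolynomial.eval₂ (LaurentPolynomial.C.comp φ) (uT R 1)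

theorem uT_zpow (n : ℤ) : ((uT R 1 ^ n : (LaurentPolynomial R)ˣ) : LaurentPolynomial R) = LaurentPolynomial.T n := by
  induction n using Int.induction_on with
  | zero => simp
  | succ n ih => rw [zpow_add_one, Units.val_mul, ih, LaurentPolynomial.T_add]; rfl
  | pred n ih => rw [zpow_sub_one, Units.val_mul, ih, LaurentPolynomial.T_sub]; rfl

theorem GG_C (φ : R →+* R) (r : R) : GG φ (LaurentPolynomial.C r) = LaurentPolynomial.C (φ r) :=
  LaurentPolynomial.eval₂_C _ _ _

theorem GG_T (φ : R →+* R) (n : ℤ) : GG φ (LaurentPolynomial.T n) = LaurentPolynomial.T n := by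
  rw [GG, LaurentPolynomial.eval₂_T, uT_zpow]

theorem GG_smul (φ : R →+* R) (r : R) (a : LaurentPolynomial R) : GG φ (r • a) = φ r • GG φ a := by
  rw [LaurentPolynomial.smul_eq_C_mul, map_mul, GG_C, ← LaurentPolynomial.smul_eq_C_mul]

theorem GG_comp (φ ψ : R →+* R) (h : ∀ r, φ (ψ r) = r) (a : LaurentPolynomial R) : GG φ (GG ψ a) = a := by
  induction a using LaurentPolynomial.induction_on' with
  | add p q hp hq => rw [map_add, map_add, hp, hq]
  | C_mul_T n r => rw [map_mul, GG_C, GG_T, map_mul, GG_C, GG_T, h]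

/-- the additive map `a ⊗ y ↦ G a ⊗ y` -/
def fwd (φ : R →+* R) (M : Type) [AddCommGroup M] [Module R M] :
    TensorProduct R (LaurentPolynomial R) (Res φ M) →+ TensorProduct R (LaurentPolynomial R) M :=
  TensorProduct.liftAddHom
    { toFun := fun a =>
        { toFun := fun y => GG φ a ⊗ₜ[R] y.val
          map_zero' := TensorProduct.tmul_zero _ _
          map_add' := fun y z => TensorProduct.tmul_add _ _ _ }
      map_zero' := by
        ext y
        show GG φ 0 ⊗ₜ[R] y.val = 0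
        rw [map_zero, TensorProduct.zero_tmul]
      map_add' := fun a b => by
        ext y
        show GG φ (a + b) ⊗ₜ[R] y.val = GG φ a ⊗ₜ[R] y.val + GG φ b ⊗ₜ[R] y.val
        rw [map_add, TensorProduct.add_tmul] }
    (fun r a y => by
      show GG φ (r • a) ⊗ₜ[R] y.val = GG φ a ⊗ₜ[R] (r • y).val
      rw [GG_smul, Res.val_smul, TensorProduct.smul_tmul])

theorem fwd_tmul (φ : R →+* R) (M : Type) [AddCommGroup M] [Module R M] (a : LaurentPolynomial R) (y : Res φ M) :
    fwd φ M (a ⊗ₜ[R] y) = GG φ a ⊗ₜ[R] y.val := rfl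

/-- the additive map `a ⊗ y ↦ G a ⊗ y`, `G` for the inverse of `φ` -/
def bwd (φ ψ : R →+* R) (h : ∀ r, φ (ψ r) = r) (M : Type) [AddCommGroup M] [Module R M] :
    TensorProduct R (LaurentPolynomial R) M →+ TensorProduct R (LaurentPolynomial R) (Res φ M) :=
  TensorProduct.liftAddHom
    { toFun := fun a =>
        { toFun := fun y => GG ψ a ⊗ₜ[R] Res.mk φ y
          map_zero' := TensorProduct.tmul_zero _ _
          map_add' := fun y z => TensorProduct.tmul_add _ _ _ }
      map_zero' := by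
        ext y
        show GG ψ 0 ⊗ₜ[R] Res.mk φ y = 0
        rw [map_zero, TensorProduct.zero_tmul]
      map_add' := fun a b => by
        ext y
        show GG ψ (a + b) ⊗ₜ[R] Res.mk φ y = GG ψ a ⊗ₜ[R] Res.mk φ y + GG ψ b ⊗ₜ[R] Res.mk φ y
        rw [map_add, TensorProduct.add_tmul] }
    (fun r a y => by
      show GG ψ (r • a) ⊗ₜ[R] Res.mk φ y = GG ψ a ⊗ₜ[R] Res.mk φ (r • y)
      have h1 : Res.mk φ (r • y) = ψ r • Res.mk φ y := by rw [Res.smul_mk, h]
      rw [GG_smul, h1, TensorProduct.smul_tmul])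

theorem bwd_tmul (φ ψ : R →+* R) (h : ∀ r, φ (ψ r) = r) (M : Type) [AddCommGroup M] [Module R M]
    (a : LaurentPolynomial R) (y : M) : bwd φ ψ h M (a ⊗ₜ[R] y) = GG ψ a ⊗ₜ[R] Res.mk φ y := rfl

theorem fwd_bwd (φ ψ : R →+* R) (h : ∀ r, φ (ψ r) = r) (M : Type) [AddCommGroup M] [Module R M] (x) :
    fwd φ M (bwd φ ψ h M x) = x := by
  induction x using TensorProduct.induction_on with
  | zero => rw [map_zero, map_zero]
  | add x y hx hy => rw [map_add, map_add, hx, hy]
  | tmul a y => rw [bwd_tmul, fwd_tmul, GG_comp φ ψ h]; rfl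

theorem bwd_fwd (φ ψ : R →+* R) (h : ∀ r, φ (ψ r) = r) (h' : ∀ r, ψ (φ r) = r) (M : Type) [AddCommGroup M] [Module R M]
    (x) : bwd φ ψ h M (fwd φ M x) = x := by
  induction x using TensorProduct.induction_on with
  | zero => rw [map_zero, map_zero]
  | add x y hx hy => rw [map_add, map_add, hx, hy]
  | tmul a y => rw [fwd_tmul, bwd_tmul, GG_comp ψ φ h']; rfl

theorem fwd_smul (φ : R →+* R) (M : Type) [AddCommGroup M] [Module R M] (p : LaurentPolynomial R) (x) :
    fwd φ M (p • x) = GG φ p • fwd φ M x := by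
  induction x using TensorProduct.induction_on with
  | zero => rw [smul_zero, map_zero, smul_zero]
  | add x y hx hy => rw [smul_add, map_add, map_add, smul_add, hx, hy]
  | tmul a y => rw [TensorProduct.smul_tmul', fwd_tmul, fwd_tmul, TensorProduct.smul_tmul', smul_eq_mul, map_mul,
      smul_eq_mul]

end

/-! ## the action on `TM` -/

section

variable {σ : Type}

theorem tau_X (δ : σ → ℤ) (j : σ) : tau δ (MvPolynomial.X j) =
    LaurentPolynomial.C (MvPolynomial.X j : Po σ) * LaurentPolynomial.T (-δ j) := by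
  show (MvPolynomial.aeval _ : Po σ →ₐ[ℂ] LaurentPolynomial (Po σ)) (MvPolynomial.X j) = _
  rw [MvPolynomial.aeval_X]

theorem tau_C (δ : σ → ℤ) (c : ℂ) : tau δ (MvPolynomial.C c) = LaurentPolynomial.C (MvPolynomial.C c : Po σ) := by
  show (MvPolynomial.aeval _ : Po σ →ₐ[ℂ] LaurentPolynomial (Po σ)) (MvPolynomial.C c) = _
  rw [MvPolynomial.aeval_C]
  rfl

/-- an element which kills `M` kills the tensor product -/
theorem kill_tensor {R : Type} [CommRing R] {M : Type} [AddCommGroup M] [Module R M] {r : R} (h : ∀ m : M, r • m = 0)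
    (x : TensorProduct R (LaurentPolynomial R) M) : r • x = 0 := by
  induction x using TensorProduct.induction_on with
  | zero => rw [smul_zero]
  | add x y hx hy => rw [smul_add, hx, hy, add_zero]
  | tmul a y => rw [← TensorProduct.tmul_smul, h, TensorProduct.tmul_zero]

theorem C_smul {R : Type} [CommRing R] {M : Type} [AddCommGroup M] [Module R M] (r : R)
    (x : TensorProduct R (LaurentPolynomial R) M) : (LaurentPolynomial.C r : LaurentPolynomial R) • x = r • x := by
  rw [LaurentPolynomial.C_eq_algebraMap, algebraMap_smul]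

theorem hmg_smul {δ : σ → ℤ} {e : ℤ} {r : Po σ} (h : Hmg δ e r) {M : Type} [AddCommGroup M] [Module (Po σ) M]
    (x : TM δ M) : (r • x).val = r • ((LaurentPolynomial.T (-e) : LaurentPolynomial (Po σ)) • x.val) := by
  rw [Res.val_smul, h, mul_smul, C_smul]

theorem tb_val (δ : σ → ℤ) (d : ℤ) {M : Type} [AddCommGroup M] [Module (Po σ) M] (x : TM δ M) :
    (tb δ d M x).val = (LaurentPolynomial.T d : LaurentPolynomial (Po σ)) • x.val := rfl

theorem kil_TM {δ : σ → ℤ} {I₀ : Set (Po σ)} (hI : ∀ r ∈ I₀, ∃ e : ℤ, Hmg δ e r) {M : Type} [AddCommGroup M]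
    [Module (Po σ) M] (hM : Kil I₀ M) : Kil I₀ (TM δ M) := by
  intro r hr x
  obtain ⟨e, he⟩ := hI r hr
  exact (hmg_smul he x).trans (kill_tensor (hM r hr) _)

theorem rel_TM {δ : σ → ℤ} {d : ℤ} {f g : Po σ} (hf : Hmg δ 0 f) (hg : Hmg δ d g) {M : Type} [AddCommGroup M]
    [Module (Po σ) M] (hM : ∀ m : M, (f + g) • m = 0) : Rel f g (tb δ d M) := by
  intro x
  have h1 : (f • x).val = f • x.val := by
    rw [hmg_smul hf, neg_zero, LaurentPolynomial.T_zero, one_smul]
  have h2 : (tb δ d M (g • x)).val = g • x.val := by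
    rw [tb_val, hmg_smul hg, smul_comm, ← mul_smul, ← LaurentPolynomial.T_add, add_neg_cancel,
      LaurentPolynomial.T_zero, one_smul]
  have h3 : (f • x + tb δ d M (g • x)).val = (f • x).val + (tb δ d M (g • x)).val := rfl
  have h4 : (f • x + tb δ d M (g • x)).val = 0 := by
    rw [h3, h1, h2, ← add_smul]
    exact kill_tensor hM _
  exact h4

end

section

variable {σ : Type} [DecidableEq σ]

theorem gz_X (i : σ) (z : ℂ) (j : σ) : gz i z (MvPolynomial.X j) =
    if j = i then MvPolynomial.C z * MvPolynomial.X j else MvPolynomial.X j := by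
  show (MvPolynomial.aeval _ : Po σ →ₐ[ℂ] Po σ) (MvPolynomial.X j) = _
  rw [MvPolynomial.aeval_X]

theorem gz_C (i : σ) (z c : ℂ) : gz i z (MvPolynomial.C c) = MvPolynomial.C c := by
  show (MvPolynomial.aeval _ : Po σ →ₐ[ℂ] Po σ) (MvPolynomial.C c) = _
  rw [MvPolynomial.aeval_C]
  rfl

theorem gz_comp (i : σ) {z w : ℂ} (h : w * z = 1) (r : Po σ) : gz i z (gz i w r) = r := by
  induction r using MvPolynomial.induction_on with
  | C c => rw [gz_C, gz_C]
  | add p q hp hq => rw [map_add, map_add, hp, hq]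
  | mul_X p j hp =>
    rw [map_mul, map_mul, hp, gz_X]
    split_ifs with hj
    · rw [map_mul, gz_C, gz_X, if_pos hj, ← mul_assoc (MvPolynomial.C w), ← MvPolynomial.C_mul, h, MvPolynomial.C_1,
        one_mul]
    · rw [gz_X, if_neg hj]

theorem GG_tau (i : σ) (z : ℂ) (δ : σ → ℤ) (s : Po σ) : GG (gz i z) (tau δ s) = tau δ (gz i z s) := by
  induction s using MvPolynomial.induction_on with
  | C c => rw [tau_C, GG_C, gz_C, tau_C]
  | add p q hp hq => rw [map_add, map_add, hp, hq, map_add, map_add]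
  | mul_X p j hp =>
    rw [map_mul, map_mul, hp, map_mul, map_mul, tau_X, map_mul, GG_C, GG_T]
    congr 1
    rw [gz_X]
    split_ifs with hj
    · rw [map_mul, map_mul, tau_X, tau_C, mul_assoc]
    · rw [tau_X]

/-- the isomorphism of `TM δ (Res (gz i z) M)` and `Res (gz i z) (TM δ M)` -/
def eqv (i : σ) {z : ℂ} (hz : z ≠ 0) (δ : σ → ℤ) (M : Type) [AddCommGroup M] [Module (Po σ) M] :
    TM δ (Res (gz i z) M) ≃ₗ[Po σ] Res (gz i z) (TM δ M) where
  toFun x := fwd (gz i z) M x.val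
  map_add' x y := map_add (fwd (gz i z) M) x.val y.val
  map_smul' s x := by
    show fwd (gz i z) M (tau δ s • x.val) = tau δ (gz i z s) • fwd (gz i z) M x.val
    rw [fwd_smul, GG_tau]
  invFun x := bwd (gz i z) (gz i z⁻¹) (gz_comp i (inv_mul_cancel₀ hz)) M x
  left_inv x := bwd_fwd _ _ _ (gz_comp i (mul_inv_cancel₀ hz)) M x
  right_inv x := fwd_bwd _ _ _ M x

theorem eqv_tb (i : σ) {z : ℂ} (hz : z ≠ 0) (δ : σ → ℤ) (d : ℤ) (M : Type) [AddCommGroup M] [Module (Po σ) M]
    (x : TM δ (Res (gz i z) M)) :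
    eqv i hz δ M (tb δ d _ x) = Res.equiv (gz i z) (tb δ d M) (eqv i hz δ M x) := by
  show fwd (gz i z) M ((LaurentPolynomial.T d : LaurentPolynomial (Po σ)) • x.val) =
    (LaurentPolynomial.T d : LaurentPolynomial (Po σ)) • fwd (gz i z) M x.val
  rw [fwd_smul, GG_T]

end

end Tp_aux

open Tp_aux

theorem tTp : S_Tl → S_Tp := by
  intro hTl σ _ _ δ d f g I₀ V _ Ψ hd hf hg hI χ₁ hχ i D ζ hζ hgf hgg hgI hP M _ _ hfin hk
  have hk' : (∀ m : M, (f + g) • m = 0) ∧ Kil I₀ M :=
    ⟨fun m => hk _ (Or.inl rfl) m, fun r hr => hk r (Or.inr hr)⟩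
  have h0 := hP (TM δ M) (tb δ (d : ℤ) M) (hTl σ δ d M hd hfin) (kil_TM hI hk'.2) (rel_TM hf hg hk'.1)
  rw [← h0]
  refine Finset.sum_congr rfl fun m _ => ?_
  have hz : ζ ^ m ≠ 0 := pow_ne_zero _ hζ
  have hsurj : Function.Surjective (gz i (ζ ^ m)) := fun r => ⟨_, gz_comp i (inv_mul_cancel₀ hz) r⟩
  have hfin' : Module.Finite (Po σ) (Res (gz i (ζ ^ m)) M) := Res.finite hsurj hfin
  have hk1 : ∀ x : Res (gz i (ζ ^ m)) M, (f + g) • x = 0 := by
    intro x
    show gz i (ζ ^ m) (f + g) • x.val = 0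
    rw [map_add, hgf, hgg]
    exact hk'.1 _
  have hk2 : Kil I₀ (Res (gz i (ζ ^ m)) M) := by
    intro r hr x
    show gz i (ζ ^ m) r • x.val = 0
    rw [hgI r hr]
    exact hk'.2 r hr _
  rw [hχ]
  symm
  exact iso_F Ψ _ _ (eqv i hz δ M).symm (fun a => by
    rw [LinearEquiv.symm_apply_eq, eqv_tb, LinearEquiv.apply_symm_apply]) (hTl σ δ d _ hd hfin') (kil_TM hI hk2)
    (rel_TM hf hg hk1)

end Pool.Agent.FY
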