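import Pool.Agent.Lib.MP_b53bfe_ag.Spec2

/-!
# Theorem T1 (MP_b53bfe_ag), module Tw: the twisted additive function
-/

set_option autoImplicit false

noncomputable section

namespace Pool.Agent.FY

open Polynomial

namespace Tw_aux

variable {σ : Type} {M : Type} [AddCommGroup M] [Module (Po σ) M]

/-- the tensor product -/
abbrev LM (σ : Type) (M : Type) [AddCommGroup M] [Module (Po σ) M] : Type :=
  TensorProduct (Po σ) (LaurentPolynomial (Po σ)) M

theorem C_smul_zero (r : Po σ) (h : ∀ m : M, r • m = 0) (z : LM σ M) :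
    (LaurentPolynomial.C r : LaurentPolynomial (Po σ)) • z = 0 := by
  induction z using TensorProduct.induction_on with
  | zero => exact smul_zero _
  | add x y hx hy => rw [smul_add, hx, hy, add_zero]
  | tmul a m =>
    rw [TensorProduct.smul_tmul', smul_eq_mul, ← LaurentPolynomial.smul_eq_C_mul,
      TensorProduct.smul_tmul, h, TensorProduct.tmul_zero]

/-- the linear map on the twisted modules -/
def tm (δ : σ → ℤ) {M N : Type} [AddCommGroup M] [Module (Po σ) M] [AddCommGroup N] [Module (Po σ) N]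
    (l : M →ₗ[Po σ] N) : TM δ M →ₗ[Po σ] TM δ N :=
  Res.map (tau δ) (l.baseChange (LaurentPolynomial (Po σ)))

theorem tm_tb (δ : σ → ℤ) (d : ℤ) {M N : Type} [AddCommGroup M] [Module (Po σ) M] [AddCommGroup N]
    [Module (Po σ) N] (l : M →ₗ[Po σ] N) (z : TM δ M) : tm δ l (tb δ d M z) = tb δ d N (tm δ l z) := by
  change (l.baseChange (LaurentPolynomial (Po σ)))
    ((LaurentPolynomial.T d : LaurentPolynomial (Po σ)) • (z.val : LM σ M)) =
    (LaurentPolynomial.T d : LaurentPolynomial (Po σ)) • (l.baseChange (LaurentPolynomial (Po σ))) z.val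
  rw [map_smul]

theorem tm_apply (δ : σ → ℤ) {M N : Type} [AddCommGroup M] [Module (Po σ) M] [AddCommGroup N]
    [Module (Po σ) N] (l : M →ₗ[Po σ] N) (z : TM δ M) :
    tm δ l z = Res.mk (tau δ) (l.lTensor (LaurentPolynomial (Po σ)) (z.val : LM σ M)) := rfl

theorem rel (δ : σ → ℤ) (d : ℕ) (f g : Po σ) (hf : Hmg δ 0 f) (hg : Hmg δ (d : ℤ) g)
    (h : ∀ m : M, (f + g) • m = 0) : Rel f g (tb δ (d : ℤ) M) := by
  intro z
  change (tau δ f) • (z.val : LM σ M) +
    (LaurentPolynomial.T (d : ℤ) : LaurentPolynomial (Po σ)) • ((tau δ g) • (z.val : LM σ M)) = 0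
  unfold Hmg at hf hg
  rw [hf, hg, neg_zero, LaurentPolynomial.T_zero, mul_one, smul_smul]
  have e : (LaurentPolynomial.T (d : ℤ) : LaurentPolynomial (Po σ)) *
      (LaurentPolynomial.C g * LaurentPolynomial.T (-(d : ℤ))) = LaurentPolynomial.C g := by
    rw [mul_left_comm, ← LaurentPolynomial.T_add, add_neg_cancel, LaurentPolynomial.T_zero, mul_one]
  rw [e, ← add_smul, ← map_add]
  exact C_smul_zero (f + g) h z.val

theorem kil (δ : σ → ℤ) (I₀ : Set (Po σ)) (hI : ∀ r ∈ I₀, ∃ e : ℤ, Hmg δ e r) (h : Kil I₀ M) :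
    Kil I₀ (TM δ M) := by
  intro r hr z
  obtain ⟨e, he⟩ := hI r hr
  unfold Hmg at he
  change (tau δ r) • (z.val : LM σ M) = 0
  rw [he, mul_comm, mul_smul, C_smul_zero r (h r hr), smul_zero]

end Tw_aux

open Tw_aux

theorem tTw : S_Tl → S_Tw := by
  intro hTl σ _ _ δ d f g I₀ V _ Ψ hd hf hg hI
  refine ⟨⟨fun M _ _ => Ψ.F (TM δ M) (tb δ (d : ℤ) M), ?_⟩, fun M _ _ => rfl⟩
  intro A B C _ _ _ _ _ _ i p hB hk hi hp hex
  have hk1 : ∀ m : B, (f + g) • m = 0 := hk (f + g) (Or.inl rfl)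
  have hk2 : Kil I₀ B := fun r hr => hk r (Or.inr hr)
  have hflat : Module.Flat (Po σ) (LaurentPolynomial (Po σ)) := inferInstance
  refine Ψ.add (TM δ A) (TM δ B) (TM δ C) (tb δ (d : ℤ) A) (tb δ (d : ℤ) B) (tb δ (d : ℤ) C)
    (tm δ i) (tm δ p) (hTl σ δ d B hd hB) (kil δ I₀ hI hk2) (rel δ d f g hf hg hk1)
    (tm_tb δ (d : ℤ) i) (tm_tb δ (d : ℤ) p) ?_ ?_ ?_
  · exact Module.Flat.lTensor_preserves_injective_linearMap (M := LaurentPolynomial (Po σ)) i hi
  · exact LinearMap.lTensor_surjective (LaurentPolynomial (Po σ)) hp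
  · exact lTensor_exact (LaurentPolynomial (Po σ)) hex hp

end Pool.Agent.FY
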