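import Pool.Agent.Lib.MP_b53bfe_ag.Aa
import Pool.Agent.Lib.MP_b53bfe_ag.Ab
import Pool.Agent.Lib.MP_b53bfe_ag.Ac
import Pool.Agent.Lib.MP_b53bfe_ag.Ba
import Pool.Agent.Lib.MP_b53bfe_ag.Bb
import Pool.Agent.Lib.MP_b53bfe_ag.Da
import Pool.Agent.Lib.MP_b53bfe_ag.Db
import Pool.Agent.Lib.MP_b53bfe_ag.Dc
import Pool.Agent.Lib.MP_b53bfe_ag.Dd
import Pool.Agent.Lib.MP_b53bfe_ag.De
import Pool.Agent.Lib.MP_b53bfe_ag.Ee
import Pool.Agent.Lib.MP_b53bfe_ag.Ef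
import Pool.Agent.Lib.MP_b53bfe_ag.Fin
import Pool.Agent.Lib.MP_b53bfe_ag.Ha
import Pool.Agent.Lib.MP_b53bfe_ag.Hb
import Pool.Agent.Lib.MP_b53bfe_ag.Hg
import Pool.Agent.Lib.MP_b53bfe_ag.Hk
import Pool.Agent.Lib.MP_b53bfe_ag.Hr
import Pool.Agent.Lib.MP_b53bfe_ag.J1
import Pool.Agent.Lib.MP_b53bfe_ag.J2
import Pool.Agent.Lib.MP_b53bfe_ag.J3
import Pool.Agent.Lib.MP_b53bfe_ag.J4
import Pool.Agent.Lib.MP_b53bfe_ag.J5
import Pool.Agent.Lib.MP_b53bfe_ag.JI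
import Pool.Agent.Lib.MP_b53bfe_ag.JN
import Pool.Agent.Lib.MP_b53bfe_ag.Jx
import Pool.Agent.Lib.MP_b53bfe_ag.Kv
import Pool.Agent.Lib.MP_b53bfe_ag.La
import Pool.Agent.Lib.MP_b53bfe_ag.Lb
import Pool.Agent.Lib.MP_b53bfe_ag.Lc
import Pool.Agent.Lib.MP_b53bfe_ag.Lk
import Pool.Agent.Lib.MP_b53bfe_ag.Lv
import Pool.Agent.Lib.MP_b53bfe_ag.PB
import Pool.Agent.Lib.MP_b53bfe_ag.Sn
import Pool.Agent.Lib.MP_b53bfe_ag.Stp
import Pool.Agent.Lib.MP_b53bfe_ag.Stq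
import Pool.Agent.Lib.MP_b53bfe_ag.T1
import Pool.Agent.Lib.MP_b53bfe_ag.Tha
import Pool.Agent.Lib.MP_b53bfe_ag.Ths
import Pool.Agent.Lib.MP_b53bfe_ag.Tl
import Pool.Agent.Lib.MP_b53bfe_ag.Tp
import Pool.Agent.Lib.MP_b53bfe_ag.Tw

/-!
# Theorem T1: all modules
-/

set_option autoImplicit false

namespace Pool.Agent.FY

theorem allT1 : S_T1 := by
  have hEe := tEe
  have hDa := tDa
  have hLb := tLb
  have hSn := tSn
  have hJN := tJN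
  have hJI := tJI hSn
  have hJ1 := tJ1 hJI
  have hJ2 := tJ2 hJI hJN
  have hJ3 := tJ3 hJI hJN
  have hJ4 := tJ4 hJN hJ1 hJ2 hJ3
  have hJ5 := tJ5 hSn hJN
  have hJx := tJx hJ4 hJ5
  have hHr := tHr
  have hHa := tHa hSn hHr
  have hHb := tHb hHa
  have hHg := tHg hHb
  have hHk := tHk
  have hTha := tTha
  have hThs := tThs
  have hKv := tKv hTha hThs hHk
  have hStp := tStp hSn hHg
  have hPB := tPB
  have hTl := tTl
  have hTw := tTw hTl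
  have hTp := tTp hTl
  have hEf := tEf
  have hStq := tStq hJx hStp hPB hTl hTw hTp hEe hEf
  have hAa := tAa hHb hTha hThs hKv
  have hAb := tAb hAa
  have hAc := tAc hStq
  have hDb := tDb
  have hDc := tDc
  have hDd := tDd hDa hDb
  have hDe := tDe hDa hDb hDc hDd
  have hLk := tLk
  have hLc := tLc (hLb tLa) hLk
  have hLv := tLv hKv
  have hBa := tBa
  have hBb := tBb hDe
  exact tT1 hAb hAc hLc hLv hBa hBb

end Pool.Agent.FY
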