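import Pool.Agent.Lib.MP_b53bfe_ag.Spec3
import Pool.Agent.Lib.MP_b53bfe_ag.Bas

/-!
# Theorem T2 (MP_b53bfe_ag): the index of an element as an additive function
-/

set_option autoImplicit false

noncomputable section

namespace Pool.Agent.FY

open Polynomial

namespace Fr_aux

variable {R : Type} [CommRing R] {I : Set R} (r : R) {M : Type} [AddCommGroup M] [Module R M]

theorem kil_ker (h : Kil I M) : Kil (insert r I) (LinearMap.ker (mg M r)) := by
  rw [Kil.insert]
  refine ⟨?_, h.sub _⟩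
  rintro ⟨m, hm⟩
  exact Subtype.ext hm

theorem kil_coker (h : Kil I M) : Kil (insert r I) (M ⧸ LinearMap.range (mg M r)) := by
  rw [Kil.insert]
  refine ⟨?_, h.quot _⟩
  intro m
  obtain ⟨x, rfl⟩ := Submodule.Quotient.mk_surjective _ m
  rw [← Submodule.Quotient.mk_smul, Submodule.Quotient.mk_eq_zero]
  exact ⟨x, rfl⟩

end Fr_aux

theorem tFr : S_Sn → S_Fr := by
  intro hSn R _ _ r I V _ χ
  refine ⟨{ f := fun M _ _ => ind χ (mg M r), add := ?_ }, fun M _ _ => rfl⟩
  intro A B C _ _ _ _ _ _ i p hB hk hi hp he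
  have kA : Kil I A := Kil.inj hi hk
  have kC : Kil I C := Kil.surj hp hk
  exact hSn R (insert r I) V χ A B C A B C i p i p (mg A r) (mg B r) (mg C r) hB hB hi hp he hi hp he
    (fun x => i.map_smul r x) (fun x => p.map_smul r x)
    (Fr_aux.kil_ker r kA) (Fr_aux.kil_coker r kA) (Fr_aux.kil_ker r hk) (Fr_aux.kil_coker r hk)
    (Fr_aux.kil_ker r kC) (Fr_aux.kil_coker r kC)

end Pool.Agent.FY
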