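import Pool.Agent.Lib.MP_b53bfe_ag.Spec3
import Pool.Agent.Lib.MP_b53bfe_ag.Bas

/-!
# Theorem T2 (MP_b53bfe_ag), module Fx (helper65): from the hyperplanes `X_(i,1) = 1` back to the cone
-/

set_option autoImplicit false

noncomputable section

namespace Pool.Agent.FY

open Polynomial

namespace Fx_aux

/-! ## `x - 1` is a non-zero-divisor modulo a homogeneous ideal -/

theorem inj_graded {A : Type} [CommRing A] [Algebra ℂ A] (𝒜 : ℕ → Submodule ℂ A) [GradedAlgebra 𝒜]
    (J : Ideal A) (hJ : J.IsHomogeneous 𝒜) (x : A) (hx : x ∈ 𝒜 1) (p : A) (h : (x - 1) * p ∈ J) :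
    p ∈ J := by
  classical
  have key : ∀ m : ℕ, ((DirectSum.decompose 𝒜 p m : 𝒜 m) : A) ∈ J := by
    intro m
    have h1 : ((DirectSum.decompose 𝒜 ((x - 1) * p) m : 𝒜 m) : A) ∈ J := hJ m h
    rw [sub_mul, one_mul, DirectSum.decompose_sub] at h1
    induction m with
    | zero =>
      have h2 : ((DirectSum.decompose 𝒜 (x * p) 0 : 𝒜 0) : A) = 0 :=
        DirectSum.coe_decompose_mul_of_left_mem_of_not_le 𝒜 hx (by lia)
      have h3 : ((DirectSum.decompose 𝒜 (x * p) 0 : 𝒜 0) : A) -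
          ((DirectSum.decompose 𝒜 p 0 : 𝒜 0) : A) ∈ J := h1
      rw [h2, zero_sub] at h3
      exact (J.neg_mem_iff).1 h3
    | succ m ih =>
      have h0 : ((DirectSum.decompose 𝒜 ((x - 1) * p) m : 𝒜 m) : A) ∈ J := hJ m h
      rw [sub_mul, one_mul, DirectSum.decompose_sub] at h0
      have ih' := ih h0
      have h2 : ((DirectSum.decompose 𝒜 (x * p) (m + 1) : 𝒜 (m + 1)) : A) =
          x * ((DirectSum.decompose 𝒜 p m : 𝒜 m) : A) := by
        have := DirectSum.coe_decompose_mul_add_of_left_mem 𝒜 (a := x) (b := p) (i := 1) (j := m) hx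
        rw [add_comm 1 m] at this
        exact this
      have h3 : ((DirectSum.decompose 𝒜 (x * p) (m + 1) : 𝒜 (m + 1)) : A) -
          ((DirectSum.decompose 𝒜 p (m + 1) : 𝒜 (m + 1)) : A) ∈ J := h1
      rw [h2] at h3
      have h4 : x * ((DirectSum.decompose 𝒜 p m : 𝒜 m) : A) ∈ J := J.mul_mem_left _ ih'
      exact (J.sub_mem_iff_right h4).1 h3
  rw [← DirectSum.sum_support_decompose 𝒜 p]
  exact J.sum_mem fun m _ => key m

/-- the degree in the row `i` -/
def wr (n : ℕ) (i : Fin 3) : Ix n → ℕ := fun p => if p.1 = i then 1 else 0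

theorem weight_row {n : ℕ} (i : Fin 3) (d : Ix n →₀ ℕ) :
    ((Finsupp.weight (wr n i) d : ℕ) : ℤ) = Finsupp.weight (dg (n := n)) d i := by
  rw [Finsupp.weight_apply, Finsupp.weight_apply, Finsupp.sum, Finsupp.sum, Finset.sum_apply,
    Nat.cast_sum]
  refine Finset.sum_congr rfl fun p _ => ?_
  by_cases h : p.1 = i
  · subst h
    simp [wr, dg]
  · simp [wr, dg, h]

theorem homog_row {n : ℕ} (i : Fin 3) {r : Po (Ix n)} {a : Dg}
    (h : MvPolynomial.IsWeightedHomogeneous (dg (n := n)) r a) :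
    MvPolynomial.IsWeightedHomogeneous (wr n i) r (a i).toNat := by
  intro d hd
  have h1 := weight_row i d
  rw [h hd] at h1
  rw [← h1]
  simp

/-- multiplication by `X_(i,1) - 1` is injective modulo `span B`, if the elements of `B` are
homogeneous in the row `i` -/
theorem inj_row {n : ℕ} (i : Fin 3) (B : Set (Po (Ix n)))
    (hB : ∀ r ∈ B, ∃ m : ℕ, MvPolynomial.IsWeightedHomogeneous (wr n i) r m) (p : Po (Ix n))
    (h : (MvPolynomial.X ((i, 1) : Ix n) - 1 : Po (Ix n)) * p ∈ Ideal.span B) : p ∈ Ideal.span B := by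
  let _ := MvPolynomial.weightedGradedAlgebra ℂ (wr n i)
  refine inj_graded (MvPolynomial.weightedHomogeneousSubmodule ℂ (wr n i)) (Ideal.span B)
    (Ideal.homogeneous_span _ _ fun r hr => ?_) (MvPolynomial.X ((i, 1) : Ix n)) ?_ p h
  · obtain ⟨m, hm⟩ := hB r hr
    exact ⟨m, hm⟩
  · have h1 : MvPolynomial.IsWeightedHomogeneous (wr n i) (MvPolynomial.X ((i, 1) : Ix n) : Po (Ix n))
        (wr n i (i, 1)) := MvPolynomial.isWeightedHomogeneous_X ℂ (wr n i) (i, 1)
    have h2 : wr n i (i, 1) = 1 := if_pos rfl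
    rw [h2] at h1
    exact h1

/-- `X_(l,1) - 1` is homogeneous of degree `0` in the row `i ≠ l` -/
theorem homog_other {n : ℕ} {i l : Fin 3} (h : l ≠ i) :
    MvPolynomial.IsWeightedHomogeneous (wr n i) (MvPolynomial.X ((l, 1) : Ix n) - 1 : Po (Ix n)) 0 := by
  have h1 : MvPolynomial.IsWeightedHomogeneous (wr n i) (MvPolynomial.X ((l, 1) : Ix n) : Po (Ix n))
      (wr n i (l, 1)) := MvPolynomial.isWeightedHomogeneous_X ℂ (wr n i) (l, 1)
  have h2 : wr n i (l, 1) = 0 := if_neg h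
  rw [h2] at h1
  have h3 : MvPolynomial.IsWeightedHomogeneous (wr n i) (1 : Po (Ix n)) 0 :=
    MvPolynomial.isWeightedHomogeneous_one ℂ (wr n i)
  rw [← MvPolynomial.mem_weightedHomogeneousSubmodule] at h1 h3 ⊢
  exact Submodule.sub_mem _ h1 h3

/-! ## one step -/

theorem range_eq {R : Type} [CommRing R] (B : Set R) (r : R) :
    LinearMap.range (mg (R ⧸ Ideal.span B) r) =
      Submodule.map (Submodule.mkQ (Ideal.span B)) (Ideal.span (insert r B)) := by
  ext y
  obtain ⟨p, rfl⟩ := Submodule.Quotient.mk_surjective _ y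
  constructor
  · rintro ⟨q, hq⟩
    obtain ⟨q, rfl⟩ := Submodule.Quotient.mk_surjective _ q
    exact ⟨r * q, Ideal.mul_mem_right _ _ (Ideal.subset_span (Set.mem_insert _ _)), hq⟩
  · rintro ⟨q, hq, hqp⟩
    rw [← hqp]
    have hq' : q ∈ Ideal.span (insert r B) := hq
    obtain ⟨a, b, hb, hab⟩ := Ideal.mem_span_insert.1 hq'
    refine ⟨Submodule.Quotient.mk a, ?_⟩
    rw [mg_apply, ← Submodule.Quotient.mk_smul]
    change _ = Submodule.Quotient.mk q
    rw [Submodule.Quotient.eq, hab]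
    have h1 : r • a - (a * r + b) = -b := by
      rw [smul_eq_mul]
      ring
    rw [h1]
    exact (Ideal.neg_mem_iff _).2 hb

/-- `(R / B) / r = R / (B, r)` -/
def quoEquiv {R : Type} [CommRing R] (B : Set R) (r : R) :
    ((R ⧸ Ideal.span B) ⧸ LinearMap.range (mg (R ⧸ Ideal.span B) r)) ≃ₗ[R]
      R ⧸ Ideal.span (insert r B) :=
  (Submodule.quotEquivOfEq _ _ (range_eq B r)).trans
    (Submodule.quotientQuotientEquivQuotient (Ideal.span B) (Ideal.span (insert r B))
      (Ideal.span_mono (Set.subset_insert _ _)))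

theorem step {R : Type} [CommRing R] {I : Set R} {V : Type 1} [AddCommGroup V] (r : R)
    (χ : AFun R (insert r I) V) (χ' : AFun R I V)
    (h : ∀ (M : Type) [AddCommGroup M] [Module R M],
      χ'.f M = χ.f (M ⧸ LinearMap.range (mg M r)) - χ.f (LinearMap.ker (mg M r)))
    (B : Set R) (hB : ∀ s ∈ I, s ∈ Ideal.span B) (hinj : ∀ p, r * p ∈ Ideal.span B → p ∈ Ideal.span B) :
    χ'.f (R ⧸ Ideal.span B) = χ.f (R ⧸ Ideal.span (insert r B)) := by
  have hker : Subsingleton (LinearMap.ker (mg (R ⧸ Ideal.span B) r)) := by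
    rw [Submodule.subsingleton_iff_eq_bot, eq_bot_iff]
    intro y hy
    obtain ⟨p, rfl⟩ := Submodule.Quotient.mk_surjective _ y
    rw [LinearMap.mem_ker, mg_apply, ← Submodule.Quotient.mk_smul, Submodule.Quotient.mk_eq_zero,
      smul_eq_mul] at hy
    rw [Submodule.mem_bot, Submodule.Quotient.mk_eq_zero]
    exact hinj p hy
  have hfin : Module.Finite R ((R ⧸ Ideal.span B) ⧸ LinearMap.range (mg (R ⧸ Ideal.span B) r)) :=
    inferInstance
  have hkil : Kil (insert r I) ((R ⧸ Ideal.span B) ⧸ LinearMap.range (mg (R ⧸ Ideal.span B) r)) := by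
    rw [Kil.insert]
    constructor
    · intro m
      obtain ⟨y, rfl⟩ := Submodule.Quotient.mk_surjective _ m
      rw [← Submodule.Quotient.mk_smul, Submodule.Quotient.mk_eq_zero]
      exact ⟨y, rfl⟩
    · refine Kil.quot ?_ _
      intro s hs m
      obtain ⟨p, rfl⟩ := Submodule.Quotient.mk_surjective _ m
      rw [← Submodule.Quotient.mk_smul, Submodule.Quotient.mk_eq_zero, smul_eq_mul]
      exact Ideal.mul_mem_right _ _ (hB s hs)
  rw [h, χ.subsing hker, sub_zero]
  exact χ.iso (quoEquiv B r) hfin hkil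

end Fx_aux

open Fx_aux in
theorem tFx : S_Ga → S_Gb → S_Gi → S_Gu → S_Fr → S_Fx := by
  intro _ _ _ _ hFr n I V _ χb
  let r : Fin 3 → Po (Ix n) := fun i => MvPolynomial.X ((i, 1) : Ix n) - 1
  have hU : ∀ B : Set (Po (Ix n)), insert (r 0) (insert (r 1) (insert (r 2) B)) = U1 n ∪ B := by
    intro B
    ext s
    simp only [Set.mem_insert_iff, Set.mem_union, U1, Set.mem_range]
    constructor
    · rintro (h | h | h | h)
      · exact Or.inl ⟨0, h.symm⟩
      · exact Or.inl ⟨1, h.symm⟩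
      · exact Or.inl ⟨2, h.symm⟩
      · exact Or.inr h
    · rintro (⟨i, h⟩ | h)
      · fin_cases i
        · exact Or.inl h.symm
        · exact Or.inr (Or.inl h.symm)
        · exact Or.inr (Or.inr (Or.inl h.symm))
      · exact Or.inr (Or.inr (Or.inr h))
  let χ0 : AFun (Po (Ix n)) (insert (r 0) (insert (r 1) (insert (r 2) I))) V :=
    χb.mono _ (fun M _ _ hM => by rw [← hU]; exact hM)
  obtain ⟨χ1, h1⟩ := hFr (Po (Ix n)) (r 0) _ V χ0
  obtain ⟨χ2, h2⟩ := hFr (Po (Ix n)) (r 1) _ V χ1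
  obtain ⟨χs, h3⟩ := hFr (Po (Ix n)) (r 2) _ V χ2
  refine ⟨χs, fun A hA hI => ?_⟩
  have hrow : ∀ i : Fin 3, ∀ s ∈ A, ∃ m : ℕ, MvPolynomial.IsWeightedHomogeneous (wr n i) s m := by
    intro i s hs
    obtain ⟨a, ha⟩ := hA s hs
    exact ⟨_, homog_row i ha⟩
  have hins : ∀ (B : Set (Po (Ix n))) (J : Set (Po (Ix n))) (l : Fin 3),
      (∀ s ∈ J, s ∈ Ideal.span B) → ∀ s ∈ insert (r l) J, s ∈ Ideal.span (insert (r l) B) := by
    intro B J l h s hs
    rcases hs with rfl | hs
    · exact Ideal.subset_span (Set.mem_insert _ _)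
    · exact Ideal.span_mono (Set.subset_insert _ _) (h s hs)
  have e1 := step (r 2) χ2 χs h3 A hI (inj_row 2 A (hrow 2))
  have e2 := step (r 1) χ1 χ2 h2 (insert (r 2) A) (hins A I 2 hI) (inj_row 1 _ (by
    rintro s (rfl | hs)
    · exact ⟨0, homog_other (by decide)⟩
    · exact hrow 1 s hs))
  have e3 := step (r 0) χ0 χ1 h1 (insert (r 1) (insert (r 2) A)) (hins _ _ 1 (hins A I 2 hI))
    (inj_row 0 _ (by
      rintro s (rfl | rfl | hs)
      · exact ⟨0, homog_other (by decide)⟩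
      · exact ⟨0, homog_other (by decide)⟩
      · exact hrow 0 s hs))
  rw [e1, e2, e3]
  change χb.f (Po (Ix n) ⧸ Ideal.span (insert (r 0) (insert (r 1) (insert (r 2) A)))) = _
  rw [hU]

end Pool.Agent.FY
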