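import Pool.Agent.Lib.MP_b53bfe_ag.Spec3
import Pool.Agent.Lib.MP_b53bfe_ag.Bas

/-!
# `S_GD`: the averages
-/

set_option autoImplicit false

noncomputable section

namespace Pool.Agent.FY

open Polynomial

namespace GD_aux

section

variable {n : ℕ}

theorem gz_X (p : Ix n) (z : ℂ) (q : Ix n) :
    gz p z (MvPolynomial.X q) = if q = p then MvPolynomial.C z * MvPolynomial.X q else MvPolynomial.X q := by
  unfold gz
  exact MvPolynomial.aeval_X _ _

theorem gz_C (p : Ix n) (z a : ℂ) : gz p z (MvPolynomial.C a) = MvPolynomial.C a := by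
  unfold gz
  exact MvPolynomial.aeval_C _ _

/-- the coefficients of `gz p z r` -/
theorem coeff_gz (p : Ix n) (z : ℂ) (r : Po (Ix n)) (m : Ix n →₀ ℕ) :
    MvPolynomial.coeff m (gz p z r) = z ^ (m p) * MvPolynomial.coeff m r := by
  classical
  induction r using MvPolynomial.induction_on generalizing m with
  | C a =>
    rw [gz_C, MvPolynomial.coeff_C]
    split_ifs with h
    · rw [← h, Finsupp.zero_apply, pow_zero, one_mul]
    · rw [mul_zero]
  | add r s hr hs => rw [map_add, MvPolynomial.coeff_add, hr, hs, MvPolynomial.coeff_add, mul_add]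
  | mul_X r q hr =>
    rw [map_mul, gz_X]
    by_cases hq : q = p
    · rw [if_pos hq, mul_left_comm, MvPolynomial.coeff_C_mul, MvPolynomial.coeff_mul_X', MvPolynomial.coeff_mul_X']
      split_ifs with h
      · rw [hr]
        subst hq
        have h1 : m q = (m - Finsupp.single q 1 : Ix n →₀ ℕ) q + 1 := by
          rw [Finsupp.tsub_apply, Finsupp.single_eq_same]
          have := Finsupp.mem_support_iff.1 h
          omega
        rw [h1, pow_succ]
        ring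
      · rw [mul_zero, mul_zero]
    · rw [if_neg hq, MvPolynomial.coeff_mul_X', MvPolynomial.coeff_mul_X']
      split_ifs with h
      · rw [hr]
        have h1 : (m - Finsupp.single q 1 : Ix n →₀ ℕ) p = m p := by
          rw [Finsupp.tsub_apply, Finsupp.single_eq_of_ne (Ne.symm hq), Nat.sub_zero]
        rw [h1]
      · rw [mul_zero]

theorem gz_inv (p : Ix n) {z : ℂ} (hz : z ≠ 0) (r : Po (Ix n)) : gz p z⁻¹ (gz p z r) = r := by
  ext m
  rw [coeff_gz, coeff_gz, ← mul_assoc, ← mul_pow, inv_mul_cancel₀ hz, one_pow, one_mul]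

theorem gz_inv' (p : Ix n) {z : ℂ} (hz : z ≠ 0) (r : Po (Ix n)) : gz p z (gz p z⁻¹ r) = r := by
  have := gz_inv p (inv_ne_zero hz) r
  rwa [inv_inv] at this

theorem gz_cP (p : Ix n) (z : ℂ) (a : Dg) (r : Po (Ix n)) : gz p z (cP n a r) = cP n a (gz p z r) := by
  classical
  ext m
  rw [coeff_gz]
  change z ^ (m p) * MvPolynomial.coeff m (MvPolynomial.weightedHomogeneousComponent (R := ℂ) (dg (n := n)) a r) =
    MvPolynomial.coeff m (MvPolynomial.weightedHomogeneousComponent (R := ℂ) (dg (n := n)) a (gz p z r))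
  rw [MvPolynomial.coeff_weightedHomogeneousComponent, MvPolynomial.coeff_weightedHomogeneousComponent, coeff_gz]
  split_ifs
  · rfl
  · rw [mul_zero]

theorem gz_surj (p : Ix n) {z : ℂ} (hz : z ≠ 0) : Function.Surjective (gz p z) := fun r => ⟨_, gz_inv' p hz r⟩

theorem gz_sF (i k : Fin 3) {d : ℕ} {z : ℂ} (hz : z ^ d = 1) : gz ((i, 1) : Ix n) z (sF n d k) = sF n d k := by
  unfold sF
  rw [map_sum]
  refine Finset.sum_congr rfl fun j _ => ?_
  unfold xv
  rw [map_pow, gz_X]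
  split_ifs
  · rw [mul_pow, ← map_pow, hz, map_one, one_mul]
  · rfl

theorem gz_mn {i k l : Fin 3} (hk : k ≠ i) (hl : l ≠ i) (z : ℂ) (j j' : Fin (n + 3)) :
    gz ((i, 1) : Ix n) z (mn n k l j j') = mn n k l j j' := by
  have h1 : ∀ (k' : Fin 3) (j'' : Fin (n + 3)), k' ≠ i →
      gz ((i, 1) : Ix n) z (MvPolynomial.X (k', j'')) = MvPolynomial.X (k', j'') := by
    intro k' j'' h
    rw [gz_X, if_neg]
    intro h2
    exact h (congrArg Prod.fst h2)
  unfold mn xv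
  rw [map_sub, map_mul, map_mul, h1 _ _ hk, h1 _ _ hl, h1 _ _ hk, h1 _ _ hl]

theorem sF_hom (d : ℕ) (k : Fin 3) :
    MvPolynomial.IsWeightedHomogeneous (dg (n := n)) (sF n d k) (d • (Pi.single k 1 : Dg)) := by
  unfold sF
  refine MvPolynomial.IsWeightedHomogeneous.sum _ _ _ fun j _ => ?_
  exact (MvPolynomial.isWeightedHomogeneous_X ℂ (dg (n := n)) (k, j)).pow d

theorem mn_hom (k l : Fin 3) (j j' : Fin (n + 3)) :
    MvPolynomial.IsWeightedHomogeneous (dg (n := n)) (mn n k l j j') ((Pi.single k 1 : Dg) + Pi.single l 1) := by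
  unfold mn
  refine MvPolynomial.IsWeightedHomogeneous.sub ?_ ?_
  · exact (MvPolynomial.isWeightedHomogeneous_X ℂ (dg (n := n)) (k, j)).mul
      (MvPolynomial.isWeightedHomogeneous_X ℂ (dg (n := n)) (l, j'))
  · exact (MvPolynomial.isWeightedHomogeneous_X ℂ (dg (n := n)) (k, j')).mul
      (MvPolynomial.isWeightedHomogeneous_X ℂ (dg (n := n)) (l, j))

theorem gP_comm (d : ℕ) (i k : Fin 3) : gP n d i k = gP n d k i := by
  have h : ∀ i k : Fin 3, gP n d i k ⊆ gP n d k i := by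
    rintro i k r (⟨j, j', rfl⟩ | hr)
    · refine Or.inl ⟨j', j, ?_⟩
      unfold mn
      ring
    · exact Or.inr hr
  exact Set.Subset.antisymm (h i k) (h k i)

/-- the isomorphism of `S / J` with its twist -/
theorem tw_iso (hGa : S_Ga) (hGi : S_Gi) (hGu : S_Gu) {d : ℕ} {V : Type 1} [AddCommGroup V]
    (χ : GFun n (Set.range (sF n d)) V) (p : Ix n) (z : ℂ) (hz : z ≠ 0) (A : Set (Po (Ix n)))
    (hA : ∀ r ∈ A, ∃ e : Dg, MvPolynomial.IsWeightedHomogeneous (dg (n := n)) r e)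
    (hI : ∀ r ∈ Set.range (sF n d), r ∈ Ideal.span A)
    (h1 : ∀ r ∈ A, gz p z r ∈ Ideal.span A) (h2 : ∀ r ∈ A, gz p z⁻¹ r ∈ Ideal.span A) (e : Dg) :
    χ.f (Res (gz p z) (Po (Ix n) ⧸ Ideal.span A)) (cR (gz p z) (sh (cQ (cP n) (Ideal.span A)) e)) =
      χ.cy (Ideal.span A) e := by
  set J := Ideal.span A with hJ
  obtain ⟨-, hP, hS⟩ := hGi n
  obtain ⟨hst, hgr⟩ := hS A hA
  obtain ⟨-, h3, -⟩ := hGa n (Po (Ix n)) (cP n) hP
  obtain ⟨-, -, -, h4⟩ := h3 J hst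
  obtain ⟨hsh, -, -⟩ := hGa n (Po (Ix n) ⧸ J) (cQ (cP n) J) hgr
  have hle1 : ∀ r ∈ J, gz p z r ∈ J := by
    intro r hr
    have : J ≤ J.comap (gz p z) := Ideal.span_le.2 h1
    exact this hr
  have hle2 : ∀ r ∈ J, gz p z⁻¹ r ∈ J := by
    intro r hr
    have : J ≤ J.comap (gz p z⁻¹) := Ideal.span_le.2 h2
    exact this hr
  let l : (Po (Ix n) ⧸ J) →ₗ[Po (Ix n)] Res (gz p z) (Po (Ix n) ⧸ J) :=
    Submodule.liftQ J
      { toFun := fun r => Res.mk (gz p z) (Submodule.Quotient.mk (gz p z r))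
        map_add' := fun a b => by
          rw [map_add]
          rfl
        map_smul' := fun a b => by
          rw [smul_eq_mul, map_mul, RingHom.id_apply, Res.smul_mk]
          rfl }
      (by
        intro r hr
        rw [LinearMap.mem_ker]
        change (Submodule.Quotient.mk (gz p z r) : Po (Ix n) ⧸ J) = 0
        rw [Submodule.Quotient.mk_eq_zero]
        exact hle1 r hr)
  have hl : ∀ r : Po (Ix n), l (Submodule.Quotient.mk r) = Res.mk (gz p z) (Submodule.Quotient.mk (gz p z r)) :=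
    fun r => rfl
  have hbij : Function.Bijective l := by
    constructor
    · rw [injective_iff_map_eq_zero]
      intro x hx
      obtain ⟨r, rfl⟩ := Submodule.Quotient.mk_surjective _ x
      rw [hl] at hx
      have hx' : (Submodule.Quotient.mk (gz p z r) : Po (Ix n) ⧸ J) = 0 := hx
      rw [Submodule.Quotient.mk_eq_zero] at hx' ⊢
      have := hle2 _ hx'
      rwa [gz_inv p hz] at this
    · intro x
      obtain ⟨r, hr⟩ := Submodule.Quotient.mk_surjective _ x.val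
      refine ⟨Submodule.Quotient.mk (gz p z⁻¹ r), ?_⟩
      rw [hl, gz_inv' p hz, hr]
      rfl
  have hk : Kil (Set.range (sF n d)) (Po (Ix n) ⧸ J) := by
    intro r hr x
    obtain ⟨s, rfl⟩ := Submodule.Quotient.mk_surjective _ x
    rw [← Submodule.Quotient.mk_smul, Submodule.Quotient.mk_eq_zero, smul_eq_mul]
    exact J.mul_mem_right s (hI r hr)
  obtain ⟨-, hiso, -⟩ := hGu n _ V χ (Po (Ix n) ⧸ J) (sh (cQ (cP n) J) e) (hsh e) inferInstance hk
  refine (hiso _ _ (LinearEquiv.ofBijective l hbij) ?_).symm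
  intro a x
  obtain ⟨r, rfl⟩ := Submodule.Quotient.mk_surjective _ x
  change l (cQ (cP n) J (a + e) (Submodule.Quotient.mk r)) = cQ (cP n) J (a + e) (Submodule.Quotient.mk (gz p z r))
  rw [h4, h4, hl, gz_cP]
  rfl

theorem tw_eq (hGa : S_Ga) (hGi : S_Gi) (hGu : S_Gu) {d : ℕ} {V : Type 1} [AddCommGroup V]
    (χ : GFun n (Set.range (sF n d)) V) (i : Fin 3) (ζ : ℂ) (hd : 1 ≤ d) (hζ : IsPrimitiveRoot ζ d) (A : Set (Po (Ix n)))
    (hA : ∀ r ∈ A, ∃ e : Dg, MvPolynomial.IsWeightedHomogeneous (dg (n := n)) r e)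
    (hI : ∀ r ∈ Set.range (sF n d), r ∈ Ideal.span A)
    (h1 : ∀ z : ℂ, z ^ d = 1 → ∀ r ∈ A, gz ((i, 1) : Ix n) z r = r) (e : Dg)
    (h0 : χ.cy (Ideal.span A) e = 0) :
    tw χ i d ζ (Po (Ix n) ⧸ Ideal.span A) (sh (cQ (cP n) (Ideal.span A)) e) = 0 := by
  unfold tw
  refine Finset.sum_eq_zero fun m _ => ?_
  have hζ0 : ζ ≠ 0 := hζ.ne_zero (by omega)
  have hz : (ζ ^ m) ^ d = 1 := by rw [← pow_mul, mul_comm, pow_mul, hζ.pow_eq_one, one_pow]
  rw [← h0]
  refine tw_iso hGa hGi hGu χ ((i, 1) : Ix n) (ζ ^ m) (pow_ne_zero _ hζ0) A hA hI ?_ ?_ e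
  · intro r hr
    rw [h1 _ hz r hr]
    exact Ideal.subset_span hr
  · intro r hr
    rw [h1 _ (by rw [inv_pow, hz, inv_one]) r hr]
    exact Ideal.subset_span hr

/-- one of the operators `D_i` -/
theorem step (hGa : S_Ga) (hGi : S_Gi) (hGu : S_Gu) (hGd : S_Gd) (hGc : S_Gc) {d : ℕ} {V : Type 1} [AddCommGroup V]
    [Module ℚ V] (χ : GFun n (Set.range (sF n d)) V) (i : Fin 3) (ζ : ℂ) (hd : 1 ≤ d) (hζ : IsPrimitiveRoot ζ d)
    (hZ : Zer d χ) : ∃ χ' : GFun n (Set.range (sF n d)) V, Zer d χ' ∧ KV χ' (i, 1) ∧ (∀ p : Ix n, KV χ p → KV χ' p) ∧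
      χ'.cy (Ideal.span (gA n d)) 0 = χ.cy (Ideal.span (gA n d)) 0 := by
  obtain ⟨χ', hf, hKV, hKR, hKV', -⟩ := hGd n d V χ i ζ hd hζ
  have hcy : ∀ (J : Ideal (Po (Ix n))) (e : Dg), χ'.cy J e = χ.cy J e -
      (1 / (d : ℚ)) • tw χ i d ζ (Po (Ix n) ⧸ J) (sh (cQ (cP n) J) e) := fun J e => hf _ _
  have hc := hGc n d V χ ζ hd hζ hZ i
  have hsub : ∀ k l : Fin 3, ∀ r ∈ Set.range (sF n d), r ∈ Ideal.span (gP n d k l) := fun k l r hr =>
    Ideal.subset_span (Or.inr hr)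
  refine ⟨χ', ⟨fun l => hKR l (hZ.1 l), fun e => ?_, fun k l hkl e => ?_⟩, hKV, hKV', ?_⟩
  · rw [hcy, hZ.2.1 e, tw_eq hGa hGi hGu χ i ζ hd hζ (Set.range (sF n d)) ?_ (fun r hr => Ideal.subset_span hr) ?_ e
      (hZ.2.1 e), smul_zero, sub_zero]
    · rintro r ⟨k, rfl⟩
      exact ⟨_, sF_hom d k⟩
    · rintro z hz r ⟨k, rfl⟩
      exact gz_sF i k hz
  · rw [hcy, hZ.2.2 k l hkl e]
    have htw : tw χ i d ζ (Po (Ix n) ⧸ Ideal.span (gP n d k l)) (sh (cQ (cP n) (Ideal.span (gP n d k l))) e) = 0 := by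
      by_cases hk : k = i
      · subst hk
        exact (hc e).2 l hkl
      · by_cases hl : l = i
        · subst hl
          rw [gP_comm]
          exact (hc e).2 k (Ne.symm hkl)
        · refine tw_eq hGa hGi hGu χ i ζ hd hζ (gP n d k l) ?_ (hsub k l) ?_ e (hZ.2.2 k l hkl e)
          · rintro r (⟨j, j', rfl⟩ | ⟨k', rfl⟩)
            · exact ⟨_, mn_hom k l j j'⟩
            · exact ⟨_, sF_hom d k'⟩
          · rintro z hz r (⟨j, j', rfl⟩ | ⟨k', rfl⟩)
            · exact gz_mn hk hl z j j'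
            · exact gz_sF i k' hz
    rw [htw, smul_zero, sub_zero]
  · rw [hcy, (hc 0).1, smul_zero, sub_zero]

end

end GD_aux

open GD_aux in
theorem tGD : S_Ga → S_Gb → S_Gi → S_Gu → S_Gw → S_Gd → S_Gc → S_GD := by
  intro hGa _ hGi hGu _ hGd hGc n d V _ _ χ ζ hd hζ hZ
  obtain ⟨χ1, hZ1, hK1, -, hc1⟩ := step hGa hGi hGu hGd hGc χ 0 ζ hd hζ hZ
  obtain ⟨χ2, hZ2, hK2, hp2, hc2⟩ := step hGa hGi hGu hGd hGc χ1 1 ζ hd hζ hZ1
  obtain ⟨χ3, -, hK3, hp3, hc3⟩ := step hGa hGi hGu hGd hGc χ2 2 ζ hd hζ hZ2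
  refine ⟨χ3, fun i => ?_, by rw [hc3, hc2, hc1]⟩
  fin_cases i
  · exact hp3 _ (hp2 _ hK1)
  · exact hp3 _ hK2
  · exact hK3

end Pool.Agent.FY
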