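import Pool.Agent.Lib.MP_b53bfe_ag.Spec3

/-!
# Theorem T2 (MP_b53bfe_ag): theorem T2 for additive functions
-/

set_option autoImplicit false

noncomputable section

namespace Pool.Agent.FY

open Polynomial

namespace GT_aux

theorem hX (n : ℕ) (i : Fin 3) (j : Fin (n + 3)) :
    MvPolynomial.IsWeightedHomogeneous (dg (n := n)) (xv n i j) (Pi.single i 1 : Dg) :=
  MvPolynomial.isWeightedHomogeneous_X ℂ (dg (n := n)) ((i, j) : Ix n)

theorem hsF (n d : ℕ) (i : Fin 3) :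
    MvPolynomial.IsWeightedHomogeneous (dg (n := n)) (sF n d i) (d • (Pi.single i 1 : Dg)) := by
  rw [sF, ← MvPolynomial.mem_weightedHomogeneousSubmodule]
  refine Submodule.sum_mem _ fun j _ => ?_
  rw [MvPolynomial.mem_weightedHomogeneousSubmodule]
  exact (hX n i j).pow d

theorem hmn (n : ℕ) (i i' : Fin 3) (j j' : Fin (n + 3)) :
    MvPolynomial.IsWeightedHomogeneous (dg (n := n)) (mn n i i' j j')
      ((Pi.single i 1 : Dg) + (Pi.single i' 1 : Dg)) := by
  rw [mn, ← MvPolynomial.mem_weightedHomogeneousSubmodule]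
  refine Submodule.sub_mem _ ?_ ?_
  · rw [MvPolynomial.mem_weightedHomogeneousSubmodule]
    exact (hX n i j).mul (hX n i' j')
  · rw [MvPolynomial.mem_weightedHomogeneousSubmodule]
    exact (hX n i j').mul (hX n i' j)

end GT_aux

theorem tGT : S_Ga → S_Gb → S_Gi → S_Gu → S_GD → S_Glb → S_Fx → S_T1 → S_GT := by
  intro _ _ _ _ hGD hGlb hFx hT1 n d V _ _ χ hd2 hd hZ
  have hd1 : 1 ≤ d := by omega
  obtain ⟨χ₀, hKV, h0⟩ := hGD n d V χ (Complex.exp (2 * Real.pi * Complex.I / d)) hd1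
    (Complex.isPrimitiveRoot_exp d (by omega)) hZ
  have hI : ∀ r ∈ Set.range (sF n d), ∃ a : Dg, MvPolynomial.IsWeightedHomogeneous (dg (n := n)) r a := by
    rintro _ ⟨i, rfl⟩
    exact ⟨_, GT_aux.hsF n d i⟩
  have hA : ∀ r ∈ gA n d, ∃ a : Dg, MvPolynomial.IsWeightedHomogeneous (dg (n := n)) r a := by
    rintro r (⟨i, i', j, j', rfl⟩ | hr)
    · exact ⟨_, GT_aux.hmn n i i' j j'⟩
    · exact hI r hr
  have hIA : ∀ r ∈ Set.range (sF n d), r ∈ Ideal.span (gA n d) := fun r hr =>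
    Ideal.subset_span (Or.inr hr)
  obtain ⟨χb, hb⟩ := hGlb n (Set.range (sF n d)) V χ₀ hKV hI
  obtain ⟨χs, hs⟩ := hFx n (Set.range (sF n d)) V χb
  rw [← h0, ← hb (gA n d) hA hIA, ← hs (gA n d) hA hIA]
  exact hT1 n d V χs hd2 hd

end Pool.Agent.FY
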