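import Pool.Agent.Lib.MP_b53bfe_ag.Spec3

/-!
# Ga: shifts, stable submodules, quotients of graded modules
-/

set_option autoImplicit false

noncomputable section

namespace Pool.Agent.FY

open Polynomial

namespace Ga_aux

theorem dg_swap {n : ℕ} (a e : Dg) (p : Ix n) : a + dg p + e = a + e + dg p := by
  abel

theorem isGr_sh {n : ℕ} {M : Type} [AddCommGroup M] [Module (Po (Ix n)) M] {c : Dg → M →+ M}
    (hc : IsGr n c) (e : Dg) : IsGr n (sh c e) where
  fin m := by
    have h : {a : Dg | sh c e a m ≠ 0} = (fun a : Dg => a + e) ⁻¹' {a : Dg | c a m ≠ 0} := rfl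
    rw [h]
    exact (hc.fin m).preimage (add_left_injective e).injOn
  sum m := by
    have h := finsum_comp_equiv (Equiv.addRight e) (f := fun a : Dg => c a m)
    rw [hc.sum m] at h
    exact h
  same a m := hc.same (a + e) m
  orth a b m hab := hc.orth (a + e) (b + e) m (fun h => hab (add_right_cancel h))
  cst z a m := hc.cst z (a + e) m
  var p a m := by
    change c (a + dg p + e) _ = _
    rw [dg_swap]
    exact hc.var p (a + e) m

section
variable {R M : Type} [CommRing R] [AddCommGroup M] [Module R M] {c : Dg → M →+ M}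
  {N : Submodule R M}

theorem cS_coe (h : Stb c N) (a : Dg) (x : N) : ((cS c N a x : N) : M) = c a (x : M) := by
  unfold cS
  rw [dif_pos h]
  rfl

theorem cQ_mk (h : Stb c N) (a : Dg) (m : M) :
    cQ c N a (Submodule.Quotient.mk m) = Submodule.Quotient.mk (c a m) := by
  have h1 : cQ c N a =
      (QuotientAddGroup.map N.toAddSubgroup N.toAddSubgroup (c a) (fun m hm => h a m hm) :
        (M ⧸ N) →+ (M ⧸ N)) := dif_pos h
  exact DFunLike.congr_fun h1 (Submodule.Quotient.mk m)

end

theorem isGr_cS {n : ℕ} {M : Type} [AddCommGroup M] [Module (Po (Ix n)) M] {c : Dg → M →+ M}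
    (hc : IsGr n c) {N : Submodule (Po (Ix n)) M} (hN : Stb c N) : IsGr n (cS c N) where
  fin m := by
    refine (hc.fin (m : M)).subset ?_
    intro a ha h0
    refine ha (Subtype.ext ?_)
    rw [cS_coe hN]
    exact h0
  sum m := by
    refine Subtype.ext ?_
    have hf : (Function.support fun a : Dg => cS c N a m).Finite := by
      refine (hc.fin (m : M)).subset ?_
      intro a ha h0
      refine ha (Subtype.ext ?_)
      rw [cS_coe hN]
      exact h0
    have h := AddMonoidHom.map_finsum (N.subtype.toAddMonoidHom) hf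
    refine h.trans ?_
    have h2 : (fun a : Dg => N.subtype.toAddMonoidHom (cS c N a m)) = fun a : Dg => c a (m : M) :=
      funext fun a => cS_coe hN a m
    rw [h2]
    exact hc.sum (m : M)
  same a m := Subtype.ext (by rw [cS_coe hN, cS_coe hN, hc.same])
  orth a b m hab := Subtype.ext (by
    rw [cS_coe hN, cS_coe hN, hc.orth a b _ hab]
    rfl)
  cst z a m := Subtype.ext (by
    rw [cS_coe hN, Submodule.coe_smul, hc.cst, Submodule.coe_smul, cS_coe hN])
  var p a m := Subtype.ext (by
    rw [cS_coe hN, Submodule.coe_smul, hc.var, Submodule.coe_smul, cS_coe hN])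

theorem isGr_cQ {n : ℕ} {M : Type} [AddCommGroup M] [Module (Po (Ix n)) M] {c : Dg → M →+ M}
    (hc : IsGr n c) {N : Submodule (Po (Ix n)) M} (hN : Stb c N) : IsGr n (cQ c N) where
  fin m := by
    obtain ⟨m, rfl⟩ := Submodule.Quotient.mk_surjective N m
    refine (hc.fin m).subset ?_
    intro a ha h0
    refine ha ?_
    rw [cQ_mk hN, h0]
    rfl
  sum m := by
    obtain ⟨m, rfl⟩ := Submodule.Quotient.mk_surjective N m
    have h := AddMonoidHom.map_finsum (N.mkQ.toAddMonoidHom) (f := fun a : Dg => c a m) (hc.fin m)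
    rw [hc.sum m] at h
    have h2 : (fun a : Dg => cQ c N a (Submodule.Quotient.mk m)) =
        fun a : Dg => N.mkQ.toAddMonoidHom (c a m) := funext fun a => cQ_mk hN a m
    rw [h2]
    exact h.symm
  same a m := by
    obtain ⟨m, rfl⟩ := Submodule.Quotient.mk_surjective N m
    rw [cQ_mk hN, cQ_mk hN, hc.same]
  orth a b m hab := by
    obtain ⟨m, rfl⟩ := Submodule.Quotient.mk_surjective N m
    rw [cQ_mk hN, cQ_mk hN, hc.orth a b m hab]
    rfl
  cst z a m := by
    obtain ⟨m, rfl⟩ := Submodule.Quotient.mk_surjective N m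
    rw [cQ_mk hN, ← Submodule.Quotient.mk_smul, cQ_mk hN, hc.cst, Submodule.Quotient.mk_smul]
  var p a m := by
    obtain ⟨m, rfl⟩ := Submodule.Quotient.mk_surjective N m
    rw [cQ_mk hN, ← Submodule.Quotient.mk_smul, cQ_mk hN, hc.var, Submodule.Quotient.mk_smul]

theorem stb_range {n : ℕ} {M : Type} [AddCommGroup M] [Module (Po (Ix n)) M] {c : Dg → M →+ M}
    (hc : IsGr n c) {r : Po (Ix n)} {e : Dg} (hr : Hg n r e) :
    Stb c (LinearMap.range (mg M r)) := by
  rintro a _ ⟨m, rfl⟩
  refine ⟨c (a - e) m, ?_⟩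
  have h := hr M c hc (a - e) m
  rw [sub_add_cancel] at h
  exact h.symm

theorem stb_ker {n : ℕ} {M : Type} [AddCommGroup M] [Module (Po (Ix n)) M] {c : Dg → M →+ M}
    (hc : IsGr n c) {r : Po (Ix n)} {e : Dg} (hr : Hg n r e) :
    Stb c (LinearMap.ker (mg M r)) := by
  intro a m hm
  have hm' : r • m = 0 := hm
  have h := hr M c hc a m
  rw [hm', map_zero] at h
  exact h.symm

end Ga_aux

/-- **Ga**. -/
theorem tGa : S_Ga := by
  intro n M _ _ c hc
  exact ⟨fun e => Ga_aux.isGr_sh hc e, fun N hN => ⟨Ga_aux.isGr_cS hc hN, Ga_aux.isGr_cQ hc hN,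
    fun a x => Ga_aux.cS_coe hN a x, fun a m => Ga_aux.cQ_mk hN a m⟩,
    fun r e hr => ⟨Ga_aux.stb_range hc hr, Ga_aux.stb_ker hc hr⟩⟩

end Pool.Agent.FY
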