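import Pool.Agent.Lib.MP_b53bfe_ag.Spec3

/-!
# Theorem T2, module Gb: twists and polynomial modules are graded
-/

set_option autoImplicit false

noncomputable section

namespace Pool.Agent.FY

open Polynomial

namespace Gb_aux

section

variable {R M : Type} [CommRing R] [AddCommGroup M] [Module R M]

theorem pm_ext {x y : PolynomialModule R M} (h : ∀ k, x.coeff k = y.coeff k) : x = y :=
  PolynomialModule.coeff_injective (Finsupp.ext h)

theorem coeff_cX (e : Dg) (c : Dg → M →+ M) (a : Dg) (u : PolynomialModule R M) (k : ℕ) :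
    (cX (R := R) e c a u).coeff k = c (a - k • e) (u.coeff k) := by
  show (Finsupp.liftAddHom (fun k : ℕ => (Finsupp.singleAddHom k).comp (c (a - k • e))) u.coeff) k
    = _
  rw [Finsupp.liftAddHom_apply, Finsupp.sum_apply, Finsupp.sum, Finset.sum_eq_single k]
  · show (Finsupp.single k (c (a - k • e) (u.coeff k))) k = _
    rw [Finsupp.single_eq_same]
  · intro j _ hj
    show (Finsupp.single j (c (a - j • e) (u.coeff j))) k = 0
    rw [Finsupp.single_apply, if_neg hj]
  · intro hk
    rw [Finsupp.notMem_support_iff.1 hk, map_zero, Finsupp.zero_apply]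

theorem coeff_C_smul (r : R) (u : PolynomialModule R M) (k : ℕ) :
    ((C r : R[X]) • u).coeff k = r • u.coeff k := by
  rw [← monomial_zero_left, PolynomialModule.monomial_smul_apply, if_pos (Nat.zero_le k),
    Nat.sub_zero]

theorem coeff_X_pow_smul (d : ℕ) (u : PolynomialModule R M) (k : ℕ) :
    ((X ^ d : R[X]) • u).coeff k = if d ≤ k then u.coeff (k - d) else 0 := by
  rw [X_pow_eq_monomial, PolynomialModule.monomial_smul_apply, one_smul]

theorem cQ_mk (c : Dg → M →+ M) (N : Submodule R M) (h : Stb c N) (a : Dg) (m : M) :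
    cQ c N a (Submodule.Quotient.mk m) = Submodule.Quotient.mk (c a m) := by
  have h1 : cQ c N a = QuotientAddGroup.map N.toAddSubgroup N.toAddSubgroup (c a)
      (fun m hm => h a m hm) := dif_pos h
  rw [h1]
  rfl

theorem coeff_hom_apply (k : ℕ) :
    ∃ f : PolynomialModule R M →+ M, ∀ u, f u = u.coeff k :=
  ⟨{ toFun := fun u => u.coeff k, map_zero' := rfl, map_add' := fun _ _ => rfl }, fun _ => rfl⟩

end

section

variable {n : ℕ} {M N : Type} [AddCommGroup M] [Module (Po (Ix n)) M] [AddCommGroup N]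
  [Module (Po (Ix n)) N]

/-- a homogeneous image of a graded module -/
theorem isGr_image {c : Dg → M →+ M} {c' : Dg → N →+ N} (hc : IsGr n c) (π : M →ₗ[Po (Ix n)] N)
    (hπ : Function.Surjective π) (h : ∀ a m, c' a (π m) = π (c a m)) : IsGr n c' where
  fin x := by
    obtain ⟨m, rfl⟩ := hπ x
    refine (hc.fin m).subset fun a ha h0 => ha ?_
    rw [h, h0, map_zero]
  sum x := by
    obtain ⟨m, rfl⟩ := hπ x
    have h1 := (π.toAddMonoidHom).map_finsum (f := fun a => c a m) (hc.fin m)
    rw [hc.sum m] at h1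
    refine Eq.trans ?_ h1.symm
    exact finsum_congr fun a => h a m
  same a x := by
    obtain ⟨m, rfl⟩ := hπ x
    rw [h, h, hc.same]
  orth a b x hab := by
    obtain ⟨m, rfl⟩ := hπ x
    rw [h, h, hc.orth a b m hab, map_zero]
  cst z a x := by
    obtain ⟨m, rfl⟩ := hπ x
    rw [← map_smul, h, h, hc.cst, map_smul]
  var p a x := by
    obtain ⟨m, rfl⟩ := hπ x
    rw [← map_smul, h, h, hc.var, map_smul]

end

theorem nu_X {n : ℕ} (p q : Ix n) : nu p (MvPolynomial.X q : Po (Ix n)) =
    if q = p then (X : (Po (Ix n))[X]) else C (MvPolynomial.X q) := by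
  show MvPolynomial.aeval _ (MvPolynomial.X q) = _
  rw [MvPolynomial.aeval_X]

theorem nu_C {n : ℕ} (p : Ix n) (z : ℂ) : nu p (MvPolynomial.C z : Po (Ix n)) =
    C (MvPolynomial.C z) := by
  show MvPolynomial.aeval _ (MvPolynomial.C z) = _
  rw [MvPolynomial.algHom_C]
  rfl

theorem gz_X {n : ℕ} (p q : Ix n) (z : ℂ) : gz p z (MvPolynomial.X q : Po (Ix n)) =
    if q = p then MvPolynomial.C z * MvPolynomial.X q else MvPolynomial.X q := by
  show MvPolynomial.aeval _ (MvPolynomial.X q) = _
  rw [MvPolynomial.aeval_X]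

theorem gz_C {n : ℕ} (p : Ix n) (z w : ℂ) : gz p z (MvPolynomial.C w : Po (Ix n)) =
    MvPolynomial.C w := by
  show MvPolynomial.aeval _ (MvPolynomial.C w) = _
  rw [MvPolynomial.algHom_C]
  rfl

theorem isGr_res {n : ℕ} {T : Type} [CommRing T] {M : Type} [AddCommGroup M] [Module T M]
    (φ : Po (Ix n) →+* T) (c : Dg → M →+ M)
    (fin : ∀ m : M, {a : Dg | c a m ≠ 0}.Finite) (sum : ∀ m : M, ∑ᶠ a : Dg, c a m = m)
    (same : ∀ (a : Dg) (m : M), c a (c a m) = c a m)
    (orth : ∀ (a b : Dg) (m : M), a ≠ b → c a (c b m) = 0)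
    (cst : ∀ (z : ℂ) (a : Dg) (m : M),
      c a (φ (MvPolynomial.C z) • m) = φ (MvPolynomial.C z) • c a m)
    (var : ∀ (p : Ix n) (a : Dg) (m : M),
      c (a + dg p) (φ (MvPolynomial.X p) • m) = φ (MvPolynomial.X p) • c a m) :
    IsGr n (M := Res φ M) (cR φ c) where
  fin := fin
  sum := sum
  same := same
  orth := orth
  cst := cst
  var := var

section

variable {n : ℕ} {M : Type} [AddCommGroup M] [Module (Po (Ix n)) M] {c : Dg → M →+ M}

theorem isGr_twist (hc : IsGr n c) (p : Ix n) (z : ℂ) : IsGr n (cR (gz p z) c) := by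
  refine isGr_res _ _ hc.fin hc.sum hc.same hc.orth (fun w a m => ?_) (fun q a m => ?_)
  · rw [gz_C]
    exact hc.cst w a m
  · rw [gz_X]
    split_ifs
    · rw [mul_smul, mul_smul]
      have h1 := hc.cst z (a + dg q) ((MvPolynomial.X q : Po (Ix n)) • m)
      rw [hc.var] at h1
      exact h1
    · exact hc.var q a m

theorem cX_fin (hc : IsGr n c) (e : Dg) (u : PolynomialModule (Po (Ix n)) M) :
    {a : Dg | cX (R := Po (Ix n)) e c a u ≠ 0}.Finite := by
  have h1 : {a : Dg | cX (R := Po (Ix n)) e c a u ≠ 0} ⊆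
      ⋃ k ∈ u.coeff.support, (fun a : Dg => a - k • e) ⁻¹' {b | c b (u.coeff k) ≠ 0} := by
    intro a ha
    by_contra hn
    simp only [Set.mem_iUnion, not_exists] at hn
    refine ha (pm_ext fun k => ?_)
    rw [coeff_cX]
    show _ = 0
    by_cases hk : k ∈ u.coeff.support
    · have := hn k hk
      by_contra h0
      exact this h0
    · rw [Finsupp.notMem_support_iff.1 hk, map_zero]
  refine Set.Finite.subset (Set.Finite.biUnion (Finset.finite_toSet _) fun k _ => ?_) h1
  exact (hc.fin _).preimage (fun a _ b _ h => by simpa using h)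

theorem cX_sum (hc : IsGr n c) (e : Dg) (u : PolynomialModule (Po (Ix n)) M) :
    ∑ᶠ a : Dg, cX (R := Po (Ix n)) e c a u = u := by
  refine pm_ext (R := Po (Ix n)) fun k => ?_
  obtain ⟨f, hf⟩ := coeff_hom_apply (R := Po (Ix n)) (M := M) k
  have h1 := f.map_finsum (f := fun a => cX (R := Po (Ix n)) e c a u) (cX_fin hc e u)
  rw [← hf, h1]
  have h2 : ∀ a : Dg, f (cX (R := Po (Ix n)) e c a u) = c (a - k • e) (u.coeff k) := fun a => by
    rw [hf, coeff_cX]
  rw [finsum_congr h2]
  have h3 := finsum_comp_equiv (Equiv.subRight (k • e)) (f := fun b : Dg => c b (u.coeff k))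
  rw [hc.sum] at h3
  exact h3

theorem isGr_cE (hc : IsGr n c) (p : Ix n) : IsGr n (cE p c) := by
  refine isGr_res _ _ (cX_fin hc _) (cX_sum hc _) (fun a u => ?_) (fun a b u h => ?_)
    (fun z a u => ?_) (fun q a u => ?_)
  · refine pm_ext fun k => ?_
    rw [coeff_cX, coeff_cX, hc.same]
  · refine pm_ext fun k => ?_
    rw [coeff_cX, coeff_cX]
    exact hc.orth _ _ _ (fun h2 => h (sub_left_injective h2))
  · refine pm_ext fun k => ?_
    rw [nu_C, coeff_cX, coeff_C_smul, coeff_C_smul, coeff_cX, hc.cst]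
  · refine pm_ext fun k => ?_
    rw [nu_X, coeff_cX]
    split_ifs with h
    · subst h
      have h3 : ∀ w : PolynomialModule (Po (Ix n)) M, ((X : (Po (Ix n))[X]) • w).coeff k =
          if 1 ≤ k then w.coeff (k - 1) else 0 := fun w => by
        rw [← pow_one (X : (Po (Ix n))[X]), coeff_X_pow_smul]
      rw [h3, h3]
      split_ifs with h2
      · rw [coeff_cX]
        congr 1
        obtain ⟨j, rfl⟩ := Nat.exists_eq_add_of_le h2
        rw [Nat.add_sub_cancel_left, add_smul, one_smul]
        congr 1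
        abel
      · rw [map_zero]
    · rw [coeff_C_smul, coeff_C_smul, coeff_cX]
      have h1 := hc.var q (a - k • dg p) (u.coeff k)
      rw [← h1]
      have h2 : a + dg q - k • dg p = a - k • dg p + dg q := by abel
      rw [h2]

theorem stb_cX (hc : IsGr n c) (p : Ix n) (d : ℕ) (g : Po (Ix n)) (hg : Hg n g (d • dg p)) :
    Stb (R := (Po (Ix n))[X]) (cX (R := Po (Ix n)) (dg p) c)
      (LinearMap.range (mg (PolynomialModule (Po (Ix n)) M) (X ^ d + C g : (Po (Ix n))[X]))) := by
  rintro a _ ⟨u, rfl⟩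
  refine ⟨cX (R := Po (Ix n)) (dg p) c (a - d • dg p) u, pm_ext fun k => ?_⟩
  have hadd : ∀ x y : PolynomialModule (Po (Ix n)) M, (x + y).coeff k = x.coeff k + y.coeff k :=
    fun x y => rfl
  rw [mg_apply, mg_apply, coeff_cX, add_smul, add_smul, hadd, hadd, coeff_X_pow_smul,
    coeff_X_pow_smul, coeff_C_smul, coeff_C_smul, map_add]
  simp only [coeff_cX]
  congr 1
  · split_ifs with h2
    · obtain ⟨j, rfl⟩ := Nat.exists_eq_add_of_le h2
      rw [Nat.add_sub_cancel_left, add_smul]
      have h3 : a - d • dg p - j • dg p = a - (d • dg p + j • dg p) := by abel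
      rw [h3]
    · rw [map_zero]
  · have h1 := hg M c hc (a - d • dg p - k • dg p) (u.coeff k)
    have h3 : a - d • dg p - k • dg p + d • dg p = a - k • dg p := by abel
    rw [h3] at h1
    exact h1.symm

theorem cT_mk (hc : IsGr n c) (p : Ix n) (d : ℕ) (g : Po (Ix n)) (hg : Hg n g (d • dg p))
    (a : Dg) (u : PolynomialModule (Po (Ix n)) M) :
    cT p d g c a (Res.mk (nu p) (Submodule.Quotient.mk u)) =
      Res.mk (nu p) (Submodule.Quotient.mk (cX (R := Po (Ix n)) (dg p) c a u)) := by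
  have h := stb_cX hc p d g hg
  exact cQ_mk _ _ h a u

theorem isGr_cT (hc : IsGr n c) (p : Ix n) (d : ℕ) (g : Po (Ix n)) (hg : Hg n g (d • dg p)) :
    IsGr n (cT p d g c) := by
  refine isGr_image (M := Ex p M) (N := Th p d g M) (isGr_cE hc p)
    (Res.map (nu p) (Submodule.mkQ _)) ?_ ?_
  · intro x
    obtain ⟨u, hu⟩ := Submodule.mkQ_surjective _ (x.val)
    exact ⟨Res.mk _ u, hu⟩
  · intro a u
    exact cT_mk hc p d g hg a u

end

end Gb_aux

open Gb_aux in
theorem tGb : S_Ga → S_Gb := by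
  intro _ n M _ _ c hc
  exact ⟨fun p z => isGr_twist hc p z, fun p => isGr_cE hc p,
    fun p d g hg => ⟨isGr_cT hc p d g hg, fun a u => cT_mk hc p d g hg a u⟩⟩

end Pool.Agent.FY
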