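import Pool.Agent.Lib.MP_b53bfe_ag.Spec3

/-!
# Theorem T2 (MP_b53bfe_ag): Bezout for difference operators
-/

set_option autoImplicit false

noncomputable section

namespace Pool.Agent.FY

open Polynomial

namespace Gbz_aux

open fwdDiff

theorem iter_zero {V : Type 1} [AddCommGroup V] [Module ℚ V] {d : ℕ} (hd : 1 ≤ d) :
    ∀ (N : ℕ) (F : ℤ → V), ((fwdDiff (-1 : ℤ))^[N] F = 0) → (∀ b : ℤ, ∑ m ∈ Finset.range d, F (b - m) = 0) →
      ∀ b : ℤ, F b = 0 := by
  intro N
  induction N with
  | zero =>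
    intro F h _ b
    exact congrFun h b
  | succ N ih =>
    intro F h hs
    have h1 : ∀ b : ℤ, (fwdDiff (-1 : ℤ) F) b = 0 := by
      refine ih (fwdDiff (-1 : ℤ) F) ?_ ?_
      · rw [Function.iterate_succ_apply] at h
        exact h
      · intro b
        have e : ∀ m : ℕ, (fwdDiff (-1 : ℤ) F) (b - m) = F (b - 1 - m) - F (b - m) := by
          intro m
          rw [fwdDiff]
          congr 2
          ring
        rw [Finset.sum_congr rfl (fun m _ => e m), Finset.sum_sub_distrib, hs, hs, sub_zero]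
    have h2 : ∀ b : ℤ, F (b - 1) = F b := by
      intro b
      have := h1 b
      rw [fwdDiff, sub_eq_zero] at this
      rw [← this]
      congr 1
    have h3 : ∀ (m : ℕ) (b : ℤ), F (b - m) = F b := by
      intro m
      induction m with
      | zero => intro b; simp
      | succ m ihm =>
        intro b
        have : b - ((m + 1 : ℕ) : ℤ) = (b - m) - 1 := by push_cast; ring
        rw [this, h2, ihm]
    intro b
    have h4 := hs b
    rw [Finset.sum_congr rfl (fun m _ => h3 m b), Finset.sum_const, Finset.card_range] at h4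
    have h5 : ((d : ℚ)) • F b = 0 := by
      rw [Nat.cast_smul_eq_nsmul]; exact h4
    have hd0 : (d : ℚ) ≠ 0 := by
      have : d ≠ 0 := by omega
      exact_mod_cast this
    exact (smul_eq_zero.1 h5).resolve_left hd0

end Gbz_aux

open fwdDiff in
theorem tGbz : S_Gbz := by
  intro V _ _ F N d hd h1 h2
  refine Gbz_aux.iter_zero hd N F ?_ h2
  funext y
  rw [fwdDiff_iter_eq_sum_shift]
  have e : ∀ k ∈ Finset.range (N + 1), ((-1 : ℤ) ^ (N - k) * (N.choose k : ℤ)) • F (y + k • (-1 : ℤ)) =
      ((-1 : ℤ) ^ N) • (((-1) ^ k * (N.choose k : ℤ)) • F (y - k)) := by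
    intro k hk
    have hk' : k ≤ N := Nat.lt_succ_iff.1 (Finset.mem_range.1 hk)
    have e1 : ((-1 : ℤ)) ^ (N - k) = (-1) ^ N * (-1) ^ k := by
      have : ((-1 : ℤ)) ^ N = (-1) ^ (N - k) * (-1) ^ k := by rw [← pow_add, Nat.sub_add_cancel hk']
      rw [this, mul_assoc, ← mul_pow]
      simp
    have e2 : y + k • (-1 : ℤ) = y - k := by simp; ring
    rw [e1, e2, smul_smul, mul_assoc]
  rw [Finset.sum_congr rfl e, ← Finset.smul_sum, h1, smul_zero]
  rfl

end Pool.Agent.FY
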