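import Pool.Agent.Lib.MP_b53bfe_ag.Spec3
import Pool.Agent.Lib.MP_b53bfe_ag.Bas

/-!
# Theorem T2 (MP_b53bfe_ag), module Gc: the claims `tw = 0` (helper61)

The sections `poly`, `gen`, `ex` and the first half of `rows` are copied from module Aa (theorem T1).
-/

set_option autoImplicit false

noncomputable section

namespace Pool.Agent.FY

open Polynomial

namespace Gc_aux

section poly

variable {σ : Type} [DecidableEq σ]

theorem NI_add {i : σ} {r s : Po σ} (hr : NI i r) (hs : NI i s) : NI i (r + s) := by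
  unfold NI at *
  rw [map_add, hr, hs, Polynomial.C_add]

theorem NI_mul {i : σ} {r s : Po σ} (hr : NI i r) (hs : NI i s) : NI i (r * s) := by
  unfold NI at *
  rw [map_mul, hr, hs, Polynomial.C_mul]

theorem NI_zero (i : σ) : NI i (0 : Po σ) := by
  unfold NI
  rw [map_zero, Polynomial.C_0]

theorem NI_C (i : σ) (a : ℂ) : NI i (MvPolynomial.C a) := by
  unfold NI nu
  simp only [AlgHom.toRingHom_eq_coe, RingHom.coe_coe, MvPolynomial.algHom_C]
  rfl

theorem NI_X {i j : σ} (h : j ≠ i) : NI i (MvPolynomial.X j) := by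
  unfold NI nu
  simp [h]

theorem NI_pow {i : σ} {r : Po σ} (hr : NI i r) (d : ℕ) : NI i (r ^ d) := by
  unfold NI at *
  rw [map_pow, hr, Polynomial.C_pow]

theorem NI_sum {i : σ} {ι : Type} (s : Finset ι) (r : ι → Po σ) (h : ∀ a ∈ s, NI i (r a)) :
    NI i (∑ a ∈ s, r a) := by
  unfold NI at *
  rw [map_sum, map_sum]
  exact Finset.sum_congr rfl h

theorem nu_X_self (i : σ) : nu i (MvPolynomial.X i) = X := by
  unfold nu
  simp

theorem gz_C (i : σ) (z a : ℂ) : gz i z (MvPolynomial.C a) = MvPolynomial.C a := by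
  simp [gz]

theorem gz_X_self (i : σ) (z : ℂ) : gz i z (MvPolynomial.X i) = MvPolynomial.C z * MvPolynomial.X i := by
  simp [gz]

theorem gz_X_ne {i j : σ} (h : j ≠ i) (z : ℂ) : gz i z (MvPolynomial.X j) = MvPolynomial.X j := by
  simp [gz, h]

theorem gz_of_NI {i : σ} {r : Po σ} (h : NI i r) (z : ℂ) : gz i z r = r := by
  have key : (Polynomial.evalRingHom (MvPolynomial.C z * MvPolynomial.X i : Po σ)).comp (nu i) = gz i z := by
    refine MvPolynomial.ringHom_ext ?_ ?_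
    · intro c
      rw [RingHom.comp_apply, show nu i (MvPolynomial.C c) = C (MvPolynomial.C c) from NI_C i c, gz_C,
        Polynomial.coe_evalRingHom, Polynomial.eval_C]
    · intro j
      rw [RingHom.comp_apply]
      by_cases hj : j = i
      · subst hj
        rw [nu_X_self, gz_X_self, Polynomial.coe_evalRingHom, Polynomial.eval_X]
      · rw [show nu i (MvPolynomial.X j) = C (MvPolynomial.X j) from NI_X hj, gz_X_ne hj,
          Polynomial.coe_evalRingHom, Polynomial.eval_C]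
  have h1 := RingHom.congr_fun key r
  have h2 : nu i r = C r := h
  rw [RingHom.comp_apply, h2, Polynomial.coe_evalRingHom, Polynomial.eval_C] at h1
  exact h1.symm

theorem dec (i : σ) (r : Po σ) : ∃ r' t : Po σ, NI i r' ∧ r = r' + t * MvPolynomial.X i := by
  induction r using MvPolynomial.induction_on with
  | C a => exact ⟨MvPolynomial.C a, 0, NI_C i a, by ring⟩
  | add p q hp hq =>
    obtain ⟨p', s, hp', hp⟩ := hp
    obtain ⟨q', t, hq', hq⟩ := hq
    exact ⟨p' + q', s + t, NI_add hp' hq', by rw [hp, hq]; ring⟩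
  | mul_X p j hp =>
    obtain ⟨p', s, hp', hp⟩ := hp
    by_cases h : j = i
    · subst h
      exact ⟨0, p, NI_zero j, by ring⟩
    · exact ⟨p' * MvPolynomial.X j, s * MvPolynomial.X j, NI_mul hp' (NI_X h), by rw [hp]; ring⟩

/-- the module on which `X_i` acts by `0` is finite -/
theorem fin0 (i : σ) {d : ℕ} (hd : 1 ≤ d) {g : Po σ} (hg : NI i g) (M : Type) [AddCommGroup M]
    [Module (Po σ) M] (hM : Module.Finite (Po σ) M)
    (hk : ∀ m : M, (MvPolynomial.X i ^ d + g : Po σ) • m = 0) : Module.Finite (Po σ) (Res (gz i 0) M) := by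
  classical
  obtain ⟨s, hs⟩ := hM.fg_top
  let T : Set M := ⋃ k ∈ Finset.range d, (fun y : M => (MvPolynomial.X i ^ k : Po σ) • y) '' (s : Set M)
  have hT : T.Finite := Set.Finite.biUnion (Finset.finite_toSet _) fun k _ => s.finite_toSet.image _
  let S : Submodule (Po σ) (Res (gz i 0) M) := Submodule.span (Po σ) ((fun y : M => Res.mk (gz i 0) y) '' T)
  have hbase : ∀ k < d, ∀ y ∈ (s : Set M), Res.mk (gz i 0) ((MvPolynomial.X i ^ k : Po σ) • y) ∈ S := by
    intro k hk' y hy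
    refine Submodule.subset_span ⟨_, ?_, rfl⟩
    exact Set.mem_biUnion (Finset.mem_coe.2 (Finset.mem_range.2 hk')) ⟨y, hy, rfl⟩
  have hNI : ∀ r : Po σ, NI i r → ∀ y : M, Res.mk (gz i 0) y ∈ S → Res.mk (gz i 0) (r • y) ∈ S := by
    intro r hr y hy
    have h1 := S.smul_mem r hy
    rw [Res.smul_mk, gz_of_NI hr] at h1
    exact h1
  have hX : ∀ y : M, Res.mk (gz i 0) y ∈ S → Res.mk (gz i 0) ((MvPolynomial.X i : Po σ) • y) ∈ S := by
    intro y hy
    have key : ∀ w : Res (gz i 0) M, w ∈ S → Res.mk (gz i 0) ((MvPolynomial.X i : Po σ) • w.val) ∈ S := by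
      intro w hw
      induction hw using Submodule.span_induction with
      | mem w hw =>
        obtain ⟨t, ht, rfl⟩ := hw
        obtain ⟨k, hk', y, hy, rfl⟩ := Set.mem_iUnion₂.1 ht
        have hk'' : k < d := Finset.mem_range.1 (Finset.mem_coe.1 hk')
        show Res.mk (gz i 0) ((MvPolynomial.X i : Po σ) • ((MvPolynomial.X i ^ k : Po σ) • y)) ∈ S
        rw [← mul_smul, ← pow_succ']
        by_cases hkd : k + 1 < d
        · exact hbase _ hkd y hy
        · have e : k + 1 = d := by omega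
          rw [e]
          have h1 := hk y
          rw [add_smul] at h1
          rw [eq_neg_of_add_eq_zero_left h1]
          have h2 := hNI g hg y (by
            have h3 := hbase 0 (by omega) y hy
            rw [pow_zero, one_smul] at h3
            exact h3)
          exact S.neg_mem h2
      | zero =>
        show Res.mk (gz i 0) ((MvPolynomial.X i : Po σ) • (0 : M)) ∈ S
        rw [smul_zero]
        exact S.zero_mem
      | add a b _ _ ha hb =>
        show Res.mk (gz i 0) ((MvPolynomial.X i : Po σ) • (a.val + b.val)) ∈ S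
        rw [smul_add]
        exact S.add_mem ha hb
      | smul r a _ ha =>
        show Res.mk (gz i 0) ((MvPolynomial.X i : Po σ) • (gz i 0 r • a.val)) ∈ S
        rw [smul_comm]
        exact S.smul_mem r ha
    exact key _ hy
  have hall : ∀ r : Po σ, ∀ y : M, Res.mk (gz i 0) y ∈ S → Res.mk (gz i 0) (r • y) ∈ S := by
    intro r
    induction r using MvPolynomial.induction_on with
    | C a => exact hNI _ (NI_C i a)
    | add p q hp hq =>
      intro y hy
      rw [add_smul]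
      exact S.add_mem (hp y hy) (hq y hy)
    | mul_X p j hp =>
      intro y hy
      rw [mul_smul]
      refine hp _ ?_
      by_cases hj : j = i
      · subst hj
        exact hX y hy
      · exact hNI _ (NI_X hj) y hy
  have htop : ∀ y : M, Res.mk (gz i 0) y ∈ S := by
    intro y
    have h1 : y ∈ Submodule.span (Po σ) (s : Set M) := hs ▸ Submodule.mem_top
    induction h1 using Submodule.span_induction with
    | mem y hy =>
      have h3 := hbase 0 (by omega) y hy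
      rw [pow_zero, one_smul] at h3
      exact h3
    | zero => exact S.zero_mem
    | add a b _ _ ha hb => exact S.add_mem ha hb
    | smul r a _ ha => exact hall r a ha
  refine ⟨(Submodule.fg_def).2 ⟨(fun y : M => Res.mk (gz i 0) y) '' T, hT.image _, ?_⟩⟩
  rw [eq_top_iff]
  intro x _
  exact htop x.val

end poly

section gen

variable {R : Type} [CommRing R] {A B C : Type} [AddCommGroup A] [Module R A] [AddCommGroup B]
  [Module R B] [AddCommGroup C] [Module R C]

/-- the map on polynomial modules -/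
def pm (l : A →ₗ[R] B) : PolynomialModule R A →ₗ[R[X]] PolynomialModule R B where
  toFun q := PolynomialModule.map R l q
  map_add' := map_add _
  map_smul' p q := by
    rw [PolynomialModule.map_smul, Algebra.algebraMap_self, Polynomial.map_id, RingHom.id_apply]

theorem pm_coeff (l : A →ₗ[R] B) (q : PolynomialModule R A) (k : ℕ) :
    (pm l q).coeff k = l (q.coeff k) := rfl

theorem pm_ext {x y : PolynomialModule R A} (h : ∀ k, x.coeff k = y.coeff k) : x = y :=
  PolynomialModule.coeff_injective (Finsupp.ext h)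

theorem pm_inj {l : A →ₗ[R] B} (h : Function.Injective l) : Function.Injective (pm l) := by
  intro x y hxy
  refine pm_ext fun k => h ?_
  rw [← pm_coeff, ← pm_coeff, hxy]

theorem pm_lift {l : A →ₗ[R] B} (y : PolynomialModule R B) (h : ∀ k, ∃ a, l a = y.coeff k) :
    ∃ x, pm l x = y := by
  choose s hs using h
  classical
  refine ⟨PolynomialModule.ofCoeff R (Finsupp.onFinset y.coeff.support
    (fun k => if y.coeff k = 0 then 0 else s k) ?_), pm_ext fun k => ?_⟩
  · intro k hk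
    rw [Finsupp.mem_support_iff]
    intro h0
    exact hk (if_pos h0)
  · rw [pm_coeff, PolynomialModule.coeff_ofCoeff, Finsupp.onFinset_apply]
    by_cases h0 : y.coeff k = 0
    · rw [if_pos h0, map_zero, h0]
    · rw [if_neg h0, hs]

theorem pm_surj {l : A →ₗ[R] B} (h : Function.Surjective l) : Function.Surjective (pm l) :=
  fun y => pm_lift y fun _ => h _

theorem pm_exact {u : A →ₗ[R] B} {v : B →ₗ[R] C} (h : Function.Exact u v) :
    Function.Exact (pm u) (pm v) := by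
  intro y
  constructor
  · intro hy
    refine pm_lift y fun k => ?_
    refine (h _).1 ?_
    rw [← pm_coeff, hy]
    rfl
  · rintro ⟨x, rfl⟩
    refine pm_ext fun k => ?_
    rw [pm_coeff, pm_coeff]
    exact (h _).2 ⟨_, rfl⟩

end gen

section ex

variable {σ : Type} [DecidableEq σ]

theorem ex_kil {i : σ} {I : Set (Po σ)} (hI : ∀ r ∈ I, NI i r) (P : Type) [AddCommGroup P]
    [Module (Po σ) P] (hk : Kil I P) : Kil I (Ex i P) := by
  intro r hr m
  have h2 : nu i r = C r := hI r hr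
  have h3 : r • m = Res.mk (nu i) ((C r : (Po σ)[X]) • m.val) := by rw [← h2]; rfl
  rw [h3]
  refine pm_ext fun k => ?_
  have := PolynomialModule.monomial_smul_apply 0 r m.val k
  rw [if_pos (Nat.zero_le k), hk r hr] at this
  exact this

theorem ex_finite (i : σ) (P : Type) [AddCommGroup P] [Module (Po σ) P]
    (hP : ∀ p : P, (MvPolynomial.X i : Po σ) • p = 0) (hfin : Module.Finite (Po σ) P) :
    Module.Finite (Po σ) (Ex i P) := by
  obtain ⟨s, hs⟩ := hfin.fg_top
  let S : Submodule (Po σ) (Ex i P) :=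
    Submodule.span (Po σ) ((fun y : P => Res.mk (nu i) (PolynomialModule.single (Po σ) 0 y)) '' (s : Set P))
  have key0 : ∀ x : P, x ∈ Submodule.span (Po σ) (s : Set P) →
      Res.mk (nu i) (PolynomialModule.single (Po σ) 0 x) ∈ S := by
    intro x hx
    induction hx using Submodule.span_induction with
    | mem y hy => exact Submodule.subset_span ⟨y, hy, rfl⟩
    | zero => rw [PolynomialModule.single_zero]; exact Submodule.zero_mem _
    | add y z _ _ hy hz => rw [PolynomialModule.single_add]; exact Submodule.add_mem _ hy hz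
    | smul r y _ hy =>
      obtain ⟨r', t, hr', hr⟩ := dec i r
      have e1 : r • y = r' • y := by
        rw [hr, add_smul, mul_smul, hP, smul_zero, add_zero]
      have h1 := S.smul_mem r' hy
      rw [Res.smul_mk, show nu i r' = C r' from hr', ← Polynomial.monomial_zero_left,
        PolynomialModule.monomial_smul_single, zero_add, ← e1] at h1
      exact h1
  have key1 : ∀ (n : ℕ) (x : P), Res.mk (nu i) (PolynomialModule.single (Po σ) n x) ∈ S := by
    intro n x
    have h0 := key0 x (hs ▸ Submodule.mem_top)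
    have h1 := Submodule.smul_mem S ((MvPolynomial.X i : Po σ) ^ n) h0
    have h2 : (MvPolynomial.X i : Po σ) ^ n • Res.mk (nu i) (PolynomialModule.single (Po σ) 0 x)
        = Res.mk (nu i) (PolynomialModule.single (Po σ) n x) := by
      rw [Res.smul_mk, map_pow, nu_X_self, ← Polynomial.monomial_one_right_eq_X_pow,
        PolynomialModule.monomial_smul_single, one_smul, add_zero]
    rw [h2] at h1
    exact h1
  have key2 : ∀ x : PolynomialModule (Po σ) P, Res.mk (nu i) x ∈ S := by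
    intro x
    induction x using PolynomialModule.induction_linear with
    | zero => exact Submodule.zero_mem _
    | add f g hf hg => exact Submodule.add_mem _ hf hg
    | single n m => exact key1 n m
  refine ⟨(Submodule.fg_def).2
    ⟨(fun y : P => Res.mk (nu i) (PolynomialModule.single (Po σ) 0 y)) '' (s : Set P),
      s.finite_toSet.image _, ?_⟩⟩
  rw [eq_top_iff]
  intro x _
  exact key2 x.val

theorem th_mk_zero (i : σ) (d : ℕ) (g : Po σ) (B : Type) [AddCommGroup B] [Module (Po σ) B]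
    (r : Po σ) (h : ∀ q : PolynomialModule (Po σ) B,
      ∃ q', nu i r • q = (X ^ d + C g : (Po σ)[X]) • q') (m : Th i d g B) : r • m = 0 := by
  obtain ⟨q, hq⟩ := Submodule.Quotient.mk_surjective _ m.val
  have h1 : r • m = Res.mk (nu i) (Submodule.Quotient.mk ((nu i r) • q)) := by
    rw [Submodule.Quotient.mk_smul, hq]
    rfl
  rw [h1]
  obtain ⟨q', hq'⟩ := h q
  refine (Submodule.Quotient.mk_eq_zero _).2 ?_
  exact ⟨q', hq'.symm⟩

theorem th_kil {i : σ} {I₀ : Set (Po σ)} (hI : ∀ r ∈ I₀, NI i r) (d : ℕ) {g : Po σ}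
    (hg : NI i g) (B : Type) [AddCommGroup B] [Module (Po σ) B] (hk : Kil I₀ B) :
    Kil (insert (MvPolynomial.X i ^ d + g) I₀) (Th i d g B) := by
  rw [Kil.insert]
  constructor
  · intro m
    refine th_mk_zero i d g B _ (fun q => ⟨q, ?_⟩) m
    rw [map_add, map_pow, nu_X_self, show nu i g = C g from hg]
  · intro r hr m
    refine th_mk_zero i d g B _ (fun q => ⟨0, ?_⟩) m
    rw [smul_zero, show nu i r = C r from hI r hr]
    refine pm_ext fun k => ?_
    have := PolynomialModule.monomial_smul_apply 0 r q k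
    rw [if_pos (Nat.zero_le k), hk r hr] at this
    exact this

theorem th_finite (i : σ) (d : ℕ) (g : Po σ) (B : Type) [AddCommGroup B] [Module (Po σ) B]
    (hB : Module.Finite (Po σ) B) (hk : ∀ b : B, (MvPolynomial.X i : Po σ) • b = 0) :
    Module.Finite (Po σ) (Th i d g B) := by
  have h1 : Module.Finite (Po σ) (Ex i B) := ex_finite i B hk hB
  exact Module.Finite.of_surjective (Res.map (nu i) (Submodule.mkQ
    (LinearMap.range (mg (PolynomialModule (Po σ) B) (X ^ d + C g : (Po σ)[X])))))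
    (Res.map_surj (Submodule.mkQ_surjective _))

end ex

section rows

variable {n : ℕ}

/-- the other variables of a row -/
def ga (n d : ℕ) (k : Fin 3) (a : Fin (n + 3)) : Po (Ix n) := ∑ j ∈ Finset.univ.erase a, xv n k j ^ d

theorem sF_ga (d : ℕ) (k : Fin 3) (a : Fin (n + 3)) :
    (MvPolynomial.X ((k, a) : Ix n) ^ d + ga n d k a : Po (Ix n)) = sF n d k :=
  Finset.add_sum_erase _ (fun j => xv n k j ^ d) (Finset.mem_univ a)

theorem NI_ga (d : ℕ) (k : Fin 3) (a : Fin (n + 3)) : NI ((k, a) : Ix n) (ga n d k a) := by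
  refine NI_sum _ _ fun j hj => NI_pow (NI_X ?_) d
  intro h
  exact (Finset.mem_erase.1 hj).1 (congrArg Prod.snd h)

theorem NI_sF (d : ℕ) {k l : Fin 3} (h : l ≠ k) (a : Fin (n + 3)) : NI ((k, a) : Ix n) (sF n d l) := by
  refine NI_sum _ _ fun j _ => NI_pow (NI_X ?_) d
  intro h'
  exact h (congrArg Prod.fst h')


theorem NI_oF (d : ℕ) (i : Fin 3) (p : Ix n) (hp : p.1 = i) : ∀ r ∈ oF n d i, NI p r := by
  rintro r ⟨l, hl, rfl⟩
  obtain ⟨p1, p2⟩ := p
  simp only at hp
  subst hp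
  exact NI_sF d hl p2

theorem range_eq (d : ℕ) (k : Fin 3) : Set.range (sF n d) = insert (sF n d k) (oF n d k) := by
  ext r
  constructor
  · rintro ⟨l, rfl⟩
    by_cases h : l = k
    · left
      rw [h]
    · right
      exact ⟨l, h, rfl⟩
  · rintro (rfl | ⟨l, -, rfl⟩)
    · exact ⟨k, rfl⟩
    · exact ⟨l, rfl⟩

/-! ### homogeneity -/

theorem wh_X (p : Ix n) : MvPolynomial.IsWeightedHomogeneous (dg (n := n)) (MvPolynomial.X p : Po (Ix n)) (dg p) :=
  MvPolynomial.isWeightedHomogeneous_X ℂ _ p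

theorem wh_pow (d : ℕ) (i : Fin 3) (j : Fin (n + 3)) :
    MvPolynomial.IsWeightedHomogeneous (dg (n := n)) (xv n i j ^ d : Po (Ix n)) (d • er i) := by
  induction d with
  | zero =>
    rw [pow_zero, zero_smul]
    exact MvPolynomial.isWeightedHomogeneous_one ℂ _
  | succ d ih =>
    rw [pow_succ, succ_nsmul]
    exact ih.mul (wh_X (i, j))

theorem wh_sum (d : ℕ) (i : Fin 3) (s : Finset (Fin (n + 3))) :
    MvPolynomial.IsWeightedHomogeneous (dg (n := n)) (∑ j ∈ s, xv n i j ^ d : Po (Ix n)) (d • er i) :=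
  Submodule.sum_mem (MvPolynomial.weightedHomogeneousSubmodule ℂ (dg (n := n)) (d • er i)) fun j _ => wh_pow d i j

theorem wh_mn (i k : Fin 3) (j j' : Fin (n + 3)) :
    MvPolynomial.IsWeightedHomogeneous (dg (n := n)) (mn n i k j j') (er i + er k) :=
  Submodule.sub_mem (MvPolynomial.weightedHomogeneousSubmodule ℂ (dg (n := n)) (er i + er k))
    ((wh_X (i, j)).mul (wh_X (k, j'))) ((wh_X (i, j')).mul (wh_X (k, j)))

/-! ### the substitutions -/

theorem rk_X_ne {i : Fin 3} {p : Ix n} (h : p.1 ≠ i) : rk n i (MvPolynomial.X p) = MvPolynomial.X p := by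
  simp [rk, h]

theorem rk_X_eq {i : Fin 3} {p : Ix n} (h : p.1 = i) : rk n i (MvPolynomial.X p) = 0 := by
  simp [rk, h]

theorem rk_C (i : Fin 3) (a : ℂ) : rk n i (MvPolynomial.C a) = MvPolynomial.C a := by
  simp [rk]

theorem rk_xv {i l : Fin 3} (h : l ≠ i) (j : Fin (n + 3)) : rk n i (xv n l j) = xv n l j := rk_X_ne h

theorem rk_sF (d : ℕ) {i l : Fin 3} (h : l ≠ i) : rk n i (sF n d l) = sF n d l := by
  unfold sF
  rw [map_sum]
  exact Finset.sum_congr rfl fun j _ => by rw [map_pow, rk_xv h]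

theorem rk_mn {i a b : Fin 3} (ha : a ≠ i) (hb : b ≠ i) (j j' : Fin (n + 3)) : rk n i (mn n a b j j') = mn n a b j j' := by
  unfold mn
  rw [map_sub, map_mul, map_mul, rk_xv ha, rk_xv ha, rk_xv hb, rk_xv hb]

theorem NI_mn {i a b : Fin 3} (ha : a ≠ i) (hb : b ≠ i) (j j' : Fin (n + 3)) (p : Ix n) (hp : p.1 = i) :
    NI p (mn n a b j j') := by
  have h1 : ∀ (c : Fin 3) (q : Fin (n + 3)), c ≠ i → NI p (xv n c q) := fun c q hc =>
    NI_X (fun h => hc (by rw [← hp, ← h]))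
  have h2 := NI_mul (h1 a j ha) (h1 b j' hb)
  have h3 := NI_mul (h1 a j' ha) (h1 b j hb)
  unfold NI at *
  unfold mn
  rw [map_sub, h2, h3, Polynomial.C_sub]

/-- `gz` fixes the image of `rk` -/
theorem gz_rk (i : Fin 3) (j : Fin (n + 3)) (r : Po (Ix n)) : gz ((i, j) : Ix n) 0 (rk n i r) = rk n i r := by
  have key : (gz ((i, j) : Ix n) 0).comp (rk n i) = rk n i := by
    refine MvPolynomial.ringHom_ext ?_ ?_
    · intro c
      rw [RingHom.comp_apply, rk_C, gz_C]
    · intro p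
      rw [RingHom.comp_apply]
      by_cases h : p.1 = i
      · rw [rk_X_eq h, map_zero]
      · rw [rk_X_ne h, gz_X_ne]
        intro h'
        rw [h'] at h
        exact h rfl
  exact RingHom.congr_fun key r

theorem sb_X (i k : Fin 3) (p : Ix n) :
    sb n i k (MvPolynomial.X p) = if p.1 = i then (MvPolynomial.X (k, p.2) : Po (Ix n)) else MvPolynomial.X p := by
  simp [sb]

theorem sb_xv (i k l : Fin 3) (j : Fin (n + 3)) : sb n i k (xv n l j) = xv n (if l = i then k else l) j := by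
  unfold xv
  rw [sb_X]
  by_cases h : l = i
  · rw [if_pos h, if_pos h]
  · rw [if_neg h, if_neg h]

theorem sb_sF (d : ℕ) (i k l : Fin 3) : sb n i k (sF n d l) = sF n d (if l = i then k else l) := by
  unfold sF
  rw [map_sum]
  exact Finset.sum_congr rfl fun j _ => by rw [map_pow, sb_xv]

theorem sb_mn (i k a b : Fin 3) (j j' : Fin (n + 3)) :
    sb n i k (mn n a b j j') = mn n (if a = i then k else a) (if b = i then k else b) j j' := by
  unfold mn
  rw [map_sub, map_mul, map_mul, sb_xv, sb_xv, sb_xv, sb_xv]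

theorem mn_self (a : Fin 3) (j j' : Fin (n + 3)) : mn n a a j j' = 0 := by
  unfold mn
  ring

theorem mn_swap (a b : Fin 3) (j j' : Fin (n + 3)) : mn n b a j j' = -mn n a b j j' := by
  unfold mn
  ring

end rows

/-! ### the variables of a row -/

section row

variable {n : ℕ}

/-- the variables of the row `i` different from `(i, 1)` -/
def ys (n : ℕ) (i : Fin 3) : List (Ix n) := (Finset.univ.erase (1 : Fin (n + 3))).toList.map fun j => (i, j)

theorem mem_ys {i : Fin 3} {p : Ix n} : p ∈ ys n i ↔ p.1 = i ∧ p.2 ≠ 1 := by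
  unfold ys
  rw [List.mem_map]
  constructor
  · rintro ⟨j, hj, rfl⟩
    exact ⟨rfl, (Finset.mem_erase.1 (Finset.mem_toList.1 hj)).1⟩
  · rintro ⟨h1, h2⟩
    exact ⟨p.2, Finset.mem_toList.2 (Finset.mem_erase.2 ⟨h2, Finset.mem_univ _⟩), by rw [← h1]⟩

theorem ys_nodup (i : Fin 3) : (ys n i).Nodup :=
  (Finset.nodup_toList _).map fun _ _ h => congrArg Prod.snd h

theorem ys_row (i : Fin 3) : ∀ y ∈ ys n i, y.1 = i := fun _ hy => (mem_ys.1 hy).1

theorem Rw_ys (i : Fin 3) (B : Set (Po (Ix n))) : Rw n i (ys n i) ∪ B = insert (MvPolynomial.X ((i, 1) : Ix n)) B := by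
  ext r
  constructor
  · rintro (⟨p, h1, h2, rfl⟩ | h)
    · left
      rw [mem_ys, not_and, not_not] at h2
      rw [← h1, ← h2 h1]
    · exact Or.inr h
  · rintro (rfl | h)
    · left
      exact ⟨(i, 1), rfl, fun h => (mem_ys.1 h).2 rfl, rfl⟩
    · exact Or.inr h

end row

/-! ### additive functions -/

section gfun

variable {n : ℕ} {V : Type 1} [AddCommGroup V]

/-- the same function on fewer modules -/
def mono {I J : Set (Po (Ix n))} (χ : GFun n I V) (h : I ⊆ J) : GFun n J V where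
  f := χ.f
  add A B C _ _ _ _ _ _ a b c i p hB hk := χ.add A B C a b c i p hB (Kil.mono h hk)

theorem sh_sh {M : Type} [AddCommGroup M] (c : Dg → M →+ M) (e e' : Dg) : sh (sh c e) e' = sh c (e' + e) := by
  funext a
  show c (a + e' + e) = c (a + (e' + e))
  rw [add_assoc]

theorem kil_quot {B : Set (Po (Ix n))} {I : Set (Po (Ix n))} (h : ∀ r ∈ I, r ∈ Ideal.span B) :
    Kil I (Po (Ix n) ⧸ Ideal.span B) := by
  intro r hr m
  obtain ⟨x, rfl⟩ := Submodule.Quotient.mk_surjective _ m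
  rw [← Submodule.Quotient.mk_smul, Submodule.Quotient.mk_eq_zero]
  exact Ideal.mul_mem_right x _ (h r hr)

/-- the identity, as an equivalence of submodules -/
def nbE {R : Type} [CommRing R] (φ ψ : R →+* R) (h0 : ∀ r, ψ (φ r) = φ r) {M : Type} [AddCommGroup M] [Module R M]
    (P : Submodule R (Res φ M)) (P' : Submodule R (Res φ (Res ψ M)))
    (h : ∀ m : M, Res.mk φ m ∈ P ↔ Res.mk φ (Res.mk ψ m) ∈ P') : P ≃ₗ[R] P' where
  toFun := fun x => ⟨Res.mk φ (Res.mk ψ (x : Res φ M).val), (h _).1 x.2⟩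
  map_add' := fun _ _ => rfl
  map_smul' := fun r x => by
    refine Subtype.ext ?_
    show φ r • (x : Res φ M).val = ψ (φ r) • (x : Res φ M).val
    rw [h0]
  invFun := fun y => ⟨Res.mk φ ((y : Res φ (Res ψ M)).val.val), (h _).2 y.2⟩
  left_inv := fun _ => rfl
  right_inv := fun _ => rfl

theorem nbE_val {R : Type} [CommRing R] (φ ψ : R →+* R) (h0 : ∀ r, ψ (φ r) = φ r) {M : Type} [AddCommGroup M] [Module R M]
    (P : Submodule R (Res φ M)) (P' : Submodule R (Res φ (Res ψ M)))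
    (h : ∀ m : M, Res.mk φ m ∈ P ↔ Res.mk φ (Res.mk ψ m) ∈ P') (x : P) :
    ((nbE φ ψ h0 P P' h x : P') : Res φ (Res ψ M)) = Res.mk φ (Res.mk ψ (x : Res φ M).val) := rfl

/-- the condition for the gradings -/
theorem nbE_gr {R : Type} [CommRing R] (φ ψ : R →+* R) (h0 : ∀ r, ψ (φ r) = φ r) {M : Type} [AddCommGroup M] [Module R M]
    (P : Submodule R (Res φ M)) (P' : Submodule R (Res φ (Res ψ M)))
    (h : ∀ m : M, Res.mk φ m ∈ P ↔ Res.mk φ (Res.mk ψ m) ∈ P') (c : Dg → M →+ M) (k : Dg → P →+ P) (k' : Dg → P' →+ P')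
    (e : Dg) (h1 : ∀ (a : Dg) (x : P), ((k a x : P) : Res φ M).val = c (a + e) (x : Res φ M).val)
    (h2 : ∀ (a : Dg) (x : P'), ((k' a x : P') : Res φ (Res ψ M)).val = cR ψ c (a + e) (x : Res φ (Res ψ M)).val)
    (a : Dg) (x : P) : nbE φ ψ h0 P P' h (k a x) = k' a (nbE φ ψ h0 P P' h x) := by
  refine Subtype.ext ?_
  have e2 : ((k' a (nbE φ ψ h0 P P' h x) : P') : Res φ (Res ψ M)).val = c (a + e) (x : Res φ M).val := h2 a _
  have e1 : ((nbE φ ψ h0 P P' h (k a x) : P') : Res φ (Res ψ M)).val = c (a + e) (x : Res φ M).val := h1 a x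
  exact e1.trans e2.symm

/-- the parts of degree `b` of `M` and of `Res (gz (i, 1) 0) M` are isomorphic -/
theorem nb_iso (hGu : S_Gu) (hGn : S_Gn) (i : Fin 3) {I₀ : Set (Po (Ix n))} (φ : GFun n (Rw n i [] ∪ I₀) V)
    (hI₀ : ∀ r ∈ I₀, rk n i r = r) (M : Type) [AddCommGroup M] [Module (Po (Ix n)) M] (c : Dg → M →+ M)
    (hgr : IsGr n c) (hfin : Module.Finite (Po (Ix n)) M) (hk : Kil I₀ M)
    (hgr' : IsGr n (cR (gz ((i, 1) : Ix n) 0) c))
    (hfin' : Module.Finite (Po (Ix n)) (Res (gz ((i, 1) : Ix n) 0) M)) (hk' : Kil I₀ (Res (gz ((i, 1) : Ix n) 0) M))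
    (b : ℤ) (e : Dg) :
    φ.g (GM.nb i b e ⟨Res (gz ((i, 1) : Ix n) 0) M, cR (gz ((i, 1) : Ix n) 0) c⟩) = φ.g (GM.nb i b e ⟨M, c⟩) := by
  obtain ⟨h1, h2, h3, h4, h5⟩ := hGn n i I₀ M c hI₀ hgr hfin hk b e
  obtain ⟨h1', -, -, -, h5'⟩ := hGn n i I₀ (Res (gz ((i, 1) : Ix n) 0) M) (cR (gz ((i, 1) : Ix n) 0) c) hI₀ hgr' hfin' hk' b e
  have hh : ∀ m : M, Res.mk (rk n i) m ∈ Nb n i b c ↔
      Res.mk (rk n i) (Res.mk (gz ((i, 1) : Ix n) 0) m) ∈ Nb n i b (cR (gz ((i, 1) : Ix n) 0) c) := fun m =>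
    ⟨fun h => (h1' _).2 fun a ha => (h1 _).1 h a ha, fun h => (h1 _).2 fun a ha => (h1' _).1 h a ha⟩
  exact ((hGu n (Rw n i [] ∪ I₀) V φ (GM.nb (n := n) i b e ⟨M, c⟩).M (GM.nb (n := n) i b e ⟨M, c⟩).c h2 h3 h4).2.1
    (GM.nb (n := n) i b e ⟨Res (gz ((i, 1) : Ix n) 0) M, cR (gz ((i, 1) : Ix n) 0) c⟩).M
    (GM.nb (n := n) i b e ⟨Res (gz ((i, 1) : Ix n) 0) M, cR (gz ((i, 1) : Ix n) 0) c⟩).c
    (nbE (rk n i) (gz ((i, 1) : Ix n) 0) (gz_rk i 1) (Nb n i b c) (Nb n i b (cR (gz ((i, 1) : Ix n) 0) c)) hh)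
    (nbE_gr (rk n i) (gz ((i, 1) : Ix n) 0) (gz_rk i 1) (Nb n i b c) (Nb n i b (cR (gz ((i, 1) : Ix n) 0) c)) hh c _ _ e
      h5 h5')).symm

theorem rk_oF (d : ℕ) (i : Fin 3) : ∀ r ∈ oF n d i, rk n i r = r := by
  rintro r ⟨l, hl, rfl⟩
  exact rk_sF d hl

/-- the value on `Th (Res (gz (i, 1) 0) M)` -/
theorem core2 (hGa : S_Ga) (hGb : S_Gb) (hGi : S_Gi) (hGu : S_Gu) (hGth : S_Gth) (hGks : S_Gks) (hGxs : S_Gxs)
    (hGn : S_Gn) (hGz : S_Gz) (hGec : S_Gec) (hGet : S_Get) {d : ℕ} (χ : GFun n (Set.range (sF n d)) V) (hd : 1 ≤ d)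
    {i k : Fin 3} (hik : i ≠ k) {A A' : Set (Po (Ix n))}
    (hA : ∀ r ∈ A, ∃ a : Dg, MvPolynomial.IsWeightedHomogeneous (dg (n := n)) r a)
    (hA' : ∀ r ∈ A', ∃ a : Dg, MvPolynomial.IsWeightedHomogeneous (dg (n := n)) r a)
    (hrk : ∀ r ∈ A', rk n i r = r) (hNI : ∀ r ∈ A', ∀ p : Ix n, p.1 = i → NI p r)
    (hI₀ : ∀ r ∈ oF n d i, r ∈ Ideal.span A') (hA'A : ∀ r ∈ A', r ∈ Ideal.span A)
    (hsb : ∀ r ∈ A, sb n i k r ∈ Ideal.span A') (hmn : ∀ j j' : Fin (n + 3), mn n i k j j' ∈ Ideal.span A)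
    (hsF : ∀ l, sF n d l ∈ Ideal.span A) (hKR : ∀ l : Fin 3, KR χ l)
    (hz : ∀ e : Dg, χ.cy (Ideal.span (insert (sF n d i) A')) e = 0) (e : Dg) :
    χ.f (Th ((i, 1) : Ix n) d (ga n d i 1) (Res (gz ((i, 1) : Ix n) 0) (Po (Ix n) ⧸ Ideal.span A)))
      (cT ((i, 1) : Ix n) d (ga n d i 1) (cR (gz ((i, 1) : Ix n) 0) (sh (cQ (cP n) (Ideal.span A)) e))) = 0 := by
  have hdg : dg ((i, 1) : Ix n) = er i := rfl
  have hwg : MvPolynomial.IsWeightedHomogeneous (dg (n := n)) (ga n d i 1) (d • dg ((i, 1) : Ix n)) := wh_sum d i _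
  have hHg : Hg n (ga n d i 1) (d • dg ((i, 1) : Ix n)) := (hGi n).1 _ _ hwg
  have hNg : NI ((i, 1) : Ix n) (ga n d i 1) := NI_ga d i 1
  have hNo : ∀ r ∈ oF n d i, ∀ p : Ix n, p.1 = i → NI p r := fun r hr p hp => NI_oF d i p hp r hr
  have hsub : Set.range (sF n d) = insert (MvPolynomial.X ((i, 1) : Ix n) ^ d + ga n d i 1) (oF n d i) := by
    rw [sF_ga, range_eq d i]
  obtain ⟨ψ, hψ⟩ := hGth n (i, 1) (oF n d i) V d (ga n d i 1) (mono χ hsub.le) hd hNg hHg
    (fun r hr => hNo r hr _ rfl)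
  have hins : insert (MvPolynomial.X ((i, 1) : Ix n)) (oF n d i) = Rw n i (ys n i) ∪ oF n d i := (Rw_ys i _).symm
  obtain ⟨φ, hφ, hφR⟩ := hGxs n i (ys n i) (oF n d i) V (mono ψ hins.le) (ys_nodup i) (ys_row i) hNo
  -- the module
  have hgr : IsGr n (sh (cQ (cP n) (Ideal.span A)) e) :=
    (hGa n _ _ ((hGi n).2.2 A hA).2).1 e
  have hfin : Module.Finite (Po (Ix n)) (Po (Ix n) ⧸ Ideal.span A) := inferInstance
  have hkil : Kil (oF n d i) (Po (Ix n) ⧸ Ideal.span A) := kil_quot fun r hr => by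
    obtain ⟨l, -, rfl⟩ := hr
    exact hsF l
  have hkx : ∀ m : Po (Ix n) ⧸ Ideal.span A, (MvPolynomial.X ((i, 1) : Ix n) ^ d + ga n d i 1 : Po (Ix n)) • m = 0 := by
    have h1 : Kil {sF n d i} (Po (Ix n) ⧸ Ideal.span A) := kil_quot fun r hr => by
      rw [Set.mem_singleton_iff.1 hr]
      exact hsF i
    rw [sF_ga]
    exact h1 _ rfl
  have hgr' : IsGr n (cR (gz ((i, 1) : Ix n) 0) (sh (cQ (cP n) (Ideal.span A)) e)) := (hGb n _ _ hgr).1 _ _
  have hfin' : Module.Finite (Po (Ix n)) (Res (gz ((i, 1) : Ix n) 0) (Po (Ix n) ⧸ Ideal.span A)) :=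
    fin0 (i, 1) hd hNg _ hfin hkx
  have hkil' : Kil (oF n d i) (Res (gz ((i, 1) : Ix n) 0) (Po (Ix n) ⧸ Ideal.span A)) := by
    intro r hr m
    show gz ((i, 1) : Ix n) 0 r • m.val = 0
    rw [gz_of_NI (hNo r hr _ rfl)]
    exact hkil r hr _
  have hkilX : Kil (Rw n i (ys n i) ∪ oF n d i) (Res (gz ((i, 1) : Ix n) 0) (Po (Ix n) ⧸ Ideal.span A)) := by
    rw [Rw_ys, Kil.insert]
    refine ⟨fun m => ?_, hkil'⟩
    show gz ((i, 1) : Ix n) 0 (MvPolynomial.X (i, 1)) • m.val = 0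
    rw [gz_X_self, map_zero, zero_mul, zero_smul]
  -- the values of `φ`
  have hKψ : ∀ l : Fin 3, l ≠ i → KR (mono ψ hins.le) l := by
    intro l hl M _ _ c hc hM hk ⟨m, hm⟩
    show ψ.f M c = 0
    rw [hψ M c]
    show χ.f (Th ((i, 1) : Ix n) d (ga n d i 1) M) (cT ((i, 1) : Ix n) d (ga n d i 1) c) = 0
    rw [Rw_ys, Kil.insert] at hk
    refine hKR l _ _ ((hGb n M c hc).2.2 _ _ _ hHg).1 (th_finite _ _ _ _ hM hk.1) ?_ ⟨m, fun j x => ?_⟩
    · rw [hsub]
      exact th_kil (fun r hr => hNo r hr _ rfl) d hNg M hk.2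
    · refine th_mk_zero ((i, 1) : Ix n) d _ M _ (fun q => ⟨0, ?_⟩) x
      have hN : NI ((i, 1) : Ix n) ((MvPolynomial.X (l, j) : Po (Ix n)) ^ m) :=
        NI_pow (NI_X fun h => hl (congrArg Prod.fst h)) m
      rw [smul_zero, show nu ((i, 1) : Ix n) _ = C _ from hN]
      refine pm_ext fun t => ?_
      have h1 := PolynomialModule.monomial_smul_apply 0 ((MvPolynomial.X (l, j) : Po (Ix n)) ^ m) q t
      rw [if_pos (Nat.zero_le t), hm] at h1
      exact h1
  have hφz : ∀ e' : Dg, φ.cy (Ideal.span (Rw n i [] ∪ A')) e' = 0 := by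
    intro e'
    have h1 : φ.cy (Ideal.span (Rw n i [] ∪ A')) e' =
        φ.g ⟨Po (Ix n) ⧸ Ideal.span (Rw n i [] ∪ A'), sh (cQ (cP n) (Ideal.span (Rw n i [] ∪ A'))) e'⟩ := rfl
    have h2 : Ideal.span (Rw n i (ys n i) ∪ A') = Ideal.span (insert (MvPolynomial.X ((i, 1) : Ix n)) A') :=
      congrArg Ideal.span (Rw_ys i A')
    rw [h1, hφ, hGec n i (ys n i) (oF n d i) A' V (mono ψ hins.le) e' (ys_nodup i) (ys_row i) hNI hNo hA' hI₀, h2]
    show ψ.f (Po (Ix n) ⧸ Ideal.span (insert (MvPolynomial.X ((i, 1) : Ix n)) A'))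
      (sh (cQ (cP n) (Ideal.span (insert (MvPolynomial.X ((i, 1) : Ix n)) A'))) e') = 0
    have h3 : insert (MvPolynomial.X ((i, 1) : Ix n) ^ d + ga n d i 1) A' = insert (sF n d i) A' :=
      congrArg (fun t => insert t A') (sF_ga d i 1)
    have h4 := hz e'
    rw [← h3] at h4
    rw [hψ, hGet n (i, 1) d (ga n d i 1) (oF n d i) A' V (mono χ hsub.le) e' hd hNg hHg (fun r hr => hNI r hr _ rfl)
      hA' hwg hI₀]
    exact h4
  have hnb : ∀ (b : ℤ) (e' : Dg), φ.g (GM.nb i b e' ⟨Res (gz ((i, 1) : Ix n) 0) (Po (Ix n) ⧸ Ideal.span A),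
      cR (gz ((i, 1) : Ix n) 0) (sh (cQ (cP n) (Ideal.span A)) e)⟩) = 0 := by
    intro b e'
    rw [nb_iso hGu hGn i φ (rk_oF d i) _ _ hgr hfin hkil hgr' hfin' hkil' b e']
    exact hGz n i k (oF n d i) A A' V φ hik hA hA' hrk (rk_oF d i) hI₀ hA'A hsb hmn (hφR k (Ne.symm hik) (hKψ k (Ne.symm hik)))
      hφz b e' e
  obtain ⟨c₀, hc₀⟩ := hGks n i (ys n i) (oF n d i) V (mono ψ hins.le) _ _ (ys_nodup i) (ys_row i) (rk_oF d i) hNo hgr'
    hfin' hkilX
  have h2 := hc₀ c₀ le_rfl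
  have h3 : ψ.f (Res (gz ((i, 1) : Ix n) 0) (Po (Ix n) ⧸ Ideal.span A))
      (cR (gz ((i, 1) : Ix n) 0) (sh (cQ (cP n) (Ideal.span A)) e)) = 0 := by
    refine h2.trans (Finset.sum_eq_zero fun b _ => Finset.sum_eq_zero fun t _ => ?_)
    rw [← hφ, hnb, smul_zero]
  rw [hψ] at h3
  exact h3

/-- the twisted sum vanishes -/
theorem core (hGa : S_Ga) (hGb : S_Gb) (hGi : S_Gi) (hGu : S_Gu) (hGbz : S_Gbz) (hGp : S_Gp) (hGw : S_Gw) (hGq : S_Gq)
    (hGth : S_Gth) (hGks : S_Gks) (hGxs : S_Gxs)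
    (hGn : S_Gn) (hGz : S_Gz) (hGec : S_Gec) (hGet : S_Get) [Module ℚ V] {d : ℕ} (χ : GFun n (Set.range (sF n d)) V)
    (ζ : ℂ) (hd : 1 ≤ d) (hζ : IsPrimitiveRoot ζ d)
    {i k : Fin 3} (hik : i ≠ k) {A A' : Set (Po (Ix n))}
    (hA : ∀ r ∈ A, ∃ a : Dg, MvPolynomial.IsWeightedHomogeneous (dg (n := n)) r a)
    (hA' : ∀ r ∈ A', ∃ a : Dg, MvPolynomial.IsWeightedHomogeneous (dg (n := n)) r a)
    (hrk : ∀ r ∈ A', rk n i r = r) (hNI : ∀ r ∈ A', ∀ p : Ix n, p.1 = i → NI p r)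
    (hI₀ : ∀ r ∈ oF n d i, r ∈ Ideal.span A') (hA'A : ∀ r ∈ A', r ∈ Ideal.span A)
    (hsb : ∀ r ∈ A, sb n i k r ∈ Ideal.span A') (hmn : ∀ j j' : Fin (n + 3), mn n i k j j' ∈ Ideal.span A)
    (hsF : ∀ l, sF n d l ∈ Ideal.span A) (hKR : ∀ l : Fin 3, KR χ l)
    (hz : ∀ e : Dg, χ.cy (Ideal.span (insert (sF n d i) A')) e = 0) (e : Dg) :
    tw χ i d ζ (Po (Ix n) ⧸ Ideal.span A) (sh (cQ (cP n) (Ideal.span A)) e) = 0 := by
  obtain ⟨ψ, hψ, hψR, -, -, -⟩ := hGw n d V χ i ζ hd hζ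
  have hgr : ∀ e' : Dg, IsGr n (sh (cQ (cP n) (Ideal.span A)) e') := fun e' =>
    (hGa n _ _ ((hGi n).2.2 A hA).2).1 e'
  have hfin : Module.Finite (Po (Ix n)) (Po (Ix n) ⧸ Ideal.span A) := inferInstance
  have hkil : Kil (Set.range (sF n d)) (Po (Ix n) ⧸ Ideal.span A) := kil_quot fun r hr => by
    obtain ⟨l, rfl⟩ := hr
    exact hsF l
  have hs : ∀ (b : ℤ) (t : ℕ), sh (sh (cQ (cP n) (Ideal.span A)) (b • er i + e)) (-(t • er i)) =
      sh (cQ (cP n) (Ideal.span A)) ((b - (t : ℤ)) • er i + e) := by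
    intro b t
    rw [sh_sh, sub_smul, natCast_zsmul]
    congr 1
    abel
  have hF := hGbz V (fun b : ℤ => tw χ i d ζ (Po (Ix n) ⧸ Ideal.span A)
    (sh (cQ (cP n) (Ideal.span A)) (b • er i + e))) (n + 3) d hd ?_ ?_ 0
  · simp only [zero_smul, zero_add] at hF
    exact hF
  · intro b
    have h1 := hGp n (Set.range (sF n d)) V ψ i (hψR i (hKR i)) _ _ (hgr (b • er i + e)) hfin hkil
    refine Eq.trans (Finset.sum_congr rfl fun t _ => ?_) h1
    rw [hψ, hs]
  · intro b
    have h1 := hGq n d V χ i ζ hd hζ _ _ (hgr (b • er i + e)) hfin hkil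
    have h2 := core2 hGa hGb hGi hGu hGth hGks hGxs hGn hGz hGec hGet χ hd hik hA hA' hrk hNI hI₀ hA'A hsb hmn hsF hKR hz
      (b • er i + e)
    have h3 : ∑ m ∈ Finset.range d, tw χ i d ζ (Po (Ix n) ⧸ Ideal.span A)
        (sh (sh (cQ (cP n) (Ideal.span A)) (b • er i + e)) (-(m • er i))) = 0 := by
      rw [h1]
      have h4 : χ.f (Th ((i, 1) : Ix n) d (∑ j ∈ Finset.univ.erase (1 : Fin (n + 3)), xv n i j ^ d)
          (Res (gz ((i, 1) : Ix n) 0) (Po (Ix n) ⧸ Ideal.span A)))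
          (cT ((i, 1) : Ix n) d (∑ j ∈ Finset.univ.erase (1 : Fin (n + 3)), xv n i j ^ d)
            (cR (gz ((i, 1) : Ix n) 0) (sh (cQ (cP n) (Ideal.span A)) (b • er i + e)))) = 0 := h2
      rw [h4, smul_zero]
    refine Eq.trans (Finset.sum_congr rfl fun t _ => ?_) h3
    rw [hs]

end gfun

/-! ### the two cases -/

section cases

variable {n : ℕ}

theorem wh_range (d : ℕ) : ∀ r ∈ Set.range (sF n d), ∃ a : Dg, MvPolynomial.IsWeightedHomogeneous (dg (n := n)) r a := by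
  rintro _ ⟨l, rfl⟩
  exact ⟨_, wh_sum d l _⟩

theorem wh_oF (d : ℕ) (i : Fin 3) : ∀ r ∈ oF n d i, ∃ a : Dg, MvPolynomial.IsWeightedHomogeneous (dg (n := n)) r a := by
  rintro _ ⟨l, -, rfl⟩
  exact ⟨_, wh_sum d l _⟩

end cases

end Gc_aux

open Gc_aux in
/-- **Gc** (the claims). -/
theorem tGc : S_Ga → S_Gb → S_Gi → S_Gu → S_Gbz → S_Gp → S_Gw → S_Gd → S_Gq → S_Gth → S_Gks → S_Gxs → S_Gn → S_Gz →
    S_Gec → S_Get → S_Gc := by
  intro hGa hGb hGi hGu hGbz hGp hGw _ hGq hGth hGks hGxs hGn hGz hGec hGet n d V _ _ χ ζ hd hζ hZ i e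
  obtain ⟨hKR, hO, hP⟩ := hZ
  constructor
  · -- the small diagonal
    obtain ⟨k, l, hik, hil, hkl, hall⟩ : ∃ k l : Fin 3, i ≠ k ∧ i ≠ l ∧ k ≠ l ∧ ∀ a : Fin 3, a = i ∨ a = k ∨ a = l := by
      fin_cases i
      · exact ⟨1, 2, by decide, by decide, by decide, by decide⟩
      · exact ⟨0, 2, by decide, by decide, by decide, by decide⟩
      · exact ⟨0, 1, by decide, by decide, by decide, by decide⟩
    have hmem : ∀ (a : Fin 3), (if a = i then k else a) = k ∨ (if a = i then k else a) = l := by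
      intro a
      rcases hall a with h | h | h
      · left; rw [if_pos h]
      · left; rw [h, if_neg (Ne.symm hik)]
      · right; rw [h, if_neg (Ne.symm hil)]
    refine core (A := gA n d) (A' := {r | ∃ j j', r = mn n k l j j'} ∪ oF n d i) hGa hGb hGi hGu hGbz hGp hGw hGq hGth
      hGks hGxs hGn hGz hGec hGet χ ζ hd hζ hik ?_ ?_ ?_ ?_ ?_ ?_ ?_ ?_ ?_ hKR ?_ e
    · rintro r (⟨a, a', j, j', rfl⟩ | hr)
      · exact ⟨_, wh_mn a a' j j'⟩
      · exact wh_range d r hr
    · rintro r (⟨j, j', rfl⟩ | hr)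
      · exact ⟨_, wh_mn k l j j'⟩
      · exact wh_oF d i r hr
    · rintro r (⟨j, j', rfl⟩ | hr)
      · exact rk_mn (Ne.symm hik) (Ne.symm hil) j j'
      · exact rk_oF d i r hr
    · rintro r (⟨j, j', rfl⟩ | hr) p hp
      · exact NI_mn (Ne.symm hik) (Ne.symm hil) j j' p hp
      · exact NI_oF d i p hp r hr
    · exact fun r hr => Ideal.subset_span (Or.inr hr)
    · rintro r (⟨j, j', rfl⟩ | ⟨a, -, rfl⟩)
      · exact Ideal.subset_span (Or.inl ⟨k, l, j, j', rfl⟩)
      · exact Ideal.subset_span (Or.inr ⟨a, rfl⟩)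
    · rintro r (⟨a, a', j, j', rfl⟩ | ⟨a, rfl⟩)
      · rw [sb_mn]
        have hkl' : mn n k l j j' ∈ Ideal.span ({r | ∃ j j', r = mn n k l j j'} ∪ oF n d i) :=
          Ideal.subset_span (Or.inl ⟨j, j', rfl⟩)
        rcases hmem a with h | h <;> rcases hmem a' with h' | h' <;> rw [h, h']
        · rw [mn_self]; exact Ideal.zero_mem _
        · exact hkl'
        · rw [mn_swap]; exact Ideal.neg_mem_iff _ |>.2 hkl'
        · rw [mn_self]; exact Ideal.zero_mem _
      · rw [sb_sF]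
        rcases hmem a with h | h <;> rw [h]
        · exact Ideal.subset_span (Or.inr ⟨k, Ne.symm hik, rfl⟩)
        · exact Ideal.subset_span (Or.inr ⟨l, Ne.symm hil, rfl⟩)
    · exact fun j j' => Ideal.subset_span (Or.inl ⟨i, k, j, j', rfl⟩)
    · exact fun a => Ideal.subset_span (Or.inr ⟨a, rfl⟩)
    · intro e'
      have h1 : insert (sF n d i) ({r | ∃ j j', r = mn n k l j j'} ∪ oF n d i) = gP n d k l := by
        rw [gP, range_eq d i, Set.union_insert]
      rw [h1]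
      exact hP k l hkl e'
  · -- the pairwise diagonals
    intro k hik
    refine core (A := gP n d i k) (A' := oF n d i) hGa hGb hGi hGu hGbz hGp hGw hGq hGth
      hGks hGxs hGn hGz hGec hGet χ ζ hd hζ hik ?_ ?_ ?_ ?_ ?_ ?_ ?_ ?_ ?_ hKR ?_ e
    · rintro r (⟨j, j', rfl⟩ | hr)
      · exact ⟨_, wh_mn i k j j'⟩
      · exact wh_range d r hr
    · exact wh_oF d i
    · exact rk_oF d i
    · exact fun r hr p hp => NI_oF d i p hp r hr
    · exact fun r hr => Ideal.subset_span hr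
    · rintro r ⟨a, -, rfl⟩
      exact Ideal.subset_span (Or.inr ⟨a, rfl⟩)
    · rintro r (⟨j, j', rfl⟩ | ⟨a, rfl⟩)
      · rw [sb_mn, if_pos rfl, if_neg (Ne.symm hik), mn_self]
        exact Ideal.zero_mem _
      · rw [sb_sF]
        by_cases h : a = i
        · rw [if_pos h]
          exact Ideal.subset_span ⟨k, Ne.symm hik, rfl⟩
        · rw [if_neg h]
          exact Ideal.subset_span ⟨a, h, rfl⟩
    · exact fun j j' => Ideal.subset_span (Or.inl ⟨j, j', rfl⟩)
    · exact fun a => Ideal.subset_span (Or.inr ⟨a, rfl⟩)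
    · intro e'
      rw [← range_eq d i]
      exact hO e'

end Pool.Agent.FY
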