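import Pool.Agent.Lib.MP_b53bfe_ag.Spec3

/-!
# Module Ge (MP_b53bfe_ag): the graded modules `E N`

`E N = ⊕_a T ^ a N`, the direct sum of copies of `N` over all degrees `a`; the homogeneous polynomials
of degree `f` act by `T ^ a m ↦ T ^ (a + f) (r m)`.
-/

set_option autoImplicit false

noncomputable section

namespace Pool.Agent.FY

open Polynomial

namespace Ge_aux

open DirectSum

/-- the homogeneous polynomials of degree `a` -/
abbrev W (n : ℕ) (a : Dg) : Submodule ℂ (Po (Ix n)) :=
  MvPolynomial.weightedHomogeneousSubmodule ℂ (dg (n := n)) a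

attribute [local instance] MvPolynomial.weightedGradedAlgebra

/-- the constant family -/
abbrev Kf (N : Type) : Dg → Type := fun _ => N

instance gmod (n : ℕ) (N : Type) [AddCommGroup N] [Module (Po (Ix n)) N] :
    DirectSum.Gmodule (fun a : Dg => W n a) (Kf N) where
  smul {i j} r m := ((r : Po (Ix n)) • (m : N) : N)
  one_smul := by
    rintro ⟨j, m⟩
    exact Sigma.ext (zero_add j) (heq_of_eq (one_smul (Po (Ix n)) (m : N)))
  mul_smul := by
    rintro ⟨i, a⟩ ⟨j, b⟩ ⟨k, m⟩
    exact Sigma.ext (add_assoc i j k) (heq_of_eq (mul_smul (a : Po (Ix n)) (b : Po (Ix n)) (m : N)))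
  smul_add {i j} a b c := smul_add (a : Po (Ix n)) (b : N) (c : N)
  smul_zero {i j} a := smul_zero (a : Po (Ix n))
  add_smul {i j} a a' b := add_smul (a : Po (Ix n)) (a' : Po (Ix n)) (b : N)
  zero_smul {i j} b := zero_smul (Po (Ix n)) (b : N)

/-- the decomposition of a polynomial -/
def dec (n : ℕ) : Po (Ix n) →+* ⨁ a : Dg, W n a :=
  (DirectSum.decomposeRingEquiv (W n)).toRingHom

/-- the direct sum of the `T ^ a N` -/
def EN (N : Type) [AddCommGroup N] : Type := DirectSum Dg (Kf N)

instance (N : Type) [AddCommGroup N] : AddCommGroup (EN N) :=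
  inferInstanceAs (AddCommGroup (DirectSum Dg (Kf N)))

/-- the module structure over the direct sum of the homogeneous parts -/
@[instance_reducible]
def modD (n : ℕ) (N : Type) [AddCommGroup N] [Module (Po (Ix n)) N] :
    Module (⨁ a : Dg, W n a) (EN N) :=
  inferInstanceAs (Module (⨁ a : Dg, W n a) (DirectSum Dg (Kf N)))

instance modS (n : ℕ) (N : Type) [AddCommGroup N] [Module (Po (Ix n)) N] :
    Module (Po (Ix n)) (EN N) :=
  @Module.compHom (⨁ a : Dg, W n a) (Po (Ix n)) (EN N) _ _ (modD n N) _ (dec n)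

/-- `T ^ a m` -/
def tt (N : Type) [AddCommGroup N] (a : Dg) : N →+ EN N := DirectSum.of (Kf N) a

/-- the coefficient of `T ^ a` -/
def ev (N : Type) [AddCommGroup N] (a : Dg) : EN N →+ N := DFinsupp.evalAddMonoidHom (β := Kf N) a

/-- the component of degree `a` -/
def cc (N : Type) [AddCommGroup N] (a : Dg) : EN N →+ EN N := (tt N a).comp (ev N a)

section

variable {n : ℕ} {N : Type} [AddCommGroup N]

theorem ev_tt_same (a : Dg) (m : N) : ev N a (tt N a m) = m :=
  DirectSum.of_eq_same a (β := Kf N) m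

theorem ev_tt_ne {a b : Dg} (h : b ≠ a) (m : N) : ev N a (tt N b m) = 0 :=
  DirectSum.of_eq_of_ne (β := Kf N) b a m h.symm

theorem cc_apply (a : Dg) (x : EN N) : cc N a x = tt N a (ev N a x) := rfl

theorem cc_tt_same (a : Dg) (m : N) : cc N a (tt N a m) = tt N a m := by
  rw [cc_apply, ev_tt_same]

theorem cc_tt_ne {a b : Dg} (h : b ≠ a) (m : N) : cc N a (tt N b m) = 0 := by
  rw [cc_apply, ev_tt_ne h, map_zero]

theorem ind {p : EN N → Prop} (x : EN N) (h0 : p 0) (ht : ∀ (a : Dg) (m : N), p (tt N a m))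
    (ha : ∀ x y, p x → p y → p (x + y)) : p x :=
  DirectSum.induction_on x h0 ht ha

theorem cc_fin (x : EN N) : {a : Dg | cc N a x ≠ 0}.Finite := by
  induction x using ind with
  | h0 => simp
  | ht b m =>
    refine (Set.finite_singleton b).subset fun a ha => ?_
    by_contra h
    exact ha (cc_tt_ne (fun h' => h h'.symm) m)
  | ha x y hx hy =>
    refine (hx.union hy).subset fun a ha => ?_
    by_contra h
    rw [Set.mem_union, not_or] at h
    have h1 : cc N a x = 0 := by
      by_contra h2
      exact h.1 h2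
    have h2 : cc N a y = 0 := by
      by_contra h2
      exact h.2 h2
    exact ha (by rw [map_add, h1, h2, add_zero])

theorem cc_sum (x : EN N) : ∑ᶠ a : Dg, cc N a x = x := by
  induction x using ind with
  | h0 => simp
  | ht b m =>
    rw [finsum_eq_single _ b fun a ha => cc_tt_ne ha.symm m, cc_tt_same]
  | ha x y hx hy =>
    simp only [map_add]
    rw [finsum_add_distrib (cc_fin x) (cc_fin y), hx, hy]

end

section

variable {n : ℕ} {N : Type} [AddCommGroup N] [Module (Po (Ix n)) N]

theorem smul_tt (r : Po (Ix n)) (f : Dg) (hr : MvPolynomial.IsWeightedHomogeneous (dg (n := n)) r f)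
    (a : Dg) (m : N) : r • tt N a m = tt N (a + f) (r • m) := by
  have h1 : dec n r = DirectSum.of (fun a : Dg => W n a) f ⟨r, hr⟩ :=
    DirectSum.decompose_of_mem (W n) (i := f) hr
  change (dec n r • (DirectSum.of (Kf N) a m) : DirectSum Dg (Kf N)) = _
  rw [h1, DirectSum.Gmodule.of_smul_of]
  rw [add_comm a f]
  rfl

theorem cc_smul (r : Po (Ix n)) (f : Dg) (hr : MvPolynomial.IsWeightedHomogeneous (dg (n := n)) r f)
    (a : Dg) (x : EN N) : cc N (a + f) (r • x) = r • cc N a x := by
  induction x using ind with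
  | h0 => rw [smul_zero, map_zero, map_zero, smul_zero]
  | ht b m =>
    rw [smul_tt r f hr]
    by_cases h : b = a
    · rw [h, cc_tt_same, cc_tt_same, smul_tt r f hr]
    · rw [cc_tt_ne (fun h' => h (add_right_cancel h')), cc_tt_ne h, smul_zero]
  | ha x y hx hy => rw [smul_add, map_add, map_add, smul_add, hx, hy]

theorem isGr : IsGr n (cc N) where
  fin := cc_fin
  sum := cc_sum
  same a m := by rw [cc_apply a m, cc_tt_same]
  orth a b m h := by rw [cc_apply b, cc_tt_ne h.symm]
  cst z a m := by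
    have h := cc_smul (MvPolynomial.C z : Po (Ix n)) 0
      (MvPolynomial.isWeightedHomogeneous_C (dg (n := n)) z) a m
    rwa [add_zero] at h
  var p a m := cc_smul (MvPolynomial.X p : Po (Ix n)) (dg p)
    (MvPolynomial.isWeightedHomogeneous_X ℂ (dg (n := n)) p) a m

end

/-- the maps between the `E N` -/
def mapE {n : ℕ} (A B : Type) [AddCommGroup A] [Module (Po (Ix n)) A] [AddCommGroup B]
    [Module (Po (Ix n)) B] (l : A →ₗ[Po (Ix n)] B) : EN A →+ EN B :=
  DirectSum.map (α := Kf A) (β := Kf B) fun _ => l.toAddMonoidHom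

theorem mapE_tt {n : ℕ} {A B : Type} [AddCommGroup A] [Module (Po (Ix n)) A] [AddCommGroup B]
    [Module (Po (Ix n)) B] (l : A →ₗ[Po (Ix n)] B) (a : Dg) (m : A) :
    mapE A B l (tt A a m) = tt B a (l m) :=
  DirectSum.map_of (α := Kf A) (β := Kf B) (fun _ => l.toAddMonoidHom) a m

theorem mapE_smul {n : ℕ} {A B : Type} [AddCommGroup A] [Module (Po (Ix n)) A] [AddCommGroup B]
    [Module (Po (Ix n)) B] (l : A →ₗ[Po (Ix n)] B) (r : Po (Ix n)) (x : EN A) :
    mapE A B l (r • x) = r • mapE A B l x := by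
  induction r using MvPolynomial.induction_on' with
  | monomial u a =>
    have hr := MvPolynomial.isWeightedHomogeneous_monomial (dg (n := n)) u a rfl
    induction x using ind with
    | h0 => rw [smul_zero, map_zero, smul_zero]
    | ht b m => rw [smul_tt _ _ hr, mapE_tt, mapE_tt, smul_tt _ _ hr, map_smul]
    | ha x y hx hy => rw [smul_add, map_add, map_add, smul_add, hx, hy]
  | add p q hp hq => rw [add_smul, map_add, hp, hq, add_smul]

theorem mapE_cc {n : ℕ} {A B : Type} [AddCommGroup A] [Module (Po (Ix n)) A] [AddCommGroup B]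
    [Module (Po (Ix n)) B] (l : A →ₗ[Po (Ix n)] B) (a : Dg) (x : EN A) :
    mapE A B l (cc A a x) = cc B a (mapE A B l x) := by
  induction x using ind with
  | h0 => simp only [map_zero]
  | ht b m =>
    rw [mapE_tt]
    by_cases h : b = a
    · rw [h, cc_tt_same, cc_tt_same, mapE_tt]
    · rw [cc_tt_ne h, cc_tt_ne h, map_zero]
  | ha x y hx hy => rw [map_add, map_add, map_add, map_add, hx, hy]

end Ge_aux

open Ge_aux in
theorem tGe : S_Ge := fun n => ⟨{
  E := fun N _ _ => @GM.mk n (EN N) _ (modS n N) (Ge_aux.cc N)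
  t := fun N _ _ a => tt N a
  gr := fun _ _ _ => isGr
  comp := fun _ _ _ a m => cc_tt_same a m
  inj := fun N _ _ a => Function.LeftInverse.injective (g := ev N a) fun m => ev_tt_same a m
  gen := fun N _ _ a x => ⟨ev N a x, rfl⟩
  act := fun _ _ _ r f hr a m => smul_tt r f hr a m
  map := fun A B _ _ _ _ l => ⟨
    { toFun := mapE A B l
      map_add' := map_add _
      map_smul' := mapE_smul l }, mapE_tt l, mapE_cc l⟩ }⟩

end Pool.Agent.FY
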