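import Pool.Agent.Lib.MP_b53bfe_ag.Spec3
import Pool.Agent.Lib.MP_b53bfe_ag.Bas

/-!
# Theorem T2 (MP_b53bfe_ag): values on cyclic modules
-/

set_option autoImplicit false

noncomputable section

namespace Pool.Agent.FY

open Polynomial

namespace Gec_aux

/-! ## Graded isomorphisms -/

/-- graded isomorphism -/
def GIso {n : ℕ} (N N' : GM n) : Prop :=
  ∃ E : N.M ≃ₗ[Po (Ix n)] N'.M, ∀ (a : Dg) (m : N.M), E (N.c a m) = N'.c a (E m)

theorem GIso.refl {n : ℕ} (N : GM n) : GIso N N := ⟨LinearEquiv.refl _ _, fun _ _ => rfl⟩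

theorem GIso.symm {n : ℕ} {N N' : GM n} (h : GIso N N') : GIso N' N := by
  obtain ⟨E, hE⟩ := h
  refine ⟨E.symm, fun a m => ?_⟩
  rw [LinearEquiv.symm_apply_eq, hE, LinearEquiv.apply_symm_apply]

theorem GIso.trans {n : ℕ} {N N' N'' : GM n} (h : GIso N N') (h' : GIso N' N'') : GIso N N'' := by
  obtain ⟨E, hE⟩ := h
  obtain ⟨E', hE'⟩ := h'
  refine ⟨E.trans E', fun a m => ?_⟩
  rw [LinearEquiv.trans_apply, hE, hE', LinearEquiv.trans_apply]

/-! ## Polynomial modules -/

section gen

variable {R : Type} [CommRing R] {A B : Type} [AddCommGroup A] [Module R A] [AddCommGroup B]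
  [Module R B]

/-- the map on polynomial modules -/
def pm (l : A →ₗ[R] B) : PolynomialModule R A →ₗ[R[X]] PolynomialModule R B where
  toFun q := PolynomialModule.map R l q
  map_add' := map_add _
  map_smul' p q := by
    rw [PolynomialModule.map_smul, Algebra.algebraMap_self, Polynomial.map_id, RingHom.id_apply]

theorem pm_coeff (l : A →ₗ[R] B) (q : PolynomialModule R A) (k : ℕ) :
    (pm l q).coeff k = l (q.coeff k) := rfl

theorem pm_ext {x y : PolynomialModule R A} (h : ∀ k, x.coeff k = y.coeff k) : x = y :=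
  PolynomialModule.coeff_injective (Finsupp.ext h)

/-- the equivalence of polynomial modules -/
def pe (l : A ≃ₗ[R] B) : PolynomialModule R A ≃ₗ[R[X]] PolynomialModule R B where
  toFun := pm l.toLinearMap
  map_add' := map_add _
  map_smul' p q := (pm l.toLinearMap).map_smul p q
  invFun := pm l.symm.toLinearMap
  left_inv q := pm_ext fun k => by
    rw [pm_coeff, pm_coeff]
    exact l.symm_apply_apply _
  right_inv q := pm_ext fun k => by
    rw [pm_coeff, pm_coeff]
    exact l.apply_symm_apply _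

theorem pe_coeff (l : A ≃ₗ[R] B) (q : PolynomialModule R A) (k : ℕ) :
    (pe l q).coeff k = l (q.coeff k) := rfl

theorem cX_single (e : Dg) (c : Dg → A →+ A) (a : Dg) (j : ℕ) (m : A) :
    cX (R := R) e c a (PolynomialModule.single R j m) =
      PolynomialModule.single R j (c (a - j • e) m) := by
  unfold cX
  rw [AddMonoidHom.comp_apply, AddMonoidHom.comp_apply]
  have h1 : ((PolynomialModule.coeffAddEquiv (R := R) (M := A)).toAddMonoidHom
      (PolynomialModule.single R j m)) = Finsupp.single j m := rfl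
  rw [h1, Finsupp.liftAddHom_apply_single]
  rfl

theorem cX_coeff (e : Dg) (c : Dg → A →+ A) (a : Dg) (u : PolynomialModule R A) (k : ℕ) :
    (cX (R := R) e c a u).coeff k = c (a - k • e) (u.coeff k) := by
  induction u using PolynomialModule.induction_linear with
  | zero => simp
  | add p q hp hq =>
    rw [map_add, PolynomialModule.coeff_add, Finsupp.add_apply, hp, hq, PolynomialModule.coeff_add,
      Finsupp.add_apply, map_add]
  | single j m =>
    rw [cX_single, PolynomialModule.coeff_single, PolynomialModule.coeff_single]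
    by_cases h : j = k
    · subst h
      rw [Finsupp.single_eq_same, Finsupp.single_eq_same]
    · rw [Finsupp.single_eq_of_ne (Ne.symm h), Finsupp.single_eq_of_ne (Ne.symm h), map_zero]

end gen

/-- `Ex` preserves graded isomorphisms -/
theorem GIso.ex {n : ℕ} {N N' : GM n} (h : GIso N N') (p : Ix n) : GIso (GM.ex p N) (GM.ex p N') := by
  obtain ⟨E, hE⟩ := h
  show ∃ E : (Ex p N.M) ≃ₗ[Po (Ix n)] (Ex p N'.M), ∀ (a : Dg) (m : Ex p N.M),
    E (cE p N.c a m) = cE p N'.c a (E m)
  refine ⟨Res.equiv (nu p) (pe E), fun a m => ?_⟩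
  refine pm_ext (R := Po (Ix n)) (A := N'.M) fun k => ?_
  show (pe E (cX (R := Po (Ix n)) (dg p) N.c a m.val)).coeff k =
    (cX (R := Po (Ix n)) (dg p) N'.c a (pe E m.val)).coeff k
  rw [pe_coeff, cX_coeff, cX_coeff, pe_coeff, hE]

/-! ## The ring homomorphisms -/

section ring

variable {σ : Type} [DecidableEq σ]

theorem nu_X (i j : σ) : nu i (MvPolynomial.X j : Po σ) =
    if j = i then (X : (Po σ)[X]) else C (MvPolynomial.X j) := by
  unfold nu
  exact MvPolynomial.aeval_X _ _

theorem nu_C (i : σ) (z : ℂ) : nu i (MvPolynomial.C z : Po σ) = C (MvPolynomial.C z) := by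
  unfold nu
  exact MvPolynomial.aeval_C _ _

theorem gz_X (i : σ) (z : ℂ) (j : σ) : gz i z (MvPolynomial.X j : Po σ) =
    if j = i then MvPolynomial.C z * MvPolynomial.X j else MvPolynomial.X j := by
  unfold gz
  exact MvPolynomial.aeval_X _ _

theorem gz_C (i : σ) (z w : ℂ) : gz i z (MvPolynomial.C w : Po σ) = MvPolynomial.C w := by
  unfold gz
  exact MvPolynomial.aeval_C _ _

omit [DecidableEq σ] in
theorem hom_ext {T : Type} [CommRing T] {f g : Po σ →+* T}
    (h1 : ∀ z : ℂ, f (MvPolynomial.C z) = g (MvPolynomial.C z))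
    (h2 : ∀ j : σ, f (MvPolynomial.X j) = g (MvPolynomial.X j)) (r : Po σ) : f r = g r :=
  RingHom.congr_fun (MvPolynomial.ringHom_ext h1 h2) r

/-- `X ↦ X_i` and the coefficients at `X_i = 0` -/
def rh (i : σ) : (Po σ)[X] →+* Po σ := Polynomial.eval₂RingHom (gz i 0) (MvPolynomial.X i)

theorem rh_nu (i : σ) (r : Po σ) : rh i (nu i r) = r := by
  have h := hom_ext (f := (rh i).comp (nu i)) (g := RingHom.id (Po σ)) ?_ ?_ r
  · exact h
  · intro z
    rw [RingHom.comp_apply, nu_C, RingHom.id_apply, rh, Polynomial.coe_eval₂RingHom,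
      Polynomial.eval₂_C, gz_C]
  · intro j
    rw [RingHom.comp_apply, nu_X, RingHom.id_apply, rh, Polynomial.coe_eval₂RingHom]
    by_cases h : j = i
    · rw [if_pos h, Polynomial.eval₂_X, h]
    · rw [if_neg h, Polynomial.eval₂_C, gz_X, if_neg h]

theorem eval_nu (i : σ) (z : ℂ) (r : Po σ) :
    (nu i r).eval (MvPolynomial.C z * MvPolynomial.X i) = gz i z r := by
  have h := hom_ext (f := (Polynomial.evalRingHom (MvPolynomial.C z * MvPolynomial.X i : Po σ)).comp
    (nu i)) (g := gz i z) ?_ ?_ r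
  · exact h
  · intro w
    rw [RingHom.comp_apply, nu_C, Polynomial.coe_evalRingHom, Polynomial.eval_C, gz_C]
  · intro j
    rw [RingHom.comp_apply, nu_X, Polynomial.coe_evalRingHom]
    by_cases h : j = i
    · rw [if_pos h, Polynomial.eval_X, gz_X, if_pos h, h]
    · rw [if_neg h, Polynomial.eval_C, gz_X, if_neg h]

theorem gz_NI {i : σ} {r : Po σ} (h : NI i r) (z : ℂ) : gz i z r = r := by
  rw [← eval_nu, show nu i r = C r from h, Polynomial.eval_C]

theorem NI_gz (i : σ) (r : Po σ) : nu i (gz i 0 r) = C (gz i 0 r) := by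
  have h := hom_ext (f := (nu i).comp (gz i 0)) (g := (C : Po σ →+* (Po σ)[X]).comp (gz i 0)) ?_ ?_ r
  · exact h
  · intro w
    rw [RingHom.comp_apply, RingHom.comp_apply, gz_C, nu_C]
  · intro j
    rw [RingHom.comp_apply, RingHom.comp_apply, gz_X]
    by_cases h : j = i
    · rw [if_pos h, MvPolynomial.C_0, zero_mul, map_zero, map_zero]
    · rw [if_neg h, nu_X, if_neg h]

end ring

/-! ## Cyclic graded modules -/

theorem cP_monomial (n : ℕ) (a : Dg) (s : Ix n →₀ ℕ) (z : ℂ) :
    cP n a (MvPolynomial.monomial s z : Po (Ix n)) =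
      if Finsupp.weight (dg (n := n)) s = a then MvPolynomial.monomial s z else 0 := by
  have h := MvPolynomial.weightedHomogeneousComponent_of_mem (w := dg (n := n)) (m := a)
    (MvPolynomial.isWeightedHomogeneous_monomial (R := ℂ) (dg (n := n)) s z rfl)
  show MvPolynomial.weightedHomogeneousComponent (R := ℂ) (dg (n := n)) a _ = _
  rw [h]
  by_cases h2 : Finsupp.weight (dg (n := n)) s = a
  · rw [if_pos h2, if_pos h2.symm]
  · rw [if_neg h2, if_neg (Ne.symm h2)]

/-- the grading on a cyclic submodule -/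
theorem cycg {n : ℕ} (hH : ∀ (r : Po (Ix n)) (e : Dg),
      MvPolynomial.IsWeightedHomogeneous (dg (n := n)) r e → Hg n r e)
    {M : Type} [AddCommGroup M] [Module (Po (Ix n)) M] {c : Dg → M →+ M} (hc : IsGr n c) {m₀ : M}
    {e₀ : Dg} (h0 : c e₀ m₀ = m₀) (a : Dg) (r : Po (Ix n)) :
    c (a + e₀) (r • m₀) = cP n a r • m₀ := by
  induction r using MvPolynomial.induction_on' with
  | monomial s z =>
    have hr := hH (MvPolynomial.monomial s z) (Finsupp.weight (dg (n := n)) s)
      (MvPolynomial.isWeightedHomogeneous_monomial (R := ℂ) (dg (n := n)) s z rfl) M c hc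
    rw [cP_monomial]
    by_cases h : Finsupp.weight (dg (n := n)) s = a
    · rw [if_pos h]
      have h1 := hr e₀ m₀
      rw [h, h0, add_comm e₀ a] at h1
      exact h1
    · rw [if_neg h, zero_smul]
      have h1 := hr (a + e₀ - Finsupp.weight (dg (n := n)) s) m₀
      rw [sub_add_cancel] at h1
      rw [h1]
      have h2 : c (a + e₀ - Finsupp.weight (dg (n := n)) s) m₀ = 0 := by
        rw [← h0]
        refine hc.orth _ _ _ fun h3 => h ?_
        have h4 : a + e₀ = e₀ + Finsupp.weight (dg (n := n)) s := sub_eq_iff_eq_add.1 h3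
        rw [add_comm e₀] at h4
        exact (add_right_cancel h4).symm
      rw [h2, smul_zero]
  | add p q hp hq =>
    rw [add_smul, map_add, hp, hq, map_add, add_smul]

/-! ## `Ex` of a cyclic module -/

section cyc

variable {n : ℕ} {y : Ix n} {B : Set (Po (Ix n))}

/-- the generator -/
def gn (y : Ix n) (J : Ideal (Po (Ix n))) : Ex y (Po (Ix n) ⧸ J) :=
  Res.mk (nu y) (PolynomialModule.single (Po (Ix n)) 0 (Ideal.Quotient.mk J 1))

theorem smul_gn_coeff (J : Ideal (Po (Ix n))) (r : Po (Ix n)) (k : ℕ) :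
    ((r • gn y J : Ex y (Po (Ix n) ⧸ J)).val : PolynomialModule (Po (Ix n)) (Po (Ix n) ⧸ J)).coeff k =
      Ideal.Quotient.mk J ((nu y r).coeff k) := by
  rw [Res.val_smul]
  show ((nu y r) • PolynomialModule.single (Po (Ix n)) 0 (Ideal.Quotient.mk J 1)).coeff k = _
  rw [PolynomialModule.smul_single_apply, if_pos (Nat.zero_le k), Nat.sub_zero]
  have h1 : (nu y r).coeff k • (Ideal.Quotient.mk J 1) =
      Ideal.Quotient.mk J ((nu y r).coeff k * 1) := rfl
  rw [h1, mul_one]

theorem smul_gn_eq_zero (J : Ideal (Po (Ix n))) (r : Po (Ix n)) :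
    (r • gn y J : Ex y (Po (Ix n) ⧸ J)) = 0 ↔ ∀ k, (nu y r).coeff k ∈ J := by
  constructor
  · intro h k
    rw [← Ideal.Quotient.eq_zero_iff_mem, ← smul_gn_coeff, h]
    rfl
  · intro h
    refine pm_ext (R := Po (Ix n)) (A := Po (Ix n) ⧸ J) fun k => ?_
    have h1 := smul_gn_coeff (y := y) J r k
    rw [Ideal.Quotient.eq_zero_iff_mem.2 (h k)] at h1
    exact h1

/-- the kernel of `r ↦ r • gn` -/
theorem ker_gn (hB : ∀ r ∈ B, NI y r) (r : Po (Ix n)) :
    (r • gn y (Ideal.span (insert (MvPolynomial.X y) B)) :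
      Ex y (Po (Ix n) ⧸ Ideal.span (insert (MvPolynomial.X y) B))) = 0 ↔ r ∈ Ideal.span B := by
  rw [smul_gn_eq_zero]
  constructor
  · intro h
    have hle : Ideal.span (insert (MvPolynomial.X y) B) ≤ (Ideal.span B).comap (gz y 0) := by
      rw [Ideal.span_le]
      rintro b (rfl | hb)
      · show gz y 0 (MvPolynomial.X y) ∈ Ideal.span B
        rw [gz_X, if_pos rfl, MvPolynomial.C_0, zero_mul]
        exact Ideal.zero_mem _
      · show gz y 0 b ∈ Ideal.span B
        rw [gz_NI (hB b hb)]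
        exact Ideal.subset_span hb
    rw [← rh_nu y r, rh, Polynomial.coe_eval₂RingHom, Polynomial.eval₂_eq_sum_range]
    refine Ideal.sum_mem _ fun k _ => Ideal.mul_mem_right _ _ ?_
    exact hle (h k)
  · intro h k
    have hle : Ideal.span B ≤ (Ideal.map (C : Po (Ix n) →+* (Po (Ix n))[X])
        (Ideal.span (insert (MvPolynomial.X y) B))).comap (nu y) := by
      rw [Ideal.span_le]
      intro b hb
      show nu y b ∈ Ideal.map (C : Po (Ix n) →+* (Po (Ix n))[X])
        (Ideal.span (insert (MvPolynomial.X y) B))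
      rw [show nu y b = C b from hB b hb]
      exact Ideal.mem_map_of_mem _ (Ideal.subset_span (Set.mem_insert_of_mem _ hb))
    exact Ideal.mem_map_C_iff.1 (hle h) k

/-- the generator generates -/
theorem gn_surj (B : Set (Po (Ix n))) (u : Ex y (Po (Ix n) ⧸ Ideal.span (insert (MvPolynomial.X y) B))) :
    ∃ r : Po (Ix n), r • gn y (Ideal.span (insert (MvPolynomial.X y) B)) = u := by
  have key : ∀ q : PolynomialModule (Po (Ix n)) (Po (Ix n) ⧸ Ideal.span (insert (MvPolynomial.X y) B)),
      ∃ r : Po (Ix n), r • gn y (Ideal.span (insert (MvPolynomial.X y) B)) = Res.mk (nu y) q := by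
    intro q
    induction q using PolynomialModule.induction_linear with
    | zero => exact ⟨0, zero_smul _ _⟩
    | add p q hp hq =>
      obtain ⟨r, hr⟩ := hp
      obtain ⟨s, hs⟩ := hq
      exact ⟨r + s, by rw [add_smul, hr, hs]; rfl⟩
    | single k t =>
      obtain ⟨s, rfl⟩ := Ideal.Quotient.mk_surjective t
      refine ⟨gz y 0 s * MvPolynomial.X y ^ k, ?_⟩
      refine pm_ext (R := Po (Ix n))
        (A := Po (Ix n) ⧸ Ideal.span (insert (MvPolynomial.X y) B)) fun j => ?_
      have h1 := smul_gn_coeff (y := y) (Ideal.span (insert (MvPolynomial.X y) B))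
        (gz y 0 s * MvPolynomial.X y ^ k) j
      refine h1.trans ?_
      rw [map_mul, map_pow, NI_gz, nu_X, if_pos rfl]
      show _ = ((PolynomialModule.single (Po (Ix n)) k (Ideal.Quotient.mk _ s)).coeff j)
      rw [PolynomialModule.coeff_single, Polynomial.coeff_C_mul, Polynomial.coeff_X_pow,
        Finsupp.single_apply]
      by_cases h : j = k
      · subst h
        rw [if_pos rfl, if_pos rfl, mul_one]
        have h2 := hom_ext (f := (Ideal.Quotient.mk (Ideal.span (insert (MvPolynomial.X y) B))).comp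
          (gz y 0)) (g := Ideal.Quotient.mk (Ideal.span (insert (MvPolynomial.X y) B))) ?_ ?_ s
        · exact h2
        · intro w
          rw [RingHom.comp_apply, gz_C]
        · intro i
          rw [RingHom.comp_apply, gz_X]
          by_cases hi : i = y
          · rw [if_pos hi, MvPolynomial.C_0, zero_mul, map_zero, hi]
            exact (Ideal.Quotient.eq_zero_iff_mem.2
              (Ideal.subset_span (Set.mem_insert _ _))).symm
          · rw [if_neg hi]
      · rw [if_neg h, if_neg (Ne.symm h), mul_zero, map_zero]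
  exact key u.val

/-- `Ex y (S / span (insert X_y B)) ≃ S / span B` -/
theorem GIso.cyc (hGa : S_Ga) (hGb : S_Gb) (hGi : S_Gi) (hB : ∀ r ∈ B, NI y r)
    (hh : ∀ r ∈ B, ∃ a : Dg, MvPolynomial.IsWeightedHomogeneous (dg (n := n)) r a) (e : Dg) :
    GIso ⟨Po (Ix n) ⧸ Ideal.span B, sh (cQ (cP n) (Ideal.span B)) e⟩
      (GM.ex y ⟨Po (Ix n) ⧸ Ideal.span (insert (MvPolynomial.X y) B),
        sh (cQ (cP n) (Ideal.span (insert (MvPolynomial.X y) B))) e⟩) := by
  obtain ⟨hHg, hcP, hA⟩ := hGi n
  have hh' : ∀ r ∈ insert (MvPolynomial.X y) B,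
      ∃ a : Dg, MvPolynomial.IsWeightedHomogeneous (dg (n := n)) r a := by
    rintro r (rfl | hr)
    · exact ⟨_, MvPolynomial.isWeightedHomogeneous_X ℂ _ y⟩
    · exact hh r hr
  obtain ⟨hst, hgr⟩ := hA B hh
  obtain ⟨hst', hgr'⟩ := hA _ hh'
  have hgr1 := (hGa n _ _ hgr').1 e
  have hgr2 := (hGb n _ _ hgr1).2.1 y
  have hq := ((hGa n _ _ hcP).2.1 _ hst).2.2.2
  have hq' := ((hGa n _ _ hcP).2.1 _ hst').2.2.2
  -- the degree of the generator
  have h1P : cP n 0 (1 : Po (Ix n)) = 1 := by
    have h := cP_monomial n 0 0 1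
    rw [map_zero, if_pos rfl] at h
    exact h
  have hdeg : cE y (sh (cQ (cP n) (Ideal.span (insert (MvPolynomial.X y) B))) e) (-e)
      (gn y (Ideal.span (insert (MvPolynomial.X y) B))) =
        gn y (Ideal.span (insert (MvPolynomial.X y) B)) := by
    show Res.mk (nu y) (cX (R := Po (Ix n)) (dg y)
      (sh (cQ (cP n) (Ideal.span (insert (MvPolynomial.X y) B))) e) (-e)
      (PolynomialModule.single (Po (Ix n)) 0 (Ideal.Quotient.mk _ 1))) = _
    rw [cX_single, zero_smul, sub_zero]
    have h2 : sh (cQ (cP n) (Ideal.span (insert (MvPolynomial.X y) B))) e (-e)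
        (Ideal.Quotient.mk (Ideal.span (insert (MvPolynomial.X y) B)) 1) =
          Ideal.Quotient.mk (Ideal.span (insert (MvPolynomial.X y) B)) 1 := by
      show cQ (cP n) (Ideal.span (insert (MvPolynomial.X y) B)) (-e + e) _ = _
      rw [neg_add_cancel]
      have h3 := hq' 0 1
      rw [h1P] at h3
      exact h3
    rw [h2]
    rfl
  -- the map
  let F : Po (Ix n) →ₗ[Po (Ix n)] Ex y (Po (Ix n) ⧸ Ideal.span (insert (MvPolynomial.X y) B)) :=
    LinearMap.toSpanSingleton _ _ (gn y (Ideal.span (insert (MvPolynomial.X y) B)))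
  have hF : ∀ r, F r = r • gn y (Ideal.span (insert (MvPolynomial.X y) B)) := fun r => rfl
  have hker : Ideal.span B = LinearMap.ker F := by
    ext r
    rw [LinearMap.mem_ker, hF, ker_gn hB]
  have hsur : Function.Surjective F := fun u => gn_surj B u
  show ∃ E : (Po (Ix n) ⧸ Ideal.span B) ≃ₗ[Po (Ix n)]
      (Ex y (Po (Ix n) ⧸ Ideal.span (insert (MvPolynomial.X y) B))),
    ∀ (a : Dg) (m : Po (Ix n) ⧸ Ideal.span B), E (sh (cQ (cP n) (Ideal.span B)) e a m) =
      cE y (sh (cQ (cP n) (Ideal.span (insert (MvPolynomial.X y) B))) e) a (E m)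
  let E0 : (Po (Ix n) ⧸ Ideal.span B) ≃ₗ[Po (Ix n)] (Po (Ix n) ⧸ LinearMap.ker F) :=
    Submodule.quotEquivOfEq (Ideal.span B) (LinearMap.ker F) hker
  refine ⟨E0.trans (F.quotKerEquivOfSurjective hsur), fun a m => ?_⟩
  obtain ⟨r, rfl⟩ := Submodule.Quotient.mk_surjective _ m
  have hE : ∀ s : Po (Ix n), (E0.trans (F.quotKerEquivOfSurjective hsur))
      (Submodule.Quotient.mk s) = F s := fun s => rfl
  have h4 : sh (cQ (cP n) (Ideal.span B)) e a (Submodule.Quotient.mk r) =
      Submodule.Quotient.mk (cP n (a + e) r) := hq (a + e) r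
  rw [h4, hE, hE, hF, hF]
  have h5 := cycg hHg hgr2 hdeg (a + e) r
  rw [add_neg_cancel_right] at h5
  exact h5.symm

end cyc

end Gec_aux

open Gec_aux in
/-- **Gec**: values on cyclic modules. -/
theorem tGec : S_Ga → S_Gb → S_Gi → S_Gu → S_Gec := by
  intro hGa hGb hGi hGu n i ys I₀ A V _ ψ e hnd hrow hA hI hh hIA
  have hhB : ∀ ys : List (Ix n), ∀ r ∈ Rw n i ys ∪ A,
      ∃ a : Dg, MvPolynomial.IsWeightedHomogeneous (dg (n := n)) r a := by
    rintro ys r (⟨p, -, -, rfl⟩ | hr)
    · exact ⟨_, MvPolynomial.isWeightedHomogeneous_X ℂ _ p⟩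
    · exact hh r hr
  have key : ∀ ys : List (Ix n), ys.Nodup → (∀ y ∈ ys, y.1 = i) →
      GIso ⟨Po (Ix n) ⧸ Ideal.span (Rw n i ys ∪ A), sh (cQ (cP n) (Ideal.span (Rw n i ys ∪ A))) e⟩
        (GM.exs ys ⟨Po (Ix n) ⧸ Ideal.span (Rw n i [] ∪ A),
          sh (cQ (cP n) (Ideal.span (Rw n i [] ∪ A))) e⟩) := by
    intro ys
    induction ys with
    | nil => intro _ _; exact GIso.refl _
    | cons y ys ih =>
      intro hnd hrow
      obtain ⟨hy, hnd'⟩ := List.nodup_cons.1 hnd
      have h1 := (ih hnd' fun z hz => hrow z (List.mem_cons_of_mem _ hz)).ex y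
      have hins : Rw n i ys ∪ A = insert (MvPolynomial.X y) (Rw n i (y :: ys) ∪ A) := by
        ext r
        constructor
        · rintro (⟨p, hp, hp2, rfl⟩ | hr)
          · by_cases h : p = y
            · left; rw [h]
            · right; left
              refine ⟨p, hp, fun hc => ?_, rfl⟩
              rcases List.mem_cons.1 hc with hc | hc
              · exact h hc
              · exact hp2 hc
          · right; right; exact hr
        · rintro (rfl | ⟨p, hp, hp2, rfl⟩ | hr)
          · left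
            exact ⟨y, hrow y (List.mem_cons_self ..), hy, rfl⟩
          · left
            exact ⟨p, hp, fun hc => hp2 (List.mem_cons_of_mem _ hc), rfl⟩
          · right; exact hr
      have hNI : ∀ r ∈ Rw n i (y :: ys) ∪ A, NI y r := by
        rintro r (⟨p, hp, hp2, rfl⟩ | hr)
        · show nu y (MvPolynomial.X p) = C (MvPolynomial.X p)
          rw [nu_X, if_neg]
          rintro rfl
          exact hp2 (List.mem_cons_self ..)
        · exact hA r hr y (hrow y (List.mem_cons_self ..))
      have h2 := GIso.cyc (y := y) hGa hGb hGi hNI (hhB (y :: ys)) e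
      rw [← hins] at h2
      exact h2.trans h1
  obtain ⟨E, hE⟩ := key ys hnd hrow
  obtain ⟨hst, hgr⟩ := (hGi n).2.2 _ (hhB ys)
  have hgr1 := (hGa n _ _ hgr).1 e
  have hfin : Module.Finite (Po (Ix n)) (Po (Ix n) ⧸ Ideal.span (Rw n i ys ∪ A)) := inferInstance
  have hkil : Kil (Rw n i ys ∪ I₀) (Po (Ix n) ⧸ Ideal.span (Rw n i ys ∪ A)) := by
    intro r hr m
    obtain ⟨s, rfl⟩ := Ideal.Quotient.mk_surjective m
    have h1 : r ∈ Ideal.span (Rw n i ys ∪ A) := by
      rcases hr with hr | hr
      · exact Ideal.subset_span (Or.inl hr)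
      · exact Ideal.span_mono Set.subset_union_right (hIA r hr)
    have h2 : r • Ideal.Quotient.mk (Ideal.span (Rw n i ys ∪ A)) s =
        Ideal.Quotient.mk (Ideal.span (Rw n i ys ∪ A)) (r * s) := rfl
    rw [h2, Ideal.Quotient.eq_zero_iff_mem]
    exact Ideal.mul_mem_right _ _ h1
  exact ((hGu n _ V ψ _ _ hgr1 hfin hkil).2.1 _ _ E hE).symm

end Pool.Agent.FY
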