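import Pool.Agent.Lib.MP_b53bfe_ag.Spec3
import Pool.Agent.Lib.MP_b53bfe_ag.Bas

/-!
# Theorem T2 (MP_b53bfe_ag): values on cyclic modules, `Th` (helper41)
-/

set_option autoImplicit false

noncomputable section

namespace Pool.Agent.FY

open Polynomial

namespace Get_aux

section alg

variable {σ : Type} [DecidableEq σ] (p : σ)

/-- `X_p ↦ 0` -/
def ev0 : Po σ →+* Po σ :=
  (MvPolynomial.aeval (fun j => if j = p then (0 : Po σ) else MvPolynomial.X j) :
    Po σ →ₐ[ℂ] Po σ).toRingHom

theorem nu_C (z : ℂ) : nu p (MvPolynomial.C z) = C (MvPolynomial.C z) := by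
  unfold nu
  rw [AlgHom.toRingHom_eq_coe, RingHom.coe_coe, MvPolynomial.aeval_C]
  rfl

theorem nu_X (j : σ) : nu p (MvPolynomial.X j) =
    if j = p then (X : (Po σ)[X]) else C (MvPolynomial.X j) := by
  unfold nu
  rw [AlgHom.toRingHom_eq_coe, RingHom.coe_coe, MvPolynomial.aeval_X]

theorem ev0_C (z : ℂ) : ev0 p (MvPolynomial.C z) = MvPolynomial.C z := by
  unfold ev0
  rw [AlgHom.toRingHom_eq_coe, RingHom.coe_coe, MvPolynomial.aeval_C]
  rfl

theorem ev0_X (j : σ) : ev0 p (MvPolynomial.X j) =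
    if j = p then (0 : Po σ) else MvPolynomial.X j := by
  unfold ev0
  rw [AlgHom.toRingHom_eq_coe, RingHom.coe_coe, MvPolynomial.aeval_X]

theorem eval_nu (s : Po σ) : (nu p s).eval 0 = ev0 p s := by
  have h : (Polynomial.evalRingHom (0 : Po σ)).comp (nu p) = ev0 p := by
    refine MvPolynomial.ringHom_ext (fun z => ?_) fun j => ?_
    · rw [RingHom.comp_apply, nu_C, ev0_C]
      exact Polynomial.eval_C
    · rw [RingHom.comp_apply, nu_X, ev0_X]
      split_ifs
      · exact Polynomial.eval_X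
      · exact Polynomial.eval_C
  exact RingHom.congr_fun h s

theorem ev0_NI {r : Po σ} (h : NI p r) : ev0 p r = r := by
  rw [← eval_nu]
  have h1 : nu p r = C r := h
  rw [h1, Polynomial.eval_C]

theorem NI_ev0 (s : Po σ) : nu p (ev0 p s) = C (ev0 p s) := by
  have h : (nu p).comp (ev0 p) = (C : Po σ →+* (Po σ)[X]).comp (ev0 p) := by
    refine MvPolynomial.ringHom_ext (fun z => ?_) fun j => ?_
    · rw [RingHom.comp_apply, RingHom.comp_apply, ev0_C, nu_C]
    · rw [RingHom.comp_apply, RingHom.comp_apply, ev0_X]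
      split_ifs with h
      · rw [map_zero, map_zero]
      · rw [nu_X, if_neg h]
  exact RingHom.congr_fun h s

theorem sub_ev0 (s : Po σ) : s - ev0 p s ∈ Ideal.span {(MvPolynomial.X p : Po σ)} := by
  rw [← Ideal.Quotient.eq]
  have h : Ideal.Quotient.mk (Ideal.span {(MvPolynomial.X p : Po σ)}) =
      (Ideal.Quotient.mk (Ideal.span {(MvPolynomial.X p : Po σ)})).comp (ev0 p) := by
    refine MvPolynomial.ringHom_ext (fun z => ?_) fun j => ?_
    · rw [RingHom.comp_apply, ev0_C]
    · rw [RingHom.comp_apply, ev0_X]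
      split_ifs with h
      · rw [h, map_zero, Ideal.Quotient.eq_zero_iff_mem]
        exact Ideal.mem_span_singleton_self _
      · rfl
  exact RingHom.congr_fun h s

theorem rec_nu (s : Po σ) : (nu p s).eval₂ (ev0 p) (MvPolynomial.X p) = s := by
  have h : (Polynomial.eval₂RingHom (ev0 p) (MvPolynomial.X p)).comp (nu p) = RingHom.id _ := by
    refine MvPolynomial.ringHom_ext (fun z => ?_) fun j => ?_
    · rw [RingHom.comp_apply, nu_C, RingHom.id_apply, Polynomial.coe_eval₂RingHom,
        Polynomial.eval₂_C, ev0_C]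
    · rw [RingHom.comp_apply, nu_X, RingHom.id_apply, Polynomial.coe_eval₂RingHom]
      split_ifs with h
      · rw [Polynomial.eval₂_X, h]
      · rw [Polynomial.eval₂_C, ev0_X, if_neg h]
  exact RingHom.congr_fun h s

end alg

section iso

variable {σ : Type} [DecidableEq σ] (p : σ) (d : ℕ) (g : Po σ) (A : Set (Po σ))

/-- the ideal of the cyclic module `S / (X_p, A)` -/
abbrev JA : Ideal (Po σ) := Ideal.span (insert (MvPolynomial.X p) A)

/-- the ideal of the cyclic module `S / (X_p ^ d + g, A)` -/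
abbrev JB : Ideal (Po σ) := Ideal.span (insert (MvPolynomial.X p ^ d + g) A)

variable {p d g A}

theorem smul_mk (J : Ideal (Po σ)) (r s : Po σ) :
    r • (Ideal.Quotient.mk J s) = Ideal.Quotient.mk J (r * s) := rfl

theorem mk_eq_ev0 (s : Po σ) :
    (Ideal.Quotient.mk (JA p A) s) = Ideal.Quotient.mk (JA p A) (ev0 p s) := by
  rw [Ideal.Quotient.eq]
  refine (Ideal.span_mono ?_) (sub_ev0 p s)
  rintro x rfl
  exact Or.inl rfl

/-- `S / (X_p, A) → S / (X_p ^ d + g, A)` -/
def bar (hA : ∀ r ∈ A, NI p r) : (Po σ ⧸ JA p A) →+* (Po σ ⧸ JB p d g A) :=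
  Ideal.Quotient.lift (JA p A) ((Ideal.Quotient.mk (JB p d g A)).comp (ev0 p)) (by
    have h : JA p A ≤ RingHom.ker ((Ideal.Quotient.mk (JB p d g A)).comp (ev0 p)) := by
      refine Ideal.span_le.2 ?_
      rintro x (rfl | hx)
      · rw [SetLike.mem_coe, RingHom.mem_ker, RingHom.comp_apply, ev0_X, if_pos rfl, map_zero]
      · rw [SetLike.mem_coe, RingHom.mem_ker, RingHom.comp_apply, ev0_NI p (hA x hx),
          Ideal.Quotient.eq_zero_iff_mem]
        exact Ideal.subset_span (Or.inr hx)
    exact fun a ha => h ha)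

theorem bar_mk (hA : ∀ r ∈ A, NI p r) (s : Po σ) :
    bar (d := d) (g := g) hA (Ideal.Quotient.mk (JA p A) s) =
      Ideal.Quotient.mk (JB p d g A) (ev0 p s) := rfl

/-- `∑ q_k X ^ k ↦ ∑ q_k X_p ^ k` -/
def Ps (hA : ∀ r ∈ A, NI p r) : PolynomialModule (Po σ) (Po σ ⧸ JA p A) →+ (Po σ ⧸ JB p d g A) :=
  (Finsupp.liftAddHom fun k : ℕ =>
    (AddMonoidHom.mulRight (Ideal.Quotient.mk (JB p d g A) (MvPolynomial.X p) ^ k)).comp
      (bar (d := d) (g := g) hA).toAddMonoidHom).comp
      (PolynomialModule.coeffAddEquiv (R := Po σ) (M := Po σ ⧸ JA p A)).toAddMonoidHom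

theorem Ps_single (hA : ∀ r ∈ A, NI p r) (k : ℕ) (q : Po σ ⧸ JA p A) :
    Ps (d := d) (g := g) hA (PolynomialModule.single (Po σ) k q) =
      bar (d := d) (g := g) hA q * Ideal.Quotient.mk (JB p d g A) (MvPolynomial.X p) ^ k := by
  unfold Ps
  rw [AddMonoidHom.comp_apply]
  show Finsupp.liftAddHom _ (Finsupp.single k q) = _
  rw [Finsupp.liftAddHom_apply_single]
  rfl

theorem C_add_smul_single {M : Type} [AddCommGroup M] [Module (Po σ) M] (k : ℕ) (q : M) :
    (X ^ d + C g : (Po σ)[X]) • PolynomialModule.single (Po σ) k q =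
      PolynomialModule.single (Po σ) (d + k) q + PolynomialModule.single (Po σ) k (g • q) := by
  have e1 : (X ^ d : (Po σ)[X]) = monomial d 1 := by rw [← Polynomial.monomial_one_right_eq_X_pow]
  have e2 : (C g : (Po σ)[X]) = monomial 0 g := rfl
  rw [add_smul, e1, e2, PolynomialModule.monomial_smul_single,
    PolynomialModule.monomial_smul_single, one_smul, zero_add]

theorem Ps_kill (hA : ∀ r ∈ A, NI p r) (hg : NI p g)
    (q : PolynomialModule (Po σ) (Po σ ⧸ JA p A)) :
    Ps (d := d) (g := g) hA ((X ^ d + C g : (Po σ)[X]) • q) = 0 := by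
  induction q using PolynomialModule.induction_linear with
  | zero => rw [smul_zero, map_zero]
  | add x y hx hy => rw [smul_add, map_add, hx, hy, add_zero]
  | single k q =>
    obtain ⟨s, rfl⟩ := Ideal.Quotient.mk_surjective q
    rw [C_add_smul_single, map_add, Ps_single, Ps_single, smul_mk, bar_mk, bar_mk, map_mul,
      ev0_NI p hg, map_mul, pow_add]
    have h : Ideal.Quotient.mk (JB p d g A) (MvPolynomial.X p) ^ d +
        Ideal.Quotient.mk (JB p d g A) g = 0 := by
      rw [← map_pow, ← map_add, Ideal.Quotient.eq_zero_iff_mem]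
      exact Ideal.subset_span (Or.inl rfl)
    linear_combination (Ideal.Quotient.mk (JB p d g A) (ev0 p s) *
      Ideal.Quotient.mk (JB p d g A) (MvPolynomial.X p) ^ k) * h

theorem Ps_smul_one (hA : ∀ r ∈ A, NI p r) (f : (Po σ)[X]) :
    Ps (d := d) (g := g) hA (f • PolynomialModule.single (Po σ) 0 1) =
      Ideal.Quotient.mk (JB p d g A) (f.eval₂ (ev0 p) (MvPolynomial.X p)) := by
  induction f using Polynomial.induction_on' with
  | add a b ha hb => rw [add_smul, map_add, ha, hb, Polynomial.eval₂_add, map_add]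
  | monomial k r =>
    rw [PolynomialModule.monomial_smul_single, Ps_single, Polynomial.eval₂_monomial, map_mul,
      map_pow, add_zero]
    congr 1
    have h5 : r • (1 : Po σ ⧸ JA p A) = Ideal.Quotient.mk (JA p A) (r * 1) := rfl
    rw [h5, mul_one, bar_mk]

/-- the generator of `Th p d g (S / (X_p, A))` -/
def uu0 (p : σ) (d : ℕ) (g : Po σ) (A : Set (Po σ)) : Th p d g (Po σ ⧸ JA p A) :=
  Res.mk (nu p) (Submodule.Quotient.mk (PolynomialModule.single (Po σ) 0 1))

theorem smul_uu0 (s : Po σ) : s • uu0 p d g A =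
    Res.mk (nu p) (Submodule.Quotient.mk (nu p s • PolynomialModule.single (Po σ) 0 1)) := rfl

theorem smul_uu0_eq_zero (hA : ∀ r ∈ A, NI p r) (hg : NI p g) {s : Po σ} :
    s • uu0 p d g A = 0 ↔ s ∈ JB p d g A := by
  constructor
  · intro h
    rw [smul_uu0] at h
    have h1 : (Submodule.Quotient.mk (nu p s • PolynomialModule.single (Po σ) 0
        (1 : Po σ ⧸ JA p A)) : PolynomialModule (Po σ) (Po σ ⧸ JA p A) ⧸
        LinearMap.range (mg (PolynomialModule (Po σ) (Po σ ⧸ JA p A))
          (X ^ d + C g : (Po σ)[X]))) = 0 := h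
    rw [Submodule.Quotient.mk_eq_zero] at h1
    obtain ⟨q, hq⟩ := h1
    have h2 := Ps_kill (d := d) hA hg q
    have h3 : (X ^ d + C g : (Po σ)[X]) • q = nu p s • PolynomialModule.single (Po σ) 0
        (1 : Po σ ⧸ JA p A) := hq
    rw [h3, Ps_smul_one, rec_nu, Ideal.Quotient.eq_zero_iff_mem] at h2
    exact h2
  · intro h
    have key : JB p d g A ≤ LinearMap.ker (LinearMap.toSpanSingleton (Po σ) _ (uu0 p d g A)) := by
      refine Submodule.span_le.2 ?_
      rintro x (rfl | hx)
      · rw [SetLike.mem_coe, LinearMap.mem_ker, LinearMap.toSpanSingleton_apply, smul_uu0]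
        have h1 : nu p (MvPolynomial.X p ^ d + g) = (X ^ d + C g : (Po σ)[X]) := by
          rw [map_add, map_pow, nu_X, if_pos rfl]
          congr 1
        rw [h1]
        have h2 : (Submodule.Quotient.mk ((X ^ d + C g : (Po σ)[X]) •
            PolynomialModule.single (Po σ) 0 (1 : Po σ ⧸ JA p A)) :
            PolynomialModule (Po σ) (Po σ ⧸ JA p A) ⧸
            LinearMap.range (mg (PolynomialModule (Po σ) (Po σ ⧸ JA p A))
              (X ^ d + C g : (Po σ)[X]))) = 0 := by
          rw [Submodule.Quotient.mk_eq_zero]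
          exact ⟨_, rfl⟩
        exact h2
      · rw [SetLike.mem_coe, LinearMap.mem_ker, LinearMap.toSpanSingleton_apply, smul_uu0]
        have h1 : nu p x = C x := hA x hx
        have h3 : (C x : (Po σ)[X]) = monomial 0 x := rfl
        have h4 : x • (1 : Po σ ⧸ JA p A) = 0 := by
          have h5 : x • (1 : Po σ ⧸ JA p A) = Ideal.Quotient.mk (JA p A) (x * 1) := rfl
          rw [h5, mul_one, Ideal.Quotient.eq_zero_iff_mem]
          exact Ideal.subset_span (Or.inr hx)
        rw [h1, h3, PolynomialModule.monomial_smul_single, h4, PolynomialModule.single_zero]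
        rfl
    exact key h

theorem uu0_surj : Function.Surjective
    (LinearMap.toSpanSingleton (Po σ) (Th p d g (Po σ ⧸ JA p A)) (uu0 p d g A)) := by
  rw [← LinearMap.range_eq_top, eq_top_iff]
  intro z _
  have h1 : ∀ x : PolynomialModule (Po σ) (Po σ ⧸ JA p A),
      (Res.mk (nu p) (Submodule.Quotient.mk x) : Th p d g (Po σ ⧸ JA p A)) ∈
        LinearMap.range (LinearMap.toSpanSingleton (Po σ) _ (uu0 p d g A)) := by
    intro x
    induction x using PolynomialModule.induction_linear with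
    | zero => exact Submodule.zero_mem _
    | add x y hx hy => exact Submodule.add_mem _ hx hy
    | single k q =>
      obtain ⟨s, rfl⟩ := Ideal.Quotient.mk_surjective q
      refine ⟨ev0 p s * MvPolynomial.X p ^ k, ?_⟩
      rw [LinearMap.toSpanSingleton_apply, smul_uu0]
      have h2 : nu p (ev0 p s * MvPolynomial.X p ^ k) = monomial k (ev0 p s) := by
        rw [map_mul, NI_ev0, map_pow, nu_X, if_pos rfl, Polynomial.C_mul_X_pow_eq_monomial]
      have h3 : ev0 p s • (1 : Po σ ⧸ JA p A) = Ideal.Quotient.mk (JA p A) s := by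
        have h5 : ev0 p s • (1 : Po σ ⧸ JA p A) = Ideal.Quotient.mk (JA p A) (ev0 p s * 1) := rfl
        rw [h5, mul_one, ← mk_eq_ev0]
      rw [h2, PolynomialModule.monomial_smul_single, h3, add_zero]
  obtain ⟨x, hx⟩ := Submodule.Quotient.mk_surjective _ z.val
  have h2 := h1 x
  rw [hx] at h2
  exact h2

/-- `S / (X_p ^ d + g, A) ≃ Th p d g (S / (X_p, A))` -/
def eqv (hA : ∀ r ∈ A, NI p r) (hg : NI p g) :
    (Po σ ⧸ JB p d g A) ≃ₗ[Po σ] Th p d g (Po σ ⧸ JA p A) :=
  LinearEquiv.ofBijective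
    (Submodule.liftQ (JB p d g A) (LinearMap.toSpanSingleton (Po σ) _ (uu0 p d g A))
      (fun s hs => (smul_uu0_eq_zero hA hg).2 hs)) (by
    constructor
    · rw [injective_iff_map_eq_zero]
      intro m hm
      obtain ⟨s, rfl⟩ := Submodule.Quotient.mk_surjective _ m
      have hm' : s • uu0 p d g A = 0 := hm
      exact (Submodule.Quotient.mk_eq_zero _).2 ((smul_uu0_eq_zero hA hg).1 hm')
    · intro z
      obtain ⟨s, hs⟩ := uu0_surj (p := p) (d := d) (g := g) (A := A) z
      exact ⟨Submodule.Quotient.mk s, hs⟩)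

theorem eqv_mk (hA : ∀ r ∈ A, NI p r) (hg : NI p g) (s : Po σ) :
    eqv (d := d) hA hg (Submodule.Quotient.mk s) = s • uu0 p d g A := rfl

end iso

end Get_aux

open Get_aux in
theorem tGet : S_Ga → S_Gb → S_Gi → S_Gu → S_Get := by
  intro hGa hGb hGi hGu n p d g I₀ A V _ χ e hd hNI hgH hA hAh hgh hI
  obtain ⟨hGi1, hGi2, hGi3⟩ := hGi n
  -- the two ideals
  have hJA : ∀ r ∈ insert (MvPolynomial.X p) A,
      ∃ a : Dg, MvPolynomial.IsWeightedHomogeneous (dg (n := n)) r a := by
    rintro r (rfl | hr)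
    · exact ⟨dg p, MvPolynomial.isWeightedHomogeneous_X _ _ _⟩
    · exact hAh r hr
  have hJB : ∀ r ∈ insert (MvPolynomial.X p ^ d + g) A,
      ∃ a : Dg, MvPolynomial.IsWeightedHomogeneous (dg (n := n)) r a := by
    rintro r (rfl | hr)
    · exact ⟨d • dg p, ((MvPolynomial.isWeightedHomogeneous_X ℂ (dg (n := n)) p).pow d).add hgh⟩
    · exact hAh r hr
  obtain ⟨sA, gA⟩ := hGi3 _ hJA
  obtain ⟨sB, gB⟩ := hGi3 _ hJB
  have gA' := (hGa n _ _ gA).1 e
  have gB' := (hGa n _ _ gB).1 e
  obtain ⟨gT, fT⟩ := (hGb n _ _ gA').2.2 p d g hgH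
  have qA := (((hGa n _ _ hGi2).2.1 _ sA).2.2).2
  have qB := (((hGa n _ _ hGi2).2.1 _ sB).2.2).2
  have hkil : Kil (insert (MvPolynomial.X p ^ d + g) I₀)
      (Po (Ix n) ⧸ Ideal.span (insert (MvPolynomial.X p ^ d + g) A)) := by
    intro r hr m
    obtain ⟨s, rfl⟩ := Ideal.Quotient.mk_surjective m
    rw [smul_mk, Ideal.Quotient.eq_zero_iff_mem]
    refine Ideal.mul_mem_right _ _ ?_
    rcases hr with rfl | hr
    · exact Ideal.subset_span (Or.inl rfl)
    · exact (Ideal.span_mono (Set.subset_insert _ _)) (hI r hr)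
  refine ((hGu n _ V χ _ (sh (cQ (cP n) (Ideal.span (insert (MvPolynomial.X p ^ d + g) A))) e) gB'
    inferInstance hkil).2.1 _ (cT p d g (sh (cQ (cP n)
      (Ideal.span (insert (MvPolynomial.X p) A))) e)) (eqv (d := d) hA hNI) ?_).symm
  -- compatibility with the gradings
  have hcP : ∀ (a b : Dg) (s : Po (Ix n)), MvPolynomial.IsWeightedHomogeneous (dg (n := n)) s b →
      cP n a s = if a = b then s else 0 := by
    intro a b s hs
    exact MvPolynomial.weightedHomogeneousComponent_of_mem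
      ((MvPolynomial.mem_weightedHomogeneousSubmodule ℂ _ _ _).2 hs)
  have hu : ∀ a : Dg, cT p d g (sh (cQ (cP n) (Ideal.span (insert (MvPolynomial.X p) A))) e) a
      (uu0 p d g A) = if a + e = 0 then uu0 p d g A else 0 := by
    intro a
    have h1 := fT a (PolynomialModule.single (Po (Ix n)) 0 1)
    refine h1.trans ?_
    have h2 : cX (R := Po (Ix n)) (dg p) (sh (cQ (cP n)
        (Ideal.span (insert (MvPolynomial.X p) A))) e) a (PolynomialModule.single (Po (Ix n)) 0 1) =
        PolynomialModule.single (Po (Ix n)) 0 (cQ (cP n)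
          (Ideal.span (insert (MvPolynomial.X p) A)) (a + e) 1) := by
      unfold cX
      rw [AddMonoidHom.comp_apply, AddMonoidHom.comp_apply]
      show PolynomialModule.coeffAddEquiv.symm (Finsupp.liftAddHom _ (Finsupp.single 0 1)) = _
      rw [Finsupp.liftAddHom_apply_single, AddMonoidHom.comp_apply]
      have h3 : a - 0 • dg p = a := by rw [zero_smul, sub_zero]
      rw [h3]
      rfl
    have h4 : cQ (cP n) (Ideal.span (insert (MvPolynomial.X p) A)) (a + e) 1 =
        if a + e = 0 then 1 else 0 := by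
      have h5 := qA (a + e) 1
      have h6 := hcP (a + e) 0 1 (MvPolynomial.isWeightedHomogeneous_one ℂ (dg (n := n)))
      rw [h6] at h5
      refine h5.trans ?_
      split_ifs
      · rfl
      · rfl
    rw [h2, h4]
    split_ifs
    · rfl
    · rw [PolynomialModule.single_zero]
      rfl
  intro a m
  obtain ⟨s, rfl⟩ := Submodule.Quotient.mk_surjective _ m
  show eqv (d := d) hA hNI (cQ (cP n) (Ideal.span (insert (MvPolynomial.X p ^ d + g) A)) (a + e)
    (Submodule.Quotient.mk s)) = _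
  rw [qB, eqv_mk, eqv_mk]
  induction s using MvPolynomial.induction_on' with
  | add x y hx hy => rw [map_add, add_smul, hx, hy, add_smul, map_add]
  | monomial v z =>
    have h1 := MvPolynomial.isWeightedHomogeneous_monomial (dg (n := n)) v z rfl
    have h2 := hGi1 _ _ h1 _ _ gT (a - Finsupp.weight (dg (n := n)) v) (uu0 p d g A)
    rw [sub_add_cancel, hu] at h2
    rw [hcP _ _ _ h1, h2]
    by_cases h3 : a + e = Finsupp.weight (dg (n := n)) v
    · rw [if_pos h3, if_pos (by rw [← h3]; abel)]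
    · rw [if_neg h3, if_neg (fun h => h3 (by rw [← sub_eq_zero, ← h]; abel)), zero_smul, smul_zero]

end Pool.Agent.FY
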