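import Pool.Agent.Lib.MP_b53bfe_ag.Spec3
import Pool.Agent.Lib.MP_b53bfe_ag.Bas

/-!
# Theorem T2 (MP_b53bfe_ag): the graded fibre functional (snake lemma)
-/

set_option autoImplicit false

noncomputable section

namespace Pool.Agent.FY

open Polynomial

namespace Gf_aux

variable {n : ℕ} {I : Set (Po (Ix n))} {V : Type 1} [AddCommGroup V]

/-- images of graded maps are stable -/
theorem stb_range {A B : Type} [AddCommGroup A] [Module (Po (Ix n)) A] [AddCommGroup B]
    [Module (Po (Ix n)) B] {a : Dg → A →+ A} {b : Dg → B →+ B} (u : A →ₗ[Po (Ix n)] B)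
    (hu : ∀ (e : Dg) (x : A), u (a e x) = b e (u x)) : Stb b (LinearMap.range u) := by
  rintro e _ ⟨x, rfl⟩
  exact ⟨a e x, hu e x⟩

/-- the value in the middle of an exact sequence -/
theorem tri (hGa : S_Ga) (χ : GFun n I V) {A B C : Type} [AddCommGroup A] [Module (Po (Ix n)) A]
    [AddCommGroup B] [Module (Po (Ix n)) B] [AddCommGroup C] [Module (Po (Ix n)) C]
    {a : Dg → A →+ A} {b : Dg → B →+ B} {c : Dg → C →+ C} (hb : IsGr n b) (hc : IsGr n c)
    (u : A →ₗ[Po (Ix n)] B) (v : B →ₗ[Po (Ix n)] C)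
    (gu : ∀ (e : Dg) (x : A), u (a e x) = b e (u x))
    (gv : ∀ (e : Dg) (x : B), v (b e x) = c e (v x)) (fB : Module.Finite (Po (Ix n)) B)
    (kB : Kil I B) (h : Function.Exact u v) :
    χ.f B b = χ.f (LinearMap.range u) (cS b (LinearMap.range u)) +
      χ.f (LinearMap.range v) (cS c (LinearMap.range v)) := by
  obtain ⟨h1, -, h2, -⟩ := (hGa n B b hb).2.1 _ (stb_range u gu)
  obtain ⟨h3, -, h4, -⟩ := (hGa n C c hc).2.1 _ (stb_range v gv)
  refine χ.add _ B _ (cS b (LinearMap.range u)) b (cS c (LinearMap.range v))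
    (LinearMap.range u).subtype v.rangeRestrict fB kB h1 hb h3 (fun e x => h2 e x)
    (fun e x => ?_) (Submodule.injective_subtype _) v.surjective_rangeRestrict ?_
  · apply Subtype.ext
    rw [h4]
    exact gv e x
  · intro y
    constructor
    · intro hy
      have h5 : v y = 0 := congrArg Subtype.val hy
      obtain ⟨z, hz⟩ := (h y).1 h5
      exact ⟨⟨y, z, hz⟩, rfl⟩
    · rintro ⟨⟨y', z, hz⟩, rfl⟩
      apply Subtype.ext
      show v y' = 0
      rw [← hz]
      exact (h (u z)).2 ⟨z, rfl⟩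

/-- the value on a submodule given by an injective map, and the cokernel -/
theorem left (hGa : S_Ga) (χ : GFun n I V) {A B C : Type} [AddCommGroup A] [Module (Po (Ix n)) A]
    [AddCommGroup B] [Module (Po (Ix n)) B] [AddCommGroup C] [Module (Po (Ix n)) C]
    {a : Dg → A →+ A} {b : Dg → B →+ B} {c : Dg → C →+ C} (ha : IsGr n a) (hb : IsGr n b)
    (hc : IsGr n c) (u : A →ₗ[Po (Ix n)] B) (v : B →ₗ[Po (Ix n)] C)
    (gu : ∀ (e : Dg) (x : A), u (a e x) = b e (u x))
    (gv : ∀ (e : Dg) (x : B), v (b e x) = c e (v x)) (fB : Module.Finite (Po (Ix n)) B)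
    (kB : Kil I B) (hu : Function.Injective u) (h : Function.Exact u v) :
    χ.f B b = χ.f A a + χ.f (LinearMap.range v) (cS c (LinearMap.range v)) := by
  obtain ⟨h3, -, h4, -⟩ := (hGa n C c hc).2.1 _ (stb_range v gv)
  refine χ.add A B _ a b (cS c (LinearMap.range v)) u v.rangeRestrict fB kB ha hb h3 gu
    (fun e x => ?_) hu v.surjective_rangeRestrict ?_
  · apply Subtype.ext
    rw [h4]
    exact gv e x
  · intro y
    constructor
    · intro hy
      exact (h y).1 (congrArg Subtype.val hy)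
    · intro hy
      exact Subtype.ext ((h y).2 hy)

/-- the value on the kernel of a surjective map -/
theorem right (hGa : S_Ga) (χ : GFun n I V) {A B C : Type} [AddCommGroup A]
    [Module (Po (Ix n)) A] [AddCommGroup B] [Module (Po (Ix n)) B] [AddCommGroup C]
    [Module (Po (Ix n)) C] {a : Dg → A →+ A} {b : Dg → B →+ B} {c : Dg → C →+ C}
    (hb : IsGr n b) (hc : IsGr n c) (u : A →ₗ[Po (Ix n)] B) (v : B →ₗ[Po (Ix n)] C)
    (gu : ∀ (e : Dg) (x : A), u (a e x) = b e (u x))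
    (gv : ∀ (e : Dg) (x : B), v (b e x) = c e (v x)) (fB : Module.Finite (Po (Ix n)) B)
    (kB : Kil I B) (hv : Function.Surjective v) (h : Function.Exact u v) :
    χ.f B b = χ.f (LinearMap.range u) (cS b (LinearMap.range u)) + χ.f C c := by
  obtain ⟨h1, -, h2, -⟩ := (hGa n B b hb).2.1 _ (stb_range u gu)
  refine χ.add _ B C (cS b (LinearMap.range u)) b c (LinearMap.range u).subtype v fB kB h1 hb hc
    (fun e x => h2 e x) gv (Submodule.injective_subtype _) hv ?_
  intro y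
  constructor
  · intro hy
    obtain ⟨z, hz⟩ := (h y).1 hy
    exact ⟨⟨y, z, hz⟩, rfl⟩
  · rintro ⟨⟨y', z, hz⟩, rfl⟩
    show v y' = 0
    rw [← hz]
    exact (h (u z)).2 ⟨z, rfl⟩

/-- the six term exact sequence -/
theorem six (hGa : S_Ga) (χ : GFun n I V) {K1 K2 K3 C1 C2 C3 : Type} [AddCommGroup K1]
    [Module (Po (Ix n)) K1] [AddCommGroup K2] [Module (Po (Ix n)) K2] [AddCommGroup K3]
    [Module (Po (Ix n)) K3] [AddCommGroup C1] [Module (Po (Ix n)) C1] [AddCommGroup C2]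
    [Module (Po (Ix n)) C2] [AddCommGroup C3] [Module (Po (Ix n)) C3]
    {k1 : Dg → K1 →+ K1} {k2 : Dg → K2 →+ K2} {k3 : Dg → K3 →+ K3} {c1 : Dg → C1 →+ C1}
    {c2 : Dg → C2 →+ C2} {c3 : Dg → C3 →+ C3} (gk1 : IsGr n k1) (gk2 : IsGr n k2)
    (gk3 : IsGr n k3) (gc1 : IsGr n c1) (gc2 : IsGr n c2) (gc3 : IsGr n c3)
    (u : K1 →ₗ[Po (Ix n)] K2) (v : K2 →ₗ[Po (Ix n)] K3) (w : K3 →ₗ[Po (Ix n)] C1)
    (x : C1 →ₗ[Po (Ix n)] C2) (y : C2 →ₗ[Po (Ix n)] C3)
    (gu : ∀ (e : Dg) (z : K1), u (k1 e z) = k2 e (u z))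
    (gv : ∀ (e : Dg) (z : K2), v (k2 e z) = k3 e (v z))
    (gw : ∀ (e : Dg) (z : K3), w (k3 e z) = c1 e (w z))
    (gx : ∀ (e : Dg) (z : C1), x (c1 e z) = c2 e (x z))
    (gy : ∀ (e : Dg) (z : C2), y (c2 e z) = c3 e (y z))
    (f2 : Module.Finite (Po (Ix n)) K2) (f3 : Module.Finite (Po (Ix n)) K3)
    (g1 : Module.Finite (Po (Ix n)) C1) (g2 : Module.Finite (Po (Ix n)) C2) (l2 : Kil I K2)
    (l3 : Kil I K3) (m1 : Kil I C1) (m2 : Kil I C2)
    (hu : Function.Injective u) (huv : Function.Exact u v) (hvw : Function.Exact v w)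
    (hwx : Function.Exact w x) (hxy : Function.Exact x y) (hy : Function.Surjective y) :
    χ.f C2 c2 - χ.f K2 k2 = (χ.f C1 c1 - χ.f K1 k1) + (χ.f C3 c3 - χ.f K3 k3) := by
  have e1 := left hGa χ gk1 gk2 gk3 u v gu gv f2 l2 hu huv
  have e2 := tri hGa χ gk3 gc1 v w gv gw f3 l3 hvw
  have e3 := tri hGa χ gc1 gc2 w x gw gx g1 m1 hwx
  have e4 := right hGa χ gc2 gc3 x y gx gy g2 m2 hy hxy
  rw [e1, e2, e3, e4]
  abel

/-- the fibre of a functional along a homogeneous element `x` of degree `e₀` -/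
theorem fibre (hGa : S_Ga) (x : Po (Ix n)) (e₀ : Dg) (hHg : Hg n x e₀)
    (φ : GFun n (insert x I) V) : ∃ φ' : GFun n I V,
      ∀ (M : Type) [AddCommGroup M] [Module (Po (Ix n)) M] (c : Dg → M →+ M),
        φ'.f M c = φ.f (M ⧸ LinearMap.range (mg M x)) (cQ c _) -
          φ.f (LinearMap.ker (mg M x)) (sh (cS c _) (-e₀)) := by
  refine ⟨{ f := fun M _ _ c => φ.f (M ⧸ LinearMap.range (mg M x)) (cQ c _) -
              φ.f (LinearMap.ker (mg M x)) (sh (cS c _) (-e₀)), add := ?_ },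
    fun M _ _ c => rfl⟩
  intro A B C _ _ _ _ _ _ a b c i q fB kB ha hb hc hi hq ii sq eq
  have fA : Module.Finite (Po (Ix n)) A := Module.Finite.of_injective i ii
  have fC : Module.Finite (Po (Ix n)) C := Module.Finite.of_surjective q sq
  have kA : Kil I A := Kil.inj ii kB
  have kC : Kil I C := Kil.surj sq kB
  obtain ⟨sA, tA⟩ := (hGa n A a ha).2.2 x _ hHg
  obtain ⟨sB, tB⟩ := (hGa n B b hb).2.2 x _ hHg
  obtain ⟨sC, tC⟩ := (hGa n C c hc).2.2 x _ hHg
  obtain ⟨-, qA, -, vA⟩ := (hGa n A a ha).2.1 _ sA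
  obtain ⟨-, qB, -, vB⟩ := (hGa n B b hb).2.1 _ sB
  obtain ⟨-, qC, -, vC⟩ := (hGa n C c hc).2.1 _ sC
  obtain ⟨rA, -, wA, -⟩ := (hGa n A a ha).2.1 _ tA
  obtain ⟨rB, -, wB, -⟩ := (hGa n B b hb).2.1 _ tB
  obtain ⟨rC, -, wC, -⟩ := (hGa n C c hc).2.1 _ tC
  have rA' := (hGa n _ _ rA).1 (-e₀)
  have rB' := (hGa n _ _ rB).1 (-e₀)
  have rC' := (hGa n _ _ rC).1 (-e₀)
  have h1 : ∀ z, i (mg A x z) = mg B x (i z) := fun z => map_smul i x z
  have h2 : ∀ z, q (mg B x z) = mg C x (q z) := fun z => map_smul q x z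
  have H1 : i.comp (mg A x) = (mg B x).comp i := LinearMap.ext h1
  have H2 : q.comp (mg B x) = (mg C x).comp q := LinearMap.ext h2
  have hu : ∀ z ∈ LinearMap.ker (mg A x), i z ∈ LinearMap.ker (mg B x) := by
    intro z hz
    rw [LinearMap.mem_ker] at hz ⊢
    rw [← h1, hz, map_zero]
  have hv : ∀ z ∈ LinearMap.ker (mg B x), q z ∈ LinearMap.ker (mg C x) := by
    intro z hz
    rw [LinearMap.mem_ker] at hz ⊢
    rw [← h2, hz, map_zero]
  have hX : LinearMap.range (mg A x) ≤ (LinearMap.range (mg B x)).comap i := by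
    rintro _ ⟨z, rfl⟩
    exact ⟨i z, (h1 z).symm⟩
  have hY : LinearMap.range (mg B x) ≤ (LinearMap.range (mg C x)).comap q := by
    rintro _ ⟨z, rfl⟩
    exact ⟨q z, (h2 z).symm⟩
  have hι3 : Function.Exact (LinearMap.ker (mg C x)).subtype (mg C x) :=
    LinearMap.exact_subtype_ker_map _
  have hι2 : Function.Exact (LinearMap.ker (mg B x)).subtype (mg B x) :=
    LinearMap.exact_subtype_ker_map _
  have hπ1 : Function.Exact (mg A x) (LinearMap.range (mg A x)).mkQ := LinearMap.exact_map_mkQ_range _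
  have hπ2 : Function.Exact (mg B x) (LinearMap.range (mg B x)).mkQ := LinearMap.exact_map_mkQ_range _
  -- conditions
  have kK : ∀ (M : Type) [AddCommGroup M] [Module (Po (Ix n)) M], Kil I M →
      Kil (insert x I) (LinearMap.ker (mg M x)) := by
    intro M _ _ hM
    refine Kil.insert.2 ⟨fun m => ?_, Kil.sub hM _⟩
    apply Subtype.ext
    exact m.2
  have kQ : ∀ (M : Type) [AddCommGroup M] [Module (Po (Ix n)) M], Kil I M →
      Kil (insert x I) (M ⧸ LinearMap.range (mg M x)) := by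
    intro M _ _ hM
    refine Kil.insert.2 ⟨fun m => ?_, Kil.quot hM _⟩
    obtain ⟨z, rfl⟩ := Submodule.mkQ_surjective _ m
    rw [← map_smul, Submodule.mkQ_apply, Submodule.Quotient.mk_eq_zero]
    exact ⟨z, rfl⟩
  refine six hGa φ rA' rB' rC' qA qB qC (i.restrict hu) (q.restrict hv)
    (SnakeLemma.δ' (mg A x) (mg B x) (mg C x) i q eq i q eq H1 H2
      (LinearMap.ker (mg C x)).subtype hι3 (LinearMap.range (mg A x)).mkQ hπ1 sq ii)
    (Submodule.mapQ _ _ i hX) (Submodule.mapQ _ _ q hY) ?_ ?_ ?_ ?_ ?_ inferInstance inferInstance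
    inferInstance inferInstance (kK B kB) (kK C kC) (kQ A kA) (kQ B kB) ?_ ?_ ?_ ?_ ?_ ?_
  · intro e z
    apply Subtype.ext
    show i ((cS a (LinearMap.ker (mg A x)) (e + -e₀) z : LinearMap.ker (mg A x)) : A) =
      ((cS b (LinearMap.ker (mg B x)) (e + -e₀) (i.restrict hu z) :
        LinearMap.ker (mg B x)) : B)
    rw [wA, wB]
    exact hi _ _
  · intro e z
    apply Subtype.ext
    show q ((cS b (LinearMap.ker (mg B x)) (e + -e₀) z : LinearMap.ker (mg B x)) : B) =
      ((cS c (LinearMap.ker (mg C x)) (e + -e₀) (q.restrict hv z) :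
        LinearMap.ker (mg C x)) : C)
    rw [wB, wC]
    exact hq _ _
  · -- the connecting map is graded
    intro e z
    obtain ⟨y, hy⟩ := sq (z : C)
    have hy0 : q (mg B x y) = 0 := by
      rw [h2, hy]
      exact z.2
    obtain ⟨t, ht⟩ := (eq _).1 hy0
    have d1 := SnakeLemma.δ'_eq (mg A x) (mg B x) (mg C x) i q eq i q eq H1 H2
      (LinearMap.ker (mg C x)).subtype hι3 (LinearMap.range (mg A x)).mkQ hπ1 sq ii z y hy t ht
    have d2 := SnakeLemma.δ'_eq (mg A x) (mg B x) (mg C x) i q eq i q eq H1 H2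
      (LinearMap.ker (mg C x)).subtype hι3 (LinearMap.range (mg A x)).mkQ hπ1 sq ii
      (sh (cS c (LinearMap.ker (mg C x))) (-e₀) e z) (b (e + -e₀) y) (by
        rw [hq, hy]
        exact (wC (e + -e₀) z).symm) (a e t) (by
        rw [hi, ht]
        have h3 := hHg B b hb (e + -e₀) y
        rw [neg_add_cancel_right] at h3
        exact h3)
    rw [d1, d2]
    exact (vA e t).symm
  · intro e z
    obtain ⟨y, rfl⟩ := Submodule.mkQ_surjective _ z
    show Submodule.mapQ _ _ i hX (cQ a (LinearMap.range (mg A x)) e (Submodule.Quotient.mk y)) =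
      cQ b (LinearMap.range (mg B x)) e (Submodule.Quotient.mk (i y))
    rw [vA, vB, ← hi]
    rfl
  · intro e z
    obtain ⟨y, rfl⟩ := Submodule.mkQ_surjective _ z
    show Submodule.mapQ _ _ q hY (cQ b (LinearMap.range (mg B x)) e (Submodule.Quotient.mk y)) =
      cQ c (LinearMap.range (mg C x)) e (Submodule.Quotient.mk (q y))
    rw [vB, vC, ← hq]
    rfl
  · intro z z' h
    apply Subtype.ext
    exact ii (congrArg Subtype.val h)
  · intro y
    constructor
    · intro hy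
      have hy' : q y.1 = 0 := congrArg Subtype.val hy
      obtain ⟨z, hz⟩ := (eq y.1).1 hy'
      have hz1 : z ∈ LinearMap.ker (mg A x) := by
        rw [LinearMap.mem_ker]
        apply ii
        rw [h1, hz, map_zero]
        exact y.2
      exact ⟨⟨z, hz1⟩, Subtype.ext hz⟩
    · rintro ⟨z, rfl⟩
      apply Subtype.ext
      exact (eq (i z.1)).2 ⟨z.1, rfl⟩
  · exact SnakeLemma.exact_δ'_right (mg A x) (mg B x) (mg C x) i q eq i q eq H1 H2
      (LinearMap.ker (mg B x)).subtype hι2 (LinearMap.ker (mg C x)).subtype hι3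
      (LinearMap.range (mg A x)).mkQ hπ1 sq ii (q.restrict hv)
      (LinearMap.ext fun z => rfl) (Submodule.injective_subtype _)
  · exact SnakeLemma.exact_δ'_left (mg A x) (mg B x) (mg C x) i q eq i q eq H1 H2
      (LinearMap.ker (mg C x)).subtype hι3 (LinearMap.range (mg A x)).mkQ hπ1
      (LinearMap.range (mg B x)).mkQ hπ2 sq ii (Submodule.mapQ _ _ i hX)
      (LinearMap.ext fun z => rfl) (Submodule.mkQ_surjective _)
  · intro y
    obtain ⟨z, rfl⟩ := Submodule.mkQ_surjective _ y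
    constructor
    · intro hz
      have h3 : (LinearMap.range (mg C x)).mkQ (q z) = 0 := hz
      rw [Submodule.mkQ_apply, Submodule.Quotient.mk_eq_zero] at h3
      obtain ⟨t, ht⟩ := h3
      obtain ⟨s, rfl⟩ := sq t
      rw [← h2] at ht
      have h4 : q (z - mg B x s) = 0 := by rw [map_sub, ht, sub_self]
      obtain ⟨r, hr⟩ := (eq _).1 h4
      refine ⟨(LinearMap.range (mg A x)).mkQ r, ?_⟩
      show (LinearMap.range (mg B x)).mkQ (i r) = (LinearMap.range (mg B x)).mkQ z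
      rw [hr, map_sub, sub_eq_self]
      rw [Submodule.mkQ_apply, Submodule.Quotient.mk_eq_zero]
      exact ⟨s, rfl⟩
    · rintro ⟨z', hz'⟩
      obtain ⟨r, rfl⟩ := Submodule.mkQ_surjective _ z'
      rw [← hz']
      show (LinearMap.range (mg C x)).mkQ (q (i r)) = 0
      rw [(eq (i r)).2 ⟨r, rfl⟩, map_zero]
  · intro y
    obtain ⟨z, rfl⟩ := Submodule.mkQ_surjective _ y
    obtain ⟨s, rfl⟩ := sq z
    exact ⟨(LinearMap.range (mg B x)).mkQ s, rfl⟩

end Gf_aux

/-- **The graded fibre functional.** -/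
theorem tGf : S_Ga → S_Gb → S_Gi → S_Gu → S_Gf := by
  intro hGa _ _ _ n p I V _ φ
  exact Gf_aux.fibre hGa (MvPolynomial.X p) (dg p) (fun M _ _ c hc a m => hc.var p a m) φ

end Pool.Agent.FY
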