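import Pool.Agent.Lib.MP_b53bfe_ag.Spec3

/-!
# Gradings: homogeneous polynomials and ideals (`S_Gi`)
-/

set_option autoImplicit false

noncomputable section

namespace Pool.Agent.FY

open Polynomial

namespace Gi_aux

/-! ## Homogeneous elements of the polynomial ring -/

section

variable {n : ℕ}

theorem hg_zero (e : Dg) : Hg n (0 : Po (Ix n)) e := by
  intro M _ _ c _ a m
  rw [zero_smul, zero_smul, map_zero]

theorem hg_C (z : ℂ) : Hg n (MvPolynomial.C z : Po (Ix n)) 0 := by
  intro M _ _ c hc a m
  rw [add_zero]
  exact hc.cst z a m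

theorem hg_one : Hg n (1 : Po (Ix n)) 0 := by
  have h := hg_C (n := n) 1
  rwa [map_one] at h

theorem hg_X (p : Ix n) : Hg n (MvPolynomial.X p : Po (Ix n)) (dg p) := by
  intro M _ _ c hc a m
  exact hc.var p a m

theorem hg_add {r s : Po (Ix n)} {e : Dg} (hr : Hg n r e) (hs : Hg n s e) : Hg n (r + s) e := by
  intro M _ _ c hc a m
  rw [add_smul, add_smul, map_add, hr M c hc, hs M c hc]

theorem hg_mul {r s : Po (Ix n)} {e f : Dg} (hr : Hg n r e) (hs : Hg n s f) : Hg n (r * s) (e + f) := by
  intro M _ _ c hc a m
  rw [mul_smul, mul_smul, add_comm e f, ← add_assoc, hr M c hc, hs M c hc]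

theorem hg_pow {r : Po (Ix n)} {e : Dg} (hr : Hg n r e) (k : ℕ) : Hg n (r ^ k) (k • e) := by
  induction k with
  | zero =>
    rw [pow_zero, zero_smul]
    exact hg_one
  | succ k ih =>
    rw [pow_succ, succ_nsmul]
    exact hg_mul ih hr

theorem hg_monomial (v : Ix n →₀ ℕ) (z : ℂ) :
    Hg n (MvPolynomial.monomial v z : Po (Ix n)) (Finsupp.weight (dg (n := n)) v) := by
  induction v using Finsupp.induction with
  | zero =>
    rw [map_zero]
    exact hg_C z
  | single_add p k w _ _ ih =>
    have h1 : (MvPolynomial.monomial (Finsupp.single p k + w) z : Po (Ix n)) =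
        MvPolynomial.X p ^ k * MvPolynomial.monomial w z := by
      rw [MvPolynomial.monomial_single_add]
    have h2 : Finsupp.weight (dg (n := n)) (Finsupp.single p k + w) = k • dg p + Finsupp.weight (dg (n := n)) w := by
      rw [map_add, Finsupp.weight_single]
    rw [h1, h2]
    exact hg_mul (hg_pow (hg_X p) k) ih

theorem hg_of_hom {r : Po (Ix n)} {e : Dg} (h : MvPolynomial.IsWeightedHomogeneous (dg (n := n)) r e) : Hg n r e := by
  induction h using MvPolynomial.IsWeightedHomogeneous.induction_on with
  | zero => exact hg_zero e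
  | add p q _ _ hp hq => exact hg_add hp hq
  | monomial d z hd =>
    rw [← hd]
    exact hg_monomial d z

end

/-! ## The graded polynomial ring -/

section

variable (n : ℕ)

theorem cP_apply (a : Dg) (r : Po (Ix n)) :
    cP n a r = MvPolynomial.weightedHomogeneousComponent (R := ℂ) (dg (n := n)) a r := rfl

theorem cP_X_mul (p : Ix n) (a : Dg) (r : Po (Ix n)) :
    MvPolynomial.weightedHomogeneousComponent (R := ℂ) (dg (n := n)) (a + dg p) (MvPolynomial.X p * r) =
      MvPolynomial.X p * MvPolynomial.weightedHomogeneousComponent (R := ℂ) (dg (n := n)) a r := by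
  classical
  ext d
  rw [MvPolynomial.coeff_weightedHomogeneousComponent, MvPolynomial.coeff_X_mul', MvPolynomial.coeff_X_mul',
    MvPolynomial.coeff_weightedHomogeneousComponent]
  by_cases hd : p ∈ d.support
  · rw [if_pos hd, if_pos hd]
    have hle : Finsupp.single p 1 ≤ d := by
      rw [Finsupp.single_le_iff]
      exact Nat.one_le_iff_ne_zero.2 (Finsupp.mem_support_iff.1 hd)
    have h1 : Finsupp.weight (dg (n := n)) d = Finsupp.weight (dg (n := n)) (d - Finsupp.single p 1) + dg p := by
      conv_lhs => rw [← tsub_add_cancel_of_le hle]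
      rw [map_add, Finsupp.weight_single, one_smul]
    have h2 : (Finsupp.weight (dg (n := n)) d = a + dg p) ↔
        (Finsupp.weight (dg (n := n)) (d - Finsupp.single p 1) = a) := by
      rw [h1]
      exact add_left_inj _
    by_cases h3 : Finsupp.weight (dg (n := n)) (d - Finsupp.single p 1) = a
    · rw [if_pos h3, if_pos (h2.2 h3)]
    · rw [if_neg h3, if_neg (fun h => h3 (h2.1 h))]
  · rw [if_neg hd, if_neg hd, ite_self]

theorem isGr_cP : IsGr n (cP n) where
  fin := fun r => MvPolynomial.weightedHomogeneousComponent_finsupp (w := dg (n := n)) r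
  sum := fun r => MvPolynomial.sum_weightedHomogeneousComponent (dg (n := n)) r
  same := fun a r =>
    (MvPolynomial.weightedHomogeneousComponent_isWeightedHomogeneous a r).weightedHomogeneousComponent_same
  orth := fun a b r hab =>
    (MvPolynomial.weightedHomogeneousComponent_isWeightedHomogeneous b r).weightedHomogeneousComponent_ne a hab
  cst := fun z a r => by
    rw [smul_eq_mul, smul_eq_mul, cP_apply, cP_apply, MvPolynomial.weightedHomogeneousComponent_C_mul]
  var := fun p a r => by
    rw [smul_eq_mul, smul_eq_mul, cP_apply, cP_apply, cP_X_mul]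

theorem stb_span (A : Set (Po (Ix n)))
    (hA : ∀ r ∈ A, ∃ e : Dg, MvPolynomial.IsWeightedHomogeneous (dg (n := n)) r e) :
    Stb (cP n) (Ideal.span A) := by
  intro a m hm
  revert a
  induction hm using Submodule.span_induction with
  | mem r hr =>
    intro a
    obtain ⟨e, he⟩ := hA r hr
    by_cases hae : a = e
    · subst hae
      rw [cP_apply, he.weightedHomogeneousComponent_same]
      exact Ideal.subset_span hr
    · rw [cP_apply, he.weightedHomogeneousComponent_ne a hae]
      exact Ideal.zero_mem _
  | zero =>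
    intro a
    rw [map_zero]
    exact Ideal.zero_mem _
  | add x y _ _ hx hy =>
    intro a
    rw [map_add]
    exact Ideal.add_mem _ (hx a) (hy a)
  | smul f x _ hx =>
    induction f using MvPolynomial.induction_on' with
    | monomial v z =>
      intro a
      have h := hg_monomial v z (Po (Ix n)) (cP n) (isGr_cP n) (a - Finsupp.weight (dg (n := n)) v) x
      rw [sub_add_cancel] at h
      rw [h]
      exact Ideal.mul_mem_left _ _ (hx _)
    | add f g hf hg =>
      intro a
      rw [add_smul, map_add]
      exact Ideal.add_mem _ (hf a) (hg a)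

end

end Gi_aux

theorem tGi : S_Ga → S_Gi := by
  intro hGa n
  refine ⟨fun r e h => Gi_aux.hg_of_hom h, Gi_aux.isGr_cP n, fun A hA => ?_⟩
  have hs : Stb (cP n) (Ideal.span A) := Gi_aux.stb_span n A hA
  exact ⟨hs, (((hGa n (Po (Ix n)) (cP n) (Gi_aux.isGr_cP n)).2.1 (Ideal.span A)) hs).2.1⟩

end Pool.Agent.FY
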