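import Pool.Agent.Lib.MP_b53bfe_ag.Spec3

/-!
# Gka: decomposition of a module killed by the variables of the row `i` in its parts
-/

set_option autoImplicit false

noncomputable section

namespace Pool.Agent.FY

open Polynomial

namespace Gka_aux

variable {n : ℕ} {i : Fin 3} {M : Type} [AddCommGroup M] [Module (Po (Ix n)) M] {c : Dg → M →+ M}

/-- two elements with the same components are equal -/
theorem ext_c (hc : IsGr n c) {x y : M} (h : ∀ a : Dg, c a x = c a y) : x = y := by
  rw [← hc.sum x, ← hc.sum y]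
  exact finsum_congr h

/-- the degree in the row `i` is preserved by the variables of the other rows -/
theorem dg_row {p : Ix n} (hp : p.1 ≠ i) (a : Dg) : (a - dg p) i = a i := by
  simp only [dg, Pi.sub_apply]
  rw [Pi.single_eq_of_ne (fun h => hp h.symm), sub_zero]

theorem var' (hc : IsGr n c) (p : Ix n) (a : Dg) (m : M) :
    c a ((MvPolynomial.X p : Po (Ix n)) • m) = (MvPolynomial.X p : Po (Ix n)) • c (a - dg p) m := by
  have h := hc.var p (a - dg p) m
  rwa [sub_add_cancel] at h

/-- `rk` acts as the identity -/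
theorem rk_smul (h0 : ∀ p : Ix n, p.1 = i → ∀ m : M, (MvPolynomial.X p : Po (Ix n)) • m = 0)
    (r : Po (Ix n)) : ∀ m : M, rk n i r • m = r • m := by
  induction r using MvPolynomial.induction_on with
  | C z =>
    intro m
    have : rk n i (MvPolynomial.C z) = MvPolynomial.C z := by
      simp [rk]
    rw [this]
  | add p q hp hq =>
    intro m
    rw [map_add, add_smul, add_smul, hp, hq]
  | mul_X q p hq =>
    intro m
    rw [map_mul, mul_smul, mul_smul, hq]
    have hX : rk n i (MvPolynomial.X p) = if p.1 = i then (0 : Po (Ix n)) else MvPolynomial.X p := by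
      simp [rk]
    rw [hX]
    split_ifs with hp
    · rw [zero_smul, h0 p hp m]
    · rfl

/-- the elements with components only in the degrees `a` with `a i ∈ T` -/
def Sb (hc : IsGr n c) (h0 : ∀ p : Ix n, p.1 = i → ∀ m : M, (MvPolynomial.X p : Po (Ix n)) • m = 0)
    (T : Set ℤ) : Submodule (Po (Ix n)) M where
  carrier := {m | ∀ a : Dg, a i ∉ T → c a m = 0}
  zero_mem' := fun a _ => map_zero _
  add_mem' := by
    intro x y hx hy a ha
    rw [map_add, hx a ha, hy a ha, add_zero]
  smul_mem' := by
    intro r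
    induction r using MvPolynomial.induction_on with
    | C z =>
      intro m hm a ha
      rw [hc.cst, hm a ha, smul_zero]
    | add p q hp hq =>
      intro m hm a ha
      rw [add_smul, map_add, hp hm a ha, hq hm a ha, add_zero]
    | mul_X q p hq =>
      intro m hm
      rw [mul_smul]
      refine hq ?_
      intro a ha
      by_cases hp : p.1 = i
      · rw [h0 p hp m, map_zero]
      · rw [var' hc, hm (a - dg p) (by rw [dg_row hp]; exact ha), smul_zero]

variable (hc : IsGr n c) (h0 : ∀ p : Ix n, p.1 = i → ∀ m : M, (MvPolynomial.X p : Po (Ix n)) • m = 0)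

theorem mem_Sb {T : Set ℤ} {m : M} : m ∈ Sb hc h0 T ↔ ∀ a : Dg, a i ∉ T → c a m = 0 := Iff.rfl

theorem stb_Sb (T : Set ℤ) : Stb c (Sb hc h0 T) := by
  intro a m hm b hb
  by_cases hab : b = a
  · rw [hab, hc.same, ← hab]
    exact hm b hb
  · exact hc.orth b a m hab

/-- the part of degree `k` in the row `i` -/
def pr (hc : IsGr n c) (i : Fin 3) (k : ℤ) (m : M) : M := ∑ᶠ a : Dg, if a i = k then c a m else 0

theorem c_pr (i : Fin 3) (k : ℤ) (m : M) (a : Dg) :
    c a (pr hc i k m) = if a i = k then c a m else 0 := by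
  unfold pr
  have hfin : (Function.support fun b : Dg => if b i = k then c b m else 0).Finite := by
    refine (hc.fin m).subset ?_
    intro b hb
    rw [Function.mem_support] at hb
    intro h1
    apply hb
    split_ifs
    · exact h1
    · rfl
  rw [AddMonoidHom.map_finsum (c a) hfin]
  rw [finsum_eq_single _ a]
  · split_ifs
    · exact hc.same a m
    · exact map_zero _
  · intro b hb
    split_ifs
    · exact hc.orth a b m hb.symm
    · exact map_zero _

/-- `pr` as a linear map -/
def prl (hc : IsGr n c) (h0 : ∀ p : Ix n, p.1 = i → ∀ m : M, (MvPolynomial.X p : Po (Ix n)) • m = 0)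
    (k : ℤ) : M →ₗ[Po (Ix n)] M where
  toFun := pr hc i k
  map_add' := by
    intro x y
    refine ext_c hc fun a => ?_
    rw [map_add, c_pr, c_pr, c_pr, map_add]
    split_ifs
    · rfl
    · rw [add_zero]
  map_smul' := by
    intro r
    rw [RingHom.id_apply]
    have hadd : ∀ x y : M, pr hc i k (x + y) = pr hc i k x + pr hc i k y := by
      intro x y
      refine ext_c hc fun a => ?_
      rw [map_add, c_pr, c_pr, c_pr, map_add]
      split_ifs
      · rfl
      · rw [add_zero]
    induction r using MvPolynomial.induction_on with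
    | C z =>
      intro m
      refine ext_c hc fun a => ?_
      rw [hc.cst, c_pr, c_pr, hc.cst]
      split_ifs
      · rfl
      · rw [smul_zero]
    | add p q hp hq =>
      intro m
      rw [add_smul, add_smul, hadd, hp, hq]
    | mul_X q p hq =>
      intro m
      rw [mul_smul, mul_smul, hq]
      congr 1
      by_cases hp : p.1 = i
      · rw [h0 p hp, h0 p hp]
        refine ext_c hc fun a => ?_
        rw [c_pr, map_zero]
        split_ifs <;> rfl
      · refine ext_c hc fun a => ?_
        rw [c_pr, var' hc, var' hc, c_pr, dg_row hp]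
        split_ifs
        · rfl
        · rw [smul_zero]

theorem prl_apply (k : ℤ) (m : M) : prl hc h0 k m = pr hc i k m := rfl

end Gka_aux

open Gka_aux in
theorem tGka : S_Ga → S_Gb → S_Gi → S_Gu → S_Gn → S_Gka := by
  intro hGa _ _ hGu hGn n i I₀ V _ ψ M _ _ c hI hc hM hk
  have h0 : ∀ p : Ix n, p.1 = i → ∀ m : M, (MvPolynomial.X p : Po (Ix n)) • m = 0 :=
    fun p hp m => hk _ (Or.inl ⟨p, hp, by simp, rfl⟩) m
  have hk0 : Kil I₀ M := fun r hr m => hk r (Or.inr hr) m
  have hN : IsNoetherian (Po (Ix n)) M := isNoetherian_of_isNoetherianRing_of_finite _ _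
  have hkS : ∀ T : Set ℤ, Kil (Rw n i [] ∪ I₀) (Sb hc h0 T) := fun T r hr x =>
    Subtype.ext (hk r hr (x : M))
  have hgS : ∀ T : Set ℤ, IsGr n (cS c (Sb hc h0 T)) := fun T =>
    (((hGa n M c hc).2.1 (Sb hc h0 T) (stb_Sb hc h0 T)).1)
  have hcS : ∀ (T : Set ℤ) (a : Dg) (x : Sb hc h0 T),
      ((cS c (Sb hc h0 T) a x : Sb hc h0 T) : M) = c a (x : M) := fun T =>
    (((hGa n M c hc).2.1 (Sb hc h0 T) (stb_Sb hc h0 T)).2.2.1)
  -- the step
  have step : ∀ (T : Set ℤ) (k : ℤ), k ∉ T →
      ψ.f (Sb hc h0 (insert k T)) (cS c _) =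
        ψ.f (Sb hc h0 T) (cS c _) + ψ.f (Sb hc h0 {k}) (cS c _) := by
    intro T k hkT
    have hle : Sb hc h0 T ≤ Sb hc h0 (insert k T) := by
      intro m hm a ha
      exact hm a fun h => ha (Set.mem_insert_of_mem _ h)
    have hpr : ∀ x : Sb hc h0 (insert k T), prl hc h0 k (x : M) ∈ Sb hc h0 {k} := by
      intro x a ha
      rw [prl_apply, c_pr, if_neg]
      exact ha
    refine ψ.add _ _ _ _ _ _ (Submodule.inclusion hle)
      (((prl hc h0 k).comp (Submodule.subtype _)).codRestrict (Sb hc h0 {k}) hpr)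
      inferInstance (hkS _) (hgS _) (hgS _) (hgS _) ?_ ?_ (Submodule.inclusion_injective hle) ?_ ?_
    · intro e x
      refine Subtype.ext ?_
      rw [Submodule.coe_inclusion, hcS, hcS, Submodule.coe_inclusion]
    · intro e x
      refine Subtype.ext ?_
      rw [LinearMap.codRestrict_apply, hcS, LinearMap.codRestrict_apply, LinearMap.comp_apply,
        LinearMap.comp_apply, Submodule.subtype_apply, Submodule.subtype_apply, hcS, prl_apply,
        prl_apply]
      refine ext_c hc fun a => ?_
      rw [c_pr]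
      by_cases hae : a = e
      · subst hae
        rw [hc.same, hc.same, c_pr]
      · rw [hc.orth a e _ hae, hc.orth a e _ hae]
        split_ifs <;> rfl
    · intro y
      have hy : (y : M) ∈ Sb hc h0 (insert k T) := by
        intro a ha
        exact y.2 a fun h => ha (by rw [Set.mem_singleton_iff.1 h]; exact Set.mem_insert _ _)
      refine ⟨⟨(y : M), hy⟩, Subtype.ext ?_⟩
      rw [LinearMap.codRestrict_apply, LinearMap.comp_apply, Submodule.subtype_apply, prl_apply]
      refine ext_c hc fun a => ?_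
      rw [c_pr]
      split_ifs with h
      · rfl
      · exact (y.2 a h).symm
    · intro x
      rw [Set.mem_range]
      constructor
      · intro hx
        have h1 : pr hc i k (x : M) = 0 := congrArg Subtype.val hx
        refine ⟨⟨(x : M), ?_⟩, Subtype.ext rfl⟩
        intro a ha
        by_cases hak : a i = k
        · have h2 := c_pr hc i k (x : M) a
          rw [h1, map_zero, if_pos hak] at h2
          exact h2.symm
        · exact x.2 a fun h => by
            rcases Set.mem_insert_iff.1 h with h | h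
            · exact hak h
            · exact ha h
      · rintro ⟨y, rfl⟩
        refine Subtype.ext ?_
        rw [LinearMap.codRestrict_apply, LinearMap.comp_apply, Submodule.subtype_apply, prl_apply,
          Submodule.coe_inclusion]
        refine ext_c hc fun a => ?_
        rw [c_pr]
        split_ifs with h
        · rw [y.2 a (by rw [h]; exact hkT)]
          exact (map_zero _).symm
        · exact (map_zero _).symm
  have hfin : ∀ S : Finset ℤ, ψ.f (Sb hc h0 (S : Set ℤ)) (cS c _) =
      ∑ b ∈ S, ψ.f (Sb hc h0 {b}) (cS c _) := by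
    intro S
    induction S using Finset.induction_on with
    | empty =>
      rw [Finset.sum_empty]
      refine (hGu n _ V ψ _ _ (hgS _) inferInstance (hkS _)).1 ?_
      constructor
      intro x y
      refine Subtype.ext (ext_c hc fun a => ?_)
      rw [x.2 a (by simp), y.2 a (by simp)]
    | insert b S hb ih =>
      rw [Finset.sum_insert hb, Finset.coe_insert, step _ b (by simpa using hb), ih, add_comm]
  have hnb : ∀ b : ℤ, ψ.f (Sb hc h0 {b}) (cS c _) = ψ.g (GM.nb i b 0 ⟨M, c⟩) := by
    intro b
    obtain ⟨h1, -, -, -, h2⟩ := hGn n i I₀ M c hI hc hM hk0 b 0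
    have hmem : ∀ x : M, x ∈ Sb hc h0 {b} ↔ Res.mk (rk n i) x ∈ Nb n i b c := fun x =>
      (h1 (Res.mk (rk n i) x)).symm
    let e : Sb hc h0 {b} ≃ₗ[Po (Ix n)] Nb n i b c :=
      { toFun := fun x => ⟨Res.mk (rk n i) (x : M), (hmem x).1 x.2⟩
        map_add' := fun x y => rfl
        map_smul' := fun r x => Subtype.ext (rk_smul h0 r (x : M)).symm
        invFun := fun y => ⟨(y : Res (rk n i) M).val, (hmem _).2 y.2⟩
        left_inv := fun x => rfl
        right_inv := fun y => rfl }
    refine (hGu n _ V ψ _ _ (hgS _) inferInstance (hkS _)).2.1 _ _ e ?_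
    intro a x
    refine Subtype.ext ?_
    have h3 := h2 a (e x)
    rw [add_zero] at h3
    exact (hcS {b} a x).trans h3.symm
  -- the degrees are bounded
  obtain ⟨s, hs⟩ := hM.fg_top
  have hbd : ∃ c₀ : ℕ, ∀ g ∈ s, ∀ a : Dg, c a g ≠ 0 → |a i| ≤ c₀ := by
    have hf : (⋃ g ∈ s, {a : Dg | c a g ≠ 0}).Finite := by
      refine Set.Finite.biUnion s.finite_toSet fun g _ => hc.fin g
    have hf2 : ((fun a : Dg => (a i).natAbs) '' (⋃ g ∈ s, {a : Dg | c a g ≠ 0})).Finite := hf.image _
    obtain ⟨B, hB⟩ := hf2.bddAbove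
    refine ⟨B, fun g hg a ha => ?_⟩
    have h1 : (a i).natAbs ≤ B := hB ⟨a, Set.mem_biUnion hg ha, rfl⟩
    rw [Int.abs_eq_natAbs]
    exact_mod_cast h1
  obtain ⟨c₀, hc₀⟩ := hbd
  refine ⟨c₀, fun C hC => ?_⟩
  have htop : Sb hc h0 ((Finset.Icc (-(C : ℤ)) C : Finset ℤ) : Set ℤ) = ⊤ := by
    rw [eq_top_iff, ← hs, Submodule.span_le]
    intro g hg a ha
    by_contra hne
    have h1 := hc₀ g hg a hne
    apply ha
    rw [Finset.coe_Icc, Set.mem_Icc, ← abs_le]
    have : (c₀ : ℤ) ≤ C := by exact_mod_cast hC
    omega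
  have hMtop : ψ.f M c = ψ.f (Sb hc h0 ((Finset.Icc (-(C : ℤ)) C : Finset ℤ) : Set ℤ)) (cS c _) := by
    refine ((hGu n _ V ψ _ _ (hgS _) inferInstance (hkS _)).2.1 M c
      ((LinearEquiv.ofEq _ _ htop).trans Submodule.topEquiv) ?_).symm
    intro a m
    exact hcS _ a m
  rw [hMtop, hfin]
  exact Finset.sum_congr rfl fun b _ => hnb b

end Pool.Agent.FY
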