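import Pool.Agent.Lib.MP_b53bfe_ag.Spec3
import Pool.Agent.Lib.MP_b53bfe_ag.Bas

/-!
# Theorem T2 (MP_b53bfe_ag), module Gkb: exactness in degree `b` of the row `i` (helper62)
-/

set_option autoImplicit false

noncomputable section

namespace Pool.Agent.FY

open Polynomial

namespace Gkb_aux

theorem er_eq {n : ℕ} {i : Fin 3} {y : Ix n} (h : y.1 = i) : er i = dg y := by
  unfold er dg
  rw [h]

theorem dg_row {n : ℕ} {i : Fin 3} {y : Ix n} (h : y.1 = i) : dg y i = 1 := by
  unfold dg
  rw [h, Pi.single_eq_same]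

variable {n : ℕ} {M : Type} [AddCommGroup M] [Module (Po (Ix n)) M] {c : Dg → M →+ M}

theorem gr_ext (hc : IsGr n c) {m m' : M} (h : ∀ a, c a m = c a m') : m = m' := by
  rw [← hc.sum m, ← hc.sum m']
  exact finsum_congr h

/-- the part of degree `b` in the row `i` of an element -/
theorem proj (hc : IsGr n c) (i : Fin 3) (b : ℤ) (m : M) :
    ∃ m' : M, (∀ a : Dg, a i = b → c a m' = c a m) ∧ ∀ a : Dg, a i ≠ b → c a m' = 0 := by
  classical
  have hfin := hc.fin m
  refine ⟨∑ g ∈ hfin.toFinset.filter (fun g => g i = b), c g m, ?_, ?_⟩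
  · intro a ha
    rw [map_sum, Finset.sum_eq_single a]
    · exact hc.same a m
    · intro g _ hg
      exact hc.orth a g m (Ne.symm hg)
    · intro hn
      rw [hc.same]
      by_contra hne
      exact hn (Finset.mem_filter.2 ⟨hfin.mem_toFinset.2 hne, ha⟩)
  · intro a ha
    rw [map_sum]
    refine Finset.sum_eq_zero fun g hg => hc.orth a g m ?_
    rintro rfl
    exact ha (Finset.mem_filter.1 hg).2

/-- the action of a variable on components -/
theorem var' (hc : IsGr n c) (y : Ix n) (a : Dg) (m : M) :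
    c a ((MvPolynomial.X y : Po (Ix n)) • m) = (MvPolynomial.X y : Po (Ix n)) • c (a - dg y) m := by
  have h := hc.var y (a - dg y) m
  rwa [sub_add_cancel] at h

end Gkb_aux

open Gkb_aux in
theorem tGkb : S_Ga → S_Gb → S_Gi → S_Gu → S_Gn → S_Gkb := by
  intro ha _ _ _ hn n i y I₀ V _ ψ M _ _ c hy hI hc hfin hkil b e
  have hnoeth : IsNoetherian (Po (Ix n)) M := isNoetherian_of_isNoetherianRing_of_finite _ _
  obtain ⟨-, haM, haH⟩ := ha n M c hc
  let x : Po (Ix n) := MvPolynomial.X y
  have hHg : Stb c (LinearMap.range (mg M x)) ∧ Stb c (LinearMap.ker (mg M x)) := by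
    constructor
    · rintro a _ ⟨m, rfl⟩
      exact ⟨c (a - dg y) m, (var' hc y a m).symm⟩
    · intro a m hm
      rw [LinearMap.mem_ker] at hm ⊢
      have h1 : x • m = 0 := hm
      show x • c a m = 0
      have h2 := hc.var y a m
      rw [← h2]
      show c (a + dg y) (x • m) = 0
      rw [h1, map_zero]
  obtain ⟨hst1, hst2⟩ := hHg
  obtain ⟨-, gQ, -, vQ⟩ := haM _ hst1
  obtain ⟨gK0, -, vK, -⟩ := haM _ hst2
  obtain ⟨haK, -, -⟩ := ha n _ _ gK0
  have gK := haK (-dg y)
  have hK : Kil I₀ (LinearMap.ker (mg M x)) := hkil.sub _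
  have hQ : Kil I₀ (M ⧸ LinearMap.range (mg M x)) := hkil.quot _
  have hvK : ∀ (a : Dg) (z : LinearMap.ker (mg M x)),
      ((sh (cS c (LinearMap.ker (mg M x))) (-dg y) a z : LinearMap.ker (mg M x)) : M) =
        c (a - dg y) (z : M) := by
    intro a z
    show ((cS c (LinearMap.ker (mg M x)) (a + -dg y) z : LinearMap.ker (mg M x)) : M) = _
    rw [vK, ← sub_eq_add_neg]
  obtain ⟨m1, g1, f1, k1, v1⟩ := hn n i I₀ M c hI hc hfin hkil (b - 1) (e - er i)
  obtain ⟨m2, g2, f2, k2, v2⟩ := hn n i I₀ M c hI hc hfin hkil b e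
  obtain ⟨mK, gKb, -, -, vKb⟩ := hn n i I₀ _ _ hI gK inferInstance hK b e
  obtain ⟨mQ, gQb, -, -, vQb⟩ := hn n i I₀ _ _ hI gQ inferInstance hQ b e
  -- the maps
  let j : Nb n i b (sh (cS c (LinearMap.ker (mg M x))) (-dg y)) →ₗ[Po (Ix n)] Nb n i (b - 1) c :=
    (Res.map (rk n i) (LinearMap.ker (mg M x)).subtype).restrict (fun z hz => by
      rw [m1]
      intro a hab
      have h1 := (mK z).1 hz (a + dg y) (by
        rw [Pi.add_apply, dg_row hy]
        intro h
        exact hab (by linarith))
      have h2 := congrArg (fun w : LinearMap.ker (mg M x) => (w : M)) h1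
      have h3 := hvK (a + dg y) z.val
      rw [add_sub_cancel_right] at h3
      exact h3.symm.trans h2)
  let f : Nb n i (b - 1) c →ₗ[Po (Ix n)] Nb n i b c :=
    (Res.map (rk n i) (mg M x)).restrict (fun z hz => by
      rw [m2]
      intro a hab
      show c a (x • z.val) = 0
      rw [var' hc, (m1 z).1 hz (a - dg y) (by
        rw [Pi.sub_apply, dg_row hy]
        intro h
        exact hab (by linarith)), smul_zero])
  let π : Nb n i b c →ₗ[Po (Ix n)] Nb n i b (cQ c (LinearMap.range (mg M x))) :=
    (Res.map (rk n i) (LinearMap.range (mg M x)).mkQ).restrict (fun z hz => by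
      rw [mQ]
      intro a hab
      have h1 := vQ a z.val
      rw [(m2 z).1 hz a hab] at h1
      exact h1)
  have hj : ∀ z, ((j z : Nb n i (b - 1) c) : Res (rk n i) M).val =
      ((z : Res (rk n i) (LinearMap.ker (mg M x))).val : M) := fun z => rfl
  have hf : ∀ z, ((f z : Nb n i b c) : Res (rk n i) M).val = x • (z : Res (rk n i) M).val :=
    fun z => rfl
  have hπ : ∀ z, ((π z : Nb n i b (cQ c (LinearMap.range (mg M x)))) :
      Res (rk n i) (M ⧸ LinearMap.range (mg M x))).val =
        Submodule.Quotient.mk (z : Res (rk n i) M).val := fun z => rfl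
  have hval : ∀ {L : Type} [AddCommGroup L] [Module (Po (Ix n)) L]
      {Z : Submodule (Po (Ix n)) (Res (rk n i) L)} {u v : Z},
      (u : Res (rk n i) L).val = (v : Res (rk n i) L).val → u = v := fun h => Subtype.ext h
  -- compatibility
  have cj : ∀ (a : Dg) (z : Nb n i b (sh (cS c (LinearMap.ker (mg M x))) (-dg y))),
      j (sh (cS (cR (rk n i) (sh (cS c (LinearMap.ker (mg M x))) (-dg y))) (Nb n i b _)) e a z) =
        sh (cS (cR (rk n i) c) (Nb n i (b - 1) c)) (e - er i) a (j z) := by
    intro a z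
    apply hval
    rw [hj, v1, hj, vKb, hvK, er_eq hy]
    congr 2
    abel
  have cf : ∀ (a : Dg) (z : Nb n i (b - 1) c),
      f (sh (cS (cR (rk n i) c) (Nb n i (b - 1) c)) (e - er i) a z) =
        sh (cS (cR (rk n i) c) (Nb n i b c)) e a (f z) := by
    intro a z
    apply hval
    rw [hf, v2, hf, v1, var' hc, er_eq hy]
    congr 3
    abel
  have cπ : ∀ (a : Dg) (z : Nb n i b c),
      π (sh (cS (cR (rk n i) c) (Nb n i b c)) e a z) =
        sh (cS (cR (rk n i) (cQ c (LinearMap.range (mg M x)))) (Nb n i b _)) e a (π z) := by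
    intro a z
    apply hval
    rw [hπ, vQb, hπ, v2, vQ]
  -- exactness
  have ij : Function.Injective j := by
    intro u v huv
    have h1 := congrArg (fun w : Nb n i (b - 1) c => (w : Res (rk n i) M).val) huv
    exact Subtype.ext (Subtype.ext h1)
  have sπ : Function.Surjective π := by
    intro q
    obtain ⟨m, hm⟩ := Submodule.Quotient.mk_surjective _
      (q : Res (rk n i) (M ⧸ LinearMap.range (mg M x))).val
    obtain ⟨m', h1, h2⟩ := proj hc i b m
    refine ⟨⟨Res.mk (rk n i) m', (m2 _).2 (fun a hab => h2 a hab)⟩, ?_⟩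
    apply hval
    rw [hπ]
    apply gr_ext gQ
    intro a
    by_cases hab : a i = b
    · rw [← hm, vQ, vQ]
      exact congrArg _ (h1 a hab)
    · rw [(mQ _).1 q.2 a hab, vQ]
      have h3 : c a m' = 0 := h2 a hab
      show Submodule.Quotient.mk (c a m') = _
      rw [h3]
      rfl
  -- the image
  let R : Submodule (Po (Ix n)) (Nb n i b c) := LinearMap.range f
  have hR : Stb (sh (cS (cR (rk n i) c) (Nb n i b c)) e) R := by
    rintro a _ ⟨z, rfl⟩
    exact ⟨_, cf a z⟩
  obtain ⟨-, haB, -⟩ := ha n _ _ g2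
  obtain ⟨gR, -, vR, -⟩ := haB R hR
  have e1 := ψ.add (Nb n i b (sh (cS c (LinearMap.ker (mg M x))) (-dg y))) (Nb n i (b - 1) c) R
    _ _ _ j f.rangeRestrict f1 k1 gKb g1 gR cj (by
      intro a z
      apply Subtype.ext
      exact (cf a z).trans (vR a (f.rangeRestrict z)).symm) ij f.surjective_rangeRestrict (by
      intro z
      constructor
      · intro hz
        have h1 : f z = 0 := congrArg (fun w : R => (w : Nb n i b c)) hz
        have h2 : x • (z : Res (rk n i) M).val = 0 := by
          rw [← hf, h1]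
          rfl
        refine ⟨⟨Res.mk (rk n i) ⟨(z : Res (rk n i) M).val, h2⟩, ?_⟩, ?_⟩
        · rw [mK]
          intro a hab
          apply Subtype.ext
          have h3 := hvK a ⟨(z : Res (rk n i) M).val, h2⟩
          have h4 := (m1 _).1 z.2 (a - dg y) (by
            rw [Pi.sub_apply, dg_row hy]
            intro h
            exact hab (by linarith))
          exact h3.trans h4
        · exact hval rfl
      · rintro ⟨w, rfl⟩
        apply Subtype.ext
        apply hval
        have h1 := (w : Res (rk n i) (LinearMap.ker (mg M x))).val.2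
        exact h1)
  have e2 := ψ.add R (Nb n i b c) (Nb n i b (cQ c (LinearMap.range (mg M x)))) _ _ _
    R.subtype π f2 k2 gR g2 gQb (fun a z => vR a z) cπ (Submodule.injective_subtype _) sπ (by
      intro z
      constructor
      · intro hz
        have h1 : (Submodule.Quotient.mk (z : Res (rk n i) M).val :
            M ⧸ LinearMap.range (mg M x)) = 0 := by
          rw [← hπ, hz]
          rfl
        rw [Submodule.Quotient.mk_eq_zero] at h1
        obtain ⟨w, hw⟩ := h1
        obtain ⟨w', h2, h3⟩ := proj hc i (b - 1) w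
        refine ⟨⟨f ⟨Res.mk (rk n i) w', (m1 _).2 (fun a hab => h3 a hab)⟩, ⟨_, rfl⟩⟩, ?_⟩
        show f _ = z
        apply hval
        rw [hf]
        apply gr_ext hc
        intro a
        rw [var' hc]
        by_cases hab : a i = b
        · have h4 : c (a - dg y) w' = c (a - dg y) w := h2 _ (by
            rw [Pi.sub_apply, dg_row hy, hab])
          show x • c (a - dg y) w' = _
          rw [h4, ← hw]
          exact (var' hc y a w).symm
        · have h4 : c (a - dg y) w' = 0 := h3 _ (by
            rw [Pi.sub_apply, dg_row hy]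
            intro h
            exact hab (by linarith))
          show x • c (a - dg y) w' = _
          rw [h4, smul_zero, (m2 _).1 z.2 a hab]
      · rintro ⟨⟨_, ⟨w, rfl⟩⟩, rfl⟩
        apply hval
        show (Submodule.Quotient.mk (x • (w : Res (rk n i) M).val) :
            M ⧸ LinearMap.range (mg M x)) = 0
        rw [Submodule.Quotient.mk_eq_zero]
        exact ⟨_, rfl⟩)
  show ψ.f (Nb n i b (cQ c (LinearMap.range (mg M x)))) _ -
      ψ.f (Nb n i b (sh (cS c (LinearMap.ker (mg M x))) (-dg y))) _ =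
    ψ.f (Nb n i b c) _ - ψ.f (Nb n i (b - 1) c) _
  rw [e1, e2]
  abel

end Pool.Agent.FY
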