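import Pool.Agent.Lib.MP_b53bfe_ag.Spec3
import Pool.Agent.Lib.MP_b53bfe_ag.Bas

/-!
# Theorem T2 (MP_b53bfe_ag), module Gks: Koszul formula (helper62)
-/

set_option autoImplicit false

noncomputable section

namespace Pool.Agent.FY

open Polynomial

namespace Gks_aux

theorem nu_X {σ : Type} [DecidableEq σ] {i j : σ} (h : j ≠ i) :
    nu i (MvPolynomial.X j : Po σ) = C (MvPolynomial.X j : Po σ) := by
  change MvPolynomial.aeval _ (MvPolynomial.X j) = _
  rw [MvPolynomial.aeval_X, if_neg h]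

/-- the same values for an equal set of conditions -/
def cst {n : ℕ} {I : Set (Po (Ix n))} {V : Type 1} [AddCommGroup V] (χ : GFun n I V)
    (J : Set (Po (Ix n))) (h : I = J) : GFun n J V where
  f := χ.f
  add A B C _ _ _ _ _ _ a b c i p hB hk ha hb hc hi hp h1 h2 h3 :=
    χ.add A B C a b c i p hB (by rw [h]; exact hk) ha hb hc hi hp h1 h2 h3

theorem Rw_cons {n : ℕ} {i : Fin 3} {y : Ix n} {ys : List (Ix n)} (hy : y.1 = i) (hys : y ∉ ys)
    (I₀ : Set (Po (Ix n))) :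
    insert (MvPolynomial.X y) (Rw n i (y :: ys) ∪ I₀) = Rw n i ys ∪ I₀ := by
  ext r
  constructor
  · rintro (rfl | ⟨p, hp, hpn, rfl⟩ | hr)
    · exact Or.inl ⟨y, hy, hys, rfl⟩
    · exact Or.inl ⟨p, hp, fun h => hpn (List.mem_cons_of_mem _ h), rfl⟩
    · exact Or.inr hr
  · rintro (⟨p, hp, hpn, rfl⟩ | hr)
    · by_cases h : p = y
      · exact Or.inl (by rw [h])
      · refine Or.inr (Or.inl ⟨p, hp, fun h2 => ?_, rfl⟩)
        rcases List.mem_cons.1 h2 with h3 | h3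
        · exact h h3
        · exact hpn h3
    · exact Or.inr (Or.inr hr)

theorem pascal {V : Type 1} [AddCommGroup V] (A : ℕ → V) (r : ℕ) :
    ∑ k ∈ Finset.range (r + 1), ((-1) ^ k * (r.choose k : ℤ)) • (A k - A (k + 1)) =
      ∑ k ∈ Finset.range (r + 1 + 1), ((-1) ^ k * ((r + 1).choose k : ℤ)) • A k := by
  have h1 : ∑ k ∈ Finset.range (r + 1 + 1), ((-1) ^ k * (r.choose k : ℤ)) • A k =
      ∑ k ∈ Finset.range (r + 1), ((-1) ^ k * (r.choose k : ℤ)) • A k := by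
    rw [Finset.sum_range_succ, Nat.choose_succ_self]
    simp
  have h2 : ∑ k ∈ Finset.range (r + 1), ((-1) ^ k * (r.choose k : ℤ)) • A k =
      ∑ k ∈ Finset.range (r + 1), ((-1) ^ (k + 1) * (r.choose (k + 1) : ℤ)) • A (k + 1) + A 0 := by
    rw [← h1, Finset.sum_range_succ']
    simp
  rw [Finset.sum_range_succ' (fun k => ((-1) ^ k * ((r + 1).choose k : ℤ)) • A k) (r + 1)]
  simp only [smul_sub, Finset.sum_sub_distrib]
  rw [h2]
  have h3 : ∑ k ∈ Finset.range (r + 1), ((-1) ^ (k + 1) * ((r + 1).choose (k + 1) : ℤ)) • A (k + 1) =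
      ∑ k ∈ Finset.range (r + 1), ((-1) ^ (k + 1) * (r.choose (k + 1) : ℤ)) • A (k + 1) -
        ∑ k ∈ Finset.range (r + 1), ((-1) ^ k * (r.choose k : ℤ)) • A (k + 1) := by
    rw [← Finset.sum_sub_distrib]
    refine Finset.sum_congr rfl fun k _ => ?_
    rw [← sub_smul, Nat.choose_succ_succ]
    congr 1
    push_cast
    ring
  rw [h3]
  simp only [pow_zero, Nat.choose_zero_right, Nat.cast_one, one_mul, one_smul]
  abel

end Gks_aux

open Gks_aux in
theorem tGks : S_Ga → S_Gb → S_Gi → S_Gu → S_Gn → S_Gx → S_Gt → S_Gka → S_Gkb → S_Gxs → S_Gks := by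
  intro ha _ hi _ _ hx ht hka hkb hxs n i ys
  induction ys with
  | nil =>
    intro I₀ V _ ψ M _ _ c _ _ hI _ hc hfin hkil
    obtain ⟨c₀, h⟩ := hka n i I₀ V ψ M c hI hc hfin hkil
    refine ⟨c₀, fun C hC => ?_⟩
    rw [h C hC]
    refine Finset.sum_congr rfl fun b _ => ?_
    have h1 : GM.nb i (b - ((0 : ℕ) : ℤ)) (-((0 : ℕ) • er i)) (⟨M, c⟩ : GM n) =
        GM.nb i b 0 ⟨M, c⟩ := by
      rw [Nat.cast_zero, sub_zero, zero_smul, neg_zero]
    rw [List.length_nil, Finset.sum_range_one, h1]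
    simp only [pow_zero, Nat.choose_zero_right, Nat.cast_one, one_mul, one_smul]
    rfl
  | cons y ys ih =>
    intro I₀ V _ ψ M _ _ c hnd hrow hI hNI hc hfin hkil
    obtain ⟨hyn, hnd'⟩ := List.nodup_cons.1 hnd
    have hy : y.1 = i := hrow y List.mem_cons_self
    have hrow' : ∀ z ∈ ys, z.1 = i := fun z hz => hrow z (List.mem_cons_of_mem _ hz)
    have hNI' : ∀ r ∈ Rw n i (y :: ys) ∪ I₀, NI y r := by
      rintro r (⟨p, hp, hpn, rfl⟩ | hr)
      · exact nu_X (fun h => hpn (by rw [h]; exact List.mem_cons_self))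
      · exact hNI r hr y hy
    obtain ⟨φ₀, hφ₀⟩ := hx n y (Rw n i (y :: ys) ∪ I₀) V ψ hNI'
    let φ : GFun n (Rw n i ys ∪ I₀) V := cst φ₀ _ (Rw_cons hy hyn I₀)
    have hφ : ∀ (N : Type) [AddCommGroup N] [Module (Po (Ix n)) N] (c : Dg → N →+ N),
        φ.f N c = ψ.f (Ex y N) (cE y c) := fun N _ _ c => hφ₀ N c
    have hφexs : ∀ N : GM n, φ.g (GM.exs ys N) = ψ.g (GM.exs (y :: ys) N) := fun N =>
      hφ (GM.exs ys N).M (GM.exs ys N).c
    obtain ⟨θ, hθ, -⟩ := hxs n i ys I₀ V φ hnd' hrow' hNI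
    have hkil0 : Kil I₀ M := fun r hr => hkil r (Or.inr hr)
    have hnoeth : IsNoetherian (Po (Ix n)) M := isNoetherian_of_isNoetherianRing_of_finite _ _
    obtain ⟨-, haM, haH⟩ := ha n M c hc
    have hHg : Hg n (MvPolynomial.X y) (dg y) :=
      (hi n).1 _ _ (MvPolynomial.isWeightedHomogeneous_X ℂ _ y)
    obtain ⟨hst1, hst2⟩ := haH _ _ hHg
    obtain ⟨-, gQ, -, -⟩ := haM _ hst1
    obtain ⟨gK0, -, -, -⟩ := haM _ hst2
    obtain ⟨haK, -, -⟩ := ha n _ _ gK0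
    have gK := haK (-dg y)
    have kQ : Kil (Rw n i ys ∪ I₀) (M ⧸ LinearMap.range (mg M (MvPolynomial.X y : Po (Ix n)))) := by
      rw [← Rw_cons hy hyn I₀, Kil.insert]
      refine ⟨fun m => ?_, hkil.quot _⟩
      obtain ⟨m, rfl⟩ := Submodule.Quotient.mk_surjective _ m
      rw [← Submodule.Quotient.mk_smul, Submodule.Quotient.mk_eq_zero]
      exact ⟨m, rfl⟩
    have kK : Kil (Rw n i ys ∪ I₀) (LinearMap.ker (mg M (MvPolynomial.X y : Po (Ix n)))) := by
      rw [← Rw_cons hy hyn I₀, Kil.insert]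
      exact ⟨fun m => Subtype.ext m.2, hkil.sub _⟩
    obtain ⟨c1, h1⟩ := ih I₀ V φ _ _ hnd' hrow' hI hNI gQ inferInstance kQ
    obtain ⟨c2, h2⟩ := ih I₀ V φ _ _ hnd' hrow' hI hNI gK inferInstance kK
    refine ⟨max c1 c2, fun C hC => ?_⟩
    have h3 := h1 C ((le_max_left _ _).trans hC)
    have h4 := h2 C ((le_max_right _ _).trans hC)
    have h5 := ht n y (Rw n i (y :: ys) ∪ I₀) V ψ M c hNI' hfin hkil hc
    rw [h5, ← hφ, ← hφ, h3, h4, ← Finset.sum_sub_distrib]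
    refine Finset.sum_congr rfl fun b _ => ?_
    rw [← Finset.sum_sub_distrib, List.length_cons]
    simp only [← smul_sub, ← hθ, ← hφexs]
    rw [← pascal (fun k => θ.g (GM.nb i (b - (k : ℤ)) (-(k • er i)) ⟨M, c⟩))]
    refine Finset.sum_congr rfl fun k _ => ?_
    congr 1
    have h6 := hkb n i y I₀ V θ M c hy hI hc hfin hkil0 (b - k) (-(k • er i))
    rw [h6]
    have e1 : b - ((k + 1 : ℕ) : ℤ) = b - (k : ℤ) - 1 := by
      push_cast
      ring
    have e2 : -((k + 1) • er i) = -(k • er i) - er i := by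
      rw [add_smul, one_smul, neg_add, sub_eq_add_neg]
    rw [e1, e2]

end Pool.Agent.FY
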