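import Pool.Agent.Lib.MP_b53bfe_ag.Spec3

/-!
# Dehomogenisation (`S_Glb`)
-/

set_option autoImplicit false

noncomputable section

namespace Pool.Agent.FY

open Polynomial

namespace Glb_aux

/-- an additive subgroup which contains all the components of `x` contains `x` -/
theorem mem_of_comp {n : ℕ} {M : Type} [AddCommGroup M] [Module (Po (Ix n)) M] {c : Dg → M →+ M} (hc : IsGr n c)
    (S : AddSubgroup M) (x : M) (h : ∀ a : Dg, c a x ∈ S) : x ∈ S := by
  rw [← hc.sum x]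
  exact finsum_induction (fun y => y ∈ S) S.zero_mem (fun _ _ ha hb => S.add_mem ha hb) h

theorem zero_of_comp {n : ℕ} {M : Type} [AddCommGroup M] [Module (Po (Ix n)) M] {c : Dg → M →+ M} (hc : IsGr n c)
    (x : M) (h : ∀ a : Dg, c a x = 0) : x = 0 := by
  have h2 : x ∈ (⊥ : AddSubgroup M) := mem_of_comp hc ⊥ x (fun a => by rw [h a]; exact AddSubgroup.zero_mem _)
  exact h2

/-- `E N` is killed by the homogeneous polynomials which kill `N` -/
theorem kil_E {n : ℕ} (D : ED n) (I : Set (Po (Ix n)))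
    (hI : ∀ r ∈ I, ∃ a : Dg, MvPolynomial.IsWeightedHomogeneous (dg (n := n)) r a)
    (N : Type) [AddCommGroup N] [Module (Po (Ix n)) N] (hN : Kil I N) : Kil I (D.E N).M := by
  intro r hr x
  obtain ⟨f, hf⟩ := hI r hr
  have h : x ∈ (LinearMap.ker (mg (D.E N).M r)).toAddSubgroup := by
    apply mem_of_comp (D.gr N)
    intro a
    obtain ⟨m, hm⟩ := D.gen N a x
    rw [hm]
    change r • D.t N a m = 0
    rw [D.act N r f hf, hN r hr, map_zero]
  exact h

section Fun

variable {n : ℕ} (D : ED n) {A B C : Type} [AddCommGroup A] [Module (Po (Ix n)) A] [AddCommGroup B]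
  [Module (Po (Ix n)) B] [AddCommGroup C] [Module (Po (Ix n)) C]

theorem inj_map (i : A →ₗ[Po (Ix n)] B) (hi : Function.Injective i) (F : (D.E A).M →ₗ[Po (Ix n)] (D.E B).M)
    (h1 : ∀ (a : Dg) (m : A), F (D.t A a m) = D.t B a (i m))
    (h2 : ∀ (a : Dg) (x : (D.E A).M), F ((D.E A).c a x) = (D.E B).c a (F x)) : Function.Injective F := by
  rw [injective_iff_map_eq_zero]
  intro x hx
  apply zero_of_comp (D.gr A)
  intro a
  obtain ⟨m, hm⟩ := D.gen A a x
  have h3 : D.t B a (i m) = 0 := by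
    rw [← h1, ← hm, h2, hx, map_zero]
  have h4 : i m = 0 := by
    apply D.inj B a
    rw [h3, map_zero]
  have h5 : m = 0 := by
    apply hi
    rw [h4, map_zero]
  rw [hm, h5, map_zero]

theorem surj_map (p : B →ₗ[Po (Ix n)] C) (hp : Function.Surjective p) (F : (D.E B).M →ₗ[Po (Ix n)] (D.E C).M)
    (h1 : ∀ (a : Dg) (m : B), F (D.t B a m) = D.t C a (p m)) : Function.Surjective F := by
  intro y
  have h : y ∈ (LinearMap.range F).toAddSubgroup := by
    apply mem_of_comp (D.gr C)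
    intro a
    obtain ⟨m, hm⟩ := D.gen C a y
    obtain ⟨m', hm'⟩ := hp m
    rw [hm]
    exact ⟨D.t B a m', by rw [h1, hm']⟩
  exact h

theorem exact_map (i : A →ₗ[Po (Ix n)] B) (p : B →ₗ[Po (Ix n)] C) (he : Function.Exact i p)
    (F : (D.E A).M →ₗ[Po (Ix n)] (D.E B).M) (F' : (D.E B).M →ₗ[Po (Ix n)] (D.E C).M)
    (h1 : ∀ (a : Dg) (m : A), F (D.t A a m) = D.t B a (i m))
    (h1' : ∀ (a : Dg) (m : B), F' (D.t B a m) = D.t C a (p m))
    (h2' : ∀ (a : Dg) (x : (D.E B).M), F' ((D.E B).c a x) = (D.E C).c a (F' x)) : Function.Exact F F' := by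
  intro y
  constructor
  · intro hy
    have h : y ∈ (LinearMap.range F).toAddSubgroup := by
      apply mem_of_comp (D.gr B)
      intro a
      obtain ⟨m, hm⟩ := D.gen B a y
      have h3 : D.t C a (p m) = 0 := by
        rw [← h1', ← hm, h2', hy, map_zero]
      have h4 : p m = 0 := by
        apply D.inj C a
        rw [h3, map_zero]
      obtain ⟨m', hm'⟩ := (he m).1 h4
      rw [hm]
      exact ⟨D.t A a m', by rw [h1, hm']⟩
    exact h
  · rintro ⟨x, rfl⟩
    have h : x ∈ (LinearMap.ker (F'.comp F)).toAddSubgroup := by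
      apply mem_of_comp (D.gr A)
      intro a
      obtain ⟨m, hm⟩ := D.gen A a x
      rw [hm]
      change F' (F (D.t A a m)) = 0
      rw [h1, h1', he.apply_apply_eq_zero, map_zero]
    exact h

end Fun

/-- additivity of `N ↦ G (E N)` -/
theorem add_E (hGa : S_Ga) (hLe : S_Gle) {n : ℕ} {I : Set (Po (Ix n))} {V : Type 1} [AddCommGroup V] (χ : GFun n I V)
    (D : ED n) (hI : ∀ r ∈ I, ∃ a : Dg, MvPolynomial.IsWeightedHomogeneous (dg (n := n)) r a)
    (G : (M : Type) → [AddCommGroup M] → [Module (Po (Ix n)) M] → (Dg → M →+ M) → V)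
    (hG : ∀ (M : Type) [AddCommGroup M] [Module (Po (Ix n)) M] (c : Dg → M →+ M), Kil I M → IsGr n c →
        ∀ L : Submodule (Po (Ix n)) M, L.FG → Stb c L → (∀ x : M, ∃ k : ℕ, uu n ^ k • x ∈ L) → G M c = χ.f L (cS c L))
    (A B C : Type) [AddCommGroup A] [Module (Po (Ix n)) A] [AddCommGroup B] [Module (Po (Ix n)) B] [AddCommGroup C]
    [Module (Po (Ix n)) C] (i : A →ₗ[Po (Ix n)] B) (p : B →ₗ[Po (Ix n)] C) (hB : Module.Finite (Po (Ix n)) B)
    (hk : Kil (U1 n ∪ I) B) (hi : Function.Injective i) (hp : Function.Surjective p) (he : Function.Exact i p) :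
    G (D.E B).M (D.E B).c = G (D.E A).M (D.E A).c + G (D.E C).M (D.E C).c := by
  obtain ⟨F, hF1, hF2⟩ := D.map A B i
  obtain ⟨F', hF1', hF2'⟩ := D.map B C p
  have hFi : Function.Injective F := inj_map D i hi F hF1 hF2
  have hFs : Function.Surjective F' := surj_map D p hp F' hF1'
  have hFe : Function.Exact F F' := exact_map D i p he F F' hF1 hF1' hF2'
  have kB : Kil I B := fun r hr m => hk r (Or.inr hr) m
  have kA : Kil I A := fun r hr m => hi (by rw [map_smul, kB r hr, map_zero])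
  have kC : Kil I C := by
    intro r hr m
    obtain ⟨m', rfl⟩ := hp m
    rw [← map_smul, kB r hr, map_zero]
  have kEB := kil_E D I hI B kB
  have kEA := kil_E D I hI A kA
  have kEC := kil_E D I hI C kC
  obtain ⟨s, hs⟩ := hB.fg_top
  obtain ⟨hL1, hL2⟩ := hLe n D B hB (fun r hr m => hk r (Or.inl hr) m) s hs
  obtain ⟨L, hL⟩ : ∃ L, L = Submodule.span (Po (Ix n)) (D.t B 0 '' (s : Set B)) := ⟨_, rfl⟩
  rw [← hL] at hL1 hL2
  have hLfg : L.FG := by
    rw [hL]
    exact Submodule.fg_span (s.finite_toSet.image _)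
  have hLn : IsNoetherian (Po (Ix n)) L := isNoetherian_of_fg_of_noetherian L hLfg
  -- the lattice in `E A`
  have hAst : Stb (D.E A).c (L.comap F) := by
    intro a x hx
    change F ((D.E A).c a x) ∈ L
    rw [hF2]
    exact hL1 a _ hx
  have hAfg : (L.comap F).FG := by
    have h1 : (L.comap F).map F ≤ L := Submodule.map_comap_le F L
    have h2 : ((L.comap F).map F).FG := by
      have h3 := (isNoetherian_submodule.1 hLn) _ h1
      exact h3
    exact Submodule.fg_of_fg_map_injective F hFi h2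
  have hAk : ∀ x : (D.E A).M, ∃ k : ℕ, uu n ^ k • x ∈ L.comap F := by
    intro x
    obtain ⟨k, hk⟩ := hL2 (F x)
    refine ⟨k, ?_⟩
    change F (uu n ^ k • x) ∈ L
    rw [map_smul]
    exact hk
  -- the lattice in `E C`
  have hCst : Stb (D.E C).c (L.map F') := by
    rintro a _ ⟨y, hy, rfl⟩
    exact ⟨(D.E B).c a y, hL1 a y hy, hF2' a y⟩
  have hCk : ∀ x : (D.E C).M, ∃ k : ℕ, uu n ^ k • x ∈ L.map F' := by
    intro x
    obtain ⟨y, rfl⟩ := hFs x
    obtain ⟨k, hk⟩ := hL2 y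
    exact ⟨k, ⟨_, hk, by rw [map_smul]⟩⟩
  rw [hG _ _ kEB (D.gr B) L hLfg hL1 hL2, hG _ _ kEA (D.gr A) (L.comap F) hAfg hAst hAk,
    hG _ _ kEC (D.gr C) (L.map F') (hLfg.map F') hCst hCk]
  obtain ⟨gA, -, vA, -⟩ := (hGa n _ (D.E A).c (D.gr A)).2.1 (L.comap F) hAst
  obtain ⟨gB, -, vB, -⟩ := (hGa n _ (D.E B).c (D.gr B)).2.1 L hL1
  obtain ⟨gC, -, vC, -⟩ := (hGa n _ (D.E C).c (D.gr C)).2.1 (L.map F') hCst
  refine χ.add (L.comap F) L (L.map F') _ _ _ (F.restrict (fun x hx => hx)) (F'.restrict (fun x hx => ⟨x, hx, rfl⟩))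
    (Module.Finite.iff_fg.2 hLfg) (fun r hr m => Subtype.ext (kEB r hr (m : (D.E B).M))) gA gB gC ?_ ?_ ?_ ?_ ?_
  · intro e x
    apply Subtype.ext
    rw [vB]
    change F ((cS (D.E A).c (L.comap F) e x : L.comap F) : (D.E A).M) = (D.E B).c e (F (x : (D.E A).M))
    rw [vA, hF2]
  · intro e x
    apply Subtype.ext
    rw [vC]
    change F' ((cS (D.E B).c L e x : L) : (D.E B).M) = (D.E C).c e (F' (x : (D.E B).M))
    rw [vB, hF2']
  · intro x y hxy
    apply Subtype.ext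
    apply hFi
    exact congrArg Subtype.val hxy
  · rintro ⟨_, y, hy, rfl⟩
    exact ⟨⟨y, hy⟩, rfl⟩
  · intro y
    constructor
    · intro hy
      have h3 : F' (y : (D.E B).M) = 0 := congrArg Subtype.val hy
      obtain ⟨x, hx⟩ := (hFe _).1 h3
      refine ⟨⟨x, ?_⟩, Subtype.ext hx⟩
      change F x ∈ L
      rw [hx]
      exact y.2
    · rintro ⟨x, rfl⟩
      apply Subtype.ext
      exact hFe.apply_apply_eq_zero _

end Glb_aux

open Glb_aux in
theorem tGlb : S_Ga → S_Gb → S_Gi → S_Gu → S_Gla → S_Ge → S_Gle → S_Glv → S_Glb := by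
  intro hGa _ _ _ hla hEx hle hlv n I V _ χ hχ hI
  obtain ⟨D⟩ := hEx n
  obtain ⟨G, hG⟩ := hla n I V χ hχ
  refine ⟨⟨fun N _ _ => G (D.E N).M (D.E N).c, fun A B C _ _ _ _ _ _ i p hB hk hi hp he =>
    add_E hGa hle χ D hI G hG A B C i p hB hk hi hp he⟩, ?_⟩
  intro A hA hIA
  have hN : Kil (U1 n ∪ A) (Po (Ix n) ⧸ Ideal.span (U1 n ∪ A)) := by
    intro r hr m
    obtain ⟨m', rfl⟩ := Ideal.Quotient.mk_surjective m
    have h1 : r • (Ideal.Quotient.mk (Ideal.span (U1 n ∪ A))) m' = (Ideal.Quotient.mk (Ideal.span (U1 n ∪ A))) (r * m') := rfl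
    rw [h1, Ideal.Quotient.eq_zero_iff_mem]
    exact Ideal.mul_mem_right _ _ (Ideal.subset_span hr)
  have hNI : Kil I (Po (Ix n) ⧸ Ideal.span (U1 n ∪ A)) := by
    intro r hr m
    obtain ⟨m', rfl⟩ := Ideal.Quotient.mk_surjective m
    have h1 : r • (Ideal.Quotient.mk (Ideal.span (U1 n ∪ A))) m' = (Ideal.Quotient.mk (Ideal.span (U1 n ∪ A))) (r * m') := rfl
    rw [h1, Ideal.Quotient.eq_zero_iff_mem]
    exact Ideal.mul_mem_right _ _ (Ideal.span_mono Set.subset_union_right (hIA r hr))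
  have hs : Submodule.span (Po (Ix n)) (({Ideal.Quotient.mk (Ideal.span (U1 n ∪ A)) 1} :
      Finset (Po (Ix n) ⧸ Ideal.span (U1 n ∪ A))) : Set (Po (Ix n) ⧸ Ideal.span (U1 n ∪ A))) = ⊤ := by
    rw [eq_top_iff]
    rintro m -
    obtain ⟨m', rfl⟩ := Ideal.Quotient.mk_surjective m
    have h1 : (Ideal.Quotient.mk (Ideal.span (U1 n ∪ A))) m' = m' • (Ideal.Quotient.mk (Ideal.span (U1 n ∪ A))) 1 := by
      have h2 : m' • (Ideal.Quotient.mk (Ideal.span (U1 n ∪ A))) 1 =
        (Ideal.Quotient.mk (Ideal.span (U1 n ∪ A))) (m' * 1) := rfl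
      rw [h2, mul_one]
    rw [h1]
    apply Submodule.smul_mem
    apply Submodule.subset_span
    simp
  obtain ⟨h1, h2⟩ := hle n D (Po (Ix n) ⧸ Ideal.span (U1 n ∪ A)) inferInstance
    (fun r hr m => hN r (Or.inl hr) m) _ hs
  rw [Finset.coe_singleton, Set.image_singleton] at h1 h2
  have h3 := hlv n D I A V χ hχ hA hIA
  rw [← h3]
  exact hG _ _ (kil_E D I hI _ hNI) (D.gr _) _ (Submodule.fg_span_singleton _) h1 h2

end Pool.Agent.FY
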