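import Pool.Agent.Lib.MP_b53bfe_ag.Spec3

/-!
# Gle: lattices in `E N`
-/

set_option autoImplicit false

noncomputable section

namespace Pool.Agent.FY

open Polynomial

namespace Gle_aux

variable {n : ℕ}

theorem clos {R M : Type} [CommRing R] [AddCommGroup M] [Module R M] {s : Set M} {P : M → Prop} (h0 : P 0)
    (hadd : ∀ x y, P x → P y → P (x + y)) (hs : ∀ (r : R) (x : M), x ∈ s → P (r • x)) {x : M}
    (hx : x ∈ Submodule.span R s) : P x :=
  Submodule.closure_induction (p := fun x _ => P x) h0 (fun x y _ _ => hadd x y) (fun r x hx => hs r x hx) hx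

theorem c_t (D : ED n) (N : Type) [AddCommGroup N] [Module (Po (Ix n)) N] (a b : Dg) (m : N) :
    (D.E N).c a (D.t N b m) = if a = b then D.t N b m else 0 := by
  by_cases h : a = b
  · subst h
    rw [if_pos rfl, D.comp]
  · rw [if_neg h]
    have h1 := (D.gr N).orth a b (D.t N b m) h
    rwa [D.comp] at h1

theorem mon_t (D : ED n) (N : Type) [AddCommGroup N] [Module (Po (Ix n)) N] (m : Ix n →₀ ℕ) (z : ℂ) (a : Dg) (y : N) :
    (MvPolynomial.monomial m z : Po (Ix n)) • D.t N a y =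
      D.t N (a + Finsupp.weight (dg (n := n)) m) ((MvPolynomial.monomial m z : Po (Ix n)) • y) :=
  D.act N _ _ (MvPolynomial.isWeightedHomogeneous_monomial _ _ _ rfl) a y

theorem stab (D : ED n) (N : Type) [AddCommGroup N] [Module (Po (Ix n)) N] (s : Set N) :
    Stb (D.E N).c (Submodule.span (Po (Ix n)) (D.t N 0 '' s)) := by
  intro a x hx
  refine clos (P := fun x => (D.E N).c a x ∈ Submodule.span (Po (Ix n)) (D.t N 0 '' s)) ?_ ?_ ?_ hx
  · rw [map_zero]
    exact Submodule.zero_mem _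
  · intro x y h1 h2
    rw [map_add]
    exact Submodule.add_mem _ h1 h2
  · rintro r _ ⟨y, hy, rfl⟩
    induction r using MvPolynomial.induction_on' with
    | monomial u z =>
      rw [mon_t, c_t]
      by_cases h : a = 0 + Finsupp.weight (dg (n := n)) u
      · rw [if_pos h, ← mon_t]
        exact Submodule.smul_mem _ _ (Submodule.subset_span ⟨y, hy, rfl⟩)
      · rw [if_neg h]
        exact Submodule.zero_mem _
    | add p q h1 h2 =>
      rw [add_smul, map_add]
      exact Submodule.add_mem _ h1 h2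

theorem X_one {N : Type} [AddCommGroup N] [Module (Po (Ix n)) N] (h : Kil (U1 n) N) (i : Fin 3) (y : N) :
    (MvPolynomial.X ((i, 1) : Ix n) : Po (Ix n)) • y = y := by
  have h1 := h _ ⟨i, rfl⟩ y
  simpa [sub_smul, sub_eq_zero] using h1

theorem Xpow_one {N : Type} [AddCommGroup N] [Module (Po (Ix n)) N] (h : Kil (U1 n) N) (i : Fin 3) (k : ℕ) (y : N) :
    (MvPolynomial.X ((i, 1) : Ix n) : Po (Ix n)) ^ k • y = y := by
  induction k with
  | zero => simp
  | succ k ih => rw [pow_succ, mul_smul, X_one h, ih]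

theorem prod_one {N : Type} [AddCommGroup N] [Module (Po (Ix n)) N] (h : Kil (U1 n) N) (e : Fin 3 → ℕ) (y : N) :
    (∏ i : Fin 3, (MvPolynomial.X ((i, 1) : Ix n) : Po (Ix n)) ^ e i) • y = y := by
  rw [Fin.prod_univ_three, mul_smul, mul_smul, Xpow_one h, Xpow_one h, Xpow_one h]

theorem uu_pow (k : ℕ) : uu n ^ k = ∏ i : Fin 3, (MvPolynomial.X ((i, 1) : Ix n) : Po (Ix n)) ^ k := by
  rw [uu, Finset.prod_pow]

theorem hom_prod (e : Fin 3 → ℕ) :
    MvPolynomial.IsWeightedHomogeneous (dg (n := n))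
      (∏ i : Fin 3, (MvPolynomial.X ((i, 1) : Ix n) : Po (Ix n)) ^ e i) (fun i => (e i : ℤ)) := by
  have h1 := MvPolynomial.IsWeightedHomogeneous.prod (R := ℂ) (w := dg (n := n)) Finset.univ
    (fun i : Fin 3 => (MvPolynomial.X ((i, 1) : Ix n) : Po (Ix n)) ^ e i) (fun i => e i • dg ((i, 1) : Ix n))
    (fun i _ => (MvPolynomial.isWeightedHomogeneous_X ℂ (dg (n := n)) ((i, 1) : Ix n)).pow (e i))
  have h2 : (∑ i : Fin 3, e i • dg ((i, 1) : Ix n)) = (fun i => (e i : ℤ)) := by
    funext j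
    rw [Finset.sum_apply]
    simp [dg, Pi.single_apply]
  rwa [h2] at h1

theorem mono_case (D : ED n) (N : Type) [AddCommGroup N] [Module (Po (Ix n)) N] (h : Kil (U1 n) N) (s : Set N)
    (a : Dg) (u : Ix n →₀ ℕ) (z : ℂ) (y : N) (hy : y ∈ s) :
    ∃ k : ℕ, uu n ^ k • D.t N a ((MvPolynomial.monomial u z : Po (Ix n)) • y) ∈
      Submodule.span (Po (Ix n)) (D.t N 0 '' s) := by
  set w : Dg := Finsupp.weight (dg (n := n)) u with hw
  let k : ℕ := ∑ i : Fin 3, (w i - a i).natAbs
  have hk : ∀ i : Fin 3, w i - a i ≤ (k : ℤ) := by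
    intro i
    have h1 : (w i - a i).natAbs ≤ k := Finset.single_le_sum (f := fun i : Fin 3 => (w i - a i).natAbs)
      (fun _ _ => Nat.zero_le _) (Finset.mem_univ i)
    omega
  refine ⟨k, ?_⟩
  have h1 : uu n ^ k • D.t N a ((MvPolynomial.monomial u z : Po (Ix n)) • y) =
      D.t N (a + fun _ => (k : ℤ)) ((MvPolynomial.monomial u z : Po (Ix n)) • y) := by
    have h2 := D.act N (uu n ^ k) (fun _ => (k : ℤ)) (by rw [uu_pow]; exact hom_prod fun _ => k) a
      ((MvPolynomial.monomial u z : Po (Ix n)) • y)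
    rw [h2, uu_pow, prod_one h]
  let e : Fin 3 → ℕ := fun i => (a i + k - w i).toNat
  have he : ((fun i => (e i : ℤ)) : Dg) = a + (fun _ => (k : ℤ)) - w := by
    funext i
    have := hk i
    simp only [e, Pi.add_apply, Pi.sub_apply]
    omega
  have h3 := D.act N _ _ (hom_prod (n := n) e) w ((MvPolynomial.monomial u z : Po (Ix n)) • y)
  rw [prod_one h, he, add_sub_cancel] at h3
  rw [h1, ← h3]
  have h4 := mon_t D N u z 0 y
  rw [zero_add, ← hw] at h4
  rw [← h4]
  exact Submodule.smul_mem _ _ (Submodule.smul_mem _ _ (Submodule.subset_span ⟨y, hy, rfl⟩))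

theorem add_case {R M : Type} [CommRing R] [AddCommGroup M] [Module R M] (L : Submodule R M) (v : R) (x y : M)
    (hx : ∃ k : ℕ, v ^ k • x ∈ L) (hy : ∃ k : ℕ, v ^ k • y ∈ L) : ∃ k : ℕ, v ^ k • (x + y) ∈ L := by
  obtain ⟨k, hk⟩ := hx
  obtain ⟨l, hl⟩ := hy
  refine ⟨k + l, ?_⟩
  rw [smul_add]
  refine Submodule.add_mem _ ?_ ?_
  · rw [add_comm, pow_add, mul_smul]
    exact Submodule.smul_mem _ _ hk
  · rw [pow_add, mul_smul]
    exact Submodule.smul_mem _ _ hl

theorem lat (D : ED n) (N : Type) [AddCommGroup N] [Module (Po (Ix n)) N] (h : Kil (U1 n) N) (s : Set N)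
    (hs : Submodule.span (Po (Ix n)) s = ⊤) (x : (D.E N).M) :
    ∃ k : ℕ, uu n ^ k • x ∈ Submodule.span (Po (Ix n)) (D.t N 0 '' s) := by
  rw [← (D.gr N).sum x]
  refine finsum_induction (fun x => ∃ k : ℕ, uu n ^ k • x ∈ Submodule.span (Po (Ix n)) (D.t N 0 '' s)) ?_ ?_ ?_
  · exact ⟨0, by rw [smul_zero]; exact Submodule.zero_mem _⟩
  · exact fun x y => add_case _ _ x y
  · intro a
    obtain ⟨m, hm⟩ := D.gen N a x
    rw [hm]
    have hm : m ∈ Submodule.span (Po (Ix n)) s := hs ▸ Submodule.mem_top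
    refine clos (P := fun m => ∃ k : ℕ, uu n ^ k • D.t N a m ∈ Submodule.span (Po (Ix n)) (D.t N 0 '' s)) ?_ ?_ ?_ hm
    · exact ⟨0, by rw [map_zero, smul_zero]; exact Submodule.zero_mem _⟩
    · intro x y h1 h2
      rw [map_add]
      exact add_case _ _ _ _ h1 h2
    · intro r y hy
      induction r using MvPolynomial.induction_on' with
      | monomial u z => exact mono_case D N h s a u z y hy
      | add p q h1 h2 =>
        rw [add_smul, map_add]
        exact add_case _ _ _ _ h1 h2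

end Gle_aux

theorem tGle : S_Ga → S_Gb → S_Gi → S_Gu → S_Gle := by
  intro _ _ _ _ n D N _ _ _ hk s hs
  exact ⟨Gle_aux.stab D N _, Gle_aux.lat D N hk _ hs⟩

end Pool.Agent.FY
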