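import Pool.Agent.Lib.MP_b53bfe_ag.Spec3
import Pool.Agent.Lib.MP_b53bfe_ag.Bas

/-!
# Theorem T2 (MP_b53bfe_ag), module Glv: the value of the dehomogenised functional (helper62)
-/

set_option autoImplicit false

noncomputable section

namespace Pool.Agent.FY

open Polynomial

namespace Glv_aux

/-- the degree of a monomial in the row `i` -/
theorem weight_row (n : ℕ) (d : Ix n →₀ ℕ) (i : Fin 3) :
    (Finsupp.weight (dg (n := n)) d) i = ((∑ j, d (i, j) : ℕ) : ℤ) := by
  rw [Finsupp.weight_apply, Finsupp.sum_fintype d (fun p c => c • dg p) (fun p => zero_smul _ _),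
    Finset.sum_apply, Fintype.sum_prod_type, Finset.sum_eq_single i]
  · push_cast
    refine Finset.sum_congr rfl fun j _ => ?_
    simp [dg]
  · intro i' _ hi'
    refine Finset.sum_eq_zero fun j _ => ?_
    simp [dg, Ne.symm hi']
  · intro h
    exact absurd (Finset.mem_univ i) h

/-- dehomogenisation: a homogeneous element of `span (U1 ∪ A)` is in `span A` after multiplication with a power of `uu` -/
theorem dehom (n : ℕ) (A : Set (Po (Ix n)))
    (hA : ∀ r ∈ A, ∃ a : Dg, MvPolynomial.IsWeightedHomogeneous (dg (n := n)) r a)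
    (p : Po (Ix n)) (f : Dg) (hp : MvPolynomial.IsWeightedHomogeneous (dg (n := n)) p f)
    (h : p ∈ Ideal.span (U1 n ∪ A)) : ∃ k : ℕ, uu n ^ k * p ∈ Ideal.span A := by
  classical
  let J : Ideal (Po (Ix n)) := Ideal.span A
  let q : Po (Ix n) ⧸ J := Ideal.Quotient.mk J (uu n)
  let L := Localization.Away q
  let ι : Po (Ix n) →+* L := (algebraMap (Po (Ix n) ⧸ J) L).comp (Ideal.Quotient.mk J)
  obtain ⟨qi, hqi⟩ : ∃ qi : L, ι (uu n) * qi = 1 :=
    ⟨IsLocalization.Away.invSelf q, IsLocalization.Away.mul_invSelf q⟩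
  have hy : ∀ i : Fin 3, ∃ y : L, ι (MvPolynomial.X ((i, 1) : Ix n)) * y = 1 := by
    intro i
    refine ⟨ι (∏ j ∈ Finset.univ.erase i, MvPolynomial.X ((j, 1) : Ix n)) * qi, ?_⟩
    rw [← mul_assoc, ← map_mul, Finset.mul_prod_erase Finset.univ
      (fun j => (MvPolynomial.X ((j, 1) : Ix n) : Po (Ix n))) (Finset.mem_univ i)]
    exact hqi
  choose y hy using hy
  let ψ : Po (Ix n) →+* L := MvPolynomial.eval₂Hom (ι.comp MvPolynomial.C)
    (fun p => ι (MvPolynomial.X p) * y p.1)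
  have hψC : ∀ c : ℂ, ψ (MvPolynomial.C c) = ι (MvPolynomial.C c) := fun c =>
    MvPolynomial.eval₂Hom_C _ _ _
  have hψX : ∀ p : Ix n, ψ (MvPolynomial.X p) = ι (MvPolynomial.X p) * y p.1 := fun p =>
    MvPolynomial.eval₂Hom_X' _ _ _
  have hmon : ∀ (θ : Po (Ix n) →+* L) (d : Ix n →₀ ℕ) (c : ℂ),
      θ (MvPolynomial.monomial d c) = θ (MvPolynomial.C c) * ∏ p, θ (MvPolynomial.X p) ^ d p := by
    intro θ d c
    rw [MvPolynomial.monomial_eq, map_mul, Finsupp.prod_fintype _ _ (fun p => pow_zero _), map_prod]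
    simp only [map_pow]
  -- comparison on homogeneous elements
  have hcmp : ∀ (r : Po (Ix n)) (a : Dg), MvPolynomial.IsWeightedHomogeneous (dg (n := n)) r a →
      ι r = ψ r * ∏ i : Fin 3, ι (MvPolynomial.X ((i, 1) : Ix n)) ^ (a i).toNat := by
    intro r a hr
    conv_lhs => rw [r.as_sum]
    conv_rhs => rw [r.as_sum]
    rw [map_sum, map_sum, Finset.sum_mul]
    refine Finset.sum_congr rfl fun d hd => ?_
    have hw := hr (MvPolynomial.mem_support_iff.1 hd)
    have ha : ∀ i : Fin 3, (a i).toNat = ∑ j, d (i, j) := by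
      intro i
      rw [← hw, weight_row, Int.toNat_natCast]
    rw [hmon ι, hmon ψ, hψC, mul_assoc]
    congr 1
    simp only [hψX, mul_pow]
    rw [Finset.prod_mul_distrib, mul_assoc]
    have h1 : (∏ p : Ix n, y p.1 ^ d p) *
        ∏ i : Fin 3, ι (MvPolynomial.X ((i, 1) : Ix n)) ^ (a i).toNat = 1 := by
      rw [Fintype.prod_prod_type, ← Finset.prod_mul_distrib]
      refine Finset.prod_eq_one fun i _ => ?_
      have h2 : ∏ j, y (i, j).1 ^ d (i, j) = y i ^ ∑ j, d (i, j) :=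
        Finset.prod_pow_eq_pow_sum Finset.univ (fun j : Fin (n + 3) => d (i, j)) (y i)
      rw [h2, ha i, ← mul_pow, mul_comm (y i), hy i, one_pow]
    rw [h1, mul_one]
  have hU : ∀ a : Dg, (∏ i : Fin 3, ι (MvPolynomial.X ((i, 1) : Ix n)) ^ (a i).toNat) *
      ∏ i : Fin 3, y i ^ (a i).toNat = 1 := by
    intro a
    rw [← Finset.prod_mul_distrib]
    refine Finset.prod_eq_one fun i _ => ?_
    rw [← mul_pow, hy i, one_pow]
  have hker : ∀ r ∈ Ideal.span (U1 n ∪ A), ψ r = 0 := by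
    have hle : Ideal.span (U1 n ∪ A) ≤ RingHom.ker ψ := by
      rw [Ideal.span_le]
      rintro r (⟨i, rfl⟩ | hr)
      · show ψ (MvPolynomial.X ((i, 1) : Ix n) - 1) = 0
        rw [map_sub, map_one, hψX, hy i, sub_self]
      · show ψ r = 0
        obtain ⟨a, ha⟩ := hA r hr
        have h0 : ι r = 0 := by
          have : Ideal.Quotient.mk J r = 0 :=
            Ideal.Quotient.eq_zero_iff_mem.2 (Ideal.subset_span hr)
          change algebraMap (Po (Ix n) ⧸ J) L (Ideal.Quotient.mk J r) = 0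
          rw [this, map_zero]
        have h1 := hcmp r a ha
        calc ψ r = ψ r * ((∏ i : Fin 3, ι (MvPolynomial.X ((i, 1) : Ix n)) ^ (a i).toNat) *
            ∏ i : Fin 3, y i ^ (a i).toNat) := by rw [hU, mul_one]
          _ = ι r * ∏ i : Fin 3, y i ^ (a i).toNat := by rw [← mul_assoc, ← h1]
          _ = 0 := by rw [h0, zero_mul]
    intro r hr
    exact hle hr
  have hι : ι p = 0 := by
    rw [hcmp p f hp, hker p h, zero_mul]
  have h2 : algebraMap (Po (Ix n) ⧸ J) L (Ideal.Quotient.mk J p) =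
      algebraMap (Po (Ix n) ⧸ J) L 0 := by
    rw [map_zero]
    exact hι
  obtain ⟨⟨c, k, hc⟩, h3⟩ := (IsLocalization.eq_iff_exists (Submonoid.powers q) L).1 h2
  refine ⟨k, Ideal.Quotient.eq_zero_iff_mem.1 ?_⟩
  have h4 : c * Ideal.Quotient.mk J p = c * 0 := h3
  rw [mul_zero, ← show q ^ k = c from hc] at h4
  rw [map_mul, map_pow]
  exact h4

/-- `r` is homogeneous and `χ` vanishes on the graded modules killed by `r` -/
def PZ {n : ℕ} {I : Set (Po (Ix n))} {V : Type 1} [AddCommGroup V] (χ : GFun n I V) (r : Po (Ix n)) : Prop :=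
  (∃ e : Dg, Hg n r e) ∧ ∀ (M : Type) [AddCommGroup M] [Module (Po (Ix n)) M] (c : Dg → M →+ M), IsGr n c →
    Module.Finite (Po (Ix n)) M → Kil I M → (∀ m : M, r • m = 0) → χ.f M c = 0

variable {n : ℕ} {I : Set (Po (Ix n))} {V : Type 1} [AddCommGroup V] {χ : GFun n I V}

theorem Hg_mul {r s : Po (Ix n)} {e f : Dg} (hr : Hg n r e) (hs : Hg n s f) : Hg n (r * s) (f + e) := by
  intro M _ _ c hc a m
  rw [mul_smul, mul_smul, ← add_assoc, hr M c hc (a + f) (s • m), hs M c hc a m]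

theorem PZ_one (hu : S_Gu) : PZ χ 1 := by
  refine ⟨⟨0, fun M _ _ c hc a m => by rw [add_zero, one_smul, one_smul]⟩, ?_⟩
  intro M _ _ c hc hf hk h
  have hs : Subsingleton M := ⟨fun x y => by
    rw [← one_smul (Po (Ix n)) x, ← one_smul (Po (Ix n)) y, h, h]⟩
  exact (hu n I V χ M c hc hf hk).1 hs

theorem PZ_X (hi : S_Gi) {p : Ix n} (h : KV χ p) : PZ χ (MvPolynomial.X p) :=
  ⟨⟨dg p, (hi n).1 _ _ (MvPolynomial.isWeightedHomogeneous_X ℂ _ p)⟩, fun M _ _ c hc hf hk hm =>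
    h M c hc hf hk hm⟩

theorem PZ_mul (ha : S_Ga) (hu : S_Gu) {r s : Po (Ix n)} (hr : PZ χ r) (hs : PZ χ s) :
    PZ χ (r * s) := by
  obtain ⟨⟨e, he⟩, hr⟩ := hr
  obtain ⟨⟨f, hf⟩, hs⟩ := hs
  refine ⟨⟨f + e, Hg_mul he hf⟩, ?_⟩
  intro M _ _ c hc hfin hk h
  obtain ⟨-, h2, h3⟩ := ha n M c hc
  have hst := (h3 r e he).2
  obtain ⟨g1, g2, g3, g4⟩ := h2 _ hst
  have : IsNoetherian (Po (Ix n)) M := isNoetherian_of_isNoetherianRing_of_finite _ _
  rw [((hu n I V χ M c hc hfin hk).2.2 _ hst)]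
  rw [hr (LinearMap.ker (mg M r)) _ g1 inferInstance (hk.sub _) (fun x => Subtype.ext x.2), zero_add]
  refine hs (M ⧸ LinearMap.ker (mg M r)) _ g2 inferInstance (hk.quot _) (fun x => ?_)
  obtain ⟨m, rfl⟩ := Submodule.Quotient.mk_surjective _ x
  rw [← Submodule.Quotient.mk_smul, Submodule.Quotient.mk_eq_zero]
  show r • s • m = 0
  rw [smul_smul]
  exact h m

theorem PZ_pow (ha : S_Ga) (hu : S_Gu) {r : Po (Ix n)} (hr : PZ χ r) (k : ℕ) : PZ χ (r ^ k) := by
  induction k with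
  | zero => rw [pow_zero]; exact PZ_one hu
  | succ k ih => rw [pow_succ]; exact PZ_mul ha hu ih hr

theorem PZ_uu (ha : S_Ga) (hi : S_Gi) (hu : S_Gu) (h : ∀ i : Fin 3, KV χ (i, 1)) : PZ χ (uu n) := by
  unfold uu
  rw [Fin.prod_univ_three]
  exact PZ_mul ha hu (PZ_mul ha hu (PZ_X hi (h 0)) (PZ_X hi (h 1))) (PZ_X hi (h 2))

/-- the map `p ↦ p • m` is graded if `m` has degree `0` -/
theorem comp_smul (hi : S_Gi) {M : Type} [AddCommGroup M] [Module (Po (Ix n)) M] {c : Dg → M →+ M}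
    (hc : IsGr n c) {m : M} (hm : c 0 m = m) (a : Dg) (p : Po (Ix n)) :
    c a (p • m) = cP n a p • m := by
  classical
  obtain ⟨h1, h2, -⟩ := hi n
  have hmem : ∀ g : Dg, c g (cP n g p • m) = cP n g p • m := by
    intro g
    have h3 : MvPolynomial.IsWeightedHomogeneous (dg (n := n)) (cP n g p) g :=
      MvPolynomial.weightedHomogeneousComponent_isWeightedHomogeneous g p
    have h4 := h1 _ g h3 M c hc 0 m
    rw [zero_add, hm] at h4
    exact h4
  have hfin := h2.fin p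
  have hsum := h2.sum p
  have hs : p = ∑ g ∈ hfin.toFinset, cP n g p := by
    conv_lhs => rw [← hsum]
    exact finsum_eq_sum_of_support_subset _ (fun g hg => by
      simpa using hg)
  have h5 : c a (p • m) = ∑ g ∈ hfin.toFinset, c a (cP n g p • m) := by
    conv_lhs => rw [hs]
    rw [Finset.sum_smul, map_sum]
  rw [h5, Finset.sum_eq_single a]
  · exact hmem a
  · intro g _ hg
    rw [← hmem g, hc.orth a g _ (Ne.symm hg)]
  · intro hn
    have h6 : cP n a p = 0 := by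
      by_contra hne
      exact hn (hfin.mem_toFinset.2 hne)
    rw [h6, zero_smul, map_zero]

end Glv_aux

open Glv_aux in
theorem tGlv : S_Ga → S_Gb → S_Gi → S_Gu → S_Glv := by
  classical
  intro ha _ hi hu n D I A V _ χ hKV hA hI
  let N : Type := Po (Ix n) ⧸ Ideal.span (U1 n ∪ A)
  let e1 : (D.E N).M := D.t N 0 (Ideal.Quotient.mk _ 1)
  let c : Dg → (D.E N).M →+ (D.E N).M := (D.E N).c
  have hc : IsGr n c := D.gr N
  have he1 : c 0 e1 = e1 := D.comp N 0 _
  have hact : ∀ (a : Dg) (p : Po (Ix n)), c a (p • e1) = cP n a p • e1 :=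
    fun a p => comp_smul hi hc he1 a p
  have hval : ∀ (p : Po (Ix n)) (f : Dg), MvPolynomial.IsWeightedHomogeneous (dg (n := n)) p f →
      p • e1 = D.t N f (Ideal.Quotient.mk _ p) := by
    intro p f hp
    have h1 := D.act N p f hp 0 (Ideal.Quotient.mk _ 1)
    rw [zero_add] at h1
    rw [h1]
    congr 1
    show (Ideal.Quotient.mk _ (p * 1) : N) = _
    rw [mul_one]
  have hhom : ∀ (a : Dg) (p : Po (Ix n)),
      MvPolynomial.IsWeightedHomogeneous (dg (n := n)) (cP n a p) a := fun a p =>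
    MvPolynomial.weightedHomogeneousComponent_isWeightedHomogeneous a p
  let L : Submodule (Po (Ix n)) (D.E N).M := Submodule.span (Po (Ix n)) {e1}
  have hmemL : ∀ p : Po (Ix n), p • e1 ∈ L := fun p =>
    Submodule.smul_mem _ _ (Submodule.mem_span_singleton_self _)
  let lam : Po (Ix n) →ₗ[Po (Ix n)] L :=
    (LinearMap.toSpanSingleton (Po (Ix n)) (D.E N).M e1).codRestrict L (fun p => hmemL p)
  have hlam : ∀ p, ((lam p : L) : (D.E N).M) = p • e1 := fun p => rfl
  have hlsurj : Function.Surjective lam := by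
    rintro ⟨x, hx⟩
    obtain ⟨p, rfl⟩ := Submodule.mem_span_singleton.1 hx
    exact ⟨p, Subtype.ext rfl⟩
  have hLst : Stb c L := by
    intro a x hx
    obtain ⟨p, rfl⟩ := Submodule.mem_span_singleton.1 hx
    rw [hact]
    exact hmemL _
  obtain ⟨-, haE, -⟩ := ha n _ c hc
  obtain ⟨gL1, -, gL3, -⟩ := haE L hLst
  -- the kernel
  let K : Ideal (Po (Ix n)) := LinearMap.ker lam
  have hmemK : ∀ p, p ∈ K ↔ p • e1 = 0 := by
    intro p
    rw [LinearMap.mem_ker, ← hlam p]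
    exact (Submodule.coe_eq_zero (p := L) (x := lam p)).symm
  obtain ⟨-, hcP, hcQ⟩ := hi n
  obtain ⟨hJst, hJgr⟩ := hcQ A hA
  have hKst : Stb (cP n) K := by
    intro a p hp
    rw [hmemK] at hp ⊢
    rw [← hact, hp, map_zero]
  obtain ⟨-, haP, -⟩ := ha n _ (cP n) hcP
  obtain ⟨-, gK2, -, gK4⟩ := haP K hKst
  obtain ⟨-, gJ2, -, gJ4⟩ := haP (Ideal.span A) hJst
  have hAK : Ideal.span A ≤ K := by
    rw [Ideal.span_le]
    intro r hr
    obtain ⟨a, har⟩ := hA r hr
    show r ∈ K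
    rw [hmemK, hval r a har]
    have h1 : (Ideal.Quotient.mk (Ideal.span (U1 n ∪ A)) r : N) = 0 :=
      Ideal.Quotient.eq_zero_iff_mem.2 (Ideal.subset_span (Or.inr hr))
    rw [h1, map_zero]
  -- powers of `uu`
  have hKuu : ∀ p ∈ K, ∃ k : ℕ, uu n ^ k * p ∈ Ideal.span A := by
    intro p hp
    have h1 : ∀ a : Dg, ∃ k : ℕ, uu n ^ k * cP n a p ∈ Ideal.span A := by
      intro a
      refine dehom n A hA _ a (hhom a p) ?_
      have h2 : cP n a p • e1 = 0 := (hmemK _).1 (hKst a p hp)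
      rw [hval _ a (hhom a p)] at h2
      have h3 : (Ideal.Quotient.mk (Ideal.span (U1 n ∪ A)) (cP n a p) : N) = 0 :=
        D.inj N a (by rw [h2, map_zero])
      exact Ideal.Quotient.eq_zero_iff_mem.1 h3
    choose k hk using h1
    have hfin := hcP.fin p
    have hs : p = ∑ g ∈ hfin.toFinset, cP n g p := by
      conv_lhs => rw [← hcP.sum p]
      exact finsum_eq_sum_of_support_subset _ (fun g hg => by simpa using hg)
    refine ⟨∑ g ∈ hfin.toFinset, k g, ?_⟩
    have hsp : (uu n ^ ∑ g ∈ hfin.toFinset, k g) * p =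
        ∑ g ∈ hfin.toFinset, (uu n ^ ∑ g ∈ hfin.toFinset, k g) * cP n g p := by
      rw [← Finset.mul_sum, ← hs]
    rw [hsp]
    refine Ideal.sum_mem _ fun g hg => ?_
    have hle : k g ≤ ∑ g ∈ hfin.toFinset, k g :=
      Finset.single_le_sum (fun j _ => Nat.zero_le (k j)) hg
    obtain ⟨l, hl⟩ := Nat.exists_eq_add_of_le hle
    rw [hl, pow_add, mul_comm (uu n ^ k g), mul_assoc]
    exact Ideal.mul_mem_left _ _ (hk g)
  have hKuni : ∃ k : ℕ, ∀ p ∈ K, uu n ^ k * p ∈ Ideal.span A := by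
    obtain ⟨s, hs⟩ := (isNoetherian_def.1 (inferInstance : IsNoetherianRing (Po (Ix n)))) K
    have h1 : ∀ p : Po (Ix n), ∃ k : ℕ, p ∈ K → uu n ^ k * p ∈ Ideal.span A := by
      intro p
      by_cases hp : p ∈ K
      · obtain ⟨k, hk⟩ := hKuu p hp
        exact ⟨k, fun _ => hk⟩
      · exact ⟨0, fun h => absurd h hp⟩
    choose k hk using h1
    refine ⟨∑ g ∈ s, k g, fun p hp => ?_⟩
    rw [← hs] at hp
    induction hp using Submodule.span_induction with
    | mem x hx =>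
      have hxK : x ∈ K := by
        rw [← hs]
        exact Submodule.subset_span hx
      have hle : k x ≤ ∑ g ∈ s, k g :=
        Finset.single_le_sum (fun j _ => Nat.zero_le (k j)) (Finset.mem_coe.1 hx)
      obtain ⟨l, hl⟩ := Nat.exists_eq_add_of_le hle
      rw [hl, pow_add, mul_comm (uu n ^ k x), mul_assoc]
      exact Ideal.mul_mem_left _ _ (hk x hxK)
    | zero => rw [mul_zero]; exact Ideal.zero_mem _
    | add x y _ _ hx hy => rw [mul_add]; exact Ideal.add_mem _ hx hy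
    | smul a x _ hx =>
      rw [smul_eq_mul, mul_left_comm]
      exact Ideal.mul_mem_left _ _ hx
  obtain ⟨k, hk⟩ := hKuni
  -- `S / J` and `S / K`
  have hkilJ : Kil I (Po (Ix n) ⧸ Ideal.span A) := by
    intro r hr m
    obtain ⟨x, rfl⟩ := Submodule.Quotient.mk_surjective _ m
    rw [← Submodule.Quotient.mk_smul, Submodule.Quotient.mk_eq_zero, smul_eq_mul, mul_comm]
    exact Ideal.mul_mem_left _ _ (hI r hr)
  have hkilK : Kil I (Po (Ix n) ⧸ K) := by
    intro r hr m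
    obtain ⟨x, rfl⟩ := Submodule.Quotient.mk_surjective _ m
    rw [← Submodule.Quotient.mk_smul, Submodule.Quotient.mk_eq_zero, smul_eq_mul, mul_comm]
    exact Ideal.mul_mem_left _ _ (hAK (hI r hr))
  let fac : (Po (Ix n) ⧸ Ideal.span A) →ₗ[Po (Ix n)] (Po (Ix n) ⧸ K) :=
    Submodule.mapQ (Ideal.span A) K LinearMap.id hAK
  have hfac : ∀ x : Po (Ix n), fac (Submodule.Quotient.mk x) = Submodule.Quotient.mk x := fun x => rfl
  have hfsurj : Function.Surjective fac := by
    intro z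
    obtain ⟨x, rfl⟩ := Submodule.Quotient.mk_surjective _ z
    exact ⟨Submodule.Quotient.mk x, rfl⟩
  have hfgr : ∀ (a : Dg) (x : Po (Ix n) ⧸ Ideal.span A),
      fac (cQ (cP n) (Ideal.span A) a x) = cQ (cP n) K a (fac x) := by
    intro a x
    obtain ⟨x, rfl⟩ := Submodule.Quotient.mk_surjective _ x
    rw [gJ4, hfac, hfac, gK4]
  have hKerst : Stb (cQ (cP n) (Ideal.span A)) (LinearMap.ker fac) := by
    intro a x hx
    rw [LinearMap.mem_ker] at hx ⊢
    rw [hfgr, hx, map_zero]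
  obtain ⟨-, haJ, -⟩ := ha n _ _ gJ2
  obtain ⟨gN1, -, gN3, -⟩ := haJ _ hKerst
  have hadd := χ.add (LinearMap.ker fac) (Po (Ix n) ⧸ Ideal.span A) (Po (Ix n) ⧸ K) _ _ _
    (LinearMap.ker fac).subtype fac inferInstance hkilJ gN1 gJ2 gK2 (fun a x => gN3 a x) hfgr
    (Submodule.injective_subtype _) hfsurj (LinearMap.exact_subtype_ker_map fac)
  have hker0 : χ.f (LinearMap.ker fac) (cS (cQ (cP n) (Ideal.span A)) (LinearMap.ker fac)) = 0 := by
    refine (PZ_pow ha hu (PZ_uu ha hi hu hKV) k).2 _ _ gN1 inferInstance (hkilJ.sub _) ?_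
    rintro ⟨x, hx⟩
    obtain ⟨p, rfl⟩ := Submodule.Quotient.mk_surjective _ x
    apply Subtype.ext
    show uu n ^ k • (Submodule.Quotient.mk p : Po (Ix n) ⧸ Ideal.span A) = 0
    rw [LinearMap.mem_ker, hfac, Submodule.Quotient.mk_eq_zero] at hx
    rw [← Submodule.Quotient.mk_smul, Submodule.Quotient.mk_eq_zero]
    exact hk p hx
  -- the isomorphism
  let iso : (Po (Ix n) ⧸ K) ≃ₗ[Po (Ix n)] L := LinearMap.quotKerEquivOfSurjective lam hlsurj
  have hiso : ∀ p : Po (Ix n), iso (Submodule.Quotient.mk p) = lam p := fun p => rfl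
  have hisof : χ.f (Po (Ix n) ⧸ K) (cQ (cP n) K) = χ.f L (cS c L) := by
    refine (hu n I V χ _ _ gK2 inferInstance hkilK).2.1 L (cS c L) iso ?_
    intro a m
    obtain ⟨p, rfl⟩ := Submodule.Quotient.mk_surjective _ m
    rw [gK4, hiso, hiso]
    apply Subtype.ext
    rw [gL3, hlam, hlam, hact]
  have hsh : sh (cQ (cP n) (Ideal.span A)) 0 = cQ (cP n) (Ideal.span A) := by
    funext a
    show cQ (cP n) (Ideal.span A) (a + 0) = _
    rw [add_zero]
  show χ.f L (cS c L) = χ.f (Po (Ix n) ⧸ Ideal.span A) (sh (cQ (cP n) (Ideal.span A)) 0)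
  rw [hsh, hadd, hker0, zero_add, hisof]

end Pool.Agent.FY
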