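import Pool.Agent.Lib.MP_b53bfe_ag.Spec3
import Pool.Agent.Lib.MP_b53bfe_ag.Bas

/-!
# Module Gn: the parts `Nb` of a graded module
-/

set_option autoImplicit false

noncomputable section

namespace Pool.Agent.FY

open Polynomial

namespace Gn_aux

variable {n : ℕ} {i : Fin 3} {M : Type} [AddCommGroup M] [Module (Po (Ix n)) M] {c : Dg → M →+ M}

theorem rk_C (n : ℕ) (i : Fin 3) (z : ℂ) :
    rk n i (MvPolynomial.C z : Po (Ix n)) = (MvPolynomial.C z : Po (Ix n)) := by
  show (MvPolynomial.aeval (fun p : Ix n => if p.1 = i then (0 : Po (Ix n)) else MvPolynomial.X p) :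
    Po (Ix n) →ₐ[ℂ] Po (Ix n)) (MvPolynomial.C z) = _
  rw [MvPolynomial.aeval_C]
  rfl

theorem rk_X (n : ℕ) (i : Fin 3) (p : Ix n) :
    rk n i (MvPolynomial.X p : Po (Ix n)) = if p.1 = i then (0 : Po (Ix n)) else MvPolynomial.X p := by
  show (MvPolynomial.aeval (fun p : Ix n => if p.1 = i then (0 : Po (Ix n)) else MvPolynomial.X p) :
    Po (Ix n) →ₐ[ℂ] Po (Ix n)) (MvPolynomial.X p) = _
  rw [MvPolynomial.aeval_X]

theorem dg_ne {p : Ix n} (h : p.1 ≠ i) (a : Dg) : (a - dg p) i = a i := by
  rw [Pi.sub_apply, dg, Pi.single_eq_of_ne (Ne.symm h), sub_zero]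

theorem dg_eq {p : Ix n} (h : p.1 = i) (a : Dg) : (a - dg p) i = a i - 1 := by
  rw [Pi.sub_apply, dg, h, Pi.single_eq_same]

theorem var' (hc : IsGr n c) (p : Ix n) (a : Dg) (m : M) :
    c a ((MvPolynomial.X p : Po (Ix n)) • m) = (MvPolynomial.X p : Po (Ix n)) • c (a - dg p) m := by
  have h := hc.var p (a - dg p) m
  rwa [sub_add_cancel] at h

/-- the grading of `Res (rk n i) M` -/
theorem gr (i : Fin 3) (hc : IsGr n c) : IsGr n (cR (rk n i) c) where
  fin := hc.fin
  sum := hc.sum
  same := hc.same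
  orth := hc.orth
  cst z a m := by
    have e0 : ∀ x : Res (rk n i) M, (MvPolynomial.C z : Po (Ix n)) • x =
        Res.mk (rk n i) ((MvPolynomial.C z : Po (Ix n)) • (x.val : M)) := by
      intro x
      show (rk n i (MvPolynomial.C z)) • (x.val : M) = _
      rw [rk_C]
      rfl
    rw [e0, e0]
    exact hc.cst z a m
  var p a m := by
    by_cases hp : p.1 = i
    · have e0 : ∀ x : Res (rk n i) M, (MvPolynomial.X p : Po (Ix n)) • x = 0 := by
        intro x
        show (rk n i (MvPolynomial.X p)) • (x.val : M) = 0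
        rw [rk_X, if_pos hp, zero_smul]
      rw [e0, e0, map_zero]
    · have e0 : ∀ x : Res (rk n i) M, (MvPolynomial.X p : Po (Ix n)) • x =
          Res.mk (rk n i) ((MvPolynomial.X p : Po (Ix n)) • (x.val : M)) := by
        intro x
        show (rk n i (MvPolynomial.X p)) • (x.val : M) = _
        rw [rk_X, if_neg hp]
        rfl
      rw [e0, e0]
      exact hc.var p a m

/-- the action of the scalars -/
theorem smul_C (z : ℂ) (x : M) :
    (MvPolynomial.C z : Po (Ix n)) • Res.mk (rk n i) x =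
      Res.mk (rk n i) ((MvPolynomial.C z : Po (Ix n)) • x) := by
  rw [Res.smul_mk, rk_C]

theorem smul_X_ne {p : Ix n} (hp : p.1 ≠ i) (x : M) :
    (MvPolynomial.X p : Po (Ix n)) • Res.mk (rk n i) x =
      Res.mk (rk n i) ((MvPolynomial.X p : Po (Ix n)) • x) := by
  rw [Res.smul_mk, rk_X, if_neg hp]

/-- the elements whose components are in the degree `b` of the row `i` form a submodule -/
theorem smul_part (hc : IsGr n c) {b : ℤ} (r : Po (Ix n)) :
    ∀ m : M, (∀ a : Dg, a i ≠ b → c a m = 0) → ∀ a : Dg, a i ≠ b → c a (rk n i r • m) = 0 := by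
  induction r using MvPolynomial.induction_on with
  | C z =>
    intro m hm a ha
    rw [rk_C, hc.cst, hm a ha, smul_zero]
  | add p q hp hq =>
    intro m hm a ha
    rw [map_add, add_smul, map_add, hp m hm a ha, hq m hm a ha, add_zero]
  | mul_X q p hq =>
    intro m hm a ha
    rw [map_mul, mul_smul, rk_X]
    by_cases hp : p.1 = i
    · rw [if_pos hp, zero_smul, smul_zero, map_zero]
    · rw [if_neg hp]
      refine hq _ (fun a' ha' => ?_) a ha
      rw [var' hc, hm _ (by rw [dg_ne hp]; exact ha'), smul_zero]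

theorem mem_Nb (hc : IsGr n c) (b : ℤ) (m : Res (rk n i) M) :
    m ∈ Nb n i b c ↔ ∀ a : Dg, a i ≠ b → c a m.val = 0 := by
  constructor
  · intro hm
    unfold Nb at hm
    induction hm using Submodule.span_induction with
    | mem y hy =>
      obtain ⟨a', ha', h⟩ := hy
      intro a ha
      have hne : a ≠ a' := fun e => ha (by rw [e]; exact ha')
      rw [← h]
      exact hc.orth a a' _ hne
    | zero =>
      intro a _
      exact map_zero (c a)
    | add x y _ _ hx hy =>
      intro a ha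
      have e : c a ((x + y : Res (rk n i) M).val : M) = c a (x.val : M) + c a (y.val : M) :=
        map_add (c a) (x.val : M) (y.val : M)
      rw [e, hx a ha, hy a ha, add_zero]
    | smul r x _ hx =>
      intro a ha
      rw [Res.val_smul]
      exact smul_part hc r _ hx a ha
  · intro hm
    have h : Res.mk (rk n i) (∑ᶠ a : Dg, c a m.val) ∈ Nb n i b c := by
      refine finsum_induction (fun y : M => Res.mk (rk n i) y ∈ Nb n i b c) (Submodule.zero_mem _)
        (fun x y hx hy => Submodule.add_mem _ hx hy) (fun a => ?_)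
      by_cases ha : a i = b
      · exact Submodule.subset_span ⟨a, ha, hc.same a _⟩
      · rw [hm a ha]
        exact Submodule.zero_mem _
    rw [hc.sum] at h
    exact h

theorem stb (hc : IsGr n c) (b : ℤ) : Stb (cR (rk n i) c) (Nb n i b c) := by
  intro a m hm
  rw [mem_Nb hc] at hm ⊢
  intro a' ha'
  show c a' (c a m.val) = 0
  by_cases h : a' = a
  · subst h
    rw [hm a' ha', map_zero]
  · exact hc.orth a' a _ h

/-- the product of the variables `X_(i, f l)` -/
def wf (n : ℕ) (i : Fin 3) {k : ℕ} (f : Fin k → Fin (n + 3)) : Po (Ix n) :=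
  ∏ l, MvPolynomial.X ((i, f l) : Ix n)

/-- generators of the part of degree `b` -/
def WW (n : ℕ) (i : Fin 3) {M : Type} [AddCommGroup M] [Module (Po (Ix n)) M] (c : Dg → M →+ M)
    (G : Set M) (b : ℤ) : Set (Res (rk n i) M) :=
  {y | ∃ g ∈ G, ∃ (a : Dg) (k : ℕ) (f : Fin k → Fin (n + 3)), c a g ≠ 0 ∧ (k : ℤ) = b - a i ∧
    y = Res.mk (rk n i) (wf n i f • c a g)}

theorem WW_finite (hc : IsGr n c) {G : Set M} (hG : G.Finite) (b : ℤ) : (WW n i c G b).Finite := by
  have h : (⋃ g ∈ G, ⋃ a ∈ {a : Dg | c a g ≠ 0},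
      Set.range (fun f : Fin (b - a i).toNat → Fin (n + 3) =>
        Res.mk (rk n i) (wf n i f • c a g))).Finite :=
    hG.biUnion fun g _ => (hc.fin g).biUnion fun a _ => Set.finite_range _
  refine h.subset ?_
  rintro y ⟨g, hg, a, k, f, hne, hk, rfl⟩
  have hk' : k = (b - a i).toNat := by omega
  subst hk'
  exact Set.mem_biUnion hg (Set.mem_biUnion (show a ∈ {a : Dg | c a g ≠ 0} from hne) ⟨f, rfl⟩)

/-- multiplication by a variable of the row `i` raises the degree -/
theorem mulX {G : Set M} {b : ℤ} (j : Fin (n + 3)) {y : Res (rk n i) M}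
    (hy : y ∈ Submodule.span (Po (Ix n)) (WW n i c G b)) :
    Res.mk (rk n i) ((MvPolynomial.X ((i, j) : Ix n) : Po (Ix n)) • y.val) ∈
      Submodule.span (Po (Ix n)) (WW n i c G (b + 1)) := by
  induction hy using Submodule.span_induction with
  | mem y hy =>
    obtain ⟨g, hg, a, k, f, hne, hk, rfl⟩ := hy
    refine Submodule.subset_span ⟨g, hg, a, k + 1, Fin.cons j f, hne, by push_cast; omega, ?_⟩
    have e : wf n i (Fin.cons j f : Fin (k + 1) → Fin (n + 3)) =
        (MvPolynomial.X ((i, j) : Ix n) : Po (Ix n)) * wf n i f := by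
      unfold wf
      rw [Fin.prod_univ_succ, Fin.cons_zero]
      simp only [Fin.cons_succ]
    rw [e, mul_smul]
    rfl
  | zero =>
    show Res.mk (rk n i) ((MvPolynomial.X ((i, j) : Ix n) : Po (Ix n)) • (0 : M)) ∈ _
    rw [smul_zero]
    exact Submodule.zero_mem _
  | add x y _ _ hx hy =>
    have e : (MvPolynomial.X ((i, j) : Ix n) : Po (Ix n)) • ((x + y : Res (rk n i) M).val : M) =
        (MvPolynomial.X ((i, j) : Ix n) : Po (Ix n)) • (x.val : M) +
          (MvPolynomial.X ((i, j) : Ix n) : Po (Ix n)) • (y.val : M) := smul_add _ _ _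
    rw [e]
    exact Submodule.add_mem _ hx hy
  | smul r x _ hx =>
    have e : Res.mk (rk n i) ((MvPolynomial.X ((i, j) : Ix n) : Po (Ix n)) •
          ((r • x : Res (rk n i) M).val : M)) =
        r • Res.mk (rk n i) ((MvPolynomial.X ((i, j) : Ix n) : Po (Ix n)) • (x.val : M)) := by
      rw [Res.val_smul, Res.smul_mk, smul_comm]
    rw [e]
    exact Submodule.smul_mem _ r hx

/-- one more variable -/
theorem key_X (hc : IsGr n c) {G : Set M} (p : Ix n) {x : M}
    (hx : ∀ a : Dg, Res.mk (rk n i) (c a x) ∈ Submodule.span (Po (Ix n)) (WW n i c G (a i))) :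
    ∀ a : Dg, Res.mk (rk n i) (c a ((MvPolynomial.X p : Po (Ix n)) • x)) ∈
      Submodule.span (Po (Ix n)) (WW n i c G (a i)) := by
  intro a
  rw [var' hc]
  have h := hx (a - dg p)
  by_cases hp : p.1 = i
  · rw [dg_eq hp] at h
    obtain ⟨i', j⟩ := p
    have hi : i' = i := hp
    subst hi
    have h2 := mulX j h
    rw [sub_add_cancel] at h2
    exact h2
  · rw [dg_ne hp] at h
    rw [← smul_X_ne hp]
    exact Submodule.smul_mem _ _ h

theorem key_smul (hc : IsGr n c) {G : Set M} (r : Po (Ix n)) :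
    ∀ x : M, (∀ a : Dg, Res.mk (rk n i) (c a x) ∈ Submodule.span (Po (Ix n)) (WW n i c G (a i))) →
    ∀ a : Dg, Res.mk (rk n i) (c a (r • x)) ∈ Submodule.span (Po (Ix n)) (WW n i c G (a i)) := by
  induction r using MvPolynomial.induction_on with
  | C z =>
    intro x hx a
    rw [hc.cst, ← smul_C]
    exact Submodule.smul_mem _ _ (hx a)
  | add p q hp hq =>
    intro x hx a
    rw [add_smul, map_add]
    exact Submodule.add_mem _ (hp x hx a) (hq x hx a)
  | mul_X q p hq =>
    intro x hx a
    rw [mul_smul]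
    exact hq _ (key_X hc p hx) a

theorem key (hc : IsGr n c) {G : Set M} (x : M) (hx : x ∈ Submodule.span (Po (Ix n)) G) :
    ∀ a : Dg, Res.mk (rk n i) (c a x) ∈ Submodule.span (Po (Ix n)) (WW n i c G (a i)) := by
  induction hx using Submodule.span_induction with
  | mem g hg =>
    intro a
    by_cases h : c a g = 0
    · rw [h]
      exact Submodule.zero_mem _
    · refine Submodule.subset_span ⟨g, hg, a, 0, Fin.elim0, h, by simp, ?_⟩
      have e : wf n i (Fin.elim0 : Fin 0 → Fin (n + 3)) = 1 := by simp [wf]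
      rw [e, one_smul]
  | zero =>
    intro a
    rw [map_zero]
    exact Submodule.zero_mem _
  | add x y _ _ hx hy =>
    intro a
    rw [map_add]
    exact Submodule.add_mem _ (hx a) (hy a)
  | smul r x _ hx => exact key_smul hc r x hx

theorem fin_Nb (hc : IsGr n c) (hM : Module.Finite (Po (Ix n)) M) (b : ℤ) :
    Module.Finite (Po (Ix n)) (Nb n i b c) := by
  obtain ⟨s, hs⟩ := hM.fg_top
  have hle : Nb n i b c ≤ Submodule.span (Po (Ix n)) (WW n i c (s : Set M) b) := by
    intro m hm
    rw [mem_Nb hc] at hm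
    have h : Res.mk (rk n i) (∑ᶠ a : Dg, c a m.val) ∈
        Submodule.span (Po (Ix n)) (WW n i c (s : Set M) b) := by
      refine finsum_induction (fun y : M => Res.mk (rk n i) y ∈
        Submodule.span (Po (Ix n)) (WW n i c (s : Set M) b)) (Submodule.zero_mem _)
        (fun x y hx hy => Submodule.add_mem _ hx hy) (fun a => ?_)
      by_cases ha : a i = b
      · have h2 := key (i := i) hc (G := (s : Set M)) m.val (by rw [hs]; exact Submodule.mem_top) a
        rw [ha] at h2
        exact h2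
      · rw [hm a ha]
        exact Submodule.zero_mem _
    rw [hc.sum] at h
    exact h
  have hfg : (Submodule.span (Po (Ix n)) (WW n i c (s : Set M) b)).FG :=
    Submodule.fg_def.2 ⟨_, WW_finite hc s.finite_toSet b, rfl⟩
  have := isNoetherian_of_fg_of_noetherian _ hfg
  exact Module.Finite.iff_fg.2 (Submodule.FG.of_le_of_isNoetherian hle)

theorem kil_res {I₀ : Set (Po (Ix n))} (hI : ∀ r ∈ I₀, rk n i r = r) (hk : Kil I₀ M) :
    Kil (Rw n i [] ∪ I₀) (Res (rk n i) M) := by
  rintro r (⟨p, hp, -, rfl⟩ | hr) m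
  · show rk n i (MvPolynomial.X p) • (m.val : M) = 0
    rw [rk_X, if_pos hp, zero_smul]
  · show rk n i r • (m.val : M) = 0
    rw [hI r hr]
    exact hk r hr _

end Gn_aux

open Gn_aux

theorem tGn : S_Ga → S_Gb → S_Gi → S_Gu → S_Gn := by
  intro hGa _ _ _ n i I₀ M _ _ c hI hc hM hk b e
  have hg : IsGr n (cR (rk n i) c) := gr i hc
  obtain ⟨-, h2, -⟩ := hGa n (Res (rk n i) M) (cR (rk n i) c) hg
  obtain ⟨h3, -, h4, -⟩ := h2 (Nb n i b c) (stb hc b)
  refine ⟨mem_Nb hc b, ?_, ?_, ?_, ?_⟩
  · exact (hGa n (Nb n i b c) (cS (cR (rk n i) c) (Nb n i b c)) h3).1 e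
  · exact fin_Nb hc hM b
  · exact Kil.sub (kil_res hI hk) (Nb n i b c)
  · intro a x
    show ((cS (cR (rk n i) c) (Nb n i b c) (a + e) x : Nb n i b c) : Res (rk n i) M).val = _
    rw [h4]
    rfl

end Pool.Agent.FY
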