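import Pool.Agent.Lib.MP_b53bfe_ag.Spec3

/-!
# Theorem T2: the `(n+3)`-rd difference vanishes
-/

set_option autoImplicit false

noncomputable section

namespace Pool.Agent.FY

open Polynomial

namespace Gp_aux

/-- Pascal's rule for differences. -/
theorem pascal {V : Type 1} [AddCommGroup V] (G : ℕ → V) (r : ℕ) :
    ∑ k ∈ Finset.range (r + 1 + 1), ((-1) ^ k * ((r + 1).choose k : ℤ)) • G k =
      ∑ k ∈ Finset.range (r + 1), ((-1) ^ k * (r.choose k : ℤ)) • (G k - G (k + 1)) := by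
  have h1 : ∑ k ∈ Finset.range (r + 1), ((-1 : ℤ) ^ k * (r.choose k : ℤ)) • G k =
      ∑ k ∈ Finset.range (r + 1), ((-1 : ℤ) ^ (k + 1) * (r.choose (k + 1) : ℤ)) • G (k + 1) + G 0 := by
    have h2 := Finset.sum_range_succ' (fun k => ((-1 : ℤ) ^ k * (r.choose k : ℤ)) • G k) (r + 1)
    have h3 := Finset.sum_range_succ (fun k => ((-1 : ℤ) ^ k * (r.choose k : ℤ)) • G k) (r + 1)
    rw [Nat.choose_succ_self, Nat.cast_zero, mul_zero, zero_smul, add_zero] at h3
    rw [← h3, h2]
    simp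
  rw [Finset.sum_range_succ']
  simp only [smul_sub, Finset.sum_sub_distrib]
  rw [h1]
  have h4 : ∀ k, ((-1 : ℤ) ^ (k + 1) * ((r + 1).choose (k + 1) : ℤ)) • G (k + 1) =
      ((-1 : ℤ) ^ (k + 1) * (r.choose (k + 1) : ℤ)) • G (k + 1) -
        ((-1 : ℤ) ^ k * (r.choose k : ℤ)) • G (k + 1) := by
    intro k
    rw [← sub_smul]
    congr 1
    rw [Nat.choose_succ_succ]
    push_cast
    ring
  simp only [h4, Finset.sum_sub_distrib]
  simp only [pow_zero, Nat.choose_zero_right, Nat.cast_one, mul_one, one_smul]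
  abel

variable {n : ℕ} {M : Type} [AddCommGroup M] [Module (Po (Ix n)) M]

theorem Stb_sh {c : Dg → M →+ M} {N : Submodule (Po (Ix n)) M} (h : Stb c N) (f : Dg) :
    Stb (sh c f) N := fun a m hm => h (a + f) m hm

theorem cQ_pos {c : Dg → M →+ M} {N : Submodule (Po (Ix n)) M} (h : Stb c N) (a : Dg) :
    cQ c N a = QuotientAddGroup.map N.toAddSubgroup N.toAddSubgroup (c a)
      (fun m hm => h a m hm) := dif_pos h

theorem cS_pos {c : Dg → M →+ M} {N : Submodule (Po (Ix n)) M} (h : Stb c N) (a : Dg) :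
    cS c N a = { toFun := fun x => ⟨c a (x : M), h a (x : M) x.2⟩
                 map_zero' := Subtype.ext (map_zero (c a))
                 map_add' := fun x y => Subtype.ext (map_add (c a) (x : M) (y : M)) } := dif_pos h

theorem cQ_sh {c : Dg → M →+ M} {N : Submodule (Po (Ix n)) M} (h : Stb c N) (f : Dg) :
    cQ (sh c f) N = sh (cQ c N) f := by
  funext a
  exact (cQ_pos (Stb_sh h f) a).trans (cQ_pos h (a + f)).symm

theorem cS_sh {c : Dg → M →+ M} {N : Submodule (Po (Ix n)) M} (h : Stb c N) (f : Dg) :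
    cS (sh c f) N = sh (cS c N) f := by
  funext a
  exact (cS_pos (Stb_sh h f) a).trans (cS_pos h (a + f)).symm

theorem sh_sh (c : Dg → M →+ M) (f g : Dg) : sh (sh c f) g = sh c (g + f) := by
  funext a
  change c (a + g + f) = c (a + (g + f))
  rw [add_assoc]

/-- The exact sequence of multiplication by a variable. -/
theorem step (hGa : S_Ga) (hGu : S_Gu) {I : Set (Po (Ix n))} {V : Type 1} [AddCommGroup V]
    (χ : GFun n I V) (y : Ix n) (c : Dg → M →+ M) (hc : IsGr n c)
    (hf : Module.Finite (Po (Ix n)) M) (hk : Kil I M) :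
    χ.f M c - χ.f M (sh c (-dg y)) =
      χ.f (M ⧸ LinearMap.range (mg M (MvPolynomial.X y : Po (Ix n))))
        (cQ c (LinearMap.range (mg M (MvPolynomial.X y : Po (Ix n))))) -
      χ.f (LinearMap.ker (mg M (MvPolynomial.X y : Po (Ix n))))
        (cS (sh c (-dg y)) (LinearMap.ker (mg M (MvPolynomial.X y : Po (Ix n))))) := by
  obtain ⟨g1, g2, g3⟩ := hGa n M c hc
  have hHg : Hg n (MvPolynomial.X y) (dg y) := fun M' _ _ c' hc' a m => hc'.var y a m
  obtain ⟨s1, s2⟩ := g3 _ _ hHg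
  obtain ⟨q1, q2, q3, q4⟩ := g2 _ s1
  have hc' := g1 (-dg y)
  have s2' := Stb_sh s2 (-dg y)
  obtain ⟨-, g2', -⟩ := hGa n M _ hc'
  obtain ⟨p1, p2, p3, p4⟩ := g2' _ s2'
  have e1 := (hGu n I V χ M c hc hf hk).2.2 _ s1
  have e2 := (hGu n I V χ M _ hc' hf hk).2.2 _ s2'
  have e3 : χ.f (M ⧸ LinearMap.ker (mg M (MvPolynomial.X y : Po (Ix n))))
        (cQ (sh c (-dg y)) (LinearMap.ker (mg M (MvPolynomial.X y : Po (Ix n))))) =
      χ.f (LinearMap.range (mg M (MvPolynomial.X y : Po (Ix n))))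
        (cS c (LinearMap.range (mg M (MvPolynomial.X y : Po (Ix n))))) := by
    refine (hGu n I V χ _ _ p2 inferInstance (fun r hr m => ?_)).2.1 _ _
      (mg M (MvPolynomial.X y : Po (Ix n))).quotKerEquivRange (fun a m => ?_)
    · obtain ⟨m, rfl⟩ := Submodule.Quotient.mk_surjective _ m
      rw [← Submodule.Quotient.mk_smul, hk r hr, Submodule.Quotient.mk_zero]
    · obtain ⟨m, rfl⟩ := Submodule.Quotient.mk_surjective _ m
      rw [p4]
      refine Subtype.ext ?_
      rw [q3]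
      change (MvPolynomial.X y : Po (Ix n)) • c (a + -dg y) m = c a ((MvPolynomial.X y : Po (Ix n)) • m)
      rw [← hc.var y, neg_add_cancel_right]
  rw [e1, e2, e3]
  abel

/-- The difference of order `r`. -/
def T {I : Set (Po (Ix n))} {V : Type 1} [AddCommGroup V] (χ : GFun n I V) (e : Dg) (r : ℕ)
    (M : Type) [AddCommGroup M] [Module (Po (Ix n)) M] (c : Dg → M →+ M) : V :=
  ∑ k ∈ Finset.range (r + 1), ((-1) ^ k * (r.choose k : ℤ)) • χ.f M (sh c (-(k • e)))

theorem T_succ (hGa : S_Ga) (hGu : S_Gu) {I : Set (Po (Ix n))} {V : Type 1} [AddCommGroup V]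
    (χ : GFun n I V) (y : Ix n) (c : Dg → M →+ M) (hc : IsGr n c)
    (hf : Module.Finite (Po (Ix n)) M) (hk : Kil I M) (r : ℕ) :
    T χ (dg y) (r + 1) M c =
      T χ (dg y) r (M ⧸ LinearMap.range (mg M (MvPolynomial.X y : Po (Ix n))))
        (cQ c (LinearMap.range (mg M (MvPolynomial.X y : Po (Ix n))))) -
      T χ (dg y) r (LinearMap.ker (mg M (MvPolynomial.X y : Po (Ix n))))
        (cS (sh c (-dg y)) (LinearMap.ker (mg M (MvPolynomial.X y : Po (Ix n))))) := by
  obtain ⟨g1, g2, g3⟩ := hGa n M c hc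
  have hHg : Hg n (MvPolynomial.X y) (dg y) := fun M' _ _ c' hc' a m => hc'.var y a m
  obtain ⟨s1, s2⟩ := g3 _ _ hHg
  unfold T
  rw [pascal, ← Finset.sum_sub_distrib]
  refine Finset.sum_congr rfl (fun k _ => ?_)
  rw [← smul_sub]
  congr 1
  have h1 : sh c (-((k + 1) • dg y)) = sh (sh c (-(k • dg y))) (-dg y) := by
    rw [sh_sh, succ_nsmul, neg_add, add_comm]
  rw [h1, step hGa hGu χ y _ (g1 _) hf hk, cQ_sh s1]
  congr 2
  rw [← cS_sh (Stb_sh s2 _), sh_sh, sh_sh, add_comm]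

theorem main (hGa : S_Ga) (hGu : S_Gu) {I : Set (Po (Ix n))} {V : Type 1} [AddCommGroup V]
    (χ : GFun n I V) (i : Fin 3) (hKR : KR χ i) : ∀ (ys : List (Fin (n + 3))) (M : Type)
    [AddCommGroup M] [Module (Po (Ix n)) M] (c : Dg → M →+ M), IsGr n c →
    Module.Finite (Po (Ix n)) M → Kil I M →
    (∀ j, j ∉ ys → ∀ m : M, (MvPolynomial.X ((i, j) : Ix n) : Po (Ix n)) • m = 0) →
    T χ (er i) ys.length M c = 0 := by
  intro ys
  induction ys with
  | nil =>
    intro M _ _ c hc hf hk hm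
    unfold T
    rw [List.length_nil, zero_add, Finset.sum_range_one,
      hKR M _ ((hGa n M c hc).1 _) hf hk ⟨1, fun j m => by rw [pow_one]; exact hm j (by simp) m⟩,
      smul_zero]
  | cons y ys ih =>
    intro M _ _ c hc hf hk hm
    have hN : IsNoetherian (Po (Ix n)) M := inferInstance
    have hHg : Hg n (MvPolynomial.X ((i, y) : Ix n)) (dg ((i, y) : Ix n)) :=
      fun M' _ _ c' hc' a m => hc'.var (i, y) a m
    obtain ⟨g1, g2, g3⟩ := hGa n M c hc
    obtain ⟨s1, s2⟩ := g3 _ _ hHg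
    rw [List.length_cons]
    have he : er i = dg ((i, y) : Ix n) := rfl
    rw [he, T_succ hGa hGu χ (i, y) c hc hf hk]
    rw [← he, ih _ _ (g2 _ s1).2.1 inferInstance ?_ ?_, ih _ _ ?_ inferInstance ?_ ?_, sub_zero]
    · exact ((hGa n M _ (g1 _)).2.1 _ (Stb_sh s2 _)).1
    · intro r hr m
      exact Subtype.ext (hk r hr m)
    · intro j hj m
      by_cases h : j = y
      · subst h
        exact Subtype.ext m.2
      · exact Subtype.ext (hm j (fun h' => (List.mem_cons.mp h').elim h hj) m)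
    · intro r hr m
      obtain ⟨m, rfl⟩ := Submodule.Quotient.mk_surjective _ m
      rw [← Submodule.Quotient.mk_smul, hk r hr, Submodule.Quotient.mk_zero]
    · intro j hj m
      obtain ⟨m, rfl⟩ := Submodule.Quotient.mk_surjective _ m
      rw [← Submodule.Quotient.mk_smul]
      by_cases h : j = y
      · subst h
        exact (Submodule.Quotient.mk_eq_zero _).mpr ⟨m, rfl⟩
      · rw [hm j (fun h' => (List.mem_cons.mp h').elim h hj) m, Submodule.Quotient.mk_zero]

end Gp_aux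

open Gp_aux

theorem tGp : S_Ga → S_Gb → S_Gi → S_Gu → S_Gp := by
  intro hGa _ _ hGu n I V _ χ i hKR M _ _ c hc hf hk
  have h := main hGa hGu χ i hKR (List.finRange (n + 3)) M c hc hf hk
    (fun j hj => absurd (List.mem_finRange j) hj)
  unfold T at h
  rw [List.length_finRange] at h
  exact h

end Pool.Agent.FY
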