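import Pool.Agent.Lib.MP_b53bfe_ag.Spec3
import Pool.Agent.Lib.MP_b53bfe_ag.Bas

/-!
# Theorem T2 (MP_b53bfe_ag), module Gq: the sum of the shifts of tw (helper27)
-/

set_option autoImplicit false

noncomputable section

namespace Pool.Agent.FY

open Polynomial

namespace Gq_aux

section

variable {σ : Type} [DecidableEq σ]

theorem gz_C (i : σ) (z a : ℂ) : gz i z (MvPolynomial.C a) = MvPolynomial.C a := by
  simp [gz, MvPolynomial.algebraMap_eq]

theorem gz_X (i : σ) (z : ℂ) (j : σ) : gz i z (MvPolynomial.X j) =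
    if j = i then MvPolynomial.C z * MvPolynomial.X j else MvPolynomial.X j := by
  simp [gz]

theorem gz_comp (i : σ) (z w : ℂ) : (gz i z).comp (gz i w) = gz i (w * z) := by
  refine MvPolynomial.ringHom_ext (fun a => ?_) (fun j => ?_)
  · simp [gz_C]
  · by_cases h : j = i
    · simp [gz_X, gz_C, h, mul_assoc]
    · simp [gz_X, h]

theorem gz_one (i : σ) : gz i 1 = RingHom.id (Po σ) := by
  refine MvPolynomial.ringHom_ext (fun a => ?_) (fun j => ?_)
  · simp [gz_C]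
  · by_cases h : j = i
    · simp [gz_X, h]
    · simp [gz_X, h]

theorem gz_surj (i : σ) (z : ℂ) (hz : z ≠ 0) : Function.Surjective (gz i z) := by
  intro r
  refine ⟨gz i z⁻¹ r, ?_⟩
  have h := congrArg (fun φ : Po σ →+* Po σ => φ r) (gz_comp i z z⁻¹)
  simp only [RingHom.comp_apply, inv_mul_cancel₀ hz, gz_one, RingHom.id_apply] at h
  exact h

theorem nu_X (i j : σ) (h : j ≠ i) : NI i (MvPolynomial.X j : Po σ) := by
  unfold NI nu
  simp [h]

theorem NI_sum {ι : Type} (i : σ) (s : Finset ι) (f : ι → Po σ) (h : ∀ j ∈ s, NI i (f j)) :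
    NI i (∑ j ∈ s, f j) := by
  unfold NI at h ⊢
  rw [map_sum, map_sum]
  exact Finset.sum_congr rfl h

theorem NI_pow (i : σ) (r : Po σ) (k : ℕ) (h : NI i r) : NI i (r ^ k) := by
  unfold NI at h ⊢
  rw [map_pow, map_pow, h]

end

section

variable {n d : ℕ}

theorem gz_sF (i : Fin 3) (z : ℂ) (hz : z ^ d = 1) (i' : Fin 3) :
    gz ((i, 1) : Ix n) z (sF n d i') = sF n d i' := by
  unfold sF xv
  rw [map_sum]
  refine Finset.sum_congr rfl (fun j _ => ?_)
  rw [map_pow, gz_X]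
  split_ifs with h
  · rw [mul_pow, ← map_pow, hz, map_one, one_mul]
  · rfl

theorem hI (i : Fin 3) (z : ℂ) (hz : z ^ d = 1) :
    ∀ r ∈ Set.range (sF n d), gz ((i, 1) : Ix n) z r ∈ Ideal.span (Set.range (sF n d)) := by
  rintro r ⟨i', rfl⟩
  rw [gz_sF i z hz]
  exact Ideal.subset_span ⟨i', rfl⟩

theorem finR (i : Fin 3) (z : ℂ) (hz0 : z ≠ 0) {M : Type} [AddCommGroup M] [Module (Po (Ix n)) M]
    (hM : Module.Finite (Po (Ix n)) M) : Module.Finite (Po (Ix n)) (Res (gz ((i, 1) : Ix n) z) M) :=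
  Res.finite (gz_surj _ _ hz0) hM

theorem kilR (i : Fin 3) (z : ℂ) (hz : z ^ d = 1) {M : Type} [AddCommGroup M] [Module (Po (Ix n)) M]
    (hM : Kil (Set.range (sF n d)) M) : Kil (Set.range (sF n d)) (Res (gz ((i, 1) : Ix n) z) M) :=
  Kil.res (hI i z hz) hM

theorem range_sF (n d : ℕ) (i : Fin 3) : Set.range (sF n d) =
    insert ((MvPolynomial.X ((i, 1) : Ix n) : Po (Ix n)) ^ d +
      ∑ j ∈ Finset.univ.erase (1 : Fin (n + 3)), xv n i j ^ d) (oF n d i) := by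
  have h1 : sF n d i = (MvPolynomial.X ((i, 1) : Ix n) : Po (Ix n)) ^ d +
      ∑ j ∈ Finset.univ.erase (1 : Fin (n + 3)), xv n i j ^ d :=
    (Finset.add_sum_erase Finset.univ (fun j => xv n i j ^ d) (Finset.mem_univ 1)).symm
  rw [← h1]
  ext r
  constructor
  · rintro ⟨k, rfl⟩
    by_cases hk : k = i
    · subst hk
      exact Or.inl rfl
    · exact Or.inr ⟨k, hk, rfl⟩
  · rintro (rfl | ⟨k, -, rfl⟩)
    · exact ⟨i, rfl⟩
    · exact ⟨k, rfl⟩

/-- change of the set of relations -/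
def chg {n : ℕ} {I J : Set (Po (Ix n))} {V : Type 1} [AddCommGroup V] (χ : GFun n I V) (h : I = J) : GFun n J V where
  f := χ.f
  add A B C _ _ _ _ _ _ a b c i p hB hk := χ.add A B C a b c i p hB (h ▸ hk)

end

end Gq_aux

open Gq_aux

theorem tGq : S_Ga → S_Gb → S_Gi → S_Gu → S_Gw → S_Gd → S_Gts → S_Gq := by
  intro hGa hGb hGi _ hGw hGd hGts n d V _ _ χ i ζ hd hζ M _ _ c hc hfin hkil
  have hζ1 : ζ ^ d = 1 := hζ.pow_eq_one
  have hζ0 : ζ ≠ 0 := hζ.ne_zero (by omega)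
  have h1 : ∀ m : ℕ, (ζ ^ m) ^ d = 1 := fun m => by rw [← pow_mul, mul_comm, pow_mul, hζ1, one_pow]
  have h0 : ∀ m : ℕ, ζ ^ m ≠ 0 := fun m => pow_ne_zero m hζ0
  set p : Ix n := (i, 1) with hp
  have hdp : dg p = er i := rfl
  set g : Po (Ix n) := ∑ j ∈ Finset.univ.erase (1 : Fin (n + 3)), xv n i j ^ d with hg
  have hset : Set.range (sF n d) = insert ((MvPolynomial.X p : Po (Ix n)) ^ d + g) (oF n d i) :=
    range_sF n d i
  -- hypotheses of Gts
  have hNIg : NI p g := by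
    refine NI_sum _ _ _ fun j hj => NI_pow _ _ _ (nu_X _ _ ?_)
    intro h
    exact (Finset.ne_of_mem_erase hj) (Prod.ext_iff.1 h).2
  have hNIo : ∀ r ∈ oF n d i, NI p r := by
    rintro r ⟨k, hk, rfl⟩
    refine NI_sum _ _ _ fun j _ => NI_pow _ _ _ (nu_X _ _ ?_)
    intro h
    exact hk (Prod.ext_iff.1 h).1
  have hHg : Hg n g (d • dg p) := by
    refine (hGi n).1 g _ ?_
    refine MvPolynomial.IsWeightedHomogeneous.sum _ _ _ fun j _ => ?_
    have h2 : MvPolynomial.IsWeightedHomogeneous (dg (n := n)) (xv n i j) (dg p) :=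
      MvPolynomial.isWeightedHomogeneous_X ℂ (dg (n := n)) ((i, j) : Ix n)
    exact h2.pow d
  obtain ⟨ψ, hψ, -, -, -, hψ5⟩ := hGw n d V χ i ζ hd hζ
  obtain ⟨χ', hχ', -, -, -, hsh⟩ := hGd n d V χ i ζ hd hζ
  have hT := hGts n p (oF n d i) V d g (chg χ hset) ζ hd hNIg hHg hNIo hζ M c hc hfin (hset ▸ hkil)
  have hT' : ∑ m ∈ Finset.range d, χ.f (Res (gz p (ζ ^ m)) M) (sh (cR (gz p (ζ ^ m)) c) (-(m • er i))) =
      χ.f (Th p d g (Res (gz p 0) M)) (cT p d g (cR (gz p 0) c)) := hT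
  -- invariance of χ' under the shifts
  have hinv : ∀ (N : Type) [AddCommGroup N] [Module (Po (Ix n)) N] (b : Dg → N →+ N), IsGr n b →
      Module.Finite (Po (Ix n)) N → Kil (Set.range (sF n d)) N → ∀ m : ℕ,
      χ'.f N (sh b (-(m • er i))) = χ'.f N b := by
    intro N _ _ b hb hN hk m
    induction m with
    | zero =>
      have h2 : sh b (-(0 • er i)) = b := by
        funext a
        unfold sh
        rw [zero_smul, neg_zero, add_zero]
      rw [h2]
    | succ m ih =>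
      have h2 : sh b (-((m + 1) • er i)) = sh (sh b (-(m • er i))) (-er i) := by
        funext a
        unfold sh
        rw [add_assoc, add_smul, one_smul]
        congr 1
        abel
      rw [h2, hsh N _ ((hGa n N b hb).1 _) hN hk, ih]
  have key : ∀ m : ℕ, χ.f (Res (gz p (ζ ^ m)) M) (sh (cR (gz p (ζ ^ m)) c) (-(m • er i))) =
      χ.f (Res (gz p (ζ ^ m)) M) (cR (gz p (ζ ^ m)) c) - (1 / (d : ℚ)) • ψ.f M c +
        (1 / (d : ℚ)) • ψ.f M (sh c (-(m • er i))) := by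
    intro m
    have hgr : IsGr n (cR (gz p (ζ ^ m)) c) := (hGb n M c hc).1 p (ζ ^ m)
    have hf := finR i (ζ ^ m) (h0 m) hfin
    have hk := kilR (d := d) i (ζ ^ m) (h1 m) hkil
    have e1 := hinv (Res (gz p (ζ ^ m)) M) _ hgr hf hk m
    rw [hχ', hχ', ← hψ, ← hψ] at e1
    have e2 : ψ.f (Res (gz p (ζ ^ m)) M) (cR (gz p (ζ ^ m)) c) = ψ.f M c := hψ5 M c hc hfin hkil m
    have e3 : ψ.f (Res (gz p (ζ ^ m)) M) (sh (cR (gz p (ζ ^ m)) c) (-(m • er i))) =
        ψ.f M (sh c (-(m • er i))) := hψ5 M _ ((hGa n M c hc).1 _) hfin hkil m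
    rw [e2, e3] at e1
    rw [← e1]
    abel
  rw [← hT', Finset.sum_congr rfl fun m _ => key m, Finset.sum_add_distrib, Finset.sum_sub_distrib]
  have e4 : ∑ m ∈ Finset.range d, χ.f (Res (gz p (ζ ^ m)) M) (cR (gz p (ζ ^ m)) c) = ψ.f M c :=
    (hψ M c).symm
  have hd0 : (d : ℚ) ≠ 0 := by exact_mod_cast (by omega : d ≠ 0)
  have e5 : ∑ _m ∈ Finset.range d, (1 / (d : ℚ)) • ψ.f M c = ψ.f M c := by
    rw [Finset.sum_const, Finset.card_range, ← Nat.cast_smul_eq_nsmul ℚ, smul_smul,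
      mul_one_div_cancel hd0, one_smul]
  rw [e4, e5, sub_self, zero_add, ← Finset.smul_sum, ← Int.cast_smul_eq_zsmul ℚ, smul_smul]
  have e6 : (((d : ℤ) : ℚ)) * (1 / (d : ℚ)) = 1 := by
    rw [Int.cast_natCast]
    exact mul_one_div_cancel hd0
  rw [e6, one_smul]
  exact Finset.sum_congr rfl fun m _ => (hψ M _).symm

end Pool.Agent.FY
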