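import Pool.Agent.Lib.MP_b53bfe_ag.Spec3
import Pool.Agent.Lib.MP_b53bfe_ag.Bas

/-!
# Basic lemmas on `IsGr`, `Stb`, `Hg`, `cX`, `GFun`
-/

set_option autoImplicit false

noncomputable section

namespace Pool.Agent.FY

open Polynomial

/-! ## `IsGr` -/

section

variable {n : ℕ} {M : Type} [AddCommGroup M] [Module (Po (Ix n)) M] {c : Dg → M →+ M}

theorem IsGr.comp_comp (h : IsGr n c) (a b : Dg) (m : M) : c a (c b m) = if a = b then c b m else 0 := by
  by_cases hab : a = b
  · subst hab
    rw [if_pos rfl, h.same]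
  · rw [if_neg hab, h.orth a b m hab]

/-- the degrees of the non-zero components -/
def IsGr.supp (h : IsGr n c) (m : M) : Finset Dg := (h.fin m).toFinset

theorem IsGr.mem_supp (h : IsGr n c) (m : M) (a : Dg) : a ∈ h.supp m ↔ c a m ≠ 0 := by
  simp [IsGr.supp]

theorem IsGr.sum_supp (h : IsGr n c) (m : M) : ∑ a ∈ h.supp m, c a m = m := by
  rw [← finsum_eq_sum_of_support_subset (fun a => c a m) (s := h.supp m)]
  · exact h.sum m
  · intro a ha
    exact (h.mem_supp m a).2 ha

theorem IsGr.ext (h : IsGr n c) {m m' : M} (H : ∀ a, c a m = c a m') : m = m' := by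
  rw [← h.sum m, ← h.sum m']
  exact finsum_congr H

theorem IsGr.eq_zero (h : IsGr n c) {m : M} (H : ∀ a, c a m = 0) : m = 0 :=
  h.ext fun a => by rw [H a, map_zero]

theorem IsGr.mem_addSubgroup (h : IsGr n c) (N : AddSubgroup M) {m : M} (H : ∀ a, c a m ∈ N) : m ∈ N := by
  rw [← h.sum_supp m]
  exact N.sum_mem fun a _ => H a

theorem IsGr.mem_submodule (h : IsGr n c) (N : Submodule (Po (Ix n)) M) {m : M} (H : ∀ a, c a m ∈ N) : m ∈ N := by
  rw [← h.sum_supp m]
  exact N.sum_mem fun a _ => H a

/-- induction over homogeneous elements -/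
theorem IsGr.ind (h : IsGr n c) {P : M → Prop} (h0 : P 0) (hadd : ∀ x y, P x → P y → P (x + y))
    (hc : ∀ (a : Dg) (x : M), c a x = x → P x) (m : M) : P m := by
  rw [← h.sum_supp m]
  exact Finset.sum_induction _ P hadd h0 fun a _ => hc a _ (h.same a m)

/-- a homogeneous element has only one component -/
theorem IsGr.eq_zero_of_ne (h : IsGr n c) {a b : Dg} {m : M} (hm : c a m = m) (hab : b ≠ a) : c b m = 0 := by
  rw [← hm, h.orth b a m hab]

/-- a non-zero homogeneous element has only one degree -/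
theorem IsGr.deg_unique (h : IsGr n c) {a b : Dg} {m : M} (hm : c a m = m) (hm' : c b m = m) (h0 : m ≠ 0) : a = b := by
  by_contra hab
  exact h0 (hm ▸ h.eq_zero_of_ne hm' hab)

/-- transport of a grading along an isomorphism -/
theorem IsGr.of_equiv (h : IsGr n c) {N : Type} [AddCommGroup N] [Module (Po (Ix n)) N] {c' : Dg → N →+ N}
    (e : M ≃ₗ[Po (Ix n)] N) (he : ∀ (a : Dg) (m : M), e (c a m) = c' a (e m)) : IsGr n c' := by
  have he' : ∀ (a : Dg) (x : N), c' a x = e (c a (e.symm x)) := fun a x => by rw [he, e.apply_symm_apply]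
  refine ⟨fun x => ?_, fun x => ?_, fun a x => ?_, fun a b x hab => ?_, fun z a x => ?_, fun p a x => ?_⟩
  · refine (h.fin (e.symm x)).subset fun a ha => ?_
    intro h0
    exact ha (by rw [he', h0, map_zero])
  · have h1 : (fun a => c' a x) = fun a => e.toAddMonoidHom (c a (e.symm x)) := funext fun a => he' a x
    rw [finsum_congr (fun a => congrFun h1 a)]
    have h2 := (e.toLinearMap.toAddMonoidHom).map_finsum (f := fun a => c a (e.symm x))
      ((h.fin (e.symm x)).subset fun a ha => ha)
    have h3 : e (∑ᶠ a, c a (e.symm x)) = ∑ᶠ a, e.toAddMonoidHom (c a (e.symm x)) := h2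
    rw [← h3, h.sum, e.apply_symm_apply]
  · rw [he', he', e.symm_apply_apply, h.same]
  · rw [he' a, he' b, e.symm_apply_apply, h.orth a b _ hab, map_zero]
  · rw [he', he', map_smul, h.cst, map_smul]
  · rw [he', he', map_smul, h.var, map_smul]

/-- the components of a finite module: homogeneous generators -/
theorem IsGr.exists_gens (h : IsGr n c) (hf : Module.Finite (Po (Ix n)) M) :
    ∃ s : Finset M, Submodule.span (Po (Ix n)) (s : Set M) = ⊤ ∧ ∀ m ∈ s, ∃ a : Dg, c a m = m := by
  classical
  obtain ⟨t, ht⟩ := hf.fg_top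
  refine ⟨t.biUnion fun m => (h.supp m).image fun a => c a m, ?_, ?_⟩
  · rw [eq_top_iff, ← ht, Submodule.span_le]
    intro m hm
    rw [← h.sum_supp m]
    refine Submodule.sum_mem _ fun a ha => Submodule.subset_span ?_
    exact Finset.mem_coe.2 (Finset.mem_biUnion.2 ⟨m, hm, Finset.mem_image.2 ⟨a, ha, rfl⟩⟩)
  · intro m hm
    obtain ⟨x, _, hx⟩ := Finset.mem_biUnion.1 hm
    obtain ⟨a, _, rfl⟩ := Finset.mem_image.1 hx
    exact ⟨a, h.same a x⟩

end

/-! ## `Stb` -/

section

variable {R M : Type} [CommRing R] [AddCommGroup M] [Module R M] {c : Dg → M →+ M}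

theorem Stb.bot : Stb c (⊥ : Submodule R M) := fun a m hm => by
  rw [Submodule.mem_bot] at hm ⊢
  rw [hm, map_zero]

theorem Stb.top : Stb c (⊤ : Submodule R M) := fun _ _ _ => Submodule.mem_top

theorem Stb.inf {N N' : Submodule R M} (h : Stb c N) (h' : Stb c N') : Stb c (N ⊓ N') :=
  fun a m hm => ⟨h a m hm.1, h' a m hm.2⟩

theorem Stb.sup {N N' : Submodule R M} (h : Stb c N) (h' : Stb c N') : Stb c (N ⊔ N') := fun a m hm => by
  obtain ⟨x, hx, y, hy, rfl⟩ := Submodule.mem_sup.1 hm
  rw [map_add]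
  exact Submodule.add_mem_sup (h a x hx) (h' a y hy)

theorem cS_coe {N : Submodule R M} (h : Stb c N) (a : Dg) (x : N) : ((cS c N a x : N) : M) = c a (x : M) := by
  rw [cS, dif_pos h]
  rfl

theorem cQ_mk {N : Submodule R M} (h : Stb c N) (a : Dg) (m : M) :
    cQ c N a (Submodule.Quotient.mk m) = Submodule.Quotient.mk (c a m) := by
  have h1 : cQ c N a = QuotientAddGroup.map N.toAddSubgroup N.toAddSubgroup (c a) (fun m hm => h a m hm) := dif_pos h
  exact DFunLike.congr_fun h1 _

theorem Stb.sh {N : Submodule R M} (h : Stb c N) (e : Dg) : Stb (sh c e) N := fun a m hm => h (a + e) m hm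

/-- the preimage and the image under a map which commutes with the components -/
theorem Stb.comap {M' : Type} [AddCommGroup M'] [Module R M'] {c' : Dg → M' →+ M'} (l : M' →ₗ[R] M)
    (hl : ∀ (a : Dg) (x : M'), l (c' a x) = c a (l x)) {N : Submodule R M} (h : Stb c N) : Stb c' (N.comap l) :=
  fun a m hm => by
    rw [Submodule.mem_comap] at hm ⊢
    rw [hl]
    exact h a _ hm

theorem Stb.map {M' : Type} [AddCommGroup M'] [Module R M'] {c' : Dg → M' →+ M'} (l : M →ₗ[R] M')
    (hl : ∀ (a : Dg) (x : M), l (c a x) = c' a (l x)) {N : Submodule R M} (h : Stb c N) : Stb c' (N.map l) :=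
  fun a m hm => by
    obtain ⟨x, hx, rfl⟩ := hm
    exact ⟨c a x, h a x hx, hl a x⟩

theorem Stb.ker {M' : Type} [AddCommGroup M'] [Module R M'] {c' : Dg → M' →+ M'} (l : M →ₗ[R] M')
    (hl : ∀ (a : Dg) (x : M), l (c a x) = c' a (l x)) : Stb c (LinearMap.ker l) := fun a m hm => by
  rw [LinearMap.mem_ker] at hm ⊢
  rw [hl, hm, map_zero]

theorem Stb.range {M' : Type} [AddCommGroup M'] [Module R M'] {c' : Dg → M' →+ M'} (l : M →ₗ[R] M')
    (hl : ∀ (a : Dg) (x : M), l (c a x) = c' a (l x)) : Stb c' (LinearMap.range l) := fun a m hm => by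
  obtain ⟨x, rfl⟩ := hm
  exact ⟨c a x, hl a x⟩

end

/-! ## homogeneous elements -/

section

variable {n : ℕ}

theorem Hg.X (p : Ix n) : Hg n (MvPolynomial.X p) (dg p) := fun _ _ _ _ h a m => h.var p a m

theorem Hg.C (z : ℂ) : Hg n (MvPolynomial.C z) 0 := fun _ _ _ _ h a m => by rw [add_zero, h.cst]

theorem Hg.mul {r s : Po (Ix n)} {e f : Dg} (hr : Hg n r e) (hs : Hg n s f) : Hg n (r * s) (e + f) :=
  fun M _ _ c h a m => by
    rw [mul_smul, mul_smul, ← hs M c h a m, ← hr M c h (a + f), add_assoc, add_comm e f]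

theorem Hg.add {r s : Po (Ix n)} {e : Dg} (hr : Hg n r e) (hs : Hg n s e) : Hg n (r + s) e :=
  fun M _ _ c h a m => by rw [add_smul, map_add, hr M c h, hs M c h, add_smul]

theorem Hg.zero (e : Dg) : Hg n 0 e := fun _ _ _ _ _ _ _ => by rw [zero_smul, map_zero, zero_smul]

theorem Hg.one : Hg n 1 0 := by simpa using Hg.C (n := n) 1

theorem Hg.neg {r : Po (Ix n)} {e : Dg} (hr : Hg n r e) : Hg n (-r) e :=
  fun M _ _ c h a m => by rw [neg_smul, map_neg, hr M c h, neg_smul]

theorem Hg.pow {r : Po (Ix n)} {e : Dg} (hr : Hg n r e) (k : ℕ) : Hg n (r ^ k) (k • e) := by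
  induction k with
  | zero => simpa using Hg.one
  | succ k ih =>
    rw [pow_succ, succ_nsmul]
    exact ih.mul hr

theorem Hg.sum {ι : Type} (s : Finset ι) (f : ι → Po (Ix n)) {e : Dg} (h : ∀ i ∈ s, Hg n (f i) e) :
    Hg n (∑ i ∈ s, f i) e := by
  classical
  induction s using Finset.induction_on with
  | empty => simpa using Hg.zero e
  | insert i s hi ih =>
    rw [Finset.sum_insert hi]
    exact (h i (Finset.mem_insert_self _ _)).add (ih fun j hj => h j (Finset.mem_insert_of_mem hj))

/-- the other form of `Hg` -/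
theorem Hg.sub {r : Po (Ix n)} {e : Dg} (hr : Hg n r e) {M : Type} [AddCommGroup M] [Module (Po (Ix n)) M] {c : Dg → M →+ M}
    (h : IsGr n c) (a : Dg) (m : M) : c a (r • m) = r • c (a - e) m := by
  rw [← hr M c h (a - e) m, sub_add_cancel]

end

/-! ## polynomial modules -/

section

variable {R M : Type} [CommRing R] [AddCommGroup M] [Module R M]

theorem cX_single (e : Dg) (c : Dg → M →+ M) (a : Dg) (k : ℕ) (m : M) :
    cX (R := R) e c a (PolynomialModule.single R k m) = PolynomialModule.single R k (c (a - k • e) m) := by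
  show PolynomialModule.ofCoeff R (Finsupp.liftAddHom _ (Finsupp.single k m)) = _
  rw [Finsupp.liftAddHom_apply_single]
  rfl

theorem cX_coeff (e : Dg) (c : Dg → M →+ M) (a : Dg) (u : PolynomialModule R M) (k : ℕ) :
    (cX (R := R) e c a u).coeff k = c (a - k • e) (u.coeff k) := by
  induction u using PolynomialModule.induction_linear with
  | zero => simp
  | add x y hx hy =>
    rw [map_add, PolynomialModule.coeff_add, Finsupp.add_apply, hx, hy, PolynomialModule.coeff_add, Finsupp.add_apply, map_add]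
  | single j m =>
    rw [cX_single, PolynomialModule.coeff_single, PolynomialModule.coeff_single]
    by_cases h : j = k
    · subst h
      rw [Finsupp.single_eq_same, Finsupp.single_eq_same]
    · rw [Finsupp.single_eq_of_ne (Ne.symm h), Finsupp.single_eq_of_ne (Ne.symm h), map_zero]

end

/-! ## additive functions -/

/-- the restriction of an additive function to fewer modules (also for a change of the set `I`) -/
def GFun.res {n : ℕ} {I I' : Set (Po (Ix n))} {V : Type 1} [AddCommGroup V] (χ : GFun n I V) (h : I ⊆ I') : GFun n I' V where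
  f := χ.f
  add A B C _ _ _ _ _ _ a b c i p hB hk := χ.add A B C a b c i p hB (fun r hr m => hk r (h hr) m)

end Pool.Agent.FY
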