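import Pool.Agent.Lib.MP_b53bfe_ag.Spec3
import Pool.Agent.Lib.MP_b53bfe_ag.Bas3

/-!
# Graded resolution of a finitely generated graded module
-/

set_option autoImplicit false
set_option linter.unusedSectionVars false

noncomputable section

namespace Pool.Agent.FY

open Polynomial

namespace Gr_aux

section lift

variable {A : Type} [CommRing A] {P : Type} [AddCommGroup P] [Module A P] {M : Type} [AddCommGroup M]
  [Module A M] [Module A[X] M] [IsScalarTower A A[X] M]

/-- the values of the extension of an `A`-linear map -/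
def lf (f : P →ₗ[A] M) (u : PolynomialModule A P) : M := u.coeff.sum fun k v => (X : A[X]) ^ k • f v

theorem lf_zero (f : P →ₗ[A] M) : lf f 0 = 0 := by
  unfold lf
  rw [PolynomialModule.coeff_zero, Finsupp.sum_zero_index]

theorem lf_add (f : P →ₗ[A] M) (u v : PolynomialModule A P) : lf f (u + v) = lf f u + lf f v := by
  unfold lf
  rw [PolynomialModule.coeff_add]
  exact Finsupp.sum_add_index' (fun k => by rw [map_zero, smul_zero])
    (fun k a b => by rw [map_add, smul_add])

theorem lf_single (f : P →ₗ[A] M) (k : ℕ) (v : P) :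
    lf f (PolynomialModule.single A k v) = (X : A[X]) ^ k • f v := by
  unfold lf
  rw [PolynomialModule.coeff_single]
  exact Finsupp.sum_single_index (by rw [map_zero, smul_zero])

/-- extension of an `A`-linear map to `P[X]` -/
def lift (f : P →ₗ[A] M) : PolynomialModule A P →ₗ[A[X]] M where
  toFun := lf f
  map_add' := lf_add f
  map_smul' p u := by
    rw [RingHom.id_apply]
    induction u using PolynomialModule.induction_linear with
    | zero => rw [smul_zero, lf_zero, smul_zero]
    | add x y hx hy => rw [smul_add, lf_add, lf_add, hx, hy, smul_add]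
    | single k v =>
      induction p using Polynomial.induction_on' with
      | add p q hp hq => rw [add_smul, lf_add, hp, hq, add_smul]
      | monomial n a =>
        rw [PolynomialModule.monomial_smul_single, lf_single, lf_single, map_smul,
          ← algebraMap_smul A[X] a (f v), smul_smul, smul_smul, Polynomial.algebraMap_eq,
          ← Polynomial.C_mul_X_pow_eq_monomial]
        congr 1
        ring

theorem lift_single (f : P →ₗ[A] M) (k : ℕ) (v : P) :
    lift f (PolynomialModule.single A k v) = (X : A[X]) ^ k • f v := lf_single f k v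

theorem lift_apply (f : P →ₗ[A] M) (u : PolynomialModule A P) :
    lift f u = u.coeff.sum fun k v => (X : A[X]) ^ k • f v := rfl

end lift

section Q

variable {A : Type} [CommRing A] {M : Type} [AddCommGroup M] [Module A M] [Module A[X] M]
  [IsScalarTower A A[X] M]

/-- multiplication by `X` -/
def T : M →ₗ[A] M where
  toFun m := (X : A[X]) • m
  map_add' a b := smul_add _ a b
  map_smul' a m := by
    rw [RingHom.id_apply]
    exact smul_comm _ _ _

theorem T_apply (m : M) : (T : M →ₗ[A] M) m = (X : A[X]) • m := rfl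

/-- `P + X P + ... + X ^ n P` -/
def Q (P : Submodule A M) : ℕ → Submodule A M
  | 0 => P
  | n + 1 => Q P n ⊔ (Q P n).map T

variable (P : Submodule A M)

theorem Q_le (n : ℕ) : Q P n ≤ Q P (n + 1) := le_sup_left

theorem Q_mono {m n : ℕ} (h : m ≤ n) : Q P m ≤ Q P n := monotone_nat_of_le_succ (Q_le P) h

theorem X_mem {n : ℕ} {x : M} (h : x ∈ Q P n) : (X : A[X]) • x ∈ Q P (n + 1) :=
  Submodule.mem_sup_right (Submodule.mem_map_of_mem (f := T) h)

theorem X_pow_mem {n : ℕ} {x : M} (h : x ∈ Q P n) (k : ℕ) : (X : A[X]) ^ k • x ∈ Q P (n + k) := by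
  induction k with
  | zero => rwa [pow_zero, one_smul, add_zero]
  | succ k ih =>
    rw [pow_succ', mul_smul]
    exact X_mem P ih

theorem Q_dec (m : ℕ) : ∀ x ∈ Q P (m + 1), ∃ y ∈ Q P m, ∃ z ∈ Q P 1, x = y + (X : A[X]) ^ m • z := by
  induction m with
  | zero =>
    intro x hx
    exact ⟨0, zero_mem _, x, hx, by rw [pow_zero, one_smul, zero_add]⟩
  | succ m ih =>
    intro x hx
    obtain ⟨y, hy, w, hw, rfl⟩ := Submodule.mem_sup.1 hx
    obtain ⟨w', hw', rfl⟩ := Submodule.mem_map.1 hw
    obtain ⟨y', hy', z, hz, rfl⟩ := ih w' hw'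
    refine ⟨y + (X : A[X]) • y', add_mem hy (X_mem P hy'), z, hz, ?_⟩
    rw [T_apply, smul_add, smul_smul, ← pow_succ', add_assoc]

theorem Q_fg (h : P.FG) (n : ℕ) : (Q P n).FG := by
  induction n with
  | zero => exact h
  | succ n ih => exact ih.sup (ih.map _)

variable [IsNoetherianRing A]

theorem stab (h : P.FG) : ∃ m₀ : ℕ, ∀ m, m₀ ≤ m → ∀ z ∈ Q P 1,
    (X : A[X]) ^ (m + 1) • z ∈ Q P (m + 1) → (X : A[X]) ^ m • z ∈ Q P m := by
  have hfin : Module.Finite A (Q P 1) := Module.Finite.iff_fg.2 (Q_fg P h 1)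
  have hno : IsNoetherian A (Q P 1) := isNoetherian_of_isNoetherianRing_of_finite A _
  let K : ℕ → Submodule A (Q P 1) := fun m =>
    { carrier := {x | (X : A[X]) ^ m • (x : M) ∈ Q P m}
      add_mem' := by
        intro a b ha hb
        simp only [Set.mem_ofPred_eq, Submodule.coe_add, smul_add] at *
        exact add_mem ha hb
      zero_mem' := by simp
      smul_mem' := by
        intro c a ha
        simp only [Set.mem_ofPred_eq, Submodule.coe_smul] at *
        rw [smul_comm]
        exact Submodule.smul_mem _ c ha }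
  have hK : ∀ m (x : Q P 1), x ∈ K m ↔ (X : A[X]) ^ m • (x : M) ∈ Q P m := fun m x => Iff.rfl
  have hmono : Monotone K := by
    refine monotone_nat_of_le_succ fun n x hx => ?_
    rw [hK] at hx ⊢
    rw [pow_succ', mul_smul]
    exact X_mem P hx
  obtain ⟨m₀, hm₀⟩ := monotone_stabilizes_iff_noetherian.2 hno ⟨K, hmono⟩
  refine ⟨m₀, fun m hm z hz hX => ?_⟩
  have h1 : K m₀ = K m := hm₀ m hm
  have h2 : K m₀ = K (m + 1) := hm₀ (m + 1) (by omega)
  have h3 : (⟨z, hz⟩ : Q P 1) ∈ K (m + 1) := hX
  rw [← h2, h1] at h3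
  exact h3

omit [IsNoetherianRing A] in
theorem key {m₀ : ℕ} (h : ∀ m, m₀ ≤ m → ∀ z ∈ Q P 1,
    (X : A[X]) ^ (m + 1) • z ∈ Q P (m + 1) → (X : A[X]) ^ m • z ∈ Q P m) (m : ℕ) (hm : m₀ ≤ m)
    (x : M) (hx : x ∈ Q P (m + 1)) (hX : (X : A[X]) • x ∈ Q P (m + 1)) : x ∈ Q P m := by
  obtain ⟨y, hy, z, hz, rfl⟩ := Q_dec P m x hx
  refine add_mem hy (h m hm z hz ?_)
  rw [smul_add, smul_smul, ← pow_succ'] at hX
  exact (Submodule.add_mem_iff_right _ (X_mem P hy)).1 hX

omit [IsNoetherianRing A] in
theorem key' {m₀ : ℕ} (h : ∀ m, m₀ ≤ m → ∀ z ∈ Q P 1,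
    (X : A[X]) ^ (m + 1) • z ∈ Q P (m + 1) → (X : A[X]) ^ m • z ∈ Q P m) (k : ℕ) :
    ∀ (m : ℕ), m₀ ≤ m → ∀ x ∈ Q P (m + 1),
      (X : A[X]) ^ (k + 1) • x ∈ Q P (m + (k + 1)) → x ∈ Q P m := by
  induction k with
  | zero =>
    intro m hm x hx hX
    rw [zero_add, pow_one] at hX
    exact key P h m hm x hx hX
  | succ k ih =>
    intro m hm x hx hX
    refine ih m hm x hx ?_
    have h1 : (X : A[X]) ^ (k + 1) • x ∈ Q P (m + 1 + (k + 1)) := X_pow_mem P hx (k + 1)
    have e1 : m + 1 + (k + 1) = (m + (k + 1)) + 1 := by ring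
    rw [e1] at h1
    refine key P h (m + (k + 1)) (by omega) _ h1 ?_
    rw [smul_smul, ← pow_succ']
    have e2 : m + (k + 1 + 1) = (m + (k + 1)) + 1 := by ring
    rw [e2] at hX
    exact hX

end Q

section gr

variable {n : ℕ}

/-- `C r ↦ gz p 0 r`, `X ↦ X_p` -/
def eps (p : Ix n) : (Po (Ix n))[X] →+* Po (Ix n) := Polynomial.eval₂RingHom (gz p 0) (MvPolynomial.X p)

theorem eps_C (p : Ix n) (r : Po (Ix n)) : eps p (C r) = gz p 0 r := by
  unfold eps
  rw [Polynomial.coe_eval₂RingHom, Polynomial.eval₂_C]

theorem eps_X (p : Ix n) : eps p X = MvPolynomial.X p := by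
  unfold eps
  rw [Polynomial.coe_eval₂RingHom, Polynomial.eval₂_X]

theorem eps_nu (p : Ix n) (r : Po (Ix n)) : eps p (nu p r) = r := by
  have h : (eps p).comp (nu p) = RingHom.id _ := by
    refine MvPolynomial.ringHom_ext ?_ ?_
    · intro z
      have h1 : nu p (MvPolynomial.C z : Po (Ix n)) = C (MvPolynomial.C z) := by
        show (MvPolynomial.aeval _) (MvPolynomial.C z) = _
        rw [MvPolynomial.aeval_C]
        rfl
      have h2 : gz p 0 (MvPolynomial.C z : Po (Ix n)) = MvPolynomial.C z := by
        show (MvPolynomial.aeval _) (MvPolynomial.C z) = _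
        rw [MvPolynomial.aeval_C]
        rfl
      rw [RingHom.comp_apply, h1, eps_C, h2, RingHom.id_apply]
    · intro j
      have h1 : nu p (MvPolynomial.X j : Po (Ix n)) = if j = p then X else C (MvPolynomial.X j) := by
        show (MvPolynomial.aeval _) (MvPolynomial.X j) = _
        rw [MvPolynomial.aeval_X]
      rw [RingHom.comp_apply, h1, RingHom.id_apply]
      by_cases hj : j = p
      · rw [if_pos hj, eps_X, hj]
      · have h2 : gz p 0 (MvPolynomial.X j : Po (Ix n)) = MvPolynomial.X j := by
          show (MvPolynomial.aeval _) (MvPolynomial.X j) = _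
          rw [MvPolynomial.aeval_X, if_neg hj]
        rw [if_neg hj, eps_C, h2]
  exact RingHom.congr_fun h r

theorem gz_X (p : Ix n) : gz p 0 (MvPolynomial.X p : Po (Ix n)) = 0 := by
  show (MvPolynomial.aeval _) (MvPolynomial.X p) = _
  rw [MvPolynomial.aeval_X, if_pos rfl, map_zero, zero_mul]

theorem gz_NI (p : Ix n) {r : Po (Ix n)} (h : NI p r) : gz p 0 r = r := by
  have h1 : nu p r = C r := h
  rw [← eps_C, ← h1, eps_nu]

variable {M : Type} [AddCommGroup M] [Module (Po (Ix n)) M]

/-- the module over the polynomial ring -/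
@[reducible] def xmod (p : Ix n) (M : Type) [AddCommGroup M] [Module (Po (Ix n)) M] :
    Module (Po (Ix n))[X] (Res (gz p (0 : ℂ)) M) := Module.compHom M (eps p)

attribute [local instance] xmod

theorem xsmul (p : Ix n) (f : (Po (Ix n))[X]) (m : Res (gz p (0 : ℂ)) M) : f • m = (eps p f • m.val : M) := rfl

theorem xtower (p : Ix n) : IsScalarTower (Po (Ix n)) (Po (Ix n))[X] (Res (gz p (0 : ℂ)) M) := ⟨fun a f m => by
  rw [Polynomial.smul_eq_C_mul, mul_smul]
  show eps p (C a) • (eps p f • m.val : M) = gz p 0 a • (eps p f • m.val : M)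
  rw [eps_C]⟩

/-- a submodule generated by homogeneous elements is stable -/
theorem stb_span {c : Dg → M →+ M} (h : IsGr n c) {s : Set M} (hs : ∀ m ∈ s, ∃ a : Dg, c a m = m) :
    Stb c (Submodule.span (Po (Ix n)) s) := by
  have key : ∀ (r : Po (Ix n)) (m : M), (∀ a, c a m ∈ Submodule.span (Po (Ix n)) s) →
      ∀ a, c a (r • m) ∈ Submodule.span (Po (Ix n)) s := by
    intro r
    induction r using MvPolynomial.induction_on with
    | C z =>
      intro m hm a
      rw [h.cst]
      exact Submodule.smul_mem _ _ (hm a)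
    | add x y hx hy =>
      intro m hm a
      rw [add_smul, map_add]
      exact Submodule.add_mem _ (hx m hm a) (hy m hm a)
    | mul_X x q hx =>
      intro m hm a
      rw [mul_smul]
      refine hx _ (fun b => ?_) a
      rw [(Hg.X q).sub h b m]
      exact Submodule.smul_mem _ _ (hm _)
  intro a m hm
  revert a
  induction hm using Submodule.span_induction with
  | mem x hx =>
    intro a
    obtain ⟨b, hb⟩ := hs x hx
    rw [← hb, h.comp_comp]
    split_ifs
    · rw [hb]
      exact Submodule.subset_span hx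
    · exact Submodule.zero_mem _
  | zero =>
    intro a
    rw [map_zero]
    exact Submodule.zero_mem _
  | add x y _ _ hx hy =>
    intro a
    rw [map_add]
    exact Submodule.add_mem _ (hx a) (hy a)
  | smul r x _ hx => exact key r x hx

end gr

end Gr_aux

open Gr_aux in
/-- **Gr** -/
theorem tGr : S_Ga → S_Gb → S_Gi → S_Gu → S_Gr := by
  intro hGa hGb _ _ n p I M _ _ c hNI hfin hkil h
  let _ : Module (Po (Ix n))[X] (Res (gz p (0 : ℂ)) M) := xmod p M
  have _ : IsScalarTower (Po (Ix n)) (Po (Ix n))[X] (Res (gz p (0 : ℂ)) M) := xtower p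
  have hXs : ∀ m : Res (gz p (0 : ℂ)) M, (X : (Po (Ix n))[X]) • m = ((MvPolynomial.X p : Po (Ix n)) • m.val : M) := by
    intro m
    rw [xsmul, eps_X]
  let c₀ : Dg → Res (gz p (0 : ℂ)) M →+ Res (gz p (0 : ℂ)) M := cR (gz p 0) c
  have h₀ : IsGr n c₀ := (hGb n M c h).1 p 0
  obtain ⟨S, hS, hSh⟩ := h.exists_gens hfin
  let P : Submodule (Po (Ix n)) (Res (gz p (0 : ℂ)) M) := Submodule.span (Po (Ix n)) (S : Set M)
  have hPfg : P.FG := ⟨S, rfl⟩
  have hPst : Stb c₀ P := stb_span h₀ fun m hm => hSh m hm
  have hTc : ∀ (a : Dg) (m : Res (gz p (0 : ℂ)) M), c₀ a ((X : (Po (Ix n))[X]) • m) = (X : (Po (Ix n))[X]) • c₀ (a - dg p) m := by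
    intro a m
    rw [hXs, hXs]
    exact (Hg.X p).sub h a m.val
  have hQst : ∀ k, Stb c₀ (Q P k) := by
    intro k
    induction k with
    | zero => exact hPst
    | succ k ih =>
      refine Stb.sup ih ?_
      rintro a _ ⟨x, hx, rfl⟩
      refine ⟨c₀ (a - dg p) x, ih _ x hx, ?_⟩
      rw [T_apply, T_apply, hTc]
  obtain ⟨m₀, hm₀⟩ := stab P hPfg
  have hTmem : ∀ x : Q P m₀, (T : Res (gz p (0 : ℂ)) M →ₗ[Po (Ix n)] Res (gz p (0 : ℂ)) M) x ∈ Q P (m₀ + 1) :=
    fun x => X_mem P x.2
  let T' : Q P m₀ →ₗ[Po (Ix n)] Q P (m₀ + 1) := (T.domRestrict (Q P m₀)).codRestrict (Q P (m₀ + 1)) hTmem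
  let ι : Q P m₀ →ₗ[Po (Ix n)] Q P (m₀ + 1) := Submodule.inclusion (Q_le P m₀)
  let f : Q P m₀ →ₗ[Po (Ix n)] PolynomialModule (Po (Ix n)) (Q P (m₀ + 1)) :=
    (PolynomialModule.lsingle (Po (Ix n)) 0).comp T' - (PolynomialModule.lsingle (Po (Ix n)) 1).comp ι
  let i : PolynomialModule (Po (Ix n)) (Q P m₀) →ₗ[(Po (Ix n))[X]] PolynomialModule (Po (Ix n)) (Q P (m₀ + 1)) := lift f
  let q : PolynomialModule (Po (Ix n)) (Q P (m₀ + 1)) →ₗ[(Po (Ix n))[X]] Res (gz p (0 : ℂ)) M :=
    lift (Q P (m₀ + 1)).subtype
  have hi : ∀ (k : ℕ) (v : Q P m₀), i (PolynomialModule.single (Po (Ix n)) k v) =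
      PolynomialModule.single (Po (Ix n)) k (T' v) - PolynomialModule.single (Po (Ix n)) (k + 1) (ι v) := by
    intro k v
    have h1 : f v = PolynomialModule.single (Po (Ix n)) 0 (T' v) - PolynomialModule.single (Po (Ix n)) 1 (ι v) := rfl
    change lift f _ = _
    rw [lift_single, h1, smul_sub, ← Polynomial.monomial_one_right_eq_X_pow,
      PolynomialModule.monomial_smul_single, PolynomialModule.monomial_smul_single, one_smul,
      one_smul, add_zero]
  have hp : ∀ (k : ℕ) (v : Q P (m₀ + 1)), q (PolynomialModule.single (Po (Ix n)) k v) =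
      (X : (Po (Ix n))[X]) ^ k • (v : Res (gz p (0 : ℂ)) M) := by
    intro k v
    exact lift_single _ k v
  have hic : ∀ (u : PolynomialModule (Po (Ix n)) (Q P m₀)) (l : ℕ),
      (i u).coeff (l + 1) = T' (u.coeff (l + 1)) - ι (u.coeff l) := by
    intro u l
    induction u using PolynomialModule.induction_linear with
    | zero => simp
    | add x y hx hy =>
      have e1 : i (x + y) = i x + i y := map_add i x y
      rw [e1, PolynomialModule.coeff_add, PolynomialModule.coeff_add, Finsupp.add_apply,
        Finsupp.add_apply, Finsupp.add_apply, hx, hy, map_add T', map_add ι]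
      abel
    | single k v =>
      rw [hi]
      have e1 : (PolynomialModule.single (Po (Ix n)) k (T' v) -
          PolynomialModule.single (Po (Ix n)) (k + 1) (ι v)).coeff (l + 1)
          = (Finsupp.single k (T' v)) (l + 1) - (Finsupp.single (k + 1) (ι v)) (l + 1) := rfl
      rw [e1, PolynomialModule.coeff_single, Finsupp.single_apply, Finsupp.single_apply,
        Finsupp.single_apply, Finsupp.single_apply]
      by_cases h1 : k = l + 1
      · have h2 : ¬ k = l := by omega
        have h3 : ¬ k + 1 = l + 1 := by omega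
        rw [if_pos h1, if_pos h1, if_neg h2, if_neg h3, map_zero ι]
      · by_cases h2 : k = l
        · have h3 : k + 1 = l + 1 := by omega
          rw [if_neg h1, if_neg h1, if_pos h2, if_pos h3, map_zero T']
        · have h3 : ¬ k + 1 = l + 1 := by omega
          rw [if_neg h1, if_neg h1, if_neg h2, if_neg h3, map_zero T', map_zero ι]
  -- the gradings
  have g1 : IsGr n (cS c₀ (Q P m₀)) := ((hGa n _ c₀ h₀).2.1 _ (hQst m₀)).1
  have g2 : IsGr n (cS c₀ (Q P (m₀ + 1))) := ((hGa n _ c₀ h₀).2.1 _ (hQst (m₀ + 1))).1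
  have kil0 : Kil (insert (MvPolynomial.X p) I) (Res (gz p (0 : ℂ)) M) := by
    rw [Kil.insert]
    refine ⟨fun m => ?_, fun r hr m => ?_⟩
    · show (gz p 0 (MvPolynomial.X p : Po (Ix n)) • m.val : M) = 0
      rw [gz_X, zero_smul]
    · show (gz p 0 r • m.val : M) = 0
      rw [gz_NI p (hNI r hr)]
      exact hkil r hr m.val
  let q' : Ex p (Q P (m₀ + 1)) →ₗ[Po (Ix n)] M :=
    { toFun := fun u => (q u.val : M)
      map_add' := fun u v => q.map_add u v
      map_smul' := fun r u => by
        have h1 := q.map_smul (nu p r) u.val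
        have h2 : nu p r • q u.val = (eps p (nu p r) • (q u.val).val : M) := rfl
        rw [eps_nu] at h2
        exact h1.trans h2 }
  refine ⟨⟨Q P m₀, cS c₀ (Q P m₀)⟩, ⟨Q P (m₀ + 1), cS c₀ (Q P (m₀ + 1))⟩, Res.map (nu p) i, q', g1, g2,
    Module.Finite.iff_fg.2 (Q_fg P hPfg _), Module.Finite.iff_fg.2 (Q_fg P hPfg _), kil0.sub _, kil0.sub _,
    ?_, ?_, ?_, ?_, ?_⟩
  · -- `i` has degree `dg p`
    intro a u
    have key : ∀ w : PolynomialModule (Po (Ix n)) (Q P m₀),
        i (cX (R := Po (Ix n)) (dg p) (cS c₀ (Q P m₀)) (a + -dg p) w) =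
          cX (R := Po (Ix n)) (dg p) (cS c₀ (Q P (m₀ + 1))) a (i w) := by
      intro w
      induction w using PolynomialModule.induction_linear with
      | zero => simp only [map_zero]
      | add x y hx hy => rw [map_add, map_add, hx, hy, map_add, map_add]
      | single k v =>
        rw [cX_single, hi, hi, map_sub, cX_single, cX_single]
        congr 2
        · apply Subtype.ext
          rw [cS_coe (hQst (m₀ + 1))]
          show (X : (Po (Ix n))[X]) • ((cS c₀ (Q P m₀) (a + -dg p - k • dg p) v : Q P m₀) : Res (gz p (0 : ℂ)) M) =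
            c₀ (a - k • dg p) ((X : (Po (Ix n))[X]) • (v : Res (gz p (0 : ℂ)) M))
          have e : a + -dg p - k • dg p = a - k • dg p - dg p := by abel
          rw [cS_coe (hQst m₀), hTc, e]
        · apply Subtype.ext
          rw [cS_coe (hQst (m₀ + 1))]
          show ((cS c₀ (Q P m₀) (a + -dg p - k • dg p) v : Q P m₀) : Res (gz p (0 : ℂ)) M) =
            c₀ (a - (k + 1) • dg p) (v : Res (gz p (0 : ℂ)) M)
          have e : a + -dg p - k • dg p = a - (k + 1) • dg p := by
            rw [succ_nsmul]
            abel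
          rw [cS_coe (hQst m₀), e]
    exact key u.val
  · -- `q` has degree `0`
    intro a u
    have key : ∀ w : PolynomialModule (Po (Ix n)) (Q P (m₀ + 1)),
        q (cX (R := Po (Ix n)) (dg p) (cS c₀ (Q P (m₀ + 1))) a w) = c₀ a (q w) := by
      intro w
      induction w using PolynomialModule.induction_linear with
      | zero => simp only [map_zero]
      | add x y hx hy => rw [map_add, map_add, hx, hy, map_add, map_add]
      | single k v =>
        rw [cX_single, hp, hp, cS_coe (hQst (m₀ + 1)), xsmul, xsmul, map_pow, eps_X]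
        exact (((Hg.X p).pow k).sub h a (v : Res (gz p (0 : ℂ)) M).val).symm
    exact key u.val
  · -- injectivity
    have hinj : Function.Injective i := by
      rw [injective_iff_map_eq_zero]
      intro u hu
      have hstep : ∀ n, u.coeff (n + 1) = 0 → u.coeff n = 0 := by
        intro n hn
        have h1 := hic u n
        rw [hu, hn, map_zero, zero_sub, PolynomialModule.coeff_zero, Finsupp.zero_apply] at h1
        have h2 : ι (u.coeff n) = 0 := neg_eq_zero.1 h1.symm
        exact (Submodule.inclusion_injective (Q_le P m₀)) (by rw [map_zero]; exact h2)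
      have hall : ∀ n, u.coeff n = 0 := by
        intro n
        have hb : ∀ k, u.coeff.support.sup id < k → u.coeff k = 0 := by
          intro k hk
          by_contra hne
          have h1 : k ≤ u.coeff.support.sup id :=
            Finset.le_sup (f := id) (Finsupp.mem_support_iff.2 hne)
          omega
        have h1 : u.coeff (max n (u.coeff.support.sup id + 1)) = 0 :=
          hb _ (lt_of_lt_of_le (Nat.lt_succ_self _) (le_max_right _ _))
        have h2 : ∀ j, u.coeff (n + j) = 0 → u.coeff n = 0 := by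
          intro j
          induction j with
          | zero => exact fun h => h
          | succ j ih => exact fun h => ih (hstep _ h)
        obtain ⟨j, hj⟩ := Nat.exists_eq_add_of_le (le_max_left n (u.coeff.support.sup id + 1))
        rw [hj] at h1
        exact h2 j h1
      apply PolynomialModule.ext
      ext n
      rw [hall n]
      rfl
    exact hinj
  · -- surjectivity
    rw [← LinearMap.range_eq_top, eq_top_iff, ← hS, Submodule.span_le]
    intro x hx
    have h1 : x ∈ Q P (m₀ + 1) := Q_mono P (Nat.zero_le _) (Submodule.subset_span hx)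
    refine ⟨Res.mk (nu p) (PolynomialModule.single (Po (Ix n)) 0 ⟨x, h1⟩), ?_⟩
    show q (PolynomialModule.single (Po (Ix n)) 0 ⟨x, h1⟩) = x
    rw [hp, pow_zero, one_smul]
  · -- exactness
    have hpi : ∀ u, q (i u) = 0 := by
      intro u
      induction u using PolynomialModule.induction_linear with
      | zero => rw [map_zero, map_zero]
      | add x y hx hy => rw [map_add, map_add, hx, hy, add_zero]
      | single k v =>
        rw [hi, map_sub, hp, hp]
        have e1 : ((T' v : Q P (m₀ + 1)) : Res (gz p (0 : ℂ)) M) =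
          (X : (Po (Ix n))[X]) • (v : Res (gz p (0 : ℂ)) M) := rfl
        have e2 : ((ι v : Q P (m₀ + 1)) : Res (gz p (0 : ℂ)) M) = (v : Res (gz p (0 : ℂ)) M) := rfl
        rw [e1, e2, smul_smul, ← pow_succ, sub_self]
    have main : ∀ l (y : PolynomialModule (Po (Ix n)) (Q P (m₀ + 1))), (∀ k, l < k → y.coeff k = 0) →
        q y = 0 → ∃ u, i u = y := by
      intro l
      induction l with
      | zero =>
        intro y hy hpy
        have e1 : y = PolynomialModule.single (Po (Ix n)) 0 (y.coeff 0) := by
          apply PolynomialModule.ext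
          ext k
          rw [PolynomialModule.coeff_single, Finsupp.single_apply]
          by_cases hk : 0 = k
          · rw [if_pos hk, hk]
          · rw [if_neg hk, hy k (by omega)]
        rw [e1, hp, pow_zero, one_smul] at hpy
        have e2 : y.coeff 0 = 0 := Subtype.ext hpy
        refine ⟨0, ?_⟩
        rw [e1, e2, PolynomialModule.single_zero, map_zero]
      | succ l ih =>
        intro y hy hpy
        have hsum : q y = ∑ k ∈ Finset.range (l + 2), (X : (Po (Ix n))[X]) ^ k •
            ((y.coeff k : Q P (m₀ + 1)) : Res (gz p (0 : ℂ)) M) := by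
          change (y.coeff.sum fun k v => (X : (Po (Ix n))[X]) ^ k • (Q P (m₀ + 1)).subtype v) = _
          rw [Finsupp.sum_of_support_subset (s := Finset.range (l + 2))]
          · rfl
          · intro k hk
            rw [Finset.mem_range]
            by_contra h1
            exact (Finsupp.mem_support_iff.1 hk) (hy k (by omega))
          · intro k _
            rw [map_zero, smul_zero]
        rw [hpy, Finset.sum_range_succ] at hsum
        have hlow : ∑ k ∈ Finset.range (l + 1), (X : (Po (Ix n))[X]) ^ k •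
            ((y.coeff k : Q P (m₀ + 1)) : Res (gz p (0 : ℂ)) M) ∈ Q P (m₀ + (l + 1)) := by
          refine Submodule.sum_mem _ fun k hk => ?_
          rw [Finset.mem_range] at hk
          exact Q_mono P (by omega) (X_pow_mem P (y.coeff k).2 k)
        have htop : (X : (Po (Ix n))[X]) ^ (l + 1) • ((y.coeff (l + 1) : Q P (m₀ + 1)) : Res (gz p (0 : ℂ)) M) ∈
            Q P (m₀ + (l + 1)) := by
          have h1 : (X : (Po (Ix n))[X]) ^ (l + 1) • ((y.coeff (l + 1) : Q P (m₀ + 1)) : Res (gz p (0 : ℂ)) M) =
              -∑ k ∈ Finset.range (l + 1), (X : (Po (Ix n))[X]) ^ k •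
                ((y.coeff k : Q P (m₀ + 1)) : Res (gz p (0 : ℂ)) M) :=
            eq_neg_of_add_eq_zero_right hsum.symm
          rw [h1]
          exact neg_mem hlow
        have hmem : ((y.coeff (l + 1) : Q P (m₀ + 1)) : Res (gz p (0 : ℂ)) M) ∈ Q P m₀ :=
          key' P hm₀ l m₀ le_rfl _ (y.coeff (l + 1)).2 htop
        let v : PolynomialModule (Po (Ix n)) (Q P m₀) := PolynomialModule.single (Po (Ix n)) l ⟨_, hmem⟩
        have hv : ∀ k, v.coeff k = if l = k then ⟨_, hmem⟩ else 0 := fun k => Finsupp.single_apply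
        obtain ⟨w, hw⟩ := ih (y + i v) (by
          intro k hk
          obtain ⟨j, rfl⟩ : ∃ j, k = j + 1 := ⟨k - 1, by omega⟩
          rw [PolynomialModule.coeff_add, Finsupp.add_apply, hic, hv, hv, if_neg (by omega), map_zero]
          by_cases hj : l = j
          · subst hj
            rw [if_pos rfl, zero_sub]
            exact Subtype.ext (by
              change ((y.coeff (l + 1) : Q P (m₀ + 1)) : Res (gz p (0 : ℂ)) M) +
                -((y.coeff (l + 1) : Q P (m₀ + 1)) : Res (gz p (0 : ℂ)) M) = 0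
              rw [add_neg_cancel])
          · rw [if_neg hj, map_zero, sub_zero, add_zero]
            exact hy _ (by omega)) (by rw [map_add, hpy, hpi, add_zero])
        refine ⟨w - v, ?_⟩
        rw [map_sub, hw, add_sub_cancel_right]
    have hex : Function.Exact i q := by
      intro y
      constructor
      · intro hy
        obtain ⟨u, hu⟩ := main (y.coeff.support.sup id) y (by
          intro k hk
          by_contra hne
          have h1 : k ≤ y.coeff.support.sup id :=
            Finset.le_sup (f := id) (Finsupp.mem_support_iff.2 hne)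
          omega) hy
        exact ⟨u, hu⟩
      · rintro ⟨u, rfl⟩
        exact hpi u
    exact hex

end Pool.Agent.FY
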