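import Pool.Agent.Lib.MP_b53bfe_ag.Spec3
import Pool.Agent.Lib.MP_b53bfe_ag.Bas

/-!
# Theorem T2 (MP_b53bfe_ag): the graded fibre formula
-/

set_option autoImplicit false

noncomputable section

namespace Pool.Agent.FY

open Polynomial

namespace Gt_aux

section poly

variable {σ : Type} [DecidableEq σ]

theorem nu_X (i : σ) : nu i (MvPolynomial.X i) = X := by
  unfold nu
  simp

theorem NI_add {i : σ} {r s : Po σ} (hr : NI i r) (hs : NI i s) : NI i (r + s) := by
  unfold NI at *
  rw [map_add, hr, hs, Polynomial.C_add]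

theorem NI_mul {i : σ} {r s : Po σ} (hr : NI i r) (hs : NI i s) : NI i (r * s) := by
  unfold NI at *
  rw [map_mul, hr, hs, Polynomial.C_mul]

theorem NI_C (i : σ) (a : ℂ) : NI i (MvPolynomial.C a) := by
  unfold NI nu
  simp only [AlgHom.toRingHom_eq_coe, RingHom.coe_coe, MvPolynomial.algHom_C]
  rfl

theorem NI_X {i j : σ} (h : j ≠ i) : NI i (MvPolynomial.X j) := by
  unfold NI nu
  simp [h]

theorem dec (i : σ) (r : Po σ) : ∃ r' t : Po σ, NI i r' ∧ r = r' + t * MvPolynomial.X i := by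
  induction r using MvPolynomial.induction_on with
  | C a => exact ⟨MvPolynomial.C a, 0, NI_C i a, by ring⟩
  | add p q hp hq =>
    obtain ⟨p', s, hp', hp⟩ := hp
    obtain ⟨q', t, hq', hq⟩ := hq
    exact ⟨p' + q', s + t, NI_add hp' hq', by rw [hp, hq]; ring⟩
  | mul_X p j hp =>
    obtain ⟨p', s, hp', hp⟩ := hp
    by_cases h : j = i
    · subst h
      refine ⟨0, p, ?_, by ring⟩
      unfold NI
      rw [map_zero, Polynomial.C_0]
    · exact ⟨p' * MvPolynomial.X j, s * MvPolynomial.X j, NI_mul hp' (NI_X h), by rw [hp]; ring⟩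

end poly

section pm

variable {R A : Type} [CommRing R] [AddCommGroup A] [Module R A]

theorem pm_ext {x y : PolynomialModule R A} (h : ∀ k, x.coeff k = y.coeff k) : x = y :=
  PolynomialModule.coeff_injective (Finsupp.ext h)

theorem C_smul_single (r : R) (k : ℕ) (b : A) :
    (C r : R[X]) • PolynomialModule.single R k b = PolynomialModule.single R k (r • b) := by
  have h := PolynomialModule.monomial_smul_single (R := R) 0 r k b
  rw [Nat.zero_add] at h
  exact h

theorem C_smul_coeff (r : R) (q : PolynomialModule R A) (k : ℕ) :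
    ((C r : R[X]) • q).coeff k = r • q.coeff k := by
  have h := PolynomialModule.monomial_smul_apply 0 r q k
  rw [if_pos (Nat.zero_le k), Nat.sub_zero] at h
  exact h

theorem X_smul_single (k : ℕ) (b : A) :
    (X : R[X]) • PolynomialModule.single R k b = PolynomialModule.single R (k + 1) b := by
  have h := PolynomialModule.monomial_smul_single (R := R) 1 1 k b
  rw [one_smul, Nat.add_comm] at h
  exact h

theorem X_smul_coeff_succ (q : PolynomialModule R A) (k : ℕ) :
    ((X : R[X]) • q).coeff (k + 1) = q.coeff k := by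
  have h := PolynomialModule.monomial_smul_apply 1 1 q (k + 1)
  rw [if_pos (Nat.le_add_left 1 k), one_smul, Nat.add_sub_cancel] at h
  exact h

theorem X_smul_coeff_zero (q : PolynomialModule R A) : ((X : R[X]) • q).coeff 0 = 0 := by
  have h := PolynomialModule.monomial_smul_apply 1 1 q 0
  rw [if_neg (by omega)] at h
  exact h

theorem X_lift (q : PolynomialModule R A) :
    ∃ v : PolynomialModule R A, q = (X : R[X]) • v + PolynomialModule.single R 0 (q.coeff 0) := by
  induction q using PolynomialModule.induction_linear with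
  | zero =>
    refine ⟨0, ?_⟩
    rw [smul_zero, PolynomialModule.coeff_zero, Finsupp.zero_apply, PolynomialModule.single_zero, add_zero]
  | add x y hx hy =>
    obtain ⟨v, hv⟩ := hx
    obtain ⟨w, hw⟩ := hy
    refine ⟨v + w, ?_⟩
    rw [PolynomialModule.coeff_add, Finsupp.add_apply, PolynomialModule.single_add, smul_add,
      add_add_add_comm, ← hv, ← hw]
  | single n m =>
    rcases n with _ | n
    · refine ⟨0, ?_⟩
      rw [smul_zero, zero_add, PolynomialModule.coeff_single, Finsupp.single_eq_same]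
    · refine ⟨PolynomialModule.single R n m, ?_⟩
      rw [X_smul_single, PolynomialModule.coeff_single, Finsupp.single_apply, if_neg (by omega),
        PolynomialModule.single_zero, add_zero]

theorem cX_single (e : Dg) (c : Dg → A →+ A) (a : Dg) (n : ℕ) (m : A) :
    cX (R := R) e c a (PolynomialModule.single R n m) = PolynomialModule.single R n (c (a - n • e) m) := by
  have h : Finsupp.liftAddHom (fun k : ℕ => (Finsupp.singleAddHom k).comp (c (a - k • e)))
      (Finsupp.single n m) = Finsupp.single n (c (a - n • e) m) := by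
    rw [Finsupp.liftAddHom_apply_single]
    rfl
  exact congrArg (fun z => PolynomialModule.ofCoeff R z) h

theorem cX_coeff (e : Dg) (c : Dg → A →+ A) (a : Dg) (q : PolynomialModule R A) (k : ℕ) :
    (cX (R := R) e c a q).coeff k = c (a - k • e) (q.coeff k) := by
  induction q using PolynomialModule.induction_linear with
  | zero => rw [map_zero, PolynomialModule.coeff_zero, Finsupp.zero_apply, map_zero]
  | add x y hx hy =>
    rw [map_add, PolynomialModule.coeff_add, Finsupp.add_apply, hx, hy, PolynomialModule.coeff_add,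
      Finsupp.add_apply, map_add]
  | single n m =>
    rw [cX_single, PolynomialModule.coeff_single, PolynomialModule.coeff_single]
    by_cases h : n = k
    · subst h
      rw [Finsupp.single_eq_same, Finsupp.single_eq_same]
    · rw [Finsupp.single_apply, if_neg h, Finsupp.single_apply, if_neg h, map_zero]

end pm

section ex

variable {σ : Type} [DecidableEq σ] (i : σ) (P : Type) [AddCommGroup P] [Module (Po σ) P]

/-- an element of `Ex i P` -/
def w (q : PolynomialModule (Po σ) P) : Ex i P := Res.mk (nu i) q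

theorem w_add (q q' : PolynomialModule (Po σ) P) : w i P (q + q') = w i P q + w i P q' := rfl

theorem w_zero : w i P 0 = 0 := rfl

theorem w_smul (r : Po σ) (q : PolynomialModule (Po σ) P) : r • w i P q = w i P (nu i r • q) := rfl

theorem w_inj {q q' : PolynomialModule (Po σ) P} (h : w i P q = w i P q') : q = q' := h

theorem w_surj (u : Ex i P) : ∃ q, w i P q = u := ⟨u.val, rfl⟩

theorem w_X (q : PolynomialModule (Po σ) P) :
    (MvPolynomial.X i : Po σ) • w i P q = w i P ((X : (Po σ)[X]) • q) := by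
  rw [w_smul, nu_X]

theorem ex_fin (hP : Module.Finite (Po σ) P) (hk : ∀ b : P, (MvPolynomial.X i : Po σ) • b = 0) :
    Module.Finite (Po σ) (Ex i P) := by
  obtain ⟨s, hs⟩ := hP.fg_top
  let S : Submodule (Po σ) (Ex i P) :=
    Submodule.span (Po σ) ((fun b : P => w i P (PolynomialModule.single (Po σ) 0 b)) '' (s : Set P))
  have h0 : ∀ b : P, b ∈ Submodule.span (Po σ) (s : Set P) →
      w i P (PolynomialModule.single (Po σ) 0 b) ∈ S := by
    intro b hb
    induction hb using Submodule.span_induction with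
    | mem y hy => exact Submodule.subset_span ⟨y, hy, rfl⟩
    | zero => rw [PolynomialModule.single_zero, w_zero]; exact S.zero_mem
    | add y z _ _ hy hz => rw [PolynomialModule.single_add, w_add]; exact S.add_mem hy hz
    | smul r y _ hy =>
      obtain ⟨r', t, hr', hr⟩ := dec i r
      have e1 : r • y = r' • y := by
        rw [hr, add_smul, mul_smul, hk, smul_zero, add_zero]
      have e2 : r' • w i P (PolynomialModule.single (Po σ) 0 y) =
          w i P (PolynomialModule.single (Po σ) 0 (r' • y)) := by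
        rw [w_smul, hr', C_smul_single]
      rw [e1, ← e2]
      exact S.smul_mem r' hy
  have h1 : ∀ (k : ℕ) (b : P), w i P (PolynomialModule.single (Po σ) k b) ∈ S := by
    intro k b
    induction k with
    | zero => exact h0 b (hs ▸ Submodule.mem_top)
    | succ k ih =>
      rw [← X_smul_single, ← w_X]
      exact S.smul_mem _ ih
  have h2 : ∀ q : PolynomialModule (Po σ) P, w i P q ∈ S := by
    intro q
    induction q using PolynomialModule.induction_linear with
    | zero => rw [w_zero]; exact S.zero_mem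
    | add x y hx hy => rw [w_add]; exact S.add_mem hx hy
    | single n m => exact h1 n m
  have hS : S.FG := (Submodule.fg_def).2
    ⟨(fun b : P => w i P (PolynomialModule.single (Po σ) 0 b)) '' (s : Set P), s.finite_toSet.image _, rfl⟩
  have hT : S = ⊤ := by
    rw [eq_top_iff]
    intro x _
    obtain ⟨q, rfl⟩ := w_surj i P x
    exact h2 q
  exact ⟨hT ▸ hS⟩

theorem ex_kil {I : Set (Po σ)} (hI : ∀ r ∈ I, NI i r) (hk : Kil I P) : Kil I (Ex i P) := by
  intro r hr u
  obtain ⟨q, rfl⟩ := w_surj i P u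
  have h : nu i r • q = 0 := by
    rw [hI r hr]
    refine pm_ext fun k => ?_
    rw [C_smul_coeff, hk r hr, PolynomialModule.coeff_zero, Finsupp.zero_apply]
  rw [w_smul, h, w_zero]

theorem ex_inj (u : Ex i P) (h : (MvPolynomial.X i : Po σ) • u = 0) : u = 0 := by
  obtain ⟨q, rfl⟩ := w_surj i P u
  rw [w_X] at h
  have h1 : (X : (Po σ)[X]) • q = 0 := h
  have h2 : q = 0 := by
    refine pm_ext fun k => ?_
    rw [← X_smul_coeff_succ, h1]
    rfl
  rw [h2, w_zero]

theorem coeff_nu (hk : ∀ b : P, (MvPolynomial.X i : Po σ) • b = 0) (r : Po σ)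
    (q : PolynomialModule (Po σ) P) : (nu i r • q).coeff 0 = r • q.coeff 0 := by
  obtain ⟨r', t, hr', hr⟩ := dec i r
  have e1 : r • q.coeff 0 = r' • q.coeff 0 := by
    rw [hr, add_smul, mul_smul, hk, smul_zero, add_zero]
  rw [e1, hr, map_add, map_mul, nu_X, hr', add_smul, mul_comm, mul_smul, PolynomialModule.coeff_add,
    Finsupp.add_apply, C_smul_coeff, X_smul_coeff_zero, add_zero]

/-- the constant coefficient -/
def c0 (hk : ∀ b : P, (MvPolynomial.X i : Po σ) • b = 0) : Ex i P →ₗ[Po σ] P where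
  toFun u := PolynomialModule.coeff (R := Po σ) (M := P) u.val 0
  map_add' _ _ := rfl
  map_smul' r u := coeff_nu i P hk r u.val

theorem c0_w (hk : ∀ b : P, (MvPolynomial.X i : Po σ) • b = 0) (q : PolynomialModule (Po σ) P) :
    c0 i P hk (w i P q) = q.coeff 0 := rfl

theorem c0_surj (hk : ∀ b : P, (MvPolynomial.X i : Po σ) • b = 0) : Function.Surjective (c0 i P hk) := by
  intro b
  refine ⟨w i P (PolynomialModule.single (Po σ) 0 b), ?_⟩
  rw [c0_w, PolynomialModule.coeff_single, Finsupp.single_eq_same]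

theorem c0_ker (hk : ∀ b : P, (MvPolynomial.X i : Po σ) • b = 0) :
    LinearMap.range (mg (Ex i P) (MvPolynomial.X i : Po σ)) = LinearMap.ker (c0 i P hk) := by
  ext u
  obtain ⟨q, rfl⟩ := w_surj i P u
  rw [LinearMap.mem_ker, c0_w]
  constructor
  · rintro ⟨v, hv⟩
    obtain ⟨v, rfl⟩ := w_surj i P v
    rw [mg_apply, w_X] at hv
    rw [← w_inj i P hv, X_smul_coeff_zero]
  · intro h
    obtain ⟨v, hv⟩ := X_lift q
    refine ⟨w i P v, ?_⟩
    rw [mg_apply, w_X]
    rw [h, PolynomialModule.single_zero, add_zero] at hv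
    rw [← hv]

/-- `P[X_i] / X_i P[X_i] ≃ P` -/
def eqv (hk : ∀ b : P, (MvPolynomial.X i : Po σ) • b = 0) :
    (Ex i P ⧸ LinearMap.range (mg (Ex i P) (MvPolynomial.X i : Po σ))) ≃ₗ[Po σ] P :=
  (Submodule.quotEquivOfEq _ _ (c0_ker i P hk)).trans ((c0 i P hk).quotKerEquivOfSurjective (c0_surj i P hk))

theorem eqv_mk (hk : ∀ b : P, (MvPolynomial.X i : Po σ) • b = 0) (u : Ex i P) :
    eqv i P hk (Submodule.Quotient.mk u) = c0 i P hk u := rfl

end ex

theorem cE_w {n : ℕ} (p : Ix n) (P : Type) [AddCommGroup P] [Module (Po (Ix n)) P] (c : Dg → P →+ P) (a : Dg)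
    (q : PolynomialModule (Po (Ix n)) P) :
    cE p c a (w p P q) = w p P (cX (R := Po (Ix n)) (dg p) c a q) := rfl

theorem cE_sh {n : ℕ} (p : Ix n) (P : Type) [AddCommGroup P] [Module (Po (Ix n)) P] (c : Dg → P →+ P) (e : Dg) :
    sh (cE p c) e = cE p (sh c e) := by
  funext a
  refine AddMonoidHom.ext fun u => ?_
  obtain ⟨q, rfl⟩ := w_surj p P u
  show cE p c (a + e) (w p P q) = _
  rw [cE_w, cE_w]
  refine congrArg (w p P) (pm_ext fun k => ?_)
  rw [cX_coeff, cX_coeff]
  show _ = c (a - k • dg p + e) _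
  rw [add_sub_right_comm]

/-- the value of the fibre functional on `Ex p P` -/
theorem key (hGa : S_Ga) (hGb : S_Gb) (hGi : S_Gi) (hGu : S_Gu) (n : ℕ) (p : Ix n) (I : Set (Po (Ix n)))
    (V : Type 1) [AddCommGroup V] (ψ : GFun n I V) (hI : ∀ r ∈ I, NI p r)
    (φ : GFun n (insert (MvPolynomial.X p) I) V)
    (hφ : ∀ (N : Type) [AddCommGroup N] [Module (Po (Ix n)) N] (c : Dg → N →+ N),
      φ.f N c = ψ.f (Ex p N) (cE p c))
    (ρ : GFun n I V)
    (hρ : ∀ (M : Type) [AddCommGroup M] [Module (Po (Ix n)) M] (c : Dg → M →+ M),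
      ρ.f M c = φ.f (M ⧸ LinearMap.range (mg M (MvPolynomial.X p : Po (Ix n)))) (cQ c _) -
        φ.f (LinearMap.ker (mg M (MvPolynomial.X p : Po (Ix n)))) (sh (cS c _) (-dg p)))
    (P : Type) [AddCommGroup P] [Module (Po (Ix n)) P] (c : Dg → P →+ P) (hc : IsGr n c)
    (hP : Module.Finite (Po (Ix n)) P) (hk : Kil (insert (MvPolynomial.X p) I) P) :
    ρ.f (Ex p P) (cE p c) = ψ.f (Ex p P) (cE p c) := by
  have hX : ∀ b : P, (MvPolynomial.X p : Po (Ix n)) • b = 0 := hk _ (Set.mem_insert _ _)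
  have hg : IsGr n (cE p c) := (hGb n P c hc).2.1 p
  have hom : Hg n (MvPolynomial.X p : Po (Ix n)) (dg p) :=
    (hGi n).1 _ _ (MvPolynomial.isWeightedHomogeneous_X ℂ _ p)
  obtain ⟨hsh, hsub, hstb⟩ := hGa n (Ex p P) (cE p c) hg
  obtain ⟨hs1, hs2⟩ := hstb _ _ hom
  obtain ⟨-, -, -, hq⟩ := hsub _ hs1
  obtain ⟨hker, -, -, -⟩ := hsub _ hs2
  haveI hss : Subsingleton (LinearMap.ker (mg (Ex p P) (MvPolynomial.X p : Po (Ix n)))) := by
    refine ⟨fun x y => Subtype.ext ?_⟩
    rw [ex_inj p P x.1 x.2, ex_inj p P y.1 y.2]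
  have e1 : φ.f (LinearMap.ker (mg (Ex p P) (MvPolynomial.X p : Po (Ix n))))
      (sh (cS (cE p c) _) (-dg p)) = 0 := by
    refine (hGu n _ V φ _ _ ((hGa n _ _ hker).1 (-dg p)) ?_ ?_).1 hss
    · infer_instance
    · intro r _ m
      exact Subsingleton.elim _ _
  have e2 : φ.f P c = φ.f (Ex p P ⧸ LinearMap.range (mg (Ex p P) (MvPolynomial.X p : Po (Ix n))))
      (cQ (cE p c) _) := by
    refine (hGu n _ V φ P c hc hP hk).2.1 _ _ (eqv p P hX).symm ?_
    intro a m
    obtain ⟨y, rfl⟩ := (eqv p P hX).surjective m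
    rw [LinearEquiv.symm_apply_apply, LinearEquiv.symm_apply_eq]
    obtain ⟨u, rfl⟩ := Submodule.Quotient.mk_surjective _ y
    rw [hq, eqv_mk, eqv_mk]
    obtain ⟨q, rfl⟩ := w_surj p P u
    rw [cE_w, c0_w, c0_w, cX_coeff, zero_smul, sub_zero]
  rw [hρ, e1, sub_zero, ← e2, hφ]

end Gt_aux

open Gt_aux in
theorem tGt : S_Ga → S_Gb → S_Gi → S_Gu → S_Gx → S_Gf → S_Gr → S_Gt := by
  intro hGa hGb hGi hGu hGx hGf hGr n p I V _ ψ M _ _ c hI hM hk hc
  obtain ⟨φ, hφ⟩ := hGx n p I V ψ hI
  obtain ⟨ρ, hρ⟩ := hGf n p I V φ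
  obtain ⟨P₁, P₂, i, q, g1, g2, f1, f2, k1, k2, hi, hq, inj, surj, ex⟩ := hGr n p I M c hI hM hk hc
  have hX1 : ∀ b : P₁.M, (MvPolynomial.X p : Po (Ix n)) • b = 0 := k1 _ (Set.mem_insert _ _)
  have hX2 : ∀ b : P₂.M, (MvPolynomial.X p : Po (Ix n)) • b = 0 := k2 _ (Set.mem_insert _ _)
  have hI2 : Kil I P₂.M := (Kil.insert.1 k2).2
  have gE1 : IsGr n (cE p P₁.c) := (hGb n P₁.M P₁.c g1).2.1 p
  have gE2 : IsGr n (cE p P₂.c) := (hGb n P₂.M P₂.c g2).2.1 p
  have gE1' : IsGr n (sh (cE p P₁.c) (-dg p)) := (hGa n _ _ gE1).1 _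
  have a1 := ρ.add (Ex p P₁.M) (Ex p P₂.M) M (sh (cE p P₁.c) (-dg p)) (cE p P₂.c) c i q
    (ex_fin p P₂.M f2 hX2) (ex_kil p P₂.M hI hI2) gE1' gE2 hc hi hq inj surj ex
  have a2 := ψ.add (Ex p P₁.M) (Ex p P₂.M) M (sh (cE p P₁.c) (-dg p)) (cE p P₂.c) c i q
    (ex_fin p P₂.M f2 hX2) (ex_kil p P₂.M hI hI2) gE1' gE2 hc hi hq inj surj ex
  have b2 := key hGa hGb hGi hGu n p I V ψ hI φ hφ ρ hρ P₂.M P₂.c g2 f2 k2
  have b1 := key hGa hGb hGi hGu n p I V ψ hI φ hφ ρ hρ P₁.M (sh P₁.c (-dg p))
    ((hGa n _ _ g1).1 _) f1 k1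
  rw [← cE_sh] at b1
  rw [b1, b2] at a1
  have h : ψ.f M c = ρ.f M c := by
    have h2 := a2.symm.trans a1
    exact add_left_cancel h2
  rw [h, hρ, hφ, hφ]

end Pool.Agent.FY
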