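import Pool.Agent.Lib.MP_b53bfe_ag.Spec3
import Pool.Agent.Lib.MP_b53bfe_ag.Bas

/-!
# Module Gts: graded sum over the twists
-/

set_option autoImplicit false

noncomputable section

namespace Pool.Agent.FY

open Polynomial

namespace Gts_aux

/-! ## The ring homomorphisms `nu` and `gz` -/

section Rings

variable {σ : Type} [DecidableEq σ]

theorem nu_C (i : σ) (c : ℂ) : nu i (MvPolynomial.C c) = C (MvPolynomial.C c) := by
  unfold nu
  simp only [AlgHom.toRingHom_eq_coe, RingHom.coe_coe, MvPolynomial.aeval_C]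
  rfl

theorem nu_X (i j : σ) : nu i (MvPolynomial.X j) =
    if j = i then (X : (Po σ)[X]) else C (MvPolynomial.X j) := by
  unfold nu
  simp only [AlgHom.toRingHom_eq_coe, RingHom.coe_coe, MvPolynomial.aeval_X]

theorem gz_C (i : σ) (z c : ℂ) : gz i z (MvPolynomial.C c) = MvPolynomial.C c := by
  unfold gz
  simp only [AlgHom.toRingHom_eq_coe, RingHom.coe_coe, MvPolynomial.aeval_C]
  rfl

theorem gz_X (i : σ) (z : ℂ) (j : σ) : gz i z (MvPolynomial.X j) =
    if j = i then MvPolynomial.C z * MvPolynomial.X j else MvPolynomial.X j := by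
  unfold gz
  simp only [AlgHom.toRingHom_eq_coe, RingHom.coe_coe, MvPolynomial.aeval_X]

theorem eval_nu (i : σ) (z : ℂ) (r : Po σ) :
    (nu i r).eval (MvPolynomial.C z * MvPolynomial.X i) = gz i z r := by
  have h : (evalRingHom (MvPolynomial.C z * MvPolynomial.X i : Po σ)).comp (nu i) = gz i z := by
    apply MvPolynomial.ringHom_ext
    · intro c
      rw [RingHom.comp_apply, nu_C, gz_C, coe_evalRingHom, eval_C]
    · intro j
      rw [RingHom.comp_apply, nu_X, gz_X, coe_evalRingHom]
      by_cases hj : j = i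
      · rw [if_pos hj, if_pos hj, eval_X, hj]
      · rw [if_neg hj, if_neg hj, eval_C]
  exact congrArg (fun f : Po σ →+* Po σ => f r) h

theorem map_nu (i : σ) (r : Po σ) : (nu i r).map (gz i 0) = nu i r := by
  have h : (mapRingHom (gz i 0)).comp (nu i) = nu i := by
    apply MvPolynomial.ringHom_ext
    · intro c
      rw [RingHom.comp_apply, nu_C, coe_mapRingHom, map_C, gz_C]
    · intro j
      rw [RingHom.comp_apply, nu_X, coe_mapRingHom]
      by_cases hj : j = i
      · rw [if_pos hj, map_X]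
      · rw [if_neg hj, map_C, gz_X, if_neg hj]
  exact congrArg (fun f : Po σ →+* (Po σ)[X] => f r) h

theorem gz_NI {i : σ} {g : Po σ} (hg : NI i g) : gz i 0 g = g := by
  have h := map_nu i g
  unfold NI at hg
  rw [hg, map_C] at h
  exact C_injective h

end Rings

/-! ## Multiplication by polynomials -/

section Mul

variable {A M : Type} [CommRing A] [AddCommGroup M] [Module A M]

theorem coeff_X_smul_zero (u : PolynomialModule A M) : ((X : A[X]) • u).coeff 0 = 0 := by
  rw [← monomial_one_one_eq_X, PolynomialModule.monomial_smul_apply, if_neg (by omega)]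

theorem coeff_X_smul (u : PolynomialModule A M) (n : ℕ) :
    ((X : A[X]) • u).coeff (n + 1) = u.coeff n := by
  rw [← monomial_one_one_eq_X, PolynomialModule.monomial_smul_apply, if_pos (by omega), one_smul]
  rfl

theorem coeff_C_smul (a : A) (u : PolynomialModule A M) (n : ℕ) :
    ((C a : A[X]) • u).coeff n = a • u.coeff n := by
  rw [← monomial_zero_left, PolynomialModule.monomial_smul_apply, if_pos (by omega)]
  rfl

theorem inj_lin (a : A) (u : PolynomialModule A M) (h : (X - C a : A[X]) • u = 0) : u = 0 := by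
  have h1 : ∀ n, u.coeff n = a • u.coeff (n + 1) := by
    intro n
    have h2 : ((X - C a : A[X]) • u).coeff (n + 1) = u.coeff n - a • u.coeff (n + 1) := by
      rw [sub_smul]
      have h5 : ((X : A[X]) • u - (C a : A[X]) • u).coeff (n + 1) =
          ((X : A[X]) • u).coeff (n + 1) - ((C a : A[X]) • u).coeff (n + 1) := rfl
      rw [h5, coeff_X_smul, coeff_C_smul]
    rw [h] at h2
    have h3 : (0 : PolynomialModule A M).coeff (n + 1) = 0 := rfl
    rw [h3] at h2
    exact (sub_eq_zero.1 h2.symm)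
  have h2 : ∀ k n, u.coeff n = a ^ k • u.coeff (n + k) := by
    intro k
    induction k with
    | zero => intro n; rw [pow_zero, one_smul]; rfl
    | succ k ih =>
      intro n
      rw [ih n, h1 (n + k), smul_smul, ← pow_succ]
      rfl
  obtain ⟨N, hN⟩ := u.coeff.support.exists_nat_subset_range
  apply PolynomialModule.coeff_injective
  ext n
  rw [h2 N n]
  have h3 : u.coeff (n + N) = 0 := by
    by_contra h4
    have h5 := hN (Finsupp.mem_support_iff.2 h4)
    rw [Finset.mem_range] at h5
    omega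
  rw [h3, smul_zero]
  rfl

theorem inj_prod (z : ℕ → A) (k : ℕ) (u : PolynomialModule A M)
    (h : (∏ m ∈ Finset.range k, (X - C (z m) : A[X])) • u = 0) : u = 0 := by
  induction k with
  | zero => simpa using h
  | succ k ih =>
    rw [Finset.prod_range_succ, mul_comm, mul_smul] at h
    exact ih (inj_lin _ _ h)

theorem sub_eval (a : A) (u : PolynomialModule A M) :
    ∃ v : PolynomialModule A M, u - PolynomialModule.single A 0 (PolynomialModule.eval a u) =
      (X - C a : A[X]) • v := by
  induction u using PolynomialModule.induction_linear with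
  | zero => exact ⟨0, by simp⟩
  | add x y hx hy =>
    obtain ⟨v, hv⟩ := hx
    obtain ⟨w, hw⟩ := hy
    refine ⟨v + w, ?_⟩
    rw [smul_add, ← hv, ← hw, map_add, PolynomialModule.single_add]
    abel
  | single k m =>
    obtain ⟨s, hs⟩ := sub_dvd_pow_sub_pow (X : A[X]) (C a) k
    refine ⟨s • PolynomialModule.single A 0 m, ?_⟩
    rw [← mul_smul, ← hs, sub_smul, ← C_pow, PolynomialModule.eval_single, X_pow_eq_monomial,
      PolynomialModule.monomial_smul_single, ← monomial_zero_left,
      PolynomialModule.monomial_smul_single, one_smul, add_zero, add_zero]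

theorem cX_single (e : Dg) (c : Dg → M →+ M) (a : Dg) (k : ℕ) (m : M) :
    cX (R := A) e c a (PolynomialModule.single A k m) =
      PolynomialModule.single A k (c (a - k • e) m) := by
  apply PolynomialModule.coeff_injective
  change (Finsupp.liftAddHom fun k : ℕ => (Finsupp.singleAddHom k).comp (c (a - k • e)))
    (Finsupp.single k m) = Finsupp.single k (c (a - k • e) m)
  rw [Finsupp.liftAddHom_apply_single]
  rfl

theorem coeff_cX (e : Dg) (c : Dg → M →+ M) (a : Dg) (u : PolynomialModule A M) (k : ℕ) :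
    (cX (R := A) e c a u).coeff k = c (a - k • e) (u.coeff k) := by
  induction u using PolynomialModule.induction_linear with
  | zero =>
    rw [map_zero]
    exact (map_zero _).symm
  | add x y hx hy =>
    rw [map_add]
    have h1 : (x + y).coeff k = x.coeff k + y.coeff k := rfl
    have h2 : (cX (R := A) e c a x + cX (R := A) e c a y).coeff k =
      (cX (R := A) e c a x).coeff k + (cX (R := A) e c a y).coeff k := rfl
    rw [h1, h2, hx, hy, map_add]
  | single j m =>
    rw [cX_single]
    change (Finsupp.single j (c (a - j • e) m)) k = c (a - k • e) ((Finsupp.single j m) k)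
    by_cases h : j = k
    · rw [h, Finsupp.single_eq_same, Finsupp.single_eq_same]
    · rw [Finsupp.single_eq_of_ne (Ne.symm h), Finsupp.single_eq_of_ne (Ne.symm h), map_zero]

end Mul

/-! ## The quotients -/

section Quot

variable {n : ℕ} {M : Type} [AddCommGroup M] [Module (Po (Ix n)) M]

/-- multiplication by `q` on `Ex p M` -/
def mq (p : Ix n) (M : Type) [AddCommGroup M] [Module (Po (Ix n)) M] (q : (Po (Ix n))[X]) :
    Ex p M →ₗ[Po (Ix n)] Ex p M :=
  Res.map (nu p) (mg (PolynomialModule (Po (Ix n)) M) q)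

theorem mq_apply (p : Ix n) (q : (Po (Ix n))[X]) (u : PolynomialModule (Po (Ix n)) M) :
    mq p M q (Res.mk (nu p) u) = Res.mk (nu p) (q • u) := rfl

theorem mq_mul (p : Ix n) (q a : (Po (Ix n))[X]) (u : Ex p M) :
    mq p M (q * a) u = mq p M q (mq p M a u) :=
  mul_smul q a u.val

theorem mem_mq {p : Ix n} {q : (Po (Ix n))[X]} {u : Ex p M} :
    u ∈ LinearMap.range (mq p M q) ↔ ∃ v : PolynomialModule (Po (Ix n)) M, q • v = u.val :=
  Iff.rfl

/-- `Ex p M / q` -/
abbrev Qg (p : Ix n) (M : Type) [AddCommGroup M] [Module (Po (Ix n)) M] (q : (Po (Ix n))[X]) : Type :=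
  Ex p M ⧸ LinearMap.range (mq p M q)

/-- the grading of `Ex p M / q` -/
abbrev cG (p : Ix n) (c : Dg → M →+ M) (q : (Po (Ix n))[X]) : Dg → Qg p M q →+ Qg p M q :=
  cQ (cE p c) (LinearMap.range (mq p M q))

/-- `q` is homogeneous of degree `k • dg p` on `Ex p M` -/
def Hq (p : Ix n) (c : Dg → M →+ M) (q : (Po (Ix n))[X]) (k : ℕ) : Prop :=
  ∀ (a : Dg) (u : Ex p M), cE p c (a + k • dg p) (mq p M q u) = mq p M q (cE p c a u)

theorem Hq.stb {p : Ix n} {c : Dg → M →+ M} {q : (Po (Ix n))[X]} {k : ℕ} (h : Hq p c q k) :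
    Stb (cE p c) (LinearMap.range (mq p M q)) := by
  rintro a _ ⟨u, rfl⟩
  refine ⟨cE p c (a - k • dg p) u, ?_⟩
  rw [← h, sub_add_cancel]

theorem Hq.mul {p : Ix n} {c : Dg → M →+ M} {q r : (Po (Ix n))[X]} {k l : ℕ} (h : Hq p c q k)
    (h' : Hq p c r l) : Hq p c (q * r) (k + l) := by
  intro a u
  rw [mq_mul, mq_mul, ← h', ← h, add_smul, add_comm (k • dg p), add_assoc]

theorem Hq.one (p : Ix n) (c : Dg → M →+ M) : Hq p c 1 0 := by
  intro a u
  have h1 : ∀ v : Ex p M, mq p M 1 v = v := fun v =>
    one_smul ((Po (Ix n))[X]) (show PolynomialModule (Po (Ix n)) M from v)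
  rw [h1, h1, zero_smul, add_zero]

theorem Hq.lin {p : Ix n} {c : Dg → M →+ M} (hc : IsGr n c) (z : ℂ) :
    Hq p c (X - C (MvPolynomial.C z * MvPolynomial.X p)) 1 := by
  intro a u
  rw [one_smul]
  let v : PolynomialModule (Po (Ix n)) M := u.val
  let w : Po (Ix n) := MvPolynomial.C z * MvPolynomial.X p
  have hw : ∀ (b : Dg) (m : M), c (b + dg p) (w • m) = w • c b m := by
    intro b m
    rw [mul_smul, mul_smul, hc.cst, hc.var]
  have h1 : cX (R := Po (Ix n)) (dg p) c (a + dg p) ((X : (Po (Ix n))[X]) • v) =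
      (X : (Po (Ix n))[X]) • cX (R := Po (Ix n)) (dg p) c a v := by
    apply PolynomialModule.coeff_injective
    ext k
    rw [coeff_cX]
    rcases k with _ | k
    · rw [coeff_X_smul_zero, coeff_X_smul_zero, map_zero]
    · rw [coeff_X_smul, coeff_X_smul, coeff_cX]
      congr 2
      rw [add_smul, one_smul]
      abel
  have h2 : cX (R := Po (Ix n)) (dg p) c (a + dg p) ((C w : (Po (Ix n))[X]) • v) =
      (C w : (Po (Ix n))[X]) • cX (R := Po (Ix n)) (dg p) c a v := by
    apply PolynomialModule.coeff_injective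
    ext k
    rw [coeff_cX, coeff_C_smul, coeff_C_smul, coeff_cX, ← hw]
    congr 2
    abel
  change cX (R := Po (Ix n)) (dg p) c (a + dg p) ((X - C w : (Po (Ix n))[X]) • v) =
    (X - C w : (Po (Ix n))[X]) • cX (R := Po (Ix n)) (dg p) c a v
  rw [sub_smul, sub_smul, map_sub, h1, h2]

theorem Hq.prod {p : Ix n} {c : Dg → M →+ M} (hc : IsGr n c) (ζ : ℕ → ℂ) (k : ℕ) :
    Hq p c (∏ m ∈ Finset.range k, (X - C (MvPolynomial.C (ζ m) * MvPolynomial.X p))) k := by
  induction k with
  | zero => rw [Finset.prod_range_zero]; exact Hq.one p c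
  | succ k ih => rw [Finset.prod_range_succ]; exact ih.mul (Hq.lin hc _)

theorem single_mem {p : Ix n} (K : Submodule (Po (Ix n)) (Ex p M))
    (h : ∀ m : M, Res.mk (nu p) (PolynomialModule.single (Po (Ix n)) 0 m) ∈ K) : K = ⊤ := by
  rw [eq_top_iff]
  intro x _
  have key : ∀ u : PolynomialModule (Po (Ix n)) M, Res.mk (nu p) u ∈ K := by
    intro u
    induction u using PolynomialModule.induction_linear with
    | zero => exact K.zero_mem
    | add x y hx hy => exact K.add_mem hx hy
    | single k m =>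
      have h1 := K.smul_mem (MvPolynomial.X p ^ k) (h m)
      rw [Res.smul_mk, map_pow, nu_X, if_pos rfl, X_pow_eq_monomial,
        PolynomialModule.monomial_smul_single, one_smul, add_zero] at h1
      exact h1
  exact key x.val

/-- finiteness of the polynomial module -/
theorem finite_PM {p : Ix n} {d : ℕ} {g : Po (Ix n)} (hd : 1 ≤ d) (hg : NI p g)
    (hM : Module.Finite (Po (Ix n)) M)
    (hk : ∀ m : M, (MvPolynomial.X p ^ d + g : Po (Ix n)) • m = 0) :
    Module.Finite (Po (Ix n)) (Ex p M) := by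
  classical
  obtain ⟨s, hs⟩ := hM.fg_top
  let S : Set (Ex p M) :=
    (fun q : ℕ × M => Res.mk (nu p) (PolynomialModule.single (Po (Ix n)) 0
      ((MvPolynomial.X p : Po (Ix n)) ^ q.1 • q.2))) '' ((Finset.range d ×ˢ s : Finset (ℕ × M)) : Set (ℕ × M))
  have hS : S.Finite := (Finset.finite_toSet _).image _
  refine ⟨(Submodule.fg_def).2 ⟨S, hS, ?_⟩⟩
  apply single_mem
  have hNI : ∀ (r : Po (Ix n)) (m : M), NI p r →
      Res.mk (nu p) (PolynomialModule.single (Po (Ix n)) 0 m) ∈ Submodule.span (Po (Ix n)) S →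
      Res.mk (nu p) (PolynomialModule.single (Po (Ix n)) 0 (r • m)) ∈ Submodule.span (Po (Ix n)) S := by
    intro r m hr hm
    have h1 := Submodule.smul_mem _ r hm
    rw [Res.smul_mk, hr, ← monomial_zero_left, PolynomialModule.monomial_smul_single,
      add_zero] at h1
    exact h1
  let T : Submodule (Po (Ix n)) M :=
    { carrier := {m | ∀ e : ℕ, Res.mk (nu p) (PolynomialModule.single (Po (Ix n)) 0
        ((MvPolynomial.X p : Po (Ix n)) ^ e • m)) ∈ Submodule.span (Po (Ix n)) S}
      add_mem' := by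
        intro a b ha hb e
        rw [smul_add, PolynomialModule.single_add]
        exact Submodule.add_mem _ (ha e) (hb e)
      zero_mem' := by
        intro e
        rw [smul_zero, PolynomialModule.single_zero]
        exact Submodule.zero_mem _
      smul_mem' := by
        intro r m hm
        induction r using MvPolynomial.induction_on with
        | C c =>
          intro e
          rw [smul_smul, mul_comm, ← smul_smul]
          exact hNI _ _ (nu_C p c) (hm e)
        | add p q hp hq =>
          intro e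
          rw [add_smul, smul_add, PolynomialModule.single_add]
          exact Submodule.add_mem _ (hp e) (hq e)
        | mul_X q j hp =>
          intro e
          by_cases hj : j = p
          · have h0 := hp (e + 1)
            have h1 : (MvPolynomial.X p : Po (Ix n)) ^ e * (q * MvPolynomial.X p) =
              MvPolynomial.X p ^ (e + 1) * q := by rw [pow_succ, mul_comm q, mul_assoc]
            rw [smul_smul] at h0
            rw [smul_smul, hj, h1]
            exact h0
          · have h0 := hNI (MvPolynomial.X j) _ (by unfold NI; rw [nu_X, if_neg hj]) (hp e)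
            have h1 : (MvPolynomial.X p : Po (Ix n)) ^ e * (q * MvPolynomial.X j) =
              MvPolynomial.X j * (MvPolynomial.X p ^ e * q) := by
                rw [mul_comm q, mul_left_comm]
            rw [smul_smul, smul_smul] at h0
            rw [smul_smul, h1, ← mul_assoc]
            exact h0 }
  have hT : T = ⊤ := by
    rw [eq_top_iff, ← hs, Submodule.span_le]
    intro m hm e
    induction e using Nat.strong_induction_on with
    | _ e ih =>
      by_cases he : e < d
      · apply Submodule.subset_span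
        refine ⟨(e, m), ?_, rfl⟩
        rw [Finset.mem_coe, Finset.mem_product]
        exact ⟨Finset.mem_range.2 he, hm⟩
      · have h1 := hNI (-g) _ (by unfold NI at *; rw [map_neg, hg, C_neg]) (ih (e - d) (by omega))
        have h2 : (-g) • (MvPolynomial.X p : Po (Ix n)) ^ (e - d) • m =
            (MvPolynomial.X p : Po (Ix n)) ^ e • m := by
          have h3 := hk ((MvPolynomial.X p : Po (Ix n)) ^ (e - d) • m)
          rw [add_smul, smul_smul, ← pow_add, show d + (e - d) = e by omega] at h3
          rw [neg_smul]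
          exact (eq_neg_of_add_eq_zero_left h3).symm
        rw [h2] at h1
        exact h1
  intro m
  have hm : m ∈ T := hT ▸ Submodule.mem_top
  have := hm 0
  rw [pow_zero, one_smul] at this
  exact this

theorem mk_zero {p : Ix n} {q : (Po (Ix n))[X]} {u : Ex p M} :
    (Submodule.Quotient.mk u : Qg p M q) = 0 ↔
      ∃ v : PolynomialModule (Po (Ix n)) M, q • v = u.val :=
  (Submodule.Quotient.mk_eq_zero _).trans mem_mq

theorem C_kil {r : Po (Ix n)} (hr : ∀ m : M, r • m = 0) (u : PolynomialModule (Po (Ix n)) M) :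
    (C r : (Po (Ix n))[X]) • u = 0 := by
  apply PolynomialModule.coeff_injective
  ext k
  rw [coeff_C_smul, hr]
  rfl

/-- the quotients by divisors of `X ^ d - C (X_p ^ d)` are killed -/
theorem kil_Qg {p : Ix n} {d : ℕ} {g : Po (Ix n)} {I₀ : Set (Po (Ix n))} (hg : NI p g)
    (hI : ∀ r ∈ I₀, NI p r) (hk : Kil (insert (MvPolynomial.X p ^ d + g) I₀) M)
    (q r : (Po (Ix n))[X]) (hpq : q * r = X ^ d - C (MvPolynomial.X p ^ d)) :
    Kil (insert (MvPolynomial.X p ^ d + g) I₀) (Qg p M q) := by
  rw [Kil.insert] at hk ⊢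
  refine ⟨?_, ?_⟩
  · intro x
    obtain ⟨u, rfl⟩ := Submodule.Quotient.mk_surjective _ x
    rw [← Submodule.Quotient.mk_smul, mk_zero]
    refine ⟨r • u.val, ?_⟩
    rw [smul_smul, hpq]
    have h2 : nu p (MvPolynomial.X p ^ d + g) =
        X ^ d - C (MvPolynomial.X p ^ d) + C (MvPolynomial.X p ^ d + g) := by
      unfold NI at hg
      rw [map_add, map_pow, nu_X, if_pos rfl, hg, C_add]
      ring
    rw [Res.val_smul, h2, add_smul, C_kil hk.1, add_zero]
  · intro r hr x
    obtain ⟨u, rfl⟩ := Submodule.Quotient.mk_surjective _ x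
    rw [← Submodule.Quotient.mk_smul, mk_zero]
    refine ⟨0, ?_⟩
    rw [smul_zero, Res.val_smul, hI r hr, C_kil (hk.2 r hr)]

/-- `Ex p M / (X - C (z X_p))` is the twist of `M` -/
theorem exists_twist (hGa : S_Ga) (hGb : S_Gb) {c : Dg → M →+ M} (hc : IsGr n c) (p : Ix n) (z : ℂ) :
    ∃ e : Res (gz p z) M ≃ₗ[Po (Ix n)] Qg p M (X - C (MvPolynomial.C z * MvPolynomial.X p)),
      ∀ (a : Dg) (m : Res (gz p z) M), e (cR (gz p z) c a m) = cG p c _ a (e m) := by
  let a : Po (Ix n) := MvPolynomial.C z * MvPolynomial.X p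
  have hQ := (hGa n (Ex p M) (cE p c) ((hGb n M c hc).2.1 p)).2.1
    (LinearMap.range (mq p M (X - C a))) (Hq.lin hc z).stb
  let l : Res (gz p z) M →ₗ[Po (Ix n)] Qg p M (X - C a) :=
    { toFun := fun m => Submodule.Quotient.mk (Res.mk (nu p) (PolynomialModule.single (Po (Ix n)) 0 m.val))
      map_add' := by
        intro m m'
        have h1 : PolynomialModule.single (Po (Ix n)) 0 (m + m').val =
          PolynomialModule.single (Po (Ix n)) 0 m.val + PolynomialModule.single (Po (Ix n)) 0 m'.val :=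
          PolynomialModule.single_add _ _ _
        rw [h1]
        rfl
      map_smul' := by
        intro r m
        rw [Res.val_smul, RingHom.id_apply, ← Submodule.Quotient.mk_smul, Res.smul_mk,
          Submodule.Quotient.eq, mem_mq]
        obtain ⟨v, hv⟩ := sub_eval a ((nu p r) • PolynomialModule.single (Po (Ix n)) 0 m.val)
        refine ⟨-v, ?_⟩
        rw [smul_neg, ← hv, PolynomialModule.eval_smul, PolynomialModule.eval_single, pow_zero,
          one_smul, eval_nu, neg_sub]
        rfl }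
  have hb : Function.Bijective l := by
    constructor
    · rw [injective_iff_map_eq_zero]
      intro m hm
      have h1 : (Submodule.Quotient.mk (Res.mk (nu p) (PolynomialModule.single (Po (Ix n)) 0 m.val)) :
        Qg p M (X - C a)) = 0 := hm
      rw [mk_zero] at h1
      obtain ⟨v, hv⟩ := h1
      have h2 := congrArg (PolynomialModule.eval a) hv
      rw [PolynomialModule.eval_smul, eval_sub, eval_X, eval_C, sub_self, zero_smul] at h2
      have h3 : PolynomialModule.eval a (PolynomialModule.single (Po (Ix n)) 0 m.val) = m.val := by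
        rw [PolynomialModule.eval_single, pow_zero, one_smul]
      exact (h2.trans h3).symm
    · intro x
      obtain ⟨u, rfl⟩ := Submodule.Quotient.mk_surjective _ x
      refine ⟨Res.mk (gz p z) (PolynomialModule.eval a u.val), ?_⟩
      change (Submodule.Quotient.mk (Res.mk (nu p) (PolynomialModule.single (Po (Ix n)) 0
        (PolynomialModule.eval a u.val))) : Qg p M (X - C a)) = Submodule.Quotient.mk u
      rw [eq_comm, Submodule.Quotient.eq, mem_mq]
      obtain ⟨v, hv⟩ := sub_eval a u.val
      exact ⟨v, hv.symm⟩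
  refine ⟨LinearEquiv.ofBijective l hb, ?_⟩
  intro b m
  change (Submodule.Quotient.mk (Res.mk (nu p) (PolynomialModule.single (Po (Ix n)) 0 (c b m.val))) :
    Qg p M (X - C a)) = cQ (cE p c) _ b (Submodule.Quotient.mk (Res.mk (nu p)
      (PolynomialModule.single (Po (Ix n)) 0 m.val)))
  rw [hQ.2.2.2]
  congr 1
  have h1 := cX_single (A := Po (Ix n)) (dg p) c b 0 m.val
  rw [zero_smul, sub_zero] at h1
  exact h1.symm

/-- the exact sequence `0 → Ex / a → Ex / q a → Ex / q → 0` -/
theorem step (hGa : S_Ga) (hGb : S_Gb) {I : Set (Po (Ix n))} {V : Type 1} [AddCommGroup V]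
    (χ : GFun n I V) {c : Dg → M →+ M} (hc : IsGr n c) (p : Ix n) (q a : (Po (Ix n))[X]) (k l : ℕ)
    (hq : ∀ u : PolynomialModule (Po (Ix n)) M, q • u = 0 → u = 0) (hqk : Hq p c q k)
    (hal : Hq p c a l) (hf : Module.Finite (Po (Ix n)) (Qg p M (q * a)))
    (hk : Kil I (Qg p M (q * a))) :
    χ.f (Qg p M (q * a)) (cG p c (q * a)) =
      χ.f (Qg p M a) (sh (cG p c a) (-(k • dg p))) + χ.f (Qg p M q) (cG p c q) := by
  have hE := (hGb n M c hc).2.1 p
  have hG := (hGa n (Ex p M) (cE p c) hE).2.1
  have h1 := hG _ hqk.stb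
  have h2 := hG _ hal.stb
  have h3 := hG _ (hqk.mul hal).stb
  let j : Qg p M a →ₗ[Po (Ix n)] Qg p M (q * a) :=
    Submodule.mapQ _ _ (mq p M q) (by
      rintro _ ⟨v, rfl⟩
      exact ⟨v, mq_mul p q a v⟩)
  let t : Qg p M (q * a) →ₗ[Po (Ix n)] Qg p M q :=
    Submodule.mapQ _ _ LinearMap.id (by
      rintro _ ⟨v, rfl⟩
      exact ⟨mq p M a v, (mq_mul p q a v).symm⟩)
  have hjm : ∀ u : Ex p M, j (Submodule.Quotient.mk u) = Submodule.Quotient.mk (mq p M q u) :=
    fun u => rfl
  have htm : ∀ u : Ex p M, t (Submodule.Quotient.mk u) = Submodule.Quotient.mk u := fun u => rfl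
  refine χ.add (Qg p M a) (Qg p M (q * a)) (Qg p M q) _ _ _ j t hf hk
    ((hGa n (Qg p M a) (cG p c a) h2.2.1).1 _) h3.2.1 h1.2.1 ?_ ?_ ?_ ?_ ?_
  · intro e x
    obtain ⟨u, rfl⟩ := Submodule.Quotient.mk_surjective _ x
    change j (cG p c a (e + -(k • dg p)) (Submodule.Quotient.mk u)) = _
    rw [h2.2.2.2, hjm, hjm, h3.2.2.2, ← hqk]
    congr 2
    congr 1
    abel
  · intro e x
    obtain ⟨u, rfl⟩ := Submodule.Quotient.mk_surjective _ x
    rw [h3.2.2.2, htm, htm, h1.2.2.2]
  · rw [injective_iff_map_eq_zero]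
    intro x hx
    obtain ⟨u, rfl⟩ := Submodule.Quotient.mk_surjective _ x
    rw [hjm, mk_zero] at hx
    obtain ⟨v, hv⟩ := hx
    rw [mk_zero]
    refine ⟨v, ?_⟩
    have h2 := hq (a • v - u.val) (by
      rw [smul_sub, ← mul_smul, hv]
      exact sub_self _)
    exact sub_eq_zero.1 h2
  · intro x
    obtain ⟨u, rfl⟩ := Submodule.Quotient.mk_surjective _ x
    exact ⟨Submodule.Quotient.mk u, rfl⟩
  · intro x
    obtain ⟨u, rfl⟩ := Submodule.Quotient.mk_surjective _ x
    rw [htm, mk_zero]
    constructor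
    · rintro ⟨v, hv⟩
      exact ⟨Submodule.Quotient.mk (Res.mk (nu p) v), by rw [hjm, mq_apply, hv]; rfl⟩
    · rintro ⟨y, hy⟩
      obtain ⟨v, rfl⟩ := Submodule.Quotient.mk_surjective _ y
      rw [hjm, Submodule.Quotient.eq, mem_mq] at hy
      obtain ⟨w, hw⟩ := hy
      have hw' : (q * a) • w = q • v.val - u.val := hw
      refine ⟨v.val - a • w, ?_⟩
      rw [smul_sub, smul_smul, hw', sub_sub_cancel]

/-- `Th` of the module with `X_p` acting by `0` -/
theorem exists_Th (hGa : S_Ga) (hGb : S_Gb) {c : Dg → M →+ M} (hc : IsGr n c) {p : Ix n} {d : ℕ}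
    {g : Po (Ix n)} (hg : NI p g) (hgd : Hg n g (d • dg p)) (hst : Stb (cE p c)
      (LinearMap.range (mq p M (X ^ d + C g)))) :
    ∃ e : Th p d g (Res (gz p 0) M) ≃ₗ[Po (Ix n)] Qg p M (X ^ d + C g),
      ∀ (a : Dg) (m : Th p d g (Res (gz p 0) M)),
        e (cT p d g (cR (gz p 0) c) a m) = cG p c (X ^ d + C g) a (e m) := by
  let F : (Po (Ix n))[X] := X ^ d + C g
  have hF : F.map (gz p 0) = F := by
    change (X ^ d + C g : (Po (Ix n))[X]).map (gz p 0) = X ^ d + C g
    rw [Polynomial.map_add, Polynomial.map_pow, map_X, map_C, gz_NI hg]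
  let t : PolynomialModule (Po (Ix n)) (Res (gz p 0) M) → PolynomialModule (Po (Ix n)) M :=
    fun u => PolynomialModule.ofCoeff (Po (Ix n)) (show ℕ →₀ M from u.coeff)
  let t' : PolynomialModule (Po (Ix n)) M → PolynomialModule (Po (Ix n)) (Res (gz p 0) M) :=
    fun u => PolynomialModule.ofCoeff (Po (Ix n)) (show ℕ →₀ Res (gz p 0) M from u.coeff)
  have ht' : ∀ u, t (t' u) = u := fun _ => rfl
  have ht'' : ∀ u, t' (t u) = u := fun _ => rfl
  have htadd : ∀ u v, t (u + v) = t u + t v := fun _ _ => rfl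
  have htsmul : ∀ (G : (Po (Ix n))[X]) u, t (G • u) = (G.map (gz p 0)) • t u := by
    intro G u
    induction G using Polynomial.induction_on' with
    | add G H hG hH =>
      rw [add_smul, htadd, hG, hH, Polynomial.map_add, add_smul]
    | monomial k r =>
      rw [Polynomial.map_monomial]
      apply PolynomialModule.coeff_injective
      ext m
      have h1 : (t (monomial k r • u)).coeff m = ((monomial k r • u).coeff m : Res (gz p 0) M) := rfl
      have h2 : (t u).coeff (m - k) = (u.coeff (m - k) : Res (gz p 0) M) := rfl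
      rw [h1, PolynomialModule.monomial_smul_apply, PolynomialModule.monomial_smul_apply, h2]
      by_cases hm : k ≤ m
      · rw [if_pos hm, if_pos hm]
        rfl
      · rw [if_neg hm, if_neg hm]
        rfl
  have htc : ∀ (a : Dg) u, t (cX (R := Po (Ix n)) (dg p) (cR (gz p 0) c) a u) =
      cX (R := Po (Ix n)) (dg p) c a (t u) := by
    intro a u
    apply PolynomialModule.coeff_injective
    ext k
    rw [coeff_cX]
    exact coeff_cX (A := Po (Ix n)) (M := Res (gz p 0) M) (dg p) (cR (gz p 0) c) a u k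
  let K := LinearMap.range (mg (PolynomialModule (Po (Ix n)) M) F)
  let K' := LinearMap.range (mg (PolynomialModule (Po (Ix n)) (Res (gz p 0) M)) F)
  let KG := LinearMap.range (mq p M F)
  -- additive map to the quotient
  let f : PolynomialModule (Po (Ix n)) (Res (gz p 0) M) →+ Qg p M F :=
    { toFun := fun u => Submodule.Quotient.mk (Res.mk (nu p) (t u))
      map_zero' := rfl
      map_add' := fun u v => rfl }
  have hK : K'.toAddSubgroup ≤ f.ker := by
    rintro _ ⟨v, rfl⟩
    rw [AddMonoidHom.mem_ker]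
    change (Submodule.Quotient.mk (Res.mk (nu p) (t (F • v))) : Qg p M F) = 0
    rw [htsmul, hF, mk_zero]
    exact ⟨t v, rfl⟩
  let L : (PolynomialModule (Po (Ix n)) (Res (gz p 0) M) ⧸ K') →+ Qg p M F :=
    QuotientAddGroup.lift K'.toAddSubgroup f hK
  have hL : ∀ u : PolynomialModule (Po (Ix n)) (Res (gz p 0) M),
      L (Submodule.Quotient.mk u) = Submodule.Quotient.mk (Res.mk (nu p) (t u)) := fun _ => rfl
  let l : Th p d g (Res (gz p 0) M) →ₗ[Po (Ix n)] Qg p M (X ^ d + C g) :=
    { toFun := fun x => L x.val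
      map_add' := fun x y => L.map_add x.val y.val
      map_smul' := fun r x => by
        obtain ⟨u, hu⟩ := Submodule.Quotient.mk_surjective _ x.val
        rw [Res.val_smul, ← hu, ← Submodule.Quotient.mk_smul, hL, hL, htsmul, map_nu,
          RingHom.id_apply]
        rfl }
  have hb : Function.Bijective l := by
    constructor
    · rw [injective_iff_map_eq_zero]
      intro x hx
      obtain ⟨u, hu⟩ := Submodule.Quotient.mk_surjective _ x.val
      have h1 : L x.val = 0 := hx
      rw [← hu, hL, mk_zero] at h1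
      obtain ⟨v, hv⟩ := h1
      have h2 : u = F • t' v := by
        have h3 : t u = t (F • t' v) := by
          rw [htsmul, hF, ht']
          exact hv.symm
        have h4 := congrArg t' h3
        rwa [ht'', ht''] at h4
      have h3 : (Submodule.Quotient.mk u : PolynomialModule (Po (Ix n)) (Res (gz p 0) M) ⧸ K') = 0 := by
        rw [Submodule.Quotient.mk_eq_zero, h2]
        exact LinearMap.mem_range.2 ⟨t' v, rfl⟩
      have h4 : x.val = 0 := by rw [← hu]; exact h3
      exact h4
    · intro x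
      obtain ⟨u, rfl⟩ := Submodule.Quotient.mk_surjective _ x
      exact ⟨Res.mk (nu p) (Submodule.Quotient.mk (t' u.val)), rfl⟩
  refine ⟨LinearEquiv.ofBijective l hb, ?_⟩
  intro a m
  obtain ⟨u, hu⟩ := Submodule.Quotient.mk_surjective _ m.val
  have hm : m = Res.mk (nu p) (Submodule.Quotient.mk u) := hu.symm
  have h1 := ((hGb n (Res (gz p 0) M) (cR (gz p 0) c) ((hGb n M c hc).1 p 0)).2.2 p d g hgd).2 a u
  have h2 := ((hGa n (Ex p M) (cE p c) ((hGb n M c hc).2.1 p)).2.1 _ hst).2.2.2
  rw [hm, h1]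
  change (Submodule.Quotient.mk (Res.mk (nu p) (t (cX (R := Po (Ix n)) (dg p) (cR (gz p 0) c) a u))) :
    Qg p M F) = cQ (cE p c) KG a (Submodule.Quotient.mk (Res.mk (nu p) (t u)))
  rw [h2, htc]
  rfl

end Quot

end Gts_aux

open Gts_aux in
theorem tGts : S_Ga → S_Gb → S_Gi → S_Gu → S_Gts := by
  intro hGa hGb _ hGu n p I₀ V _ d g χ ζ hd hg hgd hI hζ M _ _ c hc hM hk
  have hfin : Module.Finite (Po (Ix n)) (Ex p M) := finite_PM hd hg hM (Kil.insert.1 hk).1
  have hfQ : ∀ q : (Po (Ix n))[X], Module.Finite (Po (Ix n)) (Qg p M q) := fun q =>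
    Module.Finite.of_surjective (Submodule.mkQ _) (Submodule.mkQ_surjective _)
  let z : ℕ → Po (Ix n) := fun m => MvPolynomial.C (ζ ^ m) * MvPolynomial.X p
  let q : ℕ → (Po (Ix n))[X] := fun k => ∏ m ∈ Finset.range k, (X - C (z m))
  have hHq : ∀ k, Hq p c (q k) k := fun k => Hq.prod hc (fun m => ζ ^ m) k
  have hprod : q d = X ^ d - C (MvPolynomial.X p ^ d) := by
    have hζ' : IsPrimitiveRoot (MvPolynomial.C ζ : Po (Ix n)) d :=
      hζ.map_of_injective (MvPolynomial.C_injective (Ix n) ℂ)
    rw [X_pow_sub_C_eq_prod hζ' (by omega) rfl]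
    refine Finset.prod_congr rfl fun m _ => ?_
    rw [← map_pow]
  have hdiv : ∀ k ≤ d, ∃ r, q k * r = X ^ d - C (MvPolynomial.X p ^ d) := by
    intro k hkd
    rw [← hprod]
    obtain ⟨r, hr⟩ := Finset.prod_dvd_prod_of_subset (Finset.range k) (Finset.range d)
      (fun m => (X - C (z m) : (Po (Ix n))[X])) (Finset.range_subset_range.2 hkd)
    exact ⟨r, hr.symm⟩
  have hE := (hGb n M c hc).2.1 p
  have hG := (hGa n (Ex p M) (cE p c) hE).2.1
  have key : ∀ k ≤ d, χ.f (Qg p M (q k)) (cG p c (q k)) =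
      ∑ m ∈ Finset.range k, χ.f (Res (gz p (ζ ^ m)) M) (cR (gz p (ζ ^ m)) (sh c (-(m • dg p)))) := by
    intro k
    induction k with
    | zero =>
      intro _
      rw [Finset.sum_range_zero]
      obtain ⟨r, hr⟩ := hdiv 0 (by omega)
      refine (hGu n _ V χ (Qg p M (q 0)) _ (hG _ (hHq 0).stb).2.1 (hfQ _)
        (kil_Qg hg hI hk _ r hr)).1 ?_
      rw [Submodule.Quotient.subsingleton_iff, eq_top_iff]
      intro u _
      rw [mem_mq]
      refine ⟨u.val, ?_⟩
      change (∏ m ∈ Finset.range 0, (X - C (z m) : (Po (Ix n))[X])) • u.val = u.val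
      rw [Finset.prod_range_zero]
      exact one_smul ((Po (Ix n))[X]) (show PolynomialModule (Po (Ix n)) M from u)
    | succ k ih =>
      intro hkd
      have h1 : q (k + 1) = q k * (X - C (z k)) := Finset.prod_range_succ _ _
      obtain ⟨r, hr⟩ := hdiv (k + 1) hkd
      have hk1 : Kil (insert (MvPolynomial.X p ^ d + g) I₀) (Qg p M (q k * (X - C (z k)))) :=
        kil_Qg hg hI hk _ r (by rw [← h1]; exact hr)
      have hk2 : Kil (insert (MvPolynomial.X p ^ d + g) I₀) (Qg p M (X - C (z k))) :=
        kil_Qg hg hI hk _ (q k * r) (by rw [← hr, h1]; ring)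
      have hst := step hGa hGb χ hc p (q k) (X - C (z k)) k 1 (inj_prod z k) (hHq k)
        (Hq.lin hc _) (hfQ _) hk1
      obtain ⟨e, he⟩ := exists_twist hGa hGb hc p (ζ ^ k)
      rw [h1, hst, ih (by omega), Finset.sum_range_succ, add_comm]
      congr 1
      have h4 := (hGa n (Qg p M (X - C (z k))) (cG p c (X - C (z k)))
        (hG _ (Hq.lin hc _).stb).2.1).1 (-(k • dg p))
      refine (hGu n _ V χ (Qg p M (X - C (z k))) _ h4 (hfQ _) hk2).2.1
        (Res (gz p (ζ ^ k)) M) _ e.symm ?_
      intro a m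
      rw [LinearEquiv.symm_apply_eq]
      have h5 := he (a + -(k • dg p)) (e.symm m)
      rw [LinearEquiv.apply_symm_apply] at h5
      exact h5.symm
  have hmg : mq p M (q d) = mq p M (X ^ d + C g : (Po (Ix n))[X]) := by
    apply LinearMap.ext
    intro u
    change Res.mk (nu p) (q d • u.val) = Res.mk (nu p) ((X ^ d + C g : (Po (Ix n))[X]) • u.val)
    have h2 : (X ^ d + C g : (Po (Ix n))[X]) =
        X ^ d - C (MvPolynomial.X p ^ d) + C (MvPolynomial.X p ^ d + g) := by
      rw [C_add]
      ring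
    rw [h2, hprod, add_smul, C_kil (Kil.insert.1 hk).1, add_zero]
  have hst2 : Stb (cE p c) (LinearMap.range (mq p M (X ^ d + C g))) := by
    rw [← hmg]
    exact (hHq d).stb
  have hQ : χ.f (Qg p M (q d)) (cG p c (q d)) =
      χ.f (Qg p M (X ^ d + C g)) (cG p c (X ^ d + C g)) := by
    unfold cG Qg
    rw [hmg]
  obtain ⟨e, he⟩ := exists_Th hGa hGb hc hg hgd hst2
  rw [← key d le_rfl, hQ]
  have hkq : Kil (insert (MvPolynomial.X p ^ d + g) I₀) (Qg p M (X ^ d + C g)) := by
    have h1 : Kil (insert (MvPolynomial.X p ^ d + g) I₀) (Qg p M (q d)) :=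
      kil_Qg hg hI hk _ 1 (by rw [mul_one]; exact hprod)
    unfold Qg at h1 ⊢
    rw [hmg] at h1
    exact h1
  refine (hGu n _ V χ (Qg p M (X ^ d + C g)) _ (hG _ hst2).2.1 (hfQ _) hkq).2.1 _ _ e.symm ?_
  intro a m
  rw [LinearEquiv.symm_apply_eq]
  have h5 := he a (e.symm m)
  rw [LinearEquiv.apply_symm_apply] at h5
  exact h5.symm

end Pool.Agent.FY
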