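import Pool.Agent.Lib.MP_b53bfe_ag.Spec3
import Pool.Agent.Lib.MP_b53bfe_ag.Bas

/-!
# Theorem T2 (MP_b53bfe_ag), module Gu (helper97): basic properties of additive functions
-/

set_option autoImplicit false

noncomputable section

namespace Pool.Agent.FY

open Polynomial

namespace Gu_aux

variable {n : ℕ}

/-- transport of a grading -/
theorem IsGr.transport {M N : Type} [AddCommGroup M] [Module (Po (Ix n)) M] [AddCommGroup N]
    [Module (Po (Ix n)) N] {c : Dg → M →+ M} (hc : IsGr n c) (c' : Dg → N →+ N)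
    (e : M ≃ₗ[Po (Ix n)] N) (h : ∀ (a : Dg) (m : M), e (c a m) = c' a (e m)) : IsGr n c' where
  fin x := by
    obtain ⟨m, rfl⟩ := e.surjective x
    refine (hc.fin m).subset fun a ha h0 => ha ?_
    rw [← h, h0, map_zero]
  sum x := by
    obtain ⟨m, rfl⟩ := e.surjective x
    have h1 : e (∑ᶠ a : Dg, c a m) = ∑ᶠ a : Dg, e (c a m) :=
      (e.toLinearMap.toAddMonoidHom).map_finsum (hc.fin m)
    rw [hc.sum m] at h1
    simp only [h] at h1
    exact h1.symm
  same a x := by
    obtain ⟨m, rfl⟩ := e.surjective x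
    rw [← h, ← h, hc.same]
  orth a b x hab := by
    obtain ⟨m, rfl⟩ := e.surjective x
    rw [← h, ← h, hc.orth a b m hab, map_zero]
  cst z a x := by
    obtain ⟨m, rfl⟩ := e.surjective x
    rw [← map_smul, ← h, hc.cst, map_smul, h]
  var p a x := by
    obtain ⟨m, rfl⟩ := e.surjective x
    rw [← map_smul, ← h, hc.var, map_smul, h]

/-- the value on the zero module -/
theorem f_zero {I : Set (Po (Ix n))} {V : Type 1} [AddCommGroup V] (χ : GFun n I V) {M : Type}
    [AddCommGroup M] [Module (Po (Ix n)) M] {c : Dg → M →+ M} (hc : IsGr n c)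
    (hf : Module.Finite (Po (Ix n)) M) (hk : Kil I M) (hM : Subsingleton M) : χ.f M c = 0 := by
  have h := χ.add M M M c c c LinearMap.id (0 : M →ₗ[Po (Ix n)] M) hf hk hc hc hc
    (fun _ _ => rfl) (fun _ _ => Subsingleton.elim _ _) (fun _ _ _ => Subsingleton.elim _ _)
    (fun x => ⟨x, Subsingleton.elim _ _⟩) (fun y => ⟨fun _ => ⟨y, rfl⟩, fun _ => rfl⟩)
  exact left_eq_add.1 h

end Gu_aux

open Gu_aux in
theorem tGu : S_Ga → S_Gu := by
  intro hGa n I V _ χ M _ _ c hc hf hk
  have h3 : ∀ N : Submodule (Po (Ix n)) M, Stb c N →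
      χ.f M c = χ.f N (cS c N) + χ.f (M ⧸ N) (cQ c N) := by
    intro N hN
    obtain ⟨g1, g2, g3, g4⟩ := (hGa n M c hc).2.1 N hN
    exact χ.add N M (M ⧸ N) (cS c N) c (cQ c N) N.subtype N.mkQ hf hk g1 hc g2
      (fun a x => g3 a x) (fun a x => (g4 a x).symm) N.injective_subtype N.mkQ_surjective
      (LinearMap.exact_subtype_mkQ N)
  refine ⟨fun hM => f_zero χ hc hf hk hM, fun N _ _ c' e he => ?_, h3⟩
  have hb : Stb c (⊥ : Submodule (Po (Ix n)) M) := by
    intro a m hm
    rw [Submodule.mem_bot] at hm ⊢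
    rw [hm, map_zero]
  obtain ⟨g1, -, g3, -⟩ := (hGa n M c hc).2.1 ⊥ hb
  have h0 : χ.f (⊥ : Submodule (Po (Ix n)) M) (cS c ⊥) = 0 :=
    f_zero χ g1 inferInstance (hk.sub ⊥) inferInstance
  have h := χ.add (⊥ : Submodule (Po (Ix n)) M) M N (cS c ⊥) c c'
    (⊥ : Submodule (Po (Ix n)) M).subtype e.toLinearMap hf hk g1 hc
    (IsGr.transport hc c' e he) (fun a x => g3 a x) (fun a x => he a x)
    (⊥ : Submodule (Po (Ix n)) M).injective_subtype e.surjective (by
      rw [LinearMap.exact_iff, Submodule.range_subtype, LinearMap.ker_eq_bot]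
      exact e.injective)
  rw [h, h0, zero_add]

end Pool.Agent.FY
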