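import Pool.Agent.Lib.MP_b53bfe_ag.Spec3
import Pool.Agent.Lib.MP_b53bfe_ag.Bas

/-!
# Theorem T2 (MP_b53bfe_ag), module Gw: the functional `tw`
-/

set_option autoImplicit false

noncomputable section

namespace Pool.Agent.FY

open Polynomial

namespace Gw_aux

section

variable {σ : Type} [DecidableEq σ]

theorem gz_C (i : σ) (z c : ℂ) : gz i z (MvPolynomial.C c) = MvPolynomial.C c := by
  unfold gz
  simp only [AlgHom.toRingHom_eq_coe, RingHom.coe_coe, MvPolynomial.aeval_C]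
  rfl

theorem gz_X (i : σ) (z : ℂ) (j : σ) : gz i z (MvPolynomial.X j) =
    if j = i then MvPolynomial.C z * MvPolynomial.X j else MvPolynomial.X j := by
  unfold gz
  simp only [AlgHom.toRingHom_eq_coe, RingHom.coe_coe, MvPolynomial.aeval_X]

theorem gz_comp (i : σ) (z w : ℂ) (r : Po σ) : gz i z (gz i w r) = gz i (w * z) r := by
  have h : (gz i z).comp (gz i w) = gz i (w * z) := by
    apply MvPolynomial.ringHom_ext
    · intro c
      rw [RingHom.comp_apply, gz_C, gz_C, gz_C]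
    · intro j
      rw [RingHom.comp_apply, gz_X, gz_X]
      by_cases hj : j = i
      · rw [if_pos hj, if_pos hj, map_mul, gz_C, gz_X, if_pos hj, MvPolynomial.C_mul, mul_assoc]
      · rw [if_neg hj, if_neg hj, gz_X, if_neg hj]
  exact congrArg (fun f : Po σ →+* Po σ => f r) h

theorem gz_one (i : σ) (r : Po σ) : gz i 1 r = r := by
  have h : gz i 1 = RingHom.id (Po σ) := by
    apply MvPolynomial.ringHom_ext
    · intro c
      rw [gz_C, RingHom.id_apply]
    · intro j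
      rw [gz_X, RingHom.id_apply]
      by_cases hj : j = i
      · rw [if_pos hj, MvPolynomial.C_1, one_mul]
      · rw [if_neg hj]
  exact congrArg (fun f : Po σ →+* Po σ => f r) h

theorem gz_surj (i : σ) {z : ℂ} (h : z ≠ 0) : Function.Surjective (gz i z) := fun r =>
  ⟨gz i z⁻¹ r, by rw [gz_comp, inv_mul_cancel₀ h, gz_one]⟩

/-- `X_j` acts on the twist as a multiple of itself -/
theorem gz_X_smul {M : Type} [AddCommGroup M] [Module (Po σ) M] (i : σ) (z : ℂ) (j : σ) (k : ℕ)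
    (h : ∀ m : M, (MvPolynomial.X j : Po σ) ^ k • m = 0) (m : Res (gz i z) M) :
    (MvPolynomial.X j : Po σ) ^ k • m = 0 := by
  change (gz i z ((MvPolynomial.X j : Po σ) ^ k)) • m.val = 0
  rw [map_pow, gz_X]
  by_cases hj : j = i
  · rw [if_pos hj, mul_pow, mul_smul, h, smul_zero]
  · rw [if_neg hj, h]

/-- if `X_i` kills `M` the twist is `M` -/
theorem gz_smul {M : Type} [AddCommGroup M] [Module (Po σ) M] (i : σ) (z : ℂ)
    (h : ∀ m : M, (MvPolynomial.X i : Po σ) • m = 0) (r : Po σ) :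
    ∀ m : M, (gz i z r) • m = r • m := by
  induction r using MvPolynomial.induction_on with
  | C a => intro m; rw [gz_C]
  | add p q hp hq => intro m; rw [map_add, add_smul, add_smul, hp, hq]
  | mul_X p j hp =>
    intro m
    rw [map_mul, mul_smul, mul_smul, hp, gz_X]
    by_cases hj : j = i
    · rw [if_pos hj, mul_smul, hj, h, smul_zero]
    · rw [if_neg hj]

end

section

variable {n : ℕ}

theorem gz_sF {d : ℕ} (p : Ix n) {z : ℂ} (hz : z ^ d = 1) (l : Fin 3) :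
    gz p z (sF n d l) = sF n d l := by
  unfold sF
  rw [map_sum]
  refine Finset.sum_congr rfl fun j _ => ?_
  unfold xv
  rw [map_pow, gz_X]
  by_cases hj : ((l, j) : Ix n) = p
  · rw [if_pos hj, mul_pow, ← MvPolynomial.C_pow, hz, MvPolynomial.C_1, one_mul]
  · rw [if_neg hj]

theorem kil_gz {d : ℕ} (p : Ix n) {z : ℂ} (hz : z ^ d = 1) {M : Type} [AddCommGroup M]
    [Module (Po (Ix n)) M] (h : Kil (Set.range (sF n d)) M) :
    Kil (Set.range (sF n d)) (Res (gz p z) M) := by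
  refine Kil.res ?_ h
  rintro r ⟨l, rfl⟩
  rw [gz_sF p hz]
  exact Ideal.subset_span ⟨l, rfl⟩

theorem sum_shift {V : Type 1} [AddCommGroup V] (F : ℕ → V) (d : ℕ) (h : ∀ k, F (k + d) = F k)
    (m : ℕ) : ∑ k ∈ Finset.range d, F (k + m) = ∑ k ∈ Finset.range d, F k := by
  induction m with
  | zero => rfl
  | succ m ih =>
    rw [← ih]
    have h1 := Finset.sum_range_succ (fun k => F (k + m)) d
    have h2 := Finset.sum_range_succ' (fun k => F (k + m)) d
    rw [h1] at h2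
    have h3 : F (d + m) = F (0 + m) := by rw [add_comm d m, h m, zero_add]
    rw [h3] at h2
    have h4 := add_right_cancel h2
    rw [h4]
    refine Finset.sum_congr rfl fun k _ => ?_
    congr 1
    ring

end

/-! generic maps -/

section

variable {R T : Type} [CommRing R] [CommRing T]

theorem map_cR (φ : R →+* T) {A B : Type} [AddCommGroup A] [AddCommGroup B] [Module T A]
    [Module T B] (f : A →ₗ[T] B) (a : Dg → A →+ A) (b : Dg → B →+ B)
    (h : ∀ (e : Dg) (x : A), f (a e x) = b e (f x)) :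
    ∀ (e : Dg) (x : Res φ A), Res.map φ f (cR φ a e x) = cR φ b e (Res.map φ f x) :=
  fun e x => h e x.val

/-- the twist by `φ` is `M` if `φ r` and `r` act in the same way -/
def eq1 (φ : R →+* R) {M : Type} [AddCommGroup M] [Module R M]
    (h : ∀ (r : R) (m : M), φ r • m = r • m) : M ≃ₗ[R] Res φ M where
  toFun m := Res.mk φ m
  map_add' _ _ := rfl
  map_smul' r m := (h r m).symm
  invFun m := Res.val m
  left_inv _ := rfl
  right_inv _ := rfl

theorem eq1_cR (φ : R →+* R) {M : Type} [AddCommGroup M] [Module R M]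
    (h : ∀ (r : R) (m : M), φ r • m = r • m) (c : Dg → M →+ M) (a : Dg) (m : M) :
    eq1 φ h (c a m) = cR φ c a (eq1 φ h m) := rfl

/-- the twist of a twist -/
def eq2 (φ ψ θ : R →+* R) {M : Type} [AddCommGroup M] [Module R M]
    (h : ∀ r : R, ψ (φ r) = θ r) : Res φ (Res ψ M) ≃ₗ[R] Res θ M where
  toFun m := Res.mk θ (Res.val (Res.val m))
  map_add' _ _ := rfl
  map_smul' r m := by
    change (ψ (φ r)) • (Res.val (Res.val m)) = (θ r) • (Res.val (Res.val m))
    rw [h]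
  invFun m := Res.mk φ (Res.mk ψ (Res.val m))
  left_inv _ := rfl
  right_inv _ := rfl

theorem eq2_cR (φ ψ θ : R →+* R) {M : Type} [AddCommGroup M] [Module R M]
    (h : ∀ r : R, ψ (φ r) = θ r) (c : Dg → M →+ M) (a : Dg) (m : Res φ (Res ψ M)) :
    eq2 φ ψ θ h (cR φ (cR ψ c) a m) = cR θ c a (eq2 φ ψ θ h m) := rfl

end

section

variable {n d : ℕ} {V : Type 1} [AddCommGroup V] (χ : GFun n (Set.range (sF n d)) V)

/-- one term of the sum -/
def tm (χ : GFun n (Set.range (sF n d)) V) (p : Ix n) (z : ℂ) (M : Type) [AddCommGroup M]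
    [Module (Po (Ix n)) M] (c : Dg → M →+ M) : V := χ.f (Res (gz p z) M) (cR (gz p z) c)

theorem tw_eq (i : Fin 3) (ζ : ℂ) (M : Type) [AddCommGroup M] [Module (Po (Ix n)) M]
    (c : Dg → M →+ M) :
    tw χ i d ζ M c = ∑ m ∈ Finset.range d, tm χ ((i, 1) : Ix n) (ζ ^ m) M c := rfl

theorem tm_add (hGb : S_Gb) (p : Ix n) {z : ℂ} (hz : z ^ d = 1) (hz0 : z ≠ 0) (A B C : Type)
    [AddCommGroup A] [Module (Po (Ix n)) A] [AddCommGroup B] [Module (Po (Ix n)) B]
    [AddCommGroup C] [Module (Po (Ix n)) C] (a : Dg → A →+ A) (b : Dg → B →+ B) (c : Dg → C →+ C)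
    (f : A →ₗ[Po (Ix n)] B) (g : B →ₗ[Po (Ix n)] C) (hB : Module.Finite (Po (Ix n)) B)
    (hk : Kil (Set.range (sF n d)) B) (ha : IsGr n a) (hb : IsGr n b) (hc : IsGr n c)
    (hfa : ∀ (e : Dg) (x : A), f (a e x) = b e (f x)) (hgb : ∀ (e : Dg) (x : B), g (b e x) = c e (g x))
    (hf : Function.Injective f) (hg : Function.Surjective g) (hex : Function.Exact f g) :
    tm χ p z B b = tm χ p z A a + tm χ p z C c := by
  unfold tm
  exact χ.add (Res (gz p z) A) (Res (gz p z) B) (Res (gz p z) C) (cR (gz p z) a) (cR (gz p z) b)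
    (cR (gz p z) c) (Res.map (gz p z) f) (Res.map (gz p z) g) (Res.finite (gz_surj p hz0) hB)
    (kil_gz p hz hk) ((hGb n A a ha).1 p z) ((hGb n B b hb).1 p z) ((hGb n C c hc).1 p z)
    (map_cR _ f a b hfa) (map_cR _ g b c hgb) (Res.map_inj hf) (Res.map_surj hg)
    (Res.map_exact hex)

theorem tm_KR (hGb : S_Gb) (p : Ix n) {z : ℂ} (hz : z ^ d = 1) (hz0 : z ≠ 0) {l : Fin 3}
    (hl : KR χ l) (M : Type) [AddCommGroup M] [Module (Po (Ix n)) M] (c : Dg → M →+ M)
    (hc : IsGr n c) (hM : Module.Finite (Po (Ix n)) M) (hk : Kil (Set.range (sF n d)) M)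
    (hx : ∃ k : ℕ, ∀ (j : Fin (n + 3)) (m : M), (MvPolynomial.X (l, j) : Po (Ix n)) ^ k • m = 0) :
    tm χ p z M c = 0 := by
  obtain ⟨k, hx⟩ := hx
  unfold tm
  exact hl (Res (gz p z) M) (cR (gz p z) c) ((hGb n M c hc).1 p z) (Res.finite (gz_surj p hz0) hM)
    (kil_gz p hz hk) ⟨k, fun j x => gz_X_smul p z _ k (hx j) x⟩

theorem tm_KV (hGb : S_Gb) (p : Ix n) {z : ℂ} (hz : z ^ d = 1) (hz0 : z ≠ 0) {q : Ix n}
    (hq : KV χ q) (M : Type) [AddCommGroup M] [Module (Po (Ix n)) M] (c : Dg → M →+ M)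
    (hc : IsGr n c) (hM : Module.Finite (Po (Ix n)) M) (hk : Kil (Set.range (sF n d)) M)
    (hx : ∀ m : M, (MvPolynomial.X q : Po (Ix n)) • m = 0) :
    tm χ p z M c = 0 := by
  unfold tm
  refine hq (Res (gz p z) M) (cR (gz p z) c) ((hGb n M c hc).1 p z) (Res.finite (gz_surj p hz0) hM)
    (kil_gz p hz hk) fun x => ?_
  have h1 := gz_X_smul p z q 1 (fun y : M => by rw [pow_one]; exact hx y) x
  rwa [pow_one] at h1

theorem tm_triv (hGu : S_Gu) (p : Ix n) (z : ℂ) (M : Type) [AddCommGroup M]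
    [Module (Po (Ix n)) M] (c : Dg → M →+ M)
    (hc : IsGr n c) (hM : Module.Finite (Po (Ix n)) M) (hk : Kil (Set.range (sF n d)) M)
    (hx : ∀ m : M, (MvPolynomial.X p : Po (Ix n)) • m = 0) :
    tm χ p z M c = χ.f M c := by
  unfold tm
  exact ((hGu n _ V χ M c hc hM hk).2.1 (Res (gz p z) M) (cR (gz p z) c)
    (eq1 (gz p z) (gz_smul p z hx)) (eq1_cR (gz p z) (gz_smul p z hx) c)).symm

theorem tm_tm (hGb : S_Gb) (hGu : S_Gu) (p : Ix n) {z w : ℂ} (hz : z ^ d = 1) (hz0 : z ≠ 0)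
    (hw : w ^ d = 1) (hw0 : w ≠ 0) (M : Type) [AddCommGroup M] [Module (Po (Ix n)) M]
    (c : Dg → M →+ M) (hc : IsGr n c) (hM : Module.Finite (Po (Ix n)) M)
    (hk : Kil (Set.range (sF n d)) M) :
    tm χ p z (Res (gz p w) M) (cR (gz p w) c) = tm χ p (z * w) M c := by
  have f1 : Module.Finite (Po (Ix n)) (Res (gz p w) M) := Res.finite (gz_surj p hw0) hM
  have f2 : Module.Finite (Po (Ix n)) (Res (gz p z) (Res (gz p w) M)) :=
    Res.finite (gz_surj p hz0) f1
  have k2 : Kil (Set.range (sF n d)) (Res (gz p z) (Res (gz p w) M)) :=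
    kil_gz p hz (kil_gz p hw hk)
  have g2 : IsGr n (cR (gz p z) (cR (gz p w) c)) :=
    (hGb n (Res (gz p w) M) (cR (gz p w) c) ((hGb n M c hc).1 p w)).1 p z
  unfold tm
  exact (hGu n _ V χ (Res (gz p z) (Res (gz p w) M)) _ g2 f2 k2).2.1 (Res (gz p (z * w)) M)
    (cR (gz p (z * w)) c) (eq2 (gz p z) (gz p w) (gz p (z * w)) (gz_comp p w z))
    (eq2_cR (gz p z) (gz p w) (gz p (z * w)) (gz_comp p w z) c)

end

end Gw_aux

open Gw_aux

theorem tGw : S_Ga → S_Gb → S_Gi → S_Gu → S_Gw := by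
  intro _ hGb _ hGu n d V _ χ i ζ hd hζ
  have hz : ∀ m : ℕ, (ζ ^ m) ^ d = 1 := fun m => by
    rw [← pow_mul, mul_comm, pow_mul, hζ.pow_eq_one, one_pow]
  have hz0 : ∀ m : ℕ, ζ ^ m ≠ 0 := fun m h => by
    have := hz m
    rw [h, zero_pow (by lia)] at this
    exact zero_ne_one this
  refine ⟨⟨fun M _ _ c => tw χ i d ζ M c, ?_⟩, fun M _ _ c => rfl, ?_, ?_, ?_, ?_⟩
  · intro A B C _ _ _ _ _ _ a b c f g hB hk ha hb hc hfa hgb hf hg hex
    rw [tw_eq, tw_eq, tw_eq, ← Finset.sum_add_distrib]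
    exact Finset.sum_congr rfl fun m _ => tm_add χ hGb _ (hz m) (hz0 m) A B C a b c f g hB hk ha hb
      hc hfa hgb hf hg hex
  · intro l hl M _ _ c hc hM hk hx
    change tw χ i d ζ M c = 0
    rw [tw_eq]
    exact Finset.sum_eq_zero fun m _ => tm_KR χ hGb _ (hz m) (hz0 m) hl M c hc hM hk hx
  · intro p hp M _ _ c hc hM hk hx
    change tw χ i d ζ M c = 0
    rw [tw_eq]
    exact Finset.sum_eq_zero fun m _ => tm_KV χ hGb _ (hz m) (hz0 m) hp M c hc hM hk hx
  · intro M _ _ c hc hM hk hx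
    change tw χ i d ζ M c = (d : ℤ) • χ.f M c
    rw [tw_eq, Finset.sum_congr rfl fun m _ => tm_triv χ hGu _ _ M c hc hM hk hx,
      Finset.sum_const, Finset.card_range, natCast_zsmul]
  · intro M _ _ c hc hM hk m
    change tw χ i d ζ _ _ = tw χ i d ζ M c
    rw [tw_eq, tw_eq, Finset.sum_congr rfl fun k _ =>
      tm_tm χ hGb hGu ((i, 1) : Ix n) (hz k) (hz0 k) (hz m) (hz0 m) M c hc hM hk]
    have h2 : ∀ k : ℕ, ζ ^ k * ζ ^ m = ζ ^ (k + m) := fun k => (pow_add _ _ _).symm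
    simp only [h2]
    refine sum_shift (fun k => tm χ ((i, 1) : Ix n) (ζ ^ k) M c) d (fun k => ?_) m
    have e : ζ ^ (k + d) = ζ ^ k := by rw [pow_add, hζ.pow_eq_one, mul_one]
    change tm χ ((i, 1) : Ix n) (ζ ^ (k + d)) M c = tm χ ((i, 1) : Ix n) (ζ ^ k) M c
    rw [e]

end Pool.Agent.FY
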