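import Pool.Agent.Lib.MP_b53bfe_ag.Spec3
import Pool.Agent.Lib.MP_b53bfe_ag.Bas

/-!
# Theorem T2 (MP_b53bfe_ag): the graded functor `N ↦ N[X_p]`
-/

set_option autoImplicit false

noncomputable section

namespace Pool.Agent.FY

open Polynomial

namespace Gx_aux

section gen

variable {R : Type} [CommRing R] {A B C : Type} [AddCommGroup A] [Module R A] [AddCommGroup B]
  [Module R B] [AddCommGroup C] [Module R C]

/-- the map on polynomial modules -/
def pm (l : A →ₗ[R] B) : PolynomialModule R A →ₗ[R[X]] PolynomialModule R B where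
  toFun q := PolynomialModule.map R l q
  map_add' := map_add _
  map_smul' p q := by
    rw [PolynomialModule.map_smul, Algebra.algebraMap_self, Polynomial.map_id, RingHom.id_apply]

theorem pm_coeff (l : A →ₗ[R] B) (q : PolynomialModule R A) (k : ℕ) :
    (pm l q).coeff k = l (q.coeff k) := rfl

theorem pm_ext {x y : PolynomialModule R A} (h : ∀ k, x.coeff k = y.coeff k) : x = y :=
  PolynomialModule.coeff_injective (Finsupp.ext h)

theorem pm_inj {l : A →ₗ[R] B} (h : Function.Injective l) : Function.Injective (pm l) := by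
  intro x y hxy
  refine pm_ext fun k => h ?_
  rw [← pm_coeff, ← pm_coeff, hxy]

theorem pm_lift {l : A →ₗ[R] B} (y : PolynomialModule R B) (h : ∀ k, ∃ a, l a = y.coeff k) :
    ∃ x, pm l x = y := by
  choose s hs using h
  classical
  refine ⟨PolynomialModule.ofCoeff R (Finsupp.onFinset y.coeff.support
    (fun k => if y.coeff k = 0 then 0 else s k) ?_), pm_ext fun k => ?_⟩
  · intro k hk
    rw [Finsupp.mem_support_iff]
    intro h0
    exact hk (if_pos h0)
  · rw [pm_coeff, PolynomialModule.coeff_ofCoeff, Finsupp.onFinset_apply]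
    by_cases h0 : y.coeff k = 0
    · rw [if_pos h0, map_zero, h0]
    · rw [if_neg h0, hs]

theorem pm_surj {l : A →ₗ[R] B} (h : Function.Surjective l) : Function.Surjective (pm l) :=
  fun y => pm_lift y fun _ => h _

theorem pm_exact {u : A →ₗ[R] B} {v : B →ₗ[R] C} (h : Function.Exact u v) :
    Function.Exact (pm u) (pm v) := by
  intro y
  constructor
  · intro hy
    refine pm_lift y fun k => ?_
    refine (h _).1 ?_
    rw [← pm_coeff, hy]
    rfl
  · rintro ⟨x, rfl⟩
    refine pm_ext fun k => ?_
    rw [pm_coeff, pm_coeff]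
    exact (h _).2 ⟨_, rfl⟩

/-- the coefficients of the component of degree `a` -/
theorem cX_coeff (e : Dg) (c : Dg → A →+ A) (a : Dg) (q : PolynomialModule R A) (k : ℕ) :
    (cX (R := R) e c a q).coeff k = c (a - k • e) (q.coeff k) := by
  have h1 : (cX (R := R) e c a q).coeff =
      Finsupp.liftAddHom (fun k : ℕ => (Finsupp.singleAddHom k).comp (c (a - k • e))) q.coeff := rfl
  rw [h1, Finsupp.liftAddHom_apply, Finsupp.sum_apply]
  have h2 : ∀ m : ℕ, ((Finsupp.singleAddHom m).comp (c (a - m • e))) (q.coeff m) k =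
      if m = k then c (a - m • e) (q.coeff m) else 0 := by
    intro m
    rw [AddMonoidHom.comp_apply, Finsupp.singleAddHom_apply, Finsupp.single_apply]
  unfold Finsupp.sum
  rw [Finset.sum_congr rfl (fun m _ => h2 m), Finset.sum_ite_eq']
  split_ifs with h
  · rfl
  · rw [Finsupp.notMem_support_iff.1 h, map_zero]

/-- the map on polynomial modules is compatible with the gradings -/
theorem pm_cX (e : Dg) (a : Dg → A →+ A) (b : Dg → B →+ B) (l : A →ₗ[R] B)
    (h : ∀ (f : Dg) (x : A), l (a f x) = b f (l x)) (f : Dg) (q : PolynomialModule R A) :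
    pm l (cX (R := R) e a f q) = cX (R := R) e b f (pm l q) := by
  refine pm_ext fun k => ?_
  rw [pm_coeff, cX_coeff, cX_coeff, pm_coeff, h]

end gen

section poly

variable {σ : Type} [DecidableEq σ]

theorem nu_X (i : σ) : nu i (MvPolynomial.X i) = X := by
  unfold nu
  simp

theorem NI_add {i : σ} {r s : Po σ} (hr : NI i r) (hs : NI i s) : NI i (r + s) := by
  unfold NI at *
  rw [map_add, hr, hs, Polynomial.C_add]

theorem NI_mul {i : σ} {r s : Po σ} (hr : NI i r) (hs : NI i s) : NI i (r * s) := by
  unfold NI at *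
  rw [map_mul, hr, hs, Polynomial.C_mul]

theorem NI_C (i : σ) (a : ℂ) : NI i (MvPolynomial.C a) := by
  unfold NI nu
  simp only [AlgHom.toRingHom_eq_coe, RingHom.coe_coe, MvPolynomial.algHom_C]
  rfl

theorem NI_X {i j : σ} (h : j ≠ i) : NI i (MvPolynomial.X j) := by
  unfold NI nu
  simp [h]

theorem dec (i : σ) (r : Po σ) : ∃ r' t : Po σ, NI i r' ∧ r = r' + t * MvPolynomial.X i := by
  induction r using MvPolynomial.induction_on with
  | C a => exact ⟨MvPolynomial.C a, 0, NI_C i a, by ring⟩
  | add p q hp hq =>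
    obtain ⟨p', s, hp', hp⟩ := hp
    obtain ⟨q', t, hq', hq⟩ := hq
    exact ⟨p' + q', s + t, NI_add hp' hq', by rw [hp, hq]; ring⟩
  | mul_X p j hp =>
    obtain ⟨p', s, hp', hp⟩ := hp
    by_cases h : j = i
    · subst h
      refine ⟨0, p, ?_, by ring⟩
      unfold NI
      rw [map_zero, Polynomial.C_0]
    · exact ⟨p' * MvPolynomial.X j, s * MvPolynomial.X j, NI_mul hp' (NI_X h), by rw [hp]; ring⟩

theorem fin (i : σ) (B : Type) [AddCommGroup B] [Module (Po σ) B]
    (hB : Module.Finite (Po σ) B) (hk : ∀ b : B, (MvPolynomial.X i : Po σ) • b = 0) :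
    Module.Finite (Po σ) (Ex i B) := by
  obtain ⟨s, hs⟩ := hB.fg_top
  let w : PolynomialModule (Po σ) B → Ex i B := fun q => Res.mk (nu i) q
  have wadd : ∀ p q, w (p + q) = w p + w q := fun p q => rfl
  have wzero : w 0 = 0 := rfl
  have wsmul : ∀ (r : Po σ) q, r • w q = w (nu i r • q) := fun r q => rfl
  let S : Submodule (Po σ) (Ex i B) :=
    Submodule.span (Po σ) ((fun b : B => w (PolynomialModule.single (Po σ) 0 b)) '' (s : Set B))
  have h0 : ∀ b : B, b ∈ Submodule.span (Po σ) (s : Set B) →
      w (PolynomialModule.single (Po σ) 0 b) ∈ S := by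
    intro b hb
    induction hb using Submodule.span_induction with
    | mem y hy => exact Submodule.subset_span ⟨y, hy, rfl⟩
    | zero => rw [PolynomialModule.single_zero, wzero]; exact S.zero_mem
    | add y z _ _ hy hz => rw [PolynomialModule.single_add, wadd]; exact S.add_mem hy hz
    | smul r y _ hy =>
      obtain ⟨r', t, hr', hr⟩ := dec i r
      have e1 : r • y = r' • y := by
        rw [hr, add_smul, mul_smul, hk, smul_zero, add_zero]
      have e2 : r' • w (PolynomialModule.single (Po σ) 0 y) =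
          w (PolynomialModule.single (Po σ) 0 (r' • y)) := by
        rw [wsmul, hr']
        congr 1
        have := PolynomialModule.monomial_smul_single (R := Po σ) 0 r' 0 y
        exact this
      rw [e1, ← e2]
      exact S.smul_mem r' hy
  have h1 : ∀ (k : ℕ) (b : B), w (PolynomialModule.single (Po σ) k b) ∈ S := by
    intro k b
    have e : w (PolynomialModule.single (Po σ) k b) =
        (MvPolynomial.X i ^ k : Po σ) • w (PolynomialModule.single (Po σ) 0 b) := by
      rw [wsmul, map_pow, nu_X, ← Polynomial.monomial_one_right_eq_X_pow,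
        PolynomialModule.monomial_smul_single, add_zero, one_smul]
    rw [e]
    exact S.smul_mem _ (h0 b (hs ▸ Submodule.mem_top))
  have h2 : ∀ q : PolynomialModule (Po σ) B, w q ∈ S := by
    intro q
    induction q using PolynomialModule.induction_linear with
    | zero => rw [wzero]; exact S.zero_mem
    | add x y hx hy => rw [wadd]; exact S.add_mem hx hy
    | single n m => exact h1 n m
  have hS : S.FG := (Submodule.fg_def).2 ⟨(fun b : B => w (PolynomialModule.single (Po σ) 0 b)) ''
    (s : Set B), s.finite_toSet.image _, rfl⟩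
  have hT : S = ⊤ := by
    rw [eq_top_iff]
    intro x _
    exact h2 x.val
  exact ⟨hT ▸ hS⟩

theorem kil {i : σ} {I : Set (Po σ)} (hI : ∀ r ∈ I, NI i r) (B : Type) [AddCommGroup B]
    [Module (Po σ) B] (hk : Kil I B) : Kil I (Ex i B) := by
  intro r hr m
  have h2 : nu i r • m.val = 0 := by
    rw [hI r hr]
    refine pm_ext fun k => ?_
    have := PolynomialModule.monomial_smul_apply 0 r m.val k
    rw [if_pos (Nat.zero_le k), hk r hr] at this
    exact this
  exact h2

end poly

end Gx_aux

open Gx_aux in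
theorem tGx : S_Ga → S_Gb → S_Gi → S_Gu → S_Gx := by
  intro _ hGb _ _ n p I V _ ψ hI
  refine ⟨⟨fun N _ _ c => ψ.f (Ex p N) (cE p c), ?_⟩, fun N _ _ c => rfl⟩
  intro A B C _ _ _ _ _ _ a b c u v hB hk ha hb hc hu hv hui hvs hex
  rw [Kil.insert] at hk
  refine ψ.add (Ex p A) (Ex p B) (Ex p C) (cE p a) (cE p b) (cE p c) (Res.map (nu p) (pm u))
    (Res.map (nu p) (pm v)) (fin p B hB hk.1) (kil hI B hk.2) ((hGb n A a ha).2.1 p)
    ((hGb n B b hb).2.1 p) ((hGb n C c hc).2.1 p) ?_ ?_ (Res.map_inj (pm_inj hui))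
    (Res.map_surj (pm_surj hvs)) (Res.map_exact (pm_exact hex))
  · intro e x
    exact pm_cX (dg p) a b u hu e x.val
  · intro e x
    exact pm_cX (dg p) b c v hv e x.val

end Pool.Agent.FY
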