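import Pool.Agent.Lib.MP_b53bfe_ag.Spec3
import Pool.Agent.Lib.MP_b53bfe_ag.Hg

/-!
# Gxs: the functional `N ↦ ψ (exs ys N)`
-/

set_option autoImplicit false

noncomputable section

namespace Pool.Agent.FY

open Polynomial

namespace Gxs_aux

variable {n : ℕ}

theorem ni_X {y p : Ix n} (h : p ≠ y) : NI y (MvPolynomial.X p : Po (Ix n)) := by
  show nu y (MvPolynomial.X p) = C (MvPolynomial.X p)
  rw [Hg_aux.nu_X, if_neg h]

theorem ni_pow {y : Ix n} {r : Po (Ix n)} (h : NI y r) (k : ℕ) : NI y (r ^ k) := by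
  show nu y (r ^ k) = C (r ^ k)
  have h1 : nu y r = C r := h
  rw [map_pow, map_pow, h1]

theorem ni_Rw {i : Fin 3} {y : Ix n} {ys : List (Ix n)} {I₀ : Set (Po (Ix n))} (hyi : y.1 = i)
    (hI : ∀ r ∈ I₀, ∀ p : Ix n, p.1 = i → NI p r) : ∀ r ∈ Rw n i (y :: ys) ∪ I₀, NI y r := by
  rintro r (⟨p, -, hp2, rfl⟩ | hr)
  · exact ni_X (fun h => hp2 (by rw [h]; exact List.mem_cons_self))
  · exact hI r hr y hyi

theorem set_eq {i : Fin 3} {y : Ix n} {ys : List (Ix n)} (I₀ : Set (Po (Ix n))) (hyi : y.1 = i) (hy : y ∉ ys) :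
    insert (MvPolynomial.X y) (Rw n i (y :: ys) ∪ I₀) = Rw n i ys ∪ I₀ := by
  ext r
  constructor
  · rintro (rfl | ⟨p, hp1, hp2, rfl⟩ | hr)
    · exact Or.inl ⟨y, hyi, hy, rfl⟩
    · exact Or.inl ⟨p, hp1, fun h => hp2 (List.mem_cons_of_mem _ h), rfl⟩
    · exact Or.inr hr
  · rintro (⟨p, hp1, hp2, rfl⟩ | hr)
    · by_cases hpy : p = y
      · subst hpy
        exact Or.inl rfl
      · refine Or.inr (Or.inl ⟨p, hp1, ?_, rfl⟩)
        intro h
        rcases List.mem_cons.1 h with h | h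
        · exact hpy h
        · exact hp2 h
    · exact Or.inr (Or.inr hr)

end Gxs_aux

open Gxs_aux in
theorem tGxs : S_Ga → S_Gb → S_Gi → S_Gu → S_Gx → S_Gxs := by
  intro _ hGb _ _ hGx n i ys
  induction ys with
  | nil =>
    intro I₀ V _ ψ _ _ _
    exact ⟨ψ, fun N => rfl, fun k _ h => h⟩
  | cons y ys ih =>
    intro I₀ V _ ψ hnd hys hI
    have hyi : y.1 = i := hys y List.mem_cons_self
    have hy : y ∉ ys := (List.nodup_cons.1 hnd).1
    obtain ⟨φ₁, h₁⟩ : ∃ φ₁ : GFun n (Rw n i ys ∪ I₀) V, ∀ (N : Type) [AddCommGroup N] [Module (Po (Ix n)) N]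
        (c : Dg → N →+ N), φ₁.f N c = ψ.f (Ex y N) (cE y c) := by
      rw [← set_eq I₀ hyi hy]
      exact hGx n y (Rw n i (y :: ys) ∪ I₀) V ψ (ni_Rw hyi hI)
    obtain ⟨φ, hφ, hK⟩ := ih I₀ V φ₁ (List.nodup_cons.1 hnd).2 (fun z hz => hys z (List.mem_cons_of_mem _ hz)) hI
    refine ⟨φ, ?_, ?_⟩
    · intro N
      rw [hφ N]
      exact h₁ _ _
    · intro k hk hψ
      refine hK k hk ?_
      intro M _ _ c hc hfin hkil hpow
      rw [h₁ M c]
      have hkil' : Kil (insert (MvPolynomial.X y) (Rw n i (y :: ys) ∪ I₀)) M := by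
        rw [set_eq I₀ hyi hy]
        exact hkil
      have hX : ∀ m : M, (MvPolynomial.X y : Po (Ix n)) • m = 0 := fun m => hkil' _ (Or.inl rfl) m
      refine hψ (Ex y M) (cE y c) ((hGb n M c hc).2.1 y) (Hg_aux.ex_finite y hX hfin)
        (Hg_aux.ex_kil y (ni_Rw hyi hI) (fun r hr m => hkil' r (Or.inr hr) m)) ?_
      obtain ⟨K, hKp⟩ := hpow
      refine ⟨K, fun j m => ?_⟩
      have hne : ((k, j) : Ix n) ≠ y := by
        intro h
        apply hk
        rw [← hyi, ← h]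
      have h2 : Kil {(MvPolynomial.X (k, j) : Po (Ix n)) ^ K} (Ex y M) := by
        refine Hg_aux.ex_kil y ?_ ?_
        · rintro r rfl
          exact ni_pow (ni_X hne) K
        · rintro r rfl m
          exact hKp j m
      exact h2 _ rfl m

end Pool.Agent.FY
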