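import Pool.Agent.Lib.MP_b53bfe_ag.GzA

/-!
# Module Gz: comparison with the diagonal
-/

set_option autoImplicit false

noncomputable section

namespace Pool.Agent.FY

open Polynomial

namespace Gz_aux

variable {n : ℕ} {i k : Fin 3}

/-- `tz` maps `span A` to the polynomials with coefficients in `span A'` -/
theorem coeff_tz_mem {A A' : Set (Po (Ix n))} (hA : ∀ r ∈ A, ∃ a : Dg, MvPolynomial.IsWeightedHomogeneous (dg (n := n)) r a)
    (hs : ∀ r ∈ A, sb n i k r ∈ Ideal.span A') (β : ℕ) {p : Po (Ix n)} (hp : p ∈ Ideal.span A) :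
    (tz n i k p).coeff β ∈ Ideal.span A' := by
  have h : Ideal.span A ≤ (Ideal.map (C : Po (Ix n) →+* (Po (Ix n))[X]) (Ideal.span A')).comap (tz n i k) := by
    rw [Ideal.span_le]
    intro r hr
    obtain ⟨a, ha⟩ := hA r hr
    show tz n i k r ∈ Ideal.map (C : Po (Ix n) →+* (Po (Ix n))[X]) (Ideal.span A')
    rw [tz_hom ha]
    exact Ideal.mul_mem_left _ _ (Ideal.mem_map_of_mem _ (hs r hr))
  exact Ideal.mem_map_C_iff.1 (h hp) β

/-- the map `Φ` -/
theorem exists_map {A A' : Set (Po (Ix n))} (hA : ∀ r ∈ A, ∃ a : Dg, MvPolynomial.IsWeightedHomogeneous (dg (n := n)) r a)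
    (hs : ∀ r ∈ A, sb n i k r ∈ Ideal.span A') (β : ℕ) :
    ∃ Φ : Res (rk n i) (Po (Ix n) ⧸ Ideal.span A) →ₗ[Po (Ix n)] Po (Ix n) ⧸ Ideal.span (Rw n i [] ∪ A'),
      ∀ p : Po (Ix n), Φ (Res.mk (rk n i) (Submodule.Quotient.mk p)) = Submodule.Quotient.mk (sb n i k (pi0 n i β p)) := by
  let J' : Ideal (Po (Ix n)) := Ideal.span (Rw n i [] ∪ A')
  have hJ' : Ideal.span A' ≤ J' := Ideal.span_mono Set.subset_union_right
  have hR : Ideal.span (Rw n i []) ≤ J' := Ideal.span_mono Set.subset_union_left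
  let f : Po (Ix n) →+ Po (Ix n) ⧸ J' :=
    ((Ideal.Quotient.mk J').toAddMonoidHom.comp (Polynomial.lcoeff (Po (Ix n)) β).toAddMonoidHom).comp
      (tz n i k).toAddMonoidHom
  have hf : ∀ p, f p = Ideal.Quotient.mk J' ((tz n i k p).coeff β) := fun p => rfl
  have hf0 : (Ideal.span A : Ideal (Po (Ix n))).toAddSubgroup ≤ f.ker := by
    intro p hp
    rw [AddMonoidHom.mem_ker, hf, Ideal.Quotient.eq_zero_iff_mem]
    exact hJ' (coeff_tz_mem hA hs β hp)
  let F : Po (Ix n) ⧸ Ideal.span A →+ Po (Ix n) ⧸ J' := QuotientAddGroup.lift _ f hf0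
  have hF : ∀ p : Po (Ix n), F (Submodule.Quotient.mk p) = Ideal.Quotient.mk J' ((tz n i k p).coeff β) := fun p => rfl
  refine ⟨{ toFun := fun x => F x.val, map_add' := fun x y => F.map_add x y, map_smul' := ?_ }, ?_⟩
  · intro r x
    obtain ⟨p, hp⟩ := Submodule.Quotient.mk_surjective _ x.val
    show F (rk n i r • x.val) = r • F x.val
    rw [← hp]
    have h1 : rk n i r • (Submodule.Quotient.mk p : Po (Ix n) ⧸ Ideal.span A) = Submodule.Quotient.mk (rk n i r * p) := rfl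
    rw [h1, hF, hF, map_mul, tz_rk, Polynomial.coeff_C_mul]
    have h2 : r • Ideal.Quotient.mk J' ((tz n i k p).coeff β) = Ideal.Quotient.mk J' (r * (tz n i k p).coeff β) := rfl
    rw [h2, eq_comm, Ideal.Quotient.eq, ← sub_mul]
    exact J'.mul_mem_right _ (hR (sub_rk_mem r))
  · intro p
    show F (Submodule.Quotient.mk p) = _
    rw [hF, coeff_tz]
    rfl

/-- `J` is stable, the components of `p` of the degrees different from `β` are in `J`: then `p` is its part of degree `β` modulo `J` -/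
theorem sub_pi0_mem (hP : IsGr n (cP n)) (J : Ideal (Po (Ix n))) (β : ℕ) (p : Po (Ix n))
    (h : ∀ a : Dg, a i ≠ β → cP n a p ∈ J) : p - pi0 n i β p ∈ J := by
  refine hP.mem_submodule J fun a => ?_
  rw [map_sub, cP_pi0]
  by_cases ha : a i = β
  · rw [if_pos ha, sub_self]
    exact J.zero_mem
  · rw [if_neg ha, sub_zero]
    exact h a ha

end Gz_aux

open Gz_aux in
theorem tGz : S_Ga → S_Gb → S_Gi → S_Gu → S_Gn → S_Gz := by
  intro hGa _ hGi hGu hGn
  intro n i k I₀ A A' V _ φ hik hA hA' hA'rk hI₀rk hI₀ hA'A hsb hmn hKR hcy b e e₀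
  let J : Ideal (Po (Ix n)) := Ideal.span A
  let J' : Ideal (Po (Ix n)) := Ideal.span (Rw n i [] ∪ A')
  have hA'J' : Ideal.span A' ≤ J' := Ideal.span_mono Set.subset_union_right
  have hRJ' : Ideal.span (Rw n i []) ≤ J' := Ideal.span_mono Set.subset_union_left
  have hA'J : Ideal.span A' ≤ J := Ideal.span_le.2 hA'A
  have hcP : IsGr n (cP n) := (hGi n).2.1
  have hRA' : ∀ r ∈ Rw n i [] ∪ A', ∃ a : Dg, MvPolynomial.IsWeightedHomogeneous (dg (n := n)) r a := by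
    rintro r (hr | hr)
    · obtain ⟨p, -, -, rfl⟩ := hr
      exact ⟨dg p, MvPolynomial.isWeightedHomogeneous_X _ _ _⟩
    · exact hA' r hr
  -- the grading of `S / J`
  let c₀ : Dg → (Po (Ix n) ⧸ J) →+ (Po (Ix n) ⧸ J) := cQ (cP n) J
  have hc₀ : IsGr n c₀ := ((hGi n).2.2 A hA).2
  have hc₀mk : ∀ (a : Dg) (p : Po (Ix n)), c₀ a (Submodule.Quotient.mk p) = Submodule.Quotient.mk (cP n a p) :=
    ((hGa n _ (cP n) hcP).2.1 J ((hGi n).2.2 A hA).1).2.2.2
  let c : Dg → (Po (Ix n) ⧸ J) →+ (Po (Ix n) ⧸ J) := sh c₀ e₀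
  have hc : IsGr n c := (hGa n _ c₀ hc₀).1 e₀
  -- the grading of `S / J'`
  let c₁ : Dg → (Po (Ix n) ⧸ J') →+ (Po (Ix n) ⧸ J') := cQ (cP n) J'
  have hc₁ : IsGr n c₁ := ((hGi n).2.2 _ hRA').2
  have hc₁mk : ∀ (a : Dg) (p : Po (Ix n)), c₁ a (Submodule.Quotient.mk p) = Submodule.Quotient.mk (cP n a p) :=
    ((hGa n _ (cP n) hcP).2.1 J' ((hGi n).2.2 _ hRA').1).2.2.2
  have hfin : Module.Finite (Po (Ix n)) (Po (Ix n) ⧸ J) := inferInstance
  have hfin' : Module.Finite (Po (Ix n)) (Po (Ix n) ⧸ J') := inferInstance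
  have hkil : Kil I₀ (Po (Ix n) ⧸ J) := by
    intro r hr m
    obtain ⟨q, rfl⟩ := Submodule.Quotient.mk_surjective _ m
    have h1 : r • (Submodule.Quotient.mk q : Po (Ix n) ⧸ J) = Submodule.Quotient.mk (r * q) := rfl
    rw [h1, Submodule.Quotient.mk_eq_zero]
    exact J.mul_mem_right _ (hA'J (hI₀ r hr))
  have hkil' : Kil (Rw n i [] ∪ I₀) (Po (Ix n) ⧸ J') := by
    intro r hr m
    obtain ⟨q, rfl⟩ := Submodule.Quotient.mk_surjective _ m
    have h1 : r • (Submodule.Quotient.mk q : Po (Ix n) ⧸ J') = Submodule.Quotient.mk (r * q) := rfl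
    rw [h1, Submodule.Quotient.mk_eq_zero]
    rcases hr with hr | hr
    · exact J'.mul_mem_right _ (hRJ' (Ideal.subset_span hr))
    · exact J'.mul_mem_right _ (hA'J' (hI₀ r hr))
  obtain ⟨hNmem, hγ, hNfin, hNkil, hNval⟩ := hGn n i I₀ (Po (Ix n) ⧸ J) c hI₀rk hc hfin hkil b e
  show φ.f (Nb n i b c) (sh (cS (cR (rk n i) c) (Nb n i b c)) e) = 0
  let N : Submodule (Po (Ix n)) (Res (rk n i) (Po (Ix n) ⧸ J)) := Nb n i b c
  let γ : Dg → N →+ N := sh (cS (cR (rk n i) c) (Nb n i b c)) e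
  have hγ' : IsGr n γ := hγ
  have hNfin' : Module.Finite (Po (Ix n)) N := hNfin
  have hNkil' : Kil (Rw n i [] ∪ I₀) N := hNkil
  have hNval' : ∀ (a : Dg) (x : N), ((γ a x : N) : Res (rk n i) (Po (Ix n) ⧸ J)).val = c₀ (a + e + e₀) (x : Res (rk n i) (Po (Ix n) ⧸ J)).val :=
    hNval
  have hNmem' : ∀ (x : N) (a : Dg), a i ≠ b + e₀ i → c₀ a (x : Res (rk n i) (Po (Ix n) ⧸ J)).val = 0 := by
    intro x a ha
    have h1 := (hNmem (x : Res (rk n i) (Po (Ix n) ⧸ J))).1 x.2 (a - e₀) (fun h => ha (by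
      rw [Pi.sub_apply] at h
      omega))
    have h2 : c (a - e₀) (x : Res (rk n i) (Po (Ix n) ⧸ J)).val = c₀ (a - e₀ + e₀) (x : Res (rk n i) (Po (Ix n) ⧸ J)).val := rfl
    rw [h2, sub_add_cancel] at h1
    exact h1
  show φ.f N γ = 0
  by_cases hb : b + e₀ i < 0
  · refine (hGu n _ V φ N γ hγ' hNfin' hNkil').1 ⟨fun x y => ?_⟩
    have hz : ∀ x : N, x = 0 := by
      intro x
      apply Subtype.ext
      show (x : Res (rk n i) (Po (Ix n) ⧸ J)).val = (0 : Po (Ix n) ⧸ J)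
      refine hc₀.eq_zero fun a => ?_
      by_cases ha : a i = b + e₀ i
      · obtain ⟨p, hp⟩ := Submodule.Quotient.mk_surjective _ (x : Res (rk n i) (Po (Ix n) ⧸ J)).val
        rw [← hp, hc₀mk, cP_neg (i := i) (by omega)]
        rfl
      · exact hNmem' x a ha
    rw [hz x, hz y]
  push Not at hb
  obtain ⟨β, hβ⟩ := Int.eq_ofNat_of_zero_le hb
  obtain ⟨Φt, hΦt⟩ := exists_map hA hsb β
  let Φ : N →ₗ[Po (Ix n)] Po (Ix n) ⧸ J' := Φt.comp N.subtype
  have hΦ : ∀ (x : N) (p : Po (Ix n)), (x : Res (rk n i) (Po (Ix n) ⧸ J)).val = Submodule.Quotient.mk p →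
      Φ x = Submodule.Quotient.mk (sb n i k (pi0 n i β p)) := by
    intro x p hp
    rw [← hΦt p, ← hp]
    rfl
  -- representatives
  have hrep : ∀ (x : N) (p : Po (Ix n)), (x : Res (rk n i) (Po (Ix n) ⧸ J)).val = Submodule.Quotient.mk p →
      p - pi0 n i β p ∈ J := by
    intro x p hp
    refine sub_pi0_mem hcP J β p fun a ha => ?_
    have h1 := hNmem' x a (by rw [hβ]; exact ha)
    rw [hp, hc₀mk] at h1
    exact (Submodule.Quotient.mk_eq_zero J).1 h1
  let e' : Dg := e + e₀ + β • (er k - er i)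
  let c' : Dg → (Po (Ix n) ⧸ J') →+ (Po (Ix n) ⧸ J') := sh c₁ e'
  have hc' : IsGr n c' := (hGa n _ c₁ hc₁).1 e'
  have hcomm : ∀ (a : Dg) (x : N), Φ (γ a x) = c' a (Φ x) := by
    intro a x
    obtain ⟨p, hp⟩ := Submodule.Quotient.mk_surjective _ (x : Res (rk n i) (Po (Ix n) ⧸ J)).val
    have h1 : ((γ a x : N) : Res (rk n i) (Po (Ix n) ⧸ J)).val = Submodule.Quotient.mk (cP n (a + e + e₀) p) := by
      rw [hNval', ← hp, hc₀mk]
    rw [hΦ (γ a x) _ h1, hΦ x p hp.symm]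
    show _ = c₁ (a + e') _
    rw [hc₁mk]
    have h2 : a + e' = (a + e + e₀) + β • (er k - er i) := by
      show a + (e + e₀ + β • (er k - er i)) = _
      abel
    rw [h2, cP_sb, pi0_cP]
  -- the powers of `X_(k, j)` act on `N`
  have hXk : ∀ (j : Fin (n + 3)) (x : N) (p : Po (Ix n)), (x : Res (rk n i) (Po (Ix n) ⧸ J)).val = Submodule.Quotient.mk p →
      ((((MvPolynomial.X ((k, j) : Ix n) : Po (Ix n)) ^ β • x : N) : N) : Res (rk n i) (Po (Ix n) ⧸ J)).val =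
        Submodule.Quotient.mk ((MvPolynomial.X ((k, j) : Ix n) : Po (Ix n)) ^ β * p) := by
    intro j x p hp
    have h1 : ((((MvPolynomial.X ((k, j) : Ix n) : Po (Ix n)) ^ β • x : N) : N) : Res (rk n i) (Po (Ix n) ⧸ J)).val =
        rk n i ((MvPolynomial.X ((k, j) : Ix n) : Po (Ix n)) ^ β) • (x : Res (rk n i) (Po (Ix n) ⧸ J)).val := rfl
    rw [h1, hp, map_pow, rk_X, if_neg (fun h => hik h.symm)]
    rfl
  -- the kernel
  have hker : ∀ (j : Fin (n + 3)) (x : N), Φ x = 0 → (MvPolynomial.X ((k, j) : Ix n) : Po (Ix n)) ^ β • x = 0 := by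
    intro j x hx
    obtain ⟨p, hp⟩ := Submodule.Quotient.mk_surjective _ (x : Res (rk n i) (Po (Ix n) ⧸ J)).val
    apply Subtype.ext
    show ((((MvPolynomial.X ((k, j) : Ix n) : Po (Ix n)) ^ β • x : N) : N) : Res (rk n i) (Po (Ix n) ⧸ J)).val =
      (0 : Po (Ix n) ⧸ J)
    rw [hXk j x p hp.symm, Submodule.Quotient.mk_eq_zero]
    rw [hΦ x p hp.symm, Submodule.Quotient.mk_eq_zero] at hx
    -- `sb (pi0 p) ∈ span A'`
    have h1 : sb n i k (pi0 n i β p) ∈ J := by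
      have h2 : J' ≤ J.comap (rk n i) := by
        show Ideal.span _ ≤ _
        rw [Ideal.span_le]
        rintro r (hr | hr)
        · obtain ⟨q, hq, -, rfl⟩ := hr
          show rk n i (MvPolynomial.X q) ∈ J
          rw [rk_X, if_pos hq]
          exact J.zero_mem
        · show rk n i r ∈ J
          rw [hA'rk r hr]
          exact hA'A r hr
      have h3 := h2 hx
      rw [Ideal.mem_comap, rk_sb hik] at h3
      exact h3
    have h4 := minor_pi0 (i := i) (k := k) hmn j β p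
    have h5 := hrep x p hp.symm
    have h6 : (MvPolynomial.X ((k, j) : Ix n) : Po (Ix n)) ^ β * p =
        MvPolynomial.X ((k, j) : Ix n) ^ β * (p - pi0 n i β p) +
        (MvPolynomial.X ((k, j) : Ix n) ^ β * pi0 n i β p - MvPolynomial.X ((i, j) : Ix n) ^ β * sb n i k (pi0 n i β p)) +
        MvPolynomial.X ((i, j) : Ix n) ^ β * sb n i k (pi0 n i β p) := by ring
    rw [h6]
    exact J.add_mem (J.add_mem (J.mul_mem_left _ h5) h4) (J.mul_mem_left _ h1)
  -- the cokernel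
  have hcok : ∀ (j : Fin (n + 3)) (y : Po (Ix n) ⧸ J'),
      (MvPolynomial.X ((k, j) : Ix n) : Po (Ix n)) ^ β • y ∈ LinearMap.range Φ := by
    intro j y
    obtain ⟨q, hq⟩ := Submodule.Quotient.mk_surjective _ y
    let u : Po (Ix n) := MvPolynomial.X ((i, j) : Ix n) ^ β * rk n i q
    have hu : pi0 n i β u = u := pi0_lift β j q
    have hmem : Res.mk (rk n i) (Submodule.Quotient.mk u : Po (Ix n) ⧸ J) ∈ N := by
      refine (hNmem _).2 fun a ha => ?_
      show c₀ (a + e₀) (Submodule.Quotient.mk u) = 0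
      rw [hc₀mk, ← hu, cP_pi0, if_neg]
      · rfl
      · intro h
        apply ha
        rw [Pi.add_apply] at h
        omega
    refine ⟨⟨_, hmem⟩, ?_⟩
    rw [hΦ ⟨_, hmem⟩ u rfl, hu, sb_lift, ← hq]
    have h1 : (MvPolynomial.X ((k, j) : Ix n) : Po (Ix n)) ^ β • (Submodule.Quotient.mk q : Po (Ix n) ⧸ J') =
      Submodule.Quotient.mk (MvPolynomial.X ((k, j) : Ix n) ^ β * q) := rfl
    rw [h1, eq_comm, Submodule.Quotient.eq, ← mul_sub]
    exact J'.mul_mem_left _ (hRJ' (sub_rk_mem q))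
  -- stable submodules
  have hKst : Stb γ (LinearMap.ker Φ) := Stb.ker Φ hcomm
  have hRst : Stb c' (LinearMap.range Φ) := Stb.range Φ hcomm
  have hN1 := hGa n N γ hγ'
  have hS1 := hGa n (Po (Ix n) ⧸ J') c' hc'
  have hKgr := (hN1.2.1 _ hKst).1
  have hQgr := (hN1.2.1 _ hKst).2.1
  have hRgr := (hS1.2.1 _ hRst).1
  have hCgr := (hS1.2.1 _ hRst).2.1
  have hu1 := hGu n _ V φ N γ hγ' hNfin' hNkil'
  have hu2 := hGu n _ V φ (Po (Ix n) ⧸ J') c' hc' hfin' hkil'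
  have hKfin : Module.Finite (Po (Ix n)) (LinearMap.ker Φ) := inferInstance
  have hQfin : Module.Finite (Po (Ix n)) (N ⧸ LinearMap.ker Φ) := inferInstance
  have hCfin : Module.Finite (Po (Ix n)) ((Po (Ix n) ⧸ J') ⧸ LinearMap.range Φ) := inferInstance
  have h1 := hu1.2.2 (LinearMap.ker Φ) hKst
  have h2 := hu2.2.2 (LinearMap.range Φ) hRst
  have h3 : φ.f (N ⧸ LinearMap.ker Φ) (cQ γ (LinearMap.ker Φ)) = φ.f (LinearMap.range Φ) (cS c' (LinearMap.range Φ)) := by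
    refine (hGu n _ V φ (N ⧸ LinearMap.ker Φ) (cQ γ (LinearMap.ker Φ)) hQgr hQfin (hNkil'.quot _)).2.1
      (LinearMap.range Φ) (cS c' (LinearMap.range Φ)) Φ.quotKerEquivRange fun a m => ?_
    obtain ⟨x, rfl⟩ := Submodule.Quotient.mk_surjective _ m
    rw [(hN1.2.1 _ hKst).2.2.2]
    apply Subtype.ext
    rw [(hS1.2.1 _ hRst).2.2.1, LinearMap.quotKerEquivRange_apply_mk, LinearMap.quotKerEquivRange_apply_mk]
    exact hcomm a x
  have h4 : φ.f (LinearMap.ker Φ) (cS γ (LinearMap.ker Φ)) = 0 := by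
    refine hKR _ _ hKgr hKfin (hNkil'.sub _) ⟨β, fun j x => ?_⟩
    apply Subtype.ext
    exact hker j x.1 x.2
  have h5 : φ.f ((Po (Ix n) ⧸ J') ⧸ LinearMap.range Φ) (cQ c' (LinearMap.range Φ)) = 0 := by
    refine hKR _ _ hCgr hCfin (hkil'.quot _) ⟨β, fun j x => ?_⟩
    obtain ⟨y, rfl⟩ := Submodule.Quotient.mk_surjective _ x
    rw [← Submodule.Quotient.mk_smul, Submodule.Quotient.mk_eq_zero]
    exact hcok j y
  have h6 : φ.f (Po (Ix n) ⧸ J') c' = 0 := hcy e'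
  rw [h5, add_zero] at h2
  rw [h1, h4, zero_add, h3, ← h2, h6]

end Pool.Agent.FY
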