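import Pool.Agent.Lib.MP_b53bfe_ag.All
import Pool.Agent.Lib.MP_b53bfe_ag.Ga
import Pool.Agent.Lib.MP_b53bfe_ag.Gb
import Pool.Agent.Lib.MP_b53bfe_ag.Gi
import Pool.Agent.Lib.MP_b53bfe_ag.Gu
import Pool.Agent.Lib.MP_b53bfe_ag.Gx
import Pool.Agent.Lib.MP_b53bfe_ag.Gf
import Pool.Agent.Lib.MP_b53bfe_ag.Gr
import Pool.Agent.Lib.MP_b53bfe_ag.Gt
import Pool.Agent.Lib.MP_b53bfe_ag.Gth
import Pool.Agent.Lib.MP_b53bfe_ag.Gts
import Pool.Agent.Lib.MP_b53bfe_ag.Gd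
import Pool.Agent.Lib.MP_b53bfe_ag.Gp
import Pool.Agent.Lib.MP_b53bfe_ag.Gbz
import Pool.Agent.Lib.MP_b53bfe_ag.Gn
import Pool.Agent.Lib.MP_b53bfe_ag.Gka
import Pool.Agent.Lib.MP_b53bfe_ag.Gkb
import Pool.Agent.Lib.MP_b53bfe_ag.Gxs
import Pool.Agent.Lib.MP_b53bfe_ag.Gks
import Pool.Agent.Lib.MP_b53bfe_ag.Gec
import Pool.Agent.Lib.MP_b53bfe_ag.Get
import Pool.Agent.Lib.MP_b53bfe_ag.Gq
import Pool.Agent.Lib.MP_b53bfe_ag.GD
import Pool.Agent.Lib.MP_b53bfe_ag.Gla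
import Pool.Agent.Lib.MP_b53bfe_ag.Ge
import Pool.Agent.Lib.MP_b53bfe_ag.Gle
import Pool.Agent.Lib.MP_b53bfe_ag.Glv
import Pool.Agent.Lib.MP_b53bfe_ag.Glb
import Pool.Agent.Lib.MP_b53bfe_ag.Fr
import Pool.Agent.Lib.MP_b53bfe_ag.Fx
import Pool.Agent.Lib.MP_b53bfe_ag.GT
import Pool.Agent.Lib.MP_b53bfe_ag.Gw
import Pool.Agent.Lib.MP_b53bfe_ag.Gz
import Pool.Agent.Lib.MP_b53bfe_ag.Gc

/-!
# Theorem T2: all modules put together
-/

set_option autoImplicit false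

namespace Pool.Agent.FY

theorem allGT : S_GT := by
  have hGa := tGa
  have hGb := tGb hGa
  have hGi := tGi hGa
  have hGu := tGu hGa
  have hGx := tGx hGa hGb hGi hGu
  have hGf := tGf hGa hGb hGi hGu
  have hGr := tGr hGa hGb hGi hGu
  have hGt := tGt hGa hGb hGi hGu hGx hGf hGr
  have hGth := tGth hGa hGb hGi hGu
  have hGts := tGts hGa hGb hGi hGu
  have hGw := tGw hGa hGb hGi hGu
  have hGd := tGd hGa hGb hGi hGu hGw
  have hGp := tGp hGa hGb hGi hGu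
  have hGbz := tGbz
  have hGn := tGn hGa hGb hGi hGu
  have hGka := tGka hGa hGb hGi hGu hGn
  have hGkb := tGkb hGa hGb hGi hGu hGn
  have hGxs := tGxs hGa hGb hGi hGu hGx
  have hGks := tGks hGa hGb hGi hGu hGn hGx hGt hGka hGkb hGxs
  have hGec := tGec hGa hGb hGi hGu
  have hGet := tGet hGa hGb hGi hGu
  have hGz := tGz hGa hGb hGi hGu hGn
  have hGq := tGq hGa hGb hGi hGu hGw hGd hGts
  have hGc := tGc hGa hGb hGi hGu hGbz hGp hGw hGd hGq hGth hGks hGxs hGn hGz hGec hGet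
  have hGD := tGD hGa hGb hGi hGu hGw hGd hGc
  have hGla := tGla hGa hGb hGi hGu
  have hGe := tGe
  have hGle := tGle hGa hGb hGi hGu
  have hGlv := tGlv hGa hGb hGi hGu
  have hGlb := tGlb hGa hGb hGi hGu hGla hGe hGle hGlv
  have hFr := tFr tSn
  have hFx := tFx hGa hGb hGi hGu hFr
  exact tGT hGa hGb hGi hGu hGD hGlb hFx allT1

end Pool.Agent.FY
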