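import Mathlib

/-!
# Additive functions on finitely generated modules (theorem T1 for MP_b53bfe_ag)

All rings are commutative, in `Type`, all modules are in `Type`, and the additive functions have their values in a `ℚ`-vector space `V : Type 1`.
-/

set_option autoImplicit false

noncomputable section

namespace Pool.Agent.FY

open Polynomial

/-! ## Restriction of scalars -/

/-- `M`, regarded as an `R`-module by `φ : R →+* T` -/
def Res {R T : Type} [CommRing R] [CommRing T] (_φ : R →+* T) (M : Type) : Type := M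

section Res

variable {R T : Type} [CommRing R] [CommRing T] (φ : R →+* T) {M N L : Type} [AddCommGroup M] [Module T M]
  [AddCommGroup N] [Module T N] [AddCommGroup L] [Module T L]

instance : AddCommGroup (Res φ M) := inferInstanceAs (AddCommGroup M)

instance : Module R (Res φ M) := Module.compHom M φ

/-- the element `m` of `M`, in `Res φ M` -/
def Res.mk (m : M) : Res φ M := m

/-- the element `m` of `Res φ M`, in `M` -/
def Res.val {φ : R →+* T} (m : Res φ M) : M := m

theorem Res.smul_mk (r : R) (m : M) : r • Res.mk φ m = Res.mk φ (φ r • m) := rfl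

theorem Res.val_smul (r : R) (m : Res φ M) : (r • m).val = φ r • m.val := rfl

/-- a `T`-linear map is `R`-linear -/
def Res.map (l : M →ₗ[T] N) : Res φ M →ₗ[R] Res φ N where
  toFun m := Res.mk φ (l m.val)
  map_add' a b := l.map_add a b
  map_smul' r a := l.map_smul (φ r) a

/-- a `T`-linear equivalence is `R`-linear -/
def Res.equiv (l : M ≃ₗ[T] N) : Res φ M ≃ₗ[R] Res φ N where
  toFun m := Res.mk φ (l m.val)
  map_add' a b := l.map_add a b
  map_smul' r a := l.map_smul (φ r) a
  invFun m := Res.mk φ (l.symm m.val)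
  left_inv m := l.symm_apply_apply m
  right_inv m := l.apply_symm_apply m

end Res

/-! ## Additive functions -/

/-- `M` is killed by the elements of `I` -/
def Kil {R : Type} [CommRing R] (I : Set R) (M : Type) [AddCommGroup M] [Module R M] : Prop :=
  ∀ r ∈ I, ∀ m : M, r • m = 0

/-- additive functions on the finitely generated `R`-modules killed by `I` -/
structure AFun (R : Type) [CommRing R] (I : Set R) (V : Type 1) [AddCommGroup V] where
  f : (M : Type) → [AddCommGroup M] → [Module R M] → V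
  add : ∀ (A B C : Type) [AddCommGroup A] [Module R A] [AddCommGroup B] [Module R B] [AddCommGroup C] [Module R C]
    (i : A →ₗ[R] B) (p : B →ₗ[R] C), Module.Finite R B → Kil I B → Function.Injective i → Function.Surjective p →
    Function.Exact i p → f B = f A + f C

section AFun

variable {R : Type} [CommRing R] {I : Set R} {V : Type 1} [AddCommGroup V] (χ : AFun R I V)

theorem AFun.punit : χ.f PUnit = 0 := by
  have h := χ.add PUnit PUnit PUnit (LinearMap.id) (LinearMap.id) inferInstance (fun r _ m => rfl)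
    (fun a b _ => rfl) (fun a => ⟨a, rfl⟩) (fun a => ⟨fun _ => ⟨a, rfl⟩, fun _ => rfl⟩)
  simpa using h

theorem AFun.iso {M N : Type} [AddCommGroup M] [Module R M] [AddCommGroup N] [Module R N] (e : M ≃ₗ[R] N)
    (hM : Module.Finite R M) (hk : Kil I M) : χ.f M = χ.f N := by
  have h := χ.add M N PUnit e.toLinearMap 0 (Module.Finite.equiv e)
    (fun r hr m => by
      have := hk r hr (e.symm m)
      have h2 := congrArg e this
      simpa using h2)
    e.injective (fun a => ⟨0, rfl⟩) (fun a => ⟨fun _ => ⟨e.symm a, by simp⟩, fun _ => rfl⟩)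
  rw [h, χ.punit, add_zero]

theorem AFun.subsing {M : Type} [AddCommGroup M] [Module R M] (h : Subsingleton M) : χ.f M = 0 := by
  have e : M ≃ₗ[R] PUnit :=
    { toFun := fun _ => 0, map_add' := fun _ _ => rfl, map_smul' := fun _ _ => rfl, invFun := fun _ => 0,
      left_inv := fun a => Subsingleton.elim _ _, right_inv := fun a => rfl }
  rw [χ.iso e (Module.Finite.equiv e.symm) (fun r _ m => Subsingleton.elim _ _), χ.punit]

theorem AFun.sub {M : Type} [AddCommGroup M] [Module R M] (hM : Module.Finite R M) (hk : Kil I M) (N : Submodule R M) :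
    χ.f M = χ.f N + χ.f (M ⧸ N) :=
  χ.add N M (M ⧸ N) N.subtype N.mkQ hM hk N.injective_subtype N.mkQ_surjective
    (LinearMap.exact_subtype_mkQ N)

end AFun

/-- the index of a linear map -/
def ind {R : Type} [CommRing R] {I : Set R} {V : Type 1} [AddCommGroup V] (χ : AFun R I V) {P Q : Type}
    [AddCommGroup P] [Module R P] [AddCommGroup Q] [Module R Q] (φ : P →ₗ[R] Q) : V :=
  χ.f (Q ⧸ LinearMap.range φ) - χ.f (LinearMap.ker φ)

/-- multiplication by `g` -/
def mg {R : Type} [CommRing R] (M : Type) [AddCommGroup M] [Module R M] (g : R) : M →ₗ[R] M :=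
  LinearMap.lsmul R M g

theorem mg_apply {R : Type} [CommRing R] (M : Type) [AddCommGroup M] [Module R M] (g : R) (m : M) :
    mg M g m = g • m := rfl

/-! ## Polynomial rings -/

/-- the polynomial ring -/
abbrev Po (σ : Type) : Type := MvPolynomial σ ℂ

/-- `X_i ↦ X`, `X_j ↦ C (X_j)` for `j ≠ i` -/
def nu {σ : Type} [DecidableEq σ] (i : σ) : Po σ →+* (Po σ)[X] :=
  (MvPolynomial.aeval (fun j => if j = i then (X : (Po σ)[X]) else C (MvPolynomial.X j)) : Po σ →ₐ[ℂ] (Po σ)[X]).toRingHom

/-- `r` does not involve the variable `X_i` -/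
def NI {σ : Type} [DecidableEq σ] (i : σ) (r : Po σ) : Prop := nu i r = C r

/-- `X_i ↦ z X_i`, `X_j ↦ X_j` for `j ≠ i` -/
def gz {σ : Type} [DecidableEq σ] (i : σ) (z : ℂ) : Po σ →+* Po σ :=
  (MvPolynomial.aeval (fun j => if j = i then MvPolynomial.C z * MvPolynomial.X j else MvPolynomial.X j) :
    Po σ →ₐ[ℂ] Po σ).toRingHom

/-- `P[X_i]`: the other variables act on the coefficients, `X_i` by multiplication by `X` -/
abbrev Ex {σ : Type} [DecidableEq σ] (i : σ) (P : Type) [AddCommGroup P] [Module (Po σ) P] : Type :=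
  Res (nu i) (PolynomialModule (Po σ) P)

/-- `P[X_i] / (X_i ^ d + g)` -/
abbrev Th {σ : Type} [DecidableEq σ] (i : σ) (d : ℕ) (g : Po σ) (P : Type) [AddCommGroup P] [Module (Po σ) P] : Type :=
  Res (nu i) (PolynomialModule (Po σ) P ⧸ LinearMap.range (mg (PolynomialModule (Po σ) P) (X ^ d + C g : (Po σ)[X])))

/-- the values of `χ` on the `d` twists of `M` have the sum `0` -/
def PP {σ : Type} [DecidableEq σ] {I : Set (Po σ)} {V : Type 1} [AddCommGroup V] (χ : AFun (Po σ) I V) (i : σ) (d : ℕ)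
    (ζ : ℂ) : Prop :=
  ∀ (M : Type) [AddCommGroup M] [Module (Po σ) M], Module.Finite (Po σ) M → Kil I M →
    ∑ m ∈ Finset.range d, χ.f (Res (gz i (ζ ^ m)) M) = 0

/-! ## Lattices -/

section Lat

variable {W : Type} [CommRing W] {M : Type} [AddCommGroup M] [Module W M]

/-- `L + β L` -/
def pl (β : M ≃ₗ[W] M) (L : Submodule W M) : Submodule W M := L ⊔ L.map β.toLinearMap

/-- `L + β L + ... + β ^ n L` -/
def Lm (β : M ≃ₗ[W] M) (L : Submodule W M) (n : ℕ) : Submodule W M := (pl β)^[n] L

/-- `L` generates `M` over `W[β, β⁻¹]` -/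
def Gen (β : M ≃ₗ[W] M) (L : Submodule W M) : Prop := ∀ m : M, ∃ a b : ℕ, (β ^ a) m ∈ Lm β L b

/-- `M` is finitely generated over `W[β, β⁻¹]` -/
def LFin (β : M ≃ₗ[W] M) : Prop := ∃ L : Submodule W M, L.FG ∧ Gen β L

/-- `f + β g = 0` on `M` -/
def Rel (f g : W) (β : M ≃ₗ[W] M) : Prop := ∀ m : M, f • m + β (g • m) = 0

/-- the index of `g : L + β L → L` -/
def th {I : Set W} {V : Type 1} [AddCommGroup V] (χ : AFun W I V) (g : W) (β : M ≃ₗ[W] M) (L : Submodule W M) : V :=
  χ.f (L ⧸ ((pl β L).map (mg M g)).submoduleOf L) - χ.f ↥(pl β L ⊓ LinearMap.ker (mg M g))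

/-- the index of `g : L₂⁺ / L₁⁺ → L₂ / L₁` -/
def ix {I : Set W} {V : Type 1} [AddCommGroup V] (χ : AFun W I V) (g : W) (β : M ≃ₗ[W] M) (L₁ L₂ : Submodule W M) : V :=
  χ.f (L₂ ⧸ (L₁ ⊔ (pl β L₂).map (mg M g)).submoduleOf L₂) -
    χ.f (↥(pl β L₂ ⊓ L₁.comap (mg M g)) ⧸ (pl β L₁).submoduleOf (pl β L₂ ⊓ L₁.comap (mg M g)))

end Lat

/-- for the modules `Q` killed by `g` and `I₀`: `χ (Q / f Q) = χ (ker f)` -/
def St {W : Type} [CommRing W] {I : Set W} {V : Type 1} [AddCommGroup V] (χ : AFun W I V) (I₀ : Set W) (g f : W) : Prop :=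
  ∀ (Q : Type) [AddCommGroup Q] [Module W Q], Module.Finite W Q → Kil I₀ Q → (∀ q : Q, g • q = 0) →
    χ.f (Q ⧸ LinearMap.range (mg Q f)) = χ.f (LinearMap.ker (mg Q f))

/-- additive functions on the modules `M` with an automorphism `β`, finitely generated over `W[β, β⁻¹]`, killed by `I₀` and by `f + β g` -/
structure BFun (W : Type) [CommRing W] (f g : W) (I₀ : Set W) (V : Type 1) [AddCommGroup V] where
  F : (M : Type) → [AddCommGroup M] → [Module W M] → (M ≃ₗ[W] M) → V
  add : ∀ (A B C : Type) [AddCommGroup A] [Module W A] [AddCommGroup B] [Module W B] [AddCommGroup C] [Module W C]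
    (α : A ≃ₗ[W] A) (β : B ≃ₗ[W] B) (γ : C ≃ₗ[W] C) (i : A →ₗ[W] B) (p : B →ₗ[W] C), LFin β → Kil I₀ B → Rel f g β →
    (∀ a, i (α a) = β (i a)) → (∀ b, p (β b) = γ (p b)) →
    Function.Injective i → Function.Surjective p → Function.Exact i p → F B β = F A α + F C γ

/-- `Ψ` is computed by the lattices -/
def Cmp {W : Type} [CommRing W] {f g : W} {I₀ I : Set W} {V : Type 1} [AddCommGroup V] (χ : AFun W I V)
    (Ψ : BFun W f g I₀ V) : Prop :=
  ∀ (M : Type) [AddCommGroup M] [Module W M] (β : M ≃ₗ[W] M), Kil I₀ M → Rel f g β → ∀ L : Submodule W M, L.FG →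
    Gen β L → ∃ m₀ : ℕ, ∀ m ≥ m₀, Ψ.F M β = th χ g β (Lm β L m)

end Pool.Agent.FY
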