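import Pool.Agent.Lib.MP_b53bfe_ag.Spec2

/-!
# Graded modules (projective version of theorem T1)

The degrees are the elements of `Dg = Fin 3 → ℤ` (one degree for every row). A grading of a `Po (Ix n)`-module `M` is given by its component
functions `c : Dg → M →+ M` (`c a m` is the component of degree `a` of `m`). All constructions (submodules, quotients, shifts) are on the component functions.
-/

set_option autoImplicit false

noncomputable section

namespace Pool.Agent.FY

open Polynomial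

/-- the degrees -/
abbrev Dg : Type := Fin 3 → ℤ

/-- the degree of a variable -/
def dg {n : ℕ} (p : Ix n) : Dg := Pi.single p.1 1

/-- `c` is a grading of the `Po (Ix n)`-module `M` -/
structure IsGr (n : ℕ) {M : Type} [AddCommGroup M] [Module (Po (Ix n)) M] (c : Dg → M →+ M) : Prop where
  fin : ∀ m : M, {a : Dg | c a m ≠ 0}.Finite
  sum : ∀ m : M, ∑ᶠ a : Dg, c a m = m
  same : ∀ (a : Dg) (m : M), c a (c a m) = c a m
  orth : ∀ (a b : Dg) (m : M), a ≠ b → c a (c b m) = 0
  cst : ∀ (z : ℂ) (a : Dg) (m : M), c a ((MvPolynomial.C z : Po (Ix n)) • m) = (MvPolynomial.C z : Po (Ix n)) • c a m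
  var : ∀ (p : Ix n) (a : Dg) (m : M),
    c (a + dg p) ((MvPolynomial.X p : Po (Ix n)) • m) = (MvPolynomial.X p : Po (Ix n)) • c a m

/-- the shift `M(e)` -/
def sh {M : Type} [AddCommGroup M] (c : Dg → M →+ M) (e : Dg) : Dg → M →+ M := fun a => c (a + e)

/-- the submodule is stable under the components -/
def Stb {R M : Type} [CommRing R] [AddCommGroup M] [Module R M] (c : Dg → M →+ M) (N : Submodule R M) : Prop :=
  ∀ a : Dg, ∀ m ∈ N, c a m ∈ N

open Classical in
/-- the grading of a stable submodule -/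
def cS {R M : Type} [CommRing R] [AddCommGroup M] [Module R M] (c : Dg → M →+ M) (N : Submodule R M) : Dg → N →+ N := fun a =>
  if h : Stb c N then
    { toFun := fun x => ⟨c a (x : M), h a (x : M) x.2⟩
      map_zero' := Subtype.ext (map_zero (c a))
      map_add' := fun x y => Subtype.ext (map_add (c a) (x : M) (y : M)) }
  else 0

open Classical in
/-- the grading of the quotient by a stable submodule -/
def cQ {R M : Type} [CommRing R] [AddCommGroup M] [Module R M] (c : Dg → M →+ M) (N : Submodule R M) :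
    Dg → (M ⧸ N) →+ (M ⧸ N) := fun a =>
  if h : Stb c N then
    QuotientAddGroup.map N.toAddSubgroup N.toAddSubgroup (c a) (fun m hm => h a m hm)
  else 0

/-- the same components on `Res φ M` -/
def cR {R T : Type} [CommRing R] [CommRing T] (φ : R →+* T) {M : Type} [AddCommGroup M] (c : Dg → M →+ M) :
    Dg → Res φ M →+ Res φ M := c

/-- the grading of the polynomials `∑ m_k X ^ k` with coefficients in `M`, where `X` has the degree `e`: the component of degree `a` of
`∑ m_k X ^ k` is `∑ (c (a - k e) m_k) X ^ k` -/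
def cX {R M : Type} [CommRing R] [AddCommGroup M] [Module R M] (e : Dg) (c : Dg → M →+ M) :
    Dg → PolynomialModule R M →+ PolynomialModule R M := fun a =>
  ((PolynomialModule.coeffAddEquiv (R := R) (M := M)).symm.toAddMonoidHom.comp
    (Finsupp.liftAddHom fun k : ℕ => (Finsupp.singleAddHom k).comp (c (a - k • e)))).comp
      (PolynomialModule.coeffAddEquiv (R := R) (M := M)).toAddMonoidHom

/-- the grading of `Ex p M` -/
def cE {n : ℕ} (p : Ix n) {M : Type} [AddCommGroup M] [Module (Po (Ix n)) M] (c : Dg → M →+ M) : Dg → Ex p M →+ Ex p M :=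
  cR (nu p) (cX (R := Po (Ix n)) (dg p) c)

/-- the grading of `Th p d g M` -/
def cT {n : ℕ} (p : Ix n) (d : ℕ) (g : Po (Ix n)) {M : Type} [AddCommGroup M] [Module (Po (Ix n)) M] (c : Dg → M →+ M) :
    Dg → Th p d g M →+ Th p d g M :=
  cR (nu p) (cQ (R := (Po (Ix n))[X]) (M := PolynomialModule (Po (Ix n)) M) (cX (R := Po (Ix n)) (dg p) c)
    (LinearMap.range (mg (PolynomialModule (Po (Ix n)) M) (X ^ d + C g : (Po (Ix n))[X]))))

/-- `r` is homogeneous of degree `e` -/
def Hg (n : ℕ) (r : Po (Ix n)) (e : Dg) : Prop :=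
  ∀ (M : Type) [AddCommGroup M] [Module (Po (Ix n)) M] (c : Dg → M →+ M), IsGr n c → ∀ (a : Dg) (m : M),
    c (a + e) (r • m) = r • c a m

/-- additive functions on the finitely generated graded modules killed by `I` -/
structure GFun (n : ℕ) (I : Set (Po (Ix n))) (V : Type 1) [AddCommGroup V] where
  f : (M : Type) → [AddCommGroup M] → [Module (Po (Ix n)) M] → (Dg → M →+ M) → V
  add : ∀ (A B C : Type) [AddCommGroup A] [Module (Po (Ix n)) A] [AddCommGroup B] [Module (Po (Ix n)) B] [AddCommGroup C]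
    [Module (Po (Ix n)) C] (a : Dg → A →+ A) (b : Dg → B →+ B) (c : Dg → C →+ C) (i : A →ₗ[Po (Ix n)] B) (p : B →ₗ[Po (Ix n)] C),
    Module.Finite (Po (Ix n)) B → Kil I B → IsGr n a → IsGr n b → IsGr n c → (∀ (e : Dg) (x : A), i (a e x) = b e (i x)) →
    (∀ (e : Dg) (x : B), p (b e x) = c e (p x)) → Function.Injective i → Function.Surjective p → Function.Exact i p →
    f B b = f A a + f C c

/-- the graded polynomial ring -/
def cP (n : ℕ) : Dg → Po (Ix n) →+ Po (Ix n) := fun a =>
  (MvPolynomial.weightedHomogeneousComponent (R := ℂ) (dg (n := n)) a).toAddMonoidHom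

/-- the value of `χ` on `(Po / J)(e)` -/
def GFun.cy {n : ℕ} {I : Set (Po (Ix n))} {V : Type 1} [AddCommGroup V] (χ : GFun n I V) (J : Ideal (Po (Ix n))) (e : Dg) : V :=
  χ.f (Po (Ix n) ⧸ J) (sh (cQ (cP n) J) e)

/-- `X_(i, j) ↦ 0` for all `j`, the other variables are fixed -/
def rk (n : ℕ) (i : Fin 3) : Po (Ix n) →+* Po (Ix n) :=
  (MvPolynomial.aeval (fun p : Ix n => if p.1 = i then (0 : Po (Ix n)) else MvPolynomial.X p) : Po (Ix n) →ₐ[ℂ] Po (Ix n)).toRingHom

/-- the part of `M` of degree `b` in the row `i`; the variables of the row `i` act by `0` -/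
def Nb (n : ℕ) (i : Fin 3) (b : ℤ) {M : Type} [AddCommGroup M] [Module (Po (Ix n)) M] (c : Dg → M →+ M) :
    Submodule (Po (Ix n)) (Res (rk n i) M) :=
  Submodule.span _ {m | ∃ a : Dg, a i = b ∧ c a m.val = m.val}

/-- a module with component functions -/
structure GM (n : ℕ) where
  M : Type
  [acg : AddCommGroup M]
  [mod : Module (Po (Ix n)) M]
  c : Dg → M →+ M

attribute [instance] GM.acg GM.mod

/-- `N[X_p]` -/
def GM.ex {n : ℕ} (p : Ix n) (N : GM n) : GM n := ⟨Ex p N.M, cE p N.c⟩

/-- `N[X_p : p ∈ ys]` -/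
def GM.exs {n : ℕ} (ys : List (Ix n)) (N : GM n) : GM n := ys.foldr GM.ex N

/-- the value of `χ` on a graded module -/
def GFun.g {n : ℕ} {I : Set (Po (Ix n))} {V : Type 1} [AddCommGroup V] (χ : GFun n I V) (N : GM n) : V := χ.f N.M N.c

/-- the part of degree `b` in the row `i`, shifted by `e` -/
def GM.nb {n : ℕ} (i : Fin 3) (b : ℤ) (e : Dg) (N : GM n) : GM n :=
  ⟨Nb n i b N.c, sh (cS (cR (rk n i) N.c) (Nb n i b N.c)) e⟩

/-- `χ` vanishes on the modules killed by a power of every variable of the row `i` -/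
def KR {n : ℕ} {I : Set (Po (Ix n))} {V : Type 1} [AddCommGroup V] (χ : GFun n I V) (i : Fin 3) : Prop :=
  ∀ (M : Type) [AddCommGroup M] [Module (Po (Ix n)) M] (c : Dg → M →+ M), IsGr n c → Module.Finite (Po (Ix n)) M → Kil I M →
    (∃ k : ℕ, ∀ (j : Fin (n + 3)) (m : M), (MvPolynomial.X (i, j) : Po (Ix n)) ^ k • m = 0) → χ.f M c = 0

/-- `χ` vanishes on the modules killed by the variable `p` -/
def KV {n : ℕ} {I : Set (Po (Ix n))} {V : Type 1} [AddCommGroup V] (χ : GFun n I V) (p : Ix n) : Prop :=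
  ∀ (M : Type) [AddCommGroup M] [Module (Po (Ix n)) M] (c : Dg → M →+ M), IsGr n c → Module.Finite (Po (Ix n)) M → Kil I M →
    (∀ m : M, (MvPolynomial.X p : Po (Ix n)) • m = 0) → χ.f M c = 0

/-- the sum over the twists in the row `i` -/
def tw {n : ℕ} {I : Set (Po (Ix n))} {V : Type 1} [AddCommGroup V] (χ : GFun n I V) (i : Fin 3) (d : ℕ) (ζ : ℂ)
    (M : Type) [AddCommGroup M] [Module (Po (Ix n)) M] (c : Dg → M →+ M) : V :=
  ∑ m ∈ Finset.range d, χ.f (Res (gz ((i, 1) : Ix n) (ζ ^ m)) M) (cR (gz ((i, 1) : Ix n) (ζ ^ m)) c)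

/-- generators of the ideal of the pairwise diagonal of the rows `i`, `k` -/
def gP (n d : ℕ) (i k : Fin 3) : Set (Po (Ix n)) := {r | ∃ j j', r = mn n i k j j'} ∪ Set.range (sF n d)

/-- the forms of the rows different from `i` -/
def oF (n d : ℕ) (i : Fin 3) : Set (Po (Ix n)) := {r | ∃ k : Fin 3, k ≠ i ∧ r = sF n d k}

/-- the degree of the row `i` -/
def er (i : Fin 3) : Dg := Pi.single i 1

/-- `χ` vanishes on the irrelevant modules, on the sheaves `O(a)` and on the `O_(Δ_ik)(a)` -/
def Zer {n : ℕ} (d : ℕ) {V : Type 1} [AddCommGroup V] (χ : GFun n (Set.range (sF n d)) V) : Prop :=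
  (∀ i : Fin 3, KR χ i) ∧ (∀ e : Dg, χ.cy (Ideal.span (Set.range (sF n d))) e = 0) ∧
    ∀ (i k : Fin 3), i ≠ k → ∀ e : Dg, χ.cy (Ideal.span (gP n d i k)) e = 0

end Pool.Agent.FY
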