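import Pool.Agent.Lib.MP_b53bfe_ag.Spec2
import Pool.Agent.Lib.MP_b53bfe_ag.Bas

/-!
# Theorem T1 (MP_b53bfe_ag): the value of `Ψ` on `M[T, T⁻¹]`
-/

set_option autoImplicit false

noncomputable section

namespace Pool.Agent.FY

open Polynomial

namespace Ef_aux

variable (W M₀ : Type) [CommRing W] [AddCommGroup M₀] [Module W M₀]

/-- the functions with support in `{0, ..., n - 1}` -/
private def SP (n : ℕ) : Submodule W (ℤ →₀ M₀) := Finsupp.supported M₀ W (Set.Ico (0 : ℤ) n)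

/-- the shift -/
private def bt (d : ℕ) : (ℤ →₀ M₀) ≃ₗ[W] (ℤ →₀ M₀) := Finsupp.domLCongr (Equiv.addRight (d : ℤ))

variable {W M₀}

private lemma mem_SP {n : ℕ} {x : ℤ →₀ M₀} :
    x ∈ SP W M₀ n ↔ ∀ k : ℤ, k ∉ Set.Ico (0 : ℤ) n → x k = 0 := by
  unfold SP
  rw [Finsupp.mem_supported']

private lemma bt_apply (d : ℕ) (x : ℤ →₀ M₀) (k : ℤ) : bt W M₀ d x k = x (k - d) := by
  unfold bt
  rw [Finsupp.domLCongr_apply]
  change x ((Equiv.addRight (d : ℤ)).symm k) = _
  rw [Equiv.addRight_symm, Equiv.coe_addRight, sub_eq_add_neg]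

private lemma bt_pow (d a : ℕ) (x : ℤ →₀ M₀) (k : ℤ) :
    (bt W M₀ d ^ a) x k = x (k - a * d) := by
  induction a generalizing k with
  | zero => simp
  | succ a ih =>
    have h : (bt W M₀ d ^ (a + 1)) x = bt W M₀ d ((bt W M₀ d ^ a) x) := by rw [pow_succ']; rfl
    rw [h, bt_apply, ih]
    congr 1
    push_cast
    ring

private lemma bt_symm (d : ℕ) (x : ℤ →₀ M₀) (k : ℤ) : (bt W M₀ d).symm x k = x (k + d) := by
  have h := bt_apply (W := W) d ((bt W M₀ d).symm x) (k + d)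
  rw [LinearEquiv.apply_symm_apply, add_sub_cancel_right] at h
  exact h.symm

private lemma pl_SP {d n : ℕ} (hn : d ≤ n) : pl (bt W M₀ d) (SP W M₀ n) = SP W M₀ (n + d) := by
  classical
  apply le_antisymm
  · intro x hx
    obtain ⟨y, hy, z, hz, rfl⟩ := mem_pl.1 hx
    rw [mem_SP] at hy hz ⊢
    intro k hk
    rw [Set.mem_Ico] at hk
    rw [Finsupp.add_apply, bt_apply, hy k (by rw [Set.mem_Ico]; push_cast at hk; omega),
      hz (k - d) (by rw [Set.mem_Ico]; push_cast at hk; omega), add_zero]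
  · intro x hx
    rw [mem_SP] at hx
    refine mem_pl.2 ⟨x.filter (fun k => k < (n : ℤ)), ?_, (bt W M₀ d).symm
      (x.filter (fun k => ¬ k < (n : ℤ))), ?_, ?_⟩
    · rw [mem_SP]
      intro k hk
      rw [Finsupp.filter_apply]
      split_ifs with h
      · refine hx k ?_
        rw [Set.mem_Ico] at hk ⊢
        omega
      · rfl
    · rw [mem_SP]
      intro k hk
      rw [bt_symm, Finsupp.filter_apply]
      split_ifs with h
      · rfl
      · refine hx _ ?_
        rw [Set.mem_Ico] at hk ⊢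
        push_cast
        omega
    · rw [LinearEquiv.apply_symm_apply, Finsupp.filter_add_filter_not]

private lemma Lm_SP (d m : ℕ) : Lm (bt W M₀ d) (SP W M₀ d) m = SP W M₀ (d * (m + 1)) := by
  induction m with
  | zero => rw [Lm_zero, zero_add, mul_one]
  | succ m ih =>
    rw [Lm_succ, ih, pl_SP (Nat.le_mul_of_pos_right d (Nat.succ_pos m))]
    congr 1

private lemma gen {d : ℕ} (hd : 1 ≤ d) : Gen (bt W M₀ d) (SP W M₀ d) := by
  intro x
  obtain ⟨N, hN⟩ : ∃ N : ℕ, ∀ k : ℤ, N < k.natAbs → x k = 0 := by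
    refine ⟨x.support.sup Int.natAbs, fun k hk => ?_⟩
    by_contra hne
    have := Finset.le_sup (f := Int.natAbs) (Finsupp.mem_support_iff.2 hne)
    omega
  refine ⟨N, 2 * N + 1, ?_⟩
  rw [Lm_SP, mem_SP]
  intro k hk
  rw [bt_pow]
  apply hN
  rw [Set.mem_Ico] at hk
  push_cast at hk
  have h1 : (N : ℤ) ≤ N * d := by
    have : (N : ℤ) * 1 ≤ N * d := by gcongr; exact_mod_cast hd
    linarith
  have h2 : (1 : ℤ) ≤ d := by exact_mod_cast hd
  by_cases h0 : 0 ≤ k
  · have h3 : (d : ℤ) * (2 * N + 1 + 1) ≤ k := by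
      by_contra h
      exact hk ⟨h0, not_le.1 h⟩
    have h4 : (N : ℤ) < k - N * d := by nlinarith
    omega
  · have h4 : k - N * d < -N := by linarith
    omega

private lemma fgSP [Module.Finite W M₀] (n : ℕ) : Module.Finite W (SP W M₀ n) := by
  have : Finite (Set.Ico (0 : ℤ) n) := (Set.finite_Ico _ _).to_subtype
  exact Module.Finite.equiv (Finsupp.supportedEquivFinsupp (R := W) (M := M₀) (Set.Ico (0 : ℤ) n)).symm

private lemma kilM {I : Set W} (hk : Kil I M₀) : Kil I (ℤ →₀ M₀) := by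
  intro r hr x
  ext k
  rw [Finsupp.smul_apply, hk r hr]
  rfl

private lemma chi {I : Set W} {V : Type 1} [AddCommGroup V] (χ : AFun W I V) [Module.Finite W M₀]
    (hk : Kil I M₀) (n : ℕ) : χ.f (SP W M₀ n) = (n : ℤ) • χ.f M₀ := by
  induction n with
  | zero =>
    rw [Nat.cast_zero, zero_smul]
    refine χ.subsing ⟨fun a b => ?_⟩
    apply Subtype.ext
    ext k
    rw [mem_SP.1 a.2 k (by simp), mem_SP.1 b.2 k (by simp)]
  | succ n ih =>
    have hle : SP W M₀ n ≤ SP W M₀ (n + 1) := by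
      intro x hx
      rw [mem_SP] at hx ⊢
      intro k hk'
      refine hx k ?_
      rw [Set.mem_Ico] at hk' ⊢
      push_cast at hk'
      omega
    have h := χ.add (SP W M₀ n) (SP W M₀ (n + 1)) M₀ (Submodule.inclusion hle)
      ((Finsupp.lapply (n : ℤ)).comp (SP W M₀ (n + 1)).subtype) (fgSP (n + 1))
      (Kil.sub (kilM hk) _) (Submodule.inclusion_injective hle) ?_ ?_
    · rw [h, ih]
      push_cast
      rw [add_smul, one_smul]
    · intro m
      refine ⟨⟨Finsupp.single (n : ℤ) m, ?_⟩, ?_⟩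
      · rw [mem_SP]
        intro k hk'
        rw [Finsupp.single_apply, if_neg]
        rintro rfl
        exact hk' (by rw [Set.mem_Ico]; push_cast; omega)
      · change (Finsupp.single (n : ℤ) m) (n : ℤ) = m
        rw [Finsupp.single_eq_same]
    · intro x
      constructor
      · intro hx
        have hx' : (x : ℤ →₀ M₀) n = 0 := hx
        refine ⟨⟨x, ?_⟩, rfl⟩
        rw [mem_SP]
        intro k hk'
        by_cases hkn : k = n
        · rw [hkn]; exact hx'
        · refine mem_SP.1 x.2 k ?_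
          rw [Set.mem_Ico] at hk' ⊢
          push_cast
          omega
      · rintro ⟨y, rfl⟩
        change (y : ℤ →₀ M₀) n = 0
        exact mem_SP.1 y.2 n (by rw [Set.mem_Ico]; omega)

end Ef_aux

open Ef_aux in
theorem tEf : S_Ef := by
  intro W _ _ f g I₀ V _ χ Ψ d hC hd M₀ _ _ hM hk
  have kM := kilM hk
  rw [Kil.pair] at kM
  obtain ⟨kf, kg, k0⟩ := kM
  have hrel : Rel f g (bt W M₀ d) := by
    intro m
    rw [kf, kg, map_zero, add_zero]
  have hfg : (SP W M₀ d).FG := Module.Finite.iff_fg.1 (fgSP d)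
  obtain ⟨m₀, hm⟩ := hC (ℤ →₀ M₀) (bt W M₀ d) k0 hrel (SP W M₀ d) hfg (gen hd)
  have h1 := hm m₀ le_rfl
  rw [Lm_SP] at h1
  have hle : d ≤ d * (m₀ + 1) := Nat.le_mul_of_pos_right d (Nat.succ_pos m₀)
  have hz : mg (ℤ →₀ M₀) g = 0 := LinearMap.ext fun x => kg x
  change Ψ.F (ℤ →₀ M₀) (bt W M₀ d) = _
  rw [h1]
  unfold th
  rw [pl_SP hle, hz, LinearMap.ker_zero, inf_top_eq, Submodule.map_zero]
  have e1 : χ.f (SP W M₀ (d * (m₀ + 1)) ⧸
      (⊥ : Submodule W (ℤ →₀ M₀)).submoduleOf (SP W M₀ (d * (m₀ + 1)))) =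
      χ.f (SP W M₀ (d * (m₀ + 1))) := by
    have hb : (⊥ : Submodule W (ℤ →₀ M₀)).submoduleOf (SP W M₀ (d * (m₀ + 1))) = ⊥ :=
      Submodule.ker_subtype _
    have := fgSP (W := W) (M₀ := M₀) (d * (m₀ + 1))
    exact (χ.iso (Submodule.quotEquivOfEqBot _ hb).symm this (Kil.sub (kilM hk) _)).symm
  rw [e1, chi χ hk, chi χ hk]
  push_cast
  rw [← sub_smul]
  rw [← neg_smul]
  congr 1
  ring

end Pool.Agent.FY
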