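import Pool.Agent.Lib.MP_b53bfe_ag.Spec3

/-! # The operator `D_i` (module `Gd` of theorem T2) -/

set_option autoImplicit false

noncomputable section

namespace Pool.Agent.FY

open Polynomial

namespace Gd_aux

/-- difference of additive functions with a rational factor -/
def dif {n : ℕ} {I : Set (Po (Ix n))} {V : Type 1} [AddCommGroup V] [Module ℚ V] (χ ψ : GFun n I V) (q : ℚ) :
    GFun n I V where
  f M _ _ c := χ.f M c - q • ψ.f M c
  add := by
    intro A B C _ _ _ _ _ _ a b c i p hB hk ha hb hc hi hp hinj hsur hex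
    have h1 := χ.add A B C a b c i p hB hk ha hb hc hi hp hinj hsur hex
    have h2 := ψ.add A B C a b c i p hB hk ha hb hc hi hp hinj hsur hex
    change χ.f B b - q • ψ.f B b = (χ.f A a - q • ψ.f A a) + (χ.f C c - q • ψ.f C c)
    rw [h1, h2, smul_add]
    abel

theorem dif_f {n : ℕ} {I : Set (Po (Ix n))} {V : Type 1} [AddCommGroup V] [Module ℚ V] (χ ψ : GFun n I V) (q : ℚ)
    (M : Type) [AddCommGroup M] [Module (Po (Ix n)) M] (c : Dg → M →+ M) :
    (dif χ ψ q).f M c = χ.f M c - q • ψ.f M c := rfl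

/-- an additive function which vanishes on the modules killed by `X_p` is invariant under the shift by `dg p` -/
theorem shift (hGa : S_Ga) (hGu : S_Gu) {n : ℕ} {I : Set (Po (Ix n))} {V : Type 1} [AddCommGroup V] (χ : GFun n I V)
    (p : Ix n) (hKV : KV χ p) (M : Type) [AddCommGroup M] [Module (Po (Ix n)) M] (c : Dg → M →+ M) (hc : IsGr n c)
    (hM : Module.Finite (Po (Ix n)) M) (hk : Kil I M) : χ.f M (sh c (-dg p)) = χ.f M c := by
  have hN : IsNoetherian (Po (Ix n)) M := isNoetherian_of_isNoetherianRing_of_finite _ _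
  obtain ⟨g1, g2, g3⟩ := hGa n M c hc
  have hHg : Hg n (MvPolynomial.X p : Po (Ix n)) (dg p) := by
    intro M' _ _ c' hc' a m
    exact hc'.var p a m
  obtain ⟨hR, hK⟩ := g3 _ _ hHg
  have hcs : IsGr n (sh c (-dg p)) := g1 _
  have hKs : Stb (sh c (-dg p)) (LinearMap.ker (mg M (MvPolynomial.X p : Po (Ix n)))) := by
    intro a m hm
    exact hK _ m hm
  obtain ⟨-, g2', -⟩ := hGa n M _ hcs
  obtain ⟨k1, k2, k3, k4⟩ := g2' _ hKs
  obtain ⟨r1, r2, r3, r4⟩ := g2 _ hR
  obtain ⟨-, -, u1⟩ := hGu n I V χ M _ hcs hM hk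
  obtain ⟨-, -, u2⟩ := hGu n I V χ M _ hc hM hk
  rw [u1 _ hKs, u2 _ hR]
  have e1 : χ.f (LinearMap.ker (mg M (MvPolynomial.X p : Po (Ix n)))) (cS (sh c (-dg p)) _) = 0 := by
    refine hKV _ _ k1 inferInstance ?_ ?_
    · intro r hr m
      exact Subtype.ext (hk r hr (m : M))
    · intro m
      exact Subtype.ext m.2
  have e2 : χ.f (M ⧸ LinearMap.range (mg M (MvPolynomial.X p : Po (Ix n)))) (cQ c _) = 0 := by
    refine hKV _ _ r2 inferInstance ?_ ?_
    · intro r hr m
      induction m using Submodule.Quotient.induction_on with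
      | _ m =>
        rw [← Submodule.Quotient.mk_smul, hk r hr m, Submodule.Quotient.mk_zero]
    · intro m
      induction m using Submodule.Quotient.induction_on with
      | _ m =>
        rw [← Submodule.Quotient.mk_smul, Submodule.Quotient.mk_eq_zero]
        exact ⟨m, rfl⟩
  rw [e1, e2, zero_add, add_zero]
  -- the isomorphism
  have hkQ : Kil I (M ⧸ LinearMap.ker (mg M (MvPolynomial.X p : Po (Ix n)))) := by
    intro r hr m
    induction m using Submodule.Quotient.induction_on with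
    | _ m =>
      rw [← Submodule.Quotient.mk_smul, hk r hr m, Submodule.Quotient.mk_zero]
  obtain ⟨-, v, -⟩ := hGu n I V χ (M ⧸ LinearMap.ker (mg M (MvPolynomial.X p : Po (Ix n)))) _ k2 inferInstance hkQ
  refine v _ _ (LinearMap.quotKerEquivRange (mg M (MvPolynomial.X p : Po (Ix n)))) ?_
  intro a m
  induction m using Submodule.Quotient.induction_on with
  | _ m =>
    apply Subtype.ext
    rw [k4, r3]
    rw [LinearMap.quotKerEquivRange_apply_mk, LinearMap.quotKerEquivRange_apply_mk]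
    change (MvPolynomial.X p : Po (Ix n)) • c (a + -dg p) m = c a ((MvPolynomial.X p : Po (Ix n)) • m)
    rw [← hc.var p, neg_add_cancel_right]

end Gd_aux

open Gd_aux

theorem tGd : S_Ga → S_Gb → S_Gi → S_Gu → S_Gw → S_Gd := by
  intro hGa _ _ hGu hGw n d V _ _ χ i ζ hd hζ
  obtain ⟨ψ, p1, p2, p3, p4, p5⟩ := hGw n d V χ i ζ hd hζ
  have hd0 : (d : ℚ) ≠ 0 := by
    have : d ≠ 0 := by omega
    exact_mod_cast this
  have hKV : KV (dif χ ψ (1 / (d : ℚ))) (i, 1) := by
    intro M _ _ c hc hM hk hX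
    rw [dif_f, p4 M c hc hM hk hX]
    have : (1 / (d : ℚ)) • ((d : ℤ) • χ.f M c) = χ.f M c := by
      rw [← Int.cast_smul_eq_zsmul ℚ, smul_smul]
      have : (1 / (d : ℚ)) * (((d : ℤ) : ℚ)) = 1 := by
        push_cast
        field_simp
      rw [this, one_smul]
    rw [this, sub_self]
  refine ⟨dif χ ψ (1 / (d : ℚ)), ?_, hKV, ?_, ?_, ?_⟩
  · intro M _ _ c
    rw [dif_f, p1]
  · intro l hl M _ _ c hc hM hk hX
    rw [dif_f, hl M c hc hM hk hX, p2 l hl M c hc hM hk hX, smul_zero, sub_zero]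
  · intro p hp M _ _ c hc hM hk hX
    rw [dif_f, hp M c hc hM hk hX, p3 p hp M c hc hM hk hX, smul_zero, sub_zero]
  · intro M _ _ c hc hM hk
    exact shift hGa hGu (dif χ ψ (1 / (d : ℚ))) (i, 1) hKV M c hc hM hk

end Pool.Agent.FY
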