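import Pool.Agent.Lib.MP_b53bfe_ag.Spec3

/-!
MP_b53bfe_ag, theorem T2, module Gla: graded lattices.
-/

set_option autoImplicit false

noncomputable section

namespace Pool.Agent.FY

open Polynomial

namespace Gla_aux

variable {n : ℕ}

/-- a variable is homogeneous -/
theorem hg_var (p : Ix n) : Hg n (MvPolynomial.X p : Po (Ix n)) (dg p) :=
  fun _ _ _ _ hc a m => hc.var p a m

/-- graded modules killed by a product of the variables `X_(i,1)` have the value `0` -/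
theorem list_zero (hGa : S_Ga) (hGu : S_Gu) {I : Set (Po (Ix n))} {V : Type 1} [AddCommGroup V]
    (χ : GFun n I V) (hKV : ∀ i : Fin 3, KV χ (i, 1)) (l : List (Fin 3)) :
    ∀ (M : Type) [AddCommGroup M] [Module (Po (Ix n)) M] (c : Dg → M →+ M),
      Module.Finite (Po (Ix n)) M → Kil I M → IsGr n c →
      (∀ x : M, ((l.map fun i => (MvPolynomial.X ((i, 1) : Ix n) : Po (Ix n))).prod) • x = 0) →
      χ.f M c = 0 := by
  induction l with
  | nil =>
    intro M _ _ c hM hk hc h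
    refine (hGu n I V χ M c hc hM hk).1 ⟨fun a b => ?_⟩
    have ha := h a
    have hb := h b
    rw [List.map_nil, List.prod_nil, one_smul] at ha hb
    rw [ha, hb]
  | cons i l ih =>
    intro M _ _ c hM hk hc h
    set x : Po (Ix n) := MvPolynomial.X ((i, 1) : Ix n) with hx
    obtain ⟨_, hG2, hG3⟩ := hGa n M c hc
    have hst : Stb c (LinearMap.range (mg M x)) := (hG3 x _ (hg_var ((i, 1) : Ix n))).1
    obtain ⟨hgS, hgQ, _, _⟩ := hG2 _ hst
    rw [(hGu n I V χ M c hc hM hk).2.2 _ hst]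
    have h1 : χ.f (LinearMap.range (mg M x)) (cS c (LinearMap.range (mg M x))) = 0 := by
      refine ih _ _ inferInstance (fun r hr x => Subtype.ext (hk r hr x.1)) hgS ?_
      rintro ⟨_, y, rfl⟩
      apply Subtype.ext
      change ((l.map fun i => (MvPolynomial.X ((i, 1) : Ix n) : Po (Ix n))).prod) • (x • y) = 0
      have h2 := h y
      rw [List.map_cons, List.prod_cons, mul_comm, mul_smul] at h2
      exact h2
    have h2 : χ.f (M ⧸ LinearMap.range (mg M x)) (cQ c (LinearMap.range (mg M x))) = 0 := by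
      refine hKV i _ _ hgQ inferInstance (fun r hr y => ?_) (fun y => ?_)
      · obtain ⟨y, rfl⟩ := Submodule.Quotient.mk_surjective _ y
        rw [← Submodule.Quotient.mk_smul, hk r hr y, Submodule.Quotient.mk_zero]
      · obtain ⟨y, rfl⟩ := Submodule.Quotient.mk_surjective _ y
        rw [← Submodule.Quotient.mk_smul, Submodule.Quotient.mk_eq_zero]
        exact ⟨y, rfl⟩
    rw [h1, h2, add_zero]

theorem exists_list (n k : ℕ) : ∃ l : List (Fin 3),
    (l.map fun i => (MvPolynomial.X ((i, 1) : Ix n) : Po (Ix n))).prod = uu n ^ k := by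
  induction k with
  | zero => exact ⟨[], by simp⟩
  | succ k ih =>
    obtain ⟨l, hl⟩ := ih
    refine ⟨0 :: 1 :: 2 :: l, ?_⟩
    rw [List.map_cons, List.map_cons, List.map_cons, List.prod_cons, List.prod_cons,
      List.prod_cons, hl, pow_succ]
    have h1 : uu n = MvPolynomial.X ((0, 1) : Ix n) * MvPolynomial.X ((1, 1) : Ix n) *
        MvPolynomial.X ((2, 1) : Ix n) := by
      rw [uu, Fin.prod_univ_three]
    rw [h1]
    ring

/-- graded modules killed by a power of `uu` have the value `0` -/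
theorem pow_zero (hGa : S_Ga) (hGu : S_Gu) {I : Set (Po (Ix n))} {V : Type 1} [AddCommGroup V]
    (χ : GFun n I V) (hKV : ∀ i : Fin 3, KV χ (i, 1)) (k : ℕ)
    (M : Type) [AddCommGroup M] [Module (Po (Ix n)) M] (c : Dg → M →+ M)
    (hM : Module.Finite (Po (Ix n)) M) (hk : Kil I M) (hc : IsGr n c)
    (h : ∀ x : M, uu n ^ k • x = 0) : χ.f M c = 0 := by
  obtain ⟨l, hl⟩ := exists_list n k
  refine list_zero hGa hGu χ hKV l M c hM hk hc fun x => ?_
  rw [hl]
  exact h x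

/-- comparison of two stable submodules -/
theorem le_eq (hGa : S_Ga) (hGu : S_Gu) {I : Set (Po (Ix n))} {V : Type 1} [AddCommGroup V]
    (χ : GFun n I V) (hKV : ∀ i : Fin 3, KV χ (i, 1))
    (M : Type) [AddCommGroup M] [Module (Po (Ix n)) M] (c : Dg → M →+ M) (hN : Kil I M)
    (hc : IsGr n c) (L₀ L₁ : Submodule (Po (Ix n)) M) (hle : L₀ ≤ L₁)
    (hfg : L₁.FG) (hs0 : Stb c L₀) (hs1 : Stb c L₁) (hx : ∀ x : M, ∃ k : ℕ, uu n ^ k • x ∈ L₀) :
    χ.f L₁ (cS c L₁) = χ.f L₀ (cS c L₀) := by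
  classical
  have hfin : Module.Finite (Po (Ix n)) L₁ := Module.Finite.iff_fg.2 hfg
  have hk1 : Kil I L₁ := fun r hr x => Subtype.ext (hN r hr x.1)
  have hG := hGa n M c hc
  obtain ⟨hg0, -, hv0, -⟩ := hG.2.1 L₀ hs0
  obtain ⟨hg1, -, hv1, -⟩ := hG.2.1 L₁ hs1
  have hst : Stb (cS c L₁) (L₀.submoduleOf L₁) := by
    intro a m hm
    have hm' : (m : M) ∈ L₀ := hm
    change ((cS c L₁ a m : L₁) : M) ∈ L₀
    rw [hv1]
    exact hs0 a _ hm'
  obtain ⟨hgS, hgQ, hvS, -⟩ := (hGa n L₁ (cS c L₁) hg1).2.1 _ hst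
  obtain ⟨-, -, hsub⟩ := hGu n I V χ L₁ (cS c L₁) hg1 hfin hk1
  rw [hsub _ hst]
  have h1 : χ.f (L₀.submoduleOf L₁) (cS (cS c L₁) (L₀.submoduleOf L₁)) = χ.f L₀ (cS c L₀) := by
    obtain ⟨-, hiso, -⟩ := hGu n I V χ (L₀.submoduleOf L₁) (cS (cS c L₁) (L₀.submoduleOf L₁)) hgS
      inferInstance (fun r hr x => Subtype.ext (hk1 r hr x.1))
    refine hiso L₀ (cS c L₀) (Submodule.submoduleOfEquivOfLe hle) fun a m => ?_
    apply Subtype.ext
    rw [hv0]
    change ((cS (cS c L₁) (L₀.submoduleOf L₁) a m : L₁) : M) = c a ((m : L₁) : M)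
    rw [hvS, hv1]
  obtain ⟨S, hS⟩ := hfg
  choose κ hκ using hx
  have hK : ∀ x ∈ L₁, uu n ^ (S.sup κ) • x ∈ L₀ := by
    have h2 : L₁ ≤ L₀.comap (LinearMap.lsmul (Po (Ix n)) M (uu n ^ (S.sup κ))) := by
      rw [← hS, Submodule.span_le]
      intro s hs
      change uu n ^ (S.sup κ) • s ∈ L₀
      have h3 : κ s ≤ S.sup κ := Finset.le_sup hs
      obtain ⟨m, hm⟩ := Nat.exists_eq_add_of_le h3
      rw [hm, add_comm, pow_add, mul_smul]
      exact L₀.smul_mem _ (hκ s)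
    exact fun x hx => h2 hx
  have h4 : χ.f (L₁ ⧸ L₀.submoduleOf L₁) (cQ (cS c L₁) (L₀.submoduleOf L₁)) = 0 := by
    refine pow_zero hGa hGu χ hKV (S.sup κ) _ _ inferInstance (fun r hr x => ?_) hgQ (fun x => ?_)
    · obtain ⟨y, rfl⟩ := Submodule.Quotient.mk_surjective _ x
      rw [← Submodule.Quotient.mk_smul, hk1 r hr y, Submodule.Quotient.mk_zero]
    · obtain ⟨y, rfl⟩ := Submodule.Quotient.mk_surjective _ x
      rw [← Submodule.Quotient.mk_smul, Submodule.Quotient.mk_eq_zero]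
      exact hK y.1 y.2
  rw [h1, h4, add_zero]

theorem stb_sup {M : Type} [AddCommGroup M] [Module (Po (Ix n)) M] (c : Dg → M →+ M)
    {A B : Submodule (Po (Ix n)) M} (hA : Stb c A) (hB : Stb c B) : Stb c (A ⊔ B) := by
  intro e m hm
  obtain ⟨a, ha, b, hb, rfl⟩ := Submodule.mem_sup.1 hm
  rw [map_add]
  exact Submodule.add_mem_sup (hA e a ha) (hB e b hb)

end Gla_aux

theorem tGla : S_Ga → S_Gb → S_Gi → S_Gu → S_Gla := by
  classical
  intro hGa _ _ hGu n I V _ χ hKV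
  refine ⟨fun M _ _ c => if h : ∃ L : Submodule (Po (Ix n)) M, L.FG ∧ Stb c L ∧
    ∀ x : M, ∃ k : ℕ, uu n ^ k • x ∈ L then χ.f h.choose (cS c h.choose) else 0, ?_⟩
  intro M _ _ c hN hc L hfg hs hx
  have h : ∃ L : Submodule (Po (Ix n)) M, L.FG ∧ Stb c L ∧
    ∀ x : M, ∃ k : ℕ, uu n ^ k • x ∈ L := ⟨L, hfg, hs, hx⟩
  refine (dif_pos h).trans ?_
  obtain ⟨h1, h2, h5⟩ := h.choose_spec
  have h3 := Gla_aux.le_eq hGa hGu χ hKV M c hN hc h.choose (h.choose ⊔ L) le_sup_left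
    (h1.sup hfg) h2 (Gla_aux.stb_sup c h2 hs) h5
  have h4 := Gla_aux.le_eq hGa hGu χ hKV M c hN hc L (h.choose ⊔ L) le_sup_right
    (h1.sup hfg) hs (Gla_aux.stb_sup c h2 hs) hx
  rw [← h3, h4]

end Pool.Agent.FY
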