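import Pool.Agent.Lib.MP_b53bfe_ag.Spec3
import Pool.Agent.Lib.MP_b53bfe_ag.Bas
import Pool.Agent.Lib.MP_b53bfe_ag.Bas3

/-!
# Module Gz, first part: polynomials
-/

set_option autoImplicit false

noncomputable section

namespace Pool.Agent.FY

open Polynomial

namespace Gz_aux

/-- the degree of a variable in the row `i` -/
def de (n : ℕ) (i : Fin 3) (p : Ix n) : ℕ := if p.1 = i then 1 else 0

/-- `X_(i, j) ↦ X * C X_(k, j)`, `X_p ↦ C X_p` for the other rows -/
def tz (n : ℕ) (i k : Fin 3) : Po (Ix n) →+* (Po (Ix n))[X] :=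
  (MvPolynomial.aeval (fun p : Ix n => if p.1 = i then (X * C (MvPolynomial.X (k, p.2)) : (Po (Ix n))[X])
    else C (MvPolynomial.X p)) : Po (Ix n) →ₐ[ℂ] (Po (Ix n))[X]).toRingHom

variable {n : ℕ} {i k : Fin 3}

theorem add_ext {B : Type} [AddCommGroup B] {f g : Po (Ix n) →+ B}
    (h : ∀ (m : Ix n →₀ ℕ) (z : ℂ), f (MvPolynomial.monomial m z) = g (MvPolynomial.monomial m z)) : f = g := by
  refine AddMonoidHom.ext fun p => ?_
  rw [MvPolynomial.as_sum p, map_sum, map_sum]
  exact Finset.sum_congr rfl fun m _ => h m _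

theorem tz_C (z : ℂ) : tz n i k (MvPolynomial.C z) = C (MvPolynomial.C z) := by
  show MvPolynomial.aeval _ (MvPolynomial.C z) = _
  rw [MvPolynomial.aeval_C]
  rfl

theorem tz_X (p : Ix n) : tz n i k (MvPolynomial.X p) =
    if p.1 = i then (X * C (MvPolynomial.X (k, p.2)) : (Po (Ix n))[X]) else C (MvPolynomial.X p) := by
  show MvPolynomial.aeval _ (MvPolynomial.X p) = _
  rw [MvPolynomial.aeval_X]

theorem sb_C (z : ℂ) : sb n i k (MvPolynomial.C z) = MvPolynomial.C z := by
  show MvPolynomial.aeval _ (MvPolynomial.C z) = _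
  rw [MvPolynomial.aeval_C]
  rfl

theorem sb_X (p : Ix n) : sb n i k (MvPolynomial.X p) =
    if p.1 = i then (MvPolynomial.X (k, p.2) : Po (Ix n)) else MvPolynomial.X p := by
  show MvPolynomial.aeval _ (MvPolynomial.X p) = _
  rw [MvPolynomial.aeval_X]

theorem rk_C (z : ℂ) : rk n i (MvPolynomial.C z) = MvPolynomial.C z := by
  show MvPolynomial.aeval _ (MvPolynomial.C z) = _
  rw [MvPolynomial.aeval_C]
  rfl

theorem rk_X (p : Ix n) : rk n i (MvPolynomial.X p) = if p.1 = i then (0 : Po (Ix n)) else MvPolynomial.X p := by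
  show MvPolynomial.aeval _ (MvPolynomial.X p) = _
  rw [MvPolynomial.aeval_X]

theorem tz_rk (r : Po (Ix n)) : tz n i k (rk n i r) = C (rk n i r) := by
  have h : (tz n i k).comp (rk n i) = (C : Po (Ix n) →+* (Po (Ix n))[X]).comp (rk n i) := by
    apply MvPolynomial.ringHom_ext
    · intro z
      rw [RingHom.comp_apply, RingHom.comp_apply, rk_C, tz_C]
    · intro p
      rw [RingHom.comp_apply, RingHom.comp_apply, rk_X]
      split_ifs with hp
      · rw [map_zero, map_zero]
      · rw [tz_X, if_neg hp]
  exact congrArg (fun f => f r) h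

theorem rk_sb (hik : i ≠ k) (r : Po (Ix n)) : rk n i (sb n i k r) = sb n i k r := by
  have h : (rk n i).comp (sb n i k) = sb n i k := by
    apply MvPolynomial.ringHom_ext
    · intro z
      rw [RingHom.comp_apply, sb_C, rk_C]
    · intro p
      rw [RingHom.comp_apply, sb_X]
      split_ifs with hp
      · rw [rk_X, if_neg (fun h => hik h.symm)]
      · rw [rk_X, if_neg hp]
  exact congrArg (fun f => f r) h

/-- `rk` is the identity modulo the variables of the row `i` -/
theorem sub_rk_mem (r : Po (Ix n)) : r - rk n i r ∈ Ideal.span (Rw n i []) := by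
  rw [← Ideal.Quotient.eq]
  have h : (Ideal.Quotient.mk (Ideal.span (Rw n i []))) = (Ideal.Quotient.mk (Ideal.span (Rw n i []))).comp (rk n i) := by
    apply MvPolynomial.ringHom_ext
    · intro z
      rw [RingHom.comp_apply, rk_C]
    · intro p
      rw [RingHom.comp_apply, rk_X]
      split_ifs with hp
      · rw [map_zero, Ideal.Quotient.eq_zero_iff_mem]
        exact Ideal.subset_span ⟨p, hp, List.not_mem_nil, rfl⟩
      · rfl
  exact congrArg (fun f => f r) h

theorem wt_dg (m : Ix n →₀ ℕ) : (Finsupp.weight (dg (n := n)) m) i = (Finsupp.weight (de n i) m : ℤ) := by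
  induction m using Finsupp.induction_linear with
  | zero => simp
  | add a b ha hb => rw [map_add, map_add, Pi.add_apply, ha, hb, Nat.cast_add]
  | single p b =>
    rw [Finsupp.weight_single, Finsupp.weight_single]
    simp only [Pi.smul_apply, dg, de, Pi.single_apply, smul_eq_mul, nsmul_eq_mul]
    by_cases hp : p.1 = i
    · rw [if_pos hp.symm, if_pos hp]
      push_cast
      ring
    · rw [if_neg (fun h => hp h.symm), if_neg hp]
      push_cast
      ring

theorem mon_add (a b : Ix n →₀ ℕ) : (MvPolynomial.monomial (a + b) (1 : ℂ) : Po (Ix n)) =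
    MvPolynomial.monomial a 1 * MvPolynomial.monomial b 1 := by
  rw [MvPolynomial.monomial_mul, one_mul]

theorem mon_z (m : Ix n →₀ ℕ) (z : ℂ) : (MvPolynomial.monomial m z : Po (Ix n)) =
    MvPolynomial.C z * MvPolynomial.monomial m 1 := by
  rw [MvPolynomial.C_mul_monomial, mul_one]

theorem mon_zero : (MvPolynomial.monomial (0 : Ix n →₀ ℕ) (1 : ℂ) : Po (Ix n)) = 1 := rfl

theorem mon_single (p : Ix n) (b : ℕ) : (MvPolynomial.monomial (Finsupp.single p b) (1 : ℂ) : Po (Ix n)) =
    MvPolynomial.X p ^ b := (MvPolynomial.X_pow_eq_monomial).symm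

theorem tz_mon (m : Ix n →₀ ℕ) : tz n i k (MvPolynomial.monomial m 1) =
    X ^ (Finsupp.weight (de n i) m) * C (sb n i k (MvPolynomial.monomial m 1)) := by
  induction m using Finsupp.induction_linear with
  | zero => rw [mon_zero, map_one, map_one, map_one, map_zero, pow_zero, one_mul]
  | add a b ha hb =>
    rw [mon_add, map_mul, ha, hb, map_add, map_mul, map_mul, pow_add]
    ring
  | single p b =>
    rw [mon_single, map_pow, map_pow, tz_X, sb_X, Finsupp.weight_single, smul_eq_mul]
    unfold de
    split_ifs with hp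
    · rw [mul_pow, mul_one, ← map_pow]
    · rw [mul_zero, pow_zero, one_mul, ← map_pow]

theorem tz_monz (m : Ix n →₀ ℕ) (z : ℂ) : tz n i k (MvPolynomial.monomial m z) =
    X ^ (Finsupp.weight (de n i) m) * C (sb n i k (MvPolynomial.monomial m z)) := by
  rw [mon_z, map_mul, tz_C, tz_mon, map_mul, sb_C, map_mul]
  ring

/-- `tz` of a homogeneous polynomial -/
theorem tz_hom {r : Po (Ix n)} {a : Dg} (h : MvPolynomial.IsWeightedHomogeneous (dg (n := n)) r a) :
    tz n i k r = X ^ (a i).toNat * C (sb n i k r) := by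
  conv_lhs => rw [MvPolynomial.as_sum r]
  conv_rhs => rw [MvPolynomial.as_sum r]
  rw [map_sum, map_sum, map_sum, Finset.mul_sum]
  refine Finset.sum_congr rfl fun m hm => ?_
  rw [tz_monz]
  have hw : Finsupp.weight (dg (n := n)) m = a := h (MvPolynomial.mem_support_iff.1 hm)
  have : (a i).toNat = Finsupp.weight (de n i) m := by
    rw [← hw, wt_dg, Int.toNat_natCast]
  rw [this]

/-- the part of degree `β` in the row `i` -/
def pi0 (n : ℕ) (i : Fin 3) (β : ℕ) : Po (Ix n) →ₗ[ℂ] Po (Ix n) :=
  MvPolynomial.weightedHomogeneousComponent (de n i) β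

theorem pi0_mon (β : ℕ) (m : Ix n →₀ ℕ) (z : ℂ) : pi0 n i β (MvPolynomial.monomial m z) =
    if β = Finsupp.weight (de n i) m then MvPolynomial.monomial m z else 0 := by
  unfold pi0
  rw [MvPolynomial.weightedHomogeneousComponent_of_mem (n := Finsupp.weight (de n i) m)]
  exact MvPolynomial.isWeightedHomogeneous_monomial _ _ _ rfl

/-- the coefficients of `tz` -/
theorem coeff_tz (β : ℕ) (p : Po (Ix n)) : (tz n i k p).coeff β = sb n i k (pi0 n i β p) := by
  let f : Po (Ix n) →+ Po (Ix n) := (Polynomial.lcoeff (Po (Ix n)) β).toAddMonoidHom.comp (tz n i k).toAddMonoidHom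
  let g : Po (Ix n) →+ Po (Ix n) := (sb n i k).toAddMonoidHom.comp (pi0 n i β).toAddMonoidHom
  have h : f = g := by
    apply add_ext
    intro m z
    show (tz n i k (MvPolynomial.monomial m z)).coeff β = sb n i k (pi0 n i β (MvPolynomial.monomial m z))
    rw [tz_monz, pi0_mon, Polynomial.coeff_X_pow_mul', Polynomial.coeff_C]
    by_cases hb : β = Finsupp.weight (de n i) m
    · rw [if_pos hb, if_pos hb.ge, if_pos (by omega)]
    · rw [if_neg hb, map_zero]
      split_ifs with h1 h2
      · exact (hb (by omega)).elim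
      · rfl
      · rfl
  exact congrArg (fun f => f p) h

theorem cP_mon (a : Dg) (m : Ix n →₀ ℕ) (z : ℂ) : cP n a (MvPolynomial.monomial m z) =
    if a = Finsupp.weight (dg (n := n)) m then MvPolynomial.monomial m z else 0 := by
  show MvPolynomial.weightedHomogeneousComponent (dg (n := n)) a (MvPolynomial.monomial m z) = _
  rw [MvPolynomial.weightedHomogeneousComponent_of_mem (n := Finsupp.weight (dg (n := n)) m)]
  exact MvPolynomial.isWeightedHomogeneous_monomial _ _ _ rfl

/-- components of the part of degree `β` in the row `i` -/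
theorem cP_pi0 (β : ℕ) (a : Dg) (p : Po (Ix n)) : cP n a (pi0 n i β p) = if a i = β then cP n a p else 0 := by
  let f : Po (Ix n) →+ Po (Ix n) := (cP n a).comp (pi0 n i β).toAddMonoidHom
  let g : Po (Ix n) →+ Po (Ix n) := if a i = β then cP n a else 0
  have h : f = g := by
    apply add_ext
    intro m z
    show cP n a (pi0 n i β (MvPolynomial.monomial m z)) = g (MvPolynomial.monomial m z)
    have hg : g (MvPolynomial.monomial m z) = if a i = β then cP n a (MvPolynomial.monomial m z) else 0 := by
      show (if a i = β then cP n a else 0 : Po (Ix n) →+ Po (Ix n)) _ = _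
      split_ifs <;> rfl
    rw [hg, pi0_mon, cP_mon]
    by_cases hb : β = Finsupp.weight (de n i) m
    · rw [if_pos hb, cP_mon]
      by_cases ha : a = Finsupp.weight (dg (n := n)) m
      · have : a i = β := by rw [ha, wt_dg, hb]
        rw [if_pos this]
      · rw [if_neg ha]
        split_ifs <;> rfl
    · rw [if_neg hb, map_zero]
      by_cases ha : a i = β
      · rw [if_pos ha, if_neg]
        intro h
        apply hb
        have h2 := congrArg (fun f : Dg => f i) h
        simp only [wt_dg] at h2
        exact_mod_cast ha.symm.trans h2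
      · rw [if_neg ha]
  have h2 := congrArg (fun f : Po (Ix n) →+ Po (Ix n) => f p) h
  have hg : g p = if a i = β then cP n a p else 0 := by
    show (if a i = β then cP n a else 0 : Po (Ix n) →+ Po (Ix n)) _ = _
    split_ifs <;> rfl
  rw [← hg]
  exact h2

theorem pi0_cP (β : ℕ) (a : Dg) (p : Po (Ix n)) : pi0 n i β (cP n a p) = cP n a (pi0 n i β p) := by
  let f : Po (Ix n) →+ Po (Ix n) := (pi0 n i β).toAddMonoidHom.comp (cP n a)
  let g : Po (Ix n) →+ Po (Ix n) := (cP n a).comp (pi0 n i β).toAddMonoidHom
  have h : f = g := by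
    apply add_ext
    intro m z
    show pi0 n i β (cP n a (MvPolynomial.monomial m z)) = cP n a (pi0 n i β (MvPolynomial.monomial m z))
    rw [pi0_mon, cP_mon]
    by_cases ha : a = Finsupp.weight (dg (n := n)) m
    · by_cases hb : β = Finsupp.weight (de n i) m
      · rw [if_pos ha, if_pos hb, pi0_mon, cP_mon, if_pos ha, if_pos hb]
      · rw [if_pos ha, if_neg hb, pi0_mon, if_neg hb, map_zero]
    · by_cases hb : β = Finsupp.weight (de n i) m
      · rw [if_neg ha, if_pos hb, map_zero, cP_mon, if_neg ha]
      · rw [if_neg ha, if_neg hb, map_zero, map_zero]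
  exact congrArg (fun f : Po (Ix n) →+ Po (Ix n) => f p) h

/-- negative degrees -/
theorem cP_neg {a : Dg} (ha : a i < 0) (p : Po (Ix n)) : cP n a p = 0 := by
  have h : cP n a = 0 := by
    apply add_ext
    intro m z
    rw [cP_mon, if_neg]
    · rfl
    · intro h
      have h2 := congrArg (fun f : Dg => f i) h
      simp only [wt_dg] at h2
      omega
  rw [h]
  rfl

/-- `sb` of a monomial is homogeneous -/
theorem sb_mon_hom (m : Ix n →₀ ℕ) : MvPolynomial.IsWeightedHomogeneous (dg (n := n)) (sb n i k (MvPolynomial.monomial m 1))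
    (Finsupp.weight (dg (n := n)) m + (Finsupp.weight (de n i) m) • (er k - er i)) := by
  induction m using Finsupp.induction_linear with
  | zero =>
    rw [mon_zero, map_one, map_zero, map_zero, zero_smul, add_zero]
    exact MvPolynomial.isWeightedHomogeneous_one _ _
  | add a b ha hb =>
    rw [mon_add, map_mul, map_add, map_add, add_smul]
    have h := ha.mul hb
    have e : Finsupp.weight (dg (n := n)) a + Finsupp.weight (dg (n := n)) b +
        ((Finsupp.weight (de n i) a) • (er k - er i) + (Finsupp.weight (de n i) b) • (er k - er i)) =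
        Finsupp.weight (dg (n := n)) a + (Finsupp.weight (de n i) a) • (er k - er i) +
          (Finsupp.weight (dg (n := n)) b + (Finsupp.weight (de n i) b) • (er k - er i)) := by abel
    rw [e]
    exact h
  | single p b =>
    rw [mon_single, map_pow, sb_X, Finsupp.weight_single, Finsupp.weight_single]
    have e : b • dg p + (b • de n i p) • (er k - er i) = b • (dg p + de n i p • (er k - er i)) := by
      rw [smul_add, smul_eq_mul, mul_smul]
    rw [e]
    apply MvPolynomial.IsWeightedHomogeneous.pow
    unfold de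
    split_ifs with hp
    · have : dg p + 1 • (er k - er i) = dg ((k, p.2) : Ix n) := by
        rw [one_smul]
        show (Pi.single p.1 1 : Dg) + (Pi.single k 1 - Pi.single i 1) = Pi.single k 1
        rw [hp]
        abel
      rw [this]
      exact MvPolynomial.isWeightedHomogeneous_X _ _ _
    · rw [zero_smul, add_zero]
      exact MvPolynomial.isWeightedHomogeneous_X _ _ _

/-- `sb` and the components -/
theorem cP_sb (β : ℕ) (a : Dg) (p : Po (Ix n)) :
    cP n (a + β • (er k - er i)) (sb n i k (pi0 n i β p)) = sb n i k (cP n a (pi0 n i β p)) := by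
  let f : Po (Ix n) →+ Po (Ix n) :=
    ((cP n (a + β • (er k - er i))).comp (sb n i k).toAddMonoidHom).comp (pi0 n i β).toAddMonoidHom
  let g : Po (Ix n) →+ Po (Ix n) := ((sb n i k).toAddMonoidHom.comp (cP n a)).comp (pi0 n i β).toAddMonoidHom
  have h : f = g := by
    apply add_ext
    intro m z
    show cP n (a + β • (er k - er i)) (sb n i k (pi0 n i β (MvPolynomial.monomial m z))) =
      sb n i k (cP n a (pi0 n i β (MvPolynomial.monomial m z)))
    rw [pi0_mon]
    by_cases hb : β = Finsupp.weight (de n i) m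
    · rw [if_pos hb, cP_mon]
      have h1 : MvPolynomial.IsWeightedHomogeneous (dg (n := n)) (sb n i k (MvPolynomial.monomial m z))
          (Finsupp.weight (dg (n := n)) m + (Finsupp.weight (de n i) m) • (er k - er i)) := by
        rw [mon_z, map_mul, sb_C]
        exact (sb_mon_hom m).C_mul z
      show MvPolynomial.weightedHomogeneousComponent (dg (n := n)) (a + β • (er k - er i)) _ = _
      rw [MvPolynomial.weightedHomogeneousComponent_of_mem h1, hb]
      by_cases ha : a = Finsupp.weight (dg (n := n)) m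
      · rw [if_pos ha, if_pos (by rw [ha])]
      · rw [if_neg ha, if_neg (fun h => ha (add_right_cancel h)), map_zero]
    · rw [if_neg hb, map_zero, map_zero, map_zero, map_zero]
  exact congrArg (fun f : Po (Ix n) →+ Po (Ix n) => f p) h

theorem rk_hom0 (r : Po (Ix n)) : MvPolynomial.IsWeightedHomogeneous (de n i) (rk n i r) 0 := by
  induction r using MvPolynomial.induction_on with
  | C z =>
    rw [rk_C]
    exact MvPolynomial.isWeightedHomogeneous_C _ _
  | add p q hp hq =>
    rw [map_add]
    exact hp.add hq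
  | mul_X p v hp =>
    rw [map_mul, rk_X]
    split_ifs with hv
    · rw [mul_zero]
      exact MvPolynomial.isWeightedHomogeneous_zero _ _ _
    · have h1 : MvPolynomial.IsWeightedHomogeneous (de n i) (MvPolynomial.X v : Po (Ix n)) 0 := by
        have h2 := MvPolynomial.isWeightedHomogeneous_X ℂ (de n i) v
        have h3 : de n i v = 0 := if_neg hv
        rwa [h3] at h2
      have := hp.mul h1
      rwa [add_zero] at this

/-- the element which is mapped to `X_(k, j) ^ β * r` -/
theorem pi0_lift (β : ℕ) (j : Fin (n + 3)) (r : Po (Ix n)) :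
    pi0 n i β (MvPolynomial.X ((i, j) : Ix n) ^ β * rk n i r) = MvPolynomial.X ((i, j) : Ix n) ^ β * rk n i r := by
  apply MvPolynomial.IsWeightedHomogeneous.weightedHomogeneousComponent_same
  have h1 : MvPolynomial.IsWeightedHomogeneous (de n i) (MvPolynomial.X ((i, j) : Ix n) : Po (Ix n)) 1 := by
    have h2 := MvPolynomial.isWeightedHomogeneous_X ℂ (de n i) ((i, j) : Ix n)
    have h3 : de n i ((i, j) : Ix n) = 1 := if_pos rfl
    rwa [h3] at h2
  have h4 := (h1.pow β).mul (rk_hom0 (i := i) r)
  have e : β • 1 + 0 = β := by rw [smul_eq_mul, mul_one, add_zero]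
  rwa [e] at h4

theorem sb_lift (β : ℕ) (j : Fin (n + 3)) (r : Po (Ix n)) :
    sb n i k (MvPolynomial.X ((i, j) : Ix n) ^ β * rk n i r) = MvPolynomial.X ((k, j) : Ix n) ^ β * rk n i r := by
  have h : (sb n i k).comp (rk n i) = rk n i := by
    apply MvPolynomial.ringHom_ext
    · intro z
      rw [RingHom.comp_apply, rk_C, sb_C]
    · intro p
      rw [RingHom.comp_apply, rk_X]
      split_ifs with hp
      · rw [map_zero]
      · rw [sb_X, if_neg hp]
  have h1 : sb n i k (rk n i r) = rk n i r := congrArg (fun f : Po (Ix n) →+* Po (Ix n) => f r) h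
  rw [map_mul, map_pow, sb_X, if_pos rfl, h1]

/-- the comparison modulo the minors -/
theorem minor_mon {J : Ideal (Po (Ix n))} (hJ : ∀ j j' : Fin (n + 3), mn n i k j j' ∈ J) (j : Fin (n + 3)) (m : Ix n →₀ ℕ) :
    Ideal.Quotient.mk J (MvPolynomial.X ((k, j) : Ix n) ^ (Finsupp.weight (de n i) m) * MvPolynomial.monomial m 1) =
      Ideal.Quotient.mk J (MvPolynomial.X ((i, j) : Ix n) ^ (Finsupp.weight (de n i) m) *
        sb n i k (MvPolynomial.monomial m 1)) := by
  induction m using Finsupp.induction_linear with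
  | zero => rw [mon_zero, map_one]; simp
  | add a b ha hb =>
    rw [mon_add, map_add, pow_add, pow_add, map_mul (sb n i k)]
    have e1 : (MvPolynomial.X ((k, j) : Ix n) : Po (Ix n)) ^ (Finsupp.weight (de n i) a) *
        MvPolynomial.X ((k, j) : Ix n) ^ (Finsupp.weight (de n i) b) *
        (MvPolynomial.monomial a 1 * MvPolynomial.monomial b 1) =
        (MvPolynomial.X ((k, j) : Ix n) ^ (Finsupp.weight (de n i) a) * MvPolynomial.monomial a 1) *
          (MvPolynomial.X ((k, j) : Ix n) ^ (Finsupp.weight (de n i) b) * MvPolynomial.monomial b 1) := by ring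
    have e2 : (MvPolynomial.X ((i, j) : Ix n) : Po (Ix n)) ^ (Finsupp.weight (de n i) a) *
        MvPolynomial.X ((i, j) : Ix n) ^ (Finsupp.weight (de n i) b) *
        (sb n i k (MvPolynomial.monomial a 1) * sb n i k (MvPolynomial.monomial b 1)) =
        (MvPolynomial.X ((i, j) : Ix n) ^ (Finsupp.weight (de n i) a) * sb n i k (MvPolynomial.monomial a 1)) *
          (MvPolynomial.X ((i, j) : Ix n) ^ (Finsupp.weight (de n i) b) * sb n i k (MvPolynomial.monomial b 1)) := by ring
    rw [e1, e2, map_mul, ha, hb, ← map_mul]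
  | single p b =>
    rw [mon_single, map_pow, sb_X, Finsupp.weight_single, smul_eq_mul]
    unfold de
    split_ifs with hp
    · rw [mul_one, ← mul_pow, ← mul_pow, map_pow, map_pow]
      congr 1
      rw [Ideal.Quotient.eq]
      have h := hJ j p.2
      unfold mn xv at h
      have hp' : p = (i, p.2) := Prod.ext hp rfl
      have h2 := J.neg_mem h
      have e : -(MvPolynomial.X ((i, j) : Ix n) * MvPolynomial.X ((k, p.2) : Ix n) -
          MvPolynomial.X ((i, p.2) : Ix n) * MvPolynomial.X ((k, j) : Ix n) : Po (Ix n)) =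
          MvPolynomial.X ((k, j) : Ix n) * MvPolynomial.X p -
            MvPolynomial.X ((i, j) : Ix n) * MvPolynomial.X ((k, p.2) : Ix n) := by
        rw [← hp']
        ring
      rwa [e] at h2
    · rw [mul_zero, pow_zero, one_mul, pow_zero, one_mul]

theorem minor_pi0 {J : Ideal (Po (Ix n))} (hJ : ∀ j j' : Fin (n + 3), mn n i k j j' ∈ J) (j : Fin (n + 3)) (β : ℕ)
    (p : Po (Ix n)) :
    MvPolynomial.X ((k, j) : Ix n) ^ β * pi0 n i β p - MvPolynomial.X ((i, j) : Ix n) ^ β * sb n i k (pi0 n i β p) ∈ J := by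
  rw [← Ideal.Quotient.eq]
  let f : Po (Ix n) →+ Po (Ix n) ⧸ J := ((Ideal.Quotient.mk J).toAddMonoidHom.comp
    (AddMonoidHom.mulLeft (MvPolynomial.X ((k, j) : Ix n) ^ β))).comp (pi0 n i β).toAddMonoidHom
  let g : Po (Ix n) →+ Po (Ix n) ⧸ J := ((Ideal.Quotient.mk J).toAddMonoidHom.comp
    (AddMonoidHom.mulLeft (MvPolynomial.X ((i, j) : Ix n) ^ β))).comp
      ((sb n i k).toAddMonoidHom.comp (pi0 n i β).toAddMonoidHom)
  have h : f = g := by
    apply add_ext
    intro m z
    show Ideal.Quotient.mk J (MvPolynomial.X ((k, j) : Ix n) ^ β * pi0 n i β (MvPolynomial.monomial m z)) =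
      Ideal.Quotient.mk J (MvPolynomial.X ((i, j) : Ix n) ^ β * sb n i k (pi0 n i β (MvPolynomial.monomial m z)))
    rw [pi0_mon]
    by_cases hb : β = Finsupp.weight (de n i) m
    · rw [if_pos hb, hb, mon_z, map_mul (sb n i k), sb_C]
      have e1 : (MvPolynomial.X ((k, j) : Ix n) : Po (Ix n)) ^ (Finsupp.weight (de n i) m) *
          (MvPolynomial.C z * MvPolynomial.monomial m 1) =
          MvPolynomial.C z * (MvPolynomial.X ((k, j) : Ix n) ^ (Finsupp.weight (de n i) m) * MvPolynomial.monomial m 1) := by
        ring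
      have e2 : (MvPolynomial.X ((i, j) : Ix n) : Po (Ix n)) ^ (Finsupp.weight (de n i) m) *
          (MvPolynomial.C z * sb n i k (MvPolynomial.monomial m 1)) =
          MvPolynomial.C z * (MvPolynomial.X ((i, j) : Ix n) ^ (Finsupp.weight (de n i) m) *
            sb n i k (MvPolynomial.monomial m 1)) := by
        ring
      rw [e1, e2, map_mul, minor_mon hJ, ← map_mul]
    · rw [if_neg hb, map_zero, mul_zero, mul_zero]
  exact congrArg (fun f : Po (Ix n) →+ Po (Ix n) ⧸ J => f p) h

end Gz_aux

end Pool.Agent.FY
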