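import Pool.Agent.Lib.MP_b53bfe_ag.Spec

/-!
# Theorem T1 (MP_b53bfe_ag), module JI: the index formula for two lattices
-/

set_option autoImplicit false

noncomputable section

namespace Pool.Agent.FY

open Polynomial

namespace JI_aux

variable {W : Type} [CommRing W] {f g : W} {I : Set W} {V : Type 1} [AddCommGroup V] {M : Type} [AddCommGroup M]
  [Module W M] {β : M ≃ₗ[W] M}

theorem of_surj (χ : AFun W I V) {A B : Type} [AddCommGroup A] [Module W A] [AddCommGroup B] [Module W B]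
    (φ : A →ₗ[W] B) (hφ : Function.Surjective φ) (N : Submodule W A) (hN : ∀ a, φ a = 0 ↔ a ∈ N)
    (hf : Module.Finite W B) (hk : Kil I B) : χ.f (A ⧸ N) = χ.f B := by
  have h : LinearMap.ker φ = N := by
    ext a
    rw [LinearMap.mem_ker]
    exact hN a
  subst h
  exact (χ.iso (LinearMap.quotKerEquivOfSurjective φ hφ).symm hf hk).symm

theorem of_bij (χ : AFun W I V) {A B : Type} [AddCommGroup A] [Module W A] [AddCommGroup B] [Module W B]
    (φ : A →ₗ[W] B) (hφ : Function.Bijective φ) (hf : Module.Finite W A) (hk : Kil I A) : χ.f A = χ.f B :=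
  χ.iso (LinearEquiv.ofBijective φ hφ) hf hk

theorem beta_smul (hR : Rel f g β) (w : M) : g • β w = -(f • w) := by
  rw [← map_smul, eq_neg_iff_add_eq_zero, add_comm]
  exact hR w

theorem f_smul (hR : Rel f g β) (w : M) : f • w = -(β (g • w)) := by
  rw [eq_neg_iff_add_eq_zero]
  exact hR w

theorem le_pl (L : Submodule W M) : L ≤ pl β L := le_sup_left

theorem beta_pl {L : Submodule W M} {w : M} (hw : w ∈ L) : β w ∈ pl β L :=
  Submodule.mem_sup_right (Submodule.mem_map.2 ⟨w, hw, rfl⟩)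

theorem mg_pl (hR : Rel f g β) {L : Submodule W M} {z : M} (hz : z ∈ pl β L) : mg M g z ∈ L := by
  rw [mg_apply]
  obtain ⟨x, hx, y, hy, rfl⟩ := Submodule.mem_sup.1 hz
  obtain ⟨w, hw, rfl⟩ := Submodule.mem_map.1 hy
  rw [smul_add]
  refine L.add_mem (L.smul_mem g hx) ?_
  have h := beta_smul hR w
  change g • β w ∈ L
  rw [h]
  exact L.neg_mem (L.smul_mem f hw)

theorem pl_mono {L₁ L₂ : Submodule W M} (h : L₁ ≤ L₂) : pl β L₁ ≤ pl β L₂ :=
  sup_le_sup h (Submodule.map_mono h)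

theorem pl_fg {L : Submodule W M} (h : L.FG) : (pl β L).FG := h.sup (h.map _)

/-- multiplication by `g` from `L⁺` to `L` -/
def aL (hR : Rel f g β) (L : Submodule W M) : ↥(pl β L) →ₗ[W] ↥L :=
  (mg M g).restrict fun _ hz => mg_pl hR hz

theorem aL_coe (hR : Rel f g β) (L : Submodule W M) (z : ↥(pl β L)) : ((aL hR L z : ↥L) : M) = g • (z : M) := rfl

/-- multiplication by `g` on the quotients -/
def aQ (hR : Rel f g β) (L₁ L₂ : Submodule W M) :
    (↥(pl β L₂) ⧸ (pl β L₁).submoduleOf (pl β L₂)) →ₗ[W] (↥L₂ ⧸ L₁.submoduleOf L₂) :=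
  Submodule.mapQ _ _ (aL hR L₂) fun z hz => by
    rw [Submodule.mem_comap]
    exact mg_pl hR (L := L₁) hz

theorem aQ_mk (hR : Rel f g β) (L₁ L₂ : Submodule W M) (z : ↥(pl β L₂)) :
    aQ hR L₁ L₂ (Submodule.Quotient.mk z) = Submodule.Quotient.mk (aL hR L₂ z) := rfl

theorem kil_of {I₀ : Set W} {A : Type} [AddCommGroup A] [Module W A] (h0 : Kil I₀ A) (hf : ∀ a : A, f • a = 0)
    (hg : ∀ a : A, g • a = 0) : Kil ({f, g} ∪ I₀) A := by
  intro r hr a
  rcases hr with (rfl | hr) | hr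
  · exact hf a
  · rw [Set.mem_singleton_iff] at hr
    rw [hr]
    exact hg a
  · exact h0 r hr a

theorem kil_sub {I₀ : Set W} {A : Type} [AddCommGroup A] [Module W A] (h0 : Kil I₀ A) (N : Submodule W A) :
    Kil I₀ N := fun r hr a => Subtype.ext (h0 r hr a)

theorem kil_quot {I₀ : Set W} {A : Type} [AddCommGroup A] [Module W A] (h0 : Kil I₀ A) (N : Submodule W A) :
    Kil I₀ (A ⧸ N) := by
  intro r hr a
  obtain ⟨b, rfl⟩ := N.mkQ_surjective a
  rw [← map_smul, h0 r hr b, map_zero]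

section Kills

variable {I₀ : Set W} (h0 : Kil I₀ M) (hR : Rel f g β) (L L₁ L₂ : Submodule W M)

include h0 in
theorem kil_ker : Kil ({f, g} ∪ I₀) (LinearMap.ker (aL hR L)) := by
  have hg : ∀ a : LinearMap.ker (aL hR L), g • ((a : ↥(pl β L)) : M) = 0 := by
    intro a
    rw [← aL_coe hR L, LinearMap.mem_ker.1 a.2]
    rfl
  refine kil_of (kil_sub (kil_sub h0 _) _) (fun a => ?_) fun a => ?_
  · apply Subtype.ext
    apply Subtype.ext
    change f • ((a : ↥(pl β L)) : M) = 0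
    rw [f_smul hR, hg a, map_zero, neg_zero]
  · apply Subtype.ext
    apply Subtype.ext
    exact hg a

include h0 in
theorem kil_coker : Kil ({f, g} ∪ I₀) (↥L ⧸ LinearMap.range (aL hR L)) := by
  refine kil_of (kil_quot (kil_sub h0 _) _) (fun a => ?_) fun a => ?_
  · obtain ⟨b, rfl⟩ := Submodule.mkQ_surjective _ a
    rw [← map_smul, Submodule.mkQ_apply, Submodule.Quotient.mk_eq_zero]
    refine ⟨-⟨β (b : M), beta_pl b.2⟩, ?_⟩
    rw [map_neg]
    apply Subtype.ext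
    change -(g • β (b : M)) = f • (b : M)
    rw [beta_smul hR, neg_neg]
  · obtain ⟨b, rfl⟩ := Submodule.mkQ_surjective _ a
    rw [← map_smul, Submodule.mkQ_apply, Submodule.Quotient.mk_eq_zero]
    exact ⟨⟨(b : M), le_pl L b.2⟩, rfl⟩

include h0 in
theorem kil_cokerQ : Kil ({f, g} ∪ I₀) ((↥L₂ ⧸ L₁.submoduleOf L₂) ⧸ LinearMap.range (aQ hR L₁ L₂)) := by
  intro r hr a
  obtain ⟨b, rfl⟩ := Submodule.mkQ_surjective _ a
  obtain ⟨c, rfl⟩ := Submodule.mkQ_surjective _ b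
  have h1 := kil_coker h0 hR L₂ r hr (Submodule.Quotient.mk c)
  rw [← Submodule.Quotient.mk_smul, Submodule.Quotient.mk_eq_zero] at h1
  obtain ⟨z, hz⟩ := h1
  rw [← map_smul, ← map_smul, Submodule.mkQ_apply, Submodule.Quotient.mk_eq_zero]
  refine ⟨Submodule.Quotient.mk z, ?_⟩
  rw [aQ_mk, hz]
  rfl

include h0 in
theorem kil_kerQ : Kil ({f, g} ∪ I₀) (LinearMap.ker (aQ hR L₁ L₂)) := by
  have key : ∀ z : ↥(pl β L₂), aQ hR L₁ L₂ (Submodule.Quotient.mk z) = 0 → g • (z : M) ∈ L₁ := by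
    intro z hz
    rw [aQ_mk, Submodule.Quotient.mk_eq_zero] at hz
    exact hz
  refine kil_of (kil_sub (kil_quot (kil_sub h0 _) _) _) (fun a => ?_) fun a => ?_
  · obtain ⟨a, ha⟩ := a
    obtain ⟨z, rfl⟩ := Submodule.mkQ_surjective _ a
    have h1 := key z (LinearMap.mem_ker.1 ha)
    apply Subtype.ext
    change f • (Submodule.mkQ _ z) = 0
    rw [← map_smul, Submodule.mkQ_apply, Submodule.Quotient.mk_eq_zero]
    change f • (z : M) ∈ pl β L₁
    rw [f_smul hR]
    exact neg_mem (beta_pl h1)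
  · obtain ⟨a, ha⟩ := a
    obtain ⟨z, rfl⟩ := Submodule.mkQ_surjective _ a
    have h1 := key z (LinearMap.mem_ker.1 ha)
    apply Subtype.ext
    change g • (Submodule.mkQ _ z) = 0
    rw [← map_smul, Submodule.mkQ_apply, Submodule.Quotient.mk_eq_zero]
    exact le_pl L₁ h1

end Kills

/-- `th` is an index. -/
theorem th_eq [IsNoetherianRing W] {I₀ : Set W} (χ : AFun W ({f, g} ∪ I₀) V) (h0 : Kil I₀ M) (hR : Rel f g β)
    (L : Submodule W M) (hL : L.FG) : th χ g β L = ind χ (aL hR L) := by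
  have f1 : Module.Finite W ↥L := Module.Finite.of_fg hL
  have f2 : Module.Finite W ↥(pl β L) := Module.Finite.of_fg (pl_fg hL)
  have e1 : χ.f (↥L ⧸ ((pl β L).map (mg M g)).submoduleOf L) = χ.f (↥L ⧸ LinearMap.range (aL hR L)) := by
    refine of_surj χ (Submodule.mkQ _) (Submodule.mkQ_surjective _) _ (fun a => ?_) inferInstance
      (kil_coker h0 hR L)
    rw [Submodule.mkQ_apply, Submodule.Quotient.mk_eq_zero]
    constructor
    · rintro ⟨z, rfl⟩
      exact Submodule.mem_map.2 ⟨(z : M), z.2, rfl⟩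
    · intro h
      obtain ⟨z, hz, hz2⟩ := Submodule.mem_map.1 (show (a : M) ∈ (pl β L).map (mg M g) from h)
      exact ⟨⟨z, hz⟩, Subtype.ext hz2⟩
  have e2 : χ.f (LinearMap.ker (aL hR L)) = χ.f ↥(pl β L ⊓ LinearMap.ker (mg M g)) := by
    refine of_bij χ (LinearMap.codRestrict (pl β L ⊓ LinearMap.ker (mg M g))
      ((pl β L).subtype ∘ₗ (LinearMap.ker (aL hR L)).subtype) fun z => ?_) ⟨?_, ?_⟩ inferInstance
      (kil_ker h0 hR L)
    · refine ⟨(z : ↥(pl β L)).2, ?_⟩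
      have h1 := congrArg (fun w : ↥L => (w : M)) (LinearMap.mem_ker.1 z.2)
      exact h1
    · intro z z' h
      have h1 := congrArg (fun w : ↥(pl β L ⊓ LinearMap.ker (mg M g)) => (w : M)) h
      exact Subtype.ext (Subtype.ext h1)
    · intro w
      refine ⟨⟨⟨(w : M), w.2.1⟩, ?_⟩, rfl⟩
      rw [LinearMap.mem_ker]
      exact Subtype.ext w.2.2
  unfold th ind
  rw [e1, e2]

/-- `ix` is an index. -/
theorem ix_eq [IsNoetherianRing W] {I₀ : Set W} (χ : AFun W ({f, g} ∪ I₀) V) (h0 : Kil I₀ M) (hR : Rel f g β)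
    (L₁ L₂ : Submodule W M) (hL : L₂.FG) : ix χ g β L₁ L₂ = ind χ (aQ hR L₁ L₂) := by
  have f1 : Module.Finite W ↥L₂ := Module.Finite.of_fg hL
  have f2 : Module.Finite W ↥(pl β L₂) := Module.Finite.of_fg (pl_fg hL)
  have e1 : χ.f (↥L₂ ⧸ (L₁ ⊔ (pl β L₂).map (mg M g)).submoduleOf L₂) =
      χ.f ((↥L₂ ⧸ L₁.submoduleOf L₂) ⧸ LinearMap.range (aQ hR L₁ L₂)) := by
    refine of_surj χ (Submodule.mkQ _ ∘ₗ Submodule.mkQ _)
      ((Submodule.mkQ_surjective _).comp (Submodule.mkQ_surjective _)) _ (fun a => ?_) inferInstance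
      (kil_cokerQ h0 hR L₁ L₂)
    rw [LinearMap.comp_apply, Submodule.mkQ_apply, Submodule.mkQ_apply, Submodule.Quotient.mk_eq_zero]
    constructor
    · rintro ⟨z, hz⟩
      obtain ⟨z, rfl⟩ := Submodule.mkQ_surjective _ z
      rw [Submodule.mkQ_apply, aQ_mk, Submodule.Quotient.eq] at hz
      have h1 : g • (z : M) - (a : M) ∈ L₁ := hz
      change (a : M) ∈ L₁ ⊔ (pl β L₂).map (mg M g)
      have e : (a : M) = -(g • (z : M) - (a : M)) + mg M g (z : M) := by
        rw [mg_apply]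
        abel
      rw [e]
      exact Submodule.add_mem_sup (neg_mem h1) (Submodule.mem_map.2 ⟨(z : M), z.2, rfl⟩)
    · intro h
      obtain ⟨x, hx, y, hy, hxy⟩ := Submodule.mem_sup.1
        (show (a : M) ∈ L₁ ⊔ (pl β L₂).map (mg M g) from h)
      obtain ⟨z, hz, rfl⟩ := Submodule.mem_map.1 hy
      refine ⟨Submodule.Quotient.mk ⟨z, hz⟩, ?_⟩
      rw [aQ_mk, Submodule.Quotient.eq]
      change g • z - (a : M) ∈ L₁
      rw [← hxy, mg_apply]
      have e : g • z - (x + g • z) = -x := by abel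
      rw [e]
      exact neg_mem hx
  have e2 : χ.f (↥(pl β L₂ ⊓ L₁.comap (mg M g)) ⧸ (pl β L₁).submoduleOf (pl β L₂ ⊓ L₁.comap (mg M g))) =
      χ.f (LinearMap.ker (aQ hR L₁ L₂)) := by
    refine of_surj χ (LinearMap.codRestrict (LinearMap.ker (aQ hR L₁ L₂))
      (Submodule.mkQ _ ∘ₗ Submodule.inclusion inf_le_left) fun z => ?_) ?_ _ (fun z => ?_) inferInstance
      (kil_kerQ h0 hR L₁ L₂)
    · rw [LinearMap.mem_ker, LinearMap.comp_apply, Submodule.mkQ_apply, aQ_mk, Submodule.Quotient.mk_eq_zero]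
      exact z.2.2
    · rintro ⟨a, ha⟩
      obtain ⟨z, rfl⟩ := Submodule.mkQ_surjective _ a
      have h1 : g • (z : M) ∈ L₁ := by
        rw [LinearMap.mem_ker, Submodule.mkQ_apply, aQ_mk, Submodule.Quotient.mk_eq_zero] at ha
        exact ha
      exact ⟨⟨(z : M), z.2, h1⟩, rfl⟩
    · constructor
      · intro h
        have h1 := congrArg (fun w : LinearMap.ker (aQ hR L₁ L₂) =>
          (w : ↥(pl β L₂) ⧸ (pl β L₁).submoduleOf (pl β L₂))) h
        have h2 : Submodule.inclusion inf_le_left z ∈ (pl β L₁).submoduleOf (pl β L₂) :=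
          (Submodule.Quotient.mk_eq_zero ((pl β L₁).submoduleOf (pl β L₂))).1 h1
        exact h2
      · intro h
        have h2 : Submodule.inclusion inf_le_left z ∈ (pl β L₁).submoduleOf (pl β L₂) := h
        apply Subtype.ext
        exact (Submodule.Quotient.mk_eq_zero ((pl β L₁).submoduleOf (pl β L₂))).2 h2
  unfold ix ind
  rw [e1, e2]

end JI_aux

open JI_aux

theorem tJI : S_Sn → S_JI := by
  intro hSn W _ _ f g I₀ V _ χ M _ _ β L₁ L₂ h0 hR hle h1 h2
  rw [th_eq χ h0 hR L₁ h1, th_eq χ h0 hR L₂ h2, ix_eq χ h0 hR L₁ L₂ h2]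
  have f1 : Module.Finite W ↥L₂ := Module.Finite.of_fg h2
  have f2 : Module.Finite W ↥(pl β L₂) := Module.Finite.of_fg (pl_fg h2)
  refine hSn W ({f, g} ∪ I₀) V χ ↥(pl β L₁) ↥(pl β L₂) _ ↥L₁ ↥L₂ _
    (Submodule.inclusion (pl_mono hle)) (Submodule.mkQ _) (Submodule.inclusion hle) (Submodule.mkQ _)
    (aL hR L₁) (aL hR L₂) (aQ hR L₁ L₂) f2 f1 (Submodule.inclusion_injective _) (Submodule.mkQ_surjective _)
    ?_ (Submodule.inclusion_injective _) (Submodule.mkQ_surjective _) ?_ (fun _ => rfl) (fun _ => rfl)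
    (kil_ker h0 hR L₁) (kil_coker h0 hR L₁) (kil_ker h0 hR L₂) (kil_coker h0 hR L₂)
    (kil_kerQ h0 hR L₁ L₂) (kil_cokerQ h0 hR L₁ L₂)
  · intro z
    rw [Submodule.mkQ_apply, Submodule.Quotient.mk_eq_zero]
    constructor
    · intro h
      exact ⟨⟨(z : M), h⟩, rfl⟩
    · rintro ⟨w, rfl⟩
      exact w.2
  · intro z
    rw [Submodule.mkQ_apply, Submodule.Quotient.mk_eq_zero]
    constructor
    · intro h
      exact ⟨⟨(z : M), h⟩, rfl⟩
    · rintro ⟨w, rfl⟩
      exact w.2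

end Pool.Agent.FY
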