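import Mathlib

/-!
# Graded quotients of polynomial rings
-/

set_option autoImplicit false

noncomputable section

namespace Pool.Agent.FY.Quo

open MvPolynomial

/-- additive projections give an internal direct sum -/
theorem isInternal_of_proj {ι M : Type*} [DecidableEq ι] [AddCommGroup M] (c : ι → M →+ M)
    (fin : ∀ m : M, {a : ι | c a m ≠ 0}.Finite) (sum : ∀ m : M, ∑ᶠ a : ι, c a m = m)
    (same : ∀ (a : ι) (m : M), c a (c a m) = c a m) (orth : ∀ (a b : ι) (m : M), a ≠ b → c a (c b m) = 0)
    (G : ι → AddSubgroup M) (hG : ∀ a m, m ∈ G a ↔ c a m = m) : DirectSum.IsInternal G := by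
  have key : ∀ (x : DirectSum ι fun i => G i) (a : ι), c a (DirectSum.coeAddMonoidHom G x) = (x a : M) := by
    intro x a
    induction x using DirectSum.induction_on with
    | zero => simp
    | of i y =>
      rw [DirectSum.coeAddMonoidHom_of]
      by_cases h : a = i
      · subst h
        rw [DirectSum.of_eq_same]
        exact (hG a y).1 y.2
      · rw [DirectSum.of_eq_of_ne _ _ _ h, ← (hG i y).1 y.2, orth a i _ h]
        rfl
    | add x y hx hy =>
      rw [map_add, map_add, hx, hy, DirectSum.add_apply, AddSubgroup.coe_add]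
  constructor
  · rw [injective_iff_map_eq_zero]
    intro x hx
    refine DFinsupp.ext fun a => Subtype.ext ?_
    have := key x a
    rw [hx, map_zero] at this
    exact this.symm
  · intro m
    refine ⟨∑ a ∈ (fin m).toFinset, DirectSum.of (fun i => G i) a ⟨c a m, (hG a _).2 (same a m)⟩, ?_⟩
    rw [map_sum]
    simp only [DirectSum.coeAddMonoidHom_of]
    rw [← finsum_eq_sum_of_support_subset (fun a => c a m) (s := (fin m).toFinset)]
    · exact sum m
    · intro a ha
      simpa using ha

section

variable {σ : Type} (w : σ → (Fin 3 → ℤ)) (A : Set (MvPolynomial σ ℂ))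

theorem span_stable (hA : ∀ r ∈ A, ∃ a, IsWeightedHomogeneous w r a) (a : Fin 3 → ℤ) (p : MvPolynomial σ ℂ)
    (hp : p ∈ Ideal.span A) : weightedHomogeneousComponent w a p ∈ Ideal.span A := by
  letI := weightedGradedAlgebra ℂ w
  refine weightedHomogeneousComponent_mem_of_mem ℂ w (Ideal.homogeneous_span _ _ fun r hr => ?_) hp a
  obtain ⟨b, hb⟩ := hA r hr
  exact ⟨b, hb⟩

/-- the component of degree `a + e` of `(S / span A)` -/
def comp (e a : Fin 3 → ℤ) : AddSubgroup (MvPolynomial σ ℂ ⧸ Ideal.span A) where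
  carrier := {x | ∃ p : MvPolynomial σ ℂ, IsWeightedHomogeneous w p (a + e) ∧ Ideal.Quotient.mk (Ideal.span A) p = x}
  add_mem' := by
    rintro _ _ ⟨p, hp, rfl⟩ ⟨q, hq, rfl⟩
    exact ⟨p + q, hp.add hq, map_add _ _ _⟩
  zero_mem' := ⟨0, isWeightedHomogeneous_zero _ _ _, map_zero _⟩
  neg_mem' := by
    rintro _ ⟨p, hp, rfl⟩
    exact ⟨-p, hp.neg, map_neg _ _⟩

/-- the projection of `S / span A` to the component of degree `a + e` -/
def prj (hA : ∀ r ∈ A, ∃ a, IsWeightedHomogeneous w r a) (e a : Fin 3 → ℤ) :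
    (MvPolynomial σ ℂ ⧸ Ideal.span A) →+ (MvPolynomial σ ℂ ⧸ Ideal.span A) :=
  QuotientAddGroup.map (Ideal.span A).toAddSubgroup (Ideal.span A).toAddSubgroup
    (weightedHomogeneousComponent w (a + e)).toAddMonoidHom (fun p hp => span_stable w A hA (a + e) p hp)

theorem prj_mk (hA : ∀ r ∈ A, ∃ a, IsWeightedHomogeneous w r a) (e a : Fin 3 → ℤ) (p : MvPolynomial σ ℂ) :
    prj w A hA e a (Ideal.Quotient.mk (Ideal.span A) p) =
      Ideal.Quotient.mk (Ideal.span A) (weightedHomogeneousComponent w (a + e) p) := rfl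

theorem mem_comp (hA : ∀ r ∈ A, ∃ a, IsWeightedHomogeneous w r a) (e a : Fin 3 → ℤ) (x : MvPolynomial σ ℂ ⧸ Ideal.span A) :
    x ∈ comp w A e a ↔ prj w A hA e a x = x := by
  constructor
  · rintro ⟨p, hp, rfl⟩
    rw [prj_mk, hp.weightedHomogeneousComponent_same]
  · intro h
    obtain ⟨p, rfl⟩ := Ideal.Quotient.mk_surjective x
    rw [prj_mk] at h
    exact ⟨_, weightedHomogeneousComponent_isWeightedHomogeneous _ _, h⟩

theorem isInternal_comp (hA : ∀ r ∈ A, ∃ a, IsWeightedHomogeneous w r a) (e : Fin 3 → ℤ) :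
    DirectSum.IsInternal (comp w A e) := by
  refine isInternal_of_proj (prj w A hA e) (fun m => ?_) (fun m => ?_) (fun a m => ?_) (fun a b m hab => ?_) _
    (fun a m => mem_comp w A hA e a m)
  · obtain ⟨p, rfl⟩ := Ideal.Quotient.mk_surjective m
    have h1 : (Function.support fun a : Fin 3 → ℤ => weightedHomogeneousComponent w (a + e) p).Finite := by
      have h2 := (weightedHomogeneousComponent_finsupp (w := w) p).preimage (f := fun a : Fin 3 → ℤ => a + e)
        (fun x _ y _ hxy => add_right_cancel hxy)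
      exact h2
    refine h1.subset fun a ha => ?_
    intro h0
    refine ha ?_
    show prj w A hA e a _ = 0
    have h0' : weightedHomogeneousComponent w (a + e) p = 0 := h0
    rw [prj_mk, h0', map_zero]
  · obtain ⟨p, rfl⟩ := Ideal.Quotient.mk_surjective m
    have h1 : (Function.support fun a : Fin 3 → ℤ => weightedHomogeneousComponent w (a + e) p).Finite := by
      have h2 := (weightedHomogeneousComponent_finsupp (w := w) p).preimage (f := fun a : Fin 3 → ℤ => a + e)
        (fun x _ y _ hxy => add_right_cancel hxy)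
      exact h2
    have h3 : ∑ᶠ a : Fin 3 → ℤ, weightedHomogeneousComponent w (a + e) p = p := by
      have h5 := finsum_comp_equiv (Equiv.addRight e) (f := fun a => weightedHomogeneousComponent w a p)
      exact h5.trans (sum_weightedHomogeneousComponent w p)
    have h4 := ((Ideal.Quotient.mk (Ideal.span A)).toAddMonoidHom).map_finsum h1
    simp only [prj_mk]
    refine h4.symm.trans ?_
    rw [h3]
    rfl
  · obtain ⟨p, rfl⟩ := Ideal.Quotient.mk_surjective m
    rw [prj_mk, prj_mk, (weightedHomogeneousComponent_isWeightedHomogeneous _ _).weightedHomogeneousComponent_same]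
  · obtain ⟨p, rfl⟩ := Ideal.Quotient.mk_surjective m
    rw [prj_mk, prj_mk, (weightedHomogeneousComponent_isWeightedHomogeneous _ _).weightedHomogeneousComponent_ne _
      (fun h => hab (add_right_cancel h)), map_zero]

end

end Pool.Agent.FY.Quo
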