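import Pool.Agent.Lib.MP_b53bfe_ag.Defs

/-!
# Theorem T1 (MP_b53bfe_ag): the small diagonal of a Fermat hypersurface of degree `d ≤ n + 2`

The paper proof is note 4348. Every module proves one theorem `tXyz : (hypotheses →) S_Xyz` in its own file
`Pool/Agent/Lib/MP_b53bfe_ag/Xyz.lean` (namespace `Pool.Agent.FY`, import only this file and what the task says). `S_...` may be used as hypotheses
in the order of the tasks. The index lemma and the lattices come first (part J), then the polynomial variables (part H), the twist (part T), the curve (part D), the localisation (part L).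

Conventions: rings and modules in `Type`, values in `V : Type 1`. `Res φ M` = `M` with scalars restricted along `φ` (a type synonym, with
`Res.mk`, `Res.val`, `Res.map`, `Res.equiv`). `mg M g` = multiplication by `g` on `M`. For a submodule `L` of `M` the image of `x` in quotients etc. is as in Mathlib.
-/

set_option autoImplicit false

noncomputable section

namespace Pool.Agent.FY

open Polynomial

/-! ## Part J: the index and the lattices -/

/-- **Sn**. The index is additive. Put `K_i = ker a_i`, `C_i = Q_i / range a_i`. By the snake lemma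
`0 → K₁ → K₂ → K₃ → C₁ → C₂ → C₃ → 0` is exact. Cut it in short exact sequences: with `X = range (K₂ → K₃) ≤ K₃` and
`Y = range (C₁ → C₂) ≤ C₂`: `χ K₂ = χ K₁ + χ X`, `χ K₃ = χ X + χ (K₃ / X)`, `K₃ / X ≃ Z = ker (C₁ → C₂) ≤ C₁`, `χ C₁ = χ Z + χ Y`,
`χ C₂ = χ Y + χ C₃`. All these modules are finite (`R` is noetherian, `P₂`, `Q₂` are finite, so `P₁`, `P₃`, `Q₁`, `Q₃` also) and killed by `I`. Mathlib has the
snake lemma: `SnakeLemma.δ`, `SnakeLemma.exact_δ_left`, `SnakeLemma.exact_δ_right` (in `Mathlib/Algebra/Module/SnakeLemma.lean`); the other exactness statements are easy chases. -/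
def S_Sn : Prop :=
  ∀ (R : Type) [CommRing R] [IsNoetherianRing R] (I : Set R) (V : Type 1) [AddCommGroup V] (χ : AFun R I V)
    (P₁ P₂ P₃ Q₁ Q₂ Q₃ : Type) [AddCommGroup P₁] [Module R P₁] [AddCommGroup P₂] [Module R P₂] [AddCommGroup P₃] [Module R P₃]
    [AddCommGroup Q₁] [Module R Q₁] [AddCommGroup Q₂] [Module R Q₂] [AddCommGroup Q₃] [Module R Q₃]
    (i : P₁ →ₗ[R] P₂) (p : P₂ →ₗ[R] P₃) (j : Q₁ →ₗ[R] Q₂) (q : Q₂ →ₗ[R] Q₃)
    (a₁ : P₁ →ₗ[R] Q₁) (a₂ : P₂ →ₗ[R] Q₂) (a₃ : P₃ →ₗ[R] Q₃),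
    Module.Finite R P₂ → Module.Finite R Q₂ →
    Function.Injective i → Function.Surjective p → Function.Exact i p →
    Function.Injective j → Function.Surjective q → Function.Exact j q →
    (∀ x, j (a₁ x) = a₂ (i x)) → (∀ x, q (a₂ x) = a₃ (p x)) →
    Kil I (LinearMap.ker a₁) → Kil I (Q₁ ⧸ LinearMap.range a₁) →
    Kil I (LinearMap.ker a₂) → Kil I (Q₂ ⧸ LinearMap.range a₂) →
    Kil I (LinearMap.ker a₃) → Kil I (Q₃ ⧸ LinearMap.range a₃) →
    ind χ a₂ = ind χ a₁ + ind χ a₃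

/-- **JN** (noetherian stabilisation). For `m ≥ m₀`: if `x` and `β x` are in `L_{m+1}`, then `x ∈ L_m` (`L_m = Lm β L m = L + β L + ... + β ^ m L`).
PROOF. `K_m = {x ∈ L₁ : β ^ m x ∈ L_m}` is an increasing sequence of submodules of the noetherian module `L₁ = Lm β L 1`
(`β ^ m x ∈ L_m` implies `β ^ (m+1) x ∈ β L_m ≤ L_{m+1}`), so `K_m = K_{m+1}` for `m ≥ m₀`. Let `x, β x ∈ L_{m+1}`. As `L_{m+1} = L_m + β ^ m L₁`
(induction: `L_{m+1} = L_m + β L_m = L_m + β (L_{m-1} + β ^ (m-1) L₁)`), `x = y + β ^ m z`, `y ∈ L_m`, `z ∈ L₁`. Then `β ^ (m+1) z = β x - β y ∈ L_{m+1}`, so `z ∈ K_{m+1} = K_m`, `β ^ m z ∈ L_m`, `x ∈ L_m`. -/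
def S_JN : Prop :=
  ∀ (W : Type) [CommRing W] [IsNoetherianRing W] (M : Type) [AddCommGroup M] [Module W M] (β : M ≃ₗ[W] M) (L : Submodule W M),
    L.FG → ∃ m₀ : ℕ, ∀ m ≥ m₀, ∀ x ∈ Lm β L (m + 1), β x ∈ Lm β L (m + 1) → x ∈ Lm β L m

/-- **JI** (index formula). `f + β g = 0` on `M`, so `g (x + β y) = g x - f y`: multiplication by `g` maps `L⁺ = pl β L` to `L`, and the kernel and the cokernel are killed by
`f`, `g` (for `z ∈ ker`: `f z = - β (g z) = 0`; for `y ∈ L`: `g y ∈ g L⁺`, `f y = - g (β y) ∈ g L⁺`) and `I₀`. `th χ g β L` is its index. For `L₁ ≤ L₂` apply `S_Sn` to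
`0 → L₁⁺ → L₂⁺ → L₂⁺ / L₁⁺ → 0` and `0 → L₁ → L₂ → L₂ / L₁ → 0`. The kernel and cokernel of `g : L₂⁺ / L₁⁺ → L₂ / L₁` are
(up to isomorphism) the two modules in `ix`; they are killed by `f` and `g`: for `z ∈ L₂⁺`, `g z ∈ L₁` one has `g z ∈ L₁⁺`, `f z = - β (g z) ∈ L₁⁺`. -/
def S_JI : Prop :=
  ∀ (W : Type) [CommRing W] [IsNoetherianRing W] (f g : W) (I₀ : Set W) (V : Type 1) [AddCommGroup V]
    (χ : AFun W ({f, g} ∪ I₀) V) (M : Type) [AddCommGroup M] [Module W M] (β : M ≃ₗ[W] M) (L₁ L₂ : Submodule W M),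
    Kil I₀ M → Rel f g β → L₁ ≤ L₂ → L₁.FG → L₂.FG → th χ g β L₂ = th χ g β L₁ + ix χ g β L₁ L₂

/-- **J1**. If (G) `x, β x ∈ L⁺ ⟹ x ∈ L`, then `th L⁺ = th L`. PROOF. By `S_JI` (with `L₂ = L⁺`) it is enough that `ix χ g β L L⁺ = 0`. `Q = L⁺ / L` is killed by `g` (`g L⁺ ≤ L`) and `I₀`.
`β` induces an isomorphism `Q ≃ L⁺⁺ / L⁺` (injective by (G)), and `g ∘ β = - f`. So the two modules of `ix` are isomorphic to `Q / f Q` and `ker (f | Q)`: 
`L + g L⁺⁺ = L + g L⁺ + g β L⁺ = L + f L⁺` (in `L⁺`), and `{z ∈ L⁺⁺ : g z ∈ L} / L⁺ ≃ {x ∈ L⁺ : f x ∈ L} / L` by `x ↦ β x`. Use `St χ I₀ g f`. -/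
def S_J1 : Prop :=
  ∀ (W : Type) [CommRing W] [IsNoetherianRing W] (f g : W) (I₀ : Set W) (V : Type 1) [AddCommGroup V]
    (χ : AFun W ({f, g} ∪ I₀) V) (M : Type) [AddCommGroup M] [Module W M] (β : M ≃ₗ[W] M) (L : Submodule W M),
    Kil I₀ M → Rel f g β → L.FG → St χ I₀ g f → (∀ x ∈ pl β L, β x ∈ pl β L → x ∈ L) → th χ g β (pl β L) = th χ g β L

/-- **J2**. `L ≤ L' ≤ L + β L` implies `th (L'_m) = th (L_m)` for `m ≥ m₀`. PROOF. `m₀` from `S_JN` for `L`. Note `L_m ≤ L'_m ≤ L_{m+1}` (`Lm` is monotone in `L` and `Lm β (pl β L) m = Lm β L (m+1)`). By `S_JI`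
(for `L_m ≤ L'_m`) the difference is `ix χ g β L_m L'_m`. `P = L'_m / L_m` is killed by `g` (`g L_{m+1} ≤ L_m`) and `I₀`. `β` induces a map `P → L'_{m+1} / L_{m+1}` (`pl β L'_m = L'_{m+1}`),
surjective since `L'_{m+1} = L'_m + β L'_m` and `L'_m ≤ L_{m+1}`, injective since `x ∈ L'_m ≤ L_{m+1}`, `β x ∈ L_{m+1}` imply `x ∈ L_m`. As `g β = - f`, the two modules of `ix` are
`P / f P` and `ker (f | P)`. Use `St χ I₀ g f`. -/
def S_J2 : Prop :=
  ∀ (W : Type) [CommRing W] [IsNoetherianRing W] (f g : W) (I₀ : Set W) (V : Type 1) [AddCommGroup V]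
    (χ : AFun W ({f, g} ∪ I₀) V) (M : Type) [AddCommGroup M] [Module W M] (β : M ≃ₗ[W] M) (L L' : Submodule W M),
    Kil I₀ M → Rel f g β → L.FG → L'.FG → St χ I₀ g f → L ≤ L' → L' ≤ pl β L →
    ∃ m₀ : ℕ, ∀ m ≥ m₀, th χ g β (Lm β L' m) = th χ g β (Lm β L m)

/-- **J3**. `L ≤ L' ≤ L + β⁻¹ L` implies `th (L'_m) = th (L_m)` for `m ≥ m₀`. PROOF. `m₀` from `S_JN` for `L`. Here `β L'_m ≤ L_{m+1}` (as `β L' ≤ pl β L`). Difference: `ix χ g β L_m L'_m`.
`P = L'_m / L_m` is killed by `f`: for `x ∈ L'_m`, `β x ∈ L_{m+1}`, `g (β x) ∈ L_m` and `f x = - g (β x)`. The inclusion induces `P → L'_{m+1} / L_{m+1}`: surjective as `L'_{m+1} = L'_m + β L'_m` and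
`β L'_m ≤ L_{m+1}`; injective: `x ∈ L'_m ∩ L_{m+1}` has `β x ∈ L_{m+1}`, so `x ∈ L_m`. So the two modules of `ix` are isomorphic to `P / g P` (`L_m + g L'_{m+1} = L_m + g L'_m`, as `g L_{m+1} ≤ L_m`) and `ker (g | P)`. Use `St χ I₀ f g`. -/
def S_J3 : Prop :=
  ∀ (W : Type) [CommRing W] [IsNoetherianRing W] (f g : W) (I₀ : Set W) (V : Type 1) [AddCommGroup V]
    (χ : AFun W ({f, g} ∪ I₀) V) (M : Type) [AddCommGroup M] [Module W M] (β : M ≃ₗ[W] M) (L L' : Submodule W M),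
    Kil I₀ M → Rel f g β → L.FG → L'.FG → St χ I₀ f g → L ≤ L' → L'.map β.toLinearMap ≤ pl β L →
    ∃ m₀ : ℕ, ∀ m ≥ m₀, th χ g β (Lm β L' m) = th χ g β (Lm β L m)

/-- **J4**. `th (Lm β L m)` is constant for large `m` and does not depend on the generating lattice. PROOF. Write `L ~ L'` if `th (L_m) = th (L'_m)` for all large `m`. By `S_JN`, `S_J1`: `th (L_{m+1}) = th (L_m)` for `m ≥ m₀` (`L_{m+1} = pl β L_m`).
Also `L ~ L_a` for all `a` and `L ~ L.map β` (`th` of `L.map β` is `th` of `L`: `β` is an isomorphism commuting with everything). First let `L ≤ L''`, both generating. There is `a` with `L'' ≤ ∑_{|i| ≤ a} β ^ i L` (`L''` is finitely generated), i.e. `β ^ a L'' ≤ Lm β L (2a)` (after enlarging `a`).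
`V_j = L'' + ∑_{i ≤ j} β ^ (-i) L`: `V_0 = L''`, `V_j ≤ V_{j+1}`, `β V_{j+1} ≤ pl β V_j`, so `V_j ~ V_{j+1}` by `S_J3`. `U_j = V_a + Lm β L j`: `U_0 = V_a`, `U_{j+1} ≤ pl β U_j`, so `U_j ~ U_{j+1}` by `S_J2`. `U_a = ∑_{|i| ≤ a} β ^ i L` is the image
of `Lm β L (2a)` under `β ^ (-a)`, so `L'' ~ U_a ~ L`. In general `L ~ L + L' ~ L'`. -/
def S_J4 : Prop :=
  ∀ (W : Type) [CommRing W] [IsNoetherianRing W] (f g : W) (I₀ : Set W) (V : Type 1) [AddCommGroup V]
    (χ : AFun W ({f, g} ∪ I₀) V) (M : Type) [AddCommGroup M] [Module W M] (β : M ≃ₗ[W] M),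
    Kil I₀ M → Rel f g β → St χ I₀ g f → St χ I₀ f g → LFin β →
    ∃ v : V, ∀ L : Submodule W M, L.FG → Gen β L → ∃ m₀ : ℕ, ∀ m ≥ m₀, th χ g β (Lm β L m) = v

/-- **J5** (exact sequences). PROOF. `E_m = L_{m+1} / L_m` (`L_m = Lm β L m`); by `S_JN` the map `E_m → E_{m+1}` induced by `β` is injective (and always surjective) for `m ≥ m₀`. Put `Q_m = L_m ⊓ range i`.
CLAIM: there is `m₁` with `Q_{m+1} = Q_m + β Q_m` for `m ≥ m₁`. `C_m = (Q_{m+1} + L_m) / L_m ≤ E_m`, `β C_m ≤ C_{m+1}`; so the submodules `D_m = {x ∈ L_{m₀+1} : β ^ (m-m₀) x ∈ Q_{m+1} + L_m}` of the noetherian module `L_{m₀+1}` increase, so `D_m = D_{m+1}` for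
`m ≥ m₁`. Let `z ∈ Q_{m+2}`. As `L_{m+2} = L_{m+1} + β ^ (m+1-m₀) L_{m₀+1}`, `z = l + β ^ (m+1-m₀) x` and `x ∈ D_{m+1} = D_m`, so `β ^ (m-m₀) x = q + l'`, `q ∈ Q_{m+1}`, `l' ∈ L_m`, so `z - β q = l + β l' ∈ L_{m+1}` is in `Q_{m+1}`.
Put `L_A = (Lm β L m₁).comap i`, `L_C = L.map p`. Then `Lm α L_A m = (Lm β L (m₁ + m)).comap i`, `Lm γ L_C m = (Lm β L m).map p`, `L_A`, `L_C` are finitely generated and generating. Finally `S_Sn` for `g : L_{m+1} → L_m` and its restrictions: `0 → Lm α L_A (m+1) → Lm β L (m₁+m+1) → Lm γ L_C (m₁+m+1) → 0`. -/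
def S_J5 : Prop :=
  ∀ (W : Type) [CommRing W] [IsNoetherianRing W] (f g : W) (I₀ : Set W) (V : Type 1) [AddCommGroup V]
    (χ : AFun W ({f, g} ∪ I₀) V) (A B C : Type) [AddCommGroup A] [Module W A] [AddCommGroup B] [Module W B] [AddCommGroup C] [Module W C]
    (α : A ≃ₗ[W] A) (β : B ≃ₗ[W] B) (γ : C ≃ₗ[W] C) (i : A →ₗ[W] B) (p : B →ₗ[W] C), Kil I₀ B → Rel f g β →
    (∀ a, i (α a) = β (i a)) → (∀ b, p (β b) = γ (p b)) →
    Function.Injective i → Function.Surjective p → Function.Exact i p → ∀ L : Submodule W B, L.FG → Gen β L →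
    ∃ (m₁ : ℕ) (LA : Submodule W A) (LC : Submodule W C), LA.FG ∧ Gen α LA ∧ LC.FG ∧ Gen γ LC ∧
      ∀ m : ℕ, th χ g β (Lm β L (m₁ + m)) = th χ g α (Lm α LA m) + th χ g γ (Lm γ LC (m₁ + m))

/-- **Jx** (lemma J). PROOF. `Ψ.F M β := v` from `S_J4` if `Kil I₀ M`, `Rel f g β`, `LFin β`, and `0` otherwise. Additivity: `S_J5` (and `Kil I₀`, `Rel` for `A`, `C` follow from `B`). -/
def S_Jx : Prop :=
  ∀ (W : Type) [CommRing W] [IsNoetherianRing W] (f g : W) (I₀ : Set W) (V : Type 1) [AddCommGroup V]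
    (χ : AFun W ({f, g} ∪ I₀) V), St χ I₀ g f → St χ I₀ f g → ∃ Ψ : BFun W f g I₀ V, Cmp χ Ψ

/-! ## Part H: polynomial variables -/

/-- **Hr** (resolution). PROOF. Let `P ≤ M` be a finitely generated `A`-submodule which generates `M` over `A[X]`, `P_m = P + X P + ... + X ^ m P`. `x ↦ X ^ m x` maps `P₁ → P_{m+1} / P_m`, its kernels `{x ∈ P_1 : X ^ m x ∈ P_m}` increase, so they are
constant for `m ≥ m₀`; as in `S_JN`: for `m ≥ m₀`, `x ∈ P_{m+1}` and `X x ∈ P_{m+1}` imply `x ∈ P_m`; hence (induction on `k`, downwards) `x ∈ P_{m+1}`, `X ^ k x ∈ P_{m+k}` with `k ≥ 1` imply `x ∈ P_m`. Take `P₂ = P_{m+1}`, `P₁ = P_m`, `m = m₀`, `p (∑ u_k X ^ k) = ∑ X ^ k u_k`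
and `i (∑ v_k X ^ k) = ∑ (X v_k) X ^ k - ∑ v_k X ^ (k+1)` (that is `X v - v X`). `p` is onto since `P` generates. `p ∘ i = 0`. `i` is injective: look at the top coefficient `- v_k`. Exactness: let `∑_{k ≤ n} X ^ k u_k = 0`, `u_k ∈ P_{m+1}`. If `n = 0`, `u_0 = 0`. If `n ≥ 1`:
`X ^ n u_n = - ∑_{k<n} X ^ k u_k ∈ P_{m+n}`, so `u_n ∈ P_m`; add `i (u_n X ^ (n-1))`: this kills the coefficient of `X ^ n`. Induction on `n`. -/
def S_Hr : Prop :=
  ∀ (A : Type) [CommRing A] [IsNoetherianRing A] (M : Type) [AddCommGroup M] [Module A[X] M], Module.Finite A[X] M →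
    ∃ (P₁ P₂ : Type) (_ : AddCommGroup P₁) (_ : Module A P₁) (_ : AddCommGroup P₂) (_ : Module A P₂)
      (i : PolynomialModule A P₁ →ₗ[A[X]] PolynomialModule A P₂) (p : PolynomialModule A P₂ →ₗ[A[X]] M),
      Module.Finite A P₁ ∧ Module.Finite A P₂ ∧
      (∀ a : A, (∀ m : M, (C a : A[X]) • m = 0) → (∀ x : P₁, a • x = 0) ∧ ∀ x : P₂, a • x = 0) ∧
      Function.Injective i ∧ Function.Surjective p ∧ Function.Exact i p

/-- **Ha** (fibre formula for `A[X]`). `ρ M := ψ ((M / X M)[X]) - ψ ((ker X)[X])`, where for an `A[X]`-module `N` the module `N[X]` (an `A[X]`-module on which `A` acts through the coefficients and `X` by shifting) is `Res (mapRingHom C) (PolynomialModule A[X] N)`.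
PROOF. `N ↦ N[X]` is exact, and `ρ` is additive by the snake lemma (`ρ M` is the index (`ind`) of `X : M → M` for the additive function `N ↦ ψ (N[X])` on the finite `A[X]`-modules killed by `X` and `C '' J`; use `S_Sn`; `N[X]` is finite over `A[X]`, since `N` is finite over `A` when `X` kills `N`).
For `M = PolynomialModule A P` (`P` finite over `A`): `ker X = 0`, `M / X M ≃ P` and `(M / X M)[X] ≃ M`, so `ρ M = ψ M`. In general apply `ψ` and `ρ` to the resolution `S_Hr`. -/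
def S_Ha : Prop :=
  ∀ (A : Type) [CommRing A] [IsNoetherianRing A] (J : Set A) (V : Type 1) [AddCommGroup V] (ψ : AFun A[X] ((C : A → A[X]) '' J) V)
    (M : Type) [AddCommGroup M] [Module A[X] M], Module.Finite A[X] M → Kil ((C : A → A[X]) '' J) M →
    ψ.f M = ψ.f (Res (mapRingHom (C : A →+* A[X])) (PolynomialModule A[X] (M ⧸ LinearMap.range (mg M (X : A[X]))))) -
      ψ.f (Res (mapRingHom (C : A →+* A[X])) (PolynomialModule A[X] (LinearMap.ker (mg M (X : A[X])))))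

/-- **Hb** (fibre formula for the variable `X_i`). PROOF. Transport `S_Ha` along the isomorphism `e : Po σ ≃ A[X]`, `A = Po {j // j ≠ i}`, `X_i ↦ X`, `X_j ↦ C X_j` (`MvPolynomial.renameEquiv` with `σ ≃ Option {j // j ≠ i}` and `MvPolynomial.optionEquivLeft`). The elements `r` of `I` satisfy
`nu i r = C r`, so they come from `A` (`NI i r` iff `e r` is constant). For an `A[X]`-module `N` let `ψ'.f N = ψ.f (Res e N)`; under `e` the module `Ex i N` corresponds to `N[X]` of `S_Ha` (both are finitely supported functions `ℕ →₀ N`, with the same action). -/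
def S_Hb : Prop :=
  ∀ (σ : Type) [Finite σ] [DecidableEq σ] (i : σ) (I : Set (Po σ)) (V : Type 1) [AddCommGroup V] (ψ : AFun (Po σ) I V)
    (M : Type) [AddCommGroup M] [Module (Po σ) M], (∀ r ∈ I, NI i r) → Module.Finite (Po σ) M → Kil I M →
    ψ.f M = ψ.f (Ex i (M ⧸ LinearMap.range (mg M (MvPolynomial.X i : Po σ)))) -
      ψ.f (Ex i (LinearMap.ker (mg M (MvPolynomial.X i : Po σ))))

/-- **Hg** (invariance under `X_i ↦ z X_i`, `z ≠ 0`). PROOF. Apply `S_Hb` to `M` and to `Res (gz i z) M`. The submodules `X_i M` and `ker X_i` are the same for both (`X_i` acts on the second as `z X_i`), and on modules killed by `X_i` the two actions of `Po σ` agree (`gz i z r - r` is a multiple of `X_i`), so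
the modules `Ex i (...)` are isomorphic. `Res (gz i z) M` is finite since `gz i z` is onto, and killed by `I` (`gz i z r = r` if `NI i r`). -/
def S_Hg : Prop :=
  ∀ (σ : Type) [Finite σ] [DecidableEq σ] (i : σ) (I : Set (Po σ)) (V : Type 1) [AddCommGroup V] (ψ : AFun (Po σ) I V)
    (z : ℂ) (M : Type) [AddCommGroup M] [Module (Po σ) M], z ≠ 0 → (∀ r ∈ I, NI i r) → Module.Finite (Po σ) M → Kil I M →
    ψ.f (Res (gz i z) M) = ψ.f M

/-- **Hk**. If `M` is killed by `X_i ^ d + g` with `g` not involving `X_i` (`1 ≤ d`), then `ψ M = 0`. PROOF. Let `A = {r : NI i r}` (the polynomials in the other variables). `M` is finite over `A`, so `M[X_i] := Ex i (Res (gz i 0) M)` (`gz i 0`: `X_i ↦ 0`; `A` acts on the coefficients) is a finite `Po σ`-module, killed by `I`.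
The sequence `0 → M[X_i] → M[X_i] → M → 0`, `u ↦ x u - X u` (`x` = the action of `X_i` on `M`, coefficientwise, `X` = the shift), `∑ u_k X ^ k ↦ ∑ x ^ k u_k`, is exact (as in `S_Hr`: division by `X - x`), so `ψ M = 0`. -/
def S_Hk : Prop :=
  ∀ (σ : Type) [Finite σ] [DecidableEq σ] (i : σ) (I : Set (Po σ)) (V : Type 1) [AddCommGroup V] (ψ : AFun (Po σ) I V)
    (d : ℕ) (g : Po σ) (M : Type) [AddCommGroup M] [Module (Po σ) M], 1 ≤ d → NI i g → (∀ r ∈ I, NI i r) →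
    Module.Finite (Po σ) M → Kil I M → (∀ m : M, (MvPolynomial.X i ^ d + g : Po σ) • m = 0) → ψ.f M = 0

/-- **Tha**. The functor `P ↦ P[X_i] / (X_i ^ d + g)`. PROOF. Put `ψ.f P := χ.f (Th i d g P)`. For `P` finite and killed by `X_i` and `I₀`: `Th i d g P` is finite over `Po σ` (generated by the constants from generators of `P`), killed by `X_i ^ d + g` (`nu i` of it is `X ^ d + C g`) and by `I₀` (`nu i r = C r`).
Exactness of `P ↦ PolynomialModule P / (X ^ d + C g)` (a sequence of `Po σ`-modules `0 → A → B → C → 0` gives an exact sequence): clear for `PolynomialModule`; multiplication by the monic polynomial `X ^ d + C g` is injective on `PolynomialModule P` for every `P` (top coefficient), so the snake lemma (or a direct chase) gives it. -/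
def S_Tha : Prop :=
  ∀ (σ : Type) [Finite σ] [DecidableEq σ] (i : σ) (I₀ : Set (Po σ)) (V : Type 1) [AddCommGroup V] (d : ℕ) (g : Po σ)
    (χ : AFun (Po σ) (insert (MvPolynomial.X i ^ d + g) I₀) V), 1 ≤ d → NI i g → (∀ r ∈ I₀, NI i r) →
    ∃ ψ : AFun (Po σ) (insert (MvPolynomial.X i) I₀) V,
      ∀ (P : Type) [AddCommGroup P] [Module (Po σ) P], ψ.f P = χ.f (Th i d g P)

/-- **Ths** (sum over the twists). `ζ` is a primitive `d`-th root of unity. PROOF. `M` is killed by `x ^ d + g` (`x` = the action of `X_i`), so on `PolynomialModule M` one has `X ^ d + C g = X ^ d - C (X_i) ^ d = ∏_{m<d} (X - C (ζ ^ m X_i))`. For `q = ∏_{m<k} (X - C (ζ ^ m X_i))` one shows by induction on `k`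
`χ.f (Res (nu i) (PolynomialModule M / q)) = ∑_{m<k} χ.f (Res (gz i (ζ ^ m)) M)`: multiplication by `q` is injective on `PolynomialModule M` (monic), so `0 → PM / (X - C (ζ ^ k X_i)) → PM / q (X - C ..) → PM / q → 0` is exact, and `PM / (X - C (z X_i)) ≃ M`, on which `Po σ` (by `nu i`) acts by `gz i z`.
Finally `Th i d g (Res (gz i 0) M)` is the same module as `Res (nu i) (PolynomialModule M / (X ^ d + C g))`, because the coefficients of `nu i r` and `g` do not involve `X_i`, so that `gz i 0` fixes them. (These modules are finite and killed by the required elements.) -/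
def S_Ths : Prop :=
  ∀ (σ : Type) [Finite σ] [DecidableEq σ] (i : σ) (I₀ : Set (Po σ)) (V : Type 1) [AddCommGroup V] (d : ℕ) (g : Po σ)
    (χ : AFun (Po σ) (insert (MvPolynomial.X i ^ d + g) I₀) V) (ζ : ℂ), 1 ≤ d → NI i g → (∀ r ∈ I₀, NI i r) → IsPrimitiveRoot ζ d →
    ∀ (M : Type) [AddCommGroup M] [Module (Po σ) M], Module.Finite (Po σ) M → Kil (insert (MvPolynomial.X i ^ d + g) I₀) M →
      ∑ m ∈ Finset.range d, χ.f (Res (gz i (ζ ^ m)) M) = χ.f (Th i d g (Res (gz i 0) M))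

/-- **Kv** (modules killed by a variable). `F = X_i ^ d + (X_j ^ d + g')`. PROOF. `g = X_j ^ d + g'`, `ψ` from `S_Tha`. `N` is killed by `X_i` and `F`, so by `g`. `Th i d g N = PolynomialModule N / (X ^ d)` (as `C g` is zero on it) has the filtration by `X ^ k`, with `d` quotients isomorphic to `N` (with `X_i` acting by `0`), so
`ψ.f N = χ.f (Th i d g N) = d • χ.f N`. (Alternatively: `S_Ths` for `M = N`, where all twists of `N` are `N` and `Res (gz i 0) N = N`.) `N` is killed by `X_j ^ d + g'`, so `ψ.f N = 0` by `S_Hk` for the variable `X_j` (`insert (X_i) I₀` does not involve `X_j`). Hence `d • χ.f N = 0`, and `V` is a `ℚ`-vector space. -/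
def S_Kv : Prop :=
  ∀ (σ : Type) [Finite σ] [DecidableEq σ] (i j : σ) (I₀ : Set (Po σ)) (V : Type 1) [AddCommGroup V] [Module ℚ V] (d : ℕ) (g' : Po σ)
    (χ : AFun (Po σ) (insert (MvPolynomial.X i ^ d + (MvPolynomial.X j ^ d + g')) I₀) V), 1 ≤ d → i ≠ j → NI i g' → NI j g' →
    (∀ r ∈ I₀, NI i r ∧ NI j r) →
    ∀ (N : Type) [AddCommGroup N] [Module (Po σ) N], Module.Finite (Po σ) N →
      Kil (insert (MvPolynomial.X i ^ d + (MvPolynomial.X j ^ d + g')) I₀) N → (∀ n : N, (MvPolynomial.X i : Po σ) • n = 0) → χ.f N = 0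

/-- **Stp**. PROOF. `θ Q := χ (Q / f Q) - χ (ker f | Q)` (the index of `mg Q f`) is an additive function on the modules killed by `insert g I₀` (`S_Sn`; kernel and cokernel are killed by `f`, `g`, `I₀`). By `S_Hg` `θ (Res (gz i (ζ ^ m)) Q) = θ Q`. As `gz i (ζ ^ m) f = f`, `Res (gz ..) Q / f ≃ Res (gz ..) (Q / f Q)` and the same
for the kernel, so `d • θ Q = ∑_{m<d} θ (Res (gz i (ζ ^ m)) Q) = 0` by `PP χ i d ζ`. -/
def S_Stp : Prop :=
  ∀ (σ : Type) [Finite σ] [DecidableEq σ] (i : σ) (f g : Po σ) (I₀ : Set (Po σ)) (V : Type 1) [AddCommGroup V] [Module ℚ V] (d : ℕ) (ζ : ℂ)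
    (χ : AFun (Po σ) ({f, g} ∪ I₀) V), 1 ≤ d → ζ ≠ 0 → NI i g → (∀ r ∈ I₀, NI i r) → (∀ m : ℕ, gz i (ζ ^ m) f = f) → PP χ i d ζ →
    St χ I₀ g f

end Pool.Agent.FY
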