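import Pool.Agent.Lib.MP_b53bfe_ag.Spec

/-!
# Theorem T1 (MP_b53bfe_ag), second part: the twist (T), the chain (A), the curve (D), the localisation (L), the assembly

See `Spec.lean` for the conventions.
-/

set_option autoImplicit false

noncomputable section

namespace Pool.Agent.FY

open Polynomial

/-! ## Part T: from `f + β g` to `f + g` -/

/-- the values of `Ψ` on the `d` twists of `(M, β)` have the sum `0` -/
def PPB {σ : Type} [DecidableEq σ] {f g : Po σ} {I₀ : Set (Po σ)} {V : Type 1} [AddCommGroup V] (Ψ : BFun (Po σ) f g I₀ V)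
    (i : σ) (d : ℕ) (ζ : ℂ) : Prop :=
  ∀ (M : Type) [AddCommGroup M] [Module (Po σ) M] (β : M ≃ₗ[Po σ] M), LFin β → Kil I₀ M → Rel f g β →
    ∑ m ∈ Finset.range d, Ψ.F (Res (gz i (ζ ^ m)) M) (Res.equiv (gz i (ζ ^ m)) β) = 0

/-- `X_j ↦ T ^ (-δ j) X_j` -/
def tau {σ : Type} (δ : σ → ℤ) : Po σ →+* LaurentPolynomial (Po σ) :=
  (MvPolynomial.aeval (fun j => LaurentPolynomial.C (MvPolynomial.X j : Po σ) * LaurentPolynomial.T (-δ j)) :
    Po σ →ₐ[ℂ] LaurentPolynomial (Po σ)).toRingHom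

/-- `r` is homogeneous of degree `e` if `X_j` has the degree `δ j` -/
def Hmg {σ : Type} (δ : σ → ℤ) (e : ℤ) (r : Po σ) : Prop :=
  tau δ r = LaurentPolynomial.C r * LaurentPolynomial.T (-e)

/-- `M[T, T⁻¹]`, where `X_j` acts by `T ^ (-δ j) X_j` -/
abbrev TM {σ : Type} (δ : σ → ℤ) (M : Type) [AddCommGroup M] [Module (Po σ) M] : Type :=
  Res (tau δ) (TensorProduct (Po σ) (LaurentPolynomial (Po σ)) M)

/-- the unit `T ^ d` -/
def uT (R : Type) [CommRing R] (d : ℤ) : (LaurentPolynomial R)ˣ where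
  val := LaurentPolynomial.T d
  inv := LaurentPolynomial.T (-d)
  val_inv := by rw [← LaurentPolynomial.T_add, add_neg_cancel, LaurentPolynomial.T_zero]
  inv_val := by rw [← LaurentPolynomial.T_add, neg_add_cancel, LaurentPolynomial.T_zero]

/-- multiplication by `T ^ d` -/
def tb {σ : Type} (δ : σ → ℤ) (d : ℤ) (M : Type) [AddCommGroup M] [Module (Po σ) M] : TM δ M ≃ₗ[Po σ] TM δ M :=
  Res.equiv (tau δ) (LinearEquiv.smulOfUnit (uT (Po σ) d))

/-- **PB**. PROOF. Let `L` be a finitely generated generating lattice of `(M, β)`. For a submodule `K` of `M` let `K^r` be the submodule of `Res (gz i (ζ ^ m)) M` with the same elements. `(L)^r` is finitely generated (`gz i (ζ ^ m)` is surjective) and generating, and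
`Lm (Res.equiv _ β) L^r n = (Lm β L n)^r`. So by `Cmp`, for `n` large (for all `m < d` at once), `∑_m Ψ.F (Res .. M) = ∑_m th χ g _ (Lm β L n)^r`. As `gz i (ζ ^ m) g = g`, multiplication by `g` is the same map on `M` and `Res .. M`, so the two modules in `th` for `(Lm β L n)^r` are isomorphic to `Res (gz i (ζ ^ m)) N_1`, `Res .. N_2`, where
`N_1`, `N_2` are the two modules in `th χ g β (Lm β L n)`, both finite and killed by `f`, `g`, `I₀`. Use `PP χ i d ζ` for both. (`Res (gz i (ζ^m)) M` satisfies `Kil I₀`, `Rel f g` by the hypotheses on `gz`.) -/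
def S_PB : Prop :=
  ∀ (σ : Type) [Finite σ] [DecidableEq σ] (i : σ) (f g : Po σ) (I₀ : Set (Po σ)) (V : Type 1) [AddCommGroup V]
    (χ : AFun (Po σ) ({f, g} ∪ I₀) V) (Ψ : BFun (Po σ) f g I₀ V) (d : ℕ) (ζ : ℂ), Cmp χ Ψ → PP χ i d ζ → ζ ≠ 0 →
    (∀ m : ℕ, gz i (ζ ^ m) f = f) → (∀ m : ℕ, gz i (ζ ^ m) g = g) → (∀ r ∈ I₀, ∀ m : ℕ, gz i (ζ ^ m) r = r) → PPB Ψ i d ζ

/-- **Tl**. PROOF. `𝓛 = LaurentPolynomial (Po σ)`, `y_1, ..., y_r` generators of `M`. Let `L` be the `Po σ`-submodule of `TM δ M` generated by the `T ^ a ⊗ y_k`, `0 ≤ a < d`. Every `T ^ a ⊗ y_k` (`a ∈ ℤ`) is `β ^ q` of one of these (`a = d q + a'`). The submodule `N` of all `z` with `∃ a b, (β ^ a) z ∈ Lm β L b` is a `Po σ`-submodule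
(`pow_mem_Lm`, `Lm_le` in `Bas.lean`), it contains all `T ^ a ⊗ y_k`. It contains `T ^ a ⊗ (r y_k)` for all `r ∈ Po σ`: `T ^ a ⊗ X_j y = (tau δ X_j) (T ^ (a + δ j) ⊗ y)`, by induction on the polynomial `r` (for all `a`). So `N = ⊤`. -/
def S_Tl : Prop :=
  ∀ (σ : Type) [Finite σ] (δ : σ → ℤ) (d : ℕ) (M : Type) [AddCommGroup M] [Module (Po σ) M], 1 ≤ d → Module.Finite (Po σ) M →
    LFin (tb δ (d : ℤ) M)

/-- **Tw** (the twisted additive function). PROOF. `χ₁.f M := Ψ.F (TM δ M) (tb δ d M)`. `M ↦ 𝓛 ⊗ M` is exact (`𝓛 = LaurentPolynomial (Po σ)` is free over `Po σ`), compatible with `tb`. For `M` killed by `f + g` and `I₀`: `Rel f g (tb δ d M)`: `f` acts by `tau δ f = C f`, `g` by `C g * T (-d)`, so `f z + T^d (g z) = C (f + g) z = 0`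
(`C (f+g)` acts by `f + g` on the factor `M`). `Kil I₀`: `r` acts by `C r * T (-e)`. `LFin`: `S_Tl`. -/
def S_Tw : Prop :=
  ∀ (σ : Type) [Finite σ] [DecidableEq σ] (δ : σ → ℤ) (d : ℕ) (f g : Po σ) (I₀ : Set (Po σ)) (V : Type 1) [AddCommGroup V]
    (Ψ : BFun (Po σ) f g I₀ V), 1 ≤ d → Hmg δ 0 f → Hmg δ (d : ℤ) g → (∀ r ∈ I₀, ∃ e : ℤ, Hmg δ e r) →
    ∃ χ₁ : AFun (Po σ) ({f + g} ∪ I₀) V,
      ∀ (M : Type) [AddCommGroup M] [Module (Po σ) M], χ₁.f M = Ψ.F (TM δ M) (tb δ (d : ℤ) M)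

/-- **Tp**. PROOF. Let `z = ζ ^ m ≠ 0`, `G : 𝓛 → 𝓛` the ring automorphism with `T ↦ T` and `gz i z` on the coefficients. `G (tau δ s) = tau δ (gz i z s)` (check on the variables). `a ⊗ y ↦ G a ⊗ y` is an isomorphism of `Po σ`-modules `TM δ (Res (gz i z) M) → Res (gz i z) (TM δ M)` commuting with `T ^ d`
(well defined: `a (s y) = a gz(s) y` in `Res (gz i z) M`; inverse: the same with `z⁻¹`). Isomorphic pairs have the same value of `Ψ.F` (from `Ψ.add` with `C = PUnit`, for pairs with `LFin`, `Kil I₀`, `Rel`). So `∑ χ₁.f (Res (gz i (ζ ^ m)) M) = ∑ Ψ.F (Res (gz ..) (TM δ M)) = 0` by `PPB`; the hypotheses of `PPB` hold as in `S_Tw`. -/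
def S_Tp : Prop :=
  ∀ (σ : Type) [Finite σ] [DecidableEq σ] (δ : σ → ℤ) (d : ℕ) (f g : Po σ) (I₀ : Set (Po σ)) (V : Type 1) [AddCommGroup V]
    (Ψ : BFun (Po σ) f g I₀ V), 1 ≤ d → Hmg δ 0 f → Hmg δ (d : ℤ) g → (∀ r ∈ I₀, ∃ e : ℤ, Hmg δ e r) →
    ∀ χ₁ : AFun (Po σ) ({f + g} ∪ I₀) V,
      (∀ (M : Type) [AddCommGroup M] [Module (Po σ) M], χ₁.f M = Ψ.F (TM δ M) (tb δ (d : ℤ) M)) →
      ∀ (i : σ) (D : ℕ) (ζ : ℂ), ζ ≠ 0 → (∀ m : ℕ, gz i (ζ ^ m) f = f) → (∀ m : ℕ, gz i (ζ ^ m) g = g) →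
        (∀ r ∈ I₀, ∀ m : ℕ, gz i (ζ ^ m) r = r) → PPB Ψ i D ζ → PP χ₁ i D ζ

/-- **Ee**. PROOF. `R = Po σ`, `q : R → R/a`. The ring automorphism `G` of `𝓛 = R[T;T⁻¹]` with `T ↦ T`, `X_j ↦ T ^ (δ j) X_j` has `G (C r) = T ^ e C r` for `r` homogeneous of degree `e`, so (as `a` is generated by homogeneous elements) it maps `a 𝓛` onto `a 𝓛`; `G (tau δ s) = C s`. Define `e (p ⊗ q(s)) = ` the image of `G (p * C s)`
under `𝓛 → (ℤ →₀ R) → (ℤ →₀ R/a)` (coefficientwise `q`; the kernel is `a 𝓛`). It is well defined, `Po σ`-linear (`s' ∈ R` acts on the left by `tau δ s'`, and `G (tau δ s') = C s'`), bijective, and `T ^ d` becomes the shift by `d`. -/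
def S_Ee : Prop :=
  ∀ (σ : Type) [Finite σ] (δ : σ → ℤ) (d : ℕ) (A : Set (Po σ)), (∀ r ∈ A, ∃ e : ℤ, Hmg δ e r) →
    ∃ e : TM δ (Po σ ⧸ Ideal.span A) ≃ₗ[Po σ] (ℤ →₀ (Po σ ⧸ Ideal.span A)),
      ∀ z, e (tb δ (d : ℤ) _ z) =
        (Finsupp.domLCongr (Equiv.addRight (d : ℤ)) : (ℤ →₀ (Po σ ⧸ Ideal.span A)) ≃ₗ[Po σ] (ℤ →₀ (Po σ ⧸ Ideal.span A))) (e z)

/-- **Ef**. PROOF. `M = (ℤ →₀ M₀)`, `β` = the shift by `d`; it satisfies `Rel` and `Kil I₀` (`f`, `g`, `I₀` kill `M₀`). Lattice `L` = the functions supported in `{0, ..., d-1}`: finitely generated, generating, `Lm β L m` = the functions supported in `{0, ..., d (m+1) - 1}`. As `g = 0` on `M`: `th χ g β (Lm β L m)` is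
`χ (Lm β L m / 0) - χ (Lm β L (m+1))`, and `χ (Lm β L m) = (d (m+1)) • χ M₀` (a finite direct sum of copies of `M₀`). The difference is `- d • χ M₀`. -/
def S_Ef : Prop :=
  ∀ (W : Type) [CommRing W] [IsNoetherianRing W] (f g : W) (I₀ : Set W) (V : Type 1) [AddCommGroup V]
    (χ : AFun W ({f, g} ∪ I₀) V) (Ψ : BFun W f g I₀ V) (d : ℕ), Cmp χ Ψ → 1 ≤ d →
    ∀ (M₀ : Type) [AddCommGroup M₀] [Module W M₀], Module.Finite W M₀ → Kil ({f, g} ∪ I₀) M₀ →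
      Ψ.F (ℤ →₀ M₀) (Finsupp.domLCongr (Equiv.addRight (d : ℤ)) : (ℤ →₀ M₀) ≃ₗ[W] (ℤ →₀ M₀)) = -((d : ℤ) • χ.f M₀)

/-- **Stq** (one step of the chain). PROOF. `St χ I₀ g f` by `S_Stp` with the variable `i`, `St χ I₀ f g` by `S_Stp` with the variable `j` (for `χ` on `{g, f} ∪ I₀`, the same set). `S_Jx` gives `Ψ`, `S_Tw` gives `χ₁`. The second property: `S_PB` and `S_Tp`. The third: `S_Ee`, `S_Ef` (for `M₀ = Po σ ⧸ span A`) and the invariance of `Ψ.F` under isomorphisms of pairs. -/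
def S_Stq : Prop :=
  ∀ (σ : Type) [Finite σ] [DecidableEq σ] (i j : σ) (f g : Po σ) (I₀ : Set (Po σ)) (V : Type 1) [AddCommGroup V] [Module ℚ V]
    (δ : σ → ℤ) (d : ℕ) (ζ : ℂ) (χ : AFun (Po σ) ({f, g} ∪ I₀) V), 1 ≤ d → ζ ≠ 0 →
    NI i g → (∀ r ∈ I₀, NI i r) → (∀ m : ℕ, gz i (ζ ^ m) f = f) → PP χ i d ζ →
    NI j f → (∀ r ∈ I₀, NI j r) → (∀ m : ℕ, gz j (ζ ^ m) g = g) → PP χ j d ζ →
    Hmg δ 0 f → Hmg δ (d : ℤ) g → (∀ r ∈ I₀, ∃ e : ℤ, Hmg δ e r) →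
    ∃ χ₁ : AFun (Po σ) ({f + g} ∪ I₀) V,
      (∀ k : σ, PP χ k d ζ → (∀ m : ℕ, gz k (ζ ^ m) f = f) → (∀ m : ℕ, gz k (ζ ^ m) g = g) →
        (∀ r ∈ I₀, ∀ m : ℕ, gz k (ζ ^ m) r = r) → PP χ₁ k d ζ) ∧
      ∀ A : Set (Po σ), (∀ r ∈ A, ∃ e : ℤ, Hmg δ e r) → f ∈ Ideal.span A → g ∈ Ideal.span A → (∀ r ∈ I₀, r ∈ Ideal.span A) →
        χ₁.f (Po σ ⧸ Ideal.span A) = -((d : ℤ) • χ.f (Po σ ⧸ Ideal.span A))

/-! ## Part A: the three rows -/

/-- the variables: three rows, `n + 3` columns -/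
abbrev Ix (n : ℕ) : Type := Fin 3 × Fin (n + 3)

/-- the variable in row `i`, column `j` -/
def xv (n : ℕ) (i : Fin 3) (j : Fin (n + 3)) : Po (Ix n) := MvPolynomial.X (i, j)

/-- the Fermat form of the row `i` -/
def sF (n d : ℕ) (i : Fin 3) : Po (Ix n) := ∑ j, xv n i j ^ d

/-- the minor of the rows `i`, `i'` and the columns `j`, `j'` -/
def mn (n : ℕ) (i i' : Fin 3) (j j' : Fin (n + 3)) : Po (Ix n) := xv n i j * xv n i' j' - xv n i j' * xv n i' j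

/-- the minors -/
def Mn (n : ℕ) : Set (Po (Ix n)) := {r | ∃ i i' j j', r = mn n i i' j j'}

/-- generators of the ideal of the small diagonal -/
def gA (n d : ℕ) : Set (Po (Ix n)) := Mn n ∪ Set.range (sF n d)

/-- the sum of the three Fermat forms -/
def FF (n d : ℕ) : Po (Ix n) := sF n d 0 + sF n d 1 + sF n d 2

/-- **Aa** (claim A). PROOF. `x = (i, 1)`, `y = (i, 2)`, `z = (i, 0)`, `v = (i', 2)`. `sF n d i = X_x ^ d + g`, `g = ∑_{j ≠ 1} X_(i,j) ^ d`, `I₀` = the other two forms; `Set.range (sF n d) = insert (X_x ^ d + g) I₀`. By `S_Ths` the sum is `χ.f (Th x d g M')`, `M' = Res (gz x 0) M`, which is `ψ.f M'` with `ψ` from `S_Tha`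
(`M'` is finite over `Po`: `M` is killed by `X_x ^ d + g`, so it is generated over the polynomials in the other variables by `X_x ^ k m_l`, `k < d`; it is killed by `X_x` and `I₀`). By `S_Hb` for the variable `y`: `ψ.f M' = ψ.f (Ex y N₁) - ψ.f (Ex y N₂)`, `N₁ = M' / X_y M'`, `N₂ = ker X_y`. Both are killed by `X_y`, and the relation
`X_z X_v = X_y X_(i',0)` (the minor `mn n i i' 0 2`) gives `X_z X_v N = 0`. So `0 → X_v N → N → N / X_v N → 0` with `X_v N` killed by `X_z` and `N / X_v N` killed by `X_v`; `Ex y` is exact, so `ψ.f (Ex y N) = ψ.f (Ex y (X_v N)) + ψ.f (Ex y (N / X_v N))`, and these are values `χ.f (Th x d g (Ex y ..))` of `χ` on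
modules killed by `X_z` resp. `X_v` (`X_z`, `X_v` act through the coefficients), which are `0` by `S_Kv` (for `X_z` with the form of row `i`, and another variable of the row, e.g. `x`; for `X_v` with the form of row `i'` and another variable of that row). -/
def S_Aa : Prop :=
  ∀ (n d : ℕ) (V : Type 1) [AddCommGroup V] [Module ℚ V] (χ : AFun (Po (Ix n)) (Set.range (sF n d)) V) (ζ : ℂ), 1 ≤ d →
    IsPrimitiveRoot ζ d → ∀ i i' : Fin 3, i ≠ i' → ∀ (M : Type) [AddCommGroup M] [Module (Po (Ix n)) M],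
      Module.Finite (Po (Ix n)) M → Kil (Set.range (sF n d)) M → (∀ m : M, mn n i i' 0 2 • m = 0) →
      ∑ m ∈ Finset.range d, χ.f (Res (gz ((i, 1) : Ix n) (ζ ^ m)) M) = 0

/-- **Ab** (the averages). PROOF. For an additive function `χ` let `D_i χ` be `M ↦ χ.f M - (1/d) ∑_{m<d} χ.f (Res (gz (i,1) (ζ ^ m)) M)`; it is additive on the same class (the `gz` fix the forms, `ζ ^ d = 1`, and are bijective). `PP (D_i χ) (i,1)`: `gz (i,1) (ζ ^ m) ∘ gz (i,1) (ζ ^ l) = gz (i,1) (ζ ^ (m+l))`, and the exponent counts modulo `d`.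
`PP χ (k,1) ⟹ PP (D_i χ) (k,1)` for `k ≠ i` (the automorphisms commute). `χ₀ = D_0 D_1 D_2 χ`. By `S_Aa` (for each of the additive functions) `(D_i χ').f (Po ⧸ span (gA n d)) = χ'.f (...)`: this module is killed by the forms and all minors. -/
def S_Ab : Prop :=
  ∀ (n d : ℕ) (V : Type 1) [AddCommGroup V] [Module ℚ V] (χ : AFun (Po (Ix n)) (Set.range (sF n d)) V) (ζ : ℂ), 1 ≤ d →
    IsPrimitiveRoot ζ d → ∃ χ₀ : AFun (Po (Ix n)) (Set.range (sF n d)) V, (∀ i : Fin 3, PP χ₀ (i, 1) d ζ) ∧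
      χ₀.f (Po (Ix n) ⧸ Ideal.span (gA n d)) = χ.f (Po (Ix n) ⧸ Ideal.span (gA n d))

/-- **Ac** (the chain). PROOF. `S_Stq` twice. First `f = sF 0`, `g = sF 1`, `I₀ = {sF 2}`, `i = (0,1)`, `j = (1,1)`, `δ (a, b) = 1` for `a = 1` and `0` otherwise. Then `f = sF 0 + sF 1`, `g = sF 2`, `I₀ = ∅`, `i = (0,1)`, `j = (2,1)`, `δ (a,b) = 1` for `a = 2` and `0` otherwise, for the `χ₁` obtained (`PP χ₁ (0,1)`, `PP χ₁ (2,1)`). All the elements of `gA n d` are homogeneous for both `δ`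
(the minors and the forms), and the conditions `NI`, `gz` are checked on the variables (`ζ ^ d = 1`). `(-d)(-d) = d ^ 2`. -/
def S_Ac : Prop :=
  ∀ (n d : ℕ) (V : Type 1) [AddCommGroup V] [Module ℚ V] (χ₀ : AFun (Po (Ix n)) (Set.range (sF n d)) V) (ζ : ℂ), 1 ≤ d →
    IsPrimitiveRoot ζ d → (∀ i : Fin 3, PP χ₀ (i, 1) d ζ) → ∃ χ₂ : AFun (Po (Ix n)) {FF n d} V,
      χ₂.f (Po (Ix n) ⧸ Ideal.span (gA n d)) = ((d : ℤ) ^ 2) • χ₀.f (Po (Ix n) ⧸ Ideal.span (gA n d))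

/-! ## Part D: the curve -/

/-- the polynomial ring in `k` pairs of variables `t_j = X (0, j)`, `r_j = X (1, j)` -/
abbrev PK (k : ℕ) : Type := Po (Fin 2 × Fin k)

/-- `1 + t_j ^ d + r_j ^ d` -/
def cj (d : ℕ) {k : ℕ} (j : Fin k) : PK k := 1 + MvPolynomial.X (0, j) ^ d + MvPolynomial.X (1, j) ^ d

/-- `1 + X ^ d + (w + ε X) ^ d` -/
def Pw {E : Type} [CommRing E] [Algebra ℂ E] (d : ℕ) (ε : ℂ) (w : E) : E[X] :=
  1 + X ^ d + (C w + C (algebraMap ℂ E ε) * X) ^ d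

/-- the coordinate ring of the affine curve `1 + t ^ d + r ^ d = 0` -/
abbrev E1 (d : ℕ) : Type :=
  Po (Fin 2) ⧸ Ideal.span {(1 + MvPolynomial.X 0 ^ d + MvPolynomial.X 1 ^ d : Po (Fin 2))}

/-- `t_j ↦ t`, `r_j ↦ r` for all `j` (the small diagonal of the `k`-th power of the curve) -/
def del (d k : ℕ) : PK k →+* E1 d :=
  (Ideal.Quotient.mk _).comp (MvPolynomial.aeval (fun p : Fin 2 × Fin k => (MvPolynomial.X p.1 : Po (Fin 2))) : PK k →ₐ[ℂ] Po (Fin 2)).toRingHom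

/-- the last pair of variables becomes the `j`-th one -/
def gam {k : ℕ} (j : Fin k) : PK (k + 1) →ₐ[ℂ] PK k :=
  MvPolynomial.aeval (fun p : Fin 2 × Fin (k + 1) =>
    Fin.lastCases (motive := fun _ => PK k) (MvPolynomial.X (p.1, j)) (fun j' => MvPolynomial.X (p.1, j')) p.2)

/-- the last pair of variables becomes `X`, `w + ε X` -/
def exk {k : ℕ} {E : Type} [CommRing E] [Algebra ℂ E] (ε : ℂ) (w : E) (φ : PK k →ₐ[ℂ] E) : PK (k + 1) →ₐ[ℂ] E[X] :=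
  MvPolynomial.aeval (fun p : Fin 2 × Fin (k + 1) =>
    Fin.lastCases (motive := fun _ => E[X]) (if p.1 = 0 then X else C w + C (algebraMap ℂ E ε) * X)
      (fun j' => C (φ (MvPolynomial.X (p.1, j')))) p.2)

/-- the `k`-th stage: the ring `E_k`, with `P_w = ∏ (X - θ_j) Q` and `[E_k] = ± (k-1)! [Δ_k]` -/
def Stage (d k : ℕ) (ε : ℂ) : Prop :=
  ∃ (E : Type) (_ : CommRing E) (_ : Algebra ℂ E) (w : E) (φ : PK k →ₐ[ℂ] E) (Q : E[X]), Function.Surjective φ ∧ IsUnit w ∧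
    (∀ j : Fin k, φ (MvPolynomial.X (1, j)) = w + algebraMap ℂ E ε * φ (MvPolynomial.X (0, j))) ∧
    Pw d ε w = (∏ j : Fin k, (X - C (φ (MvPolynomial.X (0, j))))) * Q ∧ Q.natDegree ≤ d - 1 - k ∧ IsUnit (Q.coeff (d - 1 - k)) ∧
    ∀ (V : Type 1) [AddCommGroup V] (χ : AFun (PK k) (Set.range (cj d)) V),
      χ.f (Res φ.toRingHom E) = ((-1) ^ (k - 1) * ((k - 1).factorial : ℤ)) • χ.f (Res (del d k) (E1 d))

/-- **Da**. `[E[X] / P_w] = 0`. PROOF. `T = E[Y][X] / (P_Y(X))`, `P_Y(X) = 1 + X ^ d + (Y + ε X) ^ d` (e.g. as `AdjoinRoot` or quotient of `(E[X])[Y]` by the polynomial `P = C (1 + X ^ d) + (Y + C (ε X)) ^ d`, monic of degree `d` in `Y`). `PK (k+1) → T`: `t_j, r_j ↦` their images under `φ` (`j < k`), the last pair `↦ X, Y + ε X`: surjective (`Y = r_k - ε t_k`).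
It kills all `cj` (`φ (cj d j) = P_w(θ_j) = 0` by `hP`, where `θ_j = φ t_j`; and `P_Y(X) = 0`). Multiplication by `Y - w` is injective on `T`: `(Y - w) u = P v` in `(E[X])[Y]`; put `Y = w`: `P_w(X) v(w) = 0`, and `P_w(X)` has the leading coefficient `d ε^(d-1) w` (in degree `d-1`; the coefficient of `X ^ d` is `1 + ε ^ d = 0`; `d ≥ 2`),
a unit, so it is a nonzerodivisor of `E[X]` and `v(w) = 0`, `v = (Y - w) v'`, `u = P v'`. `T / (Y - w) ≃ E[X] / P_w`, compatible with the maps from `PK (k+1)`. So the value is `0` (`AFun.nzd` in `Bas.lean`). -/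
def S_Da : Prop :=
  ∀ (d k : ℕ) (ε : ℂ) (E : Type) [CommRing E] [Algebra ℂ E] (w : E) (φ : PK k →ₐ[ℂ] E), 2 ≤ d → ε ^ d = -1 →
    Function.Surjective φ → IsUnit w →
    (∀ j : Fin k, φ (MvPolynomial.X (1, j)) = w + algebraMap ℂ E ε * φ (MvPolynomial.X (0, j))) →
    (∀ j : Fin k, (Pw d ε w).eval (φ (MvPolynomial.X (0, j))) = 0) →
    ∀ (V : Type 1) [AddCommGroup V] (χ : AFun (PK (k + 1)) (Set.range (cj d)) V), 1 ≤ k →
      χ.f (Res ((Ideal.Quotient.mk (Ideal.span {Pw d ε w})).comp (exk ε w φ).toRingHom) (E[X] ⧸ Ideal.span {Pw d ε w})) = 0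

/-- **Db**. PROOF. `E[X] / (∏_j (X - θ_j) Q)`, `θ_j = φ t_j`. Multiplication by `X - θ` is injective on `E[X]`, so `AFun.mul` (in `Bas.lean`; `a = X - C θ`) peels off one factor at a time (for a list of factors; all the quotients are killed by the `cj d`, because `∏ (X - θ_j) Q = P_w` kills them: `cj d (last) ↦ P_w(X)`, `cj d j ↦ C (P_w(θ_j)) = 0`), with quotients
`E[X] / (X - θ_j) ≃ E`, on which `PK (k+1)` acts through `exk` followed by `X ↦ θ_j`, that is by `φ ∘ gam j` (as `φ r_j = w + ε θ_j`). The ring hom for `AFun.mul` is `exk ε w φ` itself followed by the quotient map; it is not surjective onto `E[X]` unless `w` is in the image, but it is: `exk` hits `C (φ p)` for `p ∈ PK k`, and `φ` is surjective, and `X`. -/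
def S_Db : Prop :=
  ∀ (d k : ℕ) (ε : ℂ) (E : Type) [CommRing E] [Algebra ℂ E] (w : E) (φ : PK k →ₐ[ℂ] E) (Q : E[X]),
    Function.Surjective φ →
    (∀ j : Fin k, φ (MvPolynomial.X (1, j)) = w + algebraMap ℂ E ε * φ (MvPolynomial.X (0, j))) →
    Pw d ε w = (∏ j : Fin k, (X - C (φ (MvPolynomial.X (0, j))))) * Q →
    ∀ (V : Type 1) [AddCommGroup V] (χ : AFun (PK (k + 1)) (Set.range (cj d)) V),
      χ.f (Res ((Ideal.Quotient.mk (Ideal.span {Pw d ε w})).comp (exk ε w φ).toRingHom) (E[X] ⧸ Ideal.span {Pw d ε w})) =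
        ∑ j : Fin k, χ.f (Res (φ.comp (gam j)).toRingHom E) +
          χ.f (Res ((Ideal.Quotient.mk (Ideal.span {Q})).comp (exk ε w φ).toRingHom) (E[X] ⧸ Ideal.span {Q}))

/-- **Dc** (the first stage). PROOF. `E = E1 d`, `φ (X (0, 0)) = t`, `φ (X (1, 0)) = r`, `w = r - ε t`. `w` is a unit: `1 = - (t ^ d + r ^ d)` and `r ^ d = (w + ε t) ^ d = w (...) + ε ^ d t ^ d = w (...) - t ^ d`. `P_w(t) = 1 + t ^ d + r ^ d = 0`, so `P_w = (X - t) Q`. `P_w` has degree `≤ d - 1` with the coefficient `d ε ^ (d-1) w` in degree `d - 1`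
(a unit of `E`, `d ≥ 2`), so `Q` has degree `≤ d - 2` and the same coefficient in degree `d - 2`. The last condition: `φ = del d 1` (as ring homs). -/
def S_Dc : Prop := ∀ (d : ℕ) (ε : ℂ), 2 ≤ d → ε ^ d = -1 → Stage d 1 ε

/-- **Dd** (the next stage). PROOF. Let `E, w, φ, Q` be the stage `k`, `E' = E[X] / (Q)`, `w' = ` the image of `w`, `φ' = ` the quotient map after `exk ε w φ`, `θ_k = ` the image of `X`. `Q` (over `E'`) has the root `θ_k`: `Q = (X - θ_k) Q'`, `deg Q' ≤ d - 1 - (k+1)`, with the same top coefficient. For `χ` on `PK (k+1)`: by `S_Da`, `S_Db`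
`χ (E') = - ∑_{j<k} χ (Res (φ ∘ gam j) E)`; `χ ∘ Res (gam j)` is an additive function on the `PK k`-modules (`AFun.res` in `Bas.lean`, `gam j` is surjective and maps `cj` to `cj`), so `χ (Res (φ ∘ gam j) E) = (-1)^(k-1) (k-1)! χ (Res (del d k ∘ gam j) (E1 d))` and `del d k ∘ gam j = del d (k+1)`. -/
def S_Dd : Prop := ∀ (d k : ℕ) (ε : ℂ), 2 ≤ d → ε ^ d = -1 → 1 ≤ k → k + 1 ≤ d - 1 → Stage d k ε → Stage d (k + 1) ε

/-- **De** (the small diagonal of the curve). PROOF. `ε` with `ε ^ d = -1`. By `S_Dc`, `S_Dd`: `Stage d (d-1) ε`. There `Q` is a constant unit, so `E[X] / (Q) = 0`, and `S_Da`, `S_Db` give, as in `S_Dd`, `(d-1) (-1)^(d-2) (d-2)! χ (Res (del d d) (E1 d)) = 0` for `χ` on `PK d`. So it vanishes (`V` is a `ℚ`-vector space). For `N ≥ d`: use a surjection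
`PK N → PK d` (`X (a, j) ↦ X (a, min j (d-1))`), `AFun.res`. -/
def S_De : Prop :=
  ∀ (d N : ℕ) (V : Type 1) [AddCommGroup V] [Module ℚ V] (χ : AFun (PK N) (Set.range (cj d)) V), 2 ≤ d → d ≤ N →
    χ.f (Res (del d N) (E1 d)) = 0

/-! ## Part L: the localisation -/

/-- **La**. PROOF. `G N := χ.f N₀` for a chosen `N₀` as in the statement, if there is one. Independence: for `N₀`, `N₀'` also `N₀ + N₀'` is such, `(N₀ + N₀') / N₀` is finitely generated, killed by `I` and by `u ^ k` for some `k`, so it has the filtration by `u ^ j` with quotients killed by `u`, so `χ` of it is `0` and `χ.f (N₀ + N₀') = χ.f N₀`. -/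
def S_La : Prop :=
  ∀ (R : Type) [CommRing R] [IsNoetherianRing R] (I : Set R) (V : Type 1) [AddCommGroup V] (χ : AFun R I V) (u : R),
    (∀ (N : Type) [AddCommGroup N] [Module R N], Module.Finite R N → Kil I N → (∀ x : N, u • x = 0) → χ.f N = 0) →
    ∃ G : (N : Type) → [AddCommGroup N] → [Module R N] → V, ∀ (N : Type) [AddCommGroup N] [Module R N], Kil I N →
      ∀ N₀ : Submodule R N, N₀.FG → (∀ x : N, ∃ k : ℕ, u ^ k • x ∈ N₀) → G N = χ.f N₀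

/-- **Lb**. PROOF. `u' = κ u`. For an `R'`-module `M'` let `M'_u = LocalizedModule (Submonoid.powers u') M'`, an `R'`-module, and `N = Res κ M'_u`. `χ'.f M' := G N` with `G` from `S_La`. For `M'` finite, killed by `I'`: `N` is killed by `I`; if `y_k` are generators of `M'`, the `R`-submodule `N₀` generated by the `y_k / 1` has the property of `S_La`:
`x = (∑ p_k y_k) / u'^a`, and with `κ r_k = u'^b p_k` (the same `b` for all `k`) `u'^(a+b) x = ∑ r_k (y_k / 1)`. Additivity: `M' ↦ M'_u` is exact; for an exact sequence `0 → A → B → C → 0` and `N₀ ≤ N_B`, take `N₀ ∩ N_A` (finitely generated, `R` noetherian) and the image of `N₀` in `N_C`. Value on `R'/b`: `N₀` = the `R`-submodule generated by `1`, isomorphic to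
`R / K`, `K = {p : ∃ k, u'^k κ p ∈ b} = {p : ∃ k, u^k p ∈ a}` by the hypotheses; `0 → K/a → R/a → R/K → 0` and `K/a` is finitely generated and killed by a power of `u`, so `χ.f (K/a) = 0` (filtration by powers of `u`). -/
def S_Lb : Prop :=
  ∀ (R R' : Type) [CommRing R] [IsNoetherianRing R] [CommRing R'] [IsNoetherianRing R'] (κ : R →+* R') (u : R) (I : Set R) (I' : Set R')
    (V : Type 1) [AddCommGroup V] (χ : AFun R I V), (∀ r' : R', ∃ (k : ℕ) (r : R), κ r = κ u ^ k * r') →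
    (∀ r ∈ I, κ r ∈ Ideal.span I') →
    (∀ (N : Type) [AddCommGroup N] [Module R N], Module.Finite R N → Kil I N → (∀ x : N, u • x = 0) → χ.f N = 0) →
    ∃ χ' : AFun R' I' V, ∀ (a : Ideal R) (b : Ideal R'), (∀ r ∈ I, r ∈ a) → (∀ r ∈ I', r ∈ b) → (∀ p ∈ a, κ p ∈ b) →
      (∀ p : R, κ p ∈ b → ∃ k : ℕ, u ^ k * p ∈ a) → χ'.f (R' ⧸ b) = χ.f (R ⧸ a)

/-- `x_j = X (inl j)`, `t = X (inr 0)`, `r = X (inr 1)` -/
abbrev PA (n : ℕ) : Type := Po (Fin (n + 3) ⊕ Fin 2)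

/-- `X (0, j) ↦ x_j`, `X (1, j) ↦ t`, `X (2, j) ↦ r` -/
def rho (n : ℕ) : Po (Ix n) →+* PA n :=
  (MvPolynomial.aeval (fun p : Ix n => if p.1 = 0 then (MvPolynomial.X (Sum.inl p.2) : PA n) else
    if p.1 = 1 then MvPolynomial.X (Sum.inr 0) else MvPolynomial.X (Sum.inr 1)) : Po (Ix n) →ₐ[ℂ] PA n).toRingHom

/-- `X (0, j) ↦ X (0, j)`, `X (i, j) ↦ X (i, j) X (0, j)` for `i ≠ 0` -/
def kap (n : ℕ) : Po (Ix n) →+* Po (Ix n) :=
  (MvPolynomial.aeval (fun p : Ix n => if p.1 = 0 then (MvPolynomial.X p : Po (Ix n)) else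
    MvPolynomial.X p * MvPolynomial.X (0, p.2)) : Po (Ix n) →ₐ[ℂ] Po (Ix n)).toRingHom

/-- `1 + t ^ d + r ^ d` -/
def cc (n d : ℕ) : PA n := 1 + MvPolynomial.X (Sum.inr 0) ^ d + MvPolynomial.X (Sum.inr 1) ^ d

/-- `∑ x_j ^ d` -/
def ss (n d : ℕ) : PA n := ∑ j : Fin (n + 3), MvPolynomial.X (Sum.inl j) ^ d

/-- `∑ x_j ^ d (1 + t_j ^ d + r_j ^ d)`, the image of `FF n d` under `kap n` -/
def Fk (n d : ℕ) : Po (Ix n) := ∑ j : Fin (n + 3), xv n 0 j ^ d * (1 + xv n 1 j ^ d + xv n 2 j ^ d)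

/-- **Lk**. PROOF. `q = X (0, 0)`, `Q = Po (Ix n) / (minors)`, `Q_q` its localisation at `q`. The ring hom `PA n → Q_q`, `x_j ↦ X (0, j)`, `t ↦ X (1, 0) / q`, `r ↦ X (2, 0) / q` composed with `rho n ∘ kap n` (`X (0, j) ↦ x_j`, `X (1, j) ↦ t x_j`, `X (2, j) ↦ r x_j`) is the canonical map `Po (Ix n) → Q_q`, as
`X (1, 0) X (0, j) = X (1, j) X (0, 0)` in `Q`. So `rho (kap p) = 0` implies `p = 0` in `Q_q`, that is `q ^ k p ∈ span (Mn n)`. -/
def S_Lk : Prop :=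
  ∀ (n : ℕ) (p : Po (Ix n)), rho n (kap n p) = 0 → ∃ k : ℕ, xv n 0 0 ^ k * p ∈ Ideal.span (Mn n)

/-- **Lc**. PROOF. `S_Lb` for `R = R' = Po (Ix n)`, `κ = kap n`, `u = ∏_j X (0, j)` (`kap n u = u`), `I = {FF n d}`, `I' = {Fk n d}` (`kap n (FF n d) = Fk n d`). Every `r'` is `u ^ (-k) κ r`: induction on `r'` (`u X (i, j) = κ (X (i, j) ∏_{l ≠ j} X (0, l))` for `i ≠ 0`). A module killed by `u` has a filtration with quotients killed by a variable `X (0, j)`, so `χ₂` vanishes on it.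
Ideals: `a = span (gA n d)`, `b = ` the preimage of `span {ss n d}` under `rho n`; `Po / b ≃ Res (rho n) (PA n / (ss))` (`rho n` is surjective). `κ a ≤ b`: `rho ∘ kap` kills the minors, and maps `sF 0, sF 1, sF 2` to `ss, t^d ss, r^d ss`. If `rho (κ p) = ss * q`, choose `q'`, `l` with `rho (κ q') = rho u ^ l * q` (`rho` is surjective and the above), then
`rho (κ (u ^ l p - sF 0 * q')) = 0`, so by `S_Lk` `u ^ k (u ^ l p - sF 0 q') ∈ span (Mn n)` for some `k` and `u ^ (k+l) p ∈ a`. -/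
def S_Lc : Prop :=
  ∀ (n d : ℕ) (V : Type 1) [AddCommGroup V] (χ₂ : AFun (Po (Ix n)) {FF n d} V), 1 ≤ d →
    (∀ (N : Type) [AddCommGroup N] [Module (Po (Ix n)) N], Module.Finite (Po (Ix n)) N → Kil {FF n d} N →
      ∀ p : Ix n, (∀ x : N, (MvPolynomial.X p : Po (Ix n)) • x = 0) → χ₂.f N = 0) →
    ∃ χ' : AFun (Po (Ix n)) {Fk n d} V,
      χ'.f (Res (rho n) (PA n ⧸ Ideal.span {ss n d})) = χ₂.f (Po (Ix n) ⧸ Ideal.span (gA n d))

/-- **Lv**. PROOF. `S_Kv` with `i = p`, `j` another variable, `I₀ = ∅`, `g'` = the sum of the `d`-th powers of the other variables. -/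
def S_Lv : Prop :=
  ∀ (n d : ℕ) (V : Type 1) [AddCommGroup V] [Module ℚ V] (χ₂ : AFun (Po (Ix n)) {FF n d} V), 1 ≤ d →
    ∀ (N : Type) [AddCommGroup N] [Module (Po (Ix n)) N], Module.Finite (Po (Ix n)) N → Kil {FF n d} N →
      ∀ p : Ix n, (∀ x : N, (MvPolynomial.X p : Po (Ix n)) • x = 0) → χ₂.f N = 0

/-- **Ba**. PROOF. `A = PA n`, `T = A[X]`, `ρ₁ : Po (Ix n) → T`: like `rho n` (followed by `C`), but `X (2, n+2)` (the last column) `↦ X`; surjective. `F₁ = ρ₁ (Fk n d) = C (c s') + C (x_last ^ d) (1 + t ^ d + X ^ d)`, `s' = ∑_{j ≠ last} x_j ^ d`, `c = cc n d`. `M = T / (F₁)` is killed by `Fk n d`. Multiplication by `X - r` is injective on `M`: `(X - C r) u = F₁ v`, put `X = r`: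
`0 = c s v(r)`, and `A` is a domain, `c s ≠ 0`, so `v(r) = 0`, `v = (X - C r) v'`, `u = F₁ v'`. `M / (X - C r) ≃ A / (c s)`, on which `Po (Ix n)` acts by `rho n`. Use `AFun.nzd`. -/
def S_Ba : Prop :=
  ∀ (n d : ℕ) (V : Type 1) [AddCommGroup V] (χ' : AFun (Po (Ix n)) {Fk n d} V), 1 ≤ d →
    χ'.f (Res (rho n) (PA n ⧸ Ideal.span {cc n d * ss n d})) = 0

/-- **Bb**. PROOF. `Po (Ix n)` is a flat algebra over `PK (n+3)` by `X (0, j) ↦ X (1, j)`, `X (1, j) ↦ X (2, j)` (a polynomial ring in the `X (0, j)` over it). `ψ.f M := χ'.f (Po (Ix n) ⊗ M)` is an additive function on the finite `PK (n+3)`-modules killed by the `cj d` (then `Fk n d = ∑ X (0,j)^d (cj d j)` kills the tensor product). `Po (Ix n) ⊗ Res (del d (n+3)) (E1 d)` is isomorphic to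
`Res (rho n) (PA n / (cc n d))` (both are `Po (Ix n)` modulo the ideal generated by `X (1, j) - X (1, 0)`, `X (2, j) - X (2, 0)` and `1 + X (1, 0) ^ d + X (2, 0) ^ d`). Apply `S_De`. -/
def S_Bb : Prop :=
  ∀ (n d : ℕ) (V : Type 1) [AddCommGroup V] [Module ℚ V] (χ' : AFun (Po (Ix n)) {Fk n d} V), 2 ≤ d → d ≤ n + 3 →
    χ'.f (Res (rho n) (PA n ⧸ Ideal.span {cc n d})) = 0

/-- **T1** for additive functions. PROOF. Let `χ₀` be as in `S_Ab`, `χ₂` as in `S_Ac`, `χ'` as in `S_Lc` (with `S_Lv`). By `AFun.mul` (`a = cc n d`, `b = ss n d`, `PA n` is a domain), `S_Ba`, `S_Bb`: `χ'.f (Res (rho n) (PA n / (ss))) = 0`. So `d ^ 2 • χ.f (Po ⧸ span (gA n d)) = 0`. -/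
def S_T1 : Prop :=
  ∀ (n d : ℕ) (V : Type 1) [AddCommGroup V] [Module ℚ V] (χ : AFun (Po (Ix n)) (Set.range (sF n d)) V), 2 ≤ d → d ≤ n + 3 →
    χ.f (Po (Ix n) ⧸ Ideal.span (gA n d)) = 0

end Pool.Agent.FY
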