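import Pool.Agent.Lib.MP_b53bfe_ag.Defs3

/-!
# Theorem T2 (MP_b53bfe_ag): the projective version of T1 (graded modules)

`T1` (proved, `S_T1`) is about ungraded modules. `T2`: in the Grothendieck group of the `ℤ³`-graded modules over the coordinate ring of
`X × X × X` modulo the irrelevant ones, the class of the small diagonal is a combination of the classes `O(a)` and `O_(Δ_ik)(a)`. In terms of additive functions: if `χ` vanishes
on the irrelevant modules, on all `O(a)` and all `O_(Δ_ik)(a)` (`Zer d χ`), then `χ` vanishes on the small diagonal (`S_GT`).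

Gradings are component functions `c : Dg → M →+ M` (see `Defs3.lean`; `IsGr`, `Stb`, `cS`, `cQ`, `cR`, `cE`, `cT`, `sh`). `S = Po (Ix n)`. The graded modules have no finiteness in degrees.
-/

set_option autoImplicit false

noncomputable section

namespace Pool.Agent.FY

open Polynomial

/-! ## Basics -/

/-- **Ga**. Shifts, stable submodules, quotients, kernels and images. Direct from the definitions (`cS`, `cQ` are defined by `if Stb c N`; for the quotient: `QuotientAddGroup.map`;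
finite sums `∑ᶠ` commute with additive maps: `AddMonoidHom.map_finsum`). For `r` homogeneous of degree `e`: `c (a + e) (r m) = r (c a m)`, so `range (mg M r)` and `ker (mg M r)` are stable. -/
def S_Ga : Prop :=
  ∀ (n : ℕ) (M : Type) [AddCommGroup M] [Module (Po (Ix n)) M] (c : Dg → M →+ M), IsGr n c →
    (∀ e : Dg, IsGr n (sh c e)) ∧
    (∀ N : Submodule (Po (Ix n)) M, Stb c N → IsGr n (cS c N) ∧ IsGr n (cQ c N) ∧
      (∀ (a : Dg) (x : N), ((cS c N a x : N) : M) = c a (x : M)) ∧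
      ∀ (a : Dg) (m : M), cQ c N a (Submodule.Quotient.mk m) = Submodule.Quotient.mk (c a m)) ∧
    ∀ (r : Po (Ix n)) (e : Dg), Hg n r e → Stb c (LinearMap.range (mg M r)) ∧ Stb c (LinearMap.ker (mg M r))

/-- **Gb**. Twists, polynomial modules. `gz p z`: `X_p` acts as `z X_p`, the rest as before. `cE p c`: `X_p` acts on `Ex p M` as multiplication by `X` (`k`-th coefficient becomes the `(k+1)`-st one), which has the degree `dg p`, and the other variables act on the coefficients. `X ^ d + C g` is homogeneous of degree `d • dg p` on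
`PolynomialModule`, so its range is stable and `cT` is a grading. -/
def S_Gb : Prop :=
  ∀ (n : ℕ) (M : Type) [AddCommGroup M] [Module (Po (Ix n)) M] (c : Dg → M →+ M), IsGr n c →
    (∀ (p : Ix n) (z : ℂ), IsGr n (cR (gz p z) c)) ∧
    (∀ p : Ix n, IsGr n (cE p c)) ∧
    ∀ (p : Ix n) (d : ℕ) (g : Po (Ix n)), Hg n g (d • dg p) → IsGr n (cT p d g c) ∧
      ∀ (a : Dg) (u : PolynomialModule (Po (Ix n)) M), cT p d g c a (Res.mk (nu p) (Submodule.Quotient.mk u)) =
        Res.mk (nu p) (Submodule.Quotient.mk (cX (R := Po (Ix n)) (dg p) c a u))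

/-- **Gi**. Homogeneous polynomials and ideals. `MvPolynomial.weightedHomogeneousComponent`; a weighted homogeneous `r` of degree `e` is a sum of monomials of degree `e`, and `IsGr.cst`, `IsGr.var` give the action of a monomial on the components. -/
def S_Gi : Prop :=
  ∀ n : ℕ, (∀ (r : Po (Ix n)) (e : Dg), MvPolynomial.IsWeightedHomogeneous (dg (n := n)) r e → Hg n r e) ∧ IsGr n (cP n) ∧
    ∀ A : Set (Po (Ix n)), (∀ r ∈ A, ∃ e : Dg, MvPolynomial.IsWeightedHomogeneous (dg (n := n)) r e) →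
      Stb (cP n) (Ideal.span A) ∧ IsGr n (cQ (cP n) (Ideal.span A))

/-- **Gu**. Basic properties of additive functions: zero, isomorphisms, stable submodules (`GFun.add` for `0 → N → M → M/N → 0`, with `S_Ga`). -/
def S_Gu : Prop :=
  ∀ (n : ℕ) (I : Set (Po (Ix n))) (V : Type 1) [AddCommGroup V] (χ : GFun n I V) (M : Type) [AddCommGroup M] [Module (Po (Ix n)) M]
    (c : Dg → M →+ M), IsGr n c → Module.Finite (Po (Ix n)) M → Kil I M →
    (Subsingleton M → χ.f M c = 0) ∧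
    (∀ (N : Type) [AddCommGroup N] [Module (Po (Ix n)) N] (c' : Dg → N →+ N) (e : M ≃ₗ[Po (Ix n)] N),
      (∀ (a : Dg) (m : M), e (c a m) = c' a (e m)) → χ.f M c = χ.f N c') ∧
    ∀ N : Submodule (Po (Ix n)) M, Stb c N → χ.f M c = χ.f N (cS c N) + χ.f (M ⧸ N) (cQ c N)

/-- **Gx**. The functor `N ↦ N[X_p]` (as in `S_Tha`, without the quotient). `Ex p N` is finite over `S` if `N` is finite and killed by `X_p` (the coefficients of `nu p r` act on `N` as `r`), killed by `r ∈ I` (`nu p r = C r`); exact: coefficientwise; compatible with `cE`. -/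
def S_Gx : Prop :=
  ∀ (n : ℕ) (p : Ix n) (I : Set (Po (Ix n))) (V : Type 1) [AddCommGroup V] (ψ : GFun n I V), (∀ r ∈ I, NI p r) →
    ∃ φ : GFun n (insert (MvPolynomial.X p) I) V, ∀ (N : Type) [AddCommGroup N] [Module (Po (Ix n)) N] (c : Dg → N →+ N),
      φ.f N c = ψ.f (Ex p N) (cE p c)

/-- **Gf** (fibre of a functional). PROOF. As `S_Ha`: `φ' (M, c)` is the index of multiplication by `X_p` (degree `dg p`): `φ (M / X_p M) - φ ((ker X_p)(-dg p))`. For a graded exact sequence `0 → A → B → C → 0` the snake sequence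
`0 → (ker_A)(-e) → (ker_B)(-e) → (ker_C)(-e) → A/X_p A → B/X_p B → C/X_p C → 0` (`e = dg p`) is an exact sequence of graded modules killed by `X_p` and `I`; cut it into short ones (images and kernels are stable) and use `GFun.add` for `φ`. (Another way, without the snake lemma: let `A ≤ B`, `C = B / A`, `x = X_p`, `K` = kernels of `x`, `e = dg p`. `B / x B ≥ (A + x B) / x B ≃ (A / x A) / ((A ∩ x B) / x A)` with quotient `C / x C`; `K_C = x⁻¹A / A ≥ (K_B + A) / A ≃ K_B / K_A` with quotient `x⁻¹A / (K_B + A)`; and `x : (x⁻¹A / (K_B + A))(-e) ≃ (A ∩ x B) / x A`.) -/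
def S_Gf : Prop :=
  ∀ (n : ℕ) (p : Ix n) (I : Set (Po (Ix n))) (V : Type 1) [AddCommGroup V] (φ : GFun n (insert (MvPolynomial.X p) I) V),
    ∃ φ' : GFun n I V, ∀ (M : Type) [AddCommGroup M] [Module (Po (Ix n)) M] (c : Dg → M →+ M),
      φ'.f M c = φ.f (M ⧸ LinearMap.range (mg M (MvPolynomial.X p : Po (Ix n)))) (cQ c _) -
        φ.f (LinearMap.ker (mg M (MvPolynomial.X p : Po (Ix n)))) (sh (cS c _) (-dg p))

/-- **Gr** (graded resolution). PROOF. As `S_Hr`. Let `M₀ = Res (gz p 0) M` (`X_p` acts by `0`; the other variables as before), `x : M₀ → M₀` the action of `X_p` on `M`, an `S`-linear map of `M₀`. Let `P ≤ M₀` be the `S`-submodule generated by finitely many homogeneous generators of `M` (the components of generators), `P_m = P + x P + ... + x ^ m P`: finitely generated and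
stable. As in `S_Hr` there is `m` such that `u ∈ P_{m+1}`, `x u ∈ P_{m+1}` imply `u ∈ P_m`, and so `u ∈ P_{m+1}`, `x ^ k u ∈ P_{m+k}`, `k ≥ 1` imply `u ∈ P_m`. `P₁ = P_m`, `P₂ = P_{m+1}` (with `cS (cR _ c) _`), `i (∑ v_k X ^ k) = ∑ (x v_k) X ^ k - ∑ v_k X ^ (k+1)`, `q (∑ u_k X ^ k) = ∑ x ^ k u_k`. The map `i` has degree `dg p`. The proof of `tHr` in `Hr.lean` can be adapted. -/
def S_Gr : Prop :=
  ∀ (n : ℕ) (p : Ix n) (I : Set (Po (Ix n))) (M : Type) [AddCommGroup M] [Module (Po (Ix n)) M] (c : Dg → M →+ M),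
    (∀ r ∈ I, NI p r) → Module.Finite (Po (Ix n)) M → Kil I M → IsGr n c →
    ∃ (P₁ P₂ : GM n) (i : Ex p P₁.M →ₗ[Po (Ix n)] Ex p P₂.M) (q : Ex p P₂.M →ₗ[Po (Ix n)] M),
      IsGr n P₁.c ∧ IsGr n P₂.c ∧ Module.Finite (Po (Ix n)) P₁.M ∧ Module.Finite (Po (Ix n)) P₂.M ∧
      Kil (insert (MvPolynomial.X p) I) P₁.M ∧ Kil (insert (MvPolynomial.X p) I) P₂.M ∧
      (∀ (a : Dg) (u : Ex p P₁.M), i (sh (cE p P₁.c) (-dg p) a u) = cE p P₂.c a (i u)) ∧
      (∀ (a : Dg) (u : Ex p P₂.M), q (cE p P₂.c a u) = c a (q u)) ∧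
      Function.Injective i ∧ Function.Surjective q ∧ Function.Exact i q

/-- **Gt** (graded fibre formula). PROOF. Let `φ` be from `S_Gx`, `ρ` from `S_Gf` for `φ`: `ρ (M, c) = ψ (Ex p (M / X_p M)) - ψ (Ex p ((ker X_p)(-dg p)))`. For `P` finite, killed by `X_p` and `I`: `X_p` is injective on `Ex p P`, `Ex p P / X_p ≃ P` (graded, also for shifts), so `ρ (Ex p P) = ψ (Ex p P)`, and the same for `(Ex p P)(e)`
(`sh (cE p c) e = cE p (sh c e)`). Apply `ρ.add` and `ψ.add` to the resolution `S_Gr`. -/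
def S_Gt : Prop :=
  ∀ (n : ℕ) (p : Ix n) (I : Set (Po (Ix n))) (V : Type 1) [AddCommGroup V] (ψ : GFun n I V) (M : Type) [AddCommGroup M]
    [Module (Po (Ix n)) M] (c : Dg → M →+ M), (∀ r ∈ I, NI p r) → Module.Finite (Po (Ix n)) M → Kil I M → IsGr n c →
    ψ.f M c = ψ.f (Ex p (M ⧸ LinearMap.range (mg M (MvPolynomial.X p : Po (Ix n))))) (cE p (cQ c _)) -
      ψ.f (Ex p (LinearMap.ker (mg M (MvPolynomial.X p : Po (Ix n))))) (cE p (sh (cS c _) (-dg p)))

/-- **Gth**. Graded version of `S_Tha`; the proof of `tTha` in `Tha.lean` can be adapted (`S_Gb` for the gradings; the maps between the `Th` commute with `cT`). -/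
def S_Gth : Prop :=
  ∀ (n : ℕ) (p : Ix n) (I₀ : Set (Po (Ix n))) (V : Type 1) [AddCommGroup V] (d : ℕ) (g : Po (Ix n))
    (χ : GFun n (insert (MvPolynomial.X p ^ d + g) I₀) V), 1 ≤ d → NI p g → Hg n g (d • dg p) → (∀ r ∈ I₀, NI p r) →
    ∃ ψ : GFun n (insert (MvPolynomial.X p) I₀) V,
      ∀ (P : Type) [AddCommGroup P] [Module (Po (Ix n)) P] (c : Dg → P →+ P), ψ.f P c = χ.f (Th p d g P) (cT p d g c)

/-- **Gts**. Graded version of `S_Ths`: in the exact sequence `0 → PM / (X - ζ^k x) → PM / q (X - ζ^k x) → PM / q → 0` (`q = ∏_{m<k} (X - ζ^m x)` homogeneous of degree `k • dg p`) the first term, embedded by `q`, is `M` with the twist `ζ ^ k`, shifted by `- k dg p`. The proof of `tThs` in `Ths.lean` can be adapted. -/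
def S_Gts : Prop :=
  ∀ (n : ℕ) (p : Ix n) (I₀ : Set (Po (Ix n))) (V : Type 1) [AddCommGroup V] (d : ℕ) (g : Po (Ix n))
    (χ : GFun n (insert (MvPolynomial.X p ^ d + g) I₀) V) (ζ : ℂ), 1 ≤ d → NI p g → Hg n g (d • dg p) → (∀ r ∈ I₀, NI p r) →
    IsPrimitiveRoot ζ d → ∀ (M : Type) [AddCommGroup M] [Module (Po (Ix n)) M] (c : Dg → M →+ M), IsGr n c →
      Module.Finite (Po (Ix n)) M → Kil (insert (MvPolynomial.X p ^ d + g) I₀) M →
      ∑ m ∈ Finset.range d, χ.f (Res (gz p (ζ ^ m)) M) (cR (gz p (ζ ^ m)) (sh c (-(m • dg p)))) =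
        χ.f (Th p d g (Res (gz p 0) M)) (cT p d g (cR (gz p 0) c))

/-- **Gw**. `tw χ i d ζ` is an additive function. `Res (gz ..) M` is finite (surjective, `ζ ≠ 0`), killed by the forms (`gz (i,1) (ζ ^ m)` fixes them as `ζ ^ d = 1`), graded by `S_Gb`. `KR`, `KV`: the powers of the variables act on `Res (gz ..) M` as multiples of themselves. The last statement: if `X_(i,1)` kills `M`, all the twists are equal to `M` (the two actions agree). -/
def S_Gw : Prop :=
  ∀ (n d : ℕ) (V : Type 1) [AddCommGroup V] (χ : GFun n (Set.range (sF n d)) V) (i : Fin 3) (ζ : ℂ), 1 ≤ d → IsPrimitiveRoot ζ d →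
    ∃ ψ : GFun n (Set.range (sF n d)) V,
      (∀ (M : Type) [AddCommGroup M] [Module (Po (Ix n)) M] (c : Dg → M →+ M), ψ.f M c = tw χ i d ζ M c) ∧
      (∀ l : Fin 3, KR χ l → KR ψ l) ∧ (∀ p : Ix n, KV χ p → KV ψ p) ∧
      (∀ (M : Type) [AddCommGroup M] [Module (Po (Ix n)) M] (c : Dg → M →+ M), IsGr n c → Module.Finite (Po (Ix n)) M →
        Kil (Set.range (sF n d)) M → (∀ m : M, (MvPolynomial.X ((i, 1) : Ix n) : Po (Ix n)) • m = 0) →
        ψ.f M c = (d : ℤ) • χ.f M c) ∧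
      ∀ (M : Type) [AddCommGroup M] [Module (Po (Ix n)) M] (c : Dg → M →+ M), IsGr n c → Module.Finite (Po (Ix n)) M →
        Kil (Set.range (sF n d)) M → ∀ m : ℕ,
        ψ.f (Res (gz ((i, 1) : Ix n) (ζ ^ m)) M) (cR (gz ((i, 1) : Ix n) (ζ ^ m)) c) = ψ.f M c

/-- **Gd** (the operator `D_i`). PROOF. `χ' = χ - (1/d) ψ`, `ψ` from `S_Gw`. `KV χ' (i, 1)`: the fourth property of `ψ`. Shift: `x = X_(i,1)`; for every additive `θ`: `θ (M, c) - θ (M, sh c (-er i)) = θ (M / x M) - θ ((ker x)(-er i))` (from `0 → (ker x)(-e) → M(-e) → M → M / x M → 0`), and for `θ = χ'` the right side is `0`. -/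
def S_Gd : Prop :=
  ∀ (n d : ℕ) (V : Type 1) [AddCommGroup V] [Module ℚ V] (χ : GFun n (Set.range (sF n d)) V) (i : Fin 3) (ζ : ℂ), 1 ≤ d →
    IsPrimitiveRoot ζ d → ∃ χ' : GFun n (Set.range (sF n d)) V,
      (∀ (M : Type) [AddCommGroup M] [Module (Po (Ix n)) M] (c : Dg → M →+ M),
        χ'.f M c = χ.f M c - (1 / (d : ℚ)) • tw χ i d ζ M c) ∧
      KV χ' (i, 1) ∧ (∀ l : Fin 3, KR χ l → KR χ' l) ∧ (∀ p : Ix n, KV χ p → KV χ' p) ∧
      ∀ (M : Type) [AddCommGroup M] [Module (Po (Ix n)) M] (c : Dg → M →+ M), IsGr n c → Module.Finite (Po (Ix n)) M →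
        Kil (Set.range (sF n d)) M → χ'.f M (sh c (-er i)) = χ'.f M c

/-- **Gp** (the `(n+3)`-rd difference vanishes). PROOF. Claim: for a list `ys` of different variables of the row `i` and `M` killed by the variables of the row `i` which are not in `ys`: `T_r (M, c) = ∑_{k ≤ r} (-1)^k (r choose k) χ.f M (sh c (-(k • er i))) = 0`, `r = ys.length`. `r = 0`: `M` is killed by all the variables of the row, `KR χ i`.
Step: `T_{r+1} (M) = T_r (M) - T_r (M(-er i)) = T_r (M / X_y M) - T_r ((ker X_y)(-er i))` (`T_r` is additive; exact sequence `0 → (ker X_y)(-e) → M(-e) → M → M / X_y M → 0`), `y` the head of the list. All `n + 3` variables: `M` arbitrary. -/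
def S_Gp : Prop :=
  ∀ (n : ℕ) (I : Set (Po (Ix n))) (V : Type 1) [AddCommGroup V] (χ : GFun n I V) (i : Fin 3), KR χ i →
    ∀ (M : Type) [AddCommGroup M] [Module (Po (Ix n)) M] (c : Dg → M →+ M), IsGr n c → Module.Finite (Po (Ix n)) M → Kil I M →
      ∑ k ∈ Finset.range (n + 4), ((-1) ^ k * ((n + 3).choose k : ℤ)) • χ.f M (sh c (-(k • er i))) = 0

/-- **Gbz**. PROOF. In `ℚ[t]` the polynomials `(1 - t)^N = ∑ (-1)^k (N choose k) t^k` and `1 + t + ... + t^(d-1)` are coprime (`1 - t` and `∑ t^m`: the value of the second one at `t = 1` is `d ≠ 0`). `t` acts on the functions `F : ℤ → V` by `(t F) b = F (b - 1)`; both polynomials kill `F`, so `F = 0`. -/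
def S_Gbz : Prop :=
  ∀ (V : Type 1) [AddCommGroup V] [Module ℚ V] (F : ℤ → V) (N d : ℕ), 1 ≤ d →
    (∀ b : ℤ, ∑ k ∈ Finset.range (N + 1), ((-1) ^ k * (N.choose k : ℤ)) • F (b - k) = 0) →
    (∀ b : ℤ, ∑ m ∈ Finset.range d, F (b - m) = 0) → ∀ b : ℤ, F b = 0

/-- the variables of the row `i` which are not in `ys` -/
def Rw (n : ℕ) (i : Fin 3) (ys : List (Ix n)) : Set (Po (Ix n)) := {r | ∃ p : Ix n, p.1 = i ∧ p ∉ ys ∧ r = MvPolynomial.X p}

/-- **Gn** (the parts of degree `b` in the row `i`). PROOF. `Nb` is generated by elements `m` with `c a m = m`, `a i = b`; the action of a variable of another row (which acts as before, `rk` fixes it) preserves this, the variables of the row `i` act by `0`. So `Nb` = the set of the `m` with `c a m = 0` for all `a` with `a i ≠ b` (such an `m` is the sum of its components).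
It is stable, hence graded. `Kil`: `r ∈ I₀` acts on `Res (rk n i) M` as `rk n i r = r`. Finite: `M` is generated by finitely many homogeneous `m_l` of degrees `a_l`; `Nb` is generated by the `w m_l`, `w` a monomial in the variables of the row `i` of degree `b - (a_l) i`. -/
def S_Gn : Prop :=
  ∀ (n : ℕ) (i : Fin 3) (I₀ : Set (Po (Ix n))) (M : Type) [AddCommGroup M] [Module (Po (Ix n)) M] (c : Dg → M →+ M),
    (∀ r ∈ I₀, rk n i r = r) → IsGr n c → Module.Finite (Po (Ix n)) M → Kil I₀ M → ∀ (b : ℤ) (e : Dg),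
      (∀ m : Res (rk n i) M, m ∈ Nb n i b c ↔ ∀ a : Dg, a i ≠ b → c a m.val = 0) ∧
      IsGr n (GM.nb (n := n) i b e ⟨M, c⟩).c ∧ Module.Finite (Po (Ix n)) (GM.nb (n := n) i b e ⟨M, c⟩).M ∧
      Kil (Rw n i [] ∪ I₀) (GM.nb (n := n) i b e ⟨M, c⟩).M ∧
      ∀ (a : Dg) (x : Nb n i b c), ((sh (cS (cR (rk n i) c) (Nb n i b c)) e a x : Nb n i b c) : Res (rk n i) M).val =
        c (a + e) (x : Res (rk n i) M).val

/-- **Gka**. PROOF. `M` is killed by the variables of the row `i`, so `rk n i` acts on `M` as the identity, the `Nb` are submodules of `M` up to this identification, and `M` is the finite direct sum of the parts of degree `b` (only finitely many are non-zero: generators). Induction on the number of non-zero parts, or the filtration by `{m : c a m = 0 for a i < b}`. -/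
def S_Gka : Prop :=
  ∀ (n : ℕ) (i : Fin 3) (I₀ : Set (Po (Ix n))) (V : Type 1) [AddCommGroup V] (ψ : GFun n (Rw n i [] ∪ I₀) V)
    (M : Type) [AddCommGroup M] [Module (Po (Ix n)) M] (c : Dg → M →+ M), (∀ r ∈ I₀, rk n i r = r) → IsGr n c →
    Module.Finite (Po (Ix n)) M → Kil (Rw n i [] ∪ I₀) M →
    ∃ c₀ : ℕ, ∀ C ≥ c₀, ψ.f M c = ∑ b ∈ Finset.Icc (-(C : ℤ)) C, ψ.g (GM.nb i b 0 ⟨M, c⟩)

/-- **Gkb** (exactness in degree `b`). PROOF. `y` a variable of the row `i`, `K = ker X_y`, `Q = M / X_y M`. `0 → K(-er i) → M(-er i) → M → Q → 0` gives in degree `b` of the row `i` an exact sequence of modules on which the variables of the row `i` act by `0`: `0 → K'_b → M_{b-1} → M_b → Q_b → 0`, where `K' = K(-er i)`; with the gradings as in the statement.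
Cut it into two short exact sequences (the image of `M_{b-1} → M_b` is stable), `GFun.add`. -/
def S_Gkb : Prop :=
  ∀ (n : ℕ) (i : Fin 3) (y : Ix n) (I₀ : Set (Po (Ix n))) (V : Type 1) [AddCommGroup V] (ψ : GFun n (Rw n i [] ∪ I₀) V)
    (M : Type) [AddCommGroup M] [Module (Po (Ix n)) M] (c : Dg → M →+ M), y.1 = i → (∀ r ∈ I₀, rk n i r = r) → IsGr n c →
    Module.Finite (Po (Ix n)) M → Kil I₀ M → ∀ (b : ℤ) (e : Dg),
    ψ.g (GM.nb i b e ⟨M ⧸ LinearMap.range (mg M (MvPolynomial.X y : Po (Ix n))), cQ c _⟩) -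
        ψ.g (GM.nb i b e ⟨LinearMap.ker (mg M (MvPolynomial.X y : Po (Ix n))), sh (cS c _) (-dg y)⟩) =
      ψ.g (GM.nb i b e ⟨M, c⟩) - ψ.g (GM.nb i (b - 1) (e - er i) ⟨M, c⟩)

/-- **Gks** (Koszul formula). PROOF. Induction on `ys`, for all `ψ` and `M`. `ys = []`: `S_Gka` (`k = 0` only, `sh _ (-(0 • er i))` is `sh _ 0`). Step `y :: ys`: let `φ N = ψ (Ex y N)` (`S_Gx`), an additive function for `Rw n i ys ∪ I₀` (`= insert X_y (Rw n i (y :: ys) ∪ I₀)`). By `S_Gt` `ψ M = φ (Q) - φ (K(-dg y))`, `Q = M / X_y M`, `K = ker X_y`. Use the induction hypothesis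
for `φ`, for `Q` and `K(-dg y)`; `φ.g (exs ys N) = ψ.g (exs (y :: ys) N)`. For fixed `b` put `A_k = φ.g (exs ys (nb i (b - k) (-(k • er i)) ⟨M, c⟩))`. The functional `N ↦ φ.g (exs ys N)` is (by `S_Gx`, repeatedly) a `GFun` for `Rw n i [] ∪ I₀`, so `S_Gkb` (with `e = -(k • er i)`) gives: the difference of the `k`-th terms for `Q` and `K(-dg y)` is
`A_k - A_{k+1}`. Pascal: `∑_k (-1)^k (r choose k) (A_k - A_{k+1}) = ∑_k (-1)^k (r+1 choose k) A_k`. -/
def S_Gks : Prop :=
  ∀ (n : ℕ) (i : Fin 3) (ys : List (Ix n)) (I₀ : Set (Po (Ix n))) (V : Type 1) [AddCommGroup V]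
    (ψ : GFun n (Rw n i ys ∪ I₀) V) (M : Type) [AddCommGroup M] [Module (Po (Ix n)) M] (c : Dg → M →+ M), ys.Nodup →
    (∀ y ∈ ys, y.1 = i) → (∀ r ∈ I₀, rk n i r = r) → (∀ r ∈ I₀, ∀ p : Ix n, p.1 = i → NI p r) → IsGr n c →
    Module.Finite (Po (Ix n)) M → Kil (Rw n i ys ∪ I₀) M →
    ∃ c₀ : ℕ, ∀ C ≥ c₀, ψ.f M c = ∑ b ∈ Finset.Icc (-(C : ℤ)) C, ∑ k ∈ Finset.range (ys.length + 1),
      ((-1) ^ k * (ys.length.choose k : ℤ)) • ψ.g (GM.exs ys (GM.nb i (b - k) (-(k • er i)) ⟨M, c⟩))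

/-- **Gxs** (the functional `N ↦ ψ (exs ys N)`). PROOF. `S_Gx` repeatedly (induction on `ys`). `KR φ k` for a row `k ≠ i`: `Ex y` preserves `being killed by the powers of X_(k,j)` (they act on the coefficients). -/
def S_Gxs : Prop :=
  ∀ (n : ℕ) (i : Fin 3) (ys : List (Ix n)) (I₀ : Set (Po (Ix n))) (V : Type 1) [AddCommGroup V]
    (ψ : GFun n (Rw n i ys ∪ I₀) V), ys.Nodup → (∀ y ∈ ys, y.1 = i) → (∀ r ∈ I₀, ∀ p : Ix n, p.1 = i → NI p r) →
    ∃ φ : GFun n (Rw n i [] ∪ I₀) V, (∀ N : GM n, φ.g N = ψ.g (GM.exs ys N)) ∧ ∀ k : Fin 3, k ≠ i → KR ψ k → KR φ k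

/-- **Gec** (values on cyclic modules). PROOF. Induction on `ys`: `Ex y (S / span (insert X_y B)) ≃ S / span B`, graded (also for shifts), if the elements of `B` do not involve `X_y` (`∑ [p_k] X^k ↦ [∑ p_k X_y^k]` with `p_k` not involving `X_y`). Here `B = Rw n i (y :: ys) ∪ A`, `insert X_y B = Rw n i ys ∪ A`. -/
def S_Gec : Prop :=
  ∀ (n : ℕ) (i : Fin 3) (ys : List (Ix n)) (I₀ A : Set (Po (Ix n))) (V : Type 1) [AddCommGroup V]
    (ψ : GFun n (Rw n i ys ∪ I₀) V) (e : Dg), ys.Nodup → (∀ y ∈ ys, y.1 = i) → (∀ r ∈ A, ∀ p : Ix n, p.1 = i → NI p r) →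
    (∀ r ∈ I₀, ∀ p : Ix n, p.1 = i → NI p r) →
    (∀ r ∈ A, ∃ a : Dg, MvPolynomial.IsWeightedHomogeneous (dg (n := n)) r a) → (∀ r ∈ I₀, r ∈ Ideal.span A) →
    ψ.g (GM.exs ys ⟨Po (Ix n) ⧸ Ideal.span (Rw n i [] ∪ A), sh (cQ (cP n) (Ideal.span (Rw n i [] ∪ A))) e⟩) =
      ψ.cy (Ideal.span (Rw n i ys ∪ A)) e

/-- **Get**. PROOF. `Th p d g (S / span (insert X_p A)) ≃ S / span (insert (X_p ^ d + g) A)`, graded, if `g` and the elements of `A` do not involve `X_p`: both are `S / (A)` modulo `X_p ^ d + g`, by `Ex p (S / span (insert X_p A)) ≃ S / span A`. -/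
def S_Get : Prop :=
  ∀ (n : ℕ) (p : Ix n) (d : ℕ) (g : Po (Ix n)) (I₀ A : Set (Po (Ix n))) (V : Type 1) [AddCommGroup V]
    (χ : GFun n (insert (MvPolynomial.X p ^ d + g) I₀) V) (e : Dg), 1 ≤ d → NI p g → Hg n g (d • dg p) → (∀ r ∈ A, NI p r) →
    (∀ r ∈ A, ∃ a : Dg, MvPolynomial.IsWeightedHomogeneous (dg (n := n)) r a) →
    MvPolynomial.IsWeightedHomogeneous (dg (n := n)) g (d • dg p) → (∀ r ∈ I₀, r ∈ Ideal.span A) →
    χ.f (Th p d g (Po (Ix n) ⧸ Ideal.span (insert (MvPolynomial.X p) A)))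
        (cT p d g (sh (cQ (cP n) (Ideal.span (insert (MvPolynomial.X p) A))) e)) =
      χ.cy (Ideal.span (insert (MvPolynomial.X p ^ d + g) A)) e

/-- `X_(i, j) ↦ X_(k, j)`, the other variables are fixed -/
def sb (n : ℕ) (i k : Fin 3) : Po (Ix n) →+* Po (Ix n) :=
  (MvPolynomial.aeval (fun p : Ix n => if p.1 = i then (MvPolynomial.X (k, p.2) : Po (Ix n)) else MvPolynomial.X p) :
    Po (Ix n) →ₐ[ℂ] Po (Ix n)).toRingHom

/-- **Gz** (comparison). PROOF. `J = span A`, `J' = span (Rw n i [] ∪ A')`. Let `b' = b + e₀ i` be the true degree in the row `i`. If `b' < 0` the module is `0`. The elements of `Nb` are the classes of the `p` which are homogeneous of degree `b'` in the variables of the row `i`. `Φ [p] = [sb n i k p] ∈ S / J'`: well defined (if `p ∈ J` has degree `b'` in the row `i`, `sb p ∈ span A'`),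
`S`-linear (the variables of the row `i` act by `0` on both sides), homogeneous up to a shift. Kernel: if `sb p ∈ J'`, then `sb p = rk (sb p) ∈ span (rk A') = span A' ≤ J`, and `X_(k,j) ^ b' p ≡ X_(i,j) ^ b' sb p` modulo the minors `mn n i k` (which are in `J`), so `X_(k,j) ^ b' p ∈ J`: the kernel is killed by `X_(k,j) ^ b'` for all `j`.
Cokernel: a monomial without variables of the row `i` and of degree `≥ b'` in the row `k` is `sb` of a monomial of degree `b'` in the row `i`; so the cokernel is killed by `X_(k,j) ^ b'`. By `KR φ k` the values on the kernel and the cokernel vanish, so `φ.g (nb ..) = φ (S/J' shifted) = 0`. -/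
def S_Gz : Prop :=
  ∀ (n : ℕ) (i k : Fin 3) (I₀ A A' : Set (Po (Ix n))) (V : Type 1) [AddCommGroup V] (φ : GFun n (Rw n i [] ∪ I₀) V), i ≠ k →
    (∀ r ∈ A, ∃ a : Dg, MvPolynomial.IsWeightedHomogeneous (dg (n := n)) r a) →
    (∀ r ∈ A', ∃ a : Dg, MvPolynomial.IsWeightedHomogeneous (dg (n := n)) r a) →
    (∀ r ∈ A', rk n i r = r) → (∀ r ∈ I₀, rk n i r = r) → (∀ r ∈ I₀, r ∈ Ideal.span A') → (∀ r ∈ A', r ∈ Ideal.span A) →
    (∀ r ∈ A, sb n i k r ∈ Ideal.span A') → (∀ j j' : Fin (n + 3), mn n i k j j' ∈ Ideal.span A) → KR φ k →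
    (∀ e : Dg, φ.cy (Ideal.span (Rw n i [] ∪ A')) e = 0) →
    ∀ (b : ℤ) (e e₀ : Dg), φ.g (GM.nb i b e ⟨Po (Ix n) ⧸ Ideal.span A, sh (cQ (cP n) (Ideal.span A)) e₀⟩) = 0

/-- **Gq**. PROOF. `ψ = tw χ i`, `x = X_(i,1)`, `g = ∑_{j ≠ 1} X_(i,j) ^ d`, `sF n d i = x ^ d + g`, `Set.range (sF n d) = insert (x ^ d + g) (oF n d i)`. By `S_Gts` the right side is `d • ∑_m χ.f (twist m of M, shifted by -m)`. By `S_Gd` (`χ' = χ - ψ/d` is invariant under the shift by `er i`) applied to the twist `m` of `M`, and `ψ (twist of M) = ψ (M)` (`S_Gw`), for the shifts: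
`χ (twist_m M (-m)) = χ (twist_m M) - (1/d) (ψ (M) - ψ (M(-m)))`. Sum over `m < d`: `ψ (M) - ψ (M) + (1/d) ∑_m ψ (M(-m))`. -/
def S_Gq : Prop :=
  ∀ (n d : ℕ) (V : Type 1) [AddCommGroup V] [Module ℚ V] (χ : GFun n (Set.range (sF n d)) V) (i : Fin 3) (ζ : ℂ), 1 ≤ d →
    IsPrimitiveRoot ζ d → ∀ (M : Type) [AddCommGroup M] [Module (Po (Ix n)) M] (c : Dg → M →+ M), IsGr n c →
      Module.Finite (Po (Ix n)) M → Kil (Set.range (sF n d)) M →
      ∑ m ∈ Finset.range d, tw χ i d ζ M (sh c (-(m • er i))) =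
        (d : ℤ) • χ.f (Th ((i, 1) : Ix n) d (∑ j ∈ Finset.univ.erase (1 : Fin (n + 3)), xv n i j ^ d) (Res (gz ((i, 1) : Ix n) 0) M))
          (cT ((i, 1) : Ix n) d (∑ j ∈ Finset.univ.erase (1 : Fin (n + 3)), xv n i j ^ d) (cR (gz ((i, 1) : Ix n) 0) c))

/-- **Gc** (the claims). PROOF. Let `A = gA n d` (first claim; `A' = {minors of the two rows k, l ≠ i} ∪ {the forms of k, l}`, where `k` is any row `≠ i`) or `A = gP n d i k` (second claim; `A' = oF n d i`), `I₀ = oF n d i`, `M = S / span A`, `c = sh (cQ ..) e`. `F b = tw χ i (M, sh c (b • er i))`. By `S_Gbz` it is enough to show (1) the `(n+3)`-rd difference of `F` vanishes: `S_Gp` for `ψ` of `S_Gw` (`KR χ i`),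
(2) `∑_{m<d} F (b - m) = 0`: by `S_Gq` this is `d • χ.f (Th .. (Res (gz (i,1) 0) M))`, the value of `ψ_B` (`S_Gth`, an additive function for `insert X_(i,1) (oF n d i) = Rw n i ys ∪ I₀` with `ys` = the variables of the row `i` different from `(i,1)`) on `M' = Res (gz (i,1) 0) M` (with the shift). By `S_Gks` it is a combination of the `ψ_B (exs ys (nb i b e' M'))`,
so it is enough that these vanish. `φ = ` the functional of `S_Gxs`; `nb` of `M'` is equal to `nb` of `M` (`rk n i` kills `X_(i,1)` anyway). Use `S_Gz` for `φ`: `KR φ k` from `KR χ k` (`Th` and `Ex` preserve being killed by powers of the `X_(k,j)`); `φ.cy (span (Rw n i [] ∪ A')) e = ψ_B.cy (span (Rw n i ys ∪ A')) e = χ.cy (span (insert (sF n d i) A')) e` by `S_Gec`, `S_Get`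
(`Rw n i ys = {X_(i,1)}`), and `insert (sF n d i) A'` is (up to signs and zeros) `gP n d k l` resp. `Set.range (sF n d)`: the same ideals. So it vanishes by `Zer d χ`. -/
def S_Gc : Prop :=
  ∀ (n d : ℕ) (V : Type 1) [AddCommGroup V] [Module ℚ V] (χ : GFun n (Set.range (sF n d)) V) (ζ : ℂ), 1 ≤ d →
    IsPrimitiveRoot ζ d → Zer d χ → ∀ (i : Fin 3) (e : Dg),
      tw χ i d ζ (Po (Ix n) ⧸ Ideal.span (gA n d)) (sh (cQ (cP n) (Ideal.span (gA n d))) e) = 0 ∧
      ∀ k : Fin 3, i ≠ k →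
        tw χ i d ζ (Po (Ix n) ⧸ Ideal.span (gP n d i k)) (sh (cQ (cP n) (Ideal.span (gP n d i k))) e) = 0

/-- **GD** (the averages). PROOF. `χ₀ = D_0 D_1 D_2 χ`, `D_i` from `S_Gd`. `Zer d χ ⟹ Zer d (D_i χ)`: `KR` by `S_Gd`; on `O(e)`: all the twists of `S / (forms)` are isomorphic to it (`gz (i,1) (ζ^m)` fixes the ideal), so `tw = d • 0`; on `S / span (gP n d k l)`: if `i ∈ {k, l}` by `S_Gc` (`gP n d k l` and `gP n d l k` span the same ideal), otherwise the twists are isomorphic to it. And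
`(D_i χ).cy (span (gA n d)) e = χ.cy (span (gA n d)) e` by `S_Gc`. `KV χ₀ (i,1)`: `KV (D_i χ') (i,1)` and `D_j` preserves `KV`. -/
def S_GD : Prop :=
  ∀ (n d : ℕ) (V : Type 1) [AddCommGroup V] [Module ℚ V] (χ : GFun n (Set.range (sF n d)) V) (ζ : ℂ), 1 ≤ d →
    IsPrimitiveRoot ζ d → Zer d χ → ∃ χ₀ : GFun n (Set.range (sF n d)) V, (∀ i : Fin 3, KV χ₀ (i, 1)) ∧
      χ₀.cy (Ideal.span (gA n d)) 0 = χ.cy (Ideal.span (gA n d)) 0

/-! ## Dehomogenisation -/

/-- the product of the variables of the column `1` -/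
def uu (n : ℕ) : Po (Ix n) := ∏ i : Fin 3, MvPolynomial.X ((i, 1) : Ix n)

/-- the elements `X_(i,1) - 1` -/
def U1 (n : ℕ) : Set (Po (Ix n)) := Set.range fun i : Fin 3 => (MvPolynomial.X ((i, 1) : Ix n) - 1 : Po (Ix n))

/-- **Gla** (lattices). PROOF. As `S_La`. For two such `L`, `L'` also `L + L'`; `(L + L') / L` is finitely generated, graded, killed by `I` and by a power of `u = uu n`; it has a finite filtration by stable submodules with quotients killed by one of the variables `X_(i,1)` (first powers of `X_(0,1)`, then ...), so `χ` vanishes on it (`KV`). -/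
def S_Gla : Prop :=
  ∀ (n : ℕ) (I : Set (Po (Ix n))) (V : Type 1) [AddCommGroup V] (χ : GFun n I V), (∀ i : Fin 3, KV χ (i, 1)) →
    ∃ G : (M : Type) → [AddCommGroup M] → [Module (Po (Ix n)) M] → (Dg → M →+ M) → V,
      ∀ (M : Type) [AddCommGroup M] [Module (Po (Ix n)) M] (c : Dg → M →+ M), Kil I M → IsGr n c →
        ∀ L : Submodule (Po (Ix n)) M, L.FG → Stb c L → (∀ x : M, ∃ k : ℕ, uu n ^ k • x ∈ L) → G M c = χ.f L (cS c L)

/-- the graded modules `E N = ⊕_a T ^ a N` (all degrees `a`), for arbitrary `S`-modules `N`; `t N a m = T ^ a m`. A homogeneous polynomial `r` of degree `f` acts by `T ^ a m ↦ T ^ (a + f) (r m)` -/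
structure ED (n : ℕ) where
  E : (N : Type) → [AddCommGroup N] → [Module (Po (Ix n)) N] → GM n
  t : (N : Type) → [AddCommGroup N] → [Module (Po (Ix n)) N] → Dg → N →+ (E N).M
  gr : ∀ (N : Type) [AddCommGroup N] [Module (Po (Ix n)) N], IsGr n (E N).c
  comp : ∀ (N : Type) [AddCommGroup N] [Module (Po (Ix n)) N] (a : Dg) (m : N), (E N).c a (t N a m) = t N a m
  inj : ∀ (N : Type) [AddCommGroup N] [Module (Po (Ix n)) N] (a : Dg), Function.Injective (t N a)
  gen : ∀ (N : Type) [AddCommGroup N] [Module (Po (Ix n)) N] (a : Dg) (x : (E N).M), ∃ m : N, (E N).c a x = t N a m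
  act : ∀ (N : Type) [AddCommGroup N] [Module (Po (Ix n)) N] (r : Po (Ix n)) (f : Dg),
    MvPolynomial.IsWeightedHomogeneous (dg (n := n)) r f → ∀ (a : Dg) (m : N), r • t N a m = t N (a + f) (r • m)
  map : ∀ (A B : Type) [AddCommGroup A] [Module (Po (Ix n)) A] [AddCommGroup B] [Module (Po (Ix n)) B] (l : A →ₗ[Po (Ix n)] B),
    ∃ F : (E A).M →ₗ[Po (Ix n)] (E B).M, (∀ (a : Dg) (m : A), F (t A a m) = t B a (l m)) ∧
      ∀ (a : Dg) (x : (E A).M), F ((E A).c a x) = (E B).c a (F x)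

/-- **Ge**. PROOF. For example `E N = Dg →₀ N` with the module structure given by the ring hom `S → Module.End ℤ (Dg →₀ N)`, `MvPolynomial.eval₂Hom` with `C z ↦` (`z` on the coefficients), `X_p ↦ (single a m ↦ single (a + dg p) (X_p m))` (these commute), or `E N = Res γ (AddMonoidAlgebra S Dg ⊗[S] N)`,
`γ : S → AddMonoidAlgebra S Dg` the ring hom `X_p ↦ single (dg p) X_p`. `c a = ` the projection to the coefficient `a`. `act`: monomials. -/
def S_Ge : Prop := ∀ n : ℕ, Nonempty (ED n)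

/-- **Gle** (lattices in `E N`). PROOF. `X_(i,1)` acts on `N` as the identity (`U1` kills `N`), so `X_(i,1) T^a m = T^(a + er i) m` and `uu^k T^a m = T^(a + k (1,1,1)) m`. `L` = the `S`-submodule generated by the `T^0 m_l`, `m_l` (finitely many) generators of `N`; it is stable (generated by homogeneous elements). Let `x = T^a m` (every element is a finite sum of such elements: `IsGr.sum`, `gen`),
`m = ∑ r_l m_l`, `r_l = ∑_f r_{l,f}` the homogeneous components (degrees `f ≥ 0`): `r_{l,f} T^0 m_l = T^f r_{l,f} m_l ∈ L`; if `k` is so large that `a + k (1,1,1) - f ≥ 0` for the finitely many `f`, then `T^(a + k(1,1,1)) r_{l,f} m_l = (product of powers of the X_(i,1)) T^f r_{l,f} m_l ∈ L`. -/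
def S_Gle : Prop :=
  ∀ (n : ℕ) (D : ED n) (N : Type) [AddCommGroup N] [Module (Po (Ix n)) N], Module.Finite (Po (Ix n)) N → Kil (U1 n) N →
    ∀ s : Finset N, Submodule.span (Po (Ix n)) (s : Set N) = ⊤ →
      Stb (D.E N).c (Submodule.span (Po (Ix n)) (D.t N 0 '' (s : Set N))) ∧
      ∀ x : (D.E N).M, ∃ k : ℕ, uu n ^ k • x ∈ Submodule.span (Po (Ix n)) (D.t N 0 '' (s : Set N))

/-- **Glv** (value on `N = S / (U1 + A)`). PROOF. `J = span A`, `e = T^0 1 ∈ E N`. `L = S e ≃ S / K`, `K = {p : p e = 0}`. For `p = ∑ p_f` (homogeneous components) `p e = ∑ T^f p_f 1`, so `p ∈ K` iff all `p_f ∈ span (U1 ∪ A)`; so `K` is stable, and the isomorphism `S / K ≃ L` is graded. For a homogeneous `p` of degree `f`: `p ∈ span (U1 ∪ A)` iff `uu^k p ∈ J` for some `k`: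
if `uu^k p ∈ J`, then `p ≡ uu^k p` mod `U1`. Conversely let `h : S → (S/J)[1/uu]`, `X_p ↦ X_p / X_(p.1,1)` (a `ℂ`-algebra hom; for `q` homogeneous of degree `f`: `h q = q / ∏_i X_(i,1)^(f i)`); it kills `A` and `X_(i,1) - 1`, so `h p = 0`, `uu^k p ∈ J`. `J ≤ K`, `K / J` is finitely generated, graded, killed by a power of `uu`, so it has a finite filtration by stable submodules
with quotients killed by one of the `X_(i,1)` (`N ≥ x_0 N ≥ x_0 x_1 N ≥ uu N ≥ ..`), so `χ (K/J) = 0` and `χ (S/J) = χ (S/K) = χ (L)`. -/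
def S_Glv : Prop :=
  ∀ (n : ℕ) (D : ED n) (I A : Set (Po (Ix n))) (V : Type 1) [AddCommGroup V] (χ : GFun n I V), (∀ i : Fin 3, KV χ (i, 1)) →
    (∀ r ∈ A, ∃ a : Dg, MvPolynomial.IsWeightedHomogeneous (dg (n := n)) r a) → (∀ r ∈ I, r ∈ Ideal.span A) →
    χ.f (Submodule.span (Po (Ix n)) {D.t (Po (Ix n) ⧸ Ideal.span (U1 n ∪ A)) 0 (Ideal.Quotient.mk _ 1)})
        (cS (D.E (Po (Ix n) ⧸ Ideal.span (U1 n ∪ A))).c
          (Submodule.span (Po (Ix n)) {D.t (Po (Ix n) ⧸ Ideal.span (U1 n ∪ A)) 0 (Ideal.Quotient.mk _ 1)})) =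
      χ.cy (Ideal.span A) 0

/-- **Glb** (dehomogenisation). PROOF. `D : ED n` from `S_Ge`, `G` from `S_Gla`, `χb.f N := G (D.E N).M (D.E N).c`. For `N` finite, killed by `U1 n ∪ I`: `E N` is killed by `I` (a homogeneous `r ∈ I` acts as `T^a m ↦ T^(a+f) (r m) = 0`; every element is a finite sum of elements `T^a m`). Additivity: for `0 → A → B → C → 0` the sequence of the `E` (maps from `ED.map`) is exact (look at the components: `gen`, `inj`);
let `L` be a lattice in `E B` (`S_Gle`), `L_A` its preimage in `E A` (finitely generated since `S` is noetherian, stable, `uu^k x ∈ L_A`), `L_C` its image in `E C`; `0 → L_A → L → L_C → 0` is exact and graded: `GFun.add` for `χ` and `S_Gla` three times. Value: `S_Gla` for the lattice of `S_Gle` with `s = {1}`, and `S_Glv`. -/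
def S_Glb : Prop :=
  ∀ (n : ℕ) (I : Set (Po (Ix n))) (V : Type 1) [AddCommGroup V] (χ : GFun n I V), (∀ i : Fin 3, KV χ (i, 1)) →
    (∀ r ∈ I, ∃ a : Dg, MvPolynomial.IsWeightedHomogeneous (dg (n := n)) r a) →
    ∃ χb : AFun (Po (Ix n)) (U1 n ∪ I) V, ∀ A : Set (Po (Ix n)),
      (∀ r ∈ A, ∃ a : Dg, MvPolynomial.IsWeightedHomogeneous (dg (n := n)) r a) → (∀ r ∈ I, r ∈ Ideal.span A) →
      χb.f (Po (Ix n) ⧸ Ideal.span (U1 n ∪ A)) = χ.cy (Ideal.span A) 0

/-- **Fr**. PROOF. `S_Sn` (the index of `mg M r`). -/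
def S_Fr : Prop :=
  ∀ (R : Type) [CommRing R] [IsNoetherianRing R] (r : R) (I : Set R) (V : Type 1) [AddCommGroup V] (χ : AFun R (insert r I) V),
    ∃ χ' : AFun R I V, ∀ (M : Type) [AddCommGroup M] [Module R M],
      χ'.f M = χ.f (M ⧸ LinearMap.range (mg M r)) - χ.f (LinearMap.ker (mg M r))

/-- **Fx**. PROOF. `S_Fr` three times, for `r_0, r_1, r_2`, `r_i = X_(i,1) - 1` (`U1 n ∪ I = insert r_0 (insert r_1 (insert r_2 I))` as conditions). For `A` homogeneous multiplication by `r_i` is injective on `S / span (A ∪ {r_l : l < i})`: this ring is graded by the degree in the row `i` (the `r_l`, `l < i`, do not involve the row `i`), and if `(x - 1) p = 0`, `x` of degree `1`, then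
the lowest component of `p` vanishes. So `χs.f (S / span A) = χb.f (S / span (U1 n ∪ A))`. -/
def S_Fx : Prop :=
  ∀ (n : ℕ) (I : Set (Po (Ix n))) (V : Type 1) [AddCommGroup V] (χb : AFun (Po (Ix n)) (U1 n ∪ I) V),
    ∃ χs : AFun (Po (Ix n)) I V, ∀ A : Set (Po (Ix n)),
      (∀ r ∈ A, ∃ a : Dg, MvPolynomial.IsWeightedHomogeneous (dg (n := n)) r a) → (∀ r ∈ I, r ∈ Ideal.span A) →
      χs.f (Po (Ix n) ⧸ Ideal.span A) = χb.f (Po (Ix n) ⧸ Ideal.span (U1 n ∪ A))

/-- **GT** (T2 for additive functions). PROOF. `χ₀` from `S_GD`, `χb` from `S_Glb`, `χs` from `S_Fx`: `χ.cy (span (gA n d)) 0 = χ₀.cy .. = χb.f .. = χs.f (S / span (gA n d)) = 0` by `S_T1`. -/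
def S_GT : Prop :=
  ∀ (n d : ℕ) (V : Type 1) [AddCommGroup V] [Module ℚ V] (χ : GFun n (Set.range (sF n d)) V), 2 ≤ d → d ≤ n + 3 → Zer d χ →
    χ.cy (Ideal.span (gA n d)) 0 = 0

end Pool.Agent.FY
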