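import Pool.Agent.Lib.MP_b53bfe_ag.Spec2
import Pool.Agent.Lib.MP_b53bfe_ag.Bas

/-!
# Module Stq: one step of the chain (author helper62)
-/

set_option autoImplicit false

noncomputable section

namespace Pool.Agent.FY

open Polynomial

namespace Stq_aux

/-- `LFin` for the zero module -/
theorem lfin_zero {W M : Type} [CommRing W] [AddCommGroup M] [Module W M] [Subsingleton M] (β : M ≃ₗ[W] M) :
    LFin β := by
  refine ⟨⊥, Submodule.fg_bot, fun m => ⟨0, 0, ?_⟩⟩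
  rw [Subsingleton.elim ((β ^ 0) m) 0]
  exact Submodule.zero_mem _

/-- the value on the zero module -/
theorem bf_punit {W : Type} [CommRing W] {f g : W} {I₀ : Set W} {V : Type 1} [AddCommGroup V] (Ψ : BFun W f g I₀ V)
    (γ : PUnit ≃ₗ[W] PUnit) : Ψ.F PUnit γ = 0 := by
  have h := Ψ.add PUnit PUnit PUnit γ γ γ LinearMap.id LinearMap.id (lfin_zero γ) (fun r _ m => rfl)
    (fun m => rfl) (fun a => rfl) (fun b => rfl) (fun a b _ => rfl) (fun a => ⟨a, rfl⟩)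
    (fun a => ⟨fun _ => ⟨a, rfl⟩, fun _ => rfl⟩)
  have h2 : Ψ.F PUnit γ + 0 = Ψ.F PUnit γ + Ψ.F PUnit γ := by rw [add_zero]; exact h
  exact (add_left_cancel h2).symm

/-- isomorphic pairs have the same value -/
theorem bf_iso {W : Type} [CommRing W] {f g : W} {I₀ : Set W} {V : Type 1} [AddCommGroup V] (Ψ : BFun W f g I₀ V)
    {A B : Type} [AddCommGroup A] [Module W A] [AddCommGroup B] [Module W B] (α : A ≃ₗ[W] A) (β : B ≃ₗ[W] B)
    (e : A ≃ₗ[W] B) (he : ∀ a, e (α a) = β (e a)) (hL : LFin β) (hk : Kil I₀ B) (hr : Rel f g β) :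
    Ψ.F B β = Ψ.F A α := by
  have h := Ψ.add A B PUnit α β (LinearEquiv.refl W PUnit) e.toLinearMap 0 hL hk hr he
    (fun b => rfl) e.injective (fun a => ⟨0, rfl⟩)
    (fun b => ⟨fun _ => ⟨e.symm b, e.apply_symm_apply b⟩, fun _ => rfl⟩)
  rw [h, bf_punit, add_zero]

end Stq_aux

open Stq_aux

theorem tStq : S_Jx → S_Stp → S_PB → S_Tl → S_Tw → S_Tp → S_Ee → S_Ef → S_Stq := by
  intro hJx hStp hPB hTl hTw hTp hEe hEf σ _ _ i j f g I₀ V _ _ δ d ζ χ hd hζ hig hiI hif hiP hjf hjI hjg hjP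
    hf hg hI
  have s1 : St χ I₀ g f := hStp σ i f g I₀ V d ζ χ hd hζ hig hiI hif hiP
  have hset : ∀ (M : Type) [AddCommGroup M] [Module (Po σ) M], Kil ({g, f} ∪ I₀) M → Kil ({f, g} ∪ I₀) M := by
    intro M _ _ h
    obtain ⟨h1, h2, h3⟩ := Kil.pair.1 h
    exact Kil.pair.2 ⟨h2, h1, h3⟩
  have s2 : St χ I₀ f g := hStp σ j g f I₀ V d ζ (χ.mono ({g, f} ∪ I₀) hset) hd hζ hjf hjI hjg
    (fun M _ _ hM hk => hjP M hM (hset M hk))
  obtain ⟨Ψ, hΨ⟩ := hJx (Po σ) f g I₀ V χ s1 s2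
  obtain ⟨χ₁, hχ₁⟩ := hTw σ δ d f g I₀ V Ψ hd hf hg hI
  refine ⟨χ₁, ?_, ?_⟩
  · intro k hk hkf hkg hkI
    exact hTp σ δ d f g I₀ V Ψ hd hf hg hI χ₁ hχ₁ k d ζ hζ hkf hkg hkI
      (hPB σ k f g I₀ V χ Ψ d ζ hΨ hk hζ hkf hkg hkI)
  · intro A hA hfA hgA hIA
    obtain ⟨e, he⟩ := hEe σ δ d A hA
    have hz : ∀ r ∈ Ideal.span A, ∀ m : Po σ ⧸ Ideal.span A, r • m = 0 := by
      intro r hr m
      obtain ⟨x, rfl⟩ := Submodule.Quotient.mk_surjective _ m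
      rw [← Submodule.Quotient.mk_smul, Submodule.Quotient.mk_eq_zero, smul_eq_mul]
      exact Ideal.mul_mem_right _ _ hr
    have hz2 : ∀ r ∈ Ideal.span A, ∀ z : TM δ (Po σ ⧸ Ideal.span A), r • z = 0 := by
      intro r hr z
      apply e.injective
      rw [map_smul, map_zero]
      ext a
      rw [Finsupp.smul_apply, hz r hr]
      rfl
    have hk : Kil ({f, g} ∪ I₀) (Po σ ⧸ Ideal.span A) := Kil.pair.2 ⟨hz f hfA, hz g hgA, fun r hr => hz r (hIA r hr)⟩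
    have h1 := hEf (Po σ) f g I₀ V χ Ψ d hΨ hd (Po σ ⧸ Ideal.span A) inferInstance hk
    rw [hχ₁, ← h1]
    refine bf_iso Ψ _ _ e.symm (fun a => ?_) (hTl σ δ d _ hd inferInstance) (fun r hr z => hz2 r (hIA r hr) z)
      (fun z => ?_)
    · apply e.injective
      rw [he, e.apply_symm_apply, e.apply_symm_apply]
    · rw [hz2 f hfA, hz2 g hgA, map_zero]
      exact add_zero (0 : TM δ (Po σ ⧸ Ideal.span A))

end Pool.Agent.FY
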